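import Pool.Agent.P.MP_2d26dd_al.T1

/-! First-order amplification of the gap. -/

namespace Pool.Agent.P.MP_2d26dd_al

open scoped InnerProductSpace

variable {ι : Type} [DecidableEq ι] {V : Type} [NormedAddCommGroup V] [InnerProductSpace ℝ V]
  [FiniteDimensional ℝ V] (ρ : AutF ι →* (V ≃ₗᵢ[ℝ] V))

omit [DecidableEq ι] [FiniteDimensional ℝ V] in
theorem A1_rho_mul (g h : AutF ι) (v : V) : ρ (g * h) v = ρ g (ρ h v) := by
  rw [map_mul]; rfl

omit [DecidableEq ι] [FiniteDimensional ℝ V] in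
theorem A1_rho_one (v : V) : ρ 1 v = v := by
  rw [map_one]; rfl

omit [DecidableEq ι] [FiniteDimensional ℝ V] in
theorem A1_inner_left (g : AutF ι) (a b : V) : ⟪ρ g a, b⟫_ℝ = ⟪a, ρ g⁻¹ b⟫_ℝ := by
  have : b = ρ g (ρ g⁻¹ b) := by rw [← A1_rho_mul, mul_inv_cancel, A1_rho_one]
  conv_lhs => rw [this]
  exact (ρ g).inner_map_map _ _

omit [DecidableEq ι] [FiniteDimensional ℝ V] in
theorem A1_mem_Fix {B : Finset ι} {v : V} : v ∈ Fix ρ B ↔ ∀ h ∈ H B, ρ h v = v := Iff.rfl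

omit [DecidableEq ι] [FiniteDimensional ℝ V] in
theorem A1_Fix_anti {B B' : Finset ι} (h : B ⊆ B') : Fix ρ B' ≤ Fix ρ B :=
  fun _ hv g hg => hv g (H_mono h hg)

theorem A1_image_swap {X : Finset ι} {i k : ι} (hi : i ∈ X) (hk : k ∈ X) :
    (X.erase i).image (Equiv.swap i k) = X.erase k := by
  ext x
  simp only [Finset.mem_image, Finset.mem_erase]
  constructor
  · rintro ⟨y, ⟨hyi, hy⟩, rfl⟩
    by_cases hyk : y = k
    · subst hyk
      rw [Equiv.swap_apply_right]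
      exact ⟨fun h => hyi h.symm, hi⟩
    · rw [Equiv.swap_apply_of_ne_of_ne hyi hyk]
      exact ⟨hyk, hy⟩
  · rintro ⟨hxk, hx⟩
    by_cases hxi : x = i
    · subst hxi
      exact ⟨k, ⟨fun h => hxk h.symm, hk⟩, Equiv.swap_apply_right _ _⟩
    · exact ⟨x, ⟨hxi, hx⟩, Equiv.swap_apply_of_ne_of_ne hxi hxk⟩

theorem A1_swap_inv (i k : ι) : (perm (Equiv.swap i k))⁻¹ = perm (Equiv.swap i k) := by
  rw [← perm_inv, Equiv.swap_inv]

theorem perm_mem_Fix (σ : Equiv.Perm ι) {B : Finset ι} {v : V} (hv : v ∈ Fix ρ B) :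
    ρ (perm σ) v ∈ Fix ρ (B.image σ) := by
  intro h hh
  have h1 := perm_conj_H σ⁻¹ hh
  have e : (B.image σ).image (σ⁻¹ : Equiv.Perm ι) = B := by
    rw [Finset.image_image]
    have : ((σ⁻¹ : Equiv.Perm ι) : ι → ι) ∘ σ = id := by
      funext x; simp
    rw [this, Finset.image_id]
  rw [e, perm_inv, inv_inv] at h1
  have h2 := hv _ h1
  have e2 : h * perm σ = perm σ * ((perm σ)⁻¹ * h * perm σ) := by group
  rw [← A1_rho_mul, e2, A1_rho_mul, h2]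

omit [FiniteDimensional ℝ V] in
theorem A1_inner_perm (X : Finset ι) {i j : ι} (hi : i ∈ X) (hj : j ∈ X) (hij : i ≠ j)
    (σ : Equiv.Perm ι) (hσ : ∀ x, x ∉ X → σ x = x) (hσi : σ i ≠ i) {u u' : V}
    (hu : u ∈ Fix ρ (X.erase i)) (hu' : u' ∈ Fix ρ (X.erase i)) :
    ⟪u, ρ (perm σ) u'⟫_ℝ = ⟪u, ρ (perm (Equiv.swap i j)) u'⟫_ℝ := by
  have hm : σ i ∈ X := by
    by_contra hc
    exact hc (by rw [σ.injective (hσ _ hc)]; exact hi)
  set m := σ i with hmdef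
  have h1 : perm (Equiv.swap j m) ∈ H (X.erase i) :=
    swap_mem_H (Finset.mem_erase.2 ⟨hij.symm, hj⟩) (Finset.mem_erase.2 ⟨hσi, hm⟩)
  have h2 : perm (Equiv.swap i j * Equiv.swap j m * σ) ∈ H (X.erase i) := by
    refine perm_mem_H fun x hx => ?_
    by_cases hxi : x = i
    · subst hxi
      simp only [Equiv.Perm.mul_apply]
      rw [← hmdef, Equiv.swap_apply_right, Equiv.swap_apply_right]
    · have hxX : x ∉ X := fun h => hx (Finset.mem_erase.2 ⟨hxi, h⟩)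
      have hxj : x ≠ j := fun h => hxX (h ▸ hj)
      have hxm : x ≠ m := fun h => hxX (h ▸ hm)
      simp only [Equiv.Perm.mul_apply]
      rw [hσ x hxX, Equiv.swap_apply_of_ne_of_ne hxj hxm, Equiv.swap_apply_of_ne_of_ne hxi hxj]
  have e : σ = Equiv.swap j m * (Equiv.swap i j * (Equiv.swap i j * Equiv.swap j m * σ)) := by
    rw [mul_assoc, Equiv.swap_mul_self_mul, Equiv.swap_mul_self_mul]
  have e' : perm σ = perm (Equiv.swap j m) * (perm (Equiv.swap i j) *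
      perm (Equiv.swap i j * Equiv.swap j m * σ)) := by
    rw [← perm_mul, ← perm_mul, ← e]
  rw [e', A1_rho_mul, A1_rho_mul, hu' _ h2, real_inner_comm, A1_inner_left, A1_swap_inv,
    hu _ h1, real_inner_comm]

theorem inner_swap_eq (X : Finset ι) {i j k l : ι} (hi : i ∈ X) (hj : j ∈ X) (hk : k ∈ X)
    (hl : l ∈ X) (hij : i ≠ j) (hkl : k ≠ l) {u u' : V} (hu : u ∈ Fix ρ (X.erase i))
    (hu' : u' ∈ Fix ρ (X.erase i)) :
    ⟪ρ (perm (Equiv.swap i k)) u, ρ (perm (Equiv.swap i l)) u'⟫_ℝ =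
      ⟪u, ρ (perm (Equiv.swap i j)) u'⟫_ℝ := by
  rw [A1_inner_left, A1_swap_inv, ← A1_rho_mul, ← perm_mul]
  refine A1_inner_perm ρ X hi hj hij _ (fun x hx => ?_) ?_ hu hu'
  · have hxi : x ≠ i := fun h => hx (h ▸ hi)
    have hxk : x ≠ k := fun h => hx (h ▸ hk)
    have hxl : x ≠ l := fun h => hx (h ▸ hl)
    simp only [Equiv.Perm.mul_apply]
    rw [Equiv.swap_apply_of_ne_of_ne hxi hxl, Equiv.swap_apply_of_ne_of_ne hxi hxk]
  · simp only [Equiv.Perm.mul_apply]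
    rw [Equiv.swap_apply_left]
    intro h
    have : l = Equiv.swap i k i := by
      rw [← Equiv.swap_apply_eq_iff]; exact h
    rw [Equiv.swap_apply_left] at this
    exact hkl this.symm

theorem cos_of_diag (X : Finset ι) {i j : ι} (hi : i ∈ X) (hj : j ∈ X) (hij : i ≠ j) (ε : ℝ)
    (h : ∀ u ∈ Fix ρ (X.erase i), (∀ v ∈ Fix ρ X, ⟪u, v⟫_ℝ = 0) →
      |⟪u, ρ (perm (Equiv.swap i j)) u⟫_ℝ| ≤ ε * ‖u‖ ^ 2)
    {u w : V} (hu : u ∈ Fix ρ (X.erase i)) (hw : w ∈ Fix ρ (X.erase j))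
    (hperp : ∀ v ∈ Fix ρ X, ⟪u, v⟫_ℝ = 0) : |⟪u, w⟫_ℝ| ≤ ε * (‖u‖ * ‖w‖) := by
  by_cases hu0 : u = 0
  · subst hu0; simp
  have hun : 0 < ‖u‖ := norm_pos_iff.2 hu0
  have hε : 0 ≤ ε := by
    have := (abs_nonneg _).trans (h u hu hperp)
    by_contra hc
    push Not at hc
    have : ε * ‖u‖ ^ 2 < 0 := mul_neg_of_neg_of_pos hc (by positivity)
    linarith
  set s := ρ (perm (Equiv.swap i j)) with hs
  have hsym : ∀ a b : V, ⟪s a, b⟫_ℝ = ⟪a, s b⟫_ℝ := fun a b => by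
    rw [hs, A1_inner_left, A1_swap_inv]
  have hss : ∀ a : V, s (s a) = a := fun a => by
    rw [hs, ← A1_rho_mul, ← perm_mul, Equiv.swap_mul_self, perm_one, A1_rho_one]
  set w' := w - (Fix ρ X).starProjection w with hw'
  have hPw : (Fix ρ X).starProjection w ∈ Fix ρ X := Submodule.starProjection_apply_mem _ _
  have hw'F : w' ∈ Fix ρ (X.erase j) :=
    (Fix ρ (X.erase j)).sub_mem hw (A1_Fix_anti ρ (Finset.erase_subset _ _) hPw)
  have hw'perp : ∀ v ∈ Fix ρ X, ⟪w', v⟫_ℝ = 0 := fun v hv =>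
    Submodule.starProjection_inner_eq_zero w v hv
  have hw'n : ‖w'‖ ≤ ‖w‖ := by
    have h1 : ‖w‖ ^ 2 = ‖w'‖ ^ 2 + ‖(Fix ρ X).starProjection w‖ ^ 2 := by
      have e : w = w' + (Fix ρ X).starProjection w := by rw [hw']; abel
      conv_lhs => rw [e]
      rw [norm_add_sq_real, hw'perp _ hPw]; ring
    have h2 : ‖w'‖ ^ 2 ≤ ‖w‖ ^ 2 := by rw [h1]; nlinarith [sq_nonneg ‖(Fix ρ X).starProjection w‖]
    exact (pow_le_pow_iff_left₀ (norm_nonneg _) (norm_nonneg _) two_ne_zero).1 h2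
  have huw : ⟪u, w⟫_ℝ = ⟪u, w'⟫_ℝ := by
    rw [hw', inner_sub_right, hperp _ hPw, sub_zero]
  set u' := s w' with hu'
  have hu'F : u' ∈ Fix ρ (X.erase i) := by
    have := perm_mem_Fix ρ (Equiv.swap i j) hw'F
    rwa [Equiv.swap_comm i j, A1_image_swap hj hi, Equiv.swap_comm j i] at this
  have hu'perp : ∀ v ∈ Fix ρ X, ⟪u', v⟫_ℝ = 0 := fun v hv => by
    rw [hu', hsym, hs, hv _ (swap_mem_H hi hj)]
    exact hw'perp v hv
  have hu'n : ‖u'‖ = ‖w'‖ := by rw [hu']; exact s.norm_map _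
  have hws : w' = s u' := by rw [hu', hss]
  have key : |⟪u, s u'⟫_ℝ| ≤ ε * (‖u‖ * ‖u'‖) := by
    by_cases hu'0 : u' = 0
    · rw [hu'0]; simp
    have hu'pos : 0 < ‖u'‖ := norm_pos_iff.2 hu'0
    set a := ‖u'‖ • u with ha
    set b := ‖u‖ • u' with hb
    have haF : a ∈ Fix ρ (X.erase i) := (Fix ρ _).smul_mem _ hu
    have hbF : b ∈ Fix ρ (X.erase i) := (Fix ρ _).smul_mem _ hu'F
    have haP : ∀ v ∈ Fix ρ X, ⟪a, v⟫_ℝ = 0 := fun v hv => by
      rw [ha, real_inner_smul_left, hperp v hv, mul_zero]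
    have hbP : ∀ v ∈ Fix ρ X, ⟪b, v⟫_ℝ = 0 := fun v hv => by
      rw [hb, real_inner_smul_left, hu'perp v hv, mul_zero]
    have h1 := h (a + b) ((Fix ρ _).add_mem haF hbF) fun v hv => by
      rw [inner_add_left, haP v hv, hbP v hv, add_zero]
    have h2 := h (a - b) ((Fix ρ _).sub_mem haF hbF) fun v hv => by
      rw [inner_sub_left, haP v hv, hbP v hv, sub_zero]
    have hba : ⟪b, s a⟫_ℝ = ⟪a, s b⟫_ℝ := by rw [← hsym, real_inner_comm]
    have e1 : ⟪a + b, s (a + b)⟫_ℝ - ⟪a - b, s (a - b)⟫_ℝ = 4 * ⟪a, s b⟫_ℝ := by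
      rw [map_add, map_sub, inner_add_left, inner_add_right, inner_add_right, inner_sub_left,
        inner_sub_right, inner_sub_right, hba]
      ring
    have e2 : ⟪a, s b⟫_ℝ = ‖u'‖ * ‖u‖ * ⟪u, s u'⟫_ℝ := by
      rw [ha, hb, map_smul, real_inner_smul_left, real_inner_smul_right]; ring
    have na : ‖a‖ = ‖u'‖ * ‖u‖ := by rw [ha, norm_smul, norm_norm]
    have nb : ‖b‖ = ‖u'‖ * ‖u‖ := by rw [hb, norm_smul, norm_norm, mul_comm]
    have e3 : ‖a + b‖ ^ 2 + ‖a - b‖ ^ 2 = 4 * (‖u'‖ * ‖u‖) ^ 2 := by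
      rw [norm_add_sq_real, norm_sub_sq_real, na, nb]; ring
    have hpos : 0 < ‖u'‖ * ‖u‖ := mul_pos hu'pos hun
    have h3 : |4 * (‖u'‖ * ‖u‖ * ⟪u, s u'⟫_ℝ)| ≤ ε * (4 * (‖u'‖ * ‖u‖) ^ 2) := by
      rw [← e2, ← e1, ← e3, mul_add]
      exact (abs_sub _ _).trans (add_le_add h1 h2)
    rw [abs_mul, abs_mul, abs_of_pos hpos, abs_of_pos (by norm_num : (0 : ℝ) < 4)] at h3
    have h4 : ‖u'‖ * ‖u‖ * |⟪u, s u'⟫_ℝ| ≤ ‖u'‖ * ‖u‖ * (ε * (‖u‖ * ‖u'‖)) := by nlinarith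
    exact le_of_mul_le_mul_left h4 hpos
  rw [huw, hws]
  refine key.trans (mul_le_mul_of_nonneg_left ?_ hε)
  rw [hu'n]
  exact mul_le_mul_of_nonneg_left hw'n hun.le

theorem cos1 (X : Finset ι) (hX : 304 ≤ X.card) {i j : ι} (hi : i ∈ X) (hj : j ∈ X) (hij : i ≠ j)
    {u w : V} (hu : u ∈ Fix ρ (X.erase i)) (hw : w ∈ Fix ρ (X.erase j))
    (hperp : ∀ v ∈ Fix ρ X, ⟪u, v⟫_ℝ = 0) :
    |⟪u, w⟫_ℝ| ≤ 2000 / X.card * (‖u‖ * ‖w‖) := by
  refine cos_of_diag ρ X hi hj hij _ ?_ hu hw hperp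
  clear hu hw hperp u w
  intro u hu hperp
  set f : ι → V := fun k => ρ (perm (Equiv.swap i k)) u with hf
  have hfF : ∀ k ∈ X, f k ∈ Fix ρ (X.erase k) := fun k hk => by
    have := perm_mem_Fix ρ (Equiv.swap i k) hu
    rwa [A1_image_swap hi hk] at this
  have hfn : ∀ k, ‖f k‖ = ‖u‖ := fun k => (ρ _).norm_map _
  have hfP : ∀ k ∈ X, ∀ v ∈ Fix ρ X, ⟪f k, v⟫_ℝ = 0 := fun k hk v hv => by
    rw [hf]
    dsimp only
    rw [A1_inner_left, A1_swap_inv, hv _ (swap_mem_H hi hk)]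
    exact hperp v hv
  set ξ := ∑ k ∈ X, f k with hξ
  have hspan : ξ ∈ Submodule.span ℝ {v | ∃ i ∈ X, ρ (inv i) v = v} := by
    refine Submodule.sum_mem _ fun k hk => Submodule.subset_span ?_
    have hne : (X.erase k).Nonempty := by
      rw [← Finset.card_pos, Finset.card_erase_of_mem hk]; omega
    obtain ⟨l, hl⟩ := hne
    exact ⟨l, Finset.mem_of_mem_erase hl, hfF k hk _ (inv_mem_H hl)⟩
  have hM : ∀ a ∈ gens X, ‖ρ (tvi a) ξ - ξ‖ ≤ 4 * ‖u‖ := by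
    intro a ha
    obtain ⟨h1, h2, h3⟩ := mem_gens.1 ha
    have e : ρ (tvi a) ξ - ξ = ∑ k ∈ ({a.1, a.2.1} : Finset ι), (ρ (tvi a) (f k) - f k) := by
      rw [hξ, map_sum, ← Finset.sum_sub_distrib]
      symm
      refine Finset.sum_subset ?_ fun k hk hk' => ?_
      · intro x hx
        rcases Finset.mem_insert.1 hx with rfl | hx
        · exact h1
        · rw [Finset.mem_singleton.1 hx]; exact h2
      · have hk1 : a.1 ≠ k := fun h => hk' (by rw [← h]; simp)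
        have hk2 : a.2.1 ≠ k := fun h => hk' (by rw [← h]; simp)
        have : tvi a ∈ H (X.erase k) :=
          tv_mem_H (Finset.mem_erase.2 ⟨hk1, h1⟩) (Finset.mem_erase.2 ⟨hk2, h2⟩) _ _
        rw [hfF k hk _ this, sub_self]
    have hb : ∀ k, ‖ρ (tvi a) (f k) - f k‖ ≤ 2 * ‖u‖ := fun k => by
      refine (norm_sub_le _ _).trans ?_
      rw [(ρ (tvi a)).norm_map, hfn]; linarith
    rw [e, Finset.sum_pair h3]
    refine (norm_add_le _ _).trans ?_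
    linarith [hb a.1, hb a.2.1]
  have hP : (Fix ρ X).starProjection ξ = 0 := by
    rw [Submodule.starProjection_apply_eq_zero_iff, Submodule.mem_orthogonal']
    intro v hv
    rw [hξ, sum_inner]
    exact Finset.sum_eq_zero fun k hk => hfP k hk v hv
  have hav := averaging ρ X (by omega) ξ hspan _ hM
  rw [hP, sub_zero] at hav
  set μ := ⟪u, ρ (perm (Equiv.swap i j)) u⟫_ℝ with hμ
  have hnorm : ‖ξ‖ ^ 2 = X.card * ‖u‖ ^ 2 + X.card * ((X.card - 1) * μ) := by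
    rw [← real_inner_self_eq_norm_sq ξ, hξ, sum_inner]
    have : ∀ k ∈ X, ⟪f k, ∑ l ∈ X, f l⟫_ℝ = ‖u‖ ^ 2 + (X.card - 1) * μ := by
      intro k hk
      rw [inner_sum, ← Finset.add_sum_erase _ _ hk, real_inner_self_eq_norm_sq, hfn]
      congr 1
      rw [Finset.sum_congr rfl (g := fun _ => μ) fun l hl =>
        inner_swap_eq ρ X hi hj hk (Finset.mem_of_mem_erase hl) hij
          (Finset.ne_of_mem_erase hl).symm hu hu]
      rw [Finset.sum_const, Finset.card_erase_of_mem hk, nsmul_eq_mul,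
        Nat.cast_sub (by omega), Nat.cast_one]
    rw [Finset.sum_congr rfl this, Finset.sum_const, nsmul_eq_mul]; ring
  have hn : (304 : ℝ) ≤ X.card := by exact_mod_cast hX
  generalize (X.card : ℝ) = n at hn hav hnorm ⊢
  have hn0 : 0 < n := by linarith
  have hu2 : 0 ≤ ‖u‖ ^ 2 := sq_nonneg _
  have hup : (n - 1) * μ ≤ 1279 * ‖u‖ ^ 2 := by
    have : n * ((n - 1) * μ) ≤ n * (1279 * ‖u‖ ^ 2) := by nlinarith
    exact le_of_mul_le_mul_left this hn0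
  have hlo : -‖u‖ ^ 2 ≤ (n - 1) * μ := by
    have h0 : 0 ≤ ‖ξ‖ ^ 2 := sq_nonneg _
    have : n * (-‖u‖ ^ 2) ≤ n * ((n - 1) * μ) := by nlinarith
    exact le_of_mul_le_mul_left this hn0
  have habs : (n - 1) * |μ| ≤ 1279 * ‖u‖ ^ 2 := by
    rcases abs_cases μ with ⟨h1, _⟩ | ⟨h1, _⟩ <;> rw [h1] <;> nlinarith
  rw [div_mul_eq_mul_div, le_div_iff₀ hn0]
  nlinarith [abs_nonneg μ]

end Pool.Agent.P.MP_2d26dd_al
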