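import Pool.Agent.P.MP_2d26dd_al.A1

/-! Two auxiliary positions. -/

namespace Pool.Agent.P.MP_2d26dd_al

open scoped InnerProductSpace

variable {ι : Type} [DecidableEq ι] {V : Type} [NormedAddCommGroup V] [InnerProductSpace ℝ V]
  [FiniteDimensional ℝ V] (ρ : AutF ι →* (V ≃ₗᵢ[ℝ] V))

omit [DecidableEq ι] [FiniteDimensional ℝ V] in
theorem a2a_mul (g h : AutF ι) (v : V) : ρ (g * h) v = ρ g (ρ h v) := by
  rw [map_mul]; rfl

omit [DecidableEq ι] [FiniteDimensional ℝ V] in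
theorem a2a_adj (g : AutF ι) (u w : V) : ⟪ρ g u, w⟫_ℝ = ⟪u, ρ g⁻¹ w⟫_ℝ := by
  rw [← (ρ g).inner_map_map u, ← a2a_mul, mul_inv_cancel, map_one]; rfl

omit [DecidableEq ι] [FiniteDimensional ℝ V] in
theorem a2a_fix_inner {Y : Finset ι} {g : AutF ι} (hg : g ∈ H Y) (u : V) {w : V}
    (hw : w ∈ Fix ρ Y) : ⟪ρ g u, w⟫_ℝ = ⟪u, w⟫_ℝ := by
  rw [a2a_adj, hw _ ((H Y).inv_mem hg)]

omit [DecidableEq ι] [FiniteDimensional ℝ V] in
theorem a2a_norm_sum (S : Finset ι) (y : ι → V) (c ε : ℝ) (hε : 0 ≤ ε)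
    (h1 : ∀ l ∈ S, ‖y l‖ ^ 2 ≤ c) (h2 : ∀ l ∈ S, ∀ m ∈ S, l ≠ m → ⟪y l, y m⟫_ℝ ≤ ε) :
    ‖∑ l ∈ S, y l‖ ^ 2 ≤ S.card * (c + S.card * ε) := by
  classical
  rw [← real_inner_self_eq_norm_sq, sum_inner, ← nsmul_eq_mul]
  refine Finset.sum_le_card_nsmul _ _ _ fun l hl => ?_
  rw [inner_sum, ← Finset.add_sum_erase _ _ hl, real_inner_self_eq_norm_sq]
  refine add_le_add (h1 l hl) ?_
  refine (Finset.sum_le_card_nsmul _ _ ε fun m hm =>
    h2 l hl m (Finset.mem_of_mem_erase hm) (Finset.ne_of_mem_erase hm).symm).trans ?_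
  rw [nsmul_eq_mul]
  exact mul_le_mul_of_nonneg_right (Nat.cast_le.2 Finset.card_erase_le) hε

theorem a2a_image_swap {X : Finset ι} {j l : ι} (hj : j ∈ X) (hl : l ∈ X) :
    (X.erase j).image (Equiv.swap j l) = X.erase l := by
  ext x
  simp only [Finset.mem_image, Finset.mem_erase]
  constructor
  · rintro ⟨y, ⟨h1, h2⟩, rfl⟩
    by_cases h3 : y = l
    · subst h3
      rw [Equiv.swap_apply_right]
      exact ⟨fun h => h1 h.symm, hj⟩
    · rw [Equiv.swap_apply_of_ne_of_ne h1 h3]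
      exact ⟨h3, h2⟩
  · rintro ⟨h1, h2⟩
    by_cases h3 : x = j
    · subst h3
      exact ⟨l, ⟨fun h => h1 h.symm, hl⟩, Equiv.swap_apply_right _ _⟩
    · exact ⟨x, ⟨h3, h2⟩, Equiv.swap_apply_of_ne_of_ne h3 h1⟩

theorem a2a_tv_comm {i l m : ι} (hl : l ≠ i) (hm : m ≠ i) (hlm : l ≠ m) (d s s' : Bool) :
    tv l i d s * tv m i d s' = tv m i d s' * tv l i d s := by
  refine autF_ext fun k => ?_
  simp only [MulAut.mul_apply]
  by_cases h1 : k = l
  · subst h1
    cases d <;>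
      simp [tv_ne hlm, tv_right hl, tv_left hl, tv_lt_ne hm.symm]
  · by_cases h2 : k = m
    · subst h2
      cases d <;>
        simp [tv_ne h1, tv_right hm, tv_left hm, tv_lt_ne hl.symm]
    · simp [tv_ne h1, tv_ne h2]

theorem a2a_swap_tv {i j l : ι} (hj : i ≠ j) (hl : i ≠ l) (d s : Bool) :
    perm (Equiv.swap j l) * tv j i d s = tv l i d s * perm (Equiv.swap j l) := by
  have h := perm_conj_tv (Equiv.swap j l) j i d s
  rw [Equiv.swap_apply_left, Equiv.swap_apply_of_ne_of_ne hj hl] at h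
  rw [← h, inv_mul_cancel_right]

theorem a2a_rr {i j k : ι} (hj : j ≠ i) (hk : k ≠ i) (hjk : j ≠ k) :
    tv j i true false * tv k i true false * tv j k true false =
      tv j k true false * tv k i true false := by
  refine autF_ext fun x => ?_
  simp only [MulAut.mul_apply]
  by_cases h1 : x = j
  · subst h1
    simp [tv_ne hjk, tv_ne hjk.symm, tv_right hj, tv_right hk, tv_right hjk, lt_false,
      tv_ne hj.symm]
  · by_cases h2 : x = k
    · subst h2
      simp [tv_ne h1, tv_right hk, lt_false, tv_ne hj.symm]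
    · simp [tv_ne h1, tv_ne h2]

theorem cosD (X : Finset ι) (hX : 304 ≤ X.card) {i j : ι} (hi : i ∈ X) (hj : j ∈ X) (hij : i ≠ j)
    (d s : Bool) {u w : V} (hu : u ∈ Fix ρ (X.erase i)) (hw : w ∈ Fix ρ (X.erase j))
    (hperp : ∀ v ∈ Fix ρ X, ⟪w, v⟫_ℝ = 0) :
    |⟪ρ (tv j i d s) u, w⟫_ℝ| ≤ 50 / Real.sqrt X.card * (‖u‖ * ‖w‖) := by
  have hjY : j ∈ X.erase i := Finset.mem_erase.2 ⟨hij.symm, hj⟩
  have hn : (304 : ℝ) ≤ X.card := by exact_mod_cast hX
  have hc : ((X.erase i).card : ℝ) = X.card - 1 := by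
    rw [Finset.card_erase_of_mem hi, Nat.cast_sub (by omega), Nat.cast_one]
  have hwl : ∀ l ∈ X, ρ (perm (Equiv.swap j l)) w ∈ Fix ρ (X.erase l) := fun l hl =>
    a2a_image_swap hj hl ▸ perm_mem_Fix ρ (Equiv.swap j l) hw
  have h1 : ∀ l ∈ X.erase i, ⟪u, ρ (tv l i d (!s)) (ρ (perm (Equiv.swap j l)) w)⟫_ℝ =
      ⟪ρ (tv j i d s) u, w⟫_ℝ := by
    intro l hl
    rw [← a2a_mul, ← a2a_swap_tv hij (Finset.ne_of_mem_erase hl).symm, a2a_mul, real_inner_comm,
      a2a_fix_inner ρ (swap_mem_H hjY hl) _ hu, a2a_adj ρ (tv j i d s), tv_inv, real_inner_comm]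
  have h2 := a2a_norm_sum (X.erase i)
    (fun l => ρ (tv l i d (!s)) (ρ (perm (Equiv.swap j l)) w)) (‖w‖ ^ 2)
    (2000 / X.card * ‖w‖ ^ 2) (by positivity) (fun l _ => by simp) (by
      intro l hl m hm hlm
      obtain ⟨hl1, hl2⟩ := Finset.mem_erase.1 hl
      obtain ⟨hm1, hm2⟩ := Finset.mem_erase.1 hm
      have e1 : tv l i d s ∈ H (X.erase m) :=
        tv_mem_H (Finset.mem_erase.2 ⟨hlm, hl2⟩) (Finset.mem_erase.2 ⟨hm1.symm, hi⟩) _ _
      have e2 : tv m i d (!s) ∈ H (X.erase l) :=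
        tv_mem_H (Finset.mem_erase.2 ⟨hlm.symm, hm2⟩) (Finset.mem_erase.2 ⟨hl1.symm, hi⟩) _ _
      have e3 := cos1 ρ X hX hl2 hm2 hlm (hwl l hl2) (hwl m hm2) fun v hv => by
        rw [a2a_fix_inner ρ (swap_mem_H hj hl2) _ hv, hperp v hv]
      rw [a2a_adj, tv_inv, Bool.not_not, ← a2a_mul, a2a_tv_comm hl1 hm1 hlm, a2a_mul,
        hwl m hm2 _ e1, real_inner_comm, a2a_fix_inner ρ e2 _ (hwl l hl2), real_inner_comm]
      refine (le_abs_self _).trans (e3.trans_eq ?_)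
      simp [sq])
  have h3 : ⟪u, ∑ l ∈ X.erase i, ρ (tv l i d (!s)) (ρ (perm (Equiv.swap j l)) w)⟫_ℝ =
      (X.card - 1) * ⟪ρ (tv j i d s) u, w⟫_ℝ := by
    rw [inner_sum, Finset.sum_congr rfl h1, Finset.sum_const, nsmul_eq_mul, hc]
  have h4 := abs_real_inner_le_norm u
    (∑ l ∈ X.erase i, ρ (tv l i d (!s)) (ρ (perm (Equiv.swap j l)) w))
  rw [h3, abs_mul, abs_of_pos (by linarith : (0 : ℝ) < X.card - 1)] at h4
  rw [hc] at h2
  have ht : 0 < Real.sqrt X.card := Real.sqrt_pos.2 (by linarith)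
  have h5 : ‖∑ l ∈ X.erase i, ρ (tv l i d (!s)) (ρ (perm (Equiv.swap j l)) w)‖ ≤
      (X.card - 1) * (50 / Real.sqrt X.card * ‖w‖) := by
    refine abs_le_of_sq_le_sq' (h2.trans ?_) (mul_nonneg (by linarith) (by positivity)) |>.2
    rw [mul_pow, mul_pow, div_pow, Real.sq_sqrt (by linarith), sq ((X.card : ℝ) - 1), mul_assoc]
    refine mul_le_mul_of_nonneg_left ?_ (by linarith)
    have h6 : (1 : ℝ) ≤ (X.card - 1) * (500 / X.card) := by
      rw [← mul_div_assoc, le_div_iff₀ (by linarith)]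
      linarith
    have h7 : (50 : ℝ) ^ 2 / X.card = 500 / X.card + 2000 / X.card := by ring
    rw [h7]
    nlinarith [sq_nonneg ‖w‖]
  refine le_of_mul_le_mul_left (h4.trans ?_) (by linarith : (0 : ℝ) < X.card - 1)
  refine (mul_le_mul_of_nonneg_left h5 (norm_nonneg u)).trans_eq ?_
  ring

theorem exists_z0 (X : Finset ι) (hX : 304 ≤ X.card) {i : ι} (hi : i ∈ X) {u : V}
    (hu : u ∈ Fix ρ (X.erase i)) (hperp : ∀ v ∈ Fix ρ X, ⟪u, v⟫_ℝ = 0) :
    ∃ z ∈ Fix ρ (X.erase i), (∀ v ∈ Fix ρ X, ⟪z, v⟫_ℝ = 0) ∧ ‖z‖ ≤ ‖u‖ ∧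
      ‖∑ k ∈ X.erase i, ρ (tv k i true false) u - ((X.card : ℝ) - 1) • z‖ ≤
        36 * Real.sqrt X.card * ‖u‖ ∧
      ∀ j ∈ X.erase i, ∀ v ∈ Fix ρ (X.erase i),
        |⟪v, ρ (tv i j true true) z⟫_ℝ| ≤ 23 / Real.sqrt (Real.sqrt X.card) * (‖v‖ * ‖u‖) := by
  have hn : (304 : ℝ) ≤ X.card := by exact_mod_cast hX
  have hcard : (X.erase i).card = X.card - 1 := Finset.card_erase_of_mem hi
  have hc : ((X.erase i).card : ℝ) = X.card - 1 := by
    rw [hcard, Nat.cast_sub (by omega), Nat.cast_one]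
  obtain ⟨k₀, hk₀⟩ : (X.erase i).Nonempty := Finset.card_pos.1 (by omega)
  set z := (Fix ρ (X.erase i)).starProjection (ρ (tv k₀ i true false) u) with hz
  have hzm : z ∈ Fix ρ (X.erase i) := Submodule.starProjection_apply_mem _ _
  have hin : ∀ k ∈ X.erase i, ∀ v ∈ Fix ρ (X.erase i),
      ⟪ρ (tv k i true false) u, v⟫_ℝ = ⟪z, v⟫_ℝ := by
    intro k hk v hv
    rw [hz, Submodule.inner_starProjection_left_eq_right,
      Submodule.starProjection_eq_self_iff.2 hv,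
      ← a2a_fix_inner ρ (swap_mem_H hk₀ hk) (ρ (tv k₀ i true false) u) hv, ← a2a_mul,
      a2a_swap_tv (Finset.ne_of_mem_erase hk₀).symm (Finset.ne_of_mem_erase hk).symm, a2a_mul,
      hu _ (swap_mem_H hk₀ hk)]
  have hzX : ∀ v ∈ Fix ρ X, ⟪z, v⟫_ℝ = 0 := by
    intro v hv
    rw [← hin k₀ hk₀ v fun h hh => hv h (H_mono (Finset.erase_subset _ _) hh),
      a2a_fix_inner ρ (tv_mem_H (Finset.mem_of_mem_erase hk₀) hi _ _) _ hv, hperp v hv]
  have hzu : ‖z‖ ≤ ‖u‖ := (Submodule.norm_starProjection_apply_le _ _).trans_eq (by simp)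
  have ht : 0 < Real.sqrt X.card := Real.sqrt_pos.2 (by linarith)
  have htt : Real.sqrt X.card ^ 2 = X.card := Real.sq_sqrt (by linarith)
  have ht17 : 17 ≤ Real.sqrt X.card := Real.le_sqrt_of_sq_le (by linarith)
  have hsum : ‖∑ k ∈ X.erase i, ρ (tv k i true false) u - ((X.card : ℝ) - 1) • z‖ ≤
      36 * Real.sqrt X.card * ‖u‖ := by
    have h1 : (Fix ρ (X.erase i)).starProjection (∑ k ∈ X.erase i, ρ (tv k i true false) u) =
        ((X.card : ℝ) - 1) • z := by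
      refine Submodule.eq_starProjection_of_mem_of_inner_eq_zero
        (Submodule.smul_mem _ _ hzm) fun v hv => ?_
      rw [inner_sub_left, sum_inner, Finset.sum_congr rfl fun k hk => hin k hk v hv,
        Finset.sum_const, nsmul_eq_mul, hc, real_inner_smul_left, sub_self]
    have h2 := averaging ρ (X.erase i) (by omega) (∑ k ∈ X.erase i, ρ (tv k i true false) u)
      (Submodule.sum_mem _ fun k hk => Submodule.subset_span (by
        obtain ⟨l, hl, hlk⟩ := Finset.exists_mem_ne (s := X.erase i) (by omega) k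
        refine ⟨l, hl, ?_⟩
        have e := inv_conj_tv_other hlk.symm (Finset.ne_of_mem_erase hl).symm true false
        conv_rhs => rw [← e, a2a_mul, hu _ (inv_mem_H hl), a2a_mul])) (4 * ‖u‖) (by
        intro a ha
        obtain ⟨h3, h4, h5⟩ := mem_gens.1 ha
        rw [map_sum, ← Finset.sum_sub_distrib,
          ← Finset.sum_subset (s₁ := {a.1, a.2.1}) (by
            intro x hx
            rcases Finset.mem_insert.1 hx with rfl | hx
            · exact h3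
            · rw [Finset.mem_singleton.1 hx]; exact h4) (by
            intro k hk hk2
            have e : Commute (tvi a) (tv k i true false) :=
              H_commute (X := {a.1, a.2.1}) (Y := {k, i}) (by
                rw [Finset.disjoint_insert_right, Finset.disjoint_singleton_right]
                refine ⟨hk2, ?_⟩
                simp only [Finset.mem_insert, Finset.mem_singleton, not_or]
                exact ⟨(Finset.ne_of_mem_erase h3).symm, (Finset.ne_of_mem_erase h4).symm⟩)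
                (tv_mem_H (by simp) (by simp) _ _) (tv_mem_H (by simp) (by simp) _ _)
            rw [← a2a_mul, e.eq, a2a_mul, hu _ (tvi_mem_H ha), sub_self]),
          Finset.sum_pair h5]
        have h6 : ∀ k, ‖ρ (tvi a) (ρ (tv k i true false) u) - ρ (tv k i true false) u‖ ≤
            2 * ‖u‖ := fun k => (norm_sub_le _ _).trans_eq (by simp [two_mul])
        exact (norm_add_le _ _).trans (by linarith [h6 a.1, h6 a.2.1]))
    rw [h1, hc] at h2
    refine abs_le_of_sq_le_sq' (h2.trans ?_) (by positivity) |>.2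
    rw [mul_pow, mul_pow, mul_pow, htt]
    nlinarith [sq_nonneg ‖u‖]
  refine ⟨z, hzm, hzX, hzu, hsum, fun j hj v hv => ?_⟩
  obtain ⟨hji, hjX⟩ := Finset.mem_erase.1 hj
  have h1 : ∀ k ∈ (X.erase i).erase j,
      ⟪ρ (tv j i true false) (ρ (tv k i true false) u), z⟫_ℝ = ‖z‖ ^ 2 := by
    intro k hk
    obtain ⟨hkj, hk⟩ := Finset.mem_erase.1 hk
    have e := congrArg (fun g => ρ g u) (a2a_rr hji (Finset.ne_of_mem_erase hk) hkj.symm)
    simp only [a2a_mul] at e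
    rw [hu _ (tv_mem_H hj hk _ _)] at e
    rw [e, a2a_fix_inner ρ (tv_mem_H hj hk _ _) _ hzm, hin k hk z hzm,
      real_inner_self_eq_norm_sq]
  have h2 : ⟪ρ (tv j i true false) (∑ k ∈ X.erase i, ρ (tv k i true false) u), z⟫_ℝ =
      ⟪ρ (tv j i true false) (ρ (tv j i true false) u), z⟫_ℝ + (X.card - 2) * ‖z‖ ^ 2 := by
    rw [map_sum, sum_inner, ← Finset.add_sum_erase _ _ hj, Finset.sum_congr rfl h1,
      Finset.sum_const, nsmul_eq_mul, Finset.card_erase_of_mem hj, Nat.cast_sub (by omega), hc]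
    push_cast
    ring
  have hzz : ‖z‖ ^ 2 ≤ ‖u‖ ^ 2 := pow_le_pow_left₀ (norm_nonneg _) hzu 2
  have h3 : -‖u‖ ^ 2 ≤ ⟪ρ (tv j i true false) (ρ (tv j i true false) u), z⟫_ℝ := by
    refine (abs_le.1 ((abs_real_inner_le_norm _ _).trans ?_)).1
    simp only [LinearIsometryEquiv.norm_map, sq]
    exact mul_le_mul_of_nonneg_left hzu (norm_nonneg _)
  have h4 : ⟪ρ (tv j i true false)
      (∑ k ∈ X.erase i, ρ (tv k i true false) u - ((X.card : ℝ) - 1) • z), z⟫_ℝ ≤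
        36 * Real.sqrt X.card * ‖u‖ ^ 2 := by
    refine (real_inner_le_norm _ _).trans ?_
    rw [LinearIsometryEquiv.norm_map, sq, ← mul_assoc]
    exact mul_le_mul hsum hzu (norm_nonneg _) (by positivity)
  rw [map_sub, map_smul, inner_sub_left, real_inner_smul_left, h2] at h4
  have hq : 0 < Real.sqrt (Real.sqrt X.card) := Real.sqrt_pos.2 ht
  have hqq : Real.sqrt (Real.sqrt X.card) ^ 2 = Real.sqrt X.card := Real.sq_sqrt ht.le
  have hq4 : 4 ≤ Real.sqrt (Real.sqrt X.card) := Real.le_sqrt_of_sq_le (by linarith)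
  have h5 : ‖ρ (tv j i true false) z - z‖ ≤ 9 / Real.sqrt (Real.sqrt X.card) * ‖u‖ := by
    refine abs_le_of_sq_le_sq' ?_ (by positivity) |>.2
    rw [mul_pow, div_pow, hqq, norm_sub_sq_real, LinearIsometryEquiv.norm_map,
      div_mul_eq_mul_div, le_div_iff₀ ht]
    refine le_of_mul_le_mul_left ?_ (by linarith : (0 : ℝ) < X.card - 1)
    have h6 : ((X.card : ℝ) - 1) * (‖z‖ ^ 2 - 2 * ⟪ρ (tv j i true false) z, z⟫_ℝ + ‖z‖ ^ 2) ≤
        (4 + 72 * Real.sqrt X.card) * ‖u‖ ^ 2 := by nlinarith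
    have h7 : (4 + 72 * Real.sqrt X.card) * Real.sqrt X.card ≤ (X.card - 1) * 9 ^ 2 := by
      nlinarith
    calc _ = ((X.card : ℝ) - 1) * (‖z‖ ^ 2 - 2 * ⟪ρ (tv j i true false) z, z⟫_ℝ + ‖z‖ ^ 2) *
          Real.sqrt X.card := by ring
      _ ≤ (4 + 72 * Real.sqrt X.card) * ‖u‖ ^ 2 * Real.sqrt X.card :=
          mul_le_mul_of_nonneg_right h6 ht.le
      _ = (4 + 72 * Real.sqrt X.card) * Real.sqrt X.card * ‖u‖ ^ 2 := by ring
      _ ≤ (X.card - 1) * 9 ^ 2 * ‖u‖ ^ 2 := mul_le_mul_of_nonneg_right h7 (sq_nonneg _)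
      _ = _ := by ring
  have h6 : |⟪v, ρ (tv i j true true) (ρ (tv j i true false) z)⟫_ℝ| ≤
      50 / Real.sqrt X.card * (‖v‖ * ‖u‖) := by
    have e := cosD ρ X hX hi hjX hji.symm false false hv
      (a2a_image_swap hi hjX ▸ perm_mem_Fix ρ (Equiv.swap i j) hzm) fun v' hv' => by
        rw [a2a_fix_inner ρ (swap_mem_H hi hjX) _ hv', hzX v' hv']
    rw [← a2a_mul, signed_swap hji.symm, a2a_mul, a2a_mul, hzm _ (inv_mem_H hj),
      real_inner_comm, a2a_adj, tv_inv, real_inner_comm]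
    refine e.trans (mul_le_mul_of_nonneg_left ?_ (by positivity))
    rw [LinearIsometryEquiv.norm_map]
    exact mul_le_mul_of_nonneg_left hzu (norm_nonneg _)
  have h7 : |⟪v, ρ (tv i j true true) (ρ (tv j i true false) z - z)⟫_ℝ| ≤
      9 / Real.sqrt (Real.sqrt X.card) * (‖v‖ * ‖u‖) := by
    refine (abs_real_inner_le_norm _ _).trans ?_
    rw [LinearIsometryEquiv.norm_map]
    exact (mul_le_mul_of_nonneg_left h5 (norm_nonneg _)).trans_eq (by ring)
  have h8 : 50 / Real.sqrt X.card ≤ 14 / Real.sqrt (Real.sqrt X.card) := by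
    rw [div_le_div_iff₀ ht hq]
    nlinarith
  have h9 : ⟪v, ρ (tv i j true true) z⟫_ℝ =
      ⟪v, ρ (tv i j true true) (ρ (tv j i true false) z)⟫_ℝ -
        ⟪v, ρ (tv i j true true) (ρ (tv j i true false) z - z)⟫_ℝ := by
    rw [map_sub, inner_sub_right, sub_sub_cancel]
  rw [h9]
  refine (abs_sub _ _).trans ((add_le_add (h6.trans
    (mul_le_mul_of_nonneg_right h8 (by positivity))) h7).trans_eq ?_)
  ring

end Pool.Agent.P.MP_2d26dd_al
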