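import Pool.Agent.P.MP_2d26dd_al.A2a

/-! Partial sums of the three-index family. -/

namespace Pool.Agent.P.MP_2d26dd_al

open scoped InnerProductSpace

variable {ι : Type} [DecidableEq ι] {V : Type} [NormedAddCommGroup V] [InnerProductSpace ℝ V]
  [FiniteDimensional ℝ V] (ρ : AutF ι →* (V ≃ₗᵢ[ℝ] V))

/-- Ordered triples of distinct letters of `X`. -/
def trip (X : Finset ι) : Finset (ι × ι × ι) :=
  (X ×ˢ X ×ˢ X).filter fun p => p.1 ≠ p.2.1 ∧ p.1 ≠ p.2.2 ∧ p.2.1 ≠ p.2.2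

/-- The three-index family of translates of `u`. -/
def fam (i₀ : ι) (u : V) (p : ι × ι × ι) : V :=
  ρ (tv p.1 p.2.1 true true * tv p.2.2 p.1 true false * perm (Equiv.swap i₀ p.1)) u

private theorem le_of_sq_le_sq₀ {a b : ℝ} (hb : 0 ≤ b) (h : a ^ 2 ≤ b ^ 2) : a ≤ b :=
  (abs_le_of_sq_le_sq' h hb).2

omit [DecidableEq ι] [FiniteDimensional ℝ V] in
private theorem b_inner_act {X : Finset ι} {g : AutF ι} (hg : g ∈ H X) {v : V} (hv : v ∈ Fix ρ X)
    (w : V) : ⟪ρ g w, v⟫_ℝ = ⟪w, v⟫_ℝ := by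
  conv_lhs => rw [← hv g hg]
  exact (ρ g).inner_map_map w v

omit [DecidableEq ι] [FiniteDimensional ℝ V] in
private theorem b_anti {X Y : Finset ι} (h : Y ⊆ X) {v : V} (hv : v ∈ Fix ρ X) : v ∈ Fix ρ Y :=
  fun g hg => hv g (H_mono h hg)

omit [DecidableEq ι] [FiniteDimensional ℝ V] in
private theorem b_mul (g h : AutF ι) (w : V) : ρ (g * h) w = ρ g (ρ h w) := by
  rw [map_mul]; rfl

omit [DecidableEq ι] [FiniteDimensional ℝ V] in
private theorem b_comm {g h : AutF ι} (hc : Commute g h) {w : V} (hw : ρ g w = w) :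
    ρ g (ρ h w) = ρ h w := by
  rw [← b_mul, hc.eq, b_mul, hw]

private theorem b_swap_mem {X : Finset ι} {i₀ i : ι} (_ : i₀ ∈ X) (hi : i ∈ X) {u : V}
    (hu : u ∈ Fix ρ (X.erase i₀)) : ρ (perm (Equiv.swap i₀ i)) u ∈ Fix ρ (X.erase i) := by
  refine b_anti ρ (fun k hk => ?_) (perm_mem_Fix ρ (Equiv.swap i₀ i) hu)
  obtain ⟨h1, h2⟩ := Finset.mem_erase.1 hk
  refine Finset.mem_image.2 ⟨Equiv.swap i₀ i k, Finset.mem_erase.2 ⟨fun e => h1 ?_, ?_⟩,
    Equiv.swap_apply_self _ _ _⟩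
  · rw [← Equiv.swap_apply_self i₀ i k, e, Equiv.swap_apply_left]
  · by_cases e : k = i₀
    · rw [e, Equiv.swap_apply_left]; exact hi
    · rw [Equiv.swap_apply_of_ne_of_ne e h1]; exact h2

omit [FiniteDimensional ℝ V] in
private theorem b_move {α : Type} [DecidableEq α] (S T : Finset α) (f : α → V)
    (g : V ≃ₗᵢ[ℝ] V) {c : ℝ} (hc0 : 0 ≤ c) (hc : ∀ p ∈ S, ‖f p‖ ≤ c)
    (hT : ∀ p ∈ S, p ∉ T → g (f p) = f p) :
    ‖g (∑ p ∈ S, f p) - ∑ p ∈ S, f p‖ ≤ 2 * c * T.card := by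
  rw [map_sum, ← Finset.sum_sub_distrib]
  have h1 : ∑ p ∈ S, (g (f p) - f p) = ∑ p ∈ S.filter (· ∈ T), (g (f p) - f p) := by
    refine (Finset.sum_filter_of_ne fun p hp h => ?_).symm
    by_contra h'
    exact h (by rw [hT p hp h', sub_self])
  rw [h1]
  refine (norm_sum_le _ _).trans ?_
  refine (Finset.sum_le_card_nsmul _ _ (2 * c) fun p hp => ?_).trans ?_
  · have := hc p (Finset.mem_filter.1 hp).1
    have h2 := norm_sub_le (g (f p)) (f p)
    rw [g.norm_map] at h2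
    linarith
  · rw [nsmul_eq_mul, mul_comm]
    refine mul_le_mul_of_nonneg_left ?_ (by linarith)
    exact_mod_cast Finset.card_le_card fun p hp => (Finset.mem_filter.1 hp).2

private theorem b_split (K : Submodule ℝ V) (ξ : V) {A B : ℝ} (hA : 0 ≤ A) (hB : 0 ≤ B)
    (h1 : ‖ξ - K.starProjection ξ‖ ^ 2 ≤ A ^ 2)
    (h2 : ⟪K.starProjection ξ, ξ⟫_ℝ ≤ B * ‖K.starProjection ξ‖) : ‖ξ‖ ≤ A + B := by
  have h3 : ‖ξ - K.starProjection ξ‖ ≤ A := by
    exact le_of_sq_le_sq₀ hA h1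
  have h4 := K.starProjection_inner_eq_zero ξ _ (K.starProjection_apply_mem ξ)
  rw [inner_sub_left, real_inner_self_eq_norm_sq, real_inner_comm] at h4
  have h5 : ‖K.starProjection ξ‖ ≤ B := by
    by_contra h
    have h := not_le.1 h
    nlinarith
  have h6 := norm_add_le (ξ - K.starProjection ξ) (K.starProjection ξ)
  rw [sub_add_cancel] at h6
  linarith

private theorem b_num {n : ℝ} (hn : 304 ≤ n) : ∃ t : ℝ, 4 ≤ t ∧ √n = t ^ 2 ∧ √(√n) = t ∧
    n = t ^ 4 := by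
  have h0 : 0 ≤ √n := Real.sqrt_nonneg n
  have h1 : √(√n) ^ 2 = √n := Real.sq_sqrt h0
  have h2 : √n ^ 2 = n := Real.sq_sqrt (by linarith)
  refine ⟨√(√n), ?_, h1.symm, rfl, ?_⟩
  · refine Real.le_sqrt_of_sq_le (Real.le_sqrt_of_sq_le ?_)
    linarith
  · rw [show (4 : ℕ) = 2 * 2 by rfl, pow_mul, h1, h2]

omit [InnerProductSpace ℝ V] [FiniteDimensional ℝ V] in
private theorem b_off (Y : Finset ι) (F : ι × ι → V) :
    ∑ q ∈ Y.offDiag, F q = ∑ x ∈ Y, ∑ y ∈ Y.erase x, F (x, y) :=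
  Finset.sum_finset_product _ _ _ fun p => by
    simp only [Finset.mem_offDiag, Finset.mem_erase]
    tauto

private theorem b_exists {Y : Finset ι} (hY : 3 ≤ Y.card) (a b : ι) :
    ∃ l ∈ Y, l ≠ a ∧ l ≠ b := by
  by_contra h
  have h1 : Y ⊆ {a, b} := fun l hl => by
    by_contra h'
    simp only [Finset.mem_insert, Finset.mem_singleton, not_or] at h'
    exact h ⟨l, hl, h'⟩
  have h2 := (Finset.card_le_card h1).trans Finset.card_le_two
  omega

private theorem b_tv_comm {a b i j : ι} (h1 : a ≠ i) (h2 : a ≠ j) (h3 : b ≠ i) (h4 : b ≠ j)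
    (d s d' s' : Bool) : Commute (tv a b d s) (tv i j d' s') :=
  H_commute (X := {a, b}) (Y := {i, j}) (by simp [h1.symm, h2.symm, h3.symm, h4.symm])
    (tv_mem_H (by simp) (by simp) d s) (tv_mem_H (by simp) (by simp) d' s')

private theorem b_inv_comm {l i j : ι} (h1 : l ≠ i) (h2 : l ≠ j) (d s : Bool) :
    Commute (inv l) (tv i j d s) :=
  H_commute (X := {l}) (Y := {i, j}) (by simp [h1, h2])
    (inv_mem_H (by simp)) (tv_mem_H (by simp) (by simp) d s)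

private theorem b_tv_comm' {i i' j : ι} (h : i ≠ i') (h1 : i ≠ j) (h2 : i' ≠ j) :
    Commute (tv i j true true) (tv i' j true true) := by
  refine autF_ext fun k => ?_
  simp only [MulAut.mul_apply]
  by_cases e : k = i
  · subst e
    rw [tv_ne h, tv_right h1, map_mul, tv_ne h, tv_lt_ne h2.symm]
  · by_cases e' : k = i'
    · subst e'
      rw [tv_ne e, tv_right h2, map_mul, tv_ne e, tv_lt_ne h1.symm]
    · rw [tv_ne e', tv_ne e, tv_ne e']

omit [FiniteDimensional ℝ V] in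
private theorem b_inner (X : Finset ι) {i j : ι} (hj : j ∈ X.erase i) (w z : V) (c : ℝ)
    (h : ‖∑ k ∈ X.erase i, ρ (tv k i true false) w - ((X.card : ℝ) - 1) • z‖ ≤ c) :
    ‖∑ k ∈ (X.erase i).erase j, ρ (tv i j true true) (ρ (tv k i true false) w) -
      ((X.card : ℝ) - 1) • ρ (tv i j true true) z‖ ≤ c + ‖w‖ := by
  rw [← map_sum, ← map_smul, ← map_sub, LinearIsometryEquiv.norm_map,
    Finset.sum_erase_eq_sub hj, sub_right_comm]
  refine (norm_sub_le _ _).trans ?_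
  rw [LinearIsometryEquiv.norm_map]
  linarith

omit [FiniteDimensional ℝ V] in
private theorem b_outer {α : Type} (S : Finset α) (f g : α → V) (m c d : ℝ) (hm : 0 ≤ m)
    (h : ∀ p ∈ S, ‖f p - m • g p‖ ≤ c) (hd : ‖∑ p ∈ S, g p‖ ≤ d) :
    ‖∑ p ∈ S, f p‖ ≤ S.card * c + m * d := by
  have h1 : ∑ p ∈ S, f p = ∑ p ∈ S, (f p - m • g p) + m • ∑ p ∈ S, g p := by
    rw [Finset.sum_sub_distrib, Finset.smul_sum, sub_add_cancel]
  rw [h1]
  refine (norm_add_le _ _).trans (add_le_add ?_ ?_)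
  · refine (norm_sum_le _ _).trans ?_
    rw [← nsmul_eq_mul]
    exact Finset.sum_le_card_nsmul _ _ _ h
  · rw [norm_smul, Real.norm_of_nonneg hm]
    exact mul_le_mul_of_nonneg_left hd hm

omit [FiniteDimensional ℝ V] in
private theorem b_fam (i₀ : ι) (u : V) (i j k : ι) : fam ρ i₀ u (i, j, k) =
    ρ (tv i j true true) (ρ (tv k i true false) (ρ (perm (Equiv.swap i₀ i)) u)) := by
  rw [fam, b_mul, b_mul]

theorem fam_sum1 (X : Finset ι) (hX : 304 ≤ X.card) {i₀ : ι} (hi : i₀ ∈ X) {u : V}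
    (hu : u ∈ Fix ρ (X.erase i₀)) (hperp : ∀ v ∈ Fix ρ X, ⟪u, v⟫_ℝ = 0) {a : ι} (ha : a ∈ X) :
    ‖∑ p ∈ (trip X).filter (fun p => p.1 = a), fam ρ i₀ u p‖ ≤
      50 * (X.card : ℝ) ^ 2 / Real.sqrt (Real.sqrt X.card) * ‖u‖ := by
  have e1 : ∑ p ∈ (trip X).filter (fun p => p.1 = a), fam ρ i₀ u p =
      ∑ q ∈ (X.erase a).offDiag, fam ρ i₀ u (a, q.1, q.2) := by
    refine Finset.sum_nbij' (fun p => p.2) (fun q => (a, q.1, q.2)) ?_ ?_ ?_ ?_ ?_
    · rintro ⟨i, j, k⟩ hp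
      simp only [trip, Finset.mem_filter, Finset.mem_product] at hp
      obtain ⟨⟨⟨h1, h2, h3⟩, h4, h5, h6⟩, rfl⟩ := hp
      simp [h2, h3, h4.symm, h5.symm, h6]
    · rintro ⟨j, k⟩ hq
      simp only [Finset.mem_offDiag, Finset.mem_erase] at hq
      obtain ⟨⟨h1, h2⟩, ⟨h3, h4⟩, h5⟩ := hq
      simp [trip, ha, h2, h4, h1.symm, h3.symm, h5]
    · rintro ⟨i, j, k⟩ hp
      obtain rfl : i = a := (Finset.mem_filter.1 hp).2
      rfl
    · rintro ⟨j, k⟩ hq
      rfl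
    · rintro ⟨i, j, k⟩ hp
      obtain rfl : i = a := (Finset.mem_filter.1 hp).2
      rfl
  rw [e1, b_off]
  simp only [b_fam]
  have hw := b_swap_mem ρ hi ha hu
  have hwp : ∀ v ∈ Fix ρ X, ⟪ρ (perm (Equiv.swap i₀ a)) u, v⟫_ℝ = 0 := fun v hv => by
    rw [b_inner_act ρ (swap_mem_H hi ha) hv, hperp v hv]
  have hwn : ‖ρ (perm (Equiv.swap i₀ a)) u‖ = ‖u‖ := LinearIsometryEquiv.norm_map _ _
  obtain ⟨z, hz, -, hzn, hze, hzc⟩ := exists_z0 ρ X hX ha hw hwp
  generalize ρ (perm (Equiv.swap i₀ a)) u = w at *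
  rw [hwn] at hzn hze hzc
  obtain ⟨t, ht, hs, hss, hn⟩ := b_num (n := X.card) (by exact_mod_cast hX)
  have hu0 := norm_nonneg u
  have hc : (X.erase a).card = X.card - 1 := Finset.card_erase_of_mem ha
  have hcr : ((X.erase a).card : ℝ) = t ^ 4 - 1 := by
    rw [hc, Nat.cast_sub (by omega), hn, Nat.cast_one]
  rw [hss] at hzc ⊢
  rw [hs] at hze
  have ht0 : 0 < t := by linarith
  have ht4 : 1 ≤ t ^ 4 := one_le_pow₀ (by linarith)
  have key : ‖∑ j ∈ X.erase a, ρ (tv a j true true) z‖ ≤ 36 * t ^ 2 * ‖u‖ + 23 * t ^ 3 * ‖u‖ := by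
    refine b_split (Fix ρ (X.erase a)) _ (by positivity) (by positivity) ?_ ?_
    · refine (averaging ρ (X.erase a) (by omega) _ ?_ (4 * ‖u‖) fun b hb => ?_).trans ?_
      · refine Submodule.sum_mem _ fun j hj => Submodule.subset_span ?_
        obtain ⟨l, hl, h1, -⟩ := b_exists (Y := X.erase a) (by omega) j j
        exact ⟨l, hl, b_comm ρ (b_inv_comm (Finset.mem_erase.1 hl).1 h1 _ _)
          (hz _ (inv_mem_H hl))⟩
      · obtain ⟨h1, h2, -⟩ := mem_gens.1 hb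
        refine (b_move _ {b.1, b.2.1} _ _ hu0 (fun j _ => ?_) fun j _ hj => ?_).trans ?_
        · rw [LinearIsometryEquiv.norm_map]; exact hzn
        · simp only [Finset.mem_insert, Finset.mem_singleton, not_or] at hj
          exact b_comm ρ (b_tv_comm (Finset.mem_erase.1 h1).1 (Ne.symm hj.1)
            (Finset.mem_erase.1 h2).1 (Ne.symm hj.2) _ _ _ _) (hz _ (tvi_mem_H hb))
        · have h3 : ((({b.1, b.2.1} : Finset ι).card : ℕ) : ℝ) ≤ 2 := by
            exact_mod_cast Finset.card_le_two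
          nlinarith
      · rw [hcr]
        nlinarith [mul_nonneg (pow_nonneg ht0.le 4) (sq_nonneg ‖u‖), sq_nonneg ‖u‖]
    · have hv := (Fix ρ (X.erase a)).starProjection_apply_mem
        (∑ j ∈ X.erase a, ρ (tv a j true true) z)
      generalize (Fix ρ (X.erase a)).starProjection _ = v at hv ⊢
      rw [inner_sum]
      refine (Finset.sum_le_card_nsmul _ _ _ fun j hj =>
        (le_abs_self _).trans (hzc j hj v hv)).trans ?_
      rw [nsmul_eq_mul, hcr]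
      have h1 : (t ^ 4 - 1) * (23 / t) ≤ 23 * t ^ 3 := by
        rw [← mul_div_assoc, div_le_iff₀ ht0]; nlinarith
      have h2 := mul_nonneg (norm_nonneg v) hu0
      nlinarith
  refine (b_outer _ _ (fun j => ρ (tv a j true true) z) ((X.card : ℝ) - 1) _ _
    (by rw [hn]; linarith) (fun j hj => b_inner ρ X hj w z _ hze) key).trans ?_
  rw [hcr, hwn, hn, show 50 * (t ^ 4) ^ 2 / t = 50 * t ^ 7 by field_simp]
  have h1 : (t ^ 4 - 1) * (36 * t ^ 2 + 1) + (t ^ 4 - 1) * (36 * t ^ 2 + 23 * t ^ 3) ≤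
      50 * t ^ 7 := by
    have h2 : 4 * t ^ 6 ≤ t ^ 7 := by nlinarith [pow_nonneg ht0.le 6]
    have h3 : t ^ 4 ≤ t ^ 6 := pow_le_pow_right₀ (by linarith) (by norm_num)
    nlinarith [pow_nonneg ht0.le 2, pow_nonneg ht0.le 3]
  nlinarith

theorem fam_sum2 (X : Finset ι) (hX : 304 ≤ X.card) {i₀ : ι} (hi : i₀ ∈ X) {u : V}
    (hu : u ∈ Fix ρ (X.erase i₀)) (hperp : ∀ v ∈ Fix ρ X, ⟪u, v⟫_ℝ = 0) {a : ι} (ha : a ∈ X) :
    ‖∑ p ∈ (trip X).filter (fun p => p.2.1 = a), fam ρ i₀ u p‖ ≤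
      50 * (X.card : ℝ) ^ 2 / Real.sqrt (Real.sqrt X.card) * ‖u‖ := by
  have e1 : ∑ p ∈ (trip X).filter (fun p => p.2.1 = a), fam ρ i₀ u p =
      ∑ q ∈ (X.erase a).offDiag, fam ρ i₀ u (q.1, a, q.2) := by
    refine Finset.sum_nbij' (fun p => (p.1, p.2.2)) (fun q => (q.1, a, q.2)) ?_ ?_ ?_ ?_ ?_
    · rintro ⟨i, j, k⟩ hp
      simp only [trip, Finset.mem_filter, Finset.mem_product] at hp
      obtain ⟨⟨⟨h1, h2, h3⟩, h4, h5, h6⟩, rfl⟩ := hp
      simp [h1, h3, h4, h5, h6.symm]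
    · rintro ⟨j, k⟩ hq
      simp only [Finset.mem_offDiag, Finset.mem_erase] at hq
      obtain ⟨⟨h1, h2⟩, ⟨h3, h4⟩, h5⟩ := hq
      simp [trip, ha, h2, h4, h1, h3.symm, h5]
    · rintro ⟨i, j, k⟩ hp
      obtain rfl : j = a := (Finset.mem_filter.1 hp).2
      rfl
    · rintro ⟨j, k⟩ hq
      rfl
    · rintro ⟨i, j, k⟩ hp
      obtain rfl : j = a := (Finset.mem_filter.1 hp).2
      rfl
  rw [e1, b_off]
  simp only [b_fam]
  have hz0 : ∀ i ∈ X.erase a, _ := fun i hi' => exists_z0 ρ X hX (Finset.mem_erase.1 hi').2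
    (b_swap_mem ρ hi (Finset.mem_erase.1 hi').2 hu) fun v hv => by
      rw [b_inner_act ρ (swap_mem_H hi (Finset.mem_erase.1 hi').2) hv, hperp v hv]
  choose! z hz hzp hzn hze hzc using hz0
  simp only [LinearIsometryEquiv.norm_map] at hzn hze
  obtain ⟨t, ht, hs, hss, hn⟩ := b_num (n := X.card) (by exact_mod_cast hX)
  have hu0 := norm_nonneg u
  have hc : (X.erase a).card = X.card - 1 := Finset.card_erase_of_mem ha
  have hcr : ((X.erase a).card : ℝ) = t ^ 4 - 1 := by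
    rw [hc, Nat.cast_sub (by omega), hn, Nat.cast_one]
  rw [hss]
  rw [hs] at hze
  have ht0 : 0 < t := by linarith
  have ht4 : 1 ≤ t ^ 4 := one_le_pow₀ (by linarith)
  have key : ‖∑ i ∈ X.erase a, ρ (tv i a true true) (z i)‖ ≤ 45 * t ^ 2 * ‖u‖ := by
    refine le_of_sq_le_sq₀ (by positivity) ?_
    rw [← real_inner_self_eq_norm_sq, sum_inner]
    refine (Finset.sum_le_card_nsmul _ _ (2001 * ‖u‖ ^ 2) fun i hi' => ?_).trans ?_
    · rw [inner_sum, ← Finset.add_sum_erase _ _ hi', real_inner_self_eq_norm_sq,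
        LinearIsometryEquiv.norm_map]
      have h1 : ‖z i‖ ^ 2 ≤ ‖u‖ ^ 2 := pow_le_pow_left₀ (norm_nonneg _) (hzn i hi') 2
      have h2 := Finset.sum_le_card_nsmul ((X.erase a).erase i)
        (fun j => ⟪ρ (tv i a true true) (z i), ρ (tv j a true true) (z j)⟫_ℝ)
        (2000 / t ^ 4 * ‖u‖ ^ 2) fun j hj => by
          obtain ⟨hji, hj⟩ := Finset.mem_erase.1 hj
          obtain ⟨hia, hiX⟩ := Finset.mem_erase.1 hi'
          obtain ⟨hja, hjX⟩ := Finset.mem_erase.1 hj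
          have f1 : ρ (tv j a true true) (z i) = z i := hz i hi' _
            (tv_mem_H (Finset.mem_erase.2 ⟨hji, hjX⟩) (Finset.mem_erase.2 ⟨hia.symm, ha⟩) _ _)
          have f2 : ρ (tv i a true true) (z j) = z j := hz j hj _
            (tv_mem_H (Finset.mem_erase.2 ⟨hji.symm, hiX⟩)
              (Finset.mem_erase.2 ⟨hja.symm, ha⟩) _ _)
          have f3 := b_comm ρ (b_tv_comm' hji.symm hia hja) f2
          rw [← f3, LinearIsometryEquiv.inner_map_map]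
          conv_lhs => rw [← f1]
          rw [LinearIsometryEquiv.inner_map_map]
          refine ((le_abs_self _).trans (cos1 ρ X hX hiX hjX hji.symm (hz i hi') (hz j hj)
            (hzp i hi'))).trans ?_
          rw [hn, sq ‖u‖]
          exact mul_le_mul_of_nonneg_left
            (mul_le_mul (hzn i hi') (hzn j hj) (norm_nonneg _) hu0) (by positivity)
      have h3 : ((((X.erase a).erase i).card : ℕ) : ℝ) ≤ t ^ 4 := by
        rw [← hn]
        exact_mod_cast Finset.card_le_card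
          ((Finset.erase_subset _ _).trans (Finset.erase_subset _ _))
      rw [nsmul_eq_mul] at h2
      have h4 := mul_le_mul_of_nonneg_right h3
        (show 0 ≤ 2000 / t ^ 4 * ‖u‖ ^ 2 by positivity)
      rw [show t ^ 4 * (2000 / t ^ 4 * ‖u‖ ^ 2) = 2000 * ‖u‖ ^ 2 by field_simp] at h4
      linarith
    · rw [nsmul_eq_mul, hcr]
      nlinarith [mul_nonneg (pow_nonneg ht0.le 4) (sq_nonneg ‖u‖), sq_nonneg ‖u‖]
  refine (b_outer _ _ (fun i => ρ (tv i a true true) (z i)) ((X.card : ℝ) - 1)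
    (36 * t ^ 2 * ‖u‖ + ‖u‖) _ (by rw [hn]; linarith) (fun i hi' => ?_) key).trans ?_
  · have h1 := b_inner ρ X (Finset.mem_erase.2 ⟨(Finset.mem_erase.1 hi').1.symm, ha⟩) _ _ _
      (hze i hi')
    rw [LinearIsometryEquiv.norm_map, Finset.erase_right_comm] at h1
    exact h1
  rw [hcr, hn, show 50 * (t ^ 4) ^ 2 / t = 50 * t ^ 7 by field_simp]
  have h1 : (t ^ 4 - 1) * (36 * t ^ 2 + 1) + (t ^ 4 - 1) * (45 * t ^ 2) ≤ 50 * t ^ 7 := by
    have h2 : 4 * t ^ 6 ≤ t ^ 7 := by nlinarith [pow_nonneg ht0.le 6]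
    have h3 : t ^ 4 ≤ t ^ 6 := pow_le_pow_right₀ (by linarith) (by norm_num)
    nlinarith [pow_nonneg ht0.le 2, pow_nonneg ht0.le 6]
  nlinarith

theorem fam_sum3 (X : Finset ι) (hX : 304 ≤ X.card) {i₀ : ι} (hi : i₀ ∈ X) {u : V}
    (hu : u ∈ Fix ρ (X.erase i₀)) (hperp : ∀ v ∈ Fix ρ X, ⟪u, v⟫_ℝ = 0) {a : ι} (ha : a ∈ X) :
    ‖∑ p ∈ (trip X).filter (fun p => p.2.2 = a), fam ρ i₀ u p‖ ≤
      50 * (X.card : ℝ) ^ 2 / Real.sqrt (Real.sqrt X.card) * ‖u‖ := by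
  have e1 : ∑ p ∈ (trip X).filter (fun p => p.2.2 = a), fam ρ i₀ u p =
      ∑ q ∈ (X.erase a).offDiag, fam ρ i₀ u (q.1, q.2, a) := by
    refine Finset.sum_nbij' (fun p => (p.1, p.2.1)) (fun q => (q.1, q.2, a)) ?_ ?_ ?_ ?_ ?_
    · rintro ⟨i, j, k⟩ hp
      simp only [trip, Finset.mem_filter, Finset.mem_product] at hp
      obtain ⟨⟨⟨h1, h2, h3⟩, h4, h5, h6⟩, rfl⟩ := hp
      simp [h1, h2, h4, h5, h6]
    · rintro ⟨j, k⟩ hq
      simp only [Finset.mem_offDiag, Finset.mem_erase] at hq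
      obtain ⟨⟨h1, h2⟩, ⟨h3, h4⟩, h5⟩ := hq
      simp [trip, ha, h2, h4, h1, h3, h5]
    · rintro ⟨i, j, k⟩ hp
      obtain rfl : k = a := (Finset.mem_filter.1 hp).2
      rfl
    · rintro ⟨j, k⟩ hq
      rfl
    · rintro ⟨i, j, k⟩ hp
      obtain rfl : k = a := (Finset.mem_filter.1 hp).2
      rfl
  rw [e1]
  simp only [b_fam]
  have hw : ∀ i ∈ X.erase a, ρ (perm (Equiv.swap i₀ i)) u ∈ Fix ρ (X.erase i) := fun i hi' =>
    b_swap_mem ρ hi (Finset.mem_erase.1 hi').2 hu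
  have hwp : ∀ i ∈ X.erase a, ∀ v ∈ Fix ρ X, ⟪ρ (perm (Equiv.swap i₀ i)) u, v⟫_ℝ = 0 :=
    fun i hi' v hv => by
      rw [b_inner_act ρ (swap_mem_H hi (Finset.mem_erase.1 hi').2) hv, hperp v hv]
  obtain ⟨t, ht, hs, hss, hn⟩ := b_num (n := X.card) (by exact_mod_cast hX)
  have hu0 := norm_nonneg u
  have hc : (X.erase a).card = X.card - 1 := Finset.card_erase_of_mem ha
  have hcr : ((X.erase a).card : ℝ) = t ^ 4 - 1 := by
    rw [hc, Nat.cast_sub (by omega), hn, Nat.cast_one]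
  rw [hss]
  have ht0 : 0 < t := by linarith
  have ht4 : 1 ≤ t ^ 4 := one_le_pow₀ (by linarith)
  refine (b_split (Fix ρ (X.erase a)) _ (A := 72 * t ^ 6 * ‖u‖) (B := 50 * t ^ 6 * ‖u‖)
    (by positivity) (by positivity) ?_ ?_).trans ?_
  · refine (averaging ρ (X.erase a) (by omega) _ ?_ (8 * t ^ 4 * ‖u‖) fun b hb => ?_).trans ?_
    · refine Submodule.sum_mem _ fun q hq => Submodule.subset_span ?_
      obtain ⟨h1, h2, -⟩ := Finset.mem_offDiag.1 hq
      obtain ⟨l, hl, h3, h4⟩ := b_exists (Y := X.erase a) (by omega) q.1 q.2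
      exact ⟨l, hl, b_comm ρ (b_inv_comm h3 h4 _ _) (b_comm ρ
        (b_inv_comm (Finset.mem_erase.1 hl).1 h3 _ _)
        (hw _ h1 _ (inv_mem_H (Finset.mem_erase.2 ⟨h3, (Finset.mem_erase.1 hl).2⟩))))⟩
    · obtain ⟨h1, h2, -⟩ := mem_gens.1 hb
      refine (b_move _ (({b.1, b.2.1} ×ˢ X) ∪ (X ×ˢ {b.1, b.2.1})) _ _ hu0 (fun q _ => ?_)
        fun q hq hj => ?_).trans ?_
      · simp only [LinearIsometryEquiv.norm_map, le_refl]
      · obtain ⟨h3, h4, -⟩ := Finset.mem_offDiag.1 hq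
        simp only [Finset.mem_union, Finset.mem_product, Finset.mem_insert, Finset.mem_singleton,
          (Finset.mem_erase.1 h3).2, (Finset.mem_erase.1 h4).2, and_true, true_and, not_or] at hj
        obtain ⟨⟨k1, k2⟩, k3, k4⟩ := hj
        refine b_comm ρ (b_tv_comm (Ne.symm k1) (Ne.symm k3) (Ne.symm k2) (Ne.symm k4) _ _ _ _)
          (b_comm ρ (b_tv_comm (Finset.mem_erase.1 h1).1 (Ne.symm k1) (Finset.mem_erase.1 h2).1
            (Ne.symm k2) _ _ _ _) (hw _ h3 _ (tv_mem_H ?_ ?_ _ _)))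
        · exact Finset.mem_erase.2 ⟨Ne.symm k1, (Finset.mem_erase.1 h1).2⟩
        · exact Finset.mem_erase.2 ⟨Ne.symm k2, (Finset.mem_erase.1 h2).2⟩
      · have h3 : ((({b.1, b.2.1} : Finset ι) ×ˢ X) ∪ (X ×ˢ ({b.1, b.2.1} : Finset ι))).card ≤
            4 * X.card := by
          refine (Finset.card_union_le _ _).trans ?_
          rw [Finset.card_product, Finset.card_product]
          have := Finset.card_le_two (a := b.1) (b := b.2.1)
          nlinarith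
        have h4 : ((((({b.1, b.2.1} : Finset ι) ×ˢ X) ∪
            (X ×ˢ ({b.1, b.2.1} : Finset ι))).card : ℕ) : ℝ) ≤ 4 * t ^ 4 := by
          rw [← hn]; exact_mod_cast h3
        nlinarith
    · rw [hcr]
      nlinarith [mul_nonneg (pow_nonneg ht0.le 12) (sq_nonneg ‖u‖),
        mul_nonneg (pow_nonneg ht0.le 8) (sq_nonneg ‖u‖)]
  · have hv := (Fix ρ (X.erase a)).starProjection_apply_mem (∑ q ∈ (X.erase a).offDiag,
      ρ (tv q.1 q.2 true true) (ρ (tv a q.1 true false) (ρ (perm (Equiv.swap i₀ q.1)) u)))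
    have hvp : ∀ f ∈ Fix ρ X, ⟪(Fix ρ (X.erase a)).starProjection (∑ q ∈ (X.erase a).offDiag,
        ρ (tv q.1 q.2 true true) (ρ (tv a q.1 true false) (ρ (perm (Equiv.swap i₀ q.1)) u))),
        f⟫_ℝ = 0 := fun f hf => by
      rw [Submodule.inner_starProjection_left_eq_right,
        Submodule.starProjection_eq_self_iff.2 (b_anti ρ (Finset.erase_subset _ _) hf), sum_inner]
      refine Finset.sum_eq_zero fun q hq => ?_
      obtain ⟨h1, h2, -⟩ := Finset.mem_offDiag.1 hq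
      rw [b_inner_act ρ (tv_mem_H (Finset.mem_erase.1 h1).2 (Finset.mem_erase.1 h2).2 _ _) hf,
        b_inner_act ρ (tv_mem_H ha (Finset.mem_erase.1 h1).2 _ _) hf, hwp _ h1 f hf]
    generalize (Fix ρ (X.erase a)).starProjection _ = v at hv hvp ⊢
    rw [inner_sum]
    refine (Finset.sum_le_card_nsmul _ _ (50 / t ^ 2 * (‖u‖ * ‖v‖)) fun q hq => ?_).trans ?_
    · obtain ⟨h1, h2, -⟩ := Finset.mem_offDiag.1 hq
      rw [real_inner_comm, b_inner_act ρ (tv_mem_H h1 h2 _ _) hv]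
      have h3 := cosD ρ X hX (Finset.mem_erase.1 h1).2 ha (Finset.mem_erase.1 h1).1 true false
        (hw _ h1) hv hvp
      rw [hs, LinearIsometryEquiv.norm_map] at h3
      exact (le_abs_self _).trans h3
    · have h1 : (X.erase a).offDiag.card ≤ X.card * X.card := by
        rw [← Finset.card_product]
        refine Finset.card_le_card fun q hq => ?_
        obtain ⟨h1, h2, -⟩ := Finset.mem_offDiag.1 hq
        exact Finset.mem_product.2 ⟨(Finset.mem_erase.1 h1).2, (Finset.mem_erase.1 h2).2⟩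
      have h2 : (((X.erase a).offDiag.card : ℕ) : ℝ) ≤ t ^ 4 * t ^ 4 := by
        rw [← hn]; exact_mod_cast h1
      rw [nsmul_eq_mul]
      refine (mul_le_mul_of_nonneg_right h2 (by positivity)).trans (le_of_eq ?_)
      field_simp
  · rw [hn, show 50 * (t ^ 4) ^ 2 / t = 50 * t ^ 7 by field_simp]
    have h2 : 4 * t ^ 6 ≤ t ^ 7 := by nlinarith [pow_nonneg ht0.le 6]
    nlinarith [mul_nonneg (pow_nonneg ht0.le 6) hu0]

end Pool.Agent.P.MP_2d26dd_al
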