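import Pool.Agent.P.MP_2d26dd_al.A2b

/-! Second-order amplification. -/

namespace Pool.Agent.P.MP_2d26dd_al

open scoped InnerProductSpace

variable {ι : Type} [DecidableEq ι] {V : Type} [NormedAddCommGroup V] [InnerProductSpace ℝ V]
  [FiniteDimensional ℝ V] (ρ : AutF ι →* (V ≃ₗᵢ[ℝ] V))

omit [FiniteDimensional ℝ V] in
theorem A2c_abs {P : Type} (T : Finset P) (X : Finset ι) (s : P → Finset ι)
    (hs : ∀ p ∈ T, s p ⊆ X) (U : P → V) {μ c A B C : ℝ} (hU : ∀ p, ‖U p‖ = c)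
    (hμ : ∀ p ∈ T, ∀ p' ∈ T, Disjoint (s p) (s p') → ⟪U p, U p'⟫_ℝ = μ)
    (hA : ∀ a ∈ X, ‖∑ p ∈ T.filter (fun p => a ∈ s p), U p‖ ≤ A)
    (hB : ∀ a ∈ X, ((T.filter fun p => a ∈ s p).card : ℝ) ≤ B)
    (hC : ∀ a ∈ X, ∀ b ∈ X, a ≠ b → ((T.filter fun p => a ∈ s p ∧ b ∈ s p).card : ℝ) ≤ C) :
    |μ| * ((T.card : ℝ) ^ 2 - X.card * B ^ 2) ≤
      ‖∑ p ∈ T, U p‖ ^ 2 + X.card * A ^ 2 + (X.card : ℝ) ^ 2 * C ^ 2 * c ^ 2 := by
  let w : ι → P → ℝ := fun a p => if a ∈ s p then 1 else 0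
  let d : P → P → ℝ := fun p p' => if Disjoint (s p) (s p') then 1 else 0
  let m : P → P → ℝ := fun p p' => ∑ a ∈ X, w a p * w a p'
  let q : P → P → ℝ := fun p p' => ∑ a ∈ X, ∑ b ∈ X.erase a, (w a p * w b p) * (w a p' * w b p')
  have hm : ∀ p ∈ T, ∀ p', m p p' = (s p ∩ s p').card := fun p hp p' => by
    have : X.filter (fun a => a ∈ s p ∧ a ∈ s p') = s p ∩ s p' := by
      ext a
      simp only [Finset.mem_filter, Finset.mem_inter, and_iff_right_iff_imp]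
      exact fun h => hs p hp h.1
    simp only [m, w, ite_zero_mul_ite_zero, mul_one, Finset.sum_boole, this]
  have hq : ∀ p p', q p p' = m p p' * (m p p' - 1) := fun p p' => by
    simp only [q, m]
    rw [Finset.sum_mul]
    refine Finset.sum_congr rfl fun a ha => ?_
    rw [← Finset.add_sum_erase X _ ha, add_sub_right_comm, mul_add, Finset.mul_sum]
    have : w a p * w a p' * (w a p * w a p' - 1) = 0 := by
      simp only [w]; split_ifs <;> norm_num
    rw [this, zero_add]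
    exact Finset.sum_congr rfl fun b _ => by ring
  have he : ∀ p ∈ T, ∀ p', 0 ≤ d p p' + m p p' - 1 ∧ d p p' + m p p' - 1 ≤ q p p' := by
    intro p hp p'
    rw [hq, hm p hp]
    simp only [d, Finset.disjoint_iff_inter_eq_empty, ← Finset.card_eq_zero]
    generalize (s p ∩ s p').card = k
    rcases k with _ | k
    · simp
    · rw [if_neg (Nat.succ_ne_zero k)]
      push_cast
      have : (0 : ℝ) ≤ k := Nat.cast_nonneg k
      constructor <;> nlinarith
  have sw : ∀ (Y : Finset ι) (g : ι → P → P → ℝ), ∑ p ∈ T, ∑ p' ∈ T, ∑ a ∈ Y, g a p p' =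
      ∑ a ∈ Y, ∑ p ∈ T, ∑ p' ∈ T, g a p p' := fun Y g => by
    rw [Finset.sum_comm (s := Y)]
    exact Finset.sum_congr rfl fun p _ => Finset.sum_comm
  have h1 : ∑ p ∈ T, ∑ p' ∈ T, m p p' * ⟪U p, U p'⟫_ℝ =
      ∑ a ∈ X, ‖∑ p ∈ T.filter (fun p => a ∈ s p), U p‖ ^ 2 := by
    simp only [m, Finset.sum_mul]
    rw [sw]
    refine Finset.sum_congr rfl fun a _ => ?_
    rw [← real_inner_self_eq_norm_sq, sum_inner, Finset.sum_filter]
    refine Finset.sum_congr rfl fun p _ => ?_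
    rw [inner_sum, Finset.sum_filter]
    simp only [w]
    split_ifs <;> simp
  have h2 : ∑ p ∈ T, ∑ p' ∈ T, m p p' ≤ X.card * B ^ 2 := by
    simp only [m]
    rw [sw, ← nsmul_eq_mul]
    refine Finset.sum_le_card_nsmul _ _ _ fun a ha => ?_
    rw [← Finset.sum_mul_sum, ← sq]
    simp only [w, Finset.sum_boole]
    exact pow_le_pow_left₀ (Nat.cast_nonneg _) (hB a ha) 2
  have h3 : ∑ p ∈ T, ∑ p' ∈ T, q p p' ≤ (X.card : ℝ) ^ 2 * C ^ 2 := by
    simp only [q]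
    rw [sw, sq (X.card : ℝ), mul_assoc, ← nsmul_eq_mul]
    refine Finset.sum_le_card_nsmul _ _ _ fun a ha => ?_
    rw [sw]
    refine (Finset.sum_le_card_nsmul _ _ (C ^ 2) fun b hb => ?_).trans ?_
    · rw [← Finset.sum_mul_sum, ← sq]
      simp only [w, ite_zero_mul_ite_zero, mul_one, Finset.sum_boole]
      exact pow_le_pow_left₀ (Nat.cast_nonneg _)
        (hC a ha b (Finset.mem_of_mem_erase hb) (Finset.ne_of_mem_erase hb).symm) 2
    · rw [nsmul_eq_mul]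
      exact mul_le_mul_of_nonneg_right (by exact_mod_cast Finset.card_erase_le) (sq_nonneg C)
  have h4 : ∑ p ∈ T, ∑ p' ∈ T, d p p' * ⟪U p, U p'⟫_ℝ = μ * ∑ p ∈ T, ∑ p' ∈ T, d p p' := by
    simp only [Finset.mul_sum]
    refine Finset.sum_congr rfl fun p hp => Finset.sum_congr rfl fun p' hp' => ?_
    simp only [d]
    split_ifs with h
    · rw [hμ p hp p' hp' h, mul_comm]
    · simp
  have h5 : (T.card : ℝ) ^ 2 - X.card * B ^ 2 ≤ ∑ p ∈ T, ∑ p' ∈ T, d p p' := by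
    have : 0 ≤ ∑ p ∈ T, ∑ p' ∈ T, (d p p' + m p p' - 1) :=
      Finset.sum_nonneg fun p hp => Finset.sum_nonneg fun p' _ => (he p hp p').1
    simp only [Finset.sum_sub_distrib, Finset.sum_add_distrib, Finset.sum_const, nsmul_eq_mul,
      mul_one] at this
    linarith
  have h6 : |∑ p ∈ T, ∑ p' ∈ T, (d p p' + m p p' - 1) * ⟪U p, U p'⟫_ℝ| ≤
      (X.card : ℝ) ^ 2 * C ^ 2 * c ^ 2 := by
    refine le_trans ?_ (mul_le_mul_of_nonneg_right h3 (sq_nonneg c))
    rw [Finset.sum_mul]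
    refine (Finset.abs_sum_le_sum_abs _ _).trans (Finset.sum_le_sum fun p hp => ?_)
    rw [Finset.sum_mul]
    refine (Finset.abs_sum_le_sum_abs _ _).trans (Finset.sum_le_sum fun p' _ => ?_)
    rw [abs_mul, abs_of_nonneg (he p hp p').1]
    refine mul_le_mul (he p hp p').2 ?_ (abs_nonneg _) ((he p hp p').1.trans (he p hp p').2)
    have := abs_real_inner_le_norm (U p) (U p')
    rwa [hU, hU, ← sq] at this
  have h7 : ‖∑ p ∈ T, U p‖ ^ 2 = ∑ p ∈ T, ∑ p' ∈ T, ⟪U p, U p'⟫_ℝ := by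
    rw [← real_inner_self_eq_norm_sq, sum_inner]
    exact Finset.sum_congr rfl fun p _ => inner_sum _ _ _
  have h8 : ∑ a ∈ X, ‖∑ p ∈ T.filter (fun p => a ∈ s p), U p‖ ^ 2 ≤ X.card * A ^ 2 := by
    rw [← nsmul_eq_mul]
    exact Finset.sum_le_card_nsmul _ _ _ fun a ha => pow_le_pow_left₀ (norm_nonneg _) (hA a ha) 2
  have h9 : 0 ≤ ∑ a ∈ X, ‖∑ p ∈ T.filter (fun p => a ∈ s p), U p‖ ^ 2 :=
    Finset.sum_nonneg fun _ _ => sq_nonneg _
  simp only [sub_mul, add_mul, one_mul, Finset.sum_sub_distrib, Finset.sum_add_distrib] at h6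
  rw [h4, h1, ← h7, abs_le] at h6
  have h10 : 0 ≤ ∑ p ∈ T, ∑ p' ∈ T, d p p' :=
    Finset.sum_nonneg fun p _ => Finset.sum_nonneg fun p' _ => by
      simp only [d]; split_ifs <;> norm_num
  refine (mul_le_mul_of_nonneg_left h5 (abs_nonneg μ)).trans ?_
  rw [← abs_of_nonneg h10, ← abs_mul, abs_le]
  have := sq_nonneg ‖∑ p ∈ T, U p‖
  constructor <;> linarith [h6.1, h6.2]

/-- the letters of a triple -/
def A2c_s (p : ι × ι × ι) : Finset ι := {p.1, p.2.1, p.2.2}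

theorem A2c_mem {X : Finset ι} {p : ι × ι × ι} : p ∈ trip X ↔
    (p.1 ∈ X ∧ p.2.1 ∈ X ∧ p.2.2 ∈ X) ∧ p.1 ≠ p.2.1 ∧ p.1 ≠ p.2.2 ∧ p.2.1 ≠ p.2.2 := by
  simp [trip]

theorem A2c_card1 (X : Finset ι) (a : ι) :
    (((trip X).filter fun p => a ∈ A2c_s p).card : ℝ) ≤ 3 * (X.card : ℝ) ^ 2 := by
  have h : ((trip X).filter fun p => a ∈ A2c_s p) ⊆
      ({a} ×ˢ X ×ˢ X) ∪ (X ×ˢ {a} ×ˢ X) ∪ (X ×ˢ X ×ˢ {a}) := fun p hp => by
    simp only [Finset.mem_filter, A2c_mem, A2c_s, Finset.mem_insert, Finset.mem_singleton,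
      Finset.mem_union, Finset.mem_product] at hp ⊢
    grind
  have h1 := (Finset.card_le_card h).trans ((Finset.card_union_le _ _).trans
    (Nat.add_le_add_right (Finset.card_union_le _ _) _))
  simp only [Finset.card_product, Finset.card_singleton] at h1
  have h2 := (Nat.cast_le (α := ℝ)).2 h1
  push_cast at h2
  linarith

theorem A2c_card2 (X : Finset ι) {a b : ι} (hab : a ≠ b) :
    (((trip X).filter fun p => a ∈ A2c_s p ∧ b ∈ A2c_s p).card : ℝ) ≤ 12 * (X.card : ℝ) := by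
  have h : ((trip X).filter fun p => a ∈ A2c_s p ∧ b ∈ A2c_s p) ⊆
      ({a, b} ×ˢ {a, b} ×ˢ X) ∪ ({a, b} ×ˢ X ×ˢ {a, b}) ∪ (X ×ˢ {a, b} ×ˢ {a, b}) := fun p hp => by
    simp only [Finset.mem_filter, A2c_mem, A2c_s, Finset.mem_insert, Finset.mem_singleton,
      Finset.mem_union, Finset.mem_product] at hp ⊢
    grind
  have h1 := (Finset.card_le_card h).trans ((Finset.card_union_le _ _).trans
    (Nat.add_le_add_right (Finset.card_union_le _ _) _))
  simp only [Finset.card_product, Finset.card_pair hab] at h1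
  have h2 := (Nat.cast_le (α := ℝ)).2 h1
  push_cast at h2
  linarith

theorem A2c_card3 (X : Finset ι) :
    (X.card : ℝ) ^ 3 - 3 * (X.card : ℝ) ^ 2 ≤ (trip X).card := by
  have h : X ×ˢ X ×ˢ X ⊆ trip X ∪ ((X ×ˢ X).image fun p => (p.1, p.1, p.2)) ∪
      ((X ×ˢ X).image fun p => (p.1, p.2, p.1)) ∪ ((X ×ˢ X).image fun p => (p.1, p.2, p.2)) := by
    rintro ⟨a, b, c⟩ hp
    simp only [A2c_mem, Finset.mem_union, Finset.mem_product, Finset.mem_image, Prod.exists,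
      Prod.mk.injEq] at hp ⊢
    grind
  have h1 := (Finset.card_le_card h).trans ((Finset.card_union_le _ _).trans
    (Nat.add_le_add ((Finset.card_union_le _ _).trans (Nat.add_le_add
      ((Finset.card_union_le _ _).trans (Nat.add_le_add_left Finset.card_image_le _))
      Finset.card_image_le)) Finset.card_image_le))
  simp only [Finset.card_product] at h1
  have h2 := (Nat.cast_le (α := ℝ)).2 h1
  push_cast at h2
  linarith

theorem A2c_num {n t : ℝ} (hn : 304 ≤ n) (h : n ^ 3 - 3 * n ^ 2 ≤ t) :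
    n ^ 6 / 2 ≤ t ^ 2 - n * (3 * n ^ 2) ^ 2 := by
  have f0 : 0 ≤ n ^ 2 * (n - 3) := mul_nonneg (sq_nonneg _) (by linarith)
  have f2 := pow_le_pow_left₀ (by linarith) h 2
  have f3 : 0 ≤ n ^ 5 * (n - 30) := mul_nonneg (by positivity) (by linarith)
  have f4 : 0 ≤ n ^ 4 := by positivity
  linarith

omit [FiniteDimensional ℝ V] in
theorem A2c_fam (i : ι) (u : V) (p : ι × ι × ι) : ∃ g ∈ H (A2c_s p),
    fam ρ i u p = ρ g (ρ (perm (Equiv.swap i p.1)) u) :=
  ⟨_, mul_mem (tv_mem_H (i := p.1) (j := p.2.1) (by simp [A2c_s]) (by simp [A2c_s]) true true)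
    (tv_mem_H (i := p.2.2) (j := p.1) (by simp [A2c_s]) (by simp [A2c_s]) true false), by
      rw [fam, map_mul]; rfl⟩

theorem A2c_swap {X : Finset ι} {i a : ι} (ha : a ∈ X) {u : V}
    (hu : u ∈ Fix ρ (X.erase i)) : ρ (perm (Equiv.swap i a)) u ∈ Fix ρ (X.erase a) := by
  have h := perm_mem_Fix ρ (Equiv.swap i a) hu
  refine fun g hg => h g (H_mono (fun x hx => ?_) hg)
  refine Finset.mem_image.2 ⟨Equiv.swap i a x, ?_, by simp⟩
  rw [Finset.mem_erase] at hx ⊢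
  rw [Equiv.swap_apply_def]
  grind

theorem A2c_fix {X : Finset ι} {i : ι} {u : V} (hu : u ∈ Fix ρ (X.erase i))
    {p : ι × ι × ι} (hp : p ∈ trip X) {Y : Finset ι} (hY : Y ⊆ X) (hd : Disjoint Y (A2c_s p))
    {h : AutF ι} (hh : h ∈ H Y) : ρ h (fam ρ i u p) = fam ρ i u p := by
  obtain ⟨g, hg, e⟩ := A2c_fam ρ i u p
  have h1 := A2c_swap ρ (A2c_mem.1 hp).1.1 hu h (H_mono (fun x hx => Finset.mem_erase.2
    ⟨fun e => Finset.disjoint_left.1 hd hx (by simp [A2c_s, e]), hY hx⟩) hh)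
  have h2 := congrArg (fun k => ρ k (ρ (perm (Equiv.swap i p.1)) u)) (H_commute hd hh hg).eq
  simp only [map_mul, LinearIsometryEquiv.coe_mul, Function.comp_apply] at h2
  rw [e, h2, h1]

theorem A2c_T (X : Finset ι) (hX : 304 ≤ X.card) {i : ι} (hi : i ∈ X) {u : V}
    (hu : u ∈ Fix ρ (X.erase i)) (hperp : ∀ v ∈ Fix ρ X, ⟪u, v⟫_ℝ = 0) {a : ι} (ha : a ∈ X) :
    ‖∑ p ∈ (trip X).filter (fun p => a ∈ A2c_s p), fam ρ i u p‖ ≤
      150 * (X.card : ℝ) ^ 2 / Real.sqrt (Real.sqrt X.card) * ‖u‖ := by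
  have h1 := fam_sum1 ρ X hX hi hu hperp ha
  have h2 := fam_sum2 ρ X hX hi hu hperp ha
  have h3 := fam_sum3 ρ X hX hi hu hperp ha
  have e : ∑ p ∈ (trip X).filter (fun p => a ∈ A2c_s p), fam ρ i u p =
      ∑ p ∈ (trip X).filter (fun p => p.1 = a), fam ρ i u p +
      ∑ p ∈ (trip X).filter (fun p => p.2.1 = a), fam ρ i u p +
      ∑ p ∈ (trip X).filter (fun p => p.2.2 = a), fam ρ i u p := by
    simp only [Finset.sum_filter, ← Finset.sum_add_distrib]
    refine Finset.sum_congr rfl fun p hp => ?_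
    obtain ⟨-, k1, k2, k3⟩ := A2c_mem.1 hp
    simp only [A2c_s, Finset.mem_insert, Finset.mem_singleton]
    split_ifs <;> first | simp; done | grind
  rw [e]
  refine norm_add₃_le.trans ((add_le_add (add_le_add h1 h2) h3).trans (le_of_eq (by ring)))

theorem cos2 (X : Finset ι) (hX : 304 ≤ X.card) {i j : ι} (hi : i ∈ X) (hj : j ∈ X) (hij : i ≠ j)
    {u w : V} (hu : u ∈ Fix ρ (X.erase i)) (hw : w ∈ Fix ρ (X.erase j))
    (hperp : ∀ v ∈ Fix ρ X, ⟪u, v⟫_ℝ = 0) :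
    |⟪u, w⟫_ℝ| ≤ 10 ^ 8 / (X.card * Real.sqrt X.card) * (‖u‖ * ‖w‖) := by
  refine cos_of_diag ρ X hi hj hij _ (fun u hu hperp => ?_) hu hw hperp
  have hn : (304 : ℝ) ≤ X.card := by exact_mod_cast hX
  have hT := fun a ha => A2c_T ρ X hX hi hu hperp (a := a) ha
  have hU : ∀ p, ‖fam ρ i u p‖ = ‖u‖ := fun p => LinearIsometryEquiv.norm_map _ _
  have hs : ∀ p ∈ trip X, A2c_s p ⊆ X := fun p hp => by
    simpa only [A2c_s, Finset.insert_subset_iff, Finset.singleton_subset_iff] using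
      (A2c_mem.1 hp).1
  have main := A2c_abs (trip X) X A2c_s hs (fam ρ i u) (μ := ⟪u, ρ (perm (Equiv.swap i j)) u⟫_ℝ)
    hU (fun p hp p' hp' hd => by
      obtain ⟨g, hg, e⟩ := A2c_fam ρ i u p
      obtain ⟨g', hg', e'⟩ := A2c_fam ρ i u p'
      have k1 := (A2c_mem.1 hp).1.1
      have k2 := (A2c_mem.1 hp').1.1
      have k3 : p.1 ≠ p'.1 := fun h => Finset.disjoint_left.1 hd
        (show p.1 ∈ A2c_s p by simp [A2c_s]) (by simp [A2c_s, h])
      have k4 := A2c_swap ρ k1 hu g' (H_mono (fun x hx => Finset.mem_erase.2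
        ⟨fun e => Finset.disjoint_right.1 hd hx (by simp [A2c_s, e]), hs p' hp' hx⟩) hg')
      rw [← A2c_fix ρ hu hp' (hs p hp) hd hg, e, LinearIsometryEquiv.inner_map_map, e', ← k4,
        LinearIsometryEquiv.inner_map_map]
      exact inner_swap_eq ρ X hi hj k1 k2 hij k3 hu hu) hT (fun a _ => A2c_card1 X a)
    fun a _ b _ hab => A2c_card2 X hab
  have hξ : (Fix ρ X).starProjection (∑ p ∈ trip X, fam ρ i u p) = 0 := by
    rw [Submodule.starProjection_apply_eq_zero_iff, Submodule.mem_orthogonal']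
    intro v hv
    rw [sum_inner]
    refine Finset.sum_eq_zero fun p hp => ?_
    obtain ⟨g, hg, e⟩ := A2c_fam ρ i u p
    rw [e, ← hv g (H_mono (hs p hp) hg), LinearIsometryEquiv.inner_map_map,
      ← hv _ (swap_mem_H hi (A2c_mem.1 hp).1.1), LinearIsometryEquiv.inner_map_map, hperp v hv]
  have av := averaging ρ X (by omega) (∑ p ∈ trip X, fam ρ i u p)
    (Submodule.sum_mem _ fun p hp => Submodule.subset_span (by
      obtain ⟨t, ht, ht'⟩ := Finset.exists_mem_notMem_of_card_lt_card (s := A2c_s p) (t := X)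
        (Finset.card_le_three.trans_lt (by omega))
      exact ⟨t, ht, A2c_fix ρ hu hp (Y := {t}) (by simpa using ht) (by simpa using ht')
        (inv_mem_H (Finset.mem_singleton_self t))⟩))
    (2 * (2 * (150 * (X.card : ℝ) ^ 2 / Real.sqrt (Real.sqrt X.card) * ‖u‖) + 12 * X.card * ‖u‖))
    fun a ha => by
      obtain ⟨k1, k2, k3⟩ := mem_gens.1 ha
      have e1 : ∑ p ∈ (trip X).filter (fun p => a.1 ∈ A2c_s p ∨ a.2.1 ∈ A2c_s p), fam ρ i u p =
          ∑ p ∈ (trip X).filter (fun p => a.1 ∈ A2c_s p), fam ρ i u p +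
          ∑ p ∈ (trip X).filter (fun p => a.2.1 ∈ A2c_s p), fam ρ i u p -
          ∑ p ∈ (trip X).filter (fun p => a.1 ∈ A2c_s p ∧ a.2.1 ∈ A2c_s p), fam ρ i u p := by
        simp only [Finset.sum_filter, ← Finset.sum_add_distrib, ← Finset.sum_sub_distrib]
        refine Finset.sum_congr rfl fun p _ => ?_
        by_cases c1 : a.1 ∈ A2c_s p <;> by_cases c2 : a.2.1 ∈ A2c_s p <;> simp [c1, c2]
      have e2 : ‖∑ p ∈ (trip X).filter (fun p => a.1 ∈ A2c_s p ∧ a.2.1 ∈ A2c_s p),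
          fam ρ i u p‖ ≤ 12 * X.card * ‖u‖ := by
        refine (norm_sum_le _ _).trans ?_
        simp only [hU, Finset.sum_const, nsmul_eq_mul]
        exact mul_le_mul_of_nonneg_right (A2c_card2 X k3) (norm_nonneg _)
      have e3 := (norm_sub_le _ _).trans (add_le_add
        ((norm_add_le _ _).trans (add_le_add (hT _ k1) (hT _ k2))) e2)
      rw [← e1] at e3
      rw [← Finset.sum_filter_add_sum_filter_not (trip X)
        (fun p => a.1 ∈ A2c_s p ∨ a.2.1 ∈ A2c_s p), map_add, map_sum _ _ (Finset.filter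
          (fun p => ¬(a.1 ∈ A2c_s p ∨ a.2.1 ∈ A2c_s p)) _), Finset.sum_congr rfl fun p hp =>
        A2c_fix ρ hu (Finset.mem_filter.1 hp).1 (Y := {a.1, a.2.1})
          (by simp [Finset.insert_subset_iff, k1, k2]) (by simpa using (Finset.mem_filter.1 hp).2)
          (h := tvi a) (tv_mem_H (by simp) (by simp) _ _), add_sub_add_right_eq_sub]
      refine (norm_sub_le _ _).trans ?_
      rw [LinearIsometryEquiv.norm_map]
      linarith
  rw [hξ, sub_zero] at av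
  have f1 : (X.card : ℝ) ^ 6 / 2 ≤
      ((trip X).card : ℝ) ^ 2 - X.card * (3 * (X.card : ℝ) ^ 2) ^ 2 :=
    A2c_num hn (A2c_card3 X)
  obtain ⟨q, hq⟩ : ∃ q, q = Real.sqrt (Real.sqrt X.card) := ⟨_, rfl⟩
  have q2 : Real.sqrt X.card = q ^ 2 := by rw [hq, Real.sq_sqrt (Real.sqrt_nonneg _)]
  have q4 : (X.card : ℝ) = q ^ 4 := by
    rw [show q ^ 4 = (q ^ 2) ^ 2 by ring, ← q2, Real.sq_sqrt (Nat.cast_nonneg _)]
  have q0 : 4 ≤ q := by
    rw [hq]
    exact Real.le_sqrt_of_sq_le (Real.le_sqrt_of_sq_le (by linarith))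
  have f5 := (mul_le_mul_of_nonneg_left f1 (abs_nonneg _)).trans main
  rw [← hq] at av f5
  rw [q2, q4]
  rw [q4] at av f5
  have qp : 0 < q := by linarith
  have f6 : 150 * (q ^ 4) ^ 2 / q = 150 * q ^ 7 := by field_simp
  rw [f6] at av f5
  clear hq q2 q4
  have f7 : 24 * q ^ 4 ≤ q ^ 7 := by
    have := mul_le_mul_of_nonneg_left (pow_le_pow_left₀ (by norm_num) q0 3) (pow_pos qp 4).le
    have := pow_pos qp 4
    linarith
  have f8 : (2 * (2 * (150 * q ^ 7 * ‖u‖) + 12 * q ^ 4 * ‖u‖)) ^ 2 ≤ (601 * q ^ 7 * ‖u‖) ^ 2 :=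
    pow_le_pow_left₀ (by positivity)
      (by linarith [mul_le_mul_of_nonneg_right f7 (norm_nonneg u)]) 2
  have f9 := mul_le_mul_of_nonneg_left f8 (show 0 ≤ 80 * q ^ 4 by positivity)
  have f10 := mul_le_mul_of_nonneg_left (pow_le_pow_left₀ (by norm_num) q0 2)
    (show 0 ≤ q ^ 16 * ‖u‖ ^ 2 by positivity)
  have f11 : 0 ≤ q ^ 18 * ‖u‖ ^ 2 := by positivity
  rw [div_mul_eq_mul_div, le_div_iff₀ (by positivity)]
  refine le_of_mul_le_mul_right ?_ (pow_pos qp 18)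
  linarith

end Pool.Agent.P.MP_2d26dd_al
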