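import Pool.Agent.P.MP_2d26dd_al.A2c

/-! The angle between overlapping blocks. -/

namespace Pool.Agent.P.MP_2d26dd_al

open scoped InnerProductSpace

variable {ι : Type} [DecidableEq ι] {V : Type} [NormedAddCommGroup V] [InnerProductSpace ℝ V]
  [FiniteDimensional ℝ V] (ρ : AutF ι →* (V ≃ₗᵢ[ℝ] V))

omit [DecidableEq ι] [FiniteDimensional ℝ V] in
private theorem Fix_anti {S T : Finset ι} (h : S ⊆ T) {v : V} (hv : v ∈ Fix ρ T) : v ∈ Fix ρ S :=
  fun g hg => hv g (H_mono h hg)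

omit [FiniteDimensional ℝ V] in
private theorem orth_step {a b v : V} {c n : ℝ} (hc : 0 ≤ c) (hn : 0 ≤ n) (hab : ⟪a, b⟫_ℝ = 0)
    (ha : |⟪a, v⟫_ℝ| ≤ c * Real.sqrt n * ‖a‖) (hb : |⟪b, v⟫_ℝ| ≤ c * ‖b‖) :
    |⟪a + b, v⟫_ℝ| ≤ c * Real.sqrt (n + 1) * ‖a + b‖ := by
  have h1 : ‖a + b‖ ^ 2 = ‖a‖ ^ 2 + ‖b‖ ^ 2 := by rw [norm_add_sq_real, hab]; ring
  have h2 : Real.sqrt n * ‖a‖ + ‖b‖ ≤ Real.sqrt (n + 1) * ‖a + b‖ := by
    refine (sq_le_sq₀ (by positivity) (by positivity)).1 ?_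
    rw [mul_pow, h1, Real.sq_sqrt (by positivity)]
    have h3 := Real.sq_sqrt hn
    nlinarith [sq_nonneg (‖a‖ - Real.sqrt n * ‖b‖)]
  have h4 := mul_le_mul_of_nonneg_left h2 hc
  have h5 := abs_add_le ⟪a, v⟫_ℝ ⟪b, v⟫_ℝ
  rw [inner_add_left]
  nlinarith

private theorem chain (S J : Finset ι) {w v : V} {c : ℝ} (hc : 0 ≤ c) (hw : w ∈ Fix ρ S)
    (h : ∀ J0 ⊆ J, ∀ l ∈ J, ∀ y ∈ Fix ρ (S ∪ J0),
      (∀ z ∈ Fix ρ (S ∪ insert l J0), ⟪y, z⟫_ℝ = 0) → |⟪y, v⟫_ℝ| ≤ c * ‖y‖) :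
    |⟪w - (Fix ρ (S ∪ J)).starProjection w, v⟫_ℝ| ≤
      c * Real.sqrt J.card * ‖w - (Fix ρ (S ∪ J)).starProjection w‖ := by
  induction J using Finset.induction_on with
  | empty =>
    rw [Finset.union_empty, Submodule.starProjection_eq_self_iff.2 hw]
    simp
  | insert l J hl ih =>
    have ih' := ih fun J0 h0 l' hl' =>
      h J0 (h0.trans (Finset.subset_insert _ _)) l' (Finset.mem_insert_of_mem hl')
    have hsub : S ∪ J ⊆ S ∪ insert l J :=
      Finset.union_subset_union_right (Finset.subset_insert _ _)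
    have m1 : (Fix ρ (S ∪ J)).starProjection w - (Fix ρ (S ∪ insert l J)).starProjection w ∈
        Fix ρ (S ∪ J) := sub_mem (Submodule.starProjection_apply_mem _ w)
      (Fix_anti ρ hsub (Submodule.starProjection_apply_mem _ w))
    have m2 := h J (Finset.subset_insert _ _) l (Finset.mem_insert_self _ _) _ m1 fun z hz => by
      have e1 := (Fix ρ (S ∪ J)).starProjection_inner_eq_zero w z (Fix_anti ρ hsub hz)
      have e2 := (Fix ρ (S ∪ insert l J)).starProjection_inner_eq_zero w z hz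
      rw [inner_sub_left] at e1 e2 ⊢
      linarith
    have := orth_step hc (Nat.cast_nonneg J.card)
      ((Fix ρ (S ∪ J)).starProjection_inner_eq_zero w _ m1) ih' m2
    rw [sub_add_sub_cancel] at this
    rwa [Finset.card_insert_of_notMem hl, Nat.cast_succ]

private theorem one_letter {r : ℕ} (hr : 304 ≤ r) (I J : Finset ι) (hI : r ≤ I.card) {a : ι}
    (ha : a ∉ J) {u w : V} (hu : u ∈ Fix ρ (I ∪ J)) (hw : w ∈ Fix ρ (insert a I))
    (hp : ∀ z ∈ Fix ρ (insert a I ∪ J), ⟪u, z⟫_ℝ = 0) :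
    |⟪u, w⟫_ℝ| ≤ 10 ^ 8 / (r * Real.sqrt r) * Real.sqrt J.card * ‖w‖ * ‖u‖ := by
  have hr0 : (0 : ℝ) < r := by exact_mod_cast (show 0 < r by omega)
  have hε : (0 : ℝ) ≤ 10 ^ 8 / (r * Real.sqrt r) := by positivity
  have key := chain ρ (insert a I) J (v := u) (c := 10 ^ 8 / (r * Real.sqrt r) * ‖u‖)
    (by positivity) hw fun J0 h0 l hl y hy hy' => by
      have hc : r ≤ (insert a I ∪ insert l J0).card := hI.trans (Finset.card_le_card
        ((Finset.subset_insert _ _).trans Finset.subset_union_left))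
      have e := cos2 ρ (insert a I ∪ insert l J0) (hr.trans hc) (i := l) (j := a) (by simp)
        (by simp) (fun h => ha (h ▸ hl)) (u := y) (w := u) (Fix_anti ρ (fun x hx => by
          simp only [Finset.mem_erase, Finset.mem_union, Finset.mem_insert] at hx ⊢
          tauto) hy) (Fix_anti ρ (fun x hx => by
          simp only [Finset.mem_erase, Finset.mem_union, Finset.mem_insert] at hx ⊢
          rcases hx with ⟨h1, (h2 | h2) | h2 | h2⟩
          · exact absurd h2 h1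
          · exact Or.inl h2
          · exact Or.inr (h2 ▸ hl)
          · exact Or.inr (h0 h2)) hu) hy'
      have hc' : (r : ℝ) ≤ (insert a I ∪ insert l J0).card := by exact_mod_cast hc
      have e2 : (10 : ℝ) ^ 8 / ((insert a I ∪ insert l J0).card *
          Real.sqrt (insert a I ∪ insert l J0).card) ≤ 10 ^ 8 / (r * Real.sqrt r) := by
        gcongr
      have e3 := mul_le_mul_of_nonneg_right e2 (show 0 ≤ ‖y‖ * ‖u‖ by positivity)
      nlinarith
  have e1 := hp _ (Submodule.starProjection_apply_mem (Fix ρ (insert a I ∪ J)) w)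
  have e2 : ‖w - (Fix ρ (insert a I ∪ J)).starProjection w‖ ≤ ‖w‖ := by
    rw [← Submodule.starProjection_orthogonal_val]
    exact Submodule.norm_starProjection_apply_le _ _
  rw [real_inner_comm, inner_sub_right, e1, sub_zero] at key
  have e3 := mul_le_mul_of_nonneg_left e2
    (show 0 ≤ 10 ^ 8 / (r * Real.sqrt r) * ‖u‖ * Real.sqrt J.card by positivity)
  nlinarith

theorem angle (B B' : Finset ι) (h1 : 10 ^ 18 ≤ (B ∩ B').card)
    (h2 : (B \ B').card ≤ 2 * (B ∩ B').card) (h3 : (B' \ B).card ≤ 2 * (B ∩ B').card)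
    {u w : V} (hu : u ∈ Fix ρ B) (hw : w ∈ Fix ρ B')
    (hperp : ∀ v ∈ Fix ρ (B ∪ B'), ⟪u, v⟫_ℝ = 0) : |⟪u, w⟫_ℝ| ≤ 1 / 4 * (‖u‖ * ‖w‖) := by
  have hr : 304 ≤ (B ∩ B').card := le_trans (by norm_num) h1
  have hr0 : (10 : ℝ) ^ 18 ≤ (B ∩ B').card := by exact_mod_cast h1
  have key := chain ρ B (B' \ B) (v := w) (c := 10 ^ 8 / ((B ∩ B').card * Real.sqrt (B ∩ B').card) *
    Real.sqrt (B \ B').card * ‖w‖) (by positivity) hu fun J0 h0 l hl y hy hy' => by
      have hl' := Finset.mem_sdiff.1 hl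
      refine one_letter ρ hr (B ∩ B' ∪ J0) (B \ B')
        (Finset.card_le_card Finset.subset_union_left) (a := l)
        (fun h => hl'.2 (Finset.mem_sdiff.1 h).1) (Fix_anti ρ (fun x hx => ?_) hy)
        (Fix_anti ρ (fun x hx => ?_) hw) fun z hz => hy' z (Fix_anti ρ (fun x hx => ?_) hz)
      · simp only [Finset.mem_union, Finset.mem_inter, Finset.mem_sdiff] at hx ⊢
        tauto
      · simp only [Finset.mem_union, Finset.mem_inter, Finset.mem_insert] at hx
        rcases hx with rfl | h | h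
        · exact hl'.1
        · exact h.2
        · exact (Finset.mem_sdiff.1 (h0 h)).1
      · simp only [Finset.mem_union, Finset.mem_inter, Finset.mem_sdiff, Finset.mem_insert]
          at hx ⊢
        tauto
  have e0 : (Fix ρ (B ∪ B' \ B)).starProjection u = 0 := by
    rw [Finset.union_sdiff_self_eq_union, Submodule.starProjection_apply_eq_zero_iff,
      Submodule.mem_orthogonal']
    exact hperp
  rw [e0, sub_zero] at key
  refine key.trans ?_
  obtain ⟨r, hr'⟩ : ∃ r : ℝ, r = (B ∩ B').card := ⟨_, rfl⟩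
  rw [← hr'] at hr0 ⊢
  have rpos : 0 < r := lt_of_lt_of_le (by norm_num) hr0
  have s1 : Real.sqrt (B \ B').card ≤ Real.sqrt (2 * r) :=
    Real.sqrt_le_sqrt (by rw [hr']; exact_mod_cast h2)
  have s2 : Real.sqrt (B' \ B).card ≤ Real.sqrt (2 * r) :=
    Real.sqrt_le_sqrt (by rw [hr']; exact_mod_cast h3)
  have s3 : Real.sqrt (B \ B').card * Real.sqrt (B' \ B).card ≤ 2 * r := by
    rw [← Real.mul_self_sqrt (show 0 ≤ 2 * r by positivity)]
    gcongr
  have s4 : (10 : ℝ) ^ 9 ≤ Real.sqrt r := Real.le_sqrt_of_sq_le (by linarith)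
  have s5 : 10 ^ 8 / (r * Real.sqrt r) * (2 * r) ≤ 1 / 4 := by
    rw [div_mul_eq_mul_div, div_le_iff₀ (by positivity)]
    nlinarith
  have s6 := (mul_le_mul_of_nonneg_left s3
    (show 0 ≤ 10 ^ 8 / (r * Real.sqrt r) by positivity)).trans s5
  have s7 := mul_le_mul_of_nonneg_right s6 (show 0 ≤ ‖u‖ * ‖w‖ by positivity)
  nlinarith

end Pool.Agent.P.MP_2d26dd_al
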