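import Pool.Agent.P.MP_2d26dd_al.Defs

/-! Elementary facts about moves and blocks. -/

namespace Pool.Agent.P.MP_2d26dd_al

open FreeGroup

variable {ι : Type} [DecidableEq ι]

omit [DecidableEq ι] in
theorem autF_ext {φ ψ : AutF ι} (h : ∀ i, φ (of i) = ψ (of i)) : φ = ψ := by
  have : φ.toMonoidHom = ψ.toMonoidHom := by ext i; exact h i
  ext x
  exact DFunLike.congr_fun this x

theorem rep_self (t : ι) (u w : FreeGroup ι) :
    rep t u w (of t) = kill t u * of t * kill t w := by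
  simp [rep]

theorem rep_ne {t i : ι} (h : i ≠ t) (u w : FreeGroup ι) : rep t u w (of i) = of i := by
  simp [rep, setL_ne h]

omit [DecidableEq ι] in
theorem of_mem_sub {X : Finset ι} {i : ι} (h : i ∈ X) : (of i : FreeGroup ι) ∈ sub X :=
  Subgroup.subset_closure ⟨i, h, rfl⟩

omit [DecidableEq ι] in
theorem sub_mono {X Y : Finset ι} (h : X ⊆ Y) : sub X ≤ sub Y :=
  Subgroup.closure_mono (Set.image_mono h)

omit [DecidableEq ι] in
theorem hom_eq_on_sub {G : Type} [Group G] {X : Finset ι} {f g : FreeGroup ι →* G}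
    (h : ∀ i ∈ X, f (of i) = g (of i)) {w : FreeGroup ι} (hw : w ∈ sub X) : f w = g w := by
  refine MonoidHom.eqOn_closure (s := of '' (X : Set ι)) ?_ hw
  rintro _ ⟨i, hi, rfl⟩
  exact h i hi

omit [DecidableEq ι] in
theorem fix_of_mem_sub {X : Finset ι} {φ : AutF ι} (h : ∀ i ∈ X, φ (of i) = of i)
    {w : FreeGroup ι} (hw : w ∈ sub X) : φ w = w :=
  hom_eq_on_sub (f := φ.toMonoidHom) (g := MonoidHom.id _) h hw

theorem kill_of_mem {B : Finset ι} {t : ι} (ht : t ∉ B) {w : FreeGroup ι} (hw : w ∈ sub B) :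
    kill t w = w :=
  hom_eq_on_sub (f := kill t) (g := MonoidHom.id _) (fun i hi => by
    have : i ≠ t := fun h => ht (h ▸ hi)
    simp [kill, this]) hw

theorem kill_ne {t j : ι} (h : j ≠ t) : kill t (of j) = of j := by simp [kill, h]

theorem kill_self (t : ι) : kill t (of t) = 1 := by simp [kill]

omit [DecidableEq ι] in
theorem lt_true (j : ι) : lt j true = of j := rfl

omit [DecidableEq ι] in
theorem lt_false (j : ι) : lt j false = (of j)⁻¹ := rfl

omit [DecidableEq ι] in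
theorem lt_not (j : ι) (s : Bool) : lt j (!s) = (lt j s)⁻¹ := by
  cases s <;> simp [lt_true, lt_false]

omit [DecidableEq ι] in
theorem lt_mem_sub {X : Finset ι} {j : ι} (h : j ∈ X) (s : Bool) : lt j s ∈ sub X := by
  cases s
  · exact (sub X).inv_mem (of_mem_sub h)
  · exact of_mem_sub h

theorem kill_lt {t j : ι} (h : j ≠ t) (s : Bool) : kill t (lt j s) = lt j s := by
  cases s <;> simp [lt_true, lt_false, kill_ne h]

theorem inv_self (t : ι) : inv t (of t) = (of t)⁻¹ := by simp [inv]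

theorem inv_ne {t i : ι} (h : i ≠ t) : inv t (of i) = of i := by simp [inv, setL_ne h]

theorem inv_mul_inv (t : ι) : inv t * inv t = 1 := by
  refine autF_ext fun i => ?_
  by_cases h : i = t
  · subst h; simp [inv_self]
  · simp [inv_ne h]

theorem inv_inv' (t : ι) : (inv t)⁻¹ = inv t := inv_eq_of_mul_eq_one_right (inv_mul_inv t)

omit [DecidableEq ι] in
theorem perm_of (σ : Equiv.Perm ι) (i : ι) : perm σ (of i) = of (σ i) := by simp [perm]

omit [DecidableEq ι] in
theorem perm_mul (σ τ : Equiv.Perm ι) : perm (σ * τ) = perm σ * perm τ :=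
  autF_ext fun i => by simp [perm_of]

omit [DecidableEq ι] in
theorem perm_one : perm (1 : Equiv.Perm ι) = 1 := autF_ext fun i => by simp [perm_of]

omit [DecidableEq ι] in
theorem perm_inv (σ : Equiv.Perm ι) : perm σ⁻¹ = (perm σ)⁻¹ :=
  eq_inv_of_mul_eq_one_left (by rw [← perm_mul, inv_mul_cancel, perm_one])

omit [DecidableEq ι] in
theorem perm_lt (σ : Equiv.Perm ι) (j : ι) (s : Bool) : perm σ (lt j s) = lt (σ j) s := by
  cases s <;> simp [lt_true, lt_false, perm_of]

theorem tv_right {i j : ι} (h : i ≠ j) (s : Bool) : tv i j true s (of i) = of i * lt j s := by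
  simp [tv, rep_self, kill_lt h.symm]

theorem tv_left {i j : ι} (h : i ≠ j) (s : Bool) : tv i j false s (of i) = lt j s * of i := by
  simp [tv, rep_self, kill_lt h.symm]

theorem tv_ne {i k : ι} (h : k ≠ i) (j : ι) (d s : Bool) : tv i j d s (of k) = of k := by
  cases d <;> simp [tv, rep_ne h]

theorem tv_lt_ne {i k : ι} (h : k ≠ i) (j : ι) (d s s' : Bool) :
    tv i j d s (lt k s') = lt k s' := by
  cases s' <;> simp [lt_true, lt_false, tv_ne h]

theorem tv_same (i : ι) (d s : Bool) : tv i i d s = 1 := by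
  refine autF_ext fun k => ?_
  by_cases h : k = i
  · subst h
    cases d <;> cases s <;> simp [tv, rep_self, lt_true, lt_false, kill_self]
  · simp [tv_ne h]

theorem tv_inv (i j : ι) (d s : Bool) : (tv i j d s)⁻¹ = tv i j d (!s) := by
  by_cases hij : i = j
  · subst hij; simp [tv_same]
  refine inv_eq_of_mul_eq_one_right (autF_ext fun k => ?_)
  by_cases h : k = i
  · subst h
    have := tv_lt_ne (Ne.symm hij) j
    cases d <;> simp [tv_right hij, tv_left hij, lt_not, this]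
  · simp [tv_ne h]

omit [DecidableEq ι] in
theorem mem_H_of {X : Finset ι} {φ : AutF ι} (h1 : ∀ i, i ∉ X → φ (of i) = of i)
    (h2 : ∀ i ∈ X, φ (of i) ∈ sub X) (h3 : ∀ i ∈ X, φ⁻¹ (of i) ∈ sub X) : φ ∈ H X := by
  refine ⟨h1, le_antisymm ?_ ?_⟩
  · rw [Subgroup.map_le_iff_le_comap, sub, Subgroup.closure_le]
    rintro _ ⟨i, hi, rfl⟩
    exact h2 i hi
  · rw [sub, Subgroup.closure_le]
    rintro _ ⟨i, hi, rfl⟩
    exact ⟨φ⁻¹ (of i), h3 i hi, by simp⟩

omit [DecidableEq ι] in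
theorem H_fix {X : Finset ι} {φ : AutF ι} (h : φ ∈ H X) {i : ι} (hi : i ∉ X) :
    φ (of i) = of i := h.1 i hi

omit [DecidableEq ι] in
theorem H_map {X : Finset ι} {φ : AutF ι} (h : φ ∈ H X) {w : FreeGroup ι} (hw : w ∈ sub X) :
    φ w ∈ sub X := by
  rw [← h.2]
  exact ⟨w, hw, rfl⟩

theorem kill_mem_sub {X : Finset ι} (t : ι) {w : FreeGroup ι} (hw : w ∈ sub X) :
    kill t w ∈ sub X := by
  have : sub X ≤ (sub X).comap (kill t) := by
    rw [sub, Subgroup.closure_le]
    rintro _ ⟨i, hi, rfl⟩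
    by_cases h : i = t
    · subst h; simp [kill_self]
    · show kill t (of i) ∈ sub X
      rw [kill_ne h]; exact of_mem_sub hi
  exact this hw

theorem kill_kill (t : ι) (w : FreeGroup ι) : kill t (kill t w) = kill t w := by
  have : (kill t).comp (kill t) = kill t := by
    ext i
    by_cases h : i = t
    · subst h; simp [kill_self]
    · simp [kill_ne h]
  exact DFunLike.congr_fun this w

theorem rep_kill (t : ι) (u w v : FreeGroup ι) : rep t u w (kill t v) = kill t v := by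
  simp [rep]

theorem rep_mul (t : ι) (u w u' w' : FreeGroup ι) :
    rep t u w * rep t u' w' = rep t (u' * u) (w * w') := by
  refine autF_ext fun i => ?_
  by_cases h : i = t
  · subst h; simp [rep_self, rep_kill, mul_assoc]
  · simp [rep_ne h]

theorem rep_one (t : ι) : rep t 1 1 = 1 := by
  refine autF_ext fun i => ?_
  by_cases h : i = t
  · subst h; simp [rep_self]
  · simp [rep_ne h]

theorem rep_inv (t : ι) (u w : FreeGroup ι) : (rep t u w)⁻¹ = rep t u⁻¹ w⁻¹ :=
  inv_eq_of_mul_eq_one_right (by rw [rep_mul]; simp [rep_one])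

theorem rep_mem_H {X : Finset ι} {t : ι} (ht : t ∈ X) {u w : FreeGroup ι} (hu : u ∈ sub X)
    (hw : w ∈ sub X) : rep t u w ∈ H X := by
  have key : ∀ {u w : FreeGroup ι}, u ∈ sub X → w ∈ sub X → ∀ i ∈ X, rep t u w (of i) ∈ sub X := by
    intro u w hu hw i hi
    by_cases h : i = t
    · subst h
      rw [rep_self]
      exact (sub X).mul_mem ((sub X).mul_mem (kill_mem_sub _ hu) (of_mem_sub hi))
        (kill_mem_sub _ hw)
    · rw [rep_ne h]; exact of_mem_sub hi
  refine mem_H_of (fun i hi => rep_ne (fun h : i = t => hi (h ▸ ht)) _ _) (key hu hw) ?_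
  rw [rep_inv]
  exact key ((sub X).inv_mem hu) ((sub X).inv_mem hw)

theorem tv_mem_H {X : Finset ι} {i j : ι} (hi : i ∈ X) (hj : j ∈ X) (d s : Bool) :
    tv i j d s ∈ H X := by
  cases d
  · exact rep_mem_H hi (lt_mem_sub hj s) (sub X).one_mem
  · exact rep_mem_H hi (sub X).one_mem (lt_mem_sub hj s)

theorem mem_gens {X : Finset ι} {a : TI ι} : a ∈ gens X ↔ a.1 ∈ X ∧ a.2.1 ∈ X ∧ a.1 ≠ a.2.1 := by
  simp [gens, and_assoc]

theorem tvi_mem_H {X : Finset ι} {a : TI ι} (ha : a ∈ gens X) : tvi a ∈ H X :=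
  tv_mem_H (mem_gens.1 ha).1 (mem_gens.1 ha).2.1 _ _

theorem inv_mem_H {X : Finset ι} {t : ι} (ht : t ∈ X) : inv t ∈ H X := by
  have key : ∀ i ∈ X, inv t (of i) ∈ sub X := by
    intro i hi
    by_cases h : i = t
    · subst h; rw [inv_self]; exact (sub X).inv_mem (of_mem_sub hi)
    · rw [inv_ne h]; exact of_mem_sub hi
  exact mem_H_of (fun i hi => inv_ne fun h => hi (h ▸ ht)) key (by rw [inv_inv']; exact key)

omit [DecidableEq ι] in
theorem perm_mem_H {X : Finset ι} {σ : Equiv.Perm ι} (h : ∀ i, i ∉ X → σ i = i) :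
    perm σ ∈ H X := by
  have key : ∀ {σ : Equiv.Perm ι}, (∀ i, i ∉ X → σ i = i) → ∀ i ∈ X, perm σ (of i) ∈ sub X := by
    intro σ h i hi
    rw [perm_of]
    refine of_mem_sub ?_
    by_contra hc
    exact hc (by rw [σ.injective (h _ hc)]; exact hi)
  refine mem_H_of (fun i hi => by rw [perm_of, h i hi]) (key h) ?_
  rw [← perm_inv]
  exact key fun i hi => by rw [Equiv.Perm.inv_eq_iff_eq, h i hi]

theorem swap_mem_H {X : Finset ι} {i j : ι} (hi : i ∈ X) (hj : j ∈ X) :
    perm (Equiv.swap i j) ∈ H X :=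
  perm_mem_H fun k hk => Equiv.swap_apply_of_ne_of_ne (fun h => hk (h ▸ hi)) fun h => hk (h ▸ hj)

omit [DecidableEq ι] in
theorem H_mono {X Y : Finset ι} (h : X ⊆ Y) : H X ≤ H Y := by
  have key : ∀ {φ : AutF ι}, φ ∈ H X → ∀ i ∈ Y, φ (of i) ∈ sub Y := by
    intro φ hφ i hi
    by_cases hx : i ∈ X
    · exact sub_mono h (H_map hφ (of_mem_sub hx))
    · rw [H_fix hφ hx]; exact of_mem_sub hi
  intro φ hφ
  exact mem_H_of (fun i hi => H_fix hφ fun hx => hi (h hx)) (key hφ) (key ((H X).inv_mem hφ))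

omit [DecidableEq ι] in
theorem sub_univ [Fintype ι] : sub (Finset.univ : Finset ι) = ⊤ := by
  simp [sub]

omit [DecidableEq ι] in
theorem H_univ [Fintype ι] : H (Finset.univ : Finset ι) = ⊤ := by
  rw [eq_top_iff]
  intro φ _
  exact mem_H_of (fun i hi => absurd (Finset.mem_univ i) hi) (fun _ _ => by simp [sub_univ])
    fun _ _ => by simp [sub_univ]

omit [DecidableEq ι] in
theorem H_fix_sub {X Y : Finset ι} (h : Disjoint X Y) {φ : AutF ι} (hφ : φ ∈ H X)
    {w : FreeGroup ι} (hw : w ∈ sub Y) : φ w = w :=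
  fix_of_mem_sub (fun _ hi => H_fix hφ fun hx => Finset.disjoint_left.1 h hx hi) hw

omit [DecidableEq ι] in
theorem H_commute {X Y : Finset ι} (h : Disjoint X Y) {φ ψ : AutF ι} (hφ : φ ∈ H X)
    (hψ : ψ ∈ H Y) : Commute φ ψ := by
  refine autF_ext fun i => ?_
  simp only [MulAut.mul_apply]
  by_cases hx : i ∈ X
  · rw [H_fix hψ (Finset.disjoint_left.1 h hx), H_fix_sub h.symm hψ (H_map hφ (of_mem_sub hx))]
  · rw [H_fix hφ hx]
    by_cases hy : i ∈ Y
    · exact H_fix_sub h hφ (H_map hψ (of_mem_sub hy))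
    · rw [H_fix hψ hy, H_fix hφ hx]

theorem perm_mem_sub (σ : Equiv.Perm ι) {X : Finset ι} {w : FreeGroup ι} (hw : w ∈ sub X) :
    perm σ w ∈ sub (X.image σ) := by
  have : sub X ≤ (sub (X.image σ)).comap (perm σ).toMonoidHom := by
    rw [sub, Subgroup.closure_le]
    rintro _ ⟨i, hi, rfl⟩
    show perm σ (of i) ∈ sub (X.image σ)
    rw [perm_of]
    exact of_mem_sub (Finset.mem_image_of_mem _ hi)
  exact this hw

theorem perm_conj_H (σ : Equiv.Perm ι) {X : Finset ι} {φ : AutF ι} (hφ : φ ∈ H X) :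
    perm σ * φ * (perm σ)⁻¹ ∈ H (X.image σ) := by
  have key : ∀ {φ : AutF ι}, φ ∈ H X → ∀ i ∈ X.image σ,
      (perm σ * φ * (perm σ)⁻¹) (of i) ∈ sub (X.image σ) := by
    intro φ hφ i hi
    obtain ⟨k, hk, rfl⟩ := Finset.mem_image.1 hi
    rw [← perm_inv]
    simp only [MulAut.mul_apply, perm_of, Equiv.Perm.inv_def, Equiv.symm_apply_apply]
    exact perm_mem_sub σ (H_map hφ (of_mem_sub hk))
  refine mem_H_of (fun i hi => ?_) (key hφ) ?_
  · have : σ⁻¹ i ∉ X := fun h => hi (Finset.mem_image.2 ⟨_, h, by simp⟩)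
    rw [← perm_inv]
    simp only [MulAut.mul_apply, perm_of, H_fix hφ this]
    simp
  · have : (perm σ * φ * (perm σ)⁻¹)⁻¹ = perm σ * φ⁻¹ * (perm σ)⁻¹ := by group
    rw [this]
    exact key ((H X).inv_mem hφ)

theorem perm_conj_tv (σ : Equiv.Perm ι) (i j : ι) (d s : Bool) :
    perm σ * tv i j d s * (perm σ)⁻¹ = tv (σ i) (σ j) d s := by
  by_cases hij : i = j
  · subst hij; simp [tv_same]
  rw [mul_inv_eq_iff_eq_mul]
  refine autF_ext fun k => ?_
  have h' : σ i ≠ σ j := fun h => hij (σ.injective h)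
  by_cases h : k = i
  · subst h
    cases d <;> simp [tv_right hij, tv_left hij, tv_right h', tv_left h', perm_of, perm_lt]
  · have : σ k ≠ σ i := fun h' => h (σ.injective h')
    simp [tv_ne h, tv_ne this, perm_of]

theorem perm_conj_inv (σ : Equiv.Perm ι) (t : ι) :
    perm σ * inv t * (perm σ)⁻¹ = inv (σ t) := by
  rw [mul_inv_eq_iff_eq_mul]
  refine autF_ext fun k => ?_
  by_cases h : k = t
  · subst h; simp [inv_self, perm_of]
  · have : σ k ≠ σ t := fun h' => h (σ.injective h')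
    simp [inv_ne h, inv_ne this, perm_of]

theorem inv_lt_ne {t j : ι} (h : j ≠ t) (s : Bool) : inv t (lt j s) = lt j s := by
  cases s <;> simp [lt_true, lt_false, inv_ne h]

theorem inv_lt_self (t : ι) (s : Bool) : inv t (lt t s) = lt t (!s) := by
  cases s <;> simp [lt_true, lt_false, inv_self]

theorem inv_conj_tv_fst {i j : ι} (h : i ≠ j) (d s : Bool) :
    inv i * tv i j d s * inv i = tv i j (!d) (!s) := by
  refine autF_ext fun k => ?_
  by_cases hk : k = i
  · subst hk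
    cases d <;>
      simp [tv_right h, tv_left h, inv_self, inv_lt_ne h.symm, lt_not]
  · simp [tv_ne hk, inv_ne hk]

theorem inv_conj_tv_snd {i j : ι} (h : i ≠ j) (d s : Bool) :
    inv j * tv i j d s * inv j = tv i j d (!s) := by
  refine autF_ext fun k => ?_
  by_cases hk : k = i
  · subst hk
    cases d <;> simp [tv_right h, tv_left h, inv_ne h, inv_lt_self]
  · by_cases hj : k = j
    · subst hj; simp [tv_ne hk, inv_self]
    · simp [tv_ne hk, inv_ne hj]

theorem inv_conj_tv_other {i j t : ι} (hi : i ≠ t) (hj : j ≠ t) (d s : Bool) :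
    inv t * tv i j d s * inv t = tv i j d s := by
  have : Commute (inv t) (tv i j d s) :=
    H_commute (X := {t}) (Y := {i, j}) (by simp [hi.symm, hj.symm])
      (inv_mem_H (by simp)) (tv_mem_H (by simp) (by simp) d s)
  rw [this.eq, mul_assoc, inv_mul_inv, mul_one]

section Null

variable {Γ : Subgroup (AutF ι)} {G : Type} [Group G] {ρ : Γ →* G}

omit [DecidableEq ι] in
theorem Null.mono {x : AutF ι} {B B' : Finset ι} (h : B ⊆ B') (hn : Null ρ x B') : Null ρ x B :=
  fun φ hφ => hn φ (H_mono h hφ)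

omit [DecidableEq ι] in
theorem null_mul_of_conj {x g : AutF ι} {B B' : Finset ι}
    (h : ∀ φ ∈ H B, g * φ * g⁻¹ ∈ H B') (hn : Null ρ x B') : Null ρ (x * g) B := by
  intro φ hφ hγ
  have e : x * g * φ * (x * g)⁻¹ = x * (g * φ * g⁻¹) * x⁻¹ := by group
  have := hn _ (h φ hφ) (e ▸ hγ)
  rw [← this]
  exact congrArg ρ (Subtype.ext e)

omit [DecidableEq ι] in
theorem null_mul_iff {x g : AutF ι} {B J : Finset ι} (hg : g ∈ H J)
    (hJ : J ⊆ B ∨ Disjoint J B) : Null ρ (x * g) B ↔ Null ρ x B := by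
  have key : ∀ {g : AutF ι}, g ∈ H J → ∀ φ ∈ H B, g * φ * g⁻¹ ∈ H B := by
    intro g hg φ hφ
    rcases hJ with hJ | hJ
    · exact (H B).mul_mem ((H B).mul_mem (H_mono hJ hg) hφ) ((H B).inv_mem (H_mono hJ hg))
    · rw [(H_commute hJ hg hφ).eq, mul_inv_cancel_right]; exact hφ
  refine ⟨fun hn => ?_, null_mul_of_conj (key hg)⟩
  have := null_mul_of_conj (key ((H J).inv_mem hg)) hn
  rwa [mul_inv_cancel_right] at this

theorem null_perm {x : AutF ι} {B : Finset ι} (σ : Equiv.Perm ι)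
    (hn : Null ρ x (B.image σ)) : Null ρ (x * perm σ) B :=
  null_mul_of_conj (fun _ hφ => perm_conj_H σ hφ) hn

omit [DecidableEq ι] in
theorem null_left (γ : Γ) {x : AutF ι} {B : Finset ι} :
    Null ρ ((γ : AutF ι) * x) B ↔ Null ρ x B := by
  have key : ∀ (γ : Γ) {x : AutF ι}, Null ρ x B → Null ρ ((γ : AutF ι) * x) B := by
    intro γ x hn φ hφ hγ
    have h1 : x * φ * x⁻¹ ∈ Γ := by
      have := Γ.mul_mem (Γ.mul_mem (Γ.inv_mem γ.2) hγ) γ.2
      rwa [show (γ : AutF ι)⁻¹ * (γ * x * φ * (γ * x)⁻¹) * γ = x * φ * x⁻¹ by group] at this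
    have e : (⟨γ * x * φ * (γ * x)⁻¹, hγ⟩ : Γ) = γ * ⟨x * φ * x⁻¹, h1⟩ * γ⁻¹ :=
      Subtype.ext (by simp only [Subgroup.coe_mul, Subgroup.coe_inv]; group)
    rw [e, ρ.map_mul, ρ.map_mul, hn φ hφ h1]
    simp
  refine ⟨fun hn => ?_, key γ⟩
  have := key γ⁻¹ hn
  simpa using this

end Null

omit [DecidableEq ι] in
theorem Disj.left {B : Finset ι} {y y' : AutF ι} (h : Disj B y y') (x : AutF ι) :
    Disj B (x * y) (x * y') := by
  obtain ⟨z, π, π', h1, h2, h3, h4, h5⟩ := h
  exact ⟨x * z, π, π', h1, h2, h3, fun e he => by simp [h4 e he], fun e he => by simp [h5 e he]⟩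

end Pool.Agent.P.MP_2d26dd_al
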