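import Pool.Agent.P.MP_2d26dd_al.CDefs

/-! Sums over the quotient. -/

namespace Pool.Agent.P.MP_2d26dd_al

variable {ι : Type} {Γ : Subgroup (AutF ι)} [Γ.Normal] [Γ.FiniteIndex] {X : Type} [MetricSpace X]

theorem c0_sumQ_eq (A : AutF ι → Prop) (φ : AutF ι → ℝ) :
    sumQ Γ A φ = ∑ q ∈ @Finset.univ _ (Fintype.ofFinite (AutF ι ⧸ Γ)),
      @ite _ (A q.out) (Classical.propDecidable _) (φ q.out) 0 := by
  letI : Fintype (AutF ι ⧸ Γ) := Fintype.ofFinite _
  exact finsum_eq_sum_of_fintype _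

omit [Γ.FiniteIndex] in
theorem c0_linv_out {α : Type} {φ : AutF ι → α} (hφ : LInv Γ φ) (x : AutF ι) :
    φ (QuotientGroup.mk x : AutF ι ⧸ Γ).out = φ x := by
  have h1 : ((QuotientGroup.mk x : AutF ι ⧸ Γ).out)⁻¹ * x ∈ Γ :=
    QuotientGroup.eq.mp (QuotientGroup.out_eq' _)
  set r := (QuotientGroup.mk x : AutF ι ⧸ Γ).out
  have h2 : x * r⁻¹ ∈ Γ := by
    have := (inferInstance : Γ.Normal).conj_mem _ h1 r
    have e : r * (r⁻¹ * x) * r⁻¹ = x * r⁻¹ := by group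
    rwa [e] at this
  have h3 := hφ ⟨_, h2⟩ r
  simp only [inv_mul_cancel_right] at h3
  exact h3.symm

theorem sumQ_nonneg {A : AutF ι → Prop} {φ : AutF ι → ℝ} (h : ∀ x, A x → 0 ≤ φ x) :
    0 ≤ sumQ Γ A φ := by
  rw [c0_sumQ_eq]
  exact Finset.sum_nonneg fun q _ => by
    split_ifs with hq
    · exact h _ hq
    · exact le_rfl

theorem sumQ_le {A : AutF ι → Prop} {φ ψ : AutF ι → ℝ} (h : ∀ x, A x → φ x ≤ ψ x) :
    sumQ Γ A φ ≤ sumQ Γ A ψ := by
  rw [c0_sumQ_eq, c0_sumQ_eq]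
  exact Finset.sum_le_sum fun q _ => by
    split_ifs with hq
    · exact h _ hq
    · exact le_rfl

theorem sumQ_mono {A A' : AutF ι → Prop} {φ : AutF ι → ℝ} (hA : ∀ x, A x → A' x)
    (h : ∀ x, 0 ≤ φ x) : sumQ Γ A φ ≤ sumQ Γ A' φ := by
  rw [c0_sumQ_eq, c0_sumQ_eq]
  refine Finset.sum_le_sum fun q _ => ?_
  by_cases hq : A q.out
  · rw [if_pos hq, if_pos (hA _ hq)]
  · rw [if_neg hq]
    split_ifs
    · exact h _
    · exact le_rfl

theorem sumQ_add (A : AutF ι → Prop) (φ ψ : AutF ι → ℝ) :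
    sumQ Γ A (fun x => φ x + ψ x) = sumQ Γ A φ + sumQ Γ A ψ := by
  rw [c0_sumQ_eq, c0_sumQ_eq, c0_sumQ_eq, ← Finset.sum_add_distrib]
  refine Finset.sum_congr rfl fun q _ => ?_
  split_ifs
  · rfl
  · exact (add_zero _).symm

theorem sumQ_mul (A : AutF ι → Prop) (c : ℝ) (φ : AutF ι → ℝ) :
    sumQ Γ A (fun x => c * φ x) = c * sumQ Γ A φ := by
  rw [c0_sumQ_eq, c0_sumQ_eq, Finset.mul_sum]
  refine Finset.sum_congr rfl fun q _ => ?_
  split_ifs
  · rfl
  · exact (mul_zero _).symm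

theorem sumQ_sum {κ : Type} (s : Finset κ) (A : AutF ι → Prop) (φ : κ → AutF ι → ℝ) :
    sumQ Γ A (fun x => ∑ k ∈ s, φ k x) = ∑ k ∈ s, sumQ Γ A (φ k) := by
  simp only [c0_sumQ_eq]
  rw [Finset.sum_comm]
  refine Finset.sum_congr rfl fun q _ => ?_
  split_ifs
  · rfl
  · exact (Finset.sum_const_zero).symm

theorem le_sumQ {A : AutF ι → Prop} {φ : AutF ι → ℝ} (hA : LInv Γ A) (hφ : LInv Γ φ)
    (h : ∀ x, 0 ≤ φ x) {x : AutF ι} (hx : A x) : φ x ≤ sumQ Γ A φ := by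
  rw [c0_sumQ_eq]
  have h1 : A (QuotientGroup.mk x : AutF ι ⧸ Γ).out := by rw [c0_linv_out hA]; exact hx
  have h2 := Finset.single_le_sum (s := @Finset.univ _ (Fintype.ofFinite (AutF ι ⧸ Γ)))
    (f := fun q : AutF ι ⧸ Γ => @ite _ (A q.out) (Classical.propDecidable _) (φ q.out) 0)
    (fun q _ => by
      split_ifs
      · exact h _
      · exact le_rfl) (@Finset.mem_univ _ (Fintype.ofFinite _) (QuotientGroup.mk x))
  rw [if_pos h1, c0_linv_out hφ] at h2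
  exact h2

theorem sumQ_shift {A : AutF ι → Prop} {φ : AutF ι → ℝ} (hA : LInv Γ A) (hφ : LInv Γ φ)
    (h : AutF ι) : sumQ Γ (fun x => A (x * h)) (fun x => φ (x * h)) = sumQ Γ A φ := by
  unfold sumQ
  refine (finsum_congr fun q => ?_).trans
    (finsum_comp_equiv (Equiv.mulRight (QuotientGroup.mk h : AutF ι ⧸ Γ)))
  have e : Equiv.mulRight (QuotientGroup.mk h : AutF ι ⧸ Γ) q =
      QuotientGroup.mk (q.out * h) := by
    rw [QuotientGroup.mk_mul, QuotientGroup.out_eq']; rfl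
  rw [e, c0_linv_out hφ]
  by_cases hq : A (q.out * h)
  · rw [if_pos hq, if_pos (by rw [c0_linv_out hA]; exact hq)]
  · rw [if_neg hq, if_neg (by rw [c0_linv_out hA]; exact hq)]

theorem KB.rep_mem {B : Finset ι} (k : KB Γ B) : k.rep ∈ H B := by
  exact (k.out : H B).2

theorem sumQ_avg {A : AutF ι → Prop} {φ : AutF ι → ℝ} {B : Finset ι} (hA : LInv Γ A)
    (hφ : LInv Γ φ) (hB : RInv A (H B)) :
    sumQ Γ A (fun x => ∑ᶠ k : KB Γ B, φ (x * k.rep)) = Nat.card (KB Γ B) * sumQ Γ A φ := by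
  letI : Fintype (KB Γ B) := Fintype.ofFinite _
  simp only [finsum_eq_sum_of_fintype]
  rw [sumQ_sum]
  have : ∀ k : KB Γ B, sumQ Γ A (fun x => φ (x * k.rep)) = sumQ Γ A φ := by
    intro k
    rw [← sumQ_shift hA hφ k.rep]
    have e : (fun x => A (x * k.rep)) = A := by
      funext x
      refine propext ⟨fun hx => ?_, hB x _ k.rep_mem⟩
      have := hB _ _ ((H B).inv_mem k.rep_mem) hx
      rwa [mul_inv_cancel_right] at this
    rw [e]
  rw [Finset.sum_congr rfl fun k _ => this k, Finset.sum_const, Finset.card_univ,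
    Nat.card_eq_fintype_card, nsmul_eq_mul]

theorem linv_dist {act : Γ →* (X ≃ᵢ X)} {F F' : AutF ι → X} (hF : Equi act F)
    (hF' : Equi act F') : LInv Γ fun x => dist (F x) (F' x) ^ 2 := by
  intro γ x
  simp only
  rw [hF γ x, hF' γ x, IsometryEquiv.dist_eq]

theorem Equi.shift {act : Γ →* (X ≃ᵢ X)} {F : AutF ι → X} (hF : Equi act F) (h : AutF ι) :
    Equi act fun x => F (x * h) := by
  intro γ x
  simp only
  rw [mul_assoc, hF γ]

theorem linv_null {G : Type} [Group G] (ρ : Γ →* G) (B : Finset ι) :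
    LInv Γ fun x => Null ρ x B := by
  have key : ∀ (γ : Γ) (x : AutF ι), Null ρ x B → Null ρ (γ * x) B := by
    intro γ x hx h hh hγ
    have h1 : x * h * x⁻¹ ∈ Γ := by
      have := Γ.mul_mem (Γ.mul_mem (Γ.inv_mem γ.2) hγ) γ.2
      have e : (γ : AutF ι)⁻¹ * (γ * x * h * (γ * x)⁻¹) * γ = x * h * x⁻¹ := by group
      rwa [e] at this
    have e : (⟨γ * x * h * (γ * x)⁻¹, hγ⟩ : Γ) = γ * ⟨x * h * x⁻¹, h1⟩ * γ⁻¹ := by
      apply Subtype.ext
      simp only [Subgroup.coe_mul, Subgroup.coe_inv]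
      group
    rw [e, map_mul, map_mul, hx h hh h1, mul_one, ← map_mul, mul_inv_cancel, map_one]
  intro γ x
  refine propext ⟨fun hx => ?_, key γ x⟩
  have := key γ⁻¹ _ hx
  rwa [Subgroup.coe_inv, inv_mul_cancel_left] at this

theorem rinv_null {G : Type} [Group G] (ρ : Γ →* G) {B J : Finset ι}
    (h : J ⊆ B ∨ Disjoint J B) : RInv (fun x => Null ρ x B) (H J) := by
  intro x g hg hx k hk hγ
  have h1 : g * k * g⁻¹ ∈ H B := by
    rcases h with h | h
    · exact (H B).mul_mem ((H B).mul_mem (H_mono h hg) hk) ((H B).inv_mem (H_mono h hg))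
    · rw [(H_commute h hg hk).eq, mul_inv_cancel_right]; exact hk
  have e : x * g * k * (x * g)⁻¹ = x * (g * k * g⁻¹) * x⁻¹ := by group
  have := hx _ h1 (e ▸ hγ)
  rw [← this]
  exact congrArg ρ (Subtype.ext e)

theorem dd_nonneg (A : AutF ι → Prop) (F F' : AutF ι → X) : 0 ≤ dd Γ A F F' := by
  exact sumQ_nonneg fun x _ => sq_nonneg _

theorem dd_comm (A : AutF ι → Prop) (F F' : AutF ι → X) : dd Γ A F F' = dd Γ A F' F := by
  unfold dd
  simp only [dist_comm]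

theorem dd_triangle (A : AutF ι → Prop) (F F' F'' : AutF ι → X) :
    Real.sqrt (dd Γ A F F'') ≤ Real.sqrt (dd Γ A F F') + Real.sqrt (dd Γ A F' F'') := by
  classical
  letI : Fintype (AutF ι ⧸ Γ) := Fintype.ofFinite _
  have key : ∀ G G' : AutF ι → X, Real.sqrt (dd Γ A G G') =
      ‖(WithLp.toLp 2 fun q : AutF ι ⧸ Γ => if A q.out then dist (G q.out) (G' q.out) else 0 :
        EuclideanSpace ℝ (AutF ι ⧸ Γ))‖ := by
    intro G G'
    rw [EuclideanSpace.norm_eq, dd, c0_sumQ_eq]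
    refine congrArg Real.sqrt (Finset.sum_congr rfl fun q _ => ?_)
    by_cases hq : A q.out
    · simp only [if_pos hq, Real.norm_eq_abs, sq_abs]
    · simp only [if_neg hq, norm_zero]; ring
  rw [key F F', key F' F'']
  refine le_trans ?_ (norm_add_le _ _)
  rw [EuclideanSpace.norm_eq, dd, c0_sumQ_eq]
  refine Real.sqrt_le_sqrt (Finset.sum_le_sum fun q _ => ?_)
  by_cases hq : A q.out
  · simp only [if_pos hq, Real.norm_eq_abs, sq_abs, PiLp.add_apply]
    exact pow_le_pow_left₀ dist_nonneg (dist_triangle _ _ _) 2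
  · simp only [if_neg hq]
    positivity

theorem Equi.rep_eq {act : Γ →* (X ≃ᵢ X)} {F : AutF ι → X} (hF : Equi act F) {B : Finset ι}
    {x : AutF ι} (hx : Null act x B) (h : H B) :
    F (x * KB.rep (QuotientGroup.mk h : KB Γ B)) = F (x * h) := by
  have h1 : ((QuotientGroup.mk h : KB Γ B).out)⁻¹ * h ∈ Γ.subgroupOf (H B) :=
    QuotientGroup.eq.mp (QuotientGroup.out_eq' _)
  set r : H B := (QuotientGroup.mk h : KB Γ B).out with hr
  have h2 : (r : AutF ι)⁻¹ * h ∈ Γ := h1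
  have h3 : x * ((h : AutF ι) * (r : AutF ι)⁻¹) * x⁻¹ ∈ Γ := by
    have := (inferInstance : Γ.Normal).conj_mem _ h2 (x * r)
    have e : x * r * ((r : AutF ι)⁻¹ * h) * (x * r)⁻¹ = x * ((h : AutF ι) * (r : AutF ι)⁻¹) * x⁻¹ := by
      group
    rwa [e] at this
  have h4 := hx _ ((H B).mul_mem h.2 ((H B).inv_mem r.2)) h3
  have h5 := hF ⟨_, h3⟩ (x * r)
  rw [h4] at h5
  have e : x * ((h : AutF ι) * (r : AutF ι)⁻¹) * x⁻¹ * (x * r) = x * h := by group
  simp only at h5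
  rw [e] at h5
  exact h5.symm

end Pool.Agent.P.MP_2d26dd_al
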