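import Pool.Agent.P.MP_2d26dd_al.Defs

/-! Barycentres. -/

namespace Pool.Agent.P.MP_2d26dd_al

variable {X V : Type} [MetricSpace X] [NormedAddCommGroup V] [InnerProductSpace ℝ V]
  (𝒩 : NPC X V) {κ : Type} [Fintype κ]

theorem exists_bary [Nonempty κ] (z : κ → X) : ∃ p, ∑ k, 𝒩.log p (z k) = 0 := by
  obtain ⟨n, hn⟩ : ∃ n, Fintype.card κ = n + 1 :=
    Nat.exists_eq_succ_of_ne_zero Fintype.card_ne_zero
  let e : κ ≃ Fin (n + 1) := Fintype.equivFinOfCardEq hn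
  obtain ⟨p, hp⟩ := 𝒩.bary n fun i => z (e.symm i)
  refine ⟨p, ?_⟩
  rw [← hp]
  exact (Equiv.sum_comp e.symm fun k => 𝒩.log p (z k)).symm

theorem g2_lip_sq (p q r : X) : ‖𝒩.log p q - 𝒩.log p r‖ ^ 2 ≤ dist q r ^ 2 :=
  pow_le_pow_left₀ (norm_nonneg _) (𝒩.lip p q r) 2

theorem pyth {z : κ → X} {p : X} (h : ∑ k, 𝒩.log p (z k) = 0) (r : X) :
    ∑ k, dist p (z k) ^ 2 + Fintype.card κ * dist r p ^ 2 ≤ ∑ k, dist r (z k) ^ 2 := by
  have h1 : ∀ k, dist p (z k) ^ 2 + dist r p ^ 2 - 2 * inner ℝ (𝒩.log p r) (𝒩.log p (z k)) ≤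
      dist r (z k) ^ 2 := by
    intro k
    have := g2_lip_sq 𝒩 p r (z k)
    rw [norm_sub_sq_real, 𝒩.norm_log, 𝒩.norm_log, dist_comm p r] at this
    linarith
  have h2 := Finset.sum_le_sum fun k (_ : k ∈ Finset.univ) => h1 k
  rw [Finset.sum_sub_distrib, Finset.sum_add_distrib, ← Finset.mul_sum, ← inner_sum, h,
    inner_zero_right] at h2
  simp only [Finset.sum_const, Finset.card_univ, nsmul_eq_mul, mul_zero, sub_zero] at h2
  exact h2

include 𝒩 in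
theorem g2_cn (p q : X) (t : ℝ) (h0 : 0 ≤ t) (h1 : t ≤ 1) :
    ∃ m : X, ∀ x : X, dist x m ^ 2 ≤
      (1 - t) * dist x p ^ 2 + t * dist x q ^ 2 - t * (1 - t) * dist p q ^ 2 := by
  obtain ⟨m, e, hp, hq, he⟩ := 𝒩.geo p q t h0 h1
  refine ⟨m, fun x => ?_⟩
  have a1 := g2_lip_sq 𝒩 m x p
  have a2 := g2_lip_sq 𝒩 m x q
  rw [hp, sub_neg_eq_add, norm_add_sq_real, inner_smul_right, norm_smul, 𝒩.norm_log, he,
    Real.norm_eq_abs, abs_of_nonneg h0, dist_comm m x] at a1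
  rw [hq, norm_sub_sq_real, inner_smul_right, norm_smul, 𝒩.norm_log, he,
    Real.norm_eq_abs, abs_of_nonneg (by linarith : (0 : ℝ) ≤ 1 - t), dist_comm m x] at a2
  have b1 := mul_le_mul_of_nonneg_left a1 (by linarith : (0 : ℝ) ≤ 1 - t)
  have b2 := mul_le_mul_of_nonneg_left a2 h0
  nlinarith [b1, b2]

include 𝒩 in
theorem resh (x₁ x₂ x₃ x₄ : X) :
    dist x₁ x₃ ^ 2 + dist x₂ x₄ ^ 2 ≤
      dist x₂ x₃ ^ 2 + dist x₄ x₁ ^ 2 + 2 * dist x₁ x₂ * dist x₃ x₄ := by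
  rcases (dist_nonneg (x := x₁) (y := x₂)).eq_or_lt with ha | ha
  · have : x₁ = x₂ := dist_eq_zero.mp ha.symm
    subst this
    rw [dist_comm x₄ x₁]
    simp
  rcases (dist_nonneg (x := x₃) (y := x₄)).eq_or_lt with hb | hb
  · have : x₃ = x₄ := dist_eq_zero.mp hb.symm
    subst this
    rw [dist_comm x₃ x₁]
    simp [add_comm]
  set a := dist x₁ x₂ with hadef
  set b := dist x₃ x₄ with hbdef
  have hab : 0 < a + b := by linarith
  obtain ⟨t, ht0, ht1, htab⟩ : ∃ t : ℝ, 0 < t ∧ t < 1 ∧ (1 - t) * a = t * b := by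
    refine ⟨a / (a + b), by positivity, ?_, ?_⟩
    · rw [div_lt_one hab]; linarith
    · field_simp; ring
  obtain ⟨m, hm⟩ := g2_cn 𝒩 x₁ x₃ t ht0.le ht1.le
  have c2 := hm x₂
  have c4 := hm x₄
  rw [dist_comm x₂ x₁, ← hadef] at c2
  rw [dist_comm x₄ x₃, ← hbdef] at c4
  have tri : dist x₂ x₄ ≤ dist x₂ m + dist x₄ m := dist_triangle_right _ _ _
  have tri2 : dist x₂ x₄ ^ 2 ≤ (dist x₂ m + dist x₄ m) ^ 2 :=
    pow_le_pow_left₀ dist_nonneg tri 2
  set u := dist x₂ m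
  set v := dist x₄ m
  have ht' : 0 < 1 - t := by linarith
  have hpos : 0 < t * (1 - t) := mul_pos ht0 ht'
  have k1 : t * (1 - t) * dist x₂ x₄ ^ 2 ≤ (1 - t) * u ^ 2 + t * v ^ 2 := by
    have := mul_le_mul_of_nonneg_left tri2 hpos.le
    nlinarith [sq_nonneg ((1 - t) * u - t * v)]
  have k2 := mul_le_mul_of_nonneg_left c2 ht'.le
  have k3 := mul_le_mul_of_nonneg_left c4 ht0.le
  have k4 : ((1 - t) * a) ^ 2 + (t * b) ^ 2 = 2 * ((1 - t) * a) * (t * b) := by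
    rw [htab]; ring
  refine le_of_mul_le_mul_left ?_ hpos
  nlinarith [k1, k2, k3, k4]

theorem bary_lip {z z' : κ → X} {p p' : X} (h : ∑ k, 𝒩.log p (z k) = 0)
    (h' : ∑ k, 𝒩.log p' (z' k) = 0) :
    Fintype.card κ * dist p p' ^ 2 ≤ ∑ k, dist (z k) (z' k) ^ 2 := by
  have h1 := pyth 𝒩 h p'
  have h2 := pyth 𝒩 h' p
  have h3 : ∀ k, dist p (z' k) ^ 2 + dist p' (z k) ^ 2 ≤
      dist p' (z' k) ^ 2 + dist p (z k) ^ 2 + 2 * dist p p' * dist (z k) (z' k) := by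
    intro k
    have := resh 𝒩 p p' (z' k) (z k)
    rwa [dist_comm (z k) p, dist_comm (z' k) (z k)] at this
  have h4 := Finset.sum_le_sum fun k (_ : k ∈ Finset.univ) => h3 k
  rw [Finset.sum_add_distrib, Finset.sum_add_distrib, Finset.sum_add_distrib,
    ← Finset.mul_sum] at h4
  rw [dist_comm p' p] at h1
  have h5 : ∑ k, (dist (z k) (z' k) - dist p p') ^ 2 =
      ∑ k, dist (z k) (z' k) ^ 2 - 2 * dist p p' * ∑ k, dist (z k) (z' k) +
        Fintype.card κ * dist p p' ^ 2 := by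
    simp only [sub_sq, Finset.sum_add_distrib, Finset.sum_sub_distrib, Finset.sum_const,
      Finset.card_univ, nsmul_eq_mul, Finset.mul_sum]
    congr 2
    exact Finset.sum_congr rfl fun k _ => by ring
  have h6 : 0 ≤ ∑ k, (dist (z k) (z' k) - dist p p') ^ 2 :=
    Finset.sum_nonneg fun k _ => sq_nonneg _
  linarith

theorem bary_unique [Nonempty κ] {z : κ → X} {p p' : X} (h : ∑ k, 𝒩.log p (z k) = 0)
    (h' : ∑ k, 𝒩.log p' (z k) = 0) : p = p' := by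
  have h1 := bary_lip 𝒩 h h'
  simp only [dist_self, ne_eq, OfNat.ofNat_ne_zero, not_false_eq_true, zero_pow,
    Finset.sum_const_zero] at h1
  have hc : (0 : ℝ) < Fintype.card κ := by exact_mod_cast Fintype.card_pos
  have h2 : dist p p' ^ 2 ≤ 0 := by
    by_contra hh
    push Not at hh
    have := mul_pos hc hh
    linarith
  have h3 : dist p p' ^ 2 = 0 := le_antisymm h2 (sq_nonneg _)
  exact dist_eq_zero.mp (pow_eq_zero_iff two_ne_zero |>.mp h3)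

theorem bary_isom [Nonempty κ] {z : κ → X} {p : X} (h : ∑ k, 𝒩.log p (z k) = 0) (f : X ≃ᵢ X) :
    ∑ k, 𝒩.log (f p) (f (z k)) = 0 := by
  obtain ⟨q, hq⟩ := exists_bary 𝒩 fun k => f (z k)
  have h1 := pyth 𝒩 hq (f p)
  have h2 := pyth 𝒩 h (f.symm q)
  have e1 : ∑ k, dist (f p) (f (z k)) ^ 2 = ∑ k, dist p (z k) ^ 2 :=
    Finset.sum_congr rfl fun k _ => by rw [f.dist_eq]
  have e2 : ∑ k, dist (f.symm q) (z k) ^ 2 = ∑ k, dist q (f (z k)) ^ 2 :=
    Finset.sum_congr rfl fun k _ => by rw [← f.dist_eq, f.apply_symm_apply]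
  have hc : (0 : ℝ) < Fintype.card κ := by exact_mod_cast Fintype.card_pos
  have h3 : 0 ≤ (Fintype.card κ : ℝ) * dist (f.symm q) p ^ 2 := by positivity
  have h4 : dist (f p) q ^ 2 ≤ 0 := by
    by_contra hh
    push Not at hh
    have := mul_pos hc hh
    linarith
  have h5 : dist (f p) q ^ 2 = 0 := le_antisymm h4 (sq_nonneg _)
  have h6 : f p = q := dist_eq_zero.mp (pow_eq_zero_iff two_ne_zero |>.mp h5)
  rw [h6]
  exact hq

theorem bary_near [Nonempty κ] {z : κ → X} {p : X} (h : ∑ k, 𝒩.log p (z k) = 0) (r : X) (R : ℝ)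
    (hR : ∀ k, dist (z k) r ≤ R) : dist p r ≤ R := by
  have h1 := pyth 𝒩 h r
  obtain ⟨k0⟩ := ‹Nonempty κ›
  have hR0 : 0 ≤ R := dist_nonneg.trans (hR k0)
  have h2 : ∑ k, dist r (z k) ^ 2 ≤ ∑ _k : κ, R ^ 2 :=
    Finset.sum_le_sum fun k _ => by
      rw [dist_comm]
      exact pow_le_pow_left₀ dist_nonneg (hR k) 2
  simp only [Finset.sum_const, Finset.card_univ, nsmul_eq_mul] at h2
  have h3 : 0 ≤ ∑ k, dist p (z k) ^ 2 := Finset.sum_nonneg fun k _ => sq_nonneg _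
  have hc : (0 : ℝ) < Fintype.card κ := by exact_mod_cast Fintype.card_pos
  have h4 : dist r p ^ 2 ≤ R ^ 2 := le_of_mul_le_mul_left (by linarith) hc
  rw [dist_comm]
  exact (pow_le_pow_iff_left₀ dist_nonneg hR0 two_ne_zero).mp h4

theorem bary_const [Nonempty κ] (p : X) : ∑ _k : κ, 𝒩.log p p = 0 := by
  have : 𝒩.log p p = 0 := by
    rw [← norm_eq_zero, 𝒩.norm_log, dist_self]
  simp [this]

end Pool.Agent.P.MP_2d26dd_al
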