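import Pool.Agent.P.MP_2d26dd_al.C0
import Pool.Agent.P.MP_2d26dd_al.G2

/-! Properties of the projections. -/

namespace Pool.Agent.P.MP_2d26dd_al

variable {ι : Type} [DecidableEq ι] {Γ : Subgroup (AutF ι)} [Γ.Normal] [Γ.FiniteIndex]
  {X V : Type} [MetricSpace X] [Nonempty X] [NormedAddCommGroup V] [InnerProductSpace ℝ V]
  (𝒩 : NPC X V) (act : Γ →* (X ≃ᵢ X))

omit [DecidableEq ι] [Γ.Normal] in
private theorem fs {B : Finset ι} {M : Type} [AddCommMonoid M] [Fintype (KB Γ B)]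
    (f : KB Γ B → M) : ∑ᶠ k, f k = ∑ k, f k := finsum_eq_sum_of_fintype f

omit [DecidableEq ι] in
private theorem avg_le {B : Finset ι} {A : AutF ι → Prop} (hA : LInv Γ A) (hB : RInv A (H B))
    {ψ φ : AutF ι → ℝ} (hψ : LInv Γ ψ) (hφ : LInv Γ φ)
    (h : ∀ x, A x → ∑ᶠ k : KB Γ B, ψ (x * k.rep) ≤ ∑ᶠ k : KB Γ B, φ (x * k.rep)) :
    sumQ Γ A ψ ≤ sumQ Γ A φ := by
  have h1 := sumQ_le (Γ := Γ) h
  rw [sumQ_avg hA hψ hB, sumQ_avg hA hφ hB] at h1
  have h2 : (0 : ℝ) < Nat.card (KB Γ B) := by exact_mod_cast Nat.card_pos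
  exact le_of_mul_le_mul_left h1 h2

theorem proj_spec {B : Finset ι} (F : AutF ι → X) {x : AutF ι} (hx : Null act x B) :
    ∑ᶠ k : KB Γ B, 𝒩.log (proj 𝒩 act B F x) (F (x * k.rep)) = 0 := by
  let _ := Fintype.ofFinite (KB Γ B)
  have he : ∃ p, ∑ᶠ k : KB Γ B, 𝒩.log p (F (x * k.rep)) = 0 := by
    obtain ⟨p, hp⟩ := exists_bary 𝒩 fun k : KB Γ B => F (x * k.rep)
    exact ⟨p, by rw [fs]; exact hp⟩
  rw [proj, if_pos hx]
  exact Classical.epsilon_spec he

theorem proj_of_not {B : Finset ι} (F : AutF ι → X) {x : AutF ι} (hx : ¬ Null act x B) :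
    proj 𝒩 act B F x = F x := by
  rw [proj, if_neg hx]

theorem equi_proj (B : Finset ι) {F : AutF ι → X} (hF : Equi act F) :
    Equi act (proj 𝒩 act B F) := by
  intro γ x
  let _ := Fintype.ofFinite (KB Γ B)
  have hl : Null act (γ * x) B = Null act x B := linv_null act B γ x
  by_cases hx : Null act x B
  · have h1 := proj_spec 𝒩 act F hx
    have h2 := proj_spec 𝒩 act F (hl ▸ hx : Null act (γ * x) B)
    rw [fs] at h1 h2
    have h3 := bary_isom 𝒩 h1 (act γ)
    simp only [mul_assoc, hF γ] at h2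
    exact bary_unique 𝒩 h2 h3
  · rw [proj_of_not 𝒩 act F hx, proj_of_not 𝒩 act F (hl ▸ hx : ¬ Null act (γ * x) B), hF]

theorem constOn_proj (B : Finset ι) {F : AutF ι → X} (hF : Equi act F) :
    ConstOn (fun x => Null act x B) B (proj 𝒩 act B F) := by
  intro x hx h hh
  let _ := Fintype.ofFinite (KB Γ B)
  have h1 := proj_spec 𝒩 act F hx
  have h2 := proj_spec 𝒩 act F (rinv_null act (Or.inl subset_rfl) x h hh hx)
  rw [fs] at h1 h2
  have e : ∀ k : KB Γ B, F (x * h * k.rep) =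
      F (x * KB.rep ((QuotientGroup.mk (⟨h, hh⟩ : H B) : KB Γ B) * k)) := by
    intro k
    have := hF.rep_eq hx (⟨h, hh⟩ * k.out)
    rw [QuotientGroup.mk_mul, QuotientGroup.out_eq'] at this
    rw [this, mul_assoc]
    rfl
  simp only [e] at h2
  have h3 := (Equiv.sum_comp (Equiv.mulLeft (QuotientGroup.mk (⟨h, hh⟩ : H B) : KB Γ B))
    fun k : KB Γ B => 𝒩.log (proj 𝒩 act B F (x * h)) (F (x * k.rep))).symm.trans h2
  exact bary_unique 𝒩 h3 h1

theorem proj_of_const {B : Finset ι} {F : AutF ι → X} {x : AutF ι}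
    (h : ∀ g ∈ H B, F (x * g) = F x) : proj 𝒩 act B F x = F x := by
  let _ := Fintype.ofFinite (KB Γ B)
  by_cases hx : Null act x B
  · have h1 := proj_spec 𝒩 act F hx
    rw [fs] at h1
    simp only [fun k : KB Γ B => h _ k.rep_mem] at h1
    exact bary_unique 𝒩 (z := fun _ : KB Γ B => F x) h1 (bary_const 𝒩 (F x))
  · exact proj_of_not 𝒩 act F hx

theorem proj_lip {B : Finset ι} {A : AutF ι → Prop} (hA : LInv Γ A) (hB : RInv A (H B))
    {F F' : AutF ι → X} (hF : Equi act F) (hF' : Equi act F') :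
    dd Γ A (proj 𝒩 act B F) (proj 𝒩 act B F') ≤ dd Γ A F F' := by
  let _ := Fintype.ofFinite (KB Γ B)
  refine avg_le hA hB (linv_dist (equi_proj 𝒩 act B hF) (equi_proj 𝒩 act B hF'))
    (linv_dist hF hF') fun x _ => ?_
  rw [fs, fs]
  by_cases hx : Null act x B
  · have h1 := proj_spec 𝒩 act F hx
    have h2 := proj_spec 𝒩 act F' hx
    rw [fs] at h1 h2
    have h3 := bary_lip 𝒩 h1 h2
    simp only [fun k : KB Γ B => constOn_proj 𝒩 act B hF x hx _ k.rep_mem,
      fun k : KB Γ B => constOn_proj 𝒩 act B hF' x hx _ k.rep_mem]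
    rw [Finset.sum_const, Finset.card_univ, nsmul_eq_mul]
    exact h3
  · refine Finset.sum_le_sum fun k _ => ?_
    have hk : ¬ Null act (x * k.rep) B := fun hn =>
      hx ((null_mul_iff k.rep_mem (Or.inl subset_rfl)).1 hn)
    rw [proj_of_not 𝒩 act F hk, proj_of_not 𝒩 act F' hk]

theorem var_le {B : Finset ι} {A : AutF ι → Prop} (hA : LInv Γ A) (hB : RInv A (H B))
    {F Φ : AutF ι → X} (hF : Equi act F) (hΦ : Equi act Φ) (hc : ConstOn A B Φ) :
    var 𝒩 act A B F ≤ dd Γ A F Φ := by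
  let _ := Fintype.ofFinite (KB Γ B)
  refine avg_le hA hB (linv_dist hF (equi_proj 𝒩 act B hF)) (linv_dist hF hΦ) fun x hAx => ?_
  rw [fs, fs]
  by_cases hx : Null act x B
  · have h1 := proj_spec 𝒩 act F hx
    rw [fs] at h1
    have h3 := pyth 𝒩 h1 (Φ x)
    simp only [fun k : KB Γ B => constOn_proj 𝒩 act B hF x hx _ k.rep_mem,
      fun k : KB Γ B => hc x hAx _ k.rep_mem]
    simp only [dist_comm (F _)]
    have h4 : (0 : ℝ) ≤ Fintype.card (KB Γ B) * dist (Φ x) (proj 𝒩 act B F x) ^ 2 := by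
      positivity
    linarith
  · refine Finset.sum_le_sum fun k _ => ?_
    have hk : ¬ Null act (x * k.rep) B := fun hn =>
      hx ((null_mul_iff k.rep_mem (Or.inl subset_rfl)).1 hn)
    rw [proj_of_not 𝒩 act F hk, dist_self]
    nlinarith [sq_nonneg (dist (F (x * k.rep)) (Φ (x * k.rep)))]

theorem constOn_proj_far {B J : Finset ι} (hd : Disjoint B J) {A : AutF ι → Prop}
    (hB : RInv A (H B)) {F : AutF ι → X} (hc : ConstOn A J F) :
    ConstOn A J (proj 𝒩 act B F) := by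
  intro x hAx h hh
  let _ := Fintype.ofFinite (KB Γ B)
  have hi : Null act (x * h) B ↔ Null act x B := null_mul_iff hh (Or.inr hd.symm)
  by_cases hx : Null act x B
  · have h1 := proj_spec 𝒩 act F hx
    have h2 := proj_spec 𝒩 act F (hi.2 hx)
    rw [fs] at h1 h2
    have e : ∀ k : KB Γ B, F (x * h * k.rep) = F (x * k.rep) := by
      intro k
      rw [mul_assoc, ← (H_commute hd k.rep_mem hh).eq, ← mul_assoc]
      exact hc _ (hB x _ k.rep_mem hAx) h hh
    simp only [e] at h2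
    exact bary_unique 𝒩 h2 h1
  · rw [proj_of_not 𝒩 act F hx, proj_of_not 𝒩 act F (fun hn => hx (hi.1 hn))]
    exact hc x hAx h hh

theorem var_proj_far {B J : Finset ι} (hd : Disjoint B J) {A : AutF ι → Prop} (hA : LInv Γ A)
    (hB : RInv A (H B)) (hJ : RInv A (H J)) (hn : ∀ x, A x → Null act x J) {F : AutF ι → X}
    (hF : Equi act F) : var 𝒩 act A J (proj 𝒩 act B F) ≤ var 𝒩 act A J F := by
  have h1 : ConstOn A J (proj 𝒩 act J F) := fun x hx h hh =>
    constOn_proj 𝒩 act J hF x (hn x hx) h hh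
  exact (var_le 𝒩 act hA hJ (equi_proj 𝒩 act B hF)
    (equi_proj 𝒩 act B (equi_proj 𝒩 act J hF)) (constOn_proj_far 𝒩 act hd hB h1)).trans
    (proj_lip 𝒩 act hA hB hF (equi_proj 𝒩 act J hF))

theorem disp_le_var {B : Finset ι} {A : AutF ι → Prop} (hA : LInv Γ A) (hB : RInv A (H B))
    (hn : ∀ x, A x → Null act x B) {F : AutF ι → X} (hF : Equi act F) {h : AutF ι}
    (hh : h ∈ H B) : disp Γ A F h ≤ 4 * var 𝒩 act A B F := by
  have e : (fun x => A (x * h)) = A := by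
    funext x
    refine propext ⟨fun hx => ?_, hB x h hh⟩
    have := hB _ h⁻¹ ((H B).inv_mem hh) hx
    rwa [mul_inv_cancel_right] at this
  have h1 := sumQ_shift hA (linv_dist hF (equi_proj 𝒩 act B hF)) h
  rw [e] at h1
  have h2 : disp Γ A F h ≤ sumQ Γ A fun x => 2 * dist (F x) (proj 𝒩 act B F x) ^ 2 +
      2 * dist (F (x * h)) (proj 𝒩 act B F (x * h)) ^ 2 := by
    rw [disp, dd]
    refine sumQ_le fun x hx => ?_
    rw [constOn_proj 𝒩 act B hF x (hn x hx) h hh]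
    have h3 := dist_triangle_right (F x) (F (x * h)) (proj 𝒩 act B F x)
    have h4 := dist_nonneg (x := F x) (y := F (x * h))
    nlinarith [sq_nonneg (dist (F x) (proj 𝒩 act B F x) - dist (F (x * h)) (proj 𝒩 act B F x))]
  rw [sumQ_add, sumQ_mul, sumQ_mul, h1] at h2
  have h5 : var 𝒩 act A B F = sumQ Γ A fun x => dist (F x) (proj 𝒩 act B F x) ^ 2 := rfl
  linarith

theorem proj_near (B : Finset ι) (F : AutF ι → X) (x : AutF ι) (p : X) (R : ℝ)
    (h1 : dist (F x) p ≤ R) (h2 : ∀ k : KB Γ B, dist (F (x * k.rep)) p ≤ R) :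
    dist (proj 𝒩 act B F x) p ≤ R := by
  let _ := Fintype.ofFinite (KB Γ B)
  by_cases hx : Null act x B
  · have h3 := proj_spec 𝒩 act F hx
    rw [fs] at h3
    exact bary_near 𝒩 h3 p R h2
  · rwa [proj_of_not 𝒩 act F hx]

end Pool.Agent.P.MP_2d26dd_al
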