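import Pool.Agent.P.MP_2d26dd_al.G2

/-! The angle lemma on a finite group. -/

namespace Pool.Agent.P.MP_2d26dd_al

open scoped RealInnerProductSpace

namespace G3

theorem abstract_angle {W : Type} [NormedAddCommGroup W] [InnerProductSpace ℝ W] (a b e : W)
    {c : ℝ} (hc : 0 ≤ c) (hae : ⟪a, e⟫ = 0) (hbe : ‖b‖ ^ 2 ≤ ⟪e, b⟫) (hab : ‖b‖ ^ 2 ≤ ⟪a, b⟫)
    (he : (1 - c ^ 2) * ‖e‖ ^ 2 ≤ ‖b‖ ^ 2) : ‖b‖ ^ 2 ≤ c ^ 2 * ‖a‖ ^ 2 := by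
  by_cases h0 : e = 0
  · subst h0
    simp only [inner_zero_left] at hbe
    exact hbe.trans (by positivity)
  have hE : 0 < ‖e‖ ^ 2 := by positivity
  set t : ℝ := ⟪e, b⟫ / ‖e‖ ^ 2 with ht
  have hte : t * ‖e‖ ^ 2 = ⟪e, b⟫ := by rw [ht]; field_simp
  have h1 : ‖b - t • e‖ ^ 2 = ‖b‖ ^ 2 - t * ⟪e, b⟫ := by
    rw [norm_sub_sq_real, inner_smul_right, norm_smul, mul_pow, real_inner_comm, Real.norm_eq_abs,
      sq_abs, ← hte]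
    ring
  have hB : 0 ≤ ‖b‖ ^ 2 := by positivity
  have ht1 : 1 - c ^ 2 ≤ t := by
    by_contra hlt
    push Not at hlt
    nlinarith
  have h2 : ‖b - t • e‖ ^ 2 ≤ (c * ‖b‖) ^ 2 := by
    rw [h1, mul_pow]
    have hI : 0 ≤ ⟪e, b⟫ := hB.trans hbe
    by_cases hcc : 0 ≤ 1 - c ^ 2
    · nlinarith [mul_le_mul ht1 hbe hB (hcc.trans ht1)]
    · have ht0 : 0 ≤ t := div_nonneg hI hE.le
      nlinarith [mul_nonneg ht0 hI]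
  have h3 : ‖b - t • e‖ ≤ c * ‖b‖ :=
    (abs_le_of_sq_le_sq' h2 (by positivity)).2
  have h4 : ⟪a, b⟫ = ⟪a, b - t • e⟫ := by
    rw [inner_sub_right, inner_smul_right, hae]; simp
  have h5 : ‖b‖ ^ 2 ≤ ‖a‖ * (c * ‖b‖) := by
    refine hab.trans ?_
    rw [h4]
    exact (real_inner_le_norm _ _).trans (mul_le_mul_of_nonneg_left h3 (norm_nonneg _))
  have h6 : ‖b‖ ≤ c * ‖a‖ := by
    by_cases hb : ‖b‖ = 0
    · rw [hb]; positivity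
    · have hb' : 0 < ‖b‖ := lt_of_le_of_ne (norm_nonneg _) (Ne.symm hb)
      have : ‖b‖ * ‖b‖ ≤ (c * ‖a‖) * ‖b‖ := by nlinarith
      exact le_of_mul_le_mul_right this hb'
  calc ‖b‖ ^ 2 ≤ (c * ‖a‖) ^ 2 := by gcongr
    _ = _ := by ring

theorem sum_angle {V K : Type} [NormedAddCommGroup V] [InnerProductSpace ℝ V] [Fintype K]
    (a b e : K → V) {c : ℝ} (hc : 0 ≤ c) (hae : ∑ k, ⟪a k, e k⟫ = 0)
    (hbe : ∑ k, ‖b k‖ ^ 2 ≤ ∑ k, ⟪e k, b k⟫) (hab : ∑ k, ‖b k‖ ^ 2 ≤ ∑ k, ⟪a k, b k⟫)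
    (he : (1 - c ^ 2) * ∑ k, ‖e k‖ ^ 2 ≤ ∑ k, ‖b k‖ ^ 2) :
    ∑ k, ‖b k‖ ^ 2 ≤ c ^ 2 * ∑ k, ‖a k‖ ^ 2 := by
  have := abstract_angle (W := PiLp 2 (fun _ : K => V)) (WithLp.toLp 2 a) (WithLp.toLp 2 b)
    (WithLp.toLp 2 e) hc (by simpa [PiLp.inner_apply] using hae)
    (by simpa [PiLp.inner_apply, PiLp.norm_sq_eq_of_L2] using hbe)
    (by simpa [PiLp.inner_apply, PiLp.norm_sq_eq_of_L2] using hab)
    (by simpa [PiLp.norm_sq_eq_of_L2] using he)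
  simpa [PiLp.norm_sq_eq_of_L2] using this

theorem sum_shift {K M : Type} [Group K] [Fintype K] [AddCommMonoid M] (φ : K → M) (h : K) :
    ∑ k, φ (k * h) = ∑ k, φ k :=
  Equiv.sum_comp (Equiv.mulRight h) φ

theorem sum_avg {K : Type} [Group K] [Fintype K] (L : Subgroup K) [Fintype L] (φ : K → ℝ) :
    ∑ k, ∑ h : L, φ (k * h) = Fintype.card L * ∑ k, φ k := by
  rw [Finset.sum_comm]
  simp [sum_shift]

theorem vec_angle {V K : Type} [NormedAddCommGroup V] [InnerProductSpace ℝ V]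
    [FiniteDimensional ℝ V] [Group K] [Fintype K] (K₁ K₂ : Subgroup K) {c : ℝ} (hc : 0 ≤ c)
    (hang : ∀ u w : K → ℝ, (∀ k, ∀ h ∈ K₂, u (k * h) = u k) → (∀ k, ∀ h ∈ K₁, w (k * h) = w k) →
      ∑ k, u k = 0 →
      ∑ k, u k * w k ≤ c * (Real.sqrt (∑ k, u k ^ 2) * Real.sqrt (∑ k, w k ^ 2)))
    (u w : K → V) (hu : ∀ k, ∀ h ∈ K₂, u (k * h) = u k) (hw : ∀ k, ∀ h ∈ K₁, w (k * h) = w k)
    (h0 : ∑ k, u k = 0) :
    (1 - c ^ 2) * ∑ k, ‖u k‖ ^ 2 ≤ ∑ k, ‖u k - w k‖ ^ 2 := by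
  let B := stdOrthonormalBasis ℝ V
  have hn : ∀ v : V, ‖v‖ ^ 2 = ∑ i, ⟪B i, v⟫ ^ 2 := fun v => (B.sum_sq_inner_right v).symm
  simp only [hn]
  rw [Finset.sum_comm, Finset.sum_comm (s := Finset.univ (α := K)), Finset.mul_sum]
  apply Finset.sum_le_sum
  intro i _
  have h1 := hang (fun k => ⟪B i, u k⟫) (fun k => ⟪B i, w k⟫)
    (fun k h hh => by rw [hu k h hh]) (fun k h hh => by rw [hw k h hh])
    (by rw [← inner_sum, h0, inner_zero_right])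
  have h2 : ∑ k, ⟪B i, u k - w k⟫ ^ 2 =
      ∑ k, ⟪B i, u k⟫ ^ 2 - 2 * ∑ k, ⟪B i, u k⟫ * ⟪B i, w k⟫ + ∑ k, ⟪B i, w k⟫ ^ 2 := by
    rw [Finset.mul_sum, ← Finset.sum_sub_distrib, ← Finset.sum_add_distrib]
    apply Finset.sum_congr rfl
    intro k _
    rw [inner_sub_right]; ring
  rw [h2]
  have hU : 0 ≤ ∑ k, ⟪B i, u k⟫ ^ 2 := Finset.sum_nonneg fun _ _ => sq_nonneg _
  have hW : 0 ≤ ∑ k, ⟪B i, w k⟫ ^ 2 := Finset.sum_nonneg fun _ _ => sq_nonneg _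
  have sU := Real.sq_sqrt hU
  have sW := Real.sq_sqrt hW
  nlinarith [sq_nonneg (c * Real.sqrt (∑ k, ⟪B i, u k⟫ ^ 2) - Real.sqrt (∑ k, ⟪B i, w k⟫ ^ 2))]

open Classical in
theorem pyth_inner {X V : Type} [MetricSpace X] [NormedAddCommGroup V] [InnerProductSpace ℝ V]
    (𝒩 : NPC X V) {K : Type} [Group K] [Fintype K] (K₁ : Subgroup K) (R G Y : K → X)
    (hR : ∀ k, ∀ h ∈ K₁, R (k * h) = R k) (hY : ∀ k, ∀ h ∈ K₁, Y (k * h) = Y k)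
    (hY0 : ∀ k, ∑ h : K₁, 𝒩.log (Y k) (G (k * h)) = 0) :
    ∑ k, ‖𝒩.log (G k) (Y k)‖ ^ 2 ≤ ∑ k, ⟪𝒩.log (G k) (R k), 𝒩.log (G k) (Y k)⟫ := by
  have h1 : ∑ k, (∑ h : K₁, dist (Y k) (G (k * h)) ^ 2 + Fintype.card K₁ * dist (R k) (Y k) ^ 2)
      ≤ ∑ k, ∑ h : K₁, dist (R k) (G (k * h)) ^ 2 :=
    Finset.sum_le_sum fun k _ => pyth 𝒩 (hY0 k) (R k)
  have h2 : ∑ k, ∑ h : K₁, dist (Y k) (G (k * h)) ^ 2 =
      Fintype.card K₁ * ∑ k, dist (Y k) (G k) ^ 2 := by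
    rw [← sum_avg K₁ (fun k => dist (Y k) (G k) ^ 2)]
    exact Finset.sum_congr rfl fun k _ => Finset.sum_congr rfl fun h _ => by rw [hY k h h.2]
  have h3 : ∑ k, ∑ h : K₁, dist (R k) (G (k * h)) ^ 2 =
      Fintype.card K₁ * ∑ k, dist (R k) (G k) ^ 2 := by
    rw [← sum_avg K₁ (fun k => dist (R k) (G k) ^ 2)]
    exact Finset.sum_congr rfl fun k _ => Finset.sum_congr rfl fun h _ => by rw [hR k h h.2]
  rw [Finset.sum_add_distrib, h2, h3, ← Finset.mul_sum, ← mul_add] at h1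
  have hpos : (0 : ℝ) < Fintype.card K₁ := by exact_mod_cast Fintype.card_pos
  have h4 := le_of_mul_le_mul_left h1 hpos
  have h5 : ∑ k, (2 * ‖𝒩.log (G k) (Y k)‖ ^ 2 - 2 * ⟪𝒩.log (G k) (R k), 𝒩.log (G k) (Y k)⟫) ≤
      ∑ k, (dist (Y k) (G k) ^ 2 + dist (R k) (Y k) ^ 2 - dist (R k) (G k) ^ 2) := by
    apply Finset.sum_le_sum
    intro k _
    have l := 𝒩.lip (G k) (R k) (Y k)
    have l2 : ‖𝒩.log (G k) (R k) - 𝒩.log (G k) (Y k)‖ ^ 2 ≤ dist (R k) (Y k) ^ 2 := by gcongr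
    rw [norm_sub_sq_real] at l2
    rw [dist_comm (Y k), dist_comm (R k) (G k), ← 𝒩.norm_log (G k), ← 𝒩.norm_log (G k)]
    linarith
  rw [Finset.sum_sub_distrib, Finset.sum_sub_distrib, Finset.sum_add_distrib, ← Finset.mul_sum,
    ← Finset.mul_sum] at h5
  linarith

end G3

variable {X V : Type} [MetricSpace X] [NormedAddCommGroup V] [InnerProductSpace ℝ V]
  [FiniteDimensional ℝ V] (𝒩 : NPC X V) {K : Type} [Group K] [Fintype K]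

open Classical in
theorem local_angle (K₁ K₂ : Subgroup K) {c : ℝ} (hc : 0 ≤ c) (hc1 : c ≤ 1)
    (hang : ∀ u w : K → ℝ, (∀ k, ∀ h ∈ K₂, u (k * h) = u k) → (∀ k, ∀ h ∈ K₁, w (k * h) = w k) →
      ∑ k, u k = 0 →
      ∑ k, u k * w k ≤ c * (Real.sqrt (∑ k, u k ^ 2) * Real.sqrt (∑ k, w k ^ 2)))
    (F G Y : K → X) (hF : ∀ k, ∀ h ∈ K₁, F (k * h) = F k)
    (hG : ∀ k, ∀ h ∈ K₂, G (k * h) = G k) (hG0 : ∀ k, ∑ h : K₂, 𝒩.log (G k) (F (k * h)) = 0)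
    (hY : ∀ k, ∀ h ∈ K₁, Y (k * h) = Y k) (hY0 : ∀ k, ∑ h : K₁, 𝒩.log (Y k) (G (k * h)) = 0) :
    ∑ k, dist (G k) (Y k) ^ 2 ≤ c ^ 2 * ∑ k, dist (F k) (G k) ^ 2 := by
  obtain ⟨q, hq⟩ := exists_bary 𝒩 G
  have h1 := G3.vec_angle K₁ K₂ hc hang (fun k => 𝒩.log q (G k)) (fun k => 𝒩.log q (Y k))
    (fun k h hh => by rw [hG k h hh]) (fun k h hh => by rw [hY k h hh]) hq
  have he : (1 - c ^ 2) * ∑ k, ‖𝒩.log (G k) q‖ ^ 2 ≤ ∑ k, ‖𝒩.log (G k) (Y k)‖ ^ 2 := by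
    have e1 : ∑ k, ‖𝒩.log (G k) q‖ ^ 2 = ∑ k, ‖𝒩.log q (G k)‖ ^ 2 :=
      Finset.sum_congr rfl fun k _ => by rw [𝒩.norm_log, 𝒩.norm_log, dist_comm]
    rw [e1]
    refine h1.trans (Finset.sum_le_sum fun k _ => ?_)
    rw [𝒩.norm_log]
    have l := 𝒩.lip q (G k) (Y k)
    gcongr
  have hae : ∑ k, ⟪𝒩.log (G k) (F k), 𝒩.log (G k) q⟫ = 0 := by
    have a1 := G3.sum_avg K₂ (fun k => ⟪𝒩.log (G k) (F k), 𝒩.log (G k) q⟫)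
    have a2 : ∑ k, ∑ h : K₂, ⟪𝒩.log (G (k * h)) (F (k * h)), 𝒩.log (G (k * h)) q⟫ = 0 := by
      apply Finset.sum_eq_zero
      intro k _
      have : ∀ h : K₂, ⟪𝒩.log (G (k * h)) (F (k * h)), 𝒩.log (G (k * h)) q⟫ =
          ⟪𝒩.log (G k) (F (k * h)), 𝒩.log (G k) q⟫ := fun h => by rw [hG k h h.2]
      rw [Finset.sum_congr rfl fun h _ => this h, ← sum_inner, hG0 k, inner_zero_left]
    rw [a2] at a1
    have hpos : (0 : ℝ) < Fintype.card K₂ := by exact_mod_cast Fintype.card_pos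
    exact (mul_eq_zero.mp a1.symm).resolve_left hpos.ne'
  have hbe := G3.pyth_inner 𝒩 K₁ (fun _ => q) G Y (fun _ _ _ => rfl) hY hY0
  have hab := G3.pyth_inner 𝒩 K₁ F G Y hF hY hY0
  have := G3.sum_angle (fun k => 𝒩.log (G k) (F k)) (fun k => 𝒩.log (G k) (Y k))
    (fun k => 𝒩.log (G k) q) hc hae hbe hab he
  simp only [𝒩.norm_log] at this
  simpa only [dist_comm (F _)] using this

theorem local_poincare {S : Type} [Fintype S] (s : S → K)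
    (hP : ∀ u : K → ℝ, ∑ k, u k = 0 → ∑ k, u k ^ 2 ≤ ∑ a, ∑ k, (u (k * s a) - u k) ^ 2)
    (F : K → X) (p : X) (hp : ∑ k, 𝒩.log p (F k) = 0) :
    ∑ k, dist (F k) p ^ 2 ≤ ∑ a, ∑ k, dist (F k) (F (k * s a)) ^ 2 := by
  let B := stdOrthonormalBasis ℝ V
  have hn : ∀ v : V, ‖v‖ ^ 2 = ∑ i, ⟪B i, v⟫ ^ 2 := fun v => (B.sum_sq_inner_right v).symm
  calc ∑ k, dist (F k) p ^ 2 = ∑ k, ∑ i, ⟪B i, 𝒩.log p (F k)⟫ ^ 2 :=
        Finset.sum_congr rfl fun k _ => by rw [← hn, 𝒩.norm_log, dist_comm]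
    _ = ∑ i, ∑ k, ⟪B i, 𝒩.log p (F k)⟫ ^ 2 := Finset.sum_comm
    _ ≤ ∑ i, ∑ a, ∑ k, (⟪B i, 𝒩.log p (F (k * s a))⟫ - ⟪B i, 𝒩.log p (F k)⟫) ^ 2 :=
        Finset.sum_le_sum fun i _ => hP (fun k => ⟪B i, 𝒩.log p (F k)⟫)
          (by rw [← inner_sum, hp, inner_zero_right])
    _ = ∑ a, ∑ k, ∑ i, (⟪B i, 𝒩.log p (F (k * s a))⟫ - ⟪B i, 𝒩.log p (F k)⟫) ^ 2 := by
        rw [Finset.sum_comm]
        exact Finset.sum_congr rfl fun a _ => Finset.sum_comm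
    _ ≤ _ := by
        refine Finset.sum_le_sum fun a _ => Finset.sum_le_sum fun k _ => ?_
        simp only [← inner_sub_right]
        rw [← hn, dist_comm]
        have l := 𝒩.lip p (F (k * s a)) (F k)
        gcongr

end Pool.Agent.P.MP_2d26dd_al
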