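import Pool.Agent.P.MP_2d26dd_al.C1
import Pool.Agent.P.MP_2d26dd_al.G3
import Pool.Agent.P.MP_2d26dd_al.A3

/-! The angle and Poincare inequalities for equivariant maps. -/

namespace Pool.Agent.P.MP_2d26dd_al

section

variable {G K Q : Type} [Group G] [Group K] [Group Q] [Fintype K] [Fintype Q]

/-- Right translation of functions on a finite quotient. -/
noncomputable def C2rho (π : G →* Q) : G →* (EuclideanSpace ℝ Q ≃ₗᵢ[ℝ] EuclideanSpace ℝ Q) where
  toFun g := LinearIsometryEquiv.piLpCongrLeft 2 ℝ ℝ (Equiv.mulRight (π g)).symm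
  map_one' := by
    ext v q
    change v (q * π 1) = v q
    rw [map_one, mul_one]
  map_mul' g h := by
    ext v q
    change v (q * π (g * h)) = v (q * π g * π h)
    rw [map_mul, mul_assoc]

theorem C2rho_apply (π : G →* Q) (g : G) (v : EuclideanSpace ℝ Q) (q : Q) :
    C2rho π g v q = v (q * π g) := rfl

/-- Extension by zero. -/
noncomputable def C2ext (j : K →* Q) (u : K → ℝ) : EuclideanSpace ℝ Q :=
  WithLp.toLp 2 (Function.extend j u 0)

variable {j : K →* Q} (hj : Function.Injective j)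

include hj

omit [Fintype K] [Fintype Q] in
theorem C2ext_in (u : K → ℝ) (k : K) : C2ext j u (j k) = u k := hj.extend_apply _ _ _

omit hj [Fintype K] [Fintype Q] in
theorem C2ext_out (u : K → ℝ) {q : Q} (h : q ∉ Set.range j) : C2ext j u q = 0 :=
  Function.extend_apply' _ _ _ h

omit [Fintype K] [Fintype Q] in
theorem C2ext_shift (u : K → ℝ) (s : K) (q : Q) :
    C2ext j u (q * j s) = C2ext j (fun k => u (k * s)) q := by
  by_cases h : q ∈ Set.range j
  · obtain ⟨k, rfl⟩ := h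
    rw [← map_mul, C2ext_in hj, C2ext_in hj]
  · rw [C2ext_out _ h, C2ext_out]
    rintro ⟨k, e⟩
    exact h ⟨k * s⁻¹, by rw [map_mul, e, map_inv, mul_inv_cancel_right]⟩

theorem C2ext_inner (u : K → ℝ) (v : EuclideanSpace ℝ Q) :
    inner ℝ (C2ext j u) v = ∑ k, u k * v (j k) := by
  rw [PiLp.inner_apply]
  refine (Fintype.sum_of_injective j hj _ _ (fun q h => ?_) fun k => ?_).symm
  · rw [C2ext_out _ h, inner_zero_left]
  · rw [C2ext_in hj]
    simp [mul_comm]

theorem C2ext_norm (u : K → ℝ) : ‖C2ext j u‖ ^ 2 = ∑ k, u k ^ 2 := by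
  rw [← real_inner_self_eq_norm_sq, C2ext_inner hj]
  exact Finset.sum_congr rfl fun k _ => by rw [C2ext_in hj, sq]

theorem C2ext_diff (π : G →* Q) (u : K → ℝ) {g : G} {s : K} (h : j s = π g) :
    ‖C2rho π g (C2ext j u) - C2ext j u‖ ^ 2 = ∑ k, (u (k * s) - u k) ^ 2 := by
  rw [EuclideanSpace.real_norm_sq_eq]
  refine (Fintype.sum_of_injective j hj _ _ (fun q hq => ?_) fun k => ?_).symm
  · rw [PiLp.sub_apply, C2rho_apply, ← h, C2ext_shift hj, C2ext_out _ hq, C2ext_out _ hq]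
    simp
  · rw [PiLp.sub_apply, C2rho_apply, ← h, ← map_mul, C2ext_in hj, C2ext_in hj]

end

section

variable {ι : Type} [DecidableEq ι] (Γ : Subgroup (AutF ι)) [Γ.Normal]

/-- The finite quotient of a block group inside the finite quotient of the whole group. -/
def C2j (C : Finset ι) : KB Γ C →* AutF ι ⧸ Γ :=
  QuotientGroup.map _ Γ (H C).subtype fun _ h => h

omit [DecidableEq ι] in
theorem C2j_mk (C : Finset ι) (h : H C) :
    C2j Γ C (QuotientGroup.mk h) = QuotientGroup.mk' Γ (h : AutF ι) := rfl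

omit [DecidableEq ι] in
theorem C2j_inj (C : Finset ι) : Function.Injective (C2j Γ C) := by
  refine (injective_iff_map_eq_one _).2 fun k hk => ?_
  obtain ⟨h, rfl⟩ := QuotientGroup.mk_surjective k
  exact (QuotientGroup.eq_one_iff _).2 ((QuotientGroup.eq_one_iff (h : AutF ι)).1 hk)

/-- The image of a smaller block group. -/
def C2K (B C : Finset ι) : Subgroup (KB Γ C) :=
  ((H B).subgroupOf (H C)).map (QuotientGroup.mk' _)

variable {Γ}

omit [DecidableEq ι] in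
theorem C2_fix [Fintype (AutF ι ⧸ Γ)] {B C : Finset ι} (hB : B ⊆ C) {u : KB Γ C → ℝ}
    (hu : ∀ k, ∀ h ∈ C2K Γ B C, u (k * h) = u k) :
    C2ext (C2j Γ C) u ∈ Fix (C2rho (QuotientGroup.mk' Γ)) B := fun h hh => by
  ext q
  rw [C2rho_apply, ← C2j_mk Γ C ⟨h, H_mono hB hh⟩, C2ext_shift (C2j_inj Γ C)]
  exact congrArg (fun w => C2ext (C2j Γ C) w q)
    (funext fun k => hu k _ ⟨⟨h, H_mono hB hh⟩, hh, rfl⟩)

omit [DecidableEq ι] in
theorem C2_perp [Fintype (AutF ι ⧸ Γ)] {C : Finset ι} [Fintype (KB Γ C)] {u : KB Γ C → ℝ}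
    (hu : ∑ k, u k = 0) : ∀ v ∈ Fix (C2rho (QuotientGroup.mk' Γ)) C,
      inner ℝ (C2ext (C2j Γ C) u) v = 0 := fun v hv => by
  have : ∀ k, v (C2j Γ C k) = v 1 := fun k => by
    obtain ⟨h, rfl⟩ := QuotientGroup.mk_surjective k
    rw [C2j_mk, ← one_mul (QuotientGroup.mk' Γ _), ← C2rho_apply, hv h h.2]
  simp only [C2ext_inner (C2j_inj Γ C), this, ← Finset.sum_mul, hu, zero_mul]

variable [Γ.FiniteIndex]

omit [DecidableEq ι] in
theorem C2_sum {M : Type} [AddCommMonoid M] {B C : Finset ι} (hB : B ⊆ C) [Fintype (C2K Γ B C)]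
    (f : KB Γ C → M) : ∑ h : C2K Γ B C, f h =
      ∑ᶠ k : KB Γ B, f (QuotientGroup.mk ⟨k.rep, H_mono hB k.rep_mem⟩) := by
  rw [← finsum_eq_sum_of_fintype]
  refine (finsum_eq_of_bijective (fun k : KB Γ B => (⟨QuotientGroup.mk
    ⟨k.rep, H_mono hB k.rep_mem⟩, ⟨k.rep, H_mono hB k.rep_mem⟩, k.rep_mem, rfl⟩ : C2K Γ B C))
    ⟨fun k k' e => ?_, ?_⟩ fun _ => rfl).symm
  · have := QuotientGroup.eq.1 (congrArg Subtype.val e)
    rw [← k.out_eq', ← k'.out_eq']
    exact QuotientGroup.eq.2 this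
  · rintro ⟨_, h, hh, rfl⟩
    refine ⟨QuotientGroup.mk ⟨h, hh⟩, Subtype.ext (QuotientGroup.eq.2 ?_)⟩
    have := QuotientGroup.eq.1 (QuotientGroup.out_eq' (QuotientGroup.mk ⟨h, hh⟩ : KB Γ B))
    exact this

omit [DecidableEq ι] in
theorem C2_rep {X : Type} [MetricSpace X] {act : Γ →* (X ≃ᵢ X)} {F : AutF ι → X}
    (hF : Equi act F) {C : Finset ι} {x : AutF ι} (hx : Null act x C) (k : KB Γ C) (h : H C) :
    F (x * KB.rep (k * QuotientGroup.mk h)) = F (x * k.rep * h) := by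
  have e : k * QuotientGroup.mk h = QuotientGroup.mk (k.out * h) := by
    rw [QuotientGroup.mk_mul, QuotientGroup.out_eq']
  rw [mul_assoc, e, hF.rep_eq hx]
  rfl

omit [DecidableEq ι] in
theorem C2_avg {A : AutF ι → Prop} {φ ψ : AutF ι → ℝ} {C : Finset ι} (hA : LInv Γ A)
    (hφ : LInv Γ φ) (hψ : LInv Γ ψ) (hC : RInv A (H C))
    (h : ∀ x, A x → ∑ᶠ k : KB Γ C, φ (x * k.rep) ≤ ∑ᶠ k : KB Γ C, ψ (x * k.rep)) :
    sumQ Γ A φ ≤ sumQ Γ A ψ := by
  have := sumQ_le (Γ := Γ) h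
  rw [sumQ_avg hA hφ hC, sumQ_avg hA hψ hC] at this
  exact le_of_mul_le_mul_left this (Nat.cast_pos.2 Nat.card_pos)

end

variable {ι : Type} [DecidableEq ι] {Γ : Subgroup (AutF ι)} [Γ.Normal] [Γ.FiniteIndex]
  {X V : Type} [MetricSpace X] [Nonempty X] [NormedAddCommGroup V] [InnerProductSpace ℝ V]
  (𝒩 : NPC X V) (act : Γ →* (X ≃ᵢ X)) [FiniteDimensional ℝ V]

theorem var_proj_near {B B' : Finset ι} (h1 : 10 ^ 18 ≤ (B ∩ B').card)
    (h2 : (B \ B').card ≤ 2 * (B ∩ B').card) (h3 : (B' \ B).card ≤ 2 * (B ∩ B').card)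
    {A : AutF ι → Prop} (hA : LInv Γ A) (hB : RInv A (H (B ∪ B')))
    (hn : ∀ x, A x → Null act x (B ∪ B')) {F : AutF ι → X} (hF : Equi act F)
    (hc : ConstOn A B F) : var 𝒩 act A B (proj 𝒩 act B' F) ≤ 1 / 16 * var 𝒩 act A B' F := by
  classical
  let _ := Fintype.ofFinite (AutF ι ⧸ Γ)
  let _ := Fintype.ofFinite (KB Γ (B ∪ B'))
  have hG := equi_proj 𝒩 act B' hF
  have hY := equi_proj 𝒩 act B hG
  have s1 : B ⊆ B ∪ B' := Finset.subset_union_left
  have s2 : B' ⊆ B ∪ B' := Finset.subset_union_right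
  rw [var, var, dd, dd, ← sumQ_mul]
  refine C2_avg hA (linv_dist hG hY)
    (fun γ x => congrArg (1 / 16 * ·) (linv_dist hF hG γ x)) hB fun x hx => ?_
  have hk : ∀ k : KB Γ (B ∪ B'), A (x * k.rep) := fun k => hB x _ k.rep_mem hx
  rw [finsum_eq_sum_of_fintype, finsum_eq_sum_of_fintype, ← Finset.mul_sum,
    show (1 / 16 : ℝ) = (1 / 4) ^ 2 by norm_num]
  refine local_angle 𝒩 (C2K Γ B (B ∪ B')) (C2K Γ B' (B ∪ B')) (by norm_num) (by norm_num)
    (fun u w hu hw h0 => ?_) (fun k => F (x * k.rep)) (fun k => proj 𝒩 act B' F (x * k.rep))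
    (fun k => proj 𝒩 act B (proj 𝒩 act B' F) (x * k.rep)) ?_ ?_ (fun k => ?_) ?_ fun k => ?_
  · have := angle (C2rho (QuotientGroup.mk' Γ)) B' B (by rwa [Finset.inter_comm])
      (by rwa [Finset.inter_comm]) (by rwa [Finset.inter_comm]) (C2_fix s2 hu) (C2_fix s1 hw)
      (by rw [Finset.union_comm B' B]; exact C2_perp h0)
    rw [← C2ext_norm (C2j_inj Γ _), ← C2ext_norm (C2j_inj Γ _), Real.sqrt_sq (norm_nonneg _),
      Real.sqrt_sq (norm_nonneg _)]
    refine le_trans (le_of_eq ?_) ((le_abs_self _).trans this)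
    rw [C2ext_inner (C2j_inj Γ _)]
    exact Finset.sum_congr rfl fun k _ => by rw [C2ext_in (C2j_inj Γ _)]
  · rintro k _ ⟨h, hh, rfl⟩
    exact (C2_rep hF (hn x hx) k h).trans (hc _ (hk k) _ hh)
  · rintro k _ ⟨h, hh, rfl⟩
    exact (C2_rep hG (hn x hx) k h).trans
      (constOn_proj 𝒩 act B' hF _ ((hn _ (hk k)).mono s2) _ hh)
  · refine (C2_sum s2 fun h => 𝒩.log (proj 𝒩 act B' F (x * k.rep))
      (F (x * KB.rep (k * h)))).trans ?_
    simp only [C2_rep hF (hn x hx)]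
    exact proj_spec 𝒩 act F ((hn _ (hk k)).mono s2)
  · rintro k _ ⟨h, hh, rfl⟩
    exact (C2_rep hY (hn x hx) k h).trans
      (constOn_proj 𝒩 act B hG _ ((hn _ (hk k)).mono s1) _ hh)
  · refine (C2_sum s1 fun h => 𝒩.log (proj 𝒩 act B (proj 𝒩 act B' F) (x * k.rep))
      (proj 𝒩 act B' F (x * KB.rep (k * h)))).trans ?_
    simp only [C2_rep hG (hn x hx)]
    exact proj_spec 𝒩 act _ ((hn _ (hk k)).mono s1)

theorem var_le_energyB {B : Finset ι} (h : 303 ≤ B.card) {F : AutF ι → X} (hF : Equi act F) :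
    var 𝒩 act (fun x => Null act x B) B F ≤ energyB Γ B F := by
  classical
  let _ := Fintype.ofFinite (AutF ι ⧸ Γ)
  let _ := Fintype.ofFinite (KB Γ B)
  obtain ⟨t, ht⟩ : B.Nonempty := Finset.card_pos.1 (by omega)
  have hG := equi_proj 𝒩 act B hF
  have d0 : ∀ g, 0 ≤ disp Γ (fun _ => True) F g := fun g => dd_nonneg _ _ _
  rw [var, dd]
  refine (C2_avg (ψ := fun x => ∑ a ∈ gens B, dist (F x) (F (x * tvi a)) ^ 2 +
    dist (F x) (F (x * inv t)) ^ 2) (linv_null act B) (linv_dist hF hG)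
    (fun γ x => by simp only [mul_assoc, hF γ, IsometryEquiv.dist_eq])
    (rinv_null act (Or.inl subset_rfl)) fun x hx => ?_).trans ?_
  · rw [finsum_eq_sum_of_fintype, finsum_eq_sum_of_fintype]
    have := local_poincare 𝒩 (K := KB Γ B) (S := Option (gens B))
      (fun a => a.elim (QuotientGroup.mk ⟨inv t, inv_mem_H ht⟩)
        fun a => QuotientGroup.mk ⟨tvi a, tvi_mem_H a.2⟩) (fun u h0 => ?_)
      (fun k => F (x * k.rep)) (proj 𝒩 act B F x)
      ((finsum_eq_sum_of_fintype _).symm.trans (proj_spec 𝒩 act F hx))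
    · rw [Fintype.sum_option] at this
      simp only [Option.elim, C2_rep hF hx] at this
      rw [Finset.sum_coe_sort (gens B) fun a => ∑ k : KB Γ B,
        dist (F (x * k.rep)) (F (x * k.rep * tvi a)) ^ 2, Finset.sum_comm, add_comm,
        ← Finset.sum_add_distrib] at this
      refine le_trans (le_of_eq (Finset.sum_congr rfl fun k _ => ?_)) this
      rw [constOn_proj 𝒩 act B hF x hx _ k.rep_mem]
    · have := poincare (C2rho (QuotientGroup.mk' Γ)) B h ht _ (C2_perp h0)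
      rw [C2ext_norm (C2j_inj Γ _), C2ext_diff (C2j_inj Γ _) _ u (C2j_mk Γ B ⟨_, inv_mem_H ht⟩),
        ← Finset.sum_coe_sort (gens B), add_comm] at this
      rw [Fintype.sum_option]
      refine this.trans (le_of_eq (congrArg₂ (· + ·) rfl (Finset.sum_congr rfl fun a _ => ?_)))
      exact C2ext_diff (C2j_inj Γ _) _ u (C2j_mk Γ B ⟨_, tvi_mem_H a.2⟩)
  · refine (sumQ_mono (A' := fun _ => True) (fun _ _ => trivial) fun x => by positivity).trans ?_
    rw [sumQ_add, sumQ_sum]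
    exact add_le_add le_rfl (Finset.single_le_sum (fun t _ => d0 (inv t)) ht)

end Pool.Agent.P.MP_2d26dd_al
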