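import Pool.Agent.P.MP_2d26dd_al.C2

/-! One round. -/

namespace Pool.Agent.P.MP_2d26dd_al

variable {ι : Type} [DecidableEq ι] {Γ : Subgroup (AutF ι)} [Γ.Normal] [Γ.FiniteIndex]
  {X V : Type} [MetricSpace X] [Nonempty X] [NormedAddCommGroup V] [InnerProductSpace ℝ V]
  (𝒩 : NPC X V) (act : Γ →* (X ≃ᵢ X)) [FiniteDimensional ℝ V] {Blk : ℕ → Finset ι} {k : ℕ}

omit [DecidableEq ι] [Γ.Normal] [Γ.FiniteIndex] [FiniteDimensional ℝ V] in
private theorem St_pos {π j : ℕ} (F : AutF ι → X) (h : j % 2 = π % 2) :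
    St 𝒩 act Blk π F (j + 1) = proj 𝒩 act (Blk j) (St 𝒩 act Blk π F j) := by
  rw [St, if_pos h]

omit [DecidableEq ι] [Γ.Normal] [Γ.FiniteIndex] [FiniteDimensional ℝ V] in
private theorem St_neg {π j : ℕ} (F : AutF ι → X) (h : j % 2 ≠ π % 2) :
    St 𝒩 act Blk π F (j + 1) = St 𝒩 act Blk π F j := by
  rw [St, if_neg h]

omit [FiniteDimensional ℝ V] in
private theorem sqrt_var_le {B : Finset ι} {A : AutF ι → Prop} (hA : LInv Γ A)
    (hB : RInv A (H B)) (hn : ∀ x, A x → Null act x B) {G G' : AutF ι → X} (hG : Equi act G)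
    (hG' : Equi act G') : Real.sqrt (var 𝒩 act A B G') ≤
      Real.sqrt (dd Γ A G' G) + Real.sqrt (var 𝒩 act A B G) :=
  (Real.sqrt_le_sqrt (var_le 𝒩 act hA hB hG' (equi_proj 𝒩 act B hG)
    fun x hx => constOn_proj 𝒩 act B hG x (hn x hx))).trans (dd_triangle A G' G _)

private theorem near_step {B B' : Finset ι} (h1 : 10 ^ 18 ≤ (B ∩ B').card)
    (h2 : (B \ B').card ≤ 2 * (B ∩ B').card) (h3 : (B' \ B).card ≤ 2 * (B ∩ B').card)
    {A : AutF ι → Prop} (hA : LInv Γ A) (hB : RInv A (H (B ∪ B')))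
    (hn : ∀ x, A x → Null act x (B ∪ B')) {G : AutF ι → X} (hG : Equi act G) :
    Real.sqrt (var 𝒩 act A B (proj 𝒩 act B' G)) ≤
      5 / 4 * Real.sqrt (var 𝒩 act A B G) + 1 / 4 * Real.sqrt (var 𝒩 act A B' G) := by
  have r1 : RInv A (H B) := fun x h hh => hB x h (H_mono Finset.subset_union_left hh)
  have r2 : RInv A (H B') := fun x h hh => hB x h (H_mono Finset.subset_union_right hh)
  have n1 : ∀ x, A x → Null act x B := fun x hx => (hn x hx).mono Finset.subset_union_left
  have n2 : ∀ x, A x → Null act x B' := fun x hx => (hn x hx).mono Finset.subset_union_right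
  have hY := equi_proj 𝒩 act B hG
  have e1 := sqrt_var_le 𝒩 act hA r1 n1 (equi_proj 𝒩 act B' hY) (equi_proj 𝒩 act B' hG)
  have e2 : Real.sqrt (dd Γ A (proj 𝒩 act B' G) (proj 𝒩 act B' (proj 𝒩 act B G))) ≤
      Real.sqrt (var 𝒩 act A B G) := Real.sqrt_le_sqrt (proj_lip 𝒩 act hA r2 hG hY)
  have e3 := Real.sqrt_le_sqrt (var_proj_near 𝒩 act h1 h2 h3 hA hB hn hY
    fun x hx => constOn_proj 𝒩 act B hG x (n1 x hx))
  have e4 : Real.sqrt (1 / 16 * var 𝒩 act A B' (proj 𝒩 act B G)) =
      1 / 4 * Real.sqrt (var 𝒩 act A B' (proj 𝒩 act B G)) := by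
    rw [Real.sqrt_mul (by norm_num), show (1 / 16 : ℝ) = (1 / 4) ^ 2 by norm_num,
      Real.sqrt_sq (by norm_num)]
  have e5 := sqrt_var_le 𝒩 act hA r2 n2 hG hY
  have e6 : dd Γ A (proj 𝒩 act B G) G = var 𝒩 act A B G := dd_comm _ _ _
  rw [e6] at e5
  linarith

omit [FiniteDimensional ℝ V] in
private theorem equi_St' (π : ℕ) {F : AutF ι → X} (hF : Equi act F) (j : ℕ) :
    Equi act (St 𝒩 act Blk π F j) := by
  induction j with
  | zero => exact hF
  | succ j ih =>
    by_cases h : j % 2 = π % 2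
    · rw [St_pos 𝒩 act F h]; exact equi_proj 𝒩 act _ ih
    · rw [St_neg 𝒩 act F h]; exact ih

omit [FiniteDimensional ℝ V] in
private theorem far_step (hC : Chain Blk k) (π : ℕ) {F : AutF ι → X} (hF : Equi act F) {i m : ℕ}
    (hi : i < k) (hm : m < k) (h : m % 2 = π % 2 → m + 2 ≤ i ∨ i + 2 ≤ m) {W : Finset ι}
    (hW : Aligned Blk k π W) (hiW : Blk i ⊆ W) :
    var 𝒩 act (fun x => Null act x W) (Blk i) (St 𝒩 act Blk π F (m + 1)) ≤
      var 𝒩 act (fun x => Null act x W) (Blk i) (St 𝒩 act Blk π F m) := by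
  by_cases hπ : m % 2 = π % 2
  · have hd : Disjoint (Blk m) (Blk i) := by
      rcases h hπ with h | h
      · exact hC.far _ _ h hi
      · exact (hC.far _ _ h hm).symm
    rw [St_pos 𝒩 act F hπ]
    exact var_proj_far 𝒩 act hd (linv_null act W) (rinv_null act (hW m hm hπ))
      (rinv_null act (Or.inl hiW)) (fun x hx => hx.mono hiW) (equi_St' 𝒩 act π hF m)
  · rw [St_neg 𝒩 act F hπ]

theorem equi_St (π : ℕ) {F : AutF ι → X} (hF : Equi act F) (j : ℕ) :
    Equi act (St 𝒩 act Blk π F j) := by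
  exact equi_St' 𝒩 act π hF j

theorem constOn_St (hC : Chain Blk k) (π : ℕ) {F : AutF ι → X} (hF : Equi act F) {j : ℕ}
    (hj : j < k) (hπ : j % 2 = π % 2) :
    ConstOn (fun x => Null act x (Blk j)) (Blk j) (St 𝒩 act Blk π F k) := by
  have key : ∀ m, j + 1 ≤ m → m ≤ k →
      ConstOn (fun x => Null act x (Blk j)) (Blk j) (St 𝒩 act Blk π F m) := by
    intro m hm
    induction m, hm using Nat.le_induction with
    | base =>
      intro _
      rw [St_pos 𝒩 act F hπ]
      exact constOn_proj 𝒩 act _ (equi_St 𝒩 act π hF j)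
    | succ m hm ih =>
      intro hk
      by_cases h : m % 2 = π % 2
      · have hd : Disjoint (Blk m) (Blk j) := (hC.far j m (by omega) (by omega)).symm
        rw [St_pos 𝒩 act F h]
        exact constOn_proj_far 𝒩 act hd (rinv_null act (Or.inr hd)) (ih (by omega))
      · rw [St_neg 𝒩 act F h]; exact ih (by omega)
  exact key k hj le_rfl

theorem stepD_le (hC : Chain Blk k) (π : ℕ) {F : AutF ι → X} (hF : Equi act F) {j : ℕ}
    (hj : j < k) (hπ : j % 2 = π % 2) {W : Finset ι} (hW : Aligned Blk k π W) (hjW : Blk j ⊆ W) :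
    stepD 𝒩 act Blk π F (fun x => Null act x W) j ≤
      var 𝒩 act (fun x => Null act x W) (Blk j) F := by
  have key : ∀ m, m ≤ j → var 𝒩 act (fun x => Null act x W) (Blk j) (St 𝒩 act Blk π F m) ≤
      var 𝒩 act (fun x => Null act x W) (Blk j) F := by
    intro m
    induction m with
    | zero => exact fun _ => le_rfl
    | succ m ih =>
      intro hm
      exact (far_step 𝒩 act hC π hF hj (by omega) (by omega) hW hjW).trans (ih (by omega))
  rw [stepD, St_pos 𝒩 act F hπ]
  exact key j le_rfl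

theorem var_round (hC : Chain Blk k) (π : ℕ) {F : AutF ι → X} (hF : Equi act F) {i : ℕ}
    (hi : i < k) (hπ : i % 2 ≠ π % 2) {W : Finset ι} (hW : Aligned Blk k π W)
    (hiW : ∀ j, j < k → j ≤ i + 1 → i ≤ j + 1 → Blk j ⊆ W) :
    var 𝒩 act (fun x => Null act x W) (Blk i) (St 𝒩 act Blk π F k) ≤
      3 * (var 𝒩 act (fun x => Null act x W) (Blk i) F +
        ∑ j ∈ (Finset.range k).filter (fun j => j + 1 = i ∨ j = i + 1),
          stepD 𝒩 act Blk π F (fun x => Null act x W) j) := by
  have hi' := hiW i hi (by omega) (by omega)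
  have key : ∀ m, m ≤ k →
      Real.sqrt (var 𝒩 act (fun x => Null act x W) (Blk i) (St 𝒩 act Blk π F m)) ≤
        Real.sqrt (var 𝒩 act (fun x => Null act x W) (Blk i) F) +
        ∑ j ∈ (Finset.range m).filter (fun j => j + 1 = i ∨ j = i + 1),
          Real.sqrt (stepD 𝒩 act Blk π F (fun x => Null act x W) j) := by
    intro m
    induction m with
    | zero => intro _; simp [St]
    | succ m ih =>
      intro hm
      have ih' := ih (by omega)
      rw [Finset.sum_filter] at ih' ⊢
      rw [Finset.sum_range_succ]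
      by_cases h : m + 1 = i ∨ m = i + 1
      · have e := sqrt_var_le 𝒩 act (linv_null act W) (rinv_null act (Or.inl hi'))
          (fun x hx => hx.mono hi') (equi_St 𝒩 act (Blk := Blk) π hF m)
          (equi_St 𝒩 act (Blk := Blk) π hF (m + 1))
        rw [dd_comm] at e
        rw [if_pos h, stepD]
        linarith
      · have e := Real.sqrt_le_sqrt
          (far_step 𝒩 act hC π hF hi (show m < k by omega) (by omega) hW hi')
        rw [if_neg h]
        linarith
  have h1 := key k le_rfl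
  have hc : (((Finset.range k).filter fun j => j + 1 = i ∨ j = i + 1).card : ℝ) ≤ 2 := by
    have : ((Finset.range k).filter fun j => j + 1 = i ∨ j = i + 1) ⊆ {i - 1, i + 1} := by
      intro j hj
      have := (Finset.mem_filter.1 hj).2
      simp only [Finset.mem_insert, Finset.mem_singleton]
      omega
    exact_mod_cast (Finset.card_le_card this).trans Finset.card_le_two
  have h2 := sq_sum_le_card_mul_sum_sq (s := (Finset.range k).filter fun j => j + 1 = i ∨ j = i + 1)
    (f := fun j => Real.sqrt (stepD 𝒩 act Blk π F (fun x => Null act x W) j))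
  have hs : ∀ j, 0 ≤ stepD 𝒩 act Blk π F (fun x => Null act x W) j := fun j => dd_nonneg _ _ _
  simp only [Real.sq_sqrt (hs _)] at h2
  have h3 := Finset.sum_nonneg (s := (Finset.range k).filter fun j => j + 1 = i ∨ j = i + 1)
    fun j _ => hs j
  have h4 := mul_le_mul_of_nonneg_right hc h3
  have h5 : 0 ≤ var 𝒩 act (fun x => Null act x W) (Blk i) F := dd_nonneg _ _ _
  have h6 : 0 ≤ var 𝒩 act (fun x => Null act x W) (Blk i) (St 𝒩 act Blk π F k) :=
    dd_nonneg _ _ _
  have h7 := pow_le_pow_left₀ (Real.sqrt_nonneg _) h1 2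
  rw [Real.sq_sqrt h6] at h7
  have h8 := Real.sq_sqrt h5
  nlinarith [sq_nonneg (2 * Real.sqrt (var 𝒩 act (fun x => Null act x W) (Blk i) F) -
    ∑ j ∈ (Finset.range k).filter (fun j => j + 1 = i ∨ j = i + 1),
      Real.sqrt (stepD 𝒩 act Blk π F (fun x => Null act x W) j))]

theorem var_round_const (hC : Chain Blk k) (π : ℕ) {F : AutF ι → X} (hF : Equi act F) {i : ℕ}
    (hi : i < k) (hπ : i % 2 ≠ π % 2) {W : Finset ι} (hW : Aligned Blk k π W)
    (hiW : ∀ j, j < k → j ≤ i + 1 → i ≤ j + 1 → Blk j ⊆ W)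
    (hc : ConstOn (fun x => Null act x W) (Blk i) F) :
    var 𝒩 act (fun x => Null act x W) (Blk i) (St 𝒩 act Blk π F k) ≤
      1 / 4 * ∑ j ∈ (Finset.range k).filter (fun j => j + 1 = i ∨ j = i + 1),
          stepD 𝒩 act Blk π F (fun x => Null act x W) j := by
  have hi' := hiW i hi (by omega) (by omega)
  have hs : ∀ j, 0 ≤ stepD 𝒩 act Blk π F (fun x => Null act x W) j := fun j => dd_nonneg _ _ _
  obtain ⟨σ, hσ⟩ : ∃ σ : ℕ → ℝ, ∀ m, σ m =
      ∑ j ∈ (Finset.range m).filter (fun j => j + 1 = i ∨ j = i + 1),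
        stepD 𝒩 act Blk π F (fun x => Null act x W) j := ⟨_, fun _ => rfl⟩
  have σ0 : ∀ m, 0 ≤ σ m := fun m => hσ m ▸ Finset.sum_nonneg fun j _ => hs j
  have σ1 : ∀ m, m + 1 = i ∨ m = i + 1 →
      σ (m + 1) = σ m + stepD 𝒩 act Blk π F (fun x => Null act x W) m := fun m h => by
    rw [hσ, hσ, Finset.sum_filter, Finset.sum_filter, Finset.sum_range_succ, if_pos h]
  have σ2 : ∀ m, ¬ (m + 1 = i ∨ m = i + 1) → σ (m + 1) = σ m := fun m h => by
    rw [hσ, hσ, Finset.sum_filter, Finset.sum_filter, Finset.sum_range_succ, if_neg h, add_zero]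
  have k1 : ∀ m, m ≤ i - 1 → ConstOn (fun x => Null act x W) (Blk i) (St 𝒩 act Blk π F m) := by
    intro m
    induction m with
    | zero => exact fun _ => hc
    | succ m ih =>
      intro hm
      by_cases h : m % 2 = π % 2
      · rw [St_pos 𝒩 act F h]
        exact constOn_proj_far 𝒩 act (hC.far m i (by omega) hi)
          (rinv_null act (hW m (by omega) h)) (ih (by omega))
      · rw [St_neg 𝒩 act F h]; exact ih (by omega)
  have k2 : var 𝒩 act (fun x => Null act x W) (Blk i) (St 𝒩 act Blk π F i) ≤ 1 / 16 * σ i := by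
    rcases i with _ | i
    · have e := var_le 𝒩 act (linv_null act W) (rinv_null act (Or.inl hi')) hF hF hc
      have e0 : dd Γ (fun x => Null act x W) F F = 0 := by simp [dd, sumQ]
      have := σ0 0
      change var 𝒩 act _ _ F ≤ _
      linarith
    · have hp : i % 2 = π % 2 := by omega
      have hu := Finset.union_subset hi' (hiW i (by omega) (by omega) (by omega))
      have e := var_proj_near 𝒩 act (B := Blk (i + 1)) (B' := Blk i)
        (by rw [Finset.inter_comm]; exact hC.big i hi)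
        (by rw [Finset.inter_comm]; exact hC.right i hi)
        (by rw [Finset.inter_comm]; exact hC.left i hi) (linv_null act W) (rinv_null act (Or.inl hu))
        (fun x hx => hx.mono hu) (equi_St 𝒩 act (Blk := Blk) π hF i) (k1 i (by omega))
      have := σ0 i
      rw [σ1 i (Or.inl rfl), stepD, St_pos 𝒩 act F hp]
      rw [var] at e
      rw [var]
      have e' : var 𝒩 act (fun x => Null act x W) (Blk i) (St 𝒩 act Blk π F i) =
        dd Γ (fun x => Null act x W) (St 𝒩 act Blk π F i)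
          (proj 𝒩 act (Blk i) (St 𝒩 act Blk π F i)) := rfl
      linarith
  have k3 : var 𝒩 act (fun x => Null act x W) (Blk i) (St 𝒩 act Blk π F (i + 1)) ≤
      1 / 16 * σ (i + 1) := by
    rw [St_neg 𝒩 act F hπ, σ2 i (by omega)]; exact k2
  have k4 : ∀ m, i + 1 ≤ m → m ≤ k →
      var 𝒩 act (fun x => Null act x W) (Blk i) (St 𝒩 act Blk π F m) ≤ 1 / 4 * σ m := by
    intro m hm
    induction m, hm using Nat.le_induction with
    | base => intro _; have := σ0 (i + 1); linarith
    | succ m hm ih =>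
      intro hk
      by_cases h : m = i + 1
      · subst h
        have hp : (i + 1) % 2 = π % 2 := by omega
        have hu := Finset.union_subset hi' (hiW (i + 1) (by omega) (by omega) (by omega))
        have e := near_step 𝒩 act (hC.big i hk) (hC.left i hk) (hC.right i hk) (linv_null act W)
          (rinv_null act (Or.inl hu)) (fun x hx => hx.mono hu)
          (equi_St 𝒩 act (Blk := Blk) π hF (i + 1))
        have e' : stepD 𝒩 act Blk π F (fun x => Null act x W) (i + 1) =
            var 𝒩 act (fun x => Null act x W) (Blk (i + 1)) (St 𝒩 act Blk π F (i + 1)) := by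
          rw [stepD, St_pos 𝒩 act F hp, var]
        rw [σ1 _ (Or.inr rfl), St_pos 𝒩 act F hp, e']
        have h5 : 0 ≤ var 𝒩 act (fun x => Null act x W) (Blk i) (St 𝒩 act Blk π F (i + 1)) :=
          dd_nonneg _ _ _
        have h6 : 0 ≤ var 𝒩 act (fun x => Null act x W) (Blk (i + 1))
          (St 𝒩 act Blk π F (i + 1)) := dd_nonneg _ _ _
        have h7 : 0 ≤ var 𝒩 act (fun x => Null act x W) (Blk i)
          (proj 𝒩 act (Blk (i + 1)) (St 𝒩 act Blk π F (i + 1))) := dd_nonneg _ _ _
        have h8 := pow_le_pow_left₀ (Real.sqrt_nonneg _) e 2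
        rw [Real.sq_sqrt h7] at h8
        have h9 := Real.sq_sqrt h5
        have h10 := Real.sq_sqrt h6
        nlinarith [sq_nonneg (Real.sqrt (var 𝒩 act (fun x => Null act x W) (Blk (i + 1))
          (St 𝒩 act Blk π F (i + 1))) - 2 * Real.sqrt (var 𝒩 act (fun x => Null act x W) (Blk i)
          (St 𝒩 act Blk π F (i + 1))))]
      · rw [σ2 m (by omega)]
        exact (far_step 𝒩 act hC π hF hi (by omega) (by omega) hW hi').trans (ih (by omega))
  rw [← hσ]
  exact k4 k hi le_rfl

end Pool.Agent.P.MP_2d26dd_al
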