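import Pool.Agent.P.MP_2d26dd_al.C3

/-! Windows. -/

namespace Pool.Agent.P.MP_2d26dd_al

variable {n r : ℕ}

theorem c4_mem {j d : ℕ} {e : Fin n} :
    e ∈ Win n r j d ↔ j ≤ seg n r e + d ∧ seg n r e ≤ j + 1 + d := by
  simp [Win]

theorem c4_hi (hr : 0 < r) {S : Finset (Fin n)} {a b : ℕ}
    (h : ∀ e ∈ S, a ≤ seg n r e ∧ seg n r e ≤ b) : S.card ≤ (b + 2 - a) * r := by
  rw [Nat.sub_mul, ← Nat.card_Ico]
  refine Finset.card_le_card_of_injOn Fin.val (fun e he => ?_) Fin.val_injective.injOn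
  obtain ⟨h1, h2⟩ := h e he
  unfold seg at h1 h2
  refine Finset.mem_coe.2 (Finset.mem_Ico.2
    ⟨(Nat.le_div_iff_mul_le hr).1 (h1.trans (min_le_left _ _)), ?_⟩)
  refine (Nat.div_lt_iff_lt_mul hr).1 ?_
  have h3 : (e : ℕ) / r ≤ n / r := Nat.div_le_div_right e.2.le
  omega

theorem c4_lo (hr : 0 < r) {S : Finset (Fin n)} {s : ℕ} (hs : s < n / r)
    (h : ∀ e, seg n r e = s → e ∈ S) : r ≤ S.card := by
  have h1 : (s + 1) * r ≤ n := (Nat.le_div_iff_mul_le hr).1 hs
  have h2 : ∀ t : Fin r, s * r + t < n := fun t => by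
    have := t.2
    rw [Nat.add_mul, one_mul] at h1
    omega
  have h3 := Finset.card_le_card_of_injOn (s := (Finset.univ : Finset (Fin r))) (t := S)
    (fun t => ⟨s * r + t, h2 t⟩) (fun t _ => Finset.mem_coe.2 (h _ (by
      have e : (s * r + t) / r = s := by
        rw [mul_comm, Nat.mul_add_div hr, Nat.div_eq_of_lt t.2, add_zero]
      change min ((s * r + t) / r) (n / r - 1) = s
      omega))) (fun t _ t' _ e => Fin.ext (by
      have := congrArg Fin.val e
      simp only at this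
      omega))
  simpa using h3

theorem chain_win (hr : 10 ^ 18 ≤ r) (hn : 3 * r ≤ n) :
    Chain (fun j => Win n r j 0) (n / r - 1) := by
  have hr0 : 0 < r := lt_of_lt_of_le (by norm_num) hr
  have big : ∀ i, i + 1 < n / r - 1 → r ≤ (Win n r i 0 ∩ Win n r (i + 1) 0).card := fun i hi =>
    c4_lo hr0 (s := i + 1) (by omega) fun e he =>
      Finset.mem_inter.2 ⟨c4_mem.2 (by omega), c4_mem.2 (by omega)⟩
  refine ⟨fun i j hij _ => Finset.disjoint_left.2 fun e h1 h2 => ?_,
    fun i hi => hr.trans (big i hi), fun i hi => ?_, fun i hi => ?_, fun i hi => ?_⟩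
  · rw [c4_mem] at h1 h2
    omega
  · have h1 := big i hi
    have h2 := c4_hi hr0 (S := Win n r i 0 \ Win n r (i + 1) 0) (a := i) (b := i) fun e he => by
      rw [Finset.mem_sdiff, c4_mem, c4_mem] at he
      omega
    rw [Nat.add_sub_cancel_left] at h2
    omega
  · have h1 := big i hi
    have h2 := c4_hi hr0 (S := Win n r (i + 1) 0 \ Win n r i 0) (a := i + 2) (b := i + 2)
      fun e he => by
        rw [Finset.mem_sdiff, c4_mem, c4_mem] at he
        omega
    rw [Nat.add_sub_cancel_left] at h2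
    omega
  · have h1 := c4_lo hr0 (S := Win n r i 0) (s := i) (by omega) fun e he => c4_mem.2 (by omega)
    exact le_trans (le_trans (by norm_num) hr) h1

theorem aligned_win (j t π : ℕ) (h : j % 2 = π % 2) :
    Aligned (fun j => Win n r j 0) (n / r - 1) π (Win n r j (2 * t)) := by
  intro i _ hi
  by_cases hc : j ≤ i + 2 * t ∧ i ≤ j + 2 * t
  · refine Or.inl fun e he => ?_
    rw [c4_mem] at he ⊢
    omega
  · refine Or.inr (Finset.disjoint_left.2 fun e h1 h2 => ?_)
    rw [c4_mem] at h1 h2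
    omega

theorem aligned_win_odd (i t π : ℕ) (h : i % 2 ≠ π % 2) :
    Aligned (fun j => Win n r j 0) (n / r - 1) π (Win n r i (2 * t + 1)) := by
  intro j _ hj
  by_cases hc : i ≤ j + (2 * t + 1) ∧ j ≤ i + (2 * t + 1)
  · refine Or.inl fun e he => ?_
    rw [c4_mem] at he ⊢
    omega
  · refine Or.inr (Finset.disjoint_left.2 fun e h1 h2 => ?_)
    rw [c4_mem] at h1 h2
    omega

theorem win_subset {i j d d' : ℕ} (h1 : i + d ≤ j + d') (h2 : j + d ≤ i + d') :
    Win n r j d ⊆ Win n r i d' := by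
  intro e he
  rw [c4_mem] at he ⊢
  omega

theorem card_win (hr : 0 < r) (j d : ℕ) : (Win n r j d).card ≤ (2 * d + 3) * r := by
  refine (c4_hi hr (a := j - d) (b := j + 1 + d) fun e he => ?_).trans
    (Nat.mul_le_mul_right r (by omega))
  rw [c4_mem] at he
  omega

theorem c4_two {κ : Type} [Fintype κ] [DecidableEq κ] (m : ℕ) (S : ℕ → Finset κ) (g : κ → ℕ)
    (hg : ∀ j, ∀ a ∈ S j, j ≤ g a ∧ g a ≤ j + 1) (f : κ → ℝ) (hf : ∀ a, 0 ≤ f a) :
    ∑ j ∈ Finset.range m, ∑ a ∈ S j, f a ≤ 2 * ∑ a, f a := by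
  have e : ∀ j, ∑ a ∈ S j, f a = ∑ a, if a ∈ S j then f a else 0 := fun j => by
    rw [Finset.sum_ite_mem, Finset.univ_inter]
  rw [Finset.sum_congr rfl fun j _ => e j, Finset.sum_comm, Finset.mul_sum]
  refine Finset.sum_le_sum fun a _ => ?_
  rw [← Finset.sum_filter, Finset.sum_const, nsmul_eq_mul]
  refine mul_le_mul_of_nonneg_right ?_ (hf a)
  have h1 : ((Finset.range m).filter fun j => a ∈ S j) ⊆ {g a - 1, g a} := fun j hj => by
    have := hg j a (Finset.mem_filter.1 hj).2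
    rw [Finset.mem_insert, Finset.mem_singleton]
    omega
  exact_mod_cast (Finset.card_le_card h1).trans Finset.card_le_two

theorem sum_energyB_le {Γ : Subgroup (AutF (Fin n))} [Γ.Normal] [Γ.FiniteIndex] {X : Type}
    [MetricSpace X] (F : AutF (Fin n) → X) :
    ∑ j ∈ Finset.range (n / r - 1), energyB Γ (Win n r j 0) F ≤ 2 * energy Γ F := by
  unfold energyB energy
  rw [Finset.sum_add_distrib, Fintype.sum_sum_type, mul_add]
  exact add_le_add
    (c4_two _ (fun j => gens (Win n r j 0)) (fun a => seg n r a.1)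
      (fun _ _ ha => c4_mem.1 (mem_gens.1 ha).1) _ fun _ => dd_nonneg _ _ _)
    (c4_two _ (fun j => Win n r j 0) (seg n r) (fun _ _ ha => c4_mem.1 ha) _
      fun _ => dd_nonneg _ _ _)

theorem c4_succ (hr : 0 < r) {a b : ℕ} (h : a + 1 = b) : a / r ≤ b / r ∧ b / r ≤ a / r + 1 := by
  refine ⟨Nat.div_le_div_right (by omega), ?_⟩
  rw [← Nat.add_div_right a hr]
  exact Nat.div_le_div_right (by omega)

theorem adjacent_mem_win (hr : 0 < r) (hn : 3 * r ≤ n) {a b : Fin n} (h : (a : ℕ) + 1 = b) :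
    ∃ j, j < n / r - 1 ∧ a ∈ Win n r j 0 ∧ b ∈ Win n r j 0 := by
  have h1 := c4_succ hr h
  have h2 : 3 ≤ n / r := (Nat.le_div_iff_mul_le hr).2 hn
  refine ⟨min (a / r) (n / r - 2), by omega, c4_mem.2 ?_, c4_mem.2 ?_⟩
  · unfold seg
    omega
  · unfold seg
    omega

theorem mem_win_succ (hr : 0 < r) {a b : Fin n} {j d : ℕ} (h : (a : ℕ) + 1 = b ∨ (b : ℕ) + 1 = a)
    (ha : a ∈ Win n r j d) : b ∈ Win n r j (d + 1) := by
  rw [c4_mem] at ha ⊢
  unfold seg at ha ⊢
  rcases h with h | h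
  · have := c4_succ hr h
    omega
  · have := c4_succ hr h
    omega

end Pool.Agent.P.MP_2d26dd_al
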