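import Pool.Agent.P.MP_2d26dd_al.C4

/-! Contraction with finite propagation. -/

namespace Pool.Agent.P.MP_2d26dd_al

variable {n r : ℕ} {Γ : Subgroup (AutF (Fin n))} [Γ.Normal] [Γ.FiniteIndex]
  {X V : Type} [MetricSpace X] [Nonempty X] [NormedAddCommGroup V] [InnerProductSpace ℝ V]
  [FiniteDimensional ℝ V] (𝒩 : NPC X V) (act : Γ →* (X ≃ᵢ X))

theorem equi_rounds (Blk : ℕ → Finset (Fin n)) (k : ℕ) {F : AutF (Fin n) → X} (hF : Equi act F)
    (T : ℕ) : Equi act (rounds 𝒩 act Blk k F T) := by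
  induction T with
  | zero => exact hF
  | succ t ih => exact equi_St 𝒩 act t ih k

private theorem c5_dbl (k π : ℕ) (g : ℕ → ℝ) (hg : ∀ j, 0 ≤ g j) :
    ∑ i ∈ (Finset.range k).filter (fun i => i % 2 = (π + 1) % 2),
        ∑ j ∈ (Finset.range k).filter (fun j => j + 1 = i ∨ j = i + 1), g j ≤
      2 * ∑ j ∈ (Finset.range k).filter (fun j => j % 2 = π % 2), g j := by
  rw [Finset.sum_comm' (t' := (Finset.range k).filter (fun j => j % 2 = π % 2))
    (s' := fun j => (Finset.range k).filter (fun i => j + 1 = i ∨ j = i + 1))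
    (h := by
      intro i j
      simp only [Finset.mem_filter, Finset.mem_range]
      omega), Finset.mul_sum]
  refine Finset.sum_le_sum fun j _ => ?_
  rw [Finset.sum_const, nsmul_eq_mul]
  refine mul_le_mul_of_nonneg_right ?_ (hg j)
  have h1 : (Finset.range k).filter (fun i => j + 1 = i ∨ j = i + 1) ⊆ {j + 1, j - 1} := by
    intro i hi
    simp only [Finset.mem_filter, Finset.mem_range] at hi
    simp only [Finset.mem_insert, Finset.mem_singleton]
    omega
  have h2 := (Finset.card_le_card h1).trans Finset.card_le_two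
  exact_mod_cast h2

private theorem c5_dd_mono {W W' : Finset (Fin n)} (h : W ⊆ W') (F F' : AutF (Fin n) → X) :
    dd Γ (fun x => Null act x W') F F' ≤ dd Γ (fun x => Null act x W) F F' :=
  sumQ_mono (fun _ hx => Null.mono h hx) fun _ => sq_nonneg _

private theorem c5_energyB_nonneg (B : Finset (Fin n)) (F : AutF (Fin n) → X) :
    0 ≤ energyB Γ B F :=
  add_nonneg (Finset.sum_nonneg fun _ _ => dd_nonneg _ _ _)
    (Finset.sum_nonneg fun _ _ => dd_nonneg _ _ _)

private theorem c5_energy_nonneg (F : AutF (Fin n) → X) : 0 ≤ energy Γ F :=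
  Finset.sum_nonneg fun _ _ => dd_nonneg _ _ _

private theorem c5_var_le (hr : 10 ^ 18 ≤ r) (hn : 3 * r ≤ n) {F : AutF (Fin n) → X}
    (hF : Equi act F) {j : ℕ} (hj : j < n / r - 1) (d : ℕ) :
    var 𝒩 act (fun x => Null act x (Win n r j d)) (Win n r j 0) F ≤
      energyB Γ (Win n r j 0) F :=
  (c5_dd_mono act (win_subset (by omega) (by omega)) _ _).trans
    (var_le_energyB 𝒩 act ((chain_win hr hn).card j hj) hF)

private theorem c5_sumE (F : AutF (Fin n) → X) (π : ℕ) :
    ∑ j ∈ (Finset.range (n / r - 1)).filter (fun j => j % 2 = π % 2),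
      energyB Γ (Win n r j 0) F ≤ 2 * energy Γ F :=
  (Finset.sum_le_sum_of_subset_of_nonneg (Finset.filter_subset _ _)
    fun _ _ _ => c5_energyB_nonneg _ _).trans (sum_energyB_le F)

/-- The total variance before round `t`. -/
private noncomputable def c5U (r : ℕ) (F : AutF (Fin n) → X) (t : ℕ) : ℝ :=
  ∑ j ∈ (Finset.range (n / r - 1)).filter (fun j => j % 2 = t % 2),
    var 𝒩 act (fun x => Null act x (Win n r j (2 * t))) (Win n r j 0)
      (rounds 𝒩 act (fun j => Win n r j 0) (n / r - 1) F t)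

/-- The total displacement in round `t`. -/
private noncomputable def c5D (r : ℕ) (F : AutF (Fin n) → X) (t : ℕ) : ℝ :=
  ∑ j ∈ (Finset.range (n / r - 1)).filter (fun j => j % 2 = t % 2),
    stepD 𝒩 act (fun j => Win n r j 0) t (rounds 𝒩 act (fun j => Win n r j 0) (n / r - 1) F t)
      (fun x => Null act x (Win n r j (2 * t))) j

private theorem c5_D_le_U (hr : 10 ^ 18 ≤ r) (hn : 3 * r ≤ n) {F : AutF (Fin n) → X}
    (hF : Equi act F) (t : ℕ) : c5D 𝒩 act r F t ≤ c5U 𝒩 act r F t := by
  refine Finset.sum_le_sum fun j hj => ?_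
  obtain ⟨hj1, hj2⟩ := Finset.mem_filter.1 hj
  exact stepD_le 𝒩 act (chain_win hr hn) t (equi_rounds 𝒩 act _ _ hF t)
    (Finset.mem_range.1 hj1) hj2 (aligned_win j t t hj2) (win_subset (by omega) (by omega))

private theorem c5_nbr {F : AutF (Fin n) → X} (t : ℕ) :
    ∑ i ∈ (Finset.range (n / r - 1)).filter (fun i => i % 2 = (t + 1) % 2),
      ∑ j ∈ (Finset.range (n / r - 1)).filter (fun j => j + 1 = i ∨ j = i + 1),
        stepD 𝒩 act (fun j => Win n r j 0) t
          (rounds 𝒩 act (fun j => Win n r j 0) (n / r - 1) F t)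
          (fun x => Null act x (Win n r i (2 * t + 1))) j ≤ 2 * c5D 𝒩 act r F t := by
  refine le_trans ?_ (c5_dbl (n / r - 1) t
    (fun j => stepD 𝒩 act (fun j => Win n r j 0) t
      (rounds 𝒩 act (fun j => Win n r j 0) (n / r - 1) F t)
      (fun x => Null act x (Win n r j (2 * t))) j) fun _ => dd_nonneg _ _ _)
  refine Finset.sum_le_sum fun i _ => Finset.sum_le_sum fun j hj => ?_
  obtain ⟨-, hj2⟩ := Finset.mem_filter.1 hj
  exact c5_dd_mono act (win_subset (by omega) (by omega)) _ _

private theorem c5_U0 (hr : 10 ^ 18 ≤ r) (hn : 3 * r ≤ n) {F : AutF (Fin n) → X}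
    (hF : Equi act F) : c5U 𝒩 act r F 0 ≤ 2 * energy Γ F := by
  refine le_trans (Finset.sum_le_sum fun j hj => ?_) (c5_sumE (r := r) F 0)
  exact c5_var_le 𝒩 act hr hn hF (Finset.mem_range.1 (Finset.mem_filter.1 hj).1) _

private theorem c5_U1 (hr : 10 ^ 18 ≤ r) (hn : 3 * r ≤ n) {F : AutF (Fin n) → X}
    (hF : Equi act F) : c5U 𝒩 act r F 1 ≤ 18 * energy Γ F := by
  have h1 : c5U 𝒩 act r F 1 ≤
      ∑ i ∈ (Finset.range (n / r - 1)).filter (fun i => i % 2 = (0 + 1) % 2),
        3 * (energyB Γ (Win n r i 0) F +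
          ∑ j ∈ (Finset.range (n / r - 1)).filter (fun j => j + 1 = i ∨ j = i + 1),
            stepD 𝒩 act (fun j => Win n r j 0) 0
              (rounds 𝒩 act (fun j => Win n r j 0) (n / r - 1) F 0)
              (fun x => Null act x (Win n r i (2 * 0 + 1))) j) := by
    refine Finset.sum_le_sum fun i hi => ?_
    obtain ⟨hi1, hi2⟩ := Finset.mem_filter.1 hi
    have hi1 := Finset.mem_range.1 hi1
    have hπ : i % 2 ≠ 0 % 2 := by omega
    have a1 := var_round 𝒩 act (chain_win hr hn) 0 hF hi1 hπ (aligned_win_odd i 0 0 hπ)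
      (fun j _ h1 h2 => win_subset (by omega) (by omega))
    have a2 := c5_var_le 𝒩 act hr hn hF hi1 (2 * 0 + 1)
    have a3 : var 𝒩 act (fun x => Null act x (Win n r i (2 * 1))) (Win n r i 0)
        (rounds 𝒩 act (fun j => Win n r j 0) (n / r - 1) F 1) ≤
        var 𝒩 act (fun x => Null act x (Win n r i (2 * 0 + 1))) (Win n r i 0)
          (St 𝒩 act (fun j => Win n r j 0) 0 F (n / r - 1)) :=
      c5_dd_mono act (win_subset (by omega) (by omega)) _ _
    refine a3.trans (a1.trans ?_)
    exact mul_le_mul_of_nonneg_left (add_le_add a2 le_rfl) (by norm_num)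
  rw [← Finset.mul_sum, Finset.sum_add_distrib] at h1
  have h2 := c5_nbr (r := r) 𝒩 act (F := F) 0
  have h3 := c5_sumE (Γ := Γ) (r := r) F (0 + 1)
  have h4 := c5_D_le_U 𝒩 act hr hn hF 0
  have h5 := c5_U0 𝒩 act hr hn hF
  linarith

private theorem c5_Ustep (hr : 10 ^ 18 ≤ r) (hn : 3 * r ≤ n) {F : AutF (Fin n) → X}
    (hF : Equi act F) (s : ℕ) :
    c5U 𝒩 act r F (s + 1 + 1) ≤ 1 / 2 * c5U 𝒩 act r F (s + 1) := by
  have h1 : c5U 𝒩 act r F (s + 1 + 1) ≤
      ∑ i ∈ (Finset.range (n / r - 1)).filter (fun i => i % 2 = (s + 1 + 1) % 2),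
        1 / 4 * ∑ j ∈ (Finset.range (n / r - 1)).filter (fun j => j + 1 = i ∨ j = i + 1),
            stepD 𝒩 act (fun j => Win n r j 0) (s + 1)
              (rounds 𝒩 act (fun j => Win n r j 0) (n / r - 1) F (s + 1))
              (fun x => Null act x (Win n r i (2 * (s + 1) + 1))) j := by
    refine Finset.sum_le_sum fun i hi => ?_
    obtain ⟨hi1, hi2⟩ := Finset.mem_filter.1 hi
    have hi1 := Finset.mem_range.1 hi1
    have hπ : i % 2 ≠ (s + 1) % 2 := by omega
    have hc0 := constOn_St 𝒩 act (chain_win hr hn) s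
      (equi_rounds 𝒩 act (fun j => Win n r j 0) (n / r - 1) hF s) hi1 (by omega)
    have hc : ConstOn (fun x => Null act x (Win n r i (2 * (s + 1) + 1))) (Win n r i 0)
        (rounds 𝒩 act (fun j => Win n r j 0) (n / r - 1) F (s + 1)) :=
      fun x hx => hc0 x (Null.mono (win_subset (by omega) (by omega)) hx)
    have a1 := var_round_const 𝒩 act (chain_win hr hn) (s + 1)
      (equi_rounds 𝒩 act (fun j => Win n r j 0) (n / r - 1) hF (s + 1)) hi1 hπ
      (aligned_win_odd i (s + 1) (s + 1) hπ)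
      (fun j _ h1 h2 => win_subset (by omega) (by omega)) hc
    have a3 : var 𝒩 act (fun x => Null act x (Win n r i (2 * (s + 1 + 1)))) (Win n r i 0)
        (rounds 𝒩 act (fun j => Win n r j 0) (n / r - 1) F (s + 1 + 1)) ≤
        var 𝒩 act (fun x => Null act x (Win n r i (2 * (s + 1) + 1))) (Win n r i 0)
          (St 𝒩 act (fun j => Win n r j 0) (s + 1)
            (rounds 𝒩 act (fun j => Win n r j 0) (n / r - 1) F (s + 1)) (n / r - 1)) :=
      c5_dd_mono act (win_subset (by omega) (by omega)) _ _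
    exact a3.trans a1
  rw [← Finset.mul_sum] at h1
  have h2 := c5_nbr (r := r) 𝒩 act (F := F) (s + 1)
  have h4 := c5_D_le_U 𝒩 act hr hn hF (s + 1)
  linarith

private theorem c5_U (hr : 10 ^ 18 ≤ r) (hn : 3 * r ≤ n) {F : AutF (Fin n) → X}
    (hF : Equi act F) (t : ℕ) : c5U 𝒩 act r F t ≤ 36 * (1 / 2) ^ t * energy Γ F := by
  have hE := c5_energy_nonneg (Γ := Γ) F
  rcases t with _ | s
  · have := c5_U0 𝒩 act hr hn hF
    simp only [pow_zero]
    linarith
  · induction s with
    | zero =>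
      have := c5_U1 𝒩 act hr hn hF
      simp only [zero_add, pow_one]
      linarith
    | succ s ih =>
      have := c5_Ustep 𝒩 act hr hn hF s
      rw [pow_succ]
      linarith

theorem contraction (hr : 10 ^ 18 ≤ r) (hn : 3 * r ≤ n) {F : AutF (Fin n) → X} (hF : Equi act F)
    (T : ℕ) {j : ℕ} (hj : j < n / r - 1) {h : AutF (Fin n)} (hh : h ∈ H (Win n r j 0)) :
    disp Γ (fun x => Null act x (Win n r j (2 * T + 2)))
        (rounds 𝒩 act (fun j => Win n r j 0) (n / r - 1) F T) h ≤
      300 * (1 / 2) ^ T * energy Γ F := by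
  have hE := c5_energy_nonneg (Γ := Γ) F
  have hp : (0 : ℝ) ≤ (1 / 2) ^ T * energy Γ F := by positivity
  have hsub : Win n r j 0 ⊆ Win n r j (2 * T + 2) := win_subset (by omega) (by omega)
  have hd := disp_le_var 𝒩 act (A := fun x => Null act x (Win n r j (2 * T + 2)))
    (linv_null act _) (rinv_null act (Or.inl hsub)) (fun x hx => Null.mono hsub hx)
    (equi_rounds 𝒩 act (fun j => Win n r j 0) (n / r - 1) hF T) hh
  by_cases hj2 : j % 2 = T % 2
  · have a1 : var 𝒩 act (fun x => Null act x (Win n r j (2 * T + 2))) (Win n r j 0)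
        (rounds 𝒩 act (fun j => Win n r j 0) (n / r - 1) F T) ≤
        var 𝒩 act (fun x => Null act x (Win n r j (2 * T))) (Win n r j 0)
          (rounds 𝒩 act (fun j => Win n r j 0) (n / r - 1) F T) :=
      c5_dd_mono act (win_subset (by omega) (by omega)) _ _
    have a2 : var 𝒩 act (fun x => Null act x (Win n r j (2 * T))) (Win n r j 0)
        (rounds 𝒩 act (fun j => Win n r j 0) (n / r - 1) F T) ≤ c5U 𝒩 act r F T :=
      Finset.single_le_sum (f := fun j => var 𝒩 act (fun x => Null act x (Win n r j (2 * T)))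
        (Win n r j 0) (rounds 𝒩 act (fun j => Win n r j 0) (n / r - 1) F T))
        (fun _ _ => dd_nonneg _ _ _) (Finset.mem_filter.2 ⟨Finset.mem_range.2 hj, hj2⟩)
    have a3 := c5_U 𝒩 act hr hn hF T
    linarith
  · rcases T with _ | t
    · have a1 := c5_var_le 𝒩 act hr hn hF hj (2 * 0 + 2)
      have a2 : energyB Γ (Win n r j 0) F ≤ 2 * energy Γ F :=
        (Finset.single_le_sum (f := fun j => energyB Γ (Win n r j 0) F)
          (fun _ _ => c5_energyB_nonneg _ _) (Finset.mem_range.2 hj)).trans (sum_energyB_le F)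
      have a3 : var 𝒩 act (fun x => Null act x (Win n r j (2 * 0 + 2))) (Win n r j 0)
          (rounds 𝒩 act (fun j => Win n r j 0) (n / r - 1) F 0) =
          var 𝒩 act (fun x => Null act x (Win n r j (2 * 0 + 2))) (Win n r j 0) F := rfl
      rw [a3] at hd
      simp only [pow_zero] at hp ⊢
      linarith
    · have hc0 := constOn_St 𝒩 act (chain_win hr hn) t
        (equi_rounds 𝒩 act (fun j => Win n r j 0) (n / r - 1) hF t) hj (by omega)
      have a1 : disp Γ (fun x => Null act x (Win n r j (2 * (t + 1) + 2)))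
          (rounds 𝒩 act (fun j => Win n r j 0) (n / r - 1) F (t + 1)) h ≤
          sumQ Γ (fun x => Null act x (Win n r j (2 * (t + 1) + 2))) fun _ => (0 : ℝ) * 0 := by
        unfold disp dd
        apply sumQ_le
        intro x hx
        have := hc0 x (Null.mono hsub hx) h hh
        have e : rounds 𝒩 act (fun j => Win n r j 0) (n / r - 1) F (t + 1) (x * h) =
            rounds 𝒩 act (fun j => Win n r j 0) (n / r - 1) F (t + 1) x := this
        simp only [e, dist_self]
        norm_num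
      rw [sumQ_mul] at a1
      linarith

end Pool.Agent.P.MP_2d26dd_al
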