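import Pool.Agent.P.MP_2d26dd_al.Niel

/-! Extension of automorphisms along an embedding of alphabets; generators of block groups. -/

namespace Pool.Agent.P.MP_2d26dd_al

open FreeGroup

variable {ι : Type} [DecidableEq ι]

section ExtAux

variable {κ : Type} [Fintype κ] (e : κ ↪ ι)

/-- Extension of an endomorphism by the identity on the other letters. -/
private noncomputable def extH (f : FreeGroup κ →* FreeGroup κ) : FreeGroup ι →* FreeGroup ι :=
  lift fun i => if h : ∃ k, e k = i then map e (f (of h.choose)) else of i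

private theorem extH_in (f : FreeGroup κ →* FreeGroup κ) (k : κ) :
    extH e f (of (e k)) = map e (f (of k)) := by
  have h : ∃ k', e k' = e k := ⟨k, rfl⟩
  rw [extH, lift_apply_of, dif_pos h, e.injective h.choose_spec]

private theorem extH_out (f : FreeGroup κ →* FreeGroup κ) {i : ι} (h : ¬ ∃ k, e k = i) :
    extH e f (of i) = of i := by
  rw [extH, lift_apply_of, dif_neg h]

private theorem extH_map (f : FreeGroup κ →* FreeGroup κ) (w : FreeGroup κ) :
    extH e f (map e w) = map e (f w) := by
  have : (extH e f).comp (map e) = (map e).comp f := by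
    ext k
    simp only [MonoidHom.comp_apply, map.of, extH_in]
  exact DFunLike.congr_fun this w

private theorem extH_comp (f g : FreeGroup κ →* FreeGroup κ) :
    (extH e f).comp (extH e g) = extH e (f.comp g) := by
  ext i
  by_cases h : ∃ k, e k = i
  · obtain ⟨k, rfl⟩ := h
    simp only [MonoidHom.comp_apply, extH_in, extH_map]
  · simp only [MonoidHom.comp_apply, extH_out e _ h]

private theorem extH_id : extH e (MonoidHom.id _) = MonoidHom.id _ := by
  ext i
  by_cases h : ∃ k, e k = i
  · obtain ⟨k, rfl⟩ := h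
    simp only [extH_in, MonoidHom.id_apply, map.of]
  · simp only [extH_out e _ h, MonoidHom.id_apply]

/-- Extension of an automorphism. -/
private noncomputable def extA (φ : AutF κ) : AutF ι :=
  MonoidHom.toMulEquiv (extH e φ.toMonoidHom) (extH e φ.symm.toMonoidHom)
    (by
      rw [extH_comp, ← extH_id e]
      congr 1
      ext k
      simp)
    (by
      rw [extH_comp, ← extH_id e]
      congr 1
      ext k
      simp)

private theorem extA_in (φ : AutF κ) (k : κ) : extA e φ (of (e k)) = map e (φ (of k)) :=
  extH_in e _ k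

private theorem extA_out (φ : AutF κ) {i : ι} (h : ¬ ∃ k, e k = i) : extA e φ (of i) = of i :=
  extH_out e _ h

private theorem extA_map (φ : AutF κ) (w : FreeGroup κ) : extA e φ (map e w) = map e (φ w) :=
  extH_map e _ w

/-- Extension as a homomorphism. -/
private noncomputable def extM : AutF κ →* AutF ι where
  toFun := extA e
  map_one' := autF_ext fun i => by
    by_cases h : ∃ k, e k = i
    · obtain ⟨k, rfl⟩ := h
      rw [extA_in]; rfl
    · rw [extA_out e _ h]; rfl
  map_mul' φ ψ := autF_ext fun i => by
    by_cases h : ∃ k, e k = i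
    · obtain ⟨k, rfl⟩ := h
      rw [MulAut.mul_apply, extA_in, extA_in, extA_map, MulAut.mul_apply]
    · rw [MulAut.mul_apply, extA_out e _ h, extA_out e _ h, extA_out e _ h]

omit [DecidableEq ι] in
private theorem mem_univ_map {i : ι} : i ∈ Finset.univ.map e ↔ ∃ k, e k = i := by simp

omit [DecidableEq ι] in
private theorem map_mem_sub (w : FreeGroup κ) : map e w ∈ sub (Finset.univ.map e) := by
  induction w using FreeGroup.induction_on with
  | C1 => rw [_root_.map_one]; exact one_mem _
  | of k => rw [map.of]; exact of_mem_sub ((mem_univ_map e).2 ⟨k, rfl⟩)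
  | inv_of k h => rw [_root_.map_inv]; exact inv_mem h
  | mul a b ha hb => rw [_root_.map_mul]; exact mul_mem ha hb

/-- The retraction onto the small alphabet. -/
private noncomputable def retr : FreeGroup ι →* FreeGroup κ :=
  lift fun i => if h : ∃ k, e k = i then of h.choose else 1

private theorem retr_in (k : κ) : retr e (of (e k)) = of k := by
  have h : ∃ k', e k' = e k := ⟨k, rfl⟩
  rw [retr, lift_apply_of, dif_pos h, e.injective h.choose_spec]

private theorem map_retr {w : FreeGroup ι} (hw : w ∈ sub (Finset.univ.map e)) :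
    map e (retr e w) = w :=
  hom_eq_on_sub (f := (map e).comp (retr e)) (g := MonoidHom.id _) (fun i hi => by
    obtain ⟨k, rfl⟩ := (mem_univ_map e).1 hi
    rw [MonoidHom.comp_apply, retr_in, map.of, MonoidHom.id_apply]) hw

private theorem retr_comp {φ ψ : AutF ι} (hψ : ψ ∈ H (Finset.univ.map e)) (h : φ * ψ = 1) :
    ((retr e).comp (φ.toMonoidHom.comp (map e))).comp
      ((retr e).comp (ψ.toMonoidHom.comp (map e))) = MonoidHom.id _ := by
  ext k
  change retr e (φ (map e (retr e (ψ (map e (of k)))))) = of k
  rw [map_retr e (H_map hψ (map_mem_sub e _)), ← MulAut.mul_apply, h, MulAut.one_apply, map.of,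
    retr_in]

private theorem extM_range : (extM e).range = H (Finset.univ.map e) := by
  have key : ∀ φ : AutF κ, ∀ i ∈ Finset.univ.map e,
      extM e φ (of i) ∈ sub (Finset.univ.map e) := by
    intro φ i hi
    obtain ⟨k, rfl⟩ := (mem_univ_map e).1 hi
    change extA e φ _ ∈ _
    rw [extA_in]
    exact map_mem_sub e _
  apply le_antisymm
  · rintro _ ⟨φ, rfl⟩
    refine mem_H_of (fun i hi => extA_out e φ fun h => hi ((mem_univ_map e).2 h)) (key φ) ?_
    rw [← _root_.map_inv]
    exact key _
  · intro ψ hψ
    refine ⟨MonoidHom.toMulEquiv ((retr e).comp (ψ.toMonoidHom.comp (map e)))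
      ((retr e).comp ((ψ⁻¹).toMonoidHom.comp (map e))) (retr_comp e hψ (inv_mul_cancel ψ))
      (retr_comp e (inv_mem hψ) (mul_inv_cancel ψ)), autF_ext fun i => ?_⟩
    change extA e _ _ = _
    by_cases h : ∃ k, e k = i
    · obtain ⟨k, rfl⟩ := h
      rw [extA_in]
      change map e (retr e (ψ (map e (of k)))) = _
      rw [map_retr e (H_map hψ (map_mem_sub e _)), map.of]
    · rw [extA_out e _ h, H_fix hψ fun hi => h ((mem_univ_map e).1 hi)]

omit [DecidableEq ι] [Fintype κ] in
private theorem map_lt (j : κ) (s : Bool) : map e (lt j s) = lt (e j) s := by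
  cases s <;> simp [lt_true, lt_false]

end ExtAux

theorem exists_ext {κ : Type} [DecidableEq κ] [Fintype κ] (e : κ ↪ ι) :
    ∃ E : AutF κ →* AutF ι, E.range = H (Finset.univ.map e) ∧
      (∀ i j d s, E (tv i j d s) = tv (e i) (e j) d s) ∧ (∀ t, E (inv t) = inv (e t)) ∧
      ∀ i j, E (perm (Equiv.swap i j)) = perm (Equiv.swap (e i) (e j)) := by
  refine ⟨extM e, extM_range e, fun i j d s => ?_, fun t => ?_, fun i j => ?_⟩
  · by_cases hij : i = j
    · subst hij
      rw [tv_same, tv_same, _root_.map_one]
    have hij' : e i ≠ e j := fun h => hij (e.injective h)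
    refine autF_ext fun x => ?_
    change extA e _ _ = _
    by_cases h : ∃ k, e k = x
    · obtain ⟨k, rfl⟩ := h
      rw [extA_in]
      by_cases hk : k = i
      · subst hk
        cases d
        · rw [tv_left hij, tv_left hij', _root_.map_mul, map_lt, map.of]
        · rw [tv_right hij, tv_right hij', _root_.map_mul, map_lt, map.of]
      · rw [tv_ne hk, tv_ne fun h => hk (e.injective h), map.of]
    · rw [extA_out e _ h, tv_ne fun h' => h ⟨i, h'.symm⟩]
  · refine autF_ext fun x => ?_
    change extA e _ _ = _
    by_cases h : ∃ k, e k = x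
    · obtain ⟨k, rfl⟩ := h
      rw [extA_in]
      by_cases hk : k = t
      · subst hk
        rw [inv_self, inv_self, _root_.map_inv, map.of]
      · rw [inv_ne hk, inv_ne fun h => hk (e.injective h), map.of]
    · rw [extA_out e _ h, inv_ne fun h' => h ⟨t, h'.symm⟩]
  · refine autF_ext fun x => ?_
    change extA e _ _ = _
    by_cases h : ∃ k, e k = x
    · obtain ⟨k, rfl⟩ := h
      rw [extA_in, perm_of, perm_of, map.of, e.injective.swap_apply]
    · rw [extA_out e _ h, perm_of, Equiv.swap_apply_of_ne_of_ne (fun h' => h ⟨i, h'.symm⟩)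
        fun h' => h ⟨j, h'.symm⟩]

/-- The group generated by the transvections of a block. -/
def SH (X : Finset ι) : Subgroup (AutF ι) := Subgroup.closure (tvi '' (gens X : Set (TI ι)))

theorem signed_swap {i j : ι} (h : i ≠ j) :
    tv i j true true * tv j i true false = tv j i false true * (perm (Equiv.swap i j) * inv j) := by
  refine autF_ext fun k => ?_
  simp only [MulAut.mul_apply]
  by_cases hi : k = i
  · subst hi
    rw [tv_ne h, tv_right h, inv_ne h, perm_of, Equiv.swap_apply_left, tv_left h.symm, lt_true,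
      lt_true]
  by_cases hj : k = j
  · subst hj
    rw [tv_right hi, inv_self, _root_.map_inv, perm_of, Equiv.swap_apply_right, lt_false, _root_.map_mul,
      _root_.map_inv, _root_.map_inv, tv_ne hi, tv_right h, tv_ne h, lt_true]
    group
  · rw [tv_ne hj, tv_ne hi, inv_ne hj, perm_of, Equiv.swap_apply_of_ne_of_ne hi hj, tv_ne hj]

private theorem tv_mem_SH {X : Finset ι} {i j : ι} (hi : i ∈ X) (hj : j ∈ X) (h : i ≠ j)
    (d s : Bool) : tv i j d s ∈ SH X :=
  Subgroup.subset_closure ⟨(i, j, d, s), mem_gens.2 ⟨hi, hj, h⟩, rfl⟩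

private theorem swap_inv_mem_SH {X : Finset ι} {i j : ι} (hi : i ∈ X) (hj : j ∈ X) (h : i ≠ j) :
    perm (Equiv.swap i j) * inv j ∈ SH X := by
  have e : perm (Equiv.swap i j) * inv j =
      (tv j i false true)⁻¹ * (tv i j true true * tv j i true false) := by
    rw [signed_swap h, inv_mul_cancel_left]
  rw [e]
  exact mul_mem (inv_mem (tv_mem_SH hj hi h.symm _ _))
    (mul_mem (tv_mem_SH hi hj h _ _) (tv_mem_SH hj hi h.symm _ _))

theorem H_eq_closure (X : Finset ι) :
    H X = Subgroup.closure (tvi '' (gens X : Set (TI ι)) ∪ inv '' (X : Set ι)) := by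
  apply le_antisymm
  · obtain ⟨E, hE, h1, h2, h3⟩ := exists_ext (Function.Embedding.subtype fun x => x ∈ X)
    have hX : Finset.univ.map (Function.Embedding.subtype fun x => x ∈ X) = X := by
      ext x
      simp
    have hS : SH X ≤ Subgroup.closure (tvi '' (gens X : Set (TI ι)) ∪ inv '' (X : Set ι)) :=
      Subgroup.closure_mono Set.subset_union_left
    have hI : ∀ t ∈ X,
        inv t ∈ Subgroup.closure (tvi '' (gens X : Set (TI ι)) ∪ inv '' (X : Set ι)) :=
      fun t ht => Subgroup.subset_closure (Or.inr ⟨t, ht, rfl⟩)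
    rw [hX] at hE
    rw [← hE]
    rintro _ ⟨ψ, rfl⟩
    have hψ := nielsen_rel ∅ ψ (fun b hb => absurd hb (Finset.notMem_empty b))
    have hle : Subgroup.closure (relGens (∅ : Finset {x // x ∈ X})) ≤ Subgroup.comap E
        (Subgroup.closure (tvi '' (gens X : Set (TI ι)) ∪ inv '' (X : Set ι))) := by
      rw [Subgroup.closure_le]
      rintro φ ((⟨t, u, d, s, -, htu, rfl⟩ | ⟨t, -, rfl⟩) | ⟨t, u, -, -, rfl⟩)
      · rw [SetLike.mem_coe, Subgroup.mem_comap]
        rw [h1]
        exact hS (tv_mem_SH t.2 u.2 (fun h => htu (Subtype.ext h)) d s)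
      · rw [SetLike.mem_coe, Subgroup.mem_comap]
        rw [h2]
        exact hI _ t.2
      · rw [SetLike.mem_coe, Subgroup.mem_comap]
        by_cases htu : t = u
        · subst htu
          rw [Equiv.swap_self, ← Equiv.Perm.one_def, perm_one, _root_.map_one]
          exact one_mem _
        · rw [h3]
          have := mul_mem (hS (swap_inv_mem_SH t.2 u.2 fun h => htu (Subtype.ext h))) (hI _ u.2)
          rwa [mul_assoc, inv_mul_inv, mul_one] at this
    exact hle hψ
  · rw [Subgroup.closure_le]
    rintro _ (⟨a, ha, rfl⟩ | ⟨t, ht, rfl⟩)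
    · exact tvi_mem_H ha
    · exact inv_mem_H ht

theorem inv_conj_SH {X : Finset ι} (t : ι) {φ : AutF ι} (h : φ ∈ SH X) :
    inv t * φ * inv t ∈ SH X := by
  induction h using Subgroup.closure_induction with
  | mem x hx =>
    obtain ⟨⟨i, j, d, s⟩, ha, rfl⟩ := hx
    obtain ⟨hi, hj, hij⟩ := mem_gens.1 ha
    change inv t * tv i j d s * inv t ∈ _
    by_cases h1 : i = t
    · subst h1
      rw [inv_conj_tv_fst hij]
      exact tv_mem_SH hi hj hij _ _
    by_cases h2 : j = t
    · subst h2
      rw [inv_conj_tv_snd hij]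
      exact tv_mem_SH hi hj hij _ _
    · rw [inv_conj_tv_other h1 h2]
      exact tv_mem_SH hi hj hij _ _
  | one => rw [mul_one, inv_mul_inv]; exact one_mem _
  | mul a b _ _ ha hb =>
    have e : inv t * (a * b) * inv t = inv t * a * inv t * (inv t * b * inv t) := by
      calc inv t * (a * b) * inv t = inv t * a * (inv t * inv t) * b * inv t := by
            rw [inv_mul_inv]; group
        _ = _ := by group
    rw [e]
    exact mul_mem ha hb
  | inv a _ ha =>
    have e : inv t * a⁻¹ * inv t = (inv t * a * inv t)⁻¹ := by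
      rw [mul_inv_rev, mul_inv_rev, inv_inv', mul_assoc]
    rw [e]
    exact inv_mem ha

theorem mem_SH_or {X : Finset ι} {t : ι} (ht : t ∈ X) {φ : AutF ι} (h : φ ∈ H X) :
    φ ∈ SH X ∨ φ * inv t ∈ SH X := by
  rw [H_eq_closure] at h
  have hc : ∀ a : AutF ι, inv t * (inv t * a) = a := fun a => by
    rw [← mul_assoc, inv_mul_inv, one_mul]
  induction h using Subgroup.closure_induction with
  | mem x hx =>
    rcases hx with hx | ⟨u, hu, rfl⟩
    · exact Or.inl (Subgroup.subset_closure hx)
    right
    by_cases hut : u = t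
    · subst hut
      rw [inv_mul_inv]
      exact one_mem _
    have hw := swap_inv_mem_SH hu ht hut
    have e := perm_conj_inv (Equiv.swap u t) t
    rw [← perm_inv, Equiv.swap_inv, Equiv.swap_apply_right] at e
    rw [← e, mul_assoc]
    exact mul_mem hw hw
  | one => exact Or.inl (one_mem _)
  | mul a b _ _ ha hb =>
    rcases ha with ha | ha <;> rcases hb with hb | hb
    · exact Or.inl (mul_mem ha hb)
    · right
      rw [mul_assoc]
      exact mul_mem ha hb
    · right
      have := mul_mem ha (inv_conj_SH t hb)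
      simp only [mul_assoc, hc] at this ⊢
      exact this
    · left
      have := mul_mem ha (inv_conj_SH t hb)
      simp only [mul_assoc, hc, inv_mul_inv, mul_one] at this
      exact this
  | inv a _ ha =>
    rcases ha with ha | ha
    · exact Or.inl (inv_mem ha)
    · right
      have := inv_conj_SH t (inv_mem ha)
      rw [mul_inv_rev, inv_inv', hc] at this
      exact this

theorem closure_mv [Fintype ι] : Subgroup.closure (Set.range (mv : Mv ι → AutF ι)) = ⊤ := by
  rw [eq_top_iff, ← H_univ, H_eq_closure]
  refine Subgroup.closure_mono ?_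
  rintro _ (⟨a, -, rfl⟩ | ⟨t, -, rfl⟩)
  · exact ⟨Sum.inl a, rfl⟩
  · exact ⟨Sum.inr t, rfl⟩

end Pool.Agent.P.MP_2d26dd_al
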