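import Pool.Agent.P.MP_2d26dd_al.C1
import Pool.Agent.P.MP_2d26dd_al.Ext

/-! Crude bounds and the passage to the limit. -/

namespace Pool.Agent.P.MP_2d26dd_al

variable {ι : Type} [DecidableEq ι] {Γ : Subgroup (AutF ι)} [Γ.Normal] [Γ.FiniteIndex]
  {X V : Type} [MetricSpace X] [Nonempty X] [NormedAddCommGroup V] [InnerProductSpace ℝ V]
  (𝒩 : NPC X V) (act : Γ →* (X ≃ᵢ X)) [Fintype ι]

theorem exists_disp_bound (g : AutF ι) :
    ∃ K : ℝ, ∀ F : AutF ι → X, Equi act F → ∀ x,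
      dist (F (x * g)) (F x) ≤ K * Real.sqrt (energy Γ F) := by
  have hg : g ∈ Subgroup.closure (Set.range (mv : Mv ι → AutF ι)) := by
    rw [closure_mv]
    exact Subgroup.mem_top g
  induction hg using Subgroup.closure_induction with
  | mem g hg =>
    obtain ⟨μ, rfl⟩ := hg
    refine ⟨1, fun F hF x => ?_⟩
    have h1 : dist (F x) (F (x * mv μ)) ^ 2 ≤ disp Γ (fun _ => True) F (mv μ) :=
      le_sumQ (A := fun _ => True) (fun _ _ => rfl) (linv_dist hF (hF.shift (mv μ)))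
        (fun _ => sq_nonneg _) trivial
    have h2 : disp Γ (fun _ => True) F (mv μ) ≤ energy Γ F :=
      Finset.single_le_sum (f := fun μ : Mv ι => disp Γ (fun _ => True) F (mv μ))
        (fun _ _ => dd_nonneg _ _ _) (Finset.mem_univ μ)
    rw [one_mul, dist_comm]
    exact Real.le_sqrt_of_sq_le (h1.trans h2)
  | one => exact ⟨0, fun F _ x => by simp⟩
  | mul g h _ _ ihg ihh =>
    obtain ⟨K, hK⟩ := ihg
    obtain ⟨L, hL⟩ := ihh
    refine ⟨L + K, fun F hF x => ?_⟩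
    rw [← mul_assoc, add_mul]
    exact (dist_triangle _ (F (x * g)) _).trans (add_le_add (hL F hF _) (hK F hF x))
  | inv g _ ih =>
    obtain ⟨K, hK⟩ := ih
    refine ⟨K, fun F hF x => ?_⟩
    have h1 := hK F hF (x * g⁻¹)
    rwa [inv_mul_cancel_right, dist_comm] at h1

theorem c6_proj (B : Finset ι) (Φ : (AutF ι → X) → AutF ι → X)
    (h : ∃ K : ℝ, ∀ F : AutF ι → X, Equi act F → ∀ x,
      dist (Φ F x) (F x) ≤ K * Real.sqrt (energy Γ F)) :
    ∃ K : ℝ, ∀ F : AutF ι → X, Equi act F → ∀ x,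
      dist (proj 𝒩 act B (Φ F) x) (F x) ≤ K * Real.sqrt (energy Γ F) := by
  obtain ⟨K, hK⟩ := h
  choose L hL using fun k : KB Γ B => exists_disp_bound act k.rep
  obtain ⟨M, hM⟩ := (Set.finite_range L).bddAbove
  refine ⟨K + max M 0, fun F hF x => ?_⟩
  have h0 := Real.sqrt_nonneg (energy Γ F)
  refine proj_near 𝒩 act B (Φ F) x (F x) _ ((hK F hF x).trans ?_) fun k => ?_
  · exact mul_le_mul_of_nonneg_right (le_add_of_nonneg_right (le_max_right _ _)) h0
  · rw [add_mul]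
    refine (dist_triangle _ (F (x * k.rep)) _).trans (add_le_add (hK F hF _) ((hL k F hF x).trans ?_))
    exact mul_le_mul_of_nonneg_right ((hM ⟨k, rfl⟩).trans (le_max_left _ _)) h0

theorem c6_St (Blk : ℕ → Finset ι) (π j : ℕ) (Φ : (AutF ι → X) → AutF ι → X)
    (h : ∃ K : ℝ, ∀ F : AutF ι → X, Equi act F → ∀ x,
      dist (Φ F x) (F x) ≤ K * Real.sqrt (energy Γ F)) :
    ∃ K : ℝ, ∀ F : AutF ι → X, Equi act F → ∀ x,
      dist (St 𝒩 act Blk π (Φ F) j x) (F x) ≤ K * Real.sqrt (energy Γ F) := by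
  induction j with
  | zero => exact h
  | succ j ih =>
    by_cases hj : j % 2 = π % 2
    · simp only [St, if_pos hj]
      exact c6_proj 𝒩 act (Blk j) (fun F => St 𝒩 act Blk π (Φ F) j) ih
    · simp only [St, if_neg hj]
      exact ih

theorem exists_rounds_bound (Blk : ℕ → Finset ι) (k T : ℕ) :
    ∃ K : ℝ, ∀ F : AutF ι → X, Equi act F → ∀ x,
      dist (rounds 𝒩 act Blk k F T x) (F x) ≤ K * Real.sqrt (energy Γ F) := by
  induction T with
  | zero => exact ⟨0, fun F _ x => by simp [rounds]⟩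
  | succ T ih => exact c6_St 𝒩 act Blk T k (fun F => rounds 𝒩 act Blk k F T) ih

omit [DecidableEq ι] [Fintype ι] [Γ.FiniteIndex] in
theorem c6_exists_equi : ∃ F : AutF ι → X, Equi act F := by
  have hm : ∀ x : AutF ι, x * ((QuotientGroup.mk x : AutF ι ⧸ Γ).out)⁻¹ ∈ Γ := fun x =>
    Subgroup.Normal.mem_comm inferInstance
      (QuotientGroup.eq.1 (QuotientGroup.out_eq' (QuotientGroup.mk x : AutF ι ⧸ Γ)))
  refine ⟨fun x => act ⟨_, hm x⟩ (Classical.arbitrary X), fun γ x => ?_⟩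
  have h1 : (QuotientGroup.mk (γ * x) : AutF ι ⧸ Γ) = QuotientGroup.mk x := by
    rw [QuotientGroup.mk_mul, (QuotientGroup.eq_one_iff _).2 γ.2, one_mul]
  have h2 : (⟨_, hm (γ * x)⟩ : Γ) = γ * ⟨_, hm x⟩ := by
    apply Subtype.ext
    show (γ : AutF ι) * x * _ = γ * (x * _)
    rw [h1, mul_assoc]
  show act ⟨_, hm (γ * x)⟩ _ = _
  rw [h2, map_mul]
  rfl

theorem fixed_of_halving [CompleteSpace X] (K : ℝ)
    (h : ∀ F : AutF ι → X, Equi act F → ∃ G : AutF ι → X, Equi act G ∧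
      energy Γ G ≤ 1 / 2 * energy Γ F ∧ ∀ x, dist (G x) (F x) ≤ K * Real.sqrt (energy Γ F)) :
    ∃ p : X, ∀ γ : Γ, act γ p = p := by
  choose G h1 h2 h3 using h
  obtain ⟨F₀, hF₀⟩ := c6_exists_equi act
  let s : ℕ → {F : AutF ι → X // Equi act F} := fun n =>
    Nat.rec ⟨F₀, hF₀⟩ (fun _ F => ⟨G F.1 F.2, h1 F.1 F.2⟩) n
  have hr0 : 0 ≤ Real.sqrt (1 / 2) := Real.sqrt_nonneg _
  have hr1 : Real.sqrt (1 / 2) < 1 := by
    rw [Real.sqrt_lt' one_pos]
    norm_num
  have hE : ∀ n, Real.sqrt (energy Γ (s n).1) ≤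
      Real.sqrt (energy Γ F₀) * Real.sqrt (1 / 2) ^ n := by
    intro n
    induction n with
    | zero => exact (mul_one _).ge
    | succ n ih =>
      have e1 : Real.sqrt (energy Γ (s (n + 1)).1) ≤ Real.sqrt (1 / 2 * energy Γ (s n).1) :=
        Real.sqrt_le_sqrt (h2 (s n).1 (s n).2)
      rw [Real.sqrt_mul (by norm_num)] at e1
      refine e1.trans ?_
      rw [pow_succ, ← mul_assoc, mul_comm (Real.sqrt (1 / 2))]
      exact mul_le_mul_of_nonneg_right ih hr0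
  have hb : ∀ (L : ℝ) (n : ℕ), L * Real.sqrt (energy Γ (s n).1) ≤
      |L| * Real.sqrt (energy Γ F₀) * Real.sqrt (1 / 2) ^ n := fun L n => by
    rw [mul_assoc]
    exact mul_le_mul (le_abs_self L) (hE n) (Real.sqrt_nonneg _) (abs_nonneg L)
  have hc : CauchySeq fun n => (s n).1 1 :=
    cauchySeq_of_le_geometric (Real.sqrt (1 / 2)) (|K| * Real.sqrt (energy Γ F₀)) hr1 fun n => by
      rw [dist_comm]
      exact (h3 (s n).1 (s n).2 1).trans (hb K n)
  obtain ⟨p, hp⟩ := cauchySeq_tendsto_of_complete hc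
  refine ⟨p, fun γ => ?_⟩
  obtain ⟨L, hL⟩ := exists_disp_bound act (γ : AutF ι)
  have t1 : Filter.Tendsto (fun n => dist (act γ ((s n).1 1)) ((s n).1 1)) Filter.atTop
      (nhds (dist (act γ p) p)) :=
    (((act γ).continuous.tendsto p).comp hp).dist hp
  have t2 : Filter.Tendsto (fun n : ℕ => |L| * Real.sqrt (energy Γ F₀) * Real.sqrt (1 / 2) ^ n)
      Filter.atTop (nhds 0) := by
    simpa using (tendsto_pow_atTop_nhds_zero_of_lt_one hr0 hr1).const_mul
      (|L| * Real.sqrt (energy Γ F₀))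
  refine dist_le_zero.1 (le_of_tendsto_of_tendsto' t1 t2 fun n => ?_)
  have e1 := hL (s n).1 (s n).2 1
  rw [one_mul, ← mul_one (γ : AutF ι), (s n).2 γ 1] at e1
  exact e1.trans (hb L n)

end Pool.Agent.P.MP_2d26dd_al
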