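import Pool.Agent.P.MP_2d26dd_al.Basic

/-! Equivariant maps, sums over the finite quotient, projections, rounds. -/

namespace Pool.Agent.P.MP_2d26dd_al

variable {ι : Type} {Γ : Subgroup (AutF ι)} {X V : Type} [MetricSpace X]

/-- Equivariant maps. -/
def Equi (act : Γ →* (X ≃ᵢ X)) (F : AutF ι → X) : Prop :=
  ∀ (γ : Γ) (x : AutF ι), F (γ * x) = act γ (F x)

/-- Left `Γ`-invariant functions. -/
def LInv (Γ : Subgroup (AutF ι)) {α : Type} (φ : AutF ι → α) : Prop :=
  ∀ (γ : Γ) (x : AutF ι), φ (γ * x) = φ x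

/-- Right invariance of a set under a subgroup. -/
def RInv (A : AutF ι → Prop) (L : Subgroup (AutF ι)) : Prop := ∀ x, ∀ h ∈ L, A x → A (x * h)

open Classical in
/-- Sum over the classes modulo `Γ` lying in `A`. -/
noncomputable def sumQ (Γ : Subgroup (AutF ι)) (A : AutF ι → Prop) (φ : AutF ι → ℝ) : ℝ :=
  ∑ᶠ q : AutF ι ⧸ Γ, if A q.out then φ q.out else 0

/-- Squared distance of two maps on `A`. -/
noncomputable def dd (Γ : Subgroup (AutF ι)) (A : AutF ι → Prop) (F F' : AutF ι → X) : ℝ :=
  sumQ Γ A fun x => dist (F x) (F' x) ^ 2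

/-- Squared displacement of `F` by the right translation by `h`, on `A`. -/
noncomputable def disp (Γ : Subgroup (AutF ι)) (A : AutF ι → Prop) (F : AutF ι → X)
    (h : AutF ι) : ℝ :=
  dd Γ A F fun x => F (x * h)

/-- The finite quotient of a block group. -/
abbrev KB (Γ : Subgroup (AutF ι)) (B : Finset ι) : Type := H B ⧸ Γ.subgroupOf (H B)

/-- A representative of a class of the block group. -/
noncomputable def KB.rep {B : Finset ι} (k : KB Γ B) : AutF ι := (k.out : H B)

/-- `F` is constant on the orbits of the block group through the set `A`. -/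
def ConstOn (A : AutF ι → Prop) (B : Finset ι) (F : AutF ι → X) : Prop :=
  ∀ x, A x → ∀ h ∈ H B, F (x * h) = F x

variable [DecidableEq ι]

/-- The energy. -/
noncomputable def energy [Fintype ι] (Γ : Subgroup (AutF ι)) (F : AutF ι → X) : ℝ :=
  ∑ μ : Mv ι, disp Γ (fun _ => True) F (mv μ)

/-- The energy of the moves of a block. -/
noncomputable def energyB (Γ : Subgroup (AutF ι)) (B : Finset ι) (F : AutF ι → X) : ℝ :=
  ∑ a ∈ gens B, disp Γ (fun _ => True) F (tvi a) + ∑ t ∈ B, disp Γ (fun _ => True) F (inv t)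

variable [Nonempty X] [NormedAddCommGroup V] [InnerProductSpace ℝ V] (𝒩 : NPC X V)
  (act : Γ →* (X ≃ᵢ X))

open Classical in
/-- Barycentre over the orbits of a block, where the block acts trivially. -/
noncomputable def proj (B : Finset ι) (F : AutF ι → X) (x : AutF ι) : X :=
  if Null act x B then Classical.epsilon fun p => ∑ᶠ k : KB Γ B, 𝒩.log p (F (x * k.rep)) = 0
  else F x

/-- Variance of `F` along the orbits of a block. -/
noncomputable def var (A : AutF ι → Prop) (B : Finset ι) (F : AutF ι → X) : ℝ :=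
  dd Γ A F (proj 𝒩 act B F)

/-- The states of a round: project on the blocks `Blk j` with `j ≡ π` modulo two, in order. -/
noncomputable def St (Blk : ℕ → Finset ι) (π : ℕ) (F : AutF ι → X) : ℕ → AutF ι → X
  | 0 => F
  | j + 1 => if j % 2 = π % 2 then proj 𝒩 act (Blk j) (St Blk π F j) else St Blk π F j

/-- Squared displacement of step `j` of a round. -/
noncomputable def stepD (Blk : ℕ → Finset ι) (π : ℕ) (F : AutF ι → X) (A : AutF ι → Prop)
    (j : ℕ) : ℝ :=
  dd Γ A (St 𝒩 act Blk π F j) (St 𝒩 act Blk π F (j + 1))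

/-- The result of `t` rounds with `k` blocks; round number `t` uses the parity of `t`. -/
noncomputable def rounds (Blk : ℕ → Finset ι) (k : ℕ) (F : AutF ι → X) : ℕ → AutF ι → X
  | 0 => F
  | t + 1 => St 𝒩 act Blk t (rounds Blk k F t) k

/-- A chain of `k` blocks. -/
structure Chain (Blk : ℕ → Finset ι) (k : ℕ) : Prop where
  far : ∀ i j, i + 2 ≤ j → j < k → Disjoint (Blk i) (Blk j)
  big : ∀ i, i + 1 < k → 10 ^ 18 ≤ (Blk i ∩ Blk (i + 1)).card
  left : ∀ i, i + 1 < k → (Blk i \ Blk (i + 1)).card ≤ 2 * (Blk i ∩ Blk (i + 1)).card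
  right : ∀ i, i + 1 < k → (Blk (i + 1) \ Blk i).card ≤ 2 * (Blk i ∩ Blk (i + 1)).card
  card : ∀ i, i < k → 303 ≤ (Blk i).card

/-- Every block of parity `π` is inside `W` or disjoint from it. -/
def Aligned (Blk : ℕ → Finset ι) (k π : ℕ) (W : Finset ι) : Prop :=
  ∀ j, j < k → j % 2 = π % 2 → Blk j ⊆ W ∨ Disjoint (Blk j) W

/-- Segment number of a position: segments of length `r`, the last one absorbing the rest. -/
def seg (n r : ℕ) (e : Fin n) : ℕ := min (e / r) (n / r - 1)

/-- The positions in the segments within distance `d` of the segments `j`, `j + 1`. -/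
def Win (n r j d : ℕ) : Finset (Fin n) :=
  Finset.univ.filter fun e => j ≤ seg n r e + d ∧ seg n r e ≤ j + 1 + d

/-- One step of a path. -/
def Step (y y' : AutF ι) : Prop := y' = y ∨ ∃ μ : Mv ι, y' = y * mv μ

end Pool.Agent.P.MP_2d26dd_al
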