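import Mathlib

/-! Nielsen moves, blocks and the other objects of the proof. -/

namespace Pool.Agent.P.MP_2d26dd_al

open FreeGroup

/-- Automorphisms of the free group; `x * s` is the basis `x` changed by the move `s`. -/
abbrev AutF (ι : Type) : Type := MulAut (FreeGroup ι)

variable {ι : Type} [DecidableEq ι]

/-- Delete the letter `t`. -/
def kill (t : ι) : FreeGroup ι →* FreeGroup ι := lift fun i => if i = t then 1 else of i

/-- The endomorphism `x_t ↦ u`, other letters fixed. -/
def setL (t : ι) (u : FreeGroup ι) : FreeGroup ι →* FreeGroup ι :=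
  lift fun i => if i = t then u else of i

@[simp] theorem setL_self (t : ι) (u : FreeGroup ι) : setL t u (of t) = u := by simp [setL]

theorem setL_ne {t i : ι} (h : i ≠ t) (u : FreeGroup ι) : setL t u (of i) = of i := by
  simp [setL, h]

@[simp] theorem setL_kill (t : ι) (u w : FreeGroup ι) : setL t u (kill t w) = kill t w := by
  have : (setL t u).comp (kill t) = kill t := by
    ext i
    by_cases h : i = t <;> simp [kill, setL, h]
  exact DFunLike.congr_fun this w

/-- `x_t ↦ u * x_t * w` with the letter `t` deleted from `u` and `w`. -/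
def rep (t : ι) (u w : FreeGroup ι) : AutF ι :=
  MonoidHom.toMulEquiv (setL t (kill t u * of t * kill t w))
    (setL t ((kill t u)⁻¹ * of t * (kill t w)⁻¹))
    (by
      ext i
      by_cases h : i = t
      · subst h; simp [mul_assoc]
      · simp [setL_ne h])
    (by
      ext i
      by_cases h : i = t
      · subst h; simp [mul_assoc]
      · simp [setL_ne h])

/-- Inversion of the letter `t`. -/
def inv (t : ι) : AutF ι :=
  MonoidHom.toMulEquiv (setL t (of t)⁻¹) (setL t (of t)⁻¹)
    (by
      ext i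
      by_cases h : i = t
      · subst h; simp
      · simp [setL_ne h])
    (by
      ext i
      by_cases h : i = t
      · subst h; simp
      · simp [setL_ne h])

/-- Permutation of the letters. -/
def perm (σ : Equiv.Perm ι) : AutF ι := freeGroupCongr σ

/-- The letter `j` or its inverse. -/
def lt (j : ι) (s : Bool) : FreeGroup ι := mk [(j, s)]

/-- The Nielsen transvection `x_i ↦ x_i x_j^±` (`d = true`) or `x_i ↦ x_j^± x_i` (`d = false`). -/
def tv (i j : ι) (d s : Bool) : AutF ι := if d then rep i 1 (lt j s) else rep i (lt j s) 1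

/-- Index set of transvections. -/
abbrev TI (ι : Type) : Type := ι × ι × Bool × Bool

/-- The transvection with a given index. -/
def tvi (a : TI ι) : AutF ι := tv a.1 a.2.1 a.2.2.1 a.2.2.2

/-- Indices of the transvections of the block `X`. -/
def gens (X : Finset ι) : Finset (TI ι) :=
  (X ×ˢ X ×ˢ (Finset.univ : Finset (Bool × Bool))).filter fun a => a.1 ≠ a.2.1

/-- The unordered pair of letters of a transvection. -/
def edge (a : TI ι) : Finset ι := {a.1, a.2.1}

/-- Moves: transvections (trivial when the two letters agree) and inversions. -/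
abbrev Mv (ι : Type) : Type := TI ι ⊕ ι

/-- The automorphism of a move. -/
def mv : Mv ι → AutF ι
  | Sum.inl a => tvi a
  | Sum.inr t => inv t

/-- The free factor on the letters `X`. -/
def sub (X : Finset ι) : Subgroup (FreeGroup ι) := Subgroup.closure (of '' (X : Set ι))

/-- The block group: automorphisms of the free factor on `X`, fixing the other letters. -/
def H (X : Finset ι) : Subgroup (AutF ι) where
  carrier := {φ | (∀ i, i ∉ X → φ (of i) = of i) ∧ (sub X).map φ.toMonoidHom = sub X}
  one_mem' := ⟨fun _ _ => rfl, by ext; simp⟩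
  mul_mem' := by
    rintro φ ψ ⟨h1, h2⟩ ⟨k1, k2⟩
    refine ⟨fun i hi => by simp [k1 i hi, h1 i hi], ?_⟩
    have : (φ * ψ).toMonoidHom = φ.toMonoidHom.comp ψ.toMonoidHom := rfl
    rw [this, ← Subgroup.map_map, k2, h2]
  inv_mem' := by
    rintro φ ⟨h1, h2⟩
    refine ⟨fun i hi => ?_, ?_⟩
    · conv_lhs => rw [← h1 i hi]
      simp
    · conv_lhs => rw [← h2]
      rw [Subgroup.map_map]
      have : (φ⁻¹).toMonoidHom.comp φ.toMonoidHom = MonoidHom.id _ := by ext; simp
      rw [this, Subgroup.map_id]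

/-- `y (B)` and `y' (B)` are complementary parts of one basis. -/
def Disj (B : Finset ι) (y y' : AutF ι) : Prop :=
  ∃ (z : AutF ι) (π π' : ι → ι), Set.InjOn π B ∧ Set.InjOn π' B ∧
    (∀ e ∈ B, ∀ e' ∈ B, π e ≠ π' e') ∧
    (∀ e ∈ B, z (of (π e)) = y (of e)) ∧ ∀ e ∈ B, z (of (π' e)) = y' (of e)

/-- The block `(x, B)` acts trivially. -/
def Null {Γ : Subgroup (AutF ι)} {G : Type} [Group G] (ρ : Γ →* G) (x : AutF ι) (B : Finset ι) :
    Prop :=
  ∀ h ∈ H B, ∀ hγ : x * h * x⁻¹ ∈ Γ, ρ ⟨x * h * x⁻¹, hγ⟩ = 1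

/-- A cocycle of an isometric action, seen through its Gram matrix. -/
def IsCoc {G V : Type} [Group G] [NormedAddCommGroup V] (b : G → V) : Prop :=
  b 1 = 0 ∧ ∀ g h, ‖b g - b h‖ = ‖b (g⁻¹ * h)‖

/-- Every homomorphism to `ℝ` vanishes. -/
def NoHom (G : Type) [Group G] : Prop := ∀ f : G → ℝ, (∀ a b, f (a * b) = f a + f b) → ∀ a, f a = 0

/-- Vectors fixed by the block group. -/
def Fix {V : Type} [NormedAddCommGroup V] [InnerProductSpace ℝ V]
    (ρ : AutF ι →* (V ≃ₗᵢ[ℝ] V)) (B : Finset ι) : Submodule ℝ V where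
  carrier := {v | ∀ h ∈ H B, ρ h v = v}
  add_mem' := fun ha hb h hh => by simp [ha h hh, hb h hh]
  zero_mem' := fun h _ => by simp
  smul_mem' := fun c v hv h hh => by simp [hv h hh]

/-- The properties of a symmetric space of non-compact type used in the proof. -/
structure NPC (X V : Type) [MetricSpace X] [NormedAddCommGroup V] [InnerProductSpace ℝ V] where
  log : X → X → V
  norm_log : ∀ p q, ‖log p q‖ = dist p q
  lip : ∀ p q r, ‖log p q - log p r‖ ≤ dist q r
  geo : ∀ (p q : X) (t : ℝ), 0 ≤ t → t ≤ 1 →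
    ∃ (m : X) (e : V), log m p = -(t • e) ∧ log m q = (1 - t) • e ∧ ‖e‖ = dist p q
  bary : ∀ (n : ℕ) (z : Fin (n + 1) → X), ∃ p, ∑ k, log p (z k) = 0

/-- Congruent to the identity modulo three. -/
def Lev3 {N : ℕ} (g : GL (Fin N) ℤ) : Prop :=
  ∀ i j, (3 : ℤ) ∣ (g : Matrix (Fin N) (Fin N) ℤ) i j - (1 : Matrix (Fin N) (Fin N) ℤ) i j

end Pool.Agent.P.MP_2d26dd_al
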