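import Pool.Agent.P.MP_2d26dd_al.Defs

/-! Matrix logarithm and exponential of real symmetric matrices. -/

namespace Pool.Agent.P.MP_2d26dd_al

open Matrix

variable {N : ℕ}

/-- Real square matrices. -/
abbrev Mat (N : ℕ) : Type := Matrix (Fin N) (Fin N) ℝ

/-- Logarithm of a positive definite matrix. -/
noncomputable def mlog (p : Mat N) : Mat N := cfc Real.log p

/-- Exponential of a symmetric matrix. -/
noncomputable def mexp (B : Mat N) : Mat N := cfc Real.exp B

/-- Squared distance from the identity. -/
noncomputable def LL (p : Mat N) : ℝ := trace (mlog p * mlog p)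

end Pool.Agent.P.MP_2d26dd_al
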