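import Pool.Agent.P.MP_2d26dd_al.GDefs

/-! Algebraic properties of the matrix logarithm. -/

namespace Pool.Agent.P.MP_2d26dd_al

open Matrix

variable {N : ℕ}

theorem gp0_cont (f : ℝ → ℝ) (A : Mat N) : ContinuousOn f (spectrum ℝ A) :=
  (Matrix.finite_real_spectrum (A := A)).continuousOn f

theorem gp0_comp (g f : ℝ → ℝ) {A : Mat N} (hA : A.IsHermitian) :
    cfc g (cfc f A) = cfc (fun x => g (f x)) A :=
  (cfc_comp' g f A (((Matrix.finite_real_spectrum (A := A)).image f).continuousOn g)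
    (gp0_cont f A) hA.isSelfAdjoint).symm

theorem gp0_mul (f g : ℝ → ℝ) (A : Mat N) : cfc f A * cfc g A = cfc (fun x => f x * g x) A :=
  (cfc_mul f g A (gp0_cont f A) (gp0_cont g A)).symm

theorem gp0_herm (f : ℝ → ℝ) (A : Mat N) : (cfc f A).IsHermitian :=
  cfc_predicate (p := IsSelfAdjoint) f A

theorem gp0_pos {p : Mat N} (hp : p.PosDef) {x : ℝ} (hx : x ∈ spectrum ℝ p) : 0 < x := by
  rw [hp.isHermitian.spectrum_real_eq_range_eigenvalues] at hx
  obtain ⟨i, rfl⟩ := hx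
  exact hp.eigenvalues_pos i

theorem gp0_trace (f : ℝ → ℝ) {A : Mat N} (hA : A.IsHermitian) :
    trace (cfc f A) = ∑ i, f (hA.eigenvalues i) := by
  rw [hA.cfc_eq, IsHermitian.cfc, Unitary.conjStarAlgAut_apply, trace_mul_cycle,
    Unitary.coe_star_mul_self, one_mul, trace_diagonal]
  rfl

theorem gp0_LL {p : Mat N} (hp : p.IsHermitian) :
    LL p = ∑ i, Real.log (hp.eigenvalues i) ^ 2 := by
  rw [LL, mlog, gp0_mul, gp0_trace _ hp]
  exact Finset.sum_congr rfl fun i _ => (sq _).symm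

theorem gp0_conj (f : ℝ → ℝ) {k p : Mat N} (hk : k * kᵀ = 1) (hp : p.IsHermitian) :
    cfc f (kᵀ * p * k) = kᵀ * cfc f p * k := by
  have h1 : star kᵀ = k := by
    rw [star_eq_conjTranspose, conjTranspose_eq_transpose_of_trivial, transpose_transpose]
  have hu : kᵀ ∈ unitary (Mat N) := by
    rw [Unitary.mem_iff, h1]
    exact ⟨hk, mul_eq_one_comm.1 hk⟩
  have h2 : ∀ x : Mat N, Unitary.conjStarAlgAut ℝ (Mat N) ⟨kᵀ, hu⟩ x = kᵀ * x * k := fun x => by
    rw [Unitary.conjStarAlgAut_apply]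
    exact congrArg (fun t => kᵀ * x * t) h1
  have h3 : Continuous (Unitary.conjStarAlgAut ℝ (Mat N) ⟨kᵀ, hu⟩) := by
    rw [funext h2]
    fun_prop
  have h4 : IsSelfAdjoint p := hp
  have h5 := StarAlgHomClass.map_cfc (S := ℝ) (Unitary.conjStarAlgAut ℝ (Mat N) ⟨kᵀ, hu⟩) f p
    (gp0_cont f p) h3 h4 (h4.map _)
  rw [h2, h2] at h5
  exact h5.symm

theorem mexp_posDef {B : Mat N} (hB : B.IsHermitian) : (mexp B).PosDef := by
  have h : (mexp B).IsHermitian := gp0_herm _ B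
  refine h.posDef_iff_eigenvalues_pos.2 fun i => ?_
  have h1 : h.eigenvalues i ∈ spectrum ℝ (cfc Real.exp B) := h.eigenvalues_mem_spectrum_real i
  rw [cfc_map_spectrum Real.exp B hB.isSelfAdjoint (gp0_cont _ B)] at h1
  obtain ⟨x, -, e⟩ := h1
  exact lt_of_lt_of_eq (Real.exp_pos x) e

theorem mlog_isHermitian (p : Mat N) : (mlog p).IsHermitian := by
  exact gp0_herm _ p

theorem mlog_mexp {B : Mat N} (hB : B.IsHermitian) : mlog (mexp B) = B := by
  rw [mlog, mexp, gp0_comp _ _ hB]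
  simp only [Real.log_exp]
  exact cfc_id' ℝ B hB.isSelfAdjoint

theorem mexp_mlog {p : Mat N} (hp : p.PosDef) : mexp (mlog p) = p := by
  rw [mlog, mexp, gp0_comp _ _ hp.isHermitian,
    cfc_congr (g := fun x => x) fun x hx => Real.exp_log (gp0_pos hp hx)]
  exact cfc_id' ℝ p hp.isHermitian.isSelfAdjoint

theorem gp0_smul {B : Mat N} (hB : B.IsHermitian) (s : ℝ) :
    mexp (s • B) = cfc (fun x => Real.exp (s * x)) B := by
  rw [mexp, ← cfc_const_mul_id s B hB.isSelfAdjoint, gp0_comp _ _ hB]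

theorem mexp_add_smul {B : Mat N} (hB : B.IsHermitian) (s t : ℝ) :
    mexp ((s + t) • B) = mexp (s • B) * mexp (t • B) := by
  rw [gp0_smul hB, gp0_smul hB, gp0_smul hB, gp0_mul]
  simp only [add_mul, Real.exp_add]

theorem mexp_zero : mexp (0 : Mat N) = 1 := by
  rw [mexp, cfc_apply_zero, Real.exp_zero, map_one]

theorem mlog_conj {k p : Mat N} (hk : k * kᵀ = 1) (hp : p.PosDef) :
    mlog (kᵀ * p * k) = kᵀ * mlog p * k := by
  exact gp0_conj _ hk hp.isHermitian

theorem gp0_inv {p : Mat N} (hp : p.PosDef) : p⁻¹ = cfc (fun x : ℝ => x⁻¹) p := by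
  refine Matrix.inv_eq_right_inv ?_
  have h : IsSelfAdjoint p := hp.isHermitian
  have h1 := gp0_mul (fun x => x) (fun x => x⁻¹) p
  rw [cfc_id' ℝ p h] at h1
  rw [h1, cfc_congr (g := fun _ => 1) fun x hx => mul_inv_cancel₀ (gp0_pos hp hx).ne']
  exact cfc_const_one ℝ p h

theorem mlog_inv {p : Mat N} (hp : p.PosDef) : mlog p⁻¹ = -mlog p := by
  rw [gp0_inv hp, mlog, mlog, gp0_comp _ _ hp.isHermitian, ← cfc_neg]
  simp only [Real.log_inv]

theorem LL_nonneg (p : Mat N) : 0 ≤ LL p := by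
  have h := (posSemidef_conjTranspose_mul_self (mlog p)).trace_nonneg
  rwa [(mlog_isHermitian p).eq] at h

theorem LL_comm {g : Mat N} (hg : IsUnit g.det) : LL (g * gᵀ) = LL (gᵀ * g) := by
  have h1 : (g * gᵀ).IsHermitian := by
    have h := isHermitian_mul_conjTranspose_self g
    rwa [conjTranspose_eq_transpose_of_trivial] at h
  have h2 : (gᵀ * g).IsHermitian := by
    have h := isHermitian_conjTranspose_mul_self g
    rwa [conjTranspose_eq_transpose_of_trivial] at h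
  rw [gp0_LL h1, gp0_LL h2, (h1.eigenvalues_eq_eigenvalues_iff h2).2 (charpoly_mul_comm _ _)]

theorem LL_eq_sum {p : Mat N} (hp : p.PosDef) :
    LL p = ∑ i, Real.log (hp.isHermitian.eigenvalues i) ^ 2 := by
  exact gp0_LL hp.isHermitian

end Pool.Agent.P.MP_2d26dd_al
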