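import Pool.Agent.P.MP_2d26dd_al.GP0

/-! The first variation inequality. -/

namespace Pool.Agent.P.MP_2d26dd_al

open Matrix

variable {N : ℕ}

/-- Spectral decomposition with a real orthogonal matrix. -/
theorem gp1_spec {p : Mat N} (hp : p.IsHermitian) :
    ∃ U : Mat N, U * Uᵀ = 1 ∧ Uᵀ * U = 1 ∧ p = U * diagonal hp.eigenvalues * Uᵀ ∧
      ∀ f : ℝ → ℝ, cfc f p = U * diagonal (fun i => f (hp.eigenvalues i)) * Uᵀ := by
  have hs : (star (hp.eigenvectorUnitary : Mat N)) = (hp.eigenvectorUnitary : Mat N)ᵀ := by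
    rw [star_eq_conjTranspose, conjTranspose_eq_transpose_of_trivial]
  refine ⟨hp.eigenvectorUnitary, ?_, ?_, ?_, fun f => ?_⟩
  · rw [← hs]
    exact Unitary.mul_star_self_of_mem hp.eigenvectorUnitary.2
  · rw [← hs]
    exact Unitary.star_mul_self_of_mem hp.eigenvectorUnitary.2
  · have h := hp.spectral_theorem
    rw [Unitary.conjStarAlgAut_apply, hs] at h
    exact h
  · rw [hp.cfc_eq, IsHermitian.cfc, Unitary.conjStarAlgAut_apply, hs]
    rfl

theorem gp1_scalar {x y C L : ℝ} (hx : 0 < x) (hy : 0 < y) (hxC : x⁻¹ ≤ C) (hyC : y⁻¹ ≤ C)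
    (hL : |Real.log x| ≤ L) :
    Real.log y ^ 2 ≤ Real.log x ^ 2 + 2 * Real.log x * x⁻¹ * (y - x) +
      (1 + 2 * L) * C ^ 2 * (y - x) ^ 2 := by
  have ha : 0 < x⁻¹ := inv_pos.2 hx
  have hb : 0 < y⁻¹ := inv_pos.2 hy
  have h1 : Real.log y - Real.log x ≤ x⁻¹ * (y - x) := by
    rw [← Real.log_div hy.ne' hx.ne']
    have h := Real.log_le_sub_one_of_pos (div_pos hy hx)
    have e : y / x - 1 = x⁻¹ * (y - x) := by field_simp
    linarith
  have h2 : y⁻¹ * (y - x) ≤ Real.log y - Real.log x := by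
    have h := Real.log_le_sub_one_of_pos (div_pos hx hy)
    rw [Real.log_div hx.ne' hy.ne'] at h
    have e : x / y - 1 = -(y⁻¹ * (y - x)) := by
      field_simp
      ring
    linarith
  have h3 : x⁻¹ * (y - x) - y⁻¹ * (y - x) = x⁻¹ * y⁻¹ * (y - x) ^ 2 := by field_simp
  have hC : 0 < C := lt_of_lt_of_le ha hxC
  have h4 : x⁻¹ * y⁻¹ ≤ C ^ 2 := by
    rw [sq]
    exact mul_le_mul hxC hyC hb.le hC.le
  set u := Real.log y - Real.log x with hu
  set D := y - x with hD
  have h5 : x⁻¹ * D - u ≤ C ^ 2 * D ^ 2 := by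
    have := mul_le_mul_of_nonneg_right h4 (sq_nonneg D)
    linarith
  have h6 : u ^ 2 ≤ C ^ 2 * D ^ 2 := by
    rw [← mul_pow]
    rcases le_total 0 D with h | h
    · have k1 := mul_le_mul_of_nonneg_right hxC h
      have k2 := mul_nonneg hb.le h
      exact sq_le_sq' (by linarith) (by linarith)
    · have k1 := mul_le_mul_of_nonpos_right hyC h
      have k2 := mul_nonpos_of_nonneg_of_nonpos ha.le h
      rw [← neg_sq (C * D)]
      exact sq_le_sq' (by linarith) (by linarith)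
  have h7 : |Real.log x * (x⁻¹ * D - u)| ≤ L * (C ^ 2 * D ^ 2) := by
    rw [abs_mul, abs_of_nonneg (sub_nonneg.2 h1)]
    exact mul_le_mul hL h5 (sub_nonneg.2 h1) ((abs_nonneg _).trans hL)
  have h8 := (abs_le.1 h7).1
  have e : Real.log y = Real.log x + u := by rw [hu]; ring
  rw [e]
  nlinarith [h6, h8]

theorem gp1_trace_sq (Z : Mat N) : trace (Z * Zᵀ) = ∑ i, ∑ j, Z i j ^ 2 := by
  simp only [trace, diag_apply, mul_apply, transpose_apply, sq]

/-- Klein's inequality in a basis of eigenvectors of the first matrix. -/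
theorem gp1_klein_diag {W : Mat N} (hW : W * Wᵀ = 1) (hW' : Wᵀ * W = 1) (l m a F G : Fin N → ℝ)
    (K : ℝ) (h : ∀ i j, G j ≤ F i + a i * (m j - l i) + K * (m j - l i) ^ 2) :
    ∑ j, G j ≤ ∑ i, F i + trace (diagonal a * (W * diagonal m * Wᵀ - diagonal l)) +
      K * trace ((W * diagonal m * Wᵀ - diagonal l) * (W * diagonal m * Wᵀ - diagonal l)) := by
  have r1 : ∀ i, ∑ j, W i j ^ 2 = 1 := fun i => by
    have h1 := congrFun (congrFun hW i) i
    simpa only [mul_apply, transpose_apply, one_apply_eq, sq] using h1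
  have r2 : ∀ j, ∑ i, W i j ^ 2 = 1 := fun j => by
    have h1 := congrFun (congrFun hW' j) j
    simpa only [mul_apply, transpose_apply, one_apply_eq, sq] using h1
  set Z : Mat N := W * diagonal m - diagonal l * W with hZ
  have hZe : ∀ i j, Z i j = W i j * (m j - l i) := fun i j => by
    rw [hZ, Matrix.sub_apply, mul_diagonal, diagonal_mul]
    ring
  have e1 : W * diagonal m * Wᵀ - diagonal l = Z * Wᵀ := by
    rw [hZ, Matrix.sub_mul, Matrix.mul_assoc (diagonal l), hW, Matrix.mul_one]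
  have e2 : W * diagonal m * Wᵀ - diagonal l = W * Zᵀ := by
    rw [hZ, transpose_sub, transpose_mul, transpose_mul, diagonal_transpose, diagonal_transpose,
      Matrix.mul_sub, ← Matrix.mul_assoc, ← Matrix.mul_assoc, hW, Matrix.one_mul]
  have e3 : trace ((W * diagonal m * Wᵀ - diagonal l) * (W * diagonal m * Wᵀ - diagonal l)) =
      ∑ i, ∑ j, W i j ^ 2 * (m j - l i) ^ 2 := by
    have : (W * diagonal m * Wᵀ - diagonal l) * (W * diagonal m * Wᵀ - diagonal l) = Z * Zᵀ := by
      nth_rewrite 1 [e1]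
      rw [e2, Matrix.mul_assoc, ← Matrix.mul_assoc Wᵀ, hW', Matrix.one_mul]
    rw [this, gp1_trace_sq]
    simp only [hZe, mul_pow]
  have e4 : trace (diagonal a * (W * diagonal m * Wᵀ - diagonal l)) =
      ∑ i, ∑ j, W i j ^ 2 * (a i * (m j - l i)) := by
    rw [e1]
    simp only [trace, diag_apply, diagonal_mul]
    refine Finset.sum_congr rfl fun i _ => ?_
    rw [mul_apply, Finset.mul_sum]
    refine Finset.sum_congr rfl fun j _ => ?_
    rw [hZe, transpose_apply]
    ring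
  have e5 : ∑ j, G j = ∑ i, ∑ j, W i j ^ 2 * G j := by
    rw [Finset.sum_comm]
    refine Finset.sum_congr rfl fun j _ => ?_
    rw [← Finset.sum_mul, r2, one_mul]
  have e6 : ∑ i, F i = ∑ i, ∑ j, W i j ^ 2 * F i := by
    refine Finset.sum_congr rfl fun i _ => ?_
    rw [← Finset.sum_mul, r1, one_mul]
  rw [e3, e4, e5, e6, Finset.mul_sum, ← Finset.sum_add_distrib, ← Finset.sum_add_distrib]
  refine Finset.sum_le_sum fun i _ => ?_
  rw [Finset.mul_sum, ← Finset.sum_add_distrib, ← Finset.sum_add_distrib]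
  refine Finset.sum_le_sum fun j _ => ?_
  have := mul_le_mul_of_nonneg_left (h i j) (sq_nonneg (W i j))
  linarith

theorem gp1_inv_le {q q' : Mat N} (hq : q.PosDef) (h : q * q' = 1) (j : Fin N) :
    (hq.isHermitian.eigenvalues j)⁻¹ ≤ trace q' := by
  obtain ⟨V, hV, hV', e, -⟩ := gp1_spec hq.isHermitian
  have hpos := hq.eigenvalues_pos
  set m := hq.isHermitian.eigenvalues with hm
  have h1 : q * (V * diagonal (fun i => (m i)⁻¹) * Vᵀ) = 1 := by
    have h2 : diagonal m * diagonal (fun i => (m i)⁻¹) = (1 : Mat N) := by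
      rw [diagonal_mul_diagonal, ← diagonal_one]
      exact congrArg diagonal (funext fun i => mul_inv_cancel₀ (hpos i).ne')
    nth_rewrite 1 [e]
    calc V * diagonal m * Vᵀ * (V * diagonal (fun i => (m i)⁻¹) * Vᵀ)
        = V * (diagonal m * (Vᵀ * V) * diagonal (fun i => (m i)⁻¹)) * Vᵀ := by
          simp only [Matrix.mul_assoc]
      _ = 1 := by rw [hV', Matrix.mul_one, h2, Matrix.mul_one, hV]
  have h3 : q' = V * diagonal (fun i => (m i)⁻¹) * Vᵀ :=
    (inv_eq_right_inv h).symm.trans (inv_eq_right_inv h1)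
  rw [h3, trace_mul_cycle, hV', Matrix.one_mul, trace_diagonal]
  exact Finset.single_le_sum (f := fun i => (m i)⁻¹) (fun i _ => (inv_pos.2 (hpos i)).le)
    (Finset.mem_univ j)

/-- Klein's inequality for the square of the logarithm. -/
theorem gp1_klein {p : Mat N} (hp : p.PosDef) (C : ℝ) :
    ∃ (A : Mat N) (K : ℝ), 0 ≤ K ∧ A * p = (2 : ℝ) • mlog p ∧ p * A = (2 : ℝ) • mlog p ∧
      ∀ q q' : Mat N, q.PosDef → q * q' = 1 → trace q' ≤ C →
        LL q ≤ LL p + trace (A * (q - p)) + K * trace ((q - p) * (q - p)) := by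
  obtain ⟨U, hU, hU', e, hf⟩ := gp1_spec hp.isHermitian
  have hpos := hp.eigenvalues_pos
  have hLL := LL_eq_sum hp
  set l := hp.isHermitian.eigenvalues with hl
  set L := ∑ i, |Real.log (l i)| with hL
  set C' := |C| + ∑ i, (l i)⁻¹ with hC'
  have hL0 : 0 ≤ L := Finset.sum_nonneg fun i _ => abs_nonneg _
  have hS0 : 0 ≤ ∑ i, (l i)⁻¹ := Finset.sum_nonneg fun i _ => (inv_pos.2 (hpos i)).le
  set a : Fin N → ℝ := fun i => 2 * Real.log (l i) * (l i)⁻¹ with ha
  have hm : (2 : ℝ) • mlog p = U * diagonal (fun i => a i * l i) * Uᵀ := by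
    rw [mlog, hf, ← Matrix.smul_mul, ← Matrix.mul_smul, ← diagonal_smul]
    have : (2 : ℝ) • (fun i => Real.log (l i)) = fun i => a i * l i := by
      funext i
      have := (hpos i).ne'
      simp only [ha, Pi.smul_apply, smul_eq_mul]
      field_simp
    rw [this]
  refine ⟨U * diagonal a * Uᵀ, (1 + 2 * L) * C' ^ 2, by positivity, ?_, ?_, ?_⟩
  · rw [hm]
    nth_rewrite 1 [e]
    calc U * diagonal a * Uᵀ * (U * diagonal l * Uᵀ)
        = U * (diagonal a * (Uᵀ * U) * diagonal l) * Uᵀ := by simp only [Matrix.mul_assoc]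
      _ = _ := by rw [hU', Matrix.mul_one, diagonal_mul_diagonal]
  · rw [hm]
    nth_rewrite 1 [e]
    calc U * diagonal l * Uᵀ * (U * diagonal a * Uᵀ)
        = U * (diagonal l * (Uᵀ * U) * diagonal a) * Uᵀ := by simp only [Matrix.mul_assoc]
      _ = _ := by
        rw [hU', Matrix.mul_one, diagonal_mul_diagonal]
        simp only [mul_comm (l _)]
  · intro q q' hq hqq hC
    obtain ⟨V, hV, hV', e', -⟩ := gp1_spec hq.isHermitian
    have hqi := gp1_inv_le hq hqq
    have hqpos := hq.eigenvalues_pos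
    rw [hLL, LL_eq_sum hq]
    set m := hq.isHermitian.eigenvalues with hm'
    have hW : (Uᵀ * V) * (Uᵀ * V)ᵀ = 1 := by
      rw [transpose_mul, transpose_transpose, Matrix.mul_assoc, ← Matrix.mul_assoc V, hV,
        Matrix.one_mul, hU']
    have hW' : (Uᵀ * V)ᵀ * (Uᵀ * V) = 1 := by
      rw [transpose_mul, transpose_transpose, Matrix.mul_assoc, ← Matrix.mul_assoc U, hU,
        Matrix.one_mul, hV']
    have key := gp1_klein_diag hW hW' l m a (fun i => Real.log (l i) ^ 2)
      (fun j => Real.log (m j) ^ 2) ((1 + 2 * L) * C' ^ 2) (fun i j => by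
        refine gp1_scalar (hpos i) (hqpos j) ?_ ?_ ?_
        · have := Finset.single_le_sum (f := fun i => (l i)⁻¹)
            (fun i _ => (inv_pos.2 (hpos i)).le) (Finset.mem_univ i)
          have h2 := abs_nonneg C
          linarith
        · have := hqi j
          have h2 := le_abs_self C
          linarith
        · exact Finset.single_le_sum (f := fun i => |Real.log (l i)|) (fun i _ => abs_nonneg _)
            (Finset.mem_univ i))
    have e1 : q - p = U * (Uᵀ * V * diagonal m * (Uᵀ * V)ᵀ - diagonal l) * Uᵀ := by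
      rw [Matrix.mul_sub, Matrix.sub_mul, ← e, transpose_mul, transpose_transpose]
      congr 1
      calc q = (U * Uᵀ) * (V * diagonal m * Vᵀ) * (U * Uᵀ) := by
            rw [hU, Matrix.one_mul, Matrix.mul_one, ← e']
        _ = _ := by simp only [Matrix.mul_assoc]
    have e2 : ∀ X Y : Mat N, trace (U * X * Uᵀ * (U * Y * Uᵀ)) = trace (X * Y) := fun X Y => by
      calc trace (U * X * Uᵀ * (U * Y * Uᵀ)) = trace (U * (X * (Uᵀ * U) * Y) * Uᵀ) := by
            simp only [Matrix.mul_assoc]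
        _ = _ := by rw [hU', Matrix.mul_one, trace_mul_cycle, hU', Matrix.one_mul]
    rw [e1, e2, e2]
    exact key

/-- Bounded on `[-1, 1]`. -/
def gp1_Bd (f : ℝ → ℝ) : Prop := ∃ C, ∀ h : ℝ, |h| ≤ 1 → |f h| ≤ C

theorem gp1_Bd.const (c : ℝ) : gp1_Bd fun _ => c := ⟨|c|, fun _ _ => le_rfl⟩

theorem gp1_Bd.id : gp1_Bd fun h => h := ⟨1, fun _ h => h⟩

theorem gp1_Bd.add {f g : ℝ → ℝ} (hf : gp1_Bd f) (hg : gp1_Bd g) : gp1_Bd fun h => f h + g h := by
  obtain ⟨C, hC⟩ := hf
  obtain ⟨D, hD⟩ := hg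
  exact ⟨C + D, fun h hh => (abs_add_le _ _).trans (add_le_add (hC h hh) (hD h hh))⟩

theorem gp1_Bd.mul {f g : ℝ → ℝ} (hf : gp1_Bd f) (hg : gp1_Bd g) : gp1_Bd fun h => f h * g h := by
  obtain ⟨C, hC⟩ := hf
  obtain ⟨D, hD⟩ := hg
  refine ⟨C * D, fun h hh => ?_⟩
  rw [abs_mul]
  exact mul_le_mul (hC h hh) (hD h hh) (abs_nonneg _) ((abs_nonneg _).trans (hC h hh))

theorem gp1_Bd.sum {f : Fin N → ℝ → ℝ} (hf : ∀ i, gp1_Bd (f i)) :
    gp1_Bd fun h => ∑ i, f i h := by
  choose C hC using hf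
  exact ⟨∑ i, C i, fun h hh =>
    (Finset.abs_sum_le_sum_abs _ _).trans (Finset.sum_le_sum fun i _ => hC i h hh)⟩

/-- Bounded entries on `[-1, 1]`. -/
def gp1_BdM (F : ℝ → Mat N) : Prop := ∀ i j, gp1_Bd fun h => F h i j

theorem gp1_BdM.const (A : Mat N) : gp1_BdM fun _ => A := fun _ _ => gp1_Bd.const _

theorem gp1_BdM.add {F G : ℝ → Mat N} (hF : gp1_BdM F) (hG : gp1_BdM G) :
    gp1_BdM fun h => F h + G h := fun i j => (hF i j).add (hG i j)

theorem gp1_BdM.mul {F G : ℝ → Mat N} (hF : gp1_BdM F) (hG : gp1_BdM G) :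
    gp1_BdM fun h => F h * G h := fun i j => gp1_Bd.sum fun k => (hF i k).mul (hG k j)

theorem gp1_BdM.smul {f : ℝ → ℝ} {F : ℝ → Mat N} (hf : gp1_Bd f) (hF : gp1_BdM F) :
    gp1_BdM fun h => f h • F h := fun i j => hf.mul (hF i j)

theorem gp1_BdM.trace {F : ℝ → Mat N} (hF : gp1_BdM F) : gp1_Bd fun h => trace (F h) :=
  gp1_Bd.sum fun i => hF i i

theorem gp1_BdM.diagonal {d : ℝ → Fin N → ℝ} (hd : ∀ i, gp1_Bd fun h => d h i) :
    gp1_BdM fun h => diagonal (d h) := fun i j => by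
  by_cases hij : i = j
  · subst hij
    simpa only [diagonal_apply_eq] using hd i
  · simpa only [diagonal_apply_ne _ hij] using gp1_Bd.const 0

theorem gp1_exp_rem (x : ℝ) : |Real.exp x - 1 - x| ≤ x ^ 2 * Real.exp |x| := by
  have h1 := Real.add_one_le_exp x
  have h2 := Real.add_one_le_exp (-x)
  have h3 : Real.exp x * Real.exp (-x) = 1 := by rw [← Real.exp_add, add_neg_cancel, Real.exp_zero]
  have h4 := Real.exp_pos x
  have h5 : Real.exp x - 1 ≤ x * Real.exp x := by nlinarith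
  rw [abs_of_nonneg (by linarith)]
  rcases le_total 0 x with h | h
  · rw [abs_of_nonneg h]
    nlinarith [mul_le_mul_of_nonneg_left h5 h]
  · rw [abs_of_nonpos h]
    have h6 : 1 ≤ Real.exp (-x) := Real.one_le_exp (by linarith)
    have h7 : Real.exp x ≤ 1 := Real.exp_le_one_iff.2 h
    nlinarith [mul_nonneg (neg_nonneg.2 h) (sub_nonneg.2 h1), sq_nonneg x,
      mul_le_mul_of_nonneg_left h6 (sq_nonneg x), mul_nonneg (neg_nonneg.2 h) (sub_nonneg.2 h7)]

theorem gp1_rem_bd (b : ℝ) : gp1_Bd fun h => (Real.exp (h * b) - 1 - h * b) / h ^ 2 := by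
  refine ⟨b ^ 2 * Real.exp |b|, fun h hh => ?_⟩
  by_cases h0 : h = 0
  · subst h0
    simp only [zero_mul, Real.exp_zero, sub_self, zero_div, abs_zero]
    positivity
  · have hp : 0 < h ^ 2 := by positivity
    rw [abs_div, abs_of_pos hp, div_le_iff₀ hp]
    refine (gp1_exp_rem _).trans ?_
    have h1 : Real.exp |h * b| ≤ Real.exp |b| := by
      refine Real.exp_le_exp.2 ?_
      rw [abs_mul]
      exact mul_le_of_le_one_left (abs_nonneg _) hh
    calc (h * b) ^ 2 * Real.exp |h * b| ≤ (h * b) ^ 2 * Real.exp |b| :=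
          mul_le_mul_of_nonneg_left h1 (sq_nonneg _)
      _ = _ := by ring

/-- Second order expansion of the exponential. -/
theorem gp1_expand {B : Mat N} (hB : B.IsHermitian) :
    ∃ R : ℝ → Mat N, gp1_BdM R ∧ ∀ h : ℝ, mexp (h • B) = 1 + h • B + h ^ 2 • R h := by
  obtain ⟨V, hV, -, e, hf⟩ := gp1_spec hB
  set b := hB.eigenvalues with hb
  refine ⟨fun h => V * diagonal (fun i => (Real.exp (h * b i) - 1 - h * b i) / h ^ 2) * Vᵀ,
    ((gp1_BdM.const V).mul (gp1_BdM.diagonal fun i => gp1_rem_bd (b i))).mul (gp1_BdM.const Vᵀ),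
    fun h => ?_⟩
  have h1 : mexp (h • B) = V * diagonal (fun i => Real.exp (h * b i)) * Vᵀ := by
    have hB' : IsSelfAdjoint B := hB
    exact (cfc_comp_const_mul h Real.exp B Real.continuous_exp.continuousOn hB').symm.trans
      (hf fun x => Real.exp (h * x))
  have h2 : diagonal (fun i => Real.exp (h * b i)) = (1 : Mat N) + h • diagonal b +
      h ^ 2 • diagonal (fun i => (Real.exp (h * b i) - 1 - h * b i) / h ^ 2) := by
    rw [← diagonal_one, ← diagonal_smul, ← diagonal_smul, diagonal_add, diagonal_add]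
    refine congrArg diagonal (funext fun i => ?_)
    simp only [Pi.smul_apply, smul_eq_mul]
    by_cases h0 : h = 0
    · subst h0
      simp
    · field_simp
      ring
  rw [h1, h2, Matrix.mul_add, Matrix.mul_add, Matrix.add_mul, Matrix.add_mul, Matrix.mul_one, hV,
    Matrix.mul_smul, Matrix.mul_smul, Matrix.smul_mul, Matrix.smul_mul, ← e]

theorem first_variation {g B : Mat N} (hg : IsUnit g.det) (hB : B.IsHermitian) :
    ∃ K : ℝ, ∀ h : ℝ, |h| ≤ 1 →
      LL (g * mexp (h • B) * gᵀ) ≤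
        LL (gᵀ * g) + 2 * h * trace (mlog (gᵀ * g) * B) + K * h ^ 2 := by
  have hB2 : ((1 / 2 : ℝ) • B).IsHermitian := by
    rw [IsHermitian, conjTranspose_smul, hB.eq, star_trivial]
  have hBs : ∀ h : ℝ, (h • (1 / 2 : ℝ) • B).IsHermitian := fun h => by
    rw [IsHermitian, conjTranspose_smul, hB2.eq, star_trivial]
  obtain ⟨R, hR, hE⟩ := gp1_expand hB2
  set B' : Mat N := (1 / 2 : ℝ) • B with hB'
  set E : ℝ → Mat N := fun h => mexp (h • B') with hEd
  have hEt : ∀ h, (E h)ᵀ = E h := fun h => by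
    have h1 := (mexp_posDef (hBs h)).isHermitian.eq
    rwa [conjTranspose_eq_transpose_of_trivial] at h1
  have hEE : ∀ h, E h * E (-h) = 1 := fun h => by
    simp only [hEd]
    rw [← mexp_add_smul hB2, add_neg_cancel, zero_smul, mexp_zero]
  have hE2 : ∀ h, mexp (h • B) = E h * E h := fun h => by
    simp only [hEd]
    rw [← mexp_add_smul hB2, hB', smul_smul]
    congr 2
    ring
  have hEu : ∀ h, IsUnit (E h).det := fun h => isUnit_det_of_right_inverse (hEE h)
  have hpd : ∀ M : Mat N, IsUnit M.det → (Mᵀ * M).PosDef := fun M hM => by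
    have h1 := PosDef.conjTranspose_mul_self M
      (mulVec_injective_iff_isUnit.2 ((isUnit_iff_isUnit_det M).2 hM))
    rwa [conjTranspose_eq_transpose_of_trivial] at h1
  have hp := hpd g hg
  set p : Mat N := gᵀ * g with hpdef
  have hq : ∀ h, (g * E h)ᵀ * (g * E h) = E h * p * E h := fun h => by
    rw [transpose_mul, hEt, hpdef]
    simp only [Matrix.mul_assoc]
  have hqu : ∀ h, IsUnit (g * E h).det := fun h => by
    rw [det_mul]
    exact hg.mul (hEu h)
  have hL : ∀ h, LL (g * mexp (h • B) * gᵀ) = LL (E h * p * E h) := fun h => by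
    rw [← hq, ← LL_comm (hqu h), transpose_mul, hEt, hE2]
    simp only [Matrix.mul_assoc]
  have hpu : IsUnit p.det := (isUnit_iff_isUnit_det p).1 hp.isUnit
  have hinv : ∀ h, E h * p * E h * (E (-h) * p⁻¹ * E (-h)) = 1 := fun h => by
    calc E h * p * E h * (E (-h) * p⁻¹ * E (-h))
        = E h * (p * (E h * E (-h)) * p⁻¹) * E (-h) := by simp only [Matrix.mul_assoc]
      _ = 1 := by rw [hEE, Matrix.mul_one, mul_nonsing_inv p hpu, Matrix.mul_one, hEE]
  set T : ℝ → Mat N := fun h => B' + h • R h with hT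
  have hTb : gp1_BdM T := (gp1_BdM.const B').add (gp1_BdM.smul gp1_Bd.id hR)
  have hET : ∀ h, E h = 1 + h • T h := fun h => by
    simp only [hEd, hT]
    rw [hE, smul_add, smul_smul h h, sq, add_assoc]
  have hEb : gp1_BdM E := by
    have h1 := (gp1_BdM.const (1 : Mat N)).add (gp1_BdM.smul gp1_Bd.id hTb)
    exact (funext hET : E = _) ▸ h1
  have hEn : gp1_BdM fun h => E (-h) := fun i j => by
    obtain ⟨C, hC⟩ := hEb i j
    exact ⟨C, fun h hh => hC (-h) (by rwa [abs_neg])⟩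
  obtain ⟨C, hC⟩ := ((hEn.mul (gp1_BdM.const p⁻¹)).mul hEn).trace
  obtain ⟨A, K, hK, hA, hA', hkl⟩ := gp1_klein hp C
  set Z : ℝ → Mat N := fun h => T h * p + p * T h + h • (T h * p * T h) with hZ
  have hZb : gp1_BdM Z :=
    ((hTb.mul (gp1_BdM.const p)).add ((gp1_BdM.const p).mul hTb)).add
      (gp1_BdM.smul gp1_Bd.id ((hTb.mul (gp1_BdM.const p)).mul hTb))
  have hqp : ∀ h, E h * p * E h - p = h • Z h := fun h => by
    rw [hET]
    simp only [hZ, Matrix.add_mul, Matrix.mul_add, Matrix.one_mul, Matrix.mul_one,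
      Matrix.smul_mul, Matrix.mul_smul, smul_add]
    abel
  obtain ⟨C₁, hC₁⟩ := (hZb.mul hZb).trace
  obtain ⟨C₂, hC₂⟩ := ((gp1_BdM.const (mlog p)).mul hR).trace
  obtain ⟨C₃, hC₃⟩ := ((gp1_BdM.const A).mul ((hTb.mul (gp1_BdM.const p)).mul hTb)).trace
  refine ⟨4 * C₂ + C₃ + K * C₁, fun h hh => ?_⟩
  have key := hkl _ _ (hq h ▸ hpd _ (hqu h)) (hinv h) ((le_abs_self _).trans (hC h hh))
  have t1 : trace (A * (T h * p)) = 2 * trace (mlog p * T h) := by
    rw [← Matrix.mul_assoc, trace_mul_cycle, hA', Matrix.smul_mul, trace_smul, smul_eq_mul]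
  have t2 : trace (A * (p * T h)) = 2 * trace (mlog p * T h) := by
    rw [← Matrix.mul_assoc, hA, Matrix.smul_mul, trace_smul, smul_eq_mul]
  have t3 : trace (mlog p * T h) = 1 / 2 * trace (mlog p * B) + h * trace (mlog p * R h) := by
    simp only [hT, hB', Matrix.mul_add, Matrix.mul_smul, trace_add, trace_smul, smul_eq_mul]
  have t4 : trace (A * (h • Z h)) = 2 * h * trace (mlog p * B) +
      h ^ 2 * (4 * trace (mlog p * R h) + trace (A * (T h * p * T h))) := by
    simp only [hZ]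
    rw [Matrix.mul_smul, trace_smul, Matrix.mul_add, Matrix.mul_add, trace_add, trace_add, t1, t2,
      t3, Matrix.mul_smul, trace_smul, smul_eq_mul, smul_eq_mul]
    ring
  have t5 : trace ((h • Z h) * (h • Z h)) = h ^ 2 * trace (Z h * Z h) := by
    rw [Matrix.smul_mul, Matrix.mul_smul, trace_smul, trace_smul, smul_eq_mul, smul_eq_mul]
    ring
  rw [hqp, t4, t5] at key
  rw [hL]
  have b1 := mul_le_mul_of_nonneg_left ((le_abs_self _).trans (hC₁ h hh)) hK
  have b2 := (le_abs_self _).trans (hC₂ h hh)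
  have b3 := (le_abs_self _).trans (hC₃ h hh)
  have b4 : 4 * trace (mlog p * R h) + trace (A * (T h * p * T h)) + K * trace (Z h * Z h) ≤
      4 * C₂ + C₃ + K * C₁ := by linarith
  have b5 := mul_le_mul_of_nonneg_right b4 (sq_nonneg h)
  linarith

end Pool.Agent.P.MP_2d26dd_al
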