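import Pool.Agent.P.MP_2d26dd_al.GP1

/-! Subadditivity. -/

namespace Pool.Agent.P.MP_2d26dd_al

open Matrix

variable {N : ℕ}

open Filter Topology in
theorem gp2_real (φ : ℝ → ℝ) {β : ℝ} (hβ : 0 ≤ β) (hc : Continuous φ) (h0 : ∀ t, 0 ≤ φ t)
    (H : ∀ t, ∃ K : ℝ, ∀ h : ℝ, 0 < h → h ≤ 1 →
      φ (t + h) ≤ φ t + 2 * h * (Real.sqrt (φ t) * β) + K * h ^ 2) :
    Real.sqrt (φ 1) ≤ Real.sqrt (φ 0) + β := by
  refine le_of_forall_pos_le_add fun δ hδ => ?_
  let ψ : ℝ → ℝ := fun t => Real.sqrt (φ t + δ ^ 2)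
  have hψc : Continuous ψ := (hc.add continuous_const).sqrt
  have hsq : ∀ t, ψ t ^ 2 = φ t + δ ^ 2 := fun t =>
    Real.sq_sqrt (add_nonneg (h0 t) (sq_nonneg δ))
  have hψ1 : ∀ t, Real.sqrt (φ t) ≤ ψ t := fun t =>
    Real.sqrt_le_sqrt (le_add_of_nonneg_right (sq_nonneg δ))
  have hψ2 : ∀ t, δ ≤ ψ t := fun t =>
    Real.le_sqrt_of_sq_le (le_add_of_nonneg_left (h0 t))
  have key : ψ 1 ≤ ψ 0 + β * 1 := by
    refine image_le_of_liminf_slope_right_le_deriv_boundary (f := ψ) (a := 0) (b := 1)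
      hψc.continuousOn (B := fun t => ψ 0 + β * t) (B' := fun _ => β) (by simp)
      (by fun_prop) (fun x _ => ?_) (fun x _ r hr => ?_) ⟨zero_le_one, le_rfl⟩
    · have := ((hasDerivAt_id x).const_mul β).const_add (ψ 0)
      rw [mul_one] at this
      exact this.hasDerivWithinAt
    · obtain ⟨K, hK⟩ := H x
      set L : ℝ := |K| / (2 * δ) + 1 with hL
      have hL0 : 0 < L := by positivity
      have hL1 : K ≤ 2 * δ * L := by
        have : 2 * δ * L = |K| + 2 * δ := by rw [hL]; field_simp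
        rw [this]
        linarith [le_abs_self K]
      have hm : 0 < min 1 ((r - β) / L) := lt_min one_pos (div_pos (sub_pos.2 hr) hL0)
      refine Filter.Eventually.frequently ?_
      filter_upwards [Ioo_mem_nhdsGT (show x < x + min 1 ((r - β) / L) by linarith)] with z hz
      obtain ⟨h, rfl⟩ : ∃ h, z = x + h := ⟨z - x, by ring⟩
      have hh0 : 0 < h := by linarith [hz.1]
      have hh1 : h < min 1 ((r - β) / L) := by linarith [hz.2]
      have hh2 : h * L < r - β := (lt_div_iff₀ hL0).1 (hh1.trans_le (min_le_right _ _))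
      have h1 := hK h hh0 (hh1.le.trans (min_le_left _ _))
      have h2 : ψ (x + h) ≤ ψ x + h * (β + h * L) := by
        have hp : 0 ≤ ψ x := hδ.le.trans (hψ2 x)
        have hq : 0 ≤ h * (β + h * L) := by positivity
        refine Real.sqrt_le_iff.2 ⟨add_nonneg hp hq, ?_⟩
        have a1 : Real.sqrt (φ x) * β ≤ ψ x * β := mul_le_mul_of_nonneg_right (hψ1 x) hβ
        have a2 : K * h ^ 2 ≤ 2 * ψ x * L * h ^ 2 := by
          refine mul_le_mul_of_nonneg_right (hL1.trans ?_) (sq_nonneg h)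
          exact mul_le_mul_of_nonneg_right (by linarith [hψ2 x]) hL0.le
        have a3 : 2 * h * (Real.sqrt (φ x) * β) ≤ 2 * h * (ψ x * β) :=
          mul_le_mul_of_nonneg_left a1 (by positivity)
        have a4 : (ψ x + h * (β + h * L)) ^ 2 =
            ψ x ^ 2 + 2 * h * (ψ x * β) + 2 * ψ x * L * h ^ 2 + (h * (β + h * L)) ^ 2 := by ring
        rw [a4, hsq x]
        linarith [sq_nonneg (h * (β + h * L))]
      rw [slope_def_field, add_sub_cancel_left, div_lt_iff₀ hh0]
      nlinarith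
  have h3 : ψ 0 ≤ Real.sqrt (φ 0) + δ := by
    refine Real.sqrt_le_iff.2 ⟨by positivity, ?_⟩
    have a1 := Real.sq_sqrt (h0 0)
    have a2 := mul_nonneg (Real.sqrt_nonneg (φ 0)) hδ.le
    nlinarith
  linarith [hψ1 1]

theorem gp2_symm {X : Mat N} (hX : X.IsHermitian) : Xᵀ = X := by
  rw [← conjTranspose_eq_transpose_of_trivial]
  exact hX.eq

theorem gp2_trace {X B : Mat N} (hB : B.IsHermitian) :
    trace (X * B) = ∑ p : Fin N × Fin N, X p.1 p.2 * B p.1 p.2 := by
  rw [Fintype.sum_prod_type]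
  refine Finset.sum_congr rfl fun i _ => ?_
  rw [diag_apply, mul_apply]
  refine Finset.sum_congr rfl fun j _ => ?_
  rw [← transpose_apply B i j, gp2_symm hB]

theorem gp2_cs {X B : Mat N} (hX : X.IsHermitian) (hB : B.IsHermitian) :
    trace (X * B) ≤ Real.sqrt (trace (X * X)) * Real.sqrt (trace (B * B)) := by
  rw [gp2_trace hB, gp2_trace hX, gp2_trace hB]
  simpa only [sq] using Real.sum_mul_le_sqrt_mul_sqrt Finset.univ
    (fun p : Fin N × Fin N => X p.1 p.2) fun p => B p.1 p.2

theorem gp2_pos {g p : Mat N} (hg : IsUnit g.det) (hp : p.PosDef) : (g * p * gᵀ).PosDef := by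
  have h := hp.mul_mul_conjTranspose_same
    (vecMul_injective_of_isUnit ((isUnit_iff_isUnit_det g).2 hg))
  rwa [conjTranspose_eq_transpose_of_trivial] at h

theorem gp2_herm {B : Mat N} (hB : B.IsHermitian) (t : ℝ) : (t • B).IsHermitian :=
  hB.smul (IsSelfAdjoint.all t)

open scoped Matrix.Norms.L2Operator in
theorem gp2_cont {g B : Mat N} (hg : IsUnit g.det) (hB : B.IsHermitian) :
    Continuous fun t : ℝ => LL (g * mexp (t • B) * gᵀ) := by
  have h1 : Continuous fun t : ℝ => mexp (t • B) :=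
    Continuous.cfc_of_mem_nhdsSet (s := Set.univ) Real.exp Filter.univ_mem
      (continuous_id.smul continuous_const) (fun t => (gp2_herm hB t).isSelfAdjoint)
      Real.continuous_exp.continuousOn
  have hp : ∀ t : ℝ, (g * mexp (t • B) * gᵀ).PosDef := fun t =>
    gp2_pos hg (mexp_posDef (gp2_herm hB t))
  have h2 : Continuous fun t : ℝ => mlog (g * mexp (t • B) * gᵀ) := by
    refine Continuous.cfc_of_mem_nhdsSet (s := Set.Ioi 0) Real.log ?_
      ((continuous_const.mul h1).mul continuous_const)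
      (fun t => (hp t).isHermitian.isSelfAdjoint)
      (Real.continuousOn_log.mono fun x hx => ne_of_gt hx)
    refine isOpen_Ioi.mem_nhdsSet.2 (Set.iUnion_subset fun t x hx => ?_)
    exact gp0_pos (hp t) hx
  exact (h2.mul h2).matrix_trace

theorem subadd {g B : Mat N} (hg : IsUnit g.det) (hB : B.IsHermitian) :
    Real.sqrt (LL (g * mexp B * gᵀ)) ≤
      Real.sqrt (LL (g * gᵀ)) + Real.sqrt (trace (B * B)) := by
  have key := gp2_real (fun t : ℝ => LL (g * mexp (t • B) * gᵀ))
    (Real.sqrt_nonneg (trace (B * B))) (gp2_cont hg hB) (fun t => LL_nonneg _) fun t => by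
      have hE := mexp_posDef (gp2_herm hB (t / 2))
      have hu : IsUnit (g * mexp ((t / 2) • B)).det := by
        rw [det_mul]
        exact hg.mul ((isUnit_iff_isUnit_det _).1 hE.isUnit)
      have e : ∀ h : ℝ, g * mexp ((t / 2) • B) * mexp (h • B) * (g * mexp ((t / 2) • B))ᵀ =
          g * mexp ((t + h) • B) * gᵀ := fun h => by
        rw [transpose_mul, gp2_symm hE.isHermitian, show t + h = t / 2 + h + t / 2 by ring,
          mexp_add_smul hB, mexp_add_smul hB]
        simp only [Matrix.mul_assoc]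
      have e0 : LL ((g * mexp ((t / 2) • B))ᵀ * (g * mexp ((t / 2) • B))) =
          LL (g * mexp (t • B) * gᵀ) := by
        have h := e 0
        rw [zero_smul, mexp_zero, Matrix.mul_one, add_zero] at h
        rw [← LL_comm hu, h]
      obtain ⟨K, hK⟩ := first_variation hu hB
      refine ⟨K, fun h h0 h1 => ?_⟩
      have h2 := hK h (by rwa [abs_of_pos h0])
      have h3 := gp2_cs (mlog_isHermitian
        ((g * mexp ((t / 2) • B))ᵀ * (g * mexp ((t / 2) • B)))) hB
      rw [← LL, e0] at h3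
      rw [e, e0] at h2
      have h4 := mul_le_mul_of_nonneg_left h3 (show 0 ≤ 2 * h by positivity)
      linarith
  simpa only [one_smul, zero_smul, mexp_zero, Matrix.mul_one] using key

theorem subadd_mul {g h : Mat N} (hg : IsUnit g.det) (hh : IsUnit h.det) :
    Real.sqrt (LL (g * h * (g * h)ᵀ)) ≤ Real.sqrt (LL (g * gᵀ)) + Real.sqrt (LL (h * hᵀ)) := by
  have hp : (h * hᵀ).PosDef := by
    have := gp2_pos hh PosDef.one
    rwa [Matrix.mul_one] at this
  have key := subadd hg (mlog_isHermitian (h * hᵀ))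
  rw [mexp_mlog hp, ← LL] at key
  rw [transpose_mul, show g * h * (hᵀ * gᵀ) = g * (h * hᵀ) * gᵀ by simp only [Matrix.mul_assoc]]
  exact key

end Pool.Agent.P.MP_2d26dd_al
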