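import Pool.Agent.P.MP_2d26dd_al.GP2

/-! The exponential map does not decrease distances. -/

namespace Pool.Agent.P.MP_2d26dd_al

open Matrix

variable {N : ℕ}

theorem gp3_symm {p : Mat N} (hp : p.IsHermitian) : pᵀ = p := by
  rw [← conjTranspose_eq_transpose_of_trivial]; exact hp

theorem gp3_smul {A : Mat N} (hA : A.IsHermitian) (t : ℝ) : (t • A).IsHermitian :=
  hA.smul (IsSelfAdjoint.all t)

theorem gp3_unit {p : Mat N} (hp : p.PosDef) : IsUnit p.det := hp.det_pos.ne'.isUnit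

theorem gp3_posDef {c e : Mat N} (hc : c.PosDef) (he : e.PosDef) : (c * e * c).PosDef := by
  have := he.conjTranspose_mul_mul_same (B := c)
    (mulVec_injective_iff_isUnit.2 hc.isUnit)
  rwa [hc.isHermitian.eq] at this

theorem gp3_pow_le {g : Mat N} (hg : IsUnit g.det) (m : ℕ) :
    Real.sqrt (LL (g ^ m * (g ^ m)ᵀ)) ≤ m * Real.sqrt (LL (g * gᵀ)) := by
  induction m with
  | zero =>
    have h : mlog (1 : Mat N) = 0 := by rw [← mexp_zero, mlog_mexp isHermitian_zero]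
    simp [LL, h]
  | succ m ih =>
    have := subadd_mul (g := g ^ m) (h := g) (by rw [det_pow]; exact hg.pow m) hg
    rw [pow_succ]
    push_cast
    linarith

theorem gp3_pow_eq {D : Mat N} (hD : D.PosDef) (m : ℕ) :
    Real.sqrt (LL (D ^ m * (D ^ m)ᵀ)) = 2 * m * Real.sqrt (LL D) := by
  have hL := mlog_isHermitian D
  have h1 : ∀ k : ℕ, D ^ k = mexp ((k : ℝ) • mlog D) := by
    intro k
    induction k with
    | zero => simp [mexp_zero]
    | succ k ih => rw [pow_succ, ih, Nat.cast_succ, mexp_add_smul hL, one_smul, mexp_mlog hD]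
  rw [gp3_symm (hD.isHermitian.pow m), h1, ← mexp_add_smul hL, LL, mlog_mexp (gp3_smul hL _),
    smul_mul_smul_comm, trace_smul, smul_eq_mul, Real.sqrt_mul (by positivity),
    Real.sqrt_mul_self (by positivity), LL]
  ring

theorem half_ineq {A B : Mat N} (hA : A.IsHermitian) (hB : B.IsHermitian) :
    4 * LL (mexp ((-(1 / 4) : ℝ) • A) * mexp ((1 / 2 : ℝ) • B) * mexp ((-(1 / 4) : ℝ) • A)) ≤
      LL (mexp ((-(1 / 2) : ℝ) • A) * mexp B * mexp ((-(1 / 2) : ℝ) • A)) := by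
  have hc := mexp_posDef (gp3_smul hA (-(1 / 4)))
  have hc' := mexp_posDef (gp3_smul hA (1 / 4))
  have he := mexp_posDef (gp3_smul hB (1 / 2))
  have e1 : mexp ((1 / 4 : ℝ) • A) * mexp ((-(1 / 4) : ℝ) • A) = 1 := by
    rw [← mexp_add_smul hA, add_neg_cancel, zero_smul, mexp_zero]
  have e2 : mexp ((-(1 / 2) : ℝ) • A) = mexp ((-(1 / 4) : ℝ) • A) * mexp ((-(1 / 4) : ℝ) • A) := by
    rw [← mexp_add_smul hA]; norm_num
  have e3 : mexp B = mexp ((1 / 2 : ℝ) • B) * mexp ((1 / 2 : ℝ) • B) := by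
    rw [← mexp_add_smul hB]; norm_num
  rw [e2, e3]
  generalize mexp ((-(1 / 4) : ℝ) • A) = c at hc e1
  generalize mexp ((1 / 4 : ℝ) • A) = c' at hc' e1
  generalize mexp ((1 / 2 : ℝ) • B) = e at he
  have hD := gp3_posDef hc he
  have hg : IsUnit (c * c * e).det := by
    rw [det_mul, det_mul]; exact ((gp3_unit hc).mul (gp3_unit hc)).mul (gp3_unit he)
  have e4 : c * c * (e * e) * (c * c) = c * c * e * (c * c * e)ᵀ := by
    simp only [transpose_mul, gp3_symm hc.isHermitian, gp3_symm he.isHermitian, mul_assoc]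
  have e5 : ∀ m : ℕ, (c * e * c) ^ m = c' * (c * c * e) ^ m * c := by
    intro m
    induction m with
    | zero => simp [e1]
    | succ m ih => rw [pow_succ, ih, pow_succ]; simp only [mul_assoc]
  have e6 : ∀ m : ℕ, 2 * m * Real.sqrt (LL (c * e * c)) ≤ Real.sqrt (LL (c' * c'ᵀ)) +
      m * Real.sqrt (LL (c * c * e * (c * c * e)ᵀ)) + Real.sqrt (LL (c * cᵀ)) := by
    intro m
    have hm : IsUnit ((c * c * e) ^ m).det := by rw [det_pow]; exact hg.pow m
    have a1 := subadd_mul (g := c' * (c * c * e) ^ m) (h := c)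
      (by rw [det_mul]; exact (gp3_unit hc').mul hm) (gp3_unit hc)
    have a2 := subadd_mul (gp3_unit hc') hm
    have a3 := gp3_pow_le hg m
    rw [← gp3_pow_eq hD, e5]
    linarith
  rw [e4]
  have e7 : 2 * Real.sqrt (LL (c * e * c)) ≤ Real.sqrt (LL (c * c * e * (c * c * e)ᵀ)) := by
    by_contra h
    have h0 := sub_pos.2 (not_le.1 h)
    obtain ⟨m, hm⟩ := exists_nat_gt ((Real.sqrt (LL (c' * c'ᵀ)) + Real.sqrt (LL (c * cᵀ))) /
      (2 * Real.sqrt (LL (c * e * c)) - Real.sqrt (LL (c * c * e * (c * c * e)ᵀ))))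
    rw [div_lt_iff₀ h0] at hm
    have := e6 m
    linarith
  have e8 := pow_le_pow_left₀ (by positivity) e7 2
  rw [mul_pow, Real.sq_sqrt (LL_nonneg _), Real.sq_sqrt (LL_nonneg _)] at e8
  linarith

theorem gp3_spec {A : Mat N} (hA : A.IsHermitian) : ∃ Φ : (Fin N → ℝ) →ₐ[ℝ] Mat N,
    Continuous Φ ∧ (∀ f : ℝ → ℝ, cfc f A = Φ fun i => f (hA.eigenvalues i)) ∧
      ∀ d, trace (Φ d) = ∑ i, d i := by
  have hc : ∀ Φ : (Fin N → ℝ) →ₐ[ℝ] Mat N, Continuous Φ := fun Φ =>
    LinearMap.continuous_of_finiteDimensional Φ.toLinearMap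
  refine ⟨(Unitary.conjStarAlgAut ℝ _ hA.eigenvectorUnitary).toAlgEquiv.toAlgHom.comp
    (diagonalAlgHom ℝ), hc _, fun f => hA.cfc_eq f, fun d => ?_⟩
  change trace (Unitary.conjStarAlgAut ℝ _ hA.eigenvectorUnitary (diagonal d)) = _
  rw [Unitary.conjStarAlgAut_apply, trace_mul_comm, ← mul_assoc]
  simp

open Filter Topology in
theorem gp3_slope {A : Mat N} (hA : A.IsHermitian) :
    Tendsto (fun t : ℝ => t⁻¹ • (mexp (t • A) - 1)) (𝓝[≠] 0) (𝓝 A) ∧
      Tendsto (fun t : ℝ => mexp (t • A)) (𝓝[≠] 0) (𝓝 1) := by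
  obtain ⟨Φ, hc, hf, -⟩ := gp3_spec hA
  have h1 : ∀ t : ℝ, mexp (t • A) = Φ fun i => Real.exp (t * hA.eigenvalues i) := fun t => by
    rw [mexp, ← cfc_comp_const_mul t Real.exp A (by fun_prop) hA.isSelfAdjoint, hf]
  have h2 : A = Φ fun i => hA.eigenvalues i := by
    rw [← hf (fun x => x), cfc_id' ℝ A hA.isSelfAdjoint]
  have h3 : ∀ x : ℝ, HasDerivAt (fun t : ℝ => Real.exp (t * x)) x 0 := fun x => by
    simpa using ((hasDerivAt_id (0 : ℝ)).mul_const x).exp
  constructor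
  · have h4 : Tendsto (fun (t : ℝ) (i : Fin N) => t⁻¹ * (Real.exp (t * hA.eigenvalues i) - 1))
        (𝓝[≠] 0) (𝓝 fun i => hA.eigenvalues i) := tendsto_pi_nhds.2 fun i => by
      simpa using hasDerivAt_iff_tendsto_slope_zero.1 (h3 (hA.eigenvalues i))
    have h5 := (hc.tendsto _).comp h4
    rw [← h2] at h5
    refine h5.congr fun t => ?_
    rw [h1, ← map_one Φ, ← map_sub, ← map_smul]
    rfl
  · have h4 : Tendsto (fun (t : ℝ) (i : Fin N) => Real.exp (t * hA.eigenvalues i))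
        (𝓝[≠] 0) (𝓝 1) := tendsto_pi_nhds.2 fun i => by
      simpa using (h3 (hA.eigenvalues i)).continuousAt.tendsto.mono_left nhdsWithin_le_nhds
    have h5 := (hc.tendsto _).comp h4
    rw [map_one] at h5
    exact h5.congr fun t => (h1 t).symm

theorem gp3_log {x r : ℝ} (hx : 0 < x) (hr : |x - 1| ≤ r) :
    (x - 1) ^ 2 ≤ (1 + r) ^ 2 * Real.log x ^ 2 := by
  rw [← mul_pow, sq_le_sq, abs_mul, abs_of_nonneg (show 0 ≤ 1 + r by linarith [abs_nonneg (x - 1)])]
  rcases le_total 1 x with h | h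
  · have h1 := Real.one_sub_inv_le_log_of_pos hx
    have h2 := Real.log_nonneg h
    rw [abs_of_nonneg (sub_nonneg.2 h)] at hr ⊢
    rw [abs_of_nonneg h2]
    have h3 := mul_le_mul_of_nonneg_left h1 hx.le
    rw [mul_sub, mul_inv_cancel₀ hx.ne'] at h3
    nlinarith
  · have h1 := Real.log_le_sub_one_of_pos hx
    have h2 := Real.log_nonpos hx.le h
    have h3 := abs_nonneg (x - 1)
    rw [abs_of_nonpos h2, abs_of_nonpos (sub_nonpos.2 h)]
    nlinarith

theorem gp3_lower {p : Mat N} (hp : p.PosDef) : trace ((p - 1) * (p - 1)) ≤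
    (1 + Real.sqrt (trace ((p - 1) * (p - 1)))) ^ 2 * LL p := by
  obtain ⟨Φ, -, hf, ht⟩ := gp3_spec hp.isHermitian
  have h2 : p = Φ fun i => hp.isHermitian.eigenvalues i := by
    rw [← hf (fun x => x), cfc_id' ℝ p hp.isHermitian.isSelfAdjoint]
  have h3 : trace ((p - 1) * (p - 1)) = ∑ i, (hp.isHermitian.eigenvalues i - 1) ^ 2 := by
    conv_lhs => rw [h2, ← map_one Φ, ← map_sub, ← map_mul, ht]
    exact Finset.sum_congr rfl fun i _ => (sq _).symm
  rw [LL_eq_sum hp, Finset.mul_sum, h3]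
  refine Finset.sum_le_sum fun i _ => gp3_log (hp.eigenvalues_pos i) (Real.abs_le_sqrt ?_)
  exact Finset.single_le_sum (f := fun i => (hp.isHermitian.eigenvalues i - 1) ^ 2)
    (fun _ _ => sq_nonneg _) (Finset.mem_univ i)

theorem emi {A B : Mat N} (hA : A.IsHermitian) (hB : B.IsHermitian) :
    trace ((A - B) * (A - B)) ≤
      LL (mexp ((-(1 / 2) : ℝ) • A) * mexp B * mexp ((-(1 / 2) : ℝ) • A)) := by
  set A' : Mat N := (-(1 / 2) : ℝ) • A with hA'
  have hA2 : A'.IsHermitian := gp3_smul hA _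
  let P : ℝ → Mat N := fun t => mexp (t • A') * mexp (t • B) * mexp (t • A')
  have hP : ∀ t, (P t).PosDef := fun t =>
    gp3_posDef (mexp_posDef (gp3_smul hA2 t)) (mexp_posDef (gp3_smul hB t))
  have h1 : ∀ t : ℝ, 4 * LL (P (t * (1 / 2))) ≤ LL (P t) := by
    intro t
    have := half_ineq (gp3_smul hA t) (gp3_smul hB t)
    have a1 : (-(1 / 4) : ℝ) • t • A = (t * (1 / 2)) • A' := by
      rw [hA', smul_smul, smul_smul]; congr 1; ring
    have a2 : (-(1 / 2) : ℝ) • t • A = t • A' := smul_comm _ _ _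
    have a3 : (1 / 2 : ℝ) • t • B = (t * (1 / 2)) • B := by rw [smul_smul, mul_comm]
    rwa [a1, a2, a3] at this
  have h2 : ∀ k : ℕ, 4 ^ k * LL (P ((1 / 2) ^ k)) ≤ LL (P 1) := by
    intro k
    induction k with
    | zero => simp
    | succ k ih =>
      have := mul_le_mul_of_nonneg_left (h1 ((1 / 2) ^ k)) (show (0 : ℝ) ≤ 4 ^ k by positivity)
      rw [pow_succ, pow_succ]
      linarith
  obtain ⟨a1, a2⟩ := gp3_slope hA2
  obtain ⟨b1, b2⟩ := gp3_slope hB
  have ht : Filter.Tendsto (fun k : ℕ => (1 / 2 : ℝ) ^ k) Filter.atTop (nhdsWithin 0 {0}ᶜ) :=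
    tendsto_nhdsWithin_iff.2 ⟨tendsto_pow_atTop_nhds_zero_of_lt_one (by norm_num) (by norm_num),
      Filter.Eventually.of_forall fun k => (show (0 : ℝ) < (1 / 2) ^ k by positivity).ne'⟩
  have h3 : Filter.Tendsto (fun t : ℝ => t⁻¹ • (P t - 1)) (nhdsWithin 0 {0}ᶜ) (nhds (B - A)) := by
    have := (((a1.mul b2).mul a2).add (b1.mul a2)).add a1
    have e : A' * 1 * 1 + B * 1 + A' = B - A := by
      rw [mul_one, mul_one, mul_one, hA']
      module
    rw [e] at this
    refine this.congr fun t => ?_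
    simp only [P, smul_mul_assoc, ← smul_add]
    congr 1
    noncomm_ring
  have h4 : Filter.Tendsto (fun t : ℝ => P t - 1) (nhdsWithin 0 {0}ᶜ) (nhds 0) := by
    simpa using ((a2.mul b2).mul a2).sub_const 1
  have hc : Continuous fun M : Mat N => trace (M * M) := by fun_prop
  have h5 := (hc.tendsto _).comp (h3.comp ht)
  have h6 := (((((hc.tendsto _).comp (h4.comp ht)).sqrt).const_add 1).pow 2).mul_const (LL (P 1))
  have h7 := le_of_tendsto_of_tendsto' h5 h6 fun k => by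
    simp only [Function.comp_apply]
    have c1 := gp3_lower (hP ((1 / 2) ^ k))
    have c2 := mul_le_mul_of_nonneg_left (h2 k)
      (sq_nonneg (1 + Real.sqrt (trace ((P ((1 / 2) ^ k) - 1) * (P ((1 / 2) ^ k) - 1)))))
    have c3 := mul_le_mul_of_nonneg_left c1 (show (0 : ℝ) ≤ 4 ^ k by positivity)
    have c4 : ((1 / 2 : ℝ) ^ k)⁻¹ * ((1 / 2 : ℝ) ^ k)⁻¹ = 4 ^ k := by
      rw [← inv_pow, ← mul_pow]; norm_num
    rw [smul_mul_smul_comm, trace_smul, smul_eq_mul, c4]
    linarith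
  have e : (B - A) * (B - A) = (A - B) * (A - B) := by noncomm_ring
  simpa [e, P] using h7

end Pool.Agent.P.MP_2d26dd_al
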