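import Pool.Agent.P.MP_2d26dd_al.GP3

/-! The symmetric space of positive definite matrices. -/

namespace Pool.Agent.P.MP_2d26dd_al

open Matrix

namespace GP4

variable {N : ℕ}

theorem herm_tr {A : Mat N} (h : A.IsHermitian) : Aᵀ = A := by
  have := h.eq
  rwa [conjTranspose_eq_transpose_of_trivial] at this

theorem herm_of_tr {A : Mat N} (h : Aᵀ = A) : A.IsHermitian := by
  unfold IsHermitian
  rwa [conjTranspose_eq_transpose_of_trivial]

theorem herm_smul {A : Mat N} (h : A.IsHermitian) (t : ℝ) : (t • A).IsHermitian :=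
  herm_of_tr (by rw [transpose_smul, herm_tr h])

theorem mexp_tr {A : Mat N} (h : A.IsHermitian) : (mexp A)ᵀ = mexp A :=
  herm_tr (mexp_posDef h).isHermitian

theorem mexp_cancel {A : Mat N} (h : A.IsHermitian) (s t : ℝ) (hst : s + t = 0) :
    mexp (s • A) * mexp (t • A) = 1 := by
  rw [← mexp_add_smul h, hst, zero_smul, mexp_zero]

theorem mlog_one : mlog (1 : Mat N) = 0 := by
  rw [← mexp_zero, mlog_mexp isHermitian_zero]

theorem posDef_conj {a p : Mat N} (ha : IsUnit a.det) (hp : p.PosDef) : (a * p * aᵀ).PosDef := by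
  have h1 : IsUnit a := (isUnit_iff_isUnit_det a).2 ha
  have := (Matrix.IsUnit.posDef_star_right_conjugate_iff (x := p) h1).2 hp
  rwa [star_eq_conjTranspose, conjTranspose_eq_transpose_of_trivial] at this

theorem trace_sq {A : Mat N} (h : A.IsHermitian) :
    trace (A * A) = ∑ ij : Fin N × Fin N, A ij.1 ij.2 ^ 2 := by
  rw [Fintype.sum_prod_type]
  simp only [trace, diag, mul_apply]
  refine Finset.sum_congr rfl fun i _ => Finset.sum_congr rfl fun j _ => ?_
  have : A j i = A i j := by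
    have := congrFun (congrFun (herm_tr h) i) j
    simpa using this
  rw [this, sq]

theorem eq_zero_of_trace_sq {A : Mat N} (h : A.IsHermitian) (h0 : trace (A * A) ≤ 0) : A = 0 := by
  rw [trace_sq h] at h0
  have h1 : ∑ ij : Fin N × Fin N, A ij.1 ij.2 ^ 2 = 0 :=
    le_antisymm h0 (Finset.sum_nonneg fun _ _ => sq_nonneg _)
  rw [Finset.sum_eq_zero_iff_of_nonneg fun _ _ => sq_nonneg _] at h1
  ext i j
  have := h1 (i, j) (Finset.mem_univ _)
  simpa using this

/-- A matrix as a Euclidean vector. -/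
noncomputable def vec (A : Mat N) : EuclideanSpace ℝ (Fin N × Fin N) :=
  WithLp.toLp 2 fun ij => A ij.1 ij.2

theorem norm_vec {A : Mat N} (h : A.IsHermitian) : ‖vec A‖ = Real.sqrt (trace (A * A)) := by
  rw [EuclideanSpace.norm_eq, trace_sq h]
  simp [vec]

theorem vec_sub (A B : Mat N) : vec (A - B) = vec A - vec B := rfl

theorem vec_smul (t : ℝ) (A : Mat N) : vec (t • A) = t • vec A := rfl

theorem vec_sum {n : ℕ} (A : Fin n → Mat N) : vec (∑ k, A k) = ∑ k, vec (A k) := by
  ext ij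
  simp [vec, Matrix.sum_apply]

theorem vec_zero : vec (0 : Mat N) = 0 := rfl

theorem trace_cfc {A : Mat N} (h : A.IsHermitian) (f : ℝ → ℝ) :
    trace (cfc f A) = ∑ i, f (h.eigenvalues i) := by
  rw [h.cfc_eq, IsHermitian.cfc, Unitary.conjStarAlgAut_apply, trace_mul_comm, ← mul_assoc]
  simp

theorem sq_le_exp (x : ℝ) : x * x ≤ Real.exp x + Real.exp (-x) - 2 := by
  have h : ∀ y : ℝ, 0 ≤ y → y * y ≤ Real.exp y + Real.exp (-y) - 2 := by
    intro y hy
    have h1 := Real.self_le_sinh_iff (x := y / 2) |>.2 (by linarith)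
    have h2 : Real.cosh y = 2 * Real.sinh (y / 2) ^ 2 + 1 := by
      have h3 := Real.cosh_two_mul (y / 2)
      have h4 := Real.cosh_sq (y / 2)
      rw [show 2 * (y / 2) = y by ring] at h3
      linarith
    have h5 := Real.cosh_eq y
    nlinarith
  rcases le_total 0 x with hx | hx
  · exact h x hx
  · have := h (-x) (by linarith)
    rw [neg_neg] at this
    linarith

theorem trace_sq_le {A : Mat N} (h : A.IsHermitian) :
    trace (A * A) ≤ trace (mexp A) + trace (mexp ((-1 : ℝ) • A)) - 2 * N := by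
  have hA : IsSelfAdjoint A := h
  have h1 : A * A = cfc (fun x : ℝ => x * x) A := by
    rw [cfc_mul (fun x : ℝ => x) (fun x : ℝ => x) A, cfc_id' ℝ A]
  have h2 : mexp ((-1 : ℝ) • A) = cfc (fun x : ℝ => Real.exp (-x)) A := by
    rw [mexp, neg_one_smul, ← cfc_comp_neg Real.exp A]
  rw [h1, h2, mexp, trace_cfc h, trace_cfc h, trace_cfc h, ← Finset.sum_add_distrib]
  have : (2 * N : ℝ) = ∑ _i : Fin N, (2 : ℝ) := by simp [mul_comm]
  rw [this, ← Finset.sum_sub_distrib]
  exact Finset.sum_le_sum fun i _ => sq_le_exp _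

open scoped Matrix.Norms.Operator in
theorem mexp_eq {A : Mat N} (h : A.IsHermitian) : mexp A = NormedSpace.exp A :=
  @CFC.real_exp_eq_normedSpace_exp (Mat N) _ _ _
    Matrix.IsHermitian.instContinuousFunctionalCalculus A h

open scoped Matrix.Norms.Operator in
theorem cont_exp : Continuous (NormedSpace.exp : Mat N → Mat N) :=
  NormedSpace.exp_continuous

/-- Positive definite matrices. -/
@[ext] structure PD (N : ℕ) where
  m : Mat N
  pos : m.PosDef

/-- Square root. -/
noncomputable def sr (p : PD N) : Mat N := mexp ((1 / 2 : ℝ) • mlog p.m)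

/-- Inverse square root. -/
noncomputable def isr (p : PD N) : Mat N := mexp ((-(1 / 2) : ℝ) • mlog p.m)

theorem sr_tr (p : PD N) : (sr p)ᵀ = sr p := mexp_tr (herm_smul (mlog_isHermitian _) _)

theorem isr_tr (p : PD N) : (isr p)ᵀ = isr p := mexp_tr (herm_smul (mlog_isHermitian _) _)

theorem sr_isr (p : PD N) : sr p * isr p = 1 := mexp_cancel (mlog_isHermitian _) _ _ (by ring)

theorem isr_sr (p : PD N) : isr p * sr p = 1 := mexp_cancel (mlog_isHermitian _) _ _ (by ring)

theorem sr_sr (p : PD N) : sr p * sr p = p.m := by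
  rw [sr, ← mexp_add_smul (mlog_isHermitian _)]
  norm_num
  exact mexp_mlog p.pos

theorem sr_isr' (p : PD N) (x : Mat N) : sr p * (isr p * x) = x := by
  rw [← mul_assoc, sr_isr, one_mul]

theorem isr_sr' (p : PD N) (x : Mat N) : isr p * (sr p * x) = x := by
  rw [← mul_assoc, isr_sr, one_mul]

theorem unit_of_mul {a b : Mat N} (h : a * b = 1) : IsUnit a.det :=
  isUnit_det_of_right_inverse h

theorem sr_unit (p : PD N) : IsUnit (sr p).det := unit_of_mul (sr_isr p)

theorem isr_unit (p : PD N) : IsUnit (isr p).det := unit_of_mul (isr_sr p)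

theorem unit_mul {a b : Mat N} (ha : IsUnit a.det) (hb : IsUnit b.det) : IsUnit (a * b).det := by
  rw [det_mul]
  exact ha.mul hb

theorem mexp_unit {A : Mat N} (h : A.IsHermitian) (t : ℝ) : IsUnit (mexp (t • A)).det :=
  unit_of_mul (mexp_cancel h t (-t) (by ring))

/-- The point `q` seen from `p`. -/
noncomputable def rel (p q : PD N) : Mat N := isr p * q.m * isr p

theorem rel_pos (p q : PD N) : (rel p q).PosDef := by
  have := posDef_conj (isr_unit p) q.pos
  rwa [isr_tr] at this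

theorem rel_self (p : PD N) : rel p p = 1 := by
  rw [rel, ← sr_sr p]
  simp only [isr_sr', sr_isr]

/-- The logarithm map. -/
noncomputable def lg (p q : PD N) : Mat N := mlog (rel p q)

theorem lg_herm (p q : PD N) : (lg p q).IsHermitian := mlog_isHermitian _

theorem mexp_lg (p q : PD N) : mexp (lg p q) = rel p q := mexp_mlog (rel_pos p q)

/-- The distance. -/
noncomputable def dd (p q : PD N) : ℝ := Real.sqrt (LL (rel p q))

theorem trace_conj {k A : Mat N} (hk : kᵀ * k = 1) :
    trace (k * A * kᵀ * (k * A * kᵀ)) = trace (A * A) := by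
  have : k * A * kᵀ * (k * A * kᵀ) = k * (A * A * kᵀ) := by
    simp only [mul_assoc]
    rw [← mul_assoc kᵀ k, hk, one_mul]
  rw [this, trace_mul_comm, mul_assoc, hk, mul_one]

theorem frame {a : Mat N} {p : PD N} (ha : a * p.m * aᵀ = 1) :
    ∃ k : Mat N, kᵀ * k = 1 ∧ ∀ x : PD N, lg p x = k * mlog (a * x.m * aᵀ) * kᵀ := by
  have h1 : (sr p * aᵀ)ᵀ * (sr p * aᵀ) = 1 := by
    rw [transpose_mul, transpose_transpose, sr_tr, ← ha, ← sr_sr p]
    simp only [mul_assoc]
  have h2 : (sr p * aᵀ) * (sr p * aᵀ)ᵀ = 1 := mul_eq_one_comm.1 h1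
  refine ⟨sr p * aᵀ, h1, fun x => ?_⟩
  have h3 : a * x.m * aᵀ = (sr p * aᵀ)ᵀ * rel p x * (sr p * aᵀ) := by
    rw [transpose_mul, transpose_transpose, sr_tr, rel]
    simp only [mul_assoc, sr_isr', isr_sr']
  rw [h3, mlog_conj h2 (rel_pos p x), lg]
  generalize sr p * aᵀ = k at h2
  simp only [mul_assoc]
  rw [h2, mul_one, ← mul_assoc, h2, one_mul]

theorem LL_frame {a : Mat N} {p : PD N} (ha : a * p.m * aᵀ = 1) (x : PD N) :
    LL (rel p x) = LL (a * x.m * aᵀ) := by
  obtain ⟨k, hk, h⟩ := frame ha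
  have := h x
  rw [lg] at this
  rw [LL, this, trace_conj hk, LL]

theorem gg (p q : PD N) : (isr p * sr q) * (isr p * sr q)ᵀ = rel p q := by
  rw [transpose_mul, sr_tr, isr_tr, rel, ← sr_sr q]
  simp only [mul_assoc]

theorem gg' (p q : PD N) : (isr p * sr q)ᵀ * (isr p * sr q) = (rel q p)⁻¹ := by
  symm
  apply inv_eq_left_inv
  rw [transpose_mul, sr_tr, isr_tr, rel, ← sr_sr p]
  simp only [mul_assoc, sr_isr', isr_sr', sr_isr]

theorem LL_inv {x : Mat N} (hx : x.PosDef) : LL x⁻¹ = LL x := by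
  rw [LL, mlog_inv hx, neg_mul_neg, LL]

theorem LL_symm (p q : PD N) : LL (rel p q) = LL (rel q p) := by
  rw [← gg p q, LL_comm (unit_mul (isr_unit p) (sr_unit q)), gg', LL_inv (rel_pos q p)]

theorem dd_triangle (p q r : PD N) : dd p r ≤ dd p q + dd q r := by
  have := subadd_mul (unit_mul (isr_unit p) (sr_unit q)) (unit_mul (isr_unit q) (sr_unit r))
  have h1 : isr p * sr q * (isr q * sr r) = isr p * sr r := by
    simp only [mul_assoc, sr_isr']
  rwa [h1, gg, gg, gg] at this

theorem eq_of_dd {p q : PD N} (h : dd p q = 0) : p = q := by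
  have h1 : LL (rel p q) ≤ 0 := Real.sqrt_eq_zero'.1 h
  have h2 : lg p q = 0 := eq_zero_of_trace_sq (lg_herm p q) h1
  have h3 : rel p q = 1 := by rw [← mexp_lg, h2, mexp_zero]
  ext1
  have h4 : q.m = sr p * rel p q * sr p := by
    rw [rel]
    simp only [mul_assoc, sr_isr', isr_sr, mul_one]
  rw [h4, h3, mul_one, sr_sr]

noncomputable instance : MetricSpace (PD N) where
  dist := dd
  dist_self p := by
    show dd p p = 0
    rw [dd, rel_self, LL, mlog_one]
    simp
  dist_comm p q := by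
    show dd p q = dd q p
    rw [dd, dd, LL_symm]
  dist_triangle := dd_triangle
  eq_of_dist_eq_zero := eq_of_dd

theorem dist_eq (p q : PD N) : dist p q = Real.sqrt (LL (rel p q)) := rfl

theorem dist_sq (p q : PD N) : dist p q ^ 2 = LL (rel p q) := by
  rw [dist_eq, Real.sq_sqrt (LL_nonneg _)]

theorem norm_lg (p q : PD N) : ‖vec (lg p q)‖ = dist p q := norm_vec (lg_herm p q)

theorem lip (p q r : PD N) : ‖vec (lg p q) - vec (lg p r)‖ ≤ dist q r := by
  rw [← vec_sub, norm_vec ((lg_herm p q).sub (lg_herm p r)), dist_eq]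
  apply Real.sqrt_le_sqrt
  have hA := lg_herm p q
  have h1 : ∀ x : PD N, (mexp ((-(1 / 2) : ℝ) • lg p q) * isr p) * x.m *
      (mexp ((-(1 / 2) : ℝ) • lg p q) * isr p)ᵀ =
      mexp ((-(1 / 2) : ℝ) • lg p q) * mexp (lg p x) * mexp ((-(1 / 2) : ℝ) • lg p q) := by
    intro x
    rw [transpose_mul, isr_tr, mexp_tr (herm_smul hA _), mexp_lg, rel]
    simp only [mul_assoc]
  have h2 : (mexp ((-(1 / 2) : ℝ) • lg p q) * isr p) * q.m *
      (mexp ((-(1 / 2) : ℝ) • lg p q) * isr p)ᵀ = 1 := by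
    rw [h1]
    conv_lhs => enter [1, 2]; rw [← one_smul ℝ (lg p q)]
    rw [← mexp_add_smul hA, ← mexp_add_smul hA]
    norm_num
    exact mexp_zero
  rw [LL_frame h2 r, h1]
  exact emi hA (lg_herm p r)

/-- The exponential map. -/
noncomputable def ex (p : PD N) {A : Mat N} (hA : A.IsHermitian) : PD N :=
  ⟨sr p * mexp A * (sr p)ᵀ, posDef_conj (sr_unit p) (mexp_posDef hA)⟩

theorem geo (p q : PD N) (t : ℝ) :
    ∃ (m : PD N) (e : EuclideanSpace ℝ (Fin N × Fin N)),
      vec (lg m p) = -(t • e) ∧ vec (lg m q) = (1 - t) • e ∧ ‖e‖ = dist p q := by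
  have hA := lg_herm p q
  have h1 : ∀ x : PD N, (mexp ((-(t / 2) : ℝ) • lg p q) * isr p) * x.m *
      (mexp ((-(t / 2) : ℝ) • lg p q) * isr p)ᵀ =
      mexp ((-(t / 2) : ℝ) • lg p q) * rel p x * mexp ((-(t / 2) : ℝ) • lg p q) := by
    intro x
    rw [transpose_mul, isr_tr, mexp_tr (herm_smul hA _), rel]
    simp only [mul_assoc]
  have h3 : ∀ s : ℝ, mexp ((-(t / 2) : ℝ) • lg p q) * mexp (s • lg p q) *
      mexp ((-(t / 2) : ℝ) • lg p q) = mexp ((s - t) • lg p q) := by
    intro s
    rw [← mexp_add_smul hA, ← mexp_add_smul hA]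
    congr 2
    ring
  have h2 : (mexp ((-(t / 2) : ℝ) • lg p q) * isr p) * (ex p (herm_smul hA t)).m *
      (mexp ((-(t / 2) : ℝ) • lg p q) * isr p)ᵀ = 1 := by
    have h4 : rel p (ex p (herm_smul hA t)) = mexp (t • lg p q) := by
      rw [rel, ex]
      simp only [sr_tr, mul_assoc, isr_sr', sr_isr, mul_one]
    rw [h1, h4, h3, sub_self, zero_smul, mexp_zero]
  obtain ⟨k, hk, h⟩ := frame h2
  refine ⟨ex p (herm_smul hA t), vec (k * lg p q * kᵀ), ?_, ?_, ?_⟩
  · rw [h, h1, rel_self, ← mexp_zero, ← zero_smul ℝ (lg p q), h3, mlog_mexp (herm_smul hA _),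
      Matrix.mul_smul, Matrix.smul_mul, vec_smul, zero_sub, neg_smul]
  · rw [h, h1, ← mexp_lg]
    conv_lhs => enter [1, 1, 2, 1, 1, 2]; rw [← one_smul ℝ (lg p q)]
    rw [h3, mlog_mexp (herm_smul hA _), Matrix.mul_smul, Matrix.smul_mul, vec_smul]
  · have h5 : (k * lg p q * kᵀ).IsHermitian := by
      apply herm_of_tr
      rw [transpose_mul, transpose_mul, transpose_transpose, herm_tr hA, mul_assoc]
    rw [norm_vec h5, trace_conj hk]
    rfl

/-- The base point. -/
noncomputable def base (N : ℕ) : PD N := ⟨1, PosDef.one⟩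

theorem rel_base (q : PD N) : rel (base N) q = q.m := by
  have : isr (base N) = 1 := by
    rw [isr, base, mlog_one, smul_zero, mexp_zero]
  rw [rel, this, one_mul, mul_one]

theorem sym_herm (A : Mat N) : ((1 / 2 : ℝ) • (A + Aᵀ)).IsHermitian :=
  herm_of_tr (by rw [transpose_smul, transpose_add, transpose_transpose, add_comm])

/-- The exponential of the symmetric component. -/
noncomputable def ee (A : Mat N) : PD N := ⟨mexp ((1 / 2 : ℝ) • (A + Aᵀ)), mexp_posDef (sym_herm A)⟩

theorem LL_le (p q : PD N) :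
    LL (rel p q) ≤ trace (isr p * q.m * isr p) +
      trace (sr p * mexp ((-1 : ℝ) • mlog q.m) * sr p) - 2 * N := by
  have h1 := trace_sq_le (lg_herm p q)
  have h2 : mexp ((-1 : ℝ) • lg p q) = sr p * mexp ((-1 : ℝ) • mlog q.m) * sr p := by
    have h3 : mexp ((-1 : ℝ) • lg p q) * rel p q = 1 := by
      rw [← mexp_lg]
      conv_lhs => enter [2]; rw [← one_smul ℝ (lg p q)]
      exact mexp_cancel (lg_herm p q) _ _ (by ring)
    have h4 : q.m * mexp ((-1 : ℝ) • mlog q.m) = 1 := by
      conv_lhs => enter [1]; rw [← mexp_mlog q.pos, ← one_smul ℝ (mlog q.m)]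
      exact mexp_cancel (mlog_isHermitian _) _ _ (by ring)
    have h5 : rel p q * (sr p * mexp ((-1 : ℝ) • mlog q.m) * sr p) = 1 := by
      rw [rel]
      simp only [mul_assoc, isr_sr']
      rw [← mul_assoc q.m, h4, one_mul, isr_sr]
    calc mexp ((-1 : ℝ) • lg p q)
        = mexp ((-1 : ℝ) • lg p q) * (rel p q * (sr p * mexp ((-1 : ℝ) • mlog q.m) * sr p)) := by
          rw [h5, mul_one]
      _ = _ := by rw [← mul_assoc, h3, one_mul]
  rw [h2, mexp_lg] at h1
  exact h1

theorem cont_ee : Continuous (ee : Mat N → PD N) := by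
  rw [continuous_iff_continuousAt]
  intro A
  rw [ContinuousAt, tendsto_iff_dist_tendsto_zero]
  let f : Mat N → ℝ := fun B => Real.sqrt
    (trace (isr (ee A) * NormedSpace.exp ((1 / 2 : ℝ) • (B + Bᵀ)) * isr (ee A)) +
      trace (sr (ee A) * NormedSpace.exp ((-1 : ℝ) • (1 / 2 : ℝ) • (B + Bᵀ)) * sr (ee A)) - 2 * N)
  have hs : Continuous fun B : Mat N => (1 / 2 : ℝ) • (B + Bᵀ) :=
    (continuous_id.add continuous_id.matrix_transpose).const_smul (1 / 2 : ℝ)
  have hs2 : Continuous fun B : Mat N => (-1 : ℝ) • (1 / 2 : ℝ) • (B + Bᵀ) :=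
    hs.const_smul (-1 : ℝ)
  have he : ∀ (u : Mat N → Mat N) (a : Mat N), Continuous u →
      Continuous fun B => trace (a * NormedSpace.exp (u B) * a) := fun u a hu =>
    ((continuous_const.matrix_mul (cont_exp.comp hu)).matrix_mul continuous_const).matrix_trace
  have hf : Continuous f :=
    Continuous.sqrt (((he _ _ hs).add (he _ _ hs2)).sub continuous_const)
  have hle : ∀ B, dist (ee B) (ee A) ≤ f B := by
    intro B
    rw [dist_comm, dist_eq]
    apply Real.sqrt_le_sqrt
    have := LL_le (ee A) (ee B)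
    have h1 : (ee B).m = mexp ((1 / 2 : ℝ) • (B + Bᵀ)) := rfl
    rw [h1, mlog_mexp (sym_herm B), mexp_eq (sym_herm B),
      mexp_eq (herm_smul (sym_herm B) _)] at this
    exact this
  have h0 : f A = 0 := by
    have h1 : (ee A).m = mexp ((1 / 2 : ℝ) • (A + Aᵀ)) := rfl
    have h2 : isr (ee A) * NormedSpace.exp ((1 / 2 : ℝ) • (A + Aᵀ)) * isr (ee A) = 1 := by
      rw [← mexp_eq (sym_herm A), ← h1]
      exact rel_self _
    have h3 : sr (ee A) * NormedSpace.exp ((-1 : ℝ) • (1 / 2 : ℝ) • (A + Aᵀ)) * sr (ee A) = 1 := by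
      rw [← mexp_eq (herm_smul (sym_herm A) _), sr, h1, mlog_mexp (sym_herm A),
        ← mexp_add_smul (sym_herm A), ← mexp_add_smul (sym_herm A)]
      norm_num
      exact mexp_zero
    simp only [f]
    rw [h2, h3, trace_one, Fintype.card_fin]
    apply Real.sqrt_eq_zero'.2
    linarith
  refine squeeze_zero (fun _ => dist_nonneg) hle ?_
  rw [← h0]
  exact hf.continuousAt

theorem compact_ball (R : ℝ) : IsCompact (Metric.closedBall (base N) R) := by
  have hc : IsCompact (Set.pi Set.univ fun _ : Fin N => Set.pi Set.univ fun _ : Fin N =>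
      Set.Icc (-R) R) :=
    isCompact_univ_pi fun _ => isCompact_univ_pi fun _ => isCompact_Icc
  refine (hc.image (cont_ee (N := N))).of_isClosed_subset Metric.isClosed_closedBall ?_
  intro q hq
  rw [Metric.mem_closedBall, dist_comm, ← norm_lg] at hq
  refine ⟨lg (base N) q, fun i _ j _ => ?_, ?_⟩
  · have := (PiLp.norm_apply_le (vec (lg (base N) q)) (i, j)).trans hq
    exact abs_le.1 this
  · ext1
    have h1 : (1 / 2 : ℝ) • (lg (base N) q + (lg (base N) q)ᵀ) = lg (base N) q := by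
      rw [herm_tr (lg_herm _ _), ← two_smul ℝ, smul_smul]
      norm_num
    show mexp _ = _
    rw [h1, mexp_lg, rel_base]

instance : ProperSpace (PD N) where
  isCompact_closedBall x r :=
    (compact_ball (r + dist x (base N))).of_isClosed_subset Metric.isClosed_closedBall
      (Metric.closedBall_subset_closedBall' le_rfl)

theorem variation (p z : PD N) {B : Mat N} (hB : B.IsHermitian) :
    ∃ K : ℝ, ∀ h : ℝ, |h| ≤ 1 → dist (ex p (herm_smul hB h)) z ^ 2 ≤
      dist p z ^ 2 - 2 * h * trace (lg p z * B) + K * h ^ 2 := by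
  obtain ⟨K, hK⟩ := first_variation (unit_mul (isr_unit z) (sr_unit p)) hB
  refine ⟨K, fun h hh => ?_⟩
  have h1 := hK h hh
  have h2 : isr z * sr p * mexp (h • B) * (isr z * sr p)ᵀ = rel z (ex p (herm_smul hB h)) := by
    rw [rel, ex, transpose_mul, isr_tr]
    simp only [mul_assoc]
  rw [h2, gg', LL_inv (rel_pos p z), mlog_inv (rel_pos p z), neg_mul, trace_neg] at h1
  rw [dist_comm, dist_sq, dist_sq, lg]
  linarith

theorem bary (n : ℕ) (z : Fin (n + 1) → PD N) : ∃ p, ∑ k, vec (lg p (z k)) = 0 := by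
  have hF : Continuous fun p : PD N => ∑ k, dist p (z k) ^ 2 := by fun_prop
  obtain ⟨p, hp⟩ := hF.exists_forall_le_of_isBounded (z 0) (by
    refine (Metric.isBounded_closedBall (x := z 0)
      (r := Real.sqrt (∑ k, dist (z 0) (z k) ^ 2))).subset fun x hx => ?_
    rw [Metric.mem_closedBall]
    apply Real.le_sqrt_of_sq_le
    exact (Finset.single_le_sum (f := fun k => dist x (z k) ^ 2) (fun _ _ => sq_nonneg _)
      (Finset.mem_univ 0)).trans hx)
  refine ⟨p, ?_⟩
  have hB : (∑ k, lg p (z k)).IsHermitian := by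
    apply herm_of_tr
    rw [transpose_sum]
    exact Finset.sum_congr rfl fun k _ => herm_tr (lg_herm _ _)
  rw [← vec_sum, eq_zero_of_trace_sq hB ?_, vec_zero]
  choose K hK using fun k => variation p (z k) hB
  generalize hT : trace ((∑ k, lg p (z k)) * ∑ k, lg p (z k)) = T
  have h1 : ∀ h : ℝ, |h| ≤ 1 → 0 ≤ -(2 * h * T) + (∑ k, K k) * h ^ 2 := by
    intro h hh
    have h2 := hp (ex p (herm_smul hB h))
    have h3 := Finset.sum_le_sum fun k (_ : k ∈ Finset.univ) => hK k h hh
    rw [Finset.sum_add_distrib, Finset.sum_sub_distrib, ← Finset.mul_sum, ← Finset.sum_mul,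
      ← trace_sum, ← Finset.sum_mul, hT] at h3
    linarith
  generalize ∑ k, K k = C at h1
  by_contra hneg
  have hT0 : 0 < T := not_le.1 hneg
  have hd : 0 < |C| + T := by positivity
  have h4 := h1 (T / (|C| + T)) (by
    rw [abs_of_pos (by positivity), div_le_one hd]
    linarith [abs_nonneg C])
  have h5 : 0 < T / (|C| + T) := by positivity
  have h6 : C * (T / (|C| + T)) ≤ T := by
    rw [← mul_div_assoc, div_le_iff₀ hd]
    nlinarith [le_abs_self C]
  nlinarith

/-- The structure of a non-positively curved space. -/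
noncomputable def npc (N : ℕ) : NPC (PD N) (EuclideanSpace ℝ (Fin N × Fin N)) where
  log p q := vec (lg p q)
  norm_log := norm_lg
  lip := lip
  geo p q t _ _ := geo p q t
  bary := bary

/-- The real matrix of an integral one. -/
noncomputable def rm (g : GL (Fin N) ℤ) : Mat N :=
  (Int.castRingHom ℝ).mapMatrix (g : Matrix (Fin N) (Fin N) ℤ)

theorem rm_mul (g h : GL (Fin N) ℤ) : rm (g * h) = rm g * rm h := by
  rw [rm, Units.val_mul, map_mul, rm, rm]

theorem rm_one : rm (1 : GL (Fin N) ℤ) = 1 := by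
  rw [rm, Units.val_one, map_one]

theorem rm_unit (g : GL (Fin N) ℤ) : IsUnit (rm g).det :=
  unit_of_mul (b := rm g⁻¹) (by rw [← rm_mul, mul_inv_cancel, rm_one])

/-- The action on points. -/
noncomputable def cj (g : GL (Fin N) ℤ) (p : PD N) : PD N :=
  ⟨rm g * p.m * (rm g)ᵀ, posDef_conj (rm_unit g) p.pos⟩

theorem cj_mul (g h : GL (Fin N) ℤ) (p : PD N) : cj (g * h) p = cj g (cj h p) := by
  ext1
  simp only [cj, rm_mul, transpose_mul, mul_assoc]

theorem cj_one (p : PD N) : cj 1 p = p := by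
  ext1
  simp only [cj, rm_one, transpose_one, one_mul, mul_one]

theorem cj_dist (g : GL (Fin N) ℤ) (p q : PD N) : dist (cj g p) (cj g q) = dist p q := by
  have h1 : ∀ x : PD N, (isr p * rm g⁻¹) * (cj g x).m * (isr p * rm g⁻¹)ᵀ = rel p x := by
    intro x
    have h2 : (cj g⁻¹ (cj g x)).m = x.m := by rw [← cj_mul, inv_mul_cancel, cj_one]
    rw [rel, ← h2, transpose_mul, isr_tr]
    simp only [cj, mul_assoc]
  rw [dist_eq, dist_eq, LL_frame ((h1 p).trans (rel_self p)), h1]

/-- The action by isometries. -/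
noncomputable def act (N : ℕ) : GL (Fin N) ℤ →* (PD N ≃ᵢ PD N) where
  toFun g :=
    { toFun := cj g
      invFun := cj g⁻¹
      left_inv := fun p => by rw [← cj_mul, inv_mul_cancel, cj_one]
      right_inv := fun p => by rw [← cj_mul, mul_inv_cancel, cj_one]
      isometry_toFun := Isometry.of_dist_eq (cj_dist g) }
  map_one' := IsometryEquiv.ext cj_one
  map_mul' g h := IsometryEquiv.ext (cj_mul g h)

theorem entry_le {k : Mat N} (hk : k * kᵀ = 1) (i j : Fin N) : |k i j| ≤ 1 := by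
  have h1 : ∑ l, k i l * k i l = 1 := by
    have := congrFun (congrFun hk i) i
    simpa [mul_apply] using this
  have h2 : k i j * k i j ≤ 1 :=
    (Finset.single_le_sum (f := fun l => k i l * k i l) (fun _ _ => mul_self_nonneg _)
      (Finset.mem_univ j)).trans h1.le
  exact abs_le_one_iff_mul_self_le_one.2 h2

theorem stab_bound (p : PD N) :
    ∃ C : Fin N → Fin N → ℝ, ∀ g, cj g p = p → ∀ i j, |rm g i j| ≤ C i j := by
  refine ⟨fun i j => ∑ b, (∑ a, |sr p i a|) * |isr p b j|, fun g hg i j => ?_⟩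
  have h1 : rm g * p.m * (rm g)ᵀ = p.m := congrArg PD.m hg
  have h2 : (isr p * rm g * sr p) * (isr p * rm g * sr p)ᵀ = 1 := by
    rw [← rel_self p, rel, ← h1, transpose_mul, transpose_mul, sr_tr, isr_tr, ← sr_sr p]
    simp only [mul_assoc]
  have h3 : rm g = sr p * (isr p * rm g * sr p) * isr p := by
    simp only [mul_assoc, sr_isr', sr_isr, mul_one]
  generalize isr p * rm g * sr p = k at h2 h3
  rw [h3, mul_apply]
  refine (Finset.abs_sum_le_sum_abs _ _).trans (Finset.sum_le_sum fun b _ => ?_)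
  rw [abs_mul, mul_apply]
  refine mul_le_mul_of_nonneg_right ?_ (abs_nonneg _)
  refine (Finset.abs_sum_le_sum_abs _ _).trans (Finset.sum_le_sum fun a _ => ?_)
  rw [abs_mul]
  exact mul_le_of_le_one_right (abs_nonneg _) (entry_le h2 a b)

theorem stab_finite (p : PD N) : {g : GL (Fin N) ℤ | cj g p = p}.Finite := by
  obtain ⟨C, hC⟩ := stab_bound p
  have h1 : (Set.pi Set.univ fun i : Fin N => Set.pi Set.univ fun j : Fin N =>
      Set.Icc (-⌈C i j⌉) ⌈C i j⌉).Finite :=
    Set.Finite.pi fun _ => Set.Finite.pi fun _ => Set.finite_Icc _ _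
  refine (h1.preimage (f := fun g : GL (Fin N) ℤ => (g : Matrix (Fin N) (Fin N) ℤ))
    (Units.val_injective.injOn)).subset fun g hg => ?_
  intro i _ j _
  have h2 := (hC g hg i j).trans (Int.le_ceil _)
  have h3 : rm g i j = ((g : Matrix (Fin N) (Fin N) ℤ) i j : ℝ) := rfl
  rw [h3] at h2
  exact abs_le.1 (by exact_mod_cast h2)

theorem fin_order (g : GL (Fin N) ℤ) (p : PD N) (h : cj g p = p) : IsOfFinOrder g := by
  rw [← finite_powers]
  refine (stab_finite p).subset ?_
  rintro _ ⟨n, rfl⟩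
  show cj (g ^ n) p = p
  induction n with
  | zero => rw [pow_zero, cj_one]
  | succ n ih => rw [pow_succ, cj_mul, h, ih]

end GP4

theorem exists_space (N : ℕ) :
    ∃ (X : Type) (_ : MetricSpace X) (_ : CompleteSpace X) (_ : Nonempty X)
      (_ : NPC X (EuclideanSpace ℝ (Fin N × Fin N))) (act : GL (Fin N) ℤ →* (X ≃ᵢ X)),
      ∀ g p, act g p = p → IsOfFinOrder g :=
  ⟨GP4.PD N, inferInstance, inferInstance, ⟨GP4.base N⟩, GP4.npc N, GP4.act N, GP4.fin_order⟩

end Pool.Agent.P.MP_2d26dd_al
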