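import Pool.Agent.P.MP_2d26dd_al.LDefs

/-! The congruence subgroup of level three. -/

namespace Pool.Agent.P.MP_2d26dd_al

open Polynomial

variable {N : ℕ}

private theorem toQ_eq (g : GL (Fin N) ℤ) :
    toQ g = (Int.castRingHom ℚ).mapMatrix (g : Matrix (Fin N) (Fin N) ℤ) := rfl

private theorem toC_eq (g : GL (Fin N) ℤ) :
    toC g = (Int.castRingHom ℂ).mapMatrix (g : Matrix (Fin N) (Fin N) ℤ) := rfl

theorem toQ_mul (g h : GL (Fin N) ℤ) : toQ (g * h) = toQ g * toQ h := by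
  rw [toQ_eq, toQ_eq, toQ_eq, Units.val_mul, map_mul]

theorem toQ_one : toQ (1 : GL (Fin N) ℤ) = 1 := by
  rw [toQ_eq, Units.val_one, map_one]

theorem toQ_injective : Function.Injective (toQ : GL (Fin N) ℤ → MQ N) := by
  intro g h e
  refine Units.ext (Matrix.ext fun i j => ?_)
  have := congrFun (congrFun e i) j
  simpa [toQ] using this

private theorem toQ_pow' (g : GL (Fin N) ℤ) (m : ℕ) : toQ (g ^ m) = toQ g ^ m := by
  rw [toQ_eq, toQ_eq, Units.val_pow_eq_pow_val, map_pow]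

private theorem toC_of_toQ (g : GL (Fin N) ℤ) : toC g = (Rat.castHom ℂ).mapMatrix (toQ g) := by
  ext i j
  simp [toC, toQ]

private theorem prod_le_one_of (s : Multiset ℂ) (hs : ∀ z ∈ s, ‖z‖ ≤ 2 / 3) :
    ‖s.prod‖ ≤ (2 / 3 : ℝ) ^ s.card := by
  induction s using Multiset.induction_on with
  | empty => simp
  | cons a s ih =>
    rw [Multiset.prod_cons, Multiset.card_cons, norm_mul, pow_succ']
    exact mul_le_mul (hs a (Multiset.mem_cons_self _ _))
      (ih fun z hz => hs z (Multiset.mem_cons_of_mem hz)) (norm_nonneg _) (by norm_num)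

private theorem eq_X_pow {p : ℤ[X]} (hp : p.Monic)
    (h : ∀ z : ℂ, (p.map (Int.castRingHom ℂ)).IsRoot z → ‖z‖ ≤ 2 / 3) : ∃ k, p = X ^ k := by
  obtain ⟨q, hq, hn⟩ := exists_eq_pow_rootMultiplicity_mul_and_not_dvd p hp.ne_zero 0
  rw [map_zero, sub_zero] at hq hn
  have hm : q.Monic := by
    refine Monic.of_mul_monic_left (monic_X_pow (rootMultiplicity 0 p)) ?_
    rw [← hq]
    exact hp
  refine ⟨rootMultiplicity 0 p, ?_⟩
  have hc : q.coeff 0 ≠ 0 := fun e => hn (X_dvd_iff.2 e)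
  set Q : ℂ[X] := q.map (Int.castRingHom ℂ) with hQ
  have hQm : Q.Monic := hm.map _
  have hs : Q.Splits := IsAlgClosed.splits Q
  have h0 := hs.coeff_zero_eq_prod_roots_of_monic hQm
  have h1 : (1 : ℝ) ≤ ‖Q.coeff 0‖ := by
    rw [hQ, coeff_map, eq_intCast, Complex.norm_intCast]
    exact_mod_cast Int.one_le_abs hc
  have h2 : ‖Q.roots.prod‖ ≤ (2 / 3 : ℝ) ^ Q.roots.card := by
    refine prod_le_one_of _ fun z hz => h z ?_
    have hz' : Q.IsRoot z := (mem_roots hQm.ne_zero).1 hz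
    rw [hq, Polynomial.map_mul, IsRoot.def, eval_mul, ← hQ, hz'.eq_zero, mul_zero]
  have h3 : Q.roots.card = 0 := by
    by_contra hne
    have : (2 / 3 : ℝ) ^ Q.roots.card < 1 := pow_lt_one₀ (by norm_num) (by norm_num) hne
    rw [h0, norm_mul, norm_pow, norm_neg, norm_one, one_pow, one_mul] at h1
    linarith
  have h4 : q.natDegree = 0 := by
    rw [← hm.natDegree_map (Int.castRingHom ℂ), ← hQ, hs.natDegree_eq_card_roots, h3]
  have h5 : q = 1 := (hm.natDegree_eq_zero).1 h4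
  rw [h5, mul_one] at hq
  exact hq

theorem unip_of_roots {g : GL (Fin N) ℤ} (h3 : Lev3 g)
    (h : ∀ z ∈ (toC g).charpoly.roots, ‖z‖ = 1) : Unip g := by
  choose a ha using h3
  set A : Matrix (Fin N) (Fin N) ℤ := Matrix.of a with hA
  have hg : (g : Matrix (Fin N) (Fin N) ℤ) = 1 + 3 * A := by
    ext i j
    have e : (3 * A : Matrix (Fin N) (Fin N) ℤ) i j = 3 * a i j := by
      rw [show (3 : Matrix (Fin N) (Fin N) ℤ) = 1 + 1 + 1 by norm_num]
      simp only [add_mul, one_mul, Matrix.add_apply, hA, Matrix.of_apply]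
      ring
    rw [Matrix.add_apply, e, ← ha i j]
    ring
  obtain ⟨k, hk⟩ := eq_X_pow (Matrix.charpoly_monic A) (fun z hz => by
    rw [← Matrix.charpoly_map, IsRoot.def, Matrix.eval_charpoly] at hz
    have e : Matrix.scalar (Fin N) (1 + 3 * z) - toC g =
        (3 : ℂ) • (Matrix.scalar (Fin N) z - A.map (Int.castRingHom ℂ)) := by
      rw [toC_eq, hg, map_add, map_mul, map_add, map_mul, map_one, map_one, map_ofNat, map_ofNat,
        RingHom.mapMatrix_apply, Algebra.smul_def, map_ofNat]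
      noncomm_ring
    have hr : (toC g).charpoly.IsRoot (1 + 3 * z) := by
      rw [IsRoot.def, Matrix.eval_charpoly, e, Matrix.det_smul, hz, mul_zero]
    have h1 := h _ ((mem_roots (Matrix.charpoly_monic _).ne_zero).2 hr)
    have h2 : ‖(3 : ℂ) * z‖ ≤ ‖1 + 3 * z‖ + ‖(1 : ℂ)‖ := by
      have := norm_sub_le (1 + 3 * z) (1 : ℂ)
      rwa [add_sub_cancel_left] at this
    rw [h1, norm_one, norm_mul, Complex.norm_ofNat] at h2
    linarith)
  have hn : IsNilpotent A := ⟨k, by
    have := Matrix.aeval_self_charpoly A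
    rwa [hk, map_pow, aeval_X] at this⟩
  have hn3 : IsNilpotent (3 * A) := (Commute.ofNat_left 3 A).isNilpotent_mul_left hn
  have := hn3.map (Int.castRingHom ℚ).mapMatrix
  unfold Unip
  rw [toQ_eq, hg, map_add, map_one, add_sub_cancel_left]
  exact this

theorem unip_of_pow {g : GL (Fin N) ℤ} (h3 : Lev3 g) {m : ℕ} (hm : 0 < m) (h : Unip (g ^ m)) :
    Unip g := by
  refine unip_of_roots h3 fun z hz => ?_
  obtain ⟨k, hk⟩ := h
  rw [toQ_pow'] at hk
  have hC : (toC g ^ m - 1) ^ k = 0 := by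
    have := congrArg (Rat.castHom ℂ).mapMatrix hk
    rwa [map_pow, map_sub, map_pow, map_one, map_zero, ← toC_of_toQ] at this
  have hz' : z ∈ spectrum ℂ (toC g) :=
    Matrix.mem_spectrum_iff_isRoot_charpoly.2 ((mem_roots (Matrix.charpoly_monic _).ne_zero).1 hz)
  have h1 := spectrum.subset_polynomial_aeval (toC g) ((X ^ m - 1) ^ k : ℂ[X]) ⟨z, hz', rfl⟩
  rw [map_pow, map_sub, map_pow, map_one, aeval_X, hC, spectrum.mem_iff, sub_zero] at h1
  have h2 : eval z ((X ^ m - 1) ^ k : ℂ[X]) = 0 := by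
    by_contra hne
    exact h1 ((IsUnit.mk0 _ hne).map _)
  rw [eval_pow, eval_sub, eval_pow, eval_X, eval_one] at h2
  have h4 : z ^ m = 1 := sub_eq_zero.1 (eq_zero_of_pow_eq_zero h2)
  have h5 : ‖z‖ ^ m = 1 := by rw [← norm_pow, h4, norm_one]
  exact (pow_eq_one_iff_of_nonneg (norm_nonneg z) hm.ne').1 h5

theorem eq_one_of_finOrder {g : GL (Fin N) ℤ} (h3 : Lev3 g) (h : IsOfFinOrder g) : g = 1 := by
  obtain ⟨m, hm, hg⟩ := isOfFinOrder_iff_pow_eq_one.1 h
  have hu : Unip g := unip_of_pow h3 hm (by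
    unfold Unip
    rw [hg, toQ_one, sub_self]
    exact IsNilpotent.zero)
  unfold Unip at hu
  set u := toQ g with hu'
  have hp : u ^ m = 1 := by rw [hu', ← toQ_pow', hg, toQ_one]
  have c1 : ∀ i, Commute u (u ^ i - 1) := fun i =>
    ((Commute.refl u).pow_right i).sub_right (Commute.one_right u)
  have hn : IsNilpotent (∑ i ∈ Finset.range m, (u ^ i - 1)) := by
    refine Commute.isNilpotent_sum (fun i _ => ?_) (fun i j _ _ => ?_)
    · rw [← geom_sum_mul]
      refine Commute.isNilpotent_mul_left ?_ hu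
      exact Commute.sum_left _ _ _ fun j _ =>
        (((Commute.refl u).sub_right (Commute.one_right u)).pow_left j)
    · exact ((c1 j).pow_left i).sub_left (Commute.one_left _)
  have hmu : IsUnit ((m : ℕ) : MQ N) := by
    have : IsUnit ((m : ℕ) : ℚ) := IsUnit.mk0 _ (by exact_mod_cast hm.ne')
    simpa using this.map (algebraMap ℚ (MQ N))
  have hS := hn.isUnit_add_left_of_commute hmu (Nat.cast_commute m _).symm
  have e : ((m : ℕ) : MQ N) + ∑ i ∈ Finset.range m, (u ^ i - 1) =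
      ∑ i ∈ Finset.range m, u ^ i := by
    rw [Finset.sum_sub_distrib, Finset.sum_const, Finset.card_range, nsmul_one]
    abel
  rw [e] at hS
  have h0 : (∑ i ∈ Finset.range m, u ^ i) * (u - 1) = 0 := by rw [geom_sum_mul, hp, sub_self]
  have h1 : u - 1 = 0 := (hS.mul_right_eq_zero).1 h0
  exact toQ_injective ((sub_eq_zero.1 h1).trans toQ_one.symm)

theorem exists_lev3 {G : Type} [Group G] (ρ : G →* GL (Fin N) ℤ) :
    ∃ L : Subgroup G, L.FiniteIndex ∧ ∀ g ∈ L, Lev3 (ρ g) := by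
  refine ⟨((Matrix.GeneralLinearGroup.map (Int.castRingHom (ZMod 3))).comp ρ).ker,
    inferInstance, fun g hg i j => ?_⟩
  rw [MonoidHom.mem_ker, MonoidHom.comp_apply] at hg
  have e := congrArg (fun x : GL (Fin N) (ZMod 3) => (x : Matrix (Fin N) (Fin N) (ZMod 3)) i j) hg
  simp only [Matrix.GeneralLinearGroup.map_apply, Units.val_one] at e
  refine (ZMod.intCast_zmod_eq_zero_iff_dvd _ 3).1 ?_
  rw [Int.cast_sub, sub_eq_zero]
  refine Eq.trans e ?_
  by_cases hij : i = j
  · subst hij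
    simp
  · simp [Matrix.one_apply_ne hij]

end Pool.Agent.P.MP_2d26dd_al
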