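import Pool.Agent.P.MP_2d26dd_al.LDefs

/-! The quadratic form on commuting matrices. -/

namespace Pool.Agent.P.MP_2d26dd_al

variable {N : ℕ}

open Polynomial in
theorem l2_simul : ∀ (n : ℕ) (V : Type) [AddCommGroup V] [Module ℂ V] [FiniteDimensional ℂ V],
    Module.finrank ℂ V = n → ∀ (f : Fin 3 → Module.End ℂ V), (∀ i j, Commute (f i) (f j)) →
    ∃ S : Multiset (Fin 3 → ℂ), ∀ (w : List (Fin 3)) (t : ℂ),
      LinearMap.det (t • (1 : Module.End ℂ V) - (w.map f).prod) =
        (S.map fun s => t - (w.map s).prod).prod := by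
  intro n
  induction n using Nat.strong_induction_on with
  | _ n ih =>
    intro V _ _ _ hn f hf
    by_cases hs : ∀ i, ∃ x : ℂ, f i = x • (1 : Module.End ℂ V)
    · choose x hx using hs
      refine ⟨Multiset.replicate n x, fun w t => ?_⟩
      have h1 : (w.map f).prod = (w.map x).prod • (1 : Module.End ℂ V) := by
        induction w with
        | nil => simp
        | cons i w ihw =>
          simp only [List.map_cons, List.prod_cons]
          rw [ihw, hx i, smul_mul_smul_comm, one_mul]
      rw [h1, ← sub_smul, LinearMap.det_smul, hn]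
      simp
    · push Not at hs
      obtain ⟨i0, hi0⟩ := hs
      have hnt : Nontrivial V := by
        by_contra h
        rw [not_nontrivial_iff_subsingleton] at h
        exact hi0 0 (Subsingleton.elim _ _)
      obtain ⟨μ, hμ⟩ := Module.End.exists_eigenvalue (f i0)
      set W : Submodule ℂ V := (f i0).eigenspace μ with hW
      have hWb : W ≠ ⊥ := hμ
      have hWt : W ≠ ⊤ := by
        intro h
        apply hi0 μ
        ext v
        have hv : v ∈ W := h ▸ Submodule.mem_top
        rw [hW, Module.End.mem_eigenspace_iff] at hv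
        simpa using hv
      have hinv : ∀ i, W ≤ W.comap (f i) := by
        intro i v hv
        rw [Submodule.mem_comap]
        rw [hW, Module.End.mem_eigenspace_iff] at hv ⊢
        have := congrArg (fun g : Module.End ℂ V => g v) (hf i0 i).eq
        simp only [Module.End.mul_apply] at this
        rw [this, hv, map_smul]
      have hsum := W.finrank_quotient_add_finrank
      have h1 : Module.finrank ℂ W < n := hn ▸ Submodule.finrank_lt hWt
      have h2 : Module.finrank ℂ (V ⧸ W) < n := by
        have : 0 < Module.finrank ℂ W := by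
          rw [Nat.pos_iff_ne_zero]
          intro h0
          exact hWb (Submodule.finrank_eq_zero.mp h0)
        omega
      let fW : Fin 3 → Module.End ℂ W := fun i => (f i).restrict (hinv i)
      let fQ : Fin 3 → Module.End ℂ (V ⧸ W) := fun i => W.mapQ W (f i) (hinv i)
      have cW : ∀ i j, Commute (fW i) (fW j) := by
        intro i j
        ext v
        have := congrArg (fun g : Module.End ℂ V => g v) (hf i j).eq
        simpa [fW] using this
      have cQ : ∀ i j, Commute (fQ i) (fQ j) := by
        intro i j
        refine LinearMap.ext fun v => ?_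
        obtain ⟨v, rfl⟩ := W.mkQ_surjective v
        have := congrArg (fun g : Module.End ℂ V => g v) (hf i j).eq
        simp only [Module.End.mul_apply] at this
        simp [fQ, this]
      obtain ⟨S1, hS1⟩ := ih _ h1 W rfl fW cW
      obtain ⟨S2, hS2⟩ := ih _ h2 (V ⧸ W) rfl fQ cQ
      refine ⟨S1 + S2, fun w t => ?_⟩
      have pW : ∀ (w : List (Fin 3)) (v : W),
          (((w.map fW).prod v : W) : V) = (w.map f).prod (v : V) := by
        intro w
        induction w with
        | nil => intro v; simp
        | cons i w ihw =>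
          intro v
          simp only [List.map_cons, List.prod_cons, Module.End.mul_apply]
          rw [← ihw v]
          simp [fW]
      have pQ : ∀ (w : List (Fin 3)) (v : V),
          (w.map fQ).prod (W.mkQ v) = W.mkQ ((w.map f).prod v) := by
        intro w
        induction w with
        | nil => intro v; simp
        | cons i w ihw =>
          intro v
          simp only [List.map_cons, List.prod_cons, Module.End.mul_apply]
          rw [ihw v]
          simp [fQ]
      have he : W ≤ W.comap (t • (1 : Module.End ℂ V) - (w.map f).prod) := by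
        intro v hv
        rw [Submodule.mem_comap]
        have := pW w ⟨v, hv⟩
        simp only at this
        simp only [LinearMap.sub_apply, LinearMap.smul_apply, Module.End.one_apply]
        rw [← this]
        exact W.sub_mem (W.smul_mem t hv) (Subtype.prop _)
      rw [LinearMap.det_eq_det_mul_det W _ he, Multiset.map_add, Multiset.prod_add, ← hS1, ← hS2]
      have e1 : (t • (1 : Module.End ℂ V) - (w.map f).prod).restrict he =
          t • (1 : Module.End ℂ W) - (w.map fW).prod := by
        ext v
        simp [pW w v]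
      have e2 : W.mapQ W (t • (1 : Module.End ℂ V) - (w.map f).prod) he =
          t • (1 : Module.End ℂ (V ⧸ W)) - (w.map fQ).prod := by
        refine LinearMap.ext fun v => ?_
        obtain ⟨v, rfl⟩ := W.mkQ_surjective v
        rw [LinearMap.sub_apply, pQ w v]
        simp
      rw [e1, e2]

theorem l2_toC_mul (g h : GL (Fin N) ℤ) : toC (g * h) = toC g * toC h := by
  unfold toC
  rw [Units.val_mul]
  exact Matrix.map_mul (f := Int.castRingHom ℂ)

theorem l2_toC_one : toC (1 : GL (Fin N) ℤ) = 1 := by
  unfold toC
  rw [Units.val_one]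
  exact Matrix.map_one _ (by simp) (by simp)

theorem l2_root_ne_zero (g : GL (Fin N) ℤ) : ∀ z ∈ (toC g).charpoly.roots, z ≠ 0 := by
  intro z hz h0
  have h1 := Polynomial.isRoot_of_mem_roots hz
  rw [h0, Polynomial.IsRoot, Matrix.eval_charpoly] at h1
  have h2 : (toC g).det * (toC g⁻¹).det = 1 := by
    rw [← Matrix.det_mul, ← l2_toC_mul, mul_inv_cancel, l2_toC_one, Matrix.det_one]
  simp only [map_zero, zero_sub, Matrix.det_neg, mul_eq_zero, pow_eq_zero_iff', neg_eq_zero,
    one_ne_zero, false_and, false_or] at h1
  rw [h1, zero_mul] at h2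
  exact zero_ne_one h2

open Polynomial in
theorem l2_roots (f : Fin 3 → Matrix (Fin N) (Fin N) ℂ) (hf : ∀ i j, Commute (f i) (f j)) :
    ∃ S : Multiset (Fin 3 → ℂ), ∀ w : List (Fin 3),
      (w.map f).prod.charpoly.roots = S.map fun s => (w.map s).prod := by
  obtain ⟨S, hS⟩ := l2_simul _ (Fin N → ℂ) rfl (fun i => Matrix.toLin' (f i)) (by
    intro i j
    have := congrArg Matrix.toLin' (hf i j).eq
    rw [Matrix.toLin'_mul, Matrix.toLin'_mul] at this
    exact this)
  refine ⟨S, fun w => ?_⟩
  have h1 : (w.map fun i => Matrix.toLin' (f i)).prod = Matrix.toLin' (w.map f).prod := by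
    induction w with
    | nil => simp [Module.End.one_eq_id]
    | cons i w ihw =>
      simp only [List.map_cons, List.prod_cons]
      rw [ihw, Matrix.toLin'_mul]
      rfl
  have h2 : (w.map f).prod.charpoly =
      ((S.map fun s => (w.map s).prod).map fun a => X - C a).prod := by
    apply Polynomial.funext
    intro t
    rw [Matrix.eval_charpoly, Polynomial.eval_multiset_prod, Multiset.map_map, Multiset.map_map]
    have h3 := hS w t
    rw [h1] at h3
    have h4 : t • (1 : Module.End ℂ (Fin N → ℂ)) - Matrix.toLin' (w.map f).prod =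
        Matrix.toLin' (Matrix.scalar (Fin N) t - (w.map f).prod) := by
      rw [map_sub]
      have : Matrix.toLin' (Matrix.scalar (Fin N) t) = t • (1 : Module.End ℂ (Fin N → ℂ)) := by
        refine LinearMap.ext fun v => ?_
        ext i
        simp [Matrix.toLin'_apply, Matrix.mulVec_diagonal]
      rw [this]
    rw [h4, LinearMap.det_toLin'] at h3
    rw [h3]
    simp
  rw [h2, Polynomial.roots_multiset_prod_X_sub_C]

theorem lg_nonneg (g : GL (Fin N) ℤ) : 0 ≤ lg g := by
  unfold lg
  apply Multiset.sum_nonneg
  intro x hx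
  obtain ⟨z, -, rfl⟩ := Multiset.mem_map.mp hx
  positivity

theorem lg_conj (g h : GL (Fin N) ℤ) : lg (h * g * h⁻¹) = lg g := by
  unfold lg
  rw [l2_toC_mul, Matrix.charpoly_mul_comm, ← l2_toC_mul, inv_mul_cancel_left]

theorem norm_of_lg {g : GL (Fin N) ℤ} (h : lg g = 0) :
    ∀ z ∈ (toC g).charpoly.roots, ‖z‖ = 1 := by
  intro z hz
  unfold lg at h
  have h1 : Real.log ‖z‖ ^ 2 ≤ 0 := by
    rw [← h]
    apply Multiset.single_le_sum
    · intro x hx
      obtain ⟨z, -, rfl⟩ := Multiset.mem_map.mp hx
      positivity
    · exact Multiset.mem_map.mpr ⟨z, hz, rfl⟩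
  have h2 : Real.log ‖z‖ = 0 := by
    have := sq_nonneg (Real.log ‖z‖)
    exact pow_eq_zero_iff (two_ne_zero) |>.mp (le_antisymm h1 this)
  have h3 : 0 < ‖z‖ := norm_pos_iff.mpr (l2_root_ne_zero g z hz)
  exact Real.eq_one_of_pos_of_log_eq_zero h3 h2

theorem lg_cube {a b c : GL (Fin N) ℤ} (hab : Commute a b) (hac : Commute a c)
    (hbc : Commute b c) :
    lg (a * b * c) + lg a + lg b + lg c = lg (a * b) + lg (a * c) + lg (b * c) := by
  have hc : ∀ {x y : GL (Fin N) ℤ}, Commute x y → Commute (toC x) (toC y) := by
    intro x y hxy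
    show toC x * toC y = toC y * toC x
    rw [← l2_toC_mul, ← l2_toC_mul, hxy.eq]
  obtain ⟨S, hS⟩ := l2_roots ![toC a, toC b, toC c] (by
    intro i j
    fin_cases i <;> fin_cases j <;>
      first
        | exact Commute.refl _
        | exact hc hab
        | exact hc hac
        | exact hc hbc
        | exact (hc hab).symm
        | exact (hc hac).symm
        | exact (hc hbc).symm)
  have ha : (toC a).charpoly.roots = S.map fun s => s 0 := by simpa using hS [0]
  have hb : (toC b).charpoly.roots = S.map fun s => s 1 := by simpa using hS [1]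
  have hc' : (toC c).charpoly.roots = S.map fun s => s 2 := by simpa using hS [2]
  have h01 : (toC (a * b)).charpoly.roots = S.map fun s => s 0 * s 1 := by
    rw [l2_toC_mul]; simpa using hS [0, 1]
  have h02 : (toC (a * c)).charpoly.roots = S.map fun s => s 0 * s 2 := by
    rw [l2_toC_mul]; simpa using hS [0, 2]
  have h12 : (toC (b * c)).charpoly.roots = S.map fun s => s 1 * s 2 := by
    rw [l2_toC_mul]; simpa using hS [1, 2]
  have h012 : (toC (a * b * c)).charpoly.roots = S.map fun s => s 0 * (s 1 * s 2) := by
    rw [mul_assoc, l2_toC_mul, l2_toC_mul]; simpa using hS [0, 1, 2]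
  have n0 : ∀ s ∈ S, s 0 ≠ 0 := fun s hs =>
    l2_root_ne_zero a _ (ha ▸ Multiset.mem_map.mpr ⟨s, hs, rfl⟩)
  have n1 : ∀ s ∈ S, s 1 ≠ 0 := fun s hs =>
    l2_root_ne_zero b _ (hb ▸ Multiset.mem_map.mpr ⟨s, hs, rfl⟩)
  have n2 : ∀ s ∈ S, s 2 ≠ 0 := fun s hs =>
    l2_root_ne_zero c _ (hc' ▸ Multiset.mem_map.mpr ⟨s, hs, rfl⟩)
  unfold lg
  rw [ha, hb, hc', h01, h02, h12, h012]
  simp only [Multiset.map_map, ← Multiset.sum_map_add]
  refine congrArg Multiset.sum (Multiset.map_congr rfl fun s hs => ?_)
  have e0 := norm_ne_zero_iff.mpr (n0 s hs)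
  have e1 := norm_ne_zero_iff.mpr (n1 s hs)
  have e2 := norm_ne_zero_iff.mpr (n2 s hs)
  simp only [Function.comp_apply, norm_mul]
  rw [Real.log_mul e0 (mul_ne_zero e1 e2), Real.log_mul e0 e1, Real.log_mul e0 e2,
    Real.log_mul e1 e2]
  ring

end Pool.Agent.P.MP_2d26dd_al
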