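import Pool.Agent.P.MP_2d26dd_al.L1
import Pool.Agent.P.MP_2d26dd_al.L2

/-! One-sided multiplications vanish for every conjugation invariant quadratic function. -/

namespace Pool.Agent.P.MP_2d26dd_al

theorem L3_grp {G : Type} [Group G] {Γ : Subgroup G} [hΓ : Γ.Normal] [Γ.FiniteIndex] (q : Γ → ℝ)
    (h0 : ∀ a, 0 ≤ q a) (hconj : ∀ a b, q (b * a * b⁻¹) = q a) {a b c : G}
    (hq : ∀ a' b' c' : Γ, Commute a' b' → Commute a' c' → Commute b' c' →
      IsConj a (a' : G) → IsConj a (b' : G) → IsConj a (c' : G) →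
      q (a' * b' * c') + q a' + q b' + q c' = q (a' * b') + q (a' * c') + q (b' * c'))
    (hab : Commute a b) (hac : Commute a c) (hbc : Commute b c) (h1 : IsConj a b)
    (h2 : IsConj a c) (h3 : IsConj a (a * b)) (h4 : IsConj a (a * c)) (h5 : IsConj a (b * c))
    (h6 : IsConj a (a * b * c)) (x : G) (hγ : x * a * x⁻¹ ∈ Γ) : q ⟨x * a * x⁻¹, hγ⟩ = 0 := by
  classical
  have _ : Fintype (G ⧸ Γ) := Fintype.ofFinite _
  let Q : G → ℝ := fun g => if h : g ∈ Γ then q ⟨g, h⟩ else 0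
  have Qv : ∀ g : Γ, Q g = q g := fun g => dif_pos g.2
  have Q0 : ∀ g, 0 ≤ Q g := fun g => by
    simp only [Q]
    split_ifs
    · exact h0 _
    · exact le_rfl
  have mem : ∀ g, IsConj a g → g ∈ Γ := fun g hg => by
    obtain ⟨y, rfl⟩ := isConj_iff.1 hg
    simpa [mul_assoc] using hΓ.conj_mem _ hγ (y * x⁻¹)
  have cj : ∀ g y, IsConj a g → IsConj a (y⁻¹ * g * y) := fun g y hg =>
    hg.trans (isConj_iff.2 ⟨y⁻¹, by rw [inv_inv]⟩)
  have Qc : ∀ g, IsConj a g → ∀ y z : G, (y : G ⧸ Γ) = z → Q (y⁻¹ * g * y) = Q (z⁻¹ * g * z) := by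
    intro g hg y z h
    have := hconj ⟨_, mem _ (cj g z hg)⟩ ⟨_, QuotientGroup.eq.1 h⟩
    rw [← Qv, ← Qv] at this
    simpa [mul_assoc] using this
  let ell : G → ℝ := fun g => ∑ y : G ⧸ Γ, Q (y.out⁻¹ * g * y.out)
  have hell : ∀ g, IsConj a g → ell g = ell a := fun g hg => by
    obtain ⟨z, rfl⟩ := isConj_iff.1 hg
    refine Fintype.sum_equiv (Equiv.mulLeft ((z⁻¹ : G) : G ⧸ Γ)) _ _ fun y => ?_
    rw [← Qc a (IsConj.refl a) (z⁻¹ * y.out) _ (by simp)]
    simp [mul_assoc]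
  have key : ell (a * b * c) + ell a + ell b + ell c = ell (a * b) + ell (a * c) + ell (b * c) := by
    simp only [ell, ← Finset.sum_add_distrib]
    refine Finset.sum_congr rfl fun y _ => ?_
    have cm : ∀ {g h : G}, Commute g h → ∀ (hg : IsConj a g) (hh : IsConj a h),
        Commute (⟨_, mem _ (cj g y.out hg)⟩ : Γ) ⟨_, mem _ (cj h y.out hh)⟩ := fun e _ _ =>
      Subtype.ext (by simpa [mul_assoc] using congrArg (· * y.out) e.eq)
    have := hq _ _ _ (cm hab (IsConj.refl a) h1) (cm hac (IsConj.refl a) h2) (cm hbc h1 h2)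
      (cj _ _ (IsConj.refl a)) (cj _ _ h1) (cj _ _ h2)
    simp only [← Qv] at this
    simpa [mul_assoc] using this
  rw [hell _ h1, hell _ h2, hell _ h3, hell _ h4, hell _ h5, hell _ h6] at key
  have h7 : ell a = 0 := by linarith
  have h8 := (Finset.sum_eq_zero_iff_of_nonneg fun y _ => Q0 _).1 h7 ((x⁻¹ : G) : G ⧸ Γ)
    (Finset.mem_univ _)
  rw [Qc a (IsConj.refl a) _ x⁻¹ (QuotientGroup.out_eq' _), inv_inv] at h8
  rw [← Qv]
  exact h8

section

open FreeGroup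

variable {ι : Type} [DecidableEq ι] {B : Finset ι} {t u v : ι} {w : FreeGroup ι}

theorem L3_ne {i : ι} (h : i ≠ t) (d : Bool) (w : FreeGroup ι) : srep t d w (of i) = of i := by
  cases d <;> exact rep_ne h _ _

theorem L3_self (ht : t ∉ B) (hw : w ∈ sub B) (d : Bool) :
    srep t d w (of t) = if d then of t * w else w * of t := by
  cases d <;> simp [srep, rep_self, kill_of_mem ht hw]

theorem L3_fix (ht : t ∉ B) (hw : w ∈ sub B) (d : Bool) : srep t d w w = w :=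
  fix_of_mem_sub (fun _ hi => L3_ne (ne_of_mem_of_not_mem hi ht) d w) hw

theorem L3_tv_fix (hu : u ∉ B) (hw : w ∈ sub B) (d : Bool) : tv u t d true w = w :=
  fix_of_mem_sub (fun _ hi => tv_ne (ne_of_mem_of_not_mem hi hu) t d true) hw

theorem L3_tv (h : u ≠ t) (d : Bool) :
    tv u t d true (of u) = if d then of u * of t else of t * of u := by
  cases d <;> simp [tv_left h, tv_right h, lt_true]

theorem L3_comm (ht : t ∉ B) (hu : u ∉ B) (h : t ≠ u) (hw : w ∈ sub B) (d : Bool) :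
    Commute (srep t d w) (srep u d w) := by
  refine autF_ext fun i => ?_
  by_cases h1 : i = t
  · cases d <;> simp [h1, L3_ne h, L3_self ht hw, L3_fix hu hw]
  by_cases h2 : i = u
  · cases d <;> simp [h2, L3_ne h.symm, L3_self hu hw, L3_fix ht hw]
  simp [L3_ne h1, L3_ne h2]

theorem L3_swap (ht : t ∉ B) (hu : u ∉ B) (hw : w ∈ sub B) (d : Bool) :
    IsConj (srep t d w) (srep u d w) := by
  refine isConj_iff.2 ⟨perm (Equiv.swap t u), mul_inv_eq_of_eq_mul (autF_ext fun i => ?_)⟩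
  have h0 : perm (Equiv.swap t u) w = w := fix_of_mem_sub (fun i hi => by
    rw [perm_of, Equiv.swap_apply_of_ne_of_ne (ne_of_mem_of_not_mem hi ht) (ne_of_mem_of_not_mem hi hu)]) hw
  by_cases h1 : i = t
  · cases d <;> simp [h1, perm_of, L3_self ht hw, L3_self hu hw, h0]
  have h2 : Equiv.swap t u i ≠ u := fun e => h1 (by simpa [Equiv.swap_apply_eq_iff] using e)
  simp [L3_ne h1, perm_of, L3_ne h2]

theorem L3_mul (ht : t ∉ B) (hu : u ∉ B) (h : t ≠ u) (hw : w ∈ sub B) (d : Bool) :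
    srep t d w * tv u t d true = tv u t d true * (srep t d w * srep u d w) := by
  refine autF_ext fun i => ?_
  by_cases h1 : i = t
  · cases d <;> simp [h1, L3_ne h, L3_self ht hw, tv_ne h, L3_tv_fix hu hw]
  by_cases h2 : i = u
  · cases d <;> simp [h2, L3_ne h.symm, L3_self hu hw, L3_self ht hw, L3_fix ht hw, L3_tv h.symm,
      L3_tv_fix hu hw, mul_assoc]
  simp [L3_ne h1, L3_ne h2, tv_ne h2]

theorem L3_comm_tv (hu : u ∉ B) (hv : v ∉ B) (h : t ≠ u) (h' : t ≠ v) (h'' : u ≠ v)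
    (hw : w ∈ sub B) (d : Bool) : Commute (srep u d w) (tv v t d true) := by
  refine autF_ext fun i => ?_
  by_cases h1 : i = u
  · cases d <;> simp [h1, L3_self hu hw, tv_ne h'', L3_tv_fix hv hw]
  by_cases h2 : i = v
  · cases d <;> simp [h2, L3_ne h''.symm, L3_ne h, L3_tv h'.symm]
  simp [L3_ne h1, tv_ne h2]

theorem L3_conj (ht : t ∉ B) (hu : u ∉ B) (h : t ≠ u) (hw : w ∈ sub B) (d : Bool) :
    IsConj (srep t d w) (srep t d w * srep u d w) :=
  isConj_iff.2 ⟨(tv u t d true)⁻¹, by rw [inv_inv, mul_assoc, L3_mul ht hu h hw]; simp⟩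

theorem L3_conj3 (ht : t ∉ B) (hu : u ∉ B) (hv : v ∉ B) (h : t ≠ u) (h' : t ≠ v) (h'' : u ≠ v)
    (hw : w ∈ sub B) (d : Bool) :
    IsConj (srep t d w * srep u d w) (srep t d w * srep u d w * srep v d w) :=
  isConj_iff.2 ⟨(tv v t d true)⁻¹, by
    rw [inv_inv, mul_assoc, mul_assoc, (L3_comm_tv hu hv h h' h'' hw d).eq, ← mul_assoc (srep _ _ _),
      L3_mul ht hv h' hw, mul_assoc, inv_mul_cancel_left, mul_assoc, mul_assoc,
      (L3_comm hu hv h'' hw d).eq]⟩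

end

variable {ι : Type} [DecidableEq ι] [Fintype ι] {Γ : Subgroup (AutF ι)} [Γ.Normal]
  [Γ.FiniteIndex]

theorem quad_zero (q : Γ → ℝ) (h0 : ∀ a, 0 ≤ q a) (hconj : ∀ a b, q (b * a * b⁻¹) = q a)
    {B : Finset ι} (hB : B.card + 3 ≤ Fintype.card ι) {t : ι} (ht : t ∉ B) (d : Bool)
    {w : FreeGroup ι} (hw : w ∈ sub B)
    (hq : ∀ a b c : Γ, Commute a b → Commute a c → Commute b c →
      IsConj (srep t d w) (a : AutF ι) → IsConj (srep t d w) (b : AutF ι) →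
      IsConj (srep t d w) (c : AutF ι) →
      q (a * b * c) + q a + q b + q c = q (a * b) + q (a * c) + q (b * c))
    (x : AutF ι) (hγ : x * srep t d w * x⁻¹ ∈ Γ) : q ⟨x * srep t d w * x⁻¹, hγ⟩ = 0 := by
  obtain ⟨u, hu, v, hv, huv⟩ := Finset.one_lt_card.1 (show 1 < (insert t B)ᶜ.card by
    rw [Finset.card_compl, Finset.card_insert_of_notMem ht]; omega)
  rw [Finset.mem_compl, Finset.mem_insert, not_or] at hu hv
  have h1 := L3_swap ht hu.2 hw d
  have h3 := L3_conj ht hu.2 (Ne.symm hu.1) hw d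
  exact L3_grp q h0 hconj hq (L3_comm ht hu.2 (Ne.symm hu.1) hw d)
    (L3_comm ht hv.2 (Ne.symm hv.1) hw d) (L3_comm hu.2 hv.2 huv hw d) h1 (L3_swap ht hv.2 hw d) h3
    (L3_conj ht hv.2 (Ne.symm hv.1) hw d) (h1.trans (L3_conj hu.2 hv.2 huv hw d))
    (h3.trans (L3_conj3 ht hu.2 hv.2 (Ne.symm hu.1) (Ne.symm hv.1) huv hw d)) x hγ

theorem srep_unip {N : ℕ} (ρ : Γ →* GL (Fin N) ℤ) (h3 : ∀ γ, Lev3 (ρ γ))
    {B : Finset ι} (hB : B.card + 3 ≤ Fintype.card ι) {t : ι} (ht : t ∉ B) (d : Bool)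
    {w : FreeGroup ι} (hw : w ∈ sub B) (x : AutF ι) (hγ : x * srep t d w * x⁻¹ ∈ Γ) :
    Unip (ρ ⟨x * srep t d w * x⁻¹, hγ⟩) := by
  refine unip_of_roots (h3 _) (norm_of_lg (quad_zero (fun γ => lg (ρ γ)) (fun _ => lg_nonneg _)
    (fun a b => ?_) hB ht d hw (fun a b c hab hac hbc _ _ _ => ?_) x hγ))
  · simp only [map_mul, map_inv, lg_conj]
  · simp only [map_mul]
    exact lg_cube (hab.map ρ) (hac.map ρ) (hbc.map ρ)

end Pool.Agent.P.MP_2d26dd_al
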