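import Pool.Agent.P.MP_2d26dd_al.L1

/-! Unipotent groups. -/

namespace Pool.Agent.P.MP_2d26dd_al

variable {N : ℕ}

open Polynomial in
private theorem L4_nil (n : Submodule ℚ (MQ N)) (hn : n * n ≤ n)
    (ht : ∀ a ∈ n, Matrix.trace a = 0) {a : MQ N} (ha : a ∈ n) : IsNilpotent a := by
  have hp : ∀ i : ℕ, a ^ i * a ∈ n := by
    intro i
    induction i with
    | zero => simpa using ha
    | succ i ih => rw [pow_succ]; exact hn (Submodule.mul_mem_mul ih ha)
  have hr : ∀ r : ℚ[X], aeval a r * a ∈ n := by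
    intro r
    induction r using Polynomial.induction_on' with
    | add p q hp hq => rw [map_add, add_mul]; exact n.add_mem hp hq
    | monomial i c =>
      rw [aeval_monomial, mul_assoc, ← Algebra.smul_def]
      exact n.smul_mem c (hp i)
  obtain ⟨q, hq, hX⟩ := exists_eq_pow_rootMultiplicity_mul_and_not_dvd a.charpoly
    a.charpoly_monic.ne_zero 0
  rw [C_0, sub_zero] at hq hX
  generalize rootMultiplicity 0 a.charpoly = j at hq
  obtain ⟨s, t, hst⟩ : IsCoprime (X ^ (j + 1)) q :=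
    (irreducible_X.coprime_iff_not_dvd.2 hX).pow_left
  have h0 : aeval a (X ^ j * q) = 0 := hq ▸ Matrix.aeval_self_charpoly a
  have he : aeval a (s * X ^ (j + 1)) ∈ n := by
    have := hr (s * X ^ j)
    rwa [show aeval a (s * X ^ j) * a = aeval a (s * X ^ (j + 1)) by
        rw [pow_succ, ← mul_assoc, map_mul (aeval a) (s * X ^ j) X, aeval_X]] at this
  have hi : IsIdempotentElem (aeval a (s * X ^ (j + 1))) := by
    have e : s * X ^ (j + 1) * (s * X ^ (j + 1)) = s * X ^ (j + 1) - s * t * X * (X ^ j * q) := by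
      linear_combination (s * X ^ (j + 1)) * hst
    rw [IsIdempotentElem, ← map_mul, e, map_sub, map_mul _ (s * t * X), h0, mul_zero, sub_zero]
  have hz : aeval a (s * X ^ (j + 1)) = 0 := by
    have h1 : IsIdempotentElem (Matrix.toLin' (aeval a (s * X ^ (j + 1)))) := by
      rw [IsIdempotentElem, Module.End.mul_eq_comp, ← Matrix.toLin'_mul, hi.eq]
    have h2 := LinearMap.IsIdempotentElem.eq_zero_of_trace_eq_zero h1
      (by rw [Matrix.trace_toLin'_eq]; exact ht _ he)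
    exact Matrix.toLin'.map_eq_zero_iff.1 h2
  refine ⟨j, ?_⟩
  have e : (X : ℚ[X]) ^ j = X ^ j * (s * X ^ (j + 1)) + t * (X ^ j * q) := by
    linear_combination (-(X : ℚ[X]) ^ j) * hst
  have := congrArg (aeval a) e
  rwa [map_add, map_mul _ (X ^ j), hz, map_mul _ t, h0, mul_zero, mul_zero, add_zero, map_pow,
    aeval_X] at this

private theorem L4_pow (n : Submodule ℚ (MQ N)) (hn : n * n ≤ n)
    (ht : ∀ a ∈ n, Matrix.trace a = 0) : ∃ k : ℕ, n ^ k = ⊥ := by
  have hle : ∀ k : ℕ, n ^ (k + 1 + 1) ≤ n ^ (k + 1) := by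
    intro k
    rw [pow_succ, pow_succ, mul_assoc]
    exact mul_le_mul' le_rfl hn
  have han : Antitone fun k : ℕ => n ^ (k + 1) := antitone_nat_of_succ_le hle
  obtain ⟨k, hk⟩ := IsArtinian.monotone_stabilizes (R := ℚ) (M := MQ N)
    ⟨fun k => OrderDual.toDual (n ^ (k + 1)), fun i j h => han h⟩
  have hmm : n ^ (k + 1) * n ^ (k + 1) = n ^ (k + 1) := by
    rw [← pow_add]
    exact (hk (k + 1 + k) (by omega)).symm
  have hm : n ^ (k + 1) ≤ n := by simpa using han (Nat.zero_le k)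
  refine ⟨k + 1, ?_⟩
  generalize n ^ (k + 1) = m at hmm hm
  by_contra hne
  obtain ⟨I, ⟨hI, hI0⟩, hmin⟩ := IsArtinian.set_has_minimal
    {I : Submodule ℚ (MQ N) | m * I ≤ I ∧ m * I ≠ ⊥} ⟨m, hmm.le, by rwa [hmm]⟩
  obtain ⟨x, hx, hx0⟩ : ∃ x ∈ I, m * Submodule.span ℚ {x} ≠ ⊥ := by
    by_contra h
    push Not at h
    refine hI0 (eq_bot_iff.2 (Submodule.mul_le.2 fun a ha b hb => ?_))
    rw [← h b hb]
    exact Submodule.mul_mem_mul ha (Submodule.mem_span_singleton_self b)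
  have hJ : m * (m * Submodule.span ℚ {x}) = m * Submodule.span ℚ {x} := by
    rw [← mul_assoc, hmm]
  have hJI : m * Submodule.span ℚ {x} ≤ I :=
    (mul_le_mul' le_rfl ((Submodule.span_singleton_le_iff_mem x I).2 hx)).trans hI
  have hE : m * Submodule.span ℚ {x} = I :=
    hJI.eq_or_lt.resolve_right (hmin _ ⟨hJ.le, by rwa [hJ]⟩)
  rw [← hE] at hx
  obtain ⟨a, ha, e⟩ := Submodule.mem_mul_span_singleton.1 hx
  obtain ⟨j, hj⟩ := L4_nil n hn ht (hm ha)
  have hx1 : ∀ i : ℕ, a ^ i * x = x := by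
    intro i
    induction i with
    | zero => rw [pow_zero, one_mul]
    | succ i ih => rw [pow_succ, mul_assoc, e, ih]
  have hx2 : x = 0 := by rw [← hx1 j, hj, zero_mul]
  apply hx0
  rw [hx2, Submodule.span_zero_singleton, Submodule.mul_bot]

private theorem L4_id (u v : GL (Fin N) ℤ) :
    toQ (u * v) - 1 = (toQ u - 1) + (toQ v - 1) + (toQ u - 1) * (toQ v - 1) := by
  rw [toQ_mul]; noncomm_ring

theorem unip_span_nilpotent (U : Subgroup (GL (Fin N) ℤ)) (hU : ∀ u ∈ U, Unip u) :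
    ∃ k : ℕ, (Submodule.span ℚ ((fun u => toQ u - 1) '' (U : Set (GL (Fin N) ℤ)))) ^ k = ⊥ := by
  refine L4_pow _ ?_ ?_
  · rw [Submodule.span_mul_span]
    refine Submodule.span_le.2 ?_
    rintro _ ⟨_, ⟨u, hu, rfl⟩, _, ⟨v, hv, rfl⟩, rfl⟩
    have e : (toQ u - 1) * (toQ v - 1) = (toQ (u * v) - 1) - (toQ u - 1) - (toQ v - 1) := by
      rw [L4_id]; abel
    change (toQ u - 1) * (toQ v - 1) ∈ _
    rw [e]
    exact Submodule.sub_mem _ (Submodule.sub_mem _
      (Submodule.subset_span ⟨_, U.mul_mem hu hv, rfl⟩) (Submodule.subset_span ⟨_, hu, rfl⟩))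
      (Submodule.subset_span ⟨_, hv, rfl⟩)
  · intro a ha
    induction ha using Submodule.span_induction with
    | mem x hx =>
      obtain ⟨u, hu, rfl⟩ := hx
      exact (Matrix.isNilpotent_trace_of_isNilpotent (hU u hu)).eq_zero
    | zero => exact Matrix.trace_zero _ _
    | add x y _ _ hx hy => rw [Matrix.trace_add, hx, hy, add_zero]
    | smul c x _ hx => rw [Matrix.trace_smul, hx, smul_zero]

theorem trace_unip (U : Subgroup (GL (Fin N) ℤ)) (hU : ∀ u ∈ U, Unip u) {g : GL (Fin N) ℤ}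
    (hg : ∀ u ∈ U, g * u * g⁻¹ ∈ U) {u : GL (Fin N) ℤ} (hu : u ∈ U) :
    Matrix.trace ((toQ u - 1) * toQ g) = 0 := by
  obtain ⟨k, hk⟩ := unip_span_nilpotent U hU
  have h1 : ∀ i : ℕ, g ^ i * u * (g ^ i)⁻¹ ∈ U := by
    intro i
    induction i with
    | zero => simpa using hu
    | succ i ih =>
      have e : g ^ (i + 1) * u * (g ^ (i + 1))⁻¹ = g * (g ^ i * u * (g ^ i)⁻¹) * g⁻¹ := by
        rw [pow_succ']; group
      rw [e]; exact hg _ ih
  have h2 : ∀ i : ℕ, ∃ b ∈ (Submodule.span ℚ ((fun u => toQ u - 1) ''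
      (U : Set (GL (Fin N) ℤ)))) ^ i, ((toQ u - 1) * toQ g) ^ i = b * toQ (g ^ i) := by
    intro i
    induction i with
    | zero => exact ⟨1, by rw [pow_zero]; exact Submodule.one_le.1 le_rfl,
        by rw [pow_zero, pow_zero, toQ_one, one_mul]⟩
    | succ i ih =>
      obtain ⟨b, hb, e⟩ := ih
      refine ⟨b * (toQ (g ^ i * u * (g ^ i)⁻¹) - 1), ?_, ?_⟩
      · rw [pow_succ]
        exact Submodule.mul_mem_mul hb (Submodule.subset_span ⟨_, h1 i, rfl⟩)
      · have e2 : toQ (g ^ i * u * (g ^ i)⁻¹) * toQ (g ^ i) = toQ (g ^ i) * toQ u := by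
          rw [← toQ_mul, ← toQ_mul, inv_mul_cancel_right]
        have e3 : (toQ (g ^ i * u * (g ^ i)⁻¹) - 1) * toQ (g ^ i) = toQ (g ^ i) * (toQ u - 1) := by
          rw [sub_mul, e2, mul_sub, one_mul, mul_one]
        rw [pow_succ, e, pow_succ, toQ_mul (g ^ i) g, mul_assoc b (_ - 1), ← mul_assoc (_ - 1)
          (toQ (g ^ i)), e3, mul_assoc, mul_assoc]
  obtain ⟨b, hb, e⟩ := h2 k
  rw [hk, Submodule.mem_bot] at hb
  rw [hb, zero_mul] at e
  exact (Matrix.isNilpotent_trace_of_isNilpotent ⟨k, e⟩).eq_zero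

theorem trivial_of_unip {G : Type} [Group G] (hG : NoHom G) (ρ : G →* GL (Fin N) ℤ)
    (hU : ∀ g, Unip (ρ g)) (g : G) : ρ g = 1 := by
  obtain ⟨k, hk⟩ := unip_span_nilpotent ρ.range (by rintro _ ⟨a, rfl⟩; exact hU a)
  have hm : ∀ a, toQ (ρ a) - 1 ∈ Submodule.span ℚ ((fun u => toQ u - 1) ''
      (ρ.range : Set (GL (Fin N) ℤ))) := fun a => Submodule.subset_span ⟨_, ⟨a, rfl⟩, rfl⟩
  have hs : ∀ S : Submodule ℚ (MQ N), (∀ a, toQ (ρ a) - 1 ∈ S) → Submodule.span ℚ
      ((fun u => toQ u - 1) '' (ρ.range : Set (GL (Fin N) ℤ))) ≤ S := fun S h =>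
    Submodule.span_le.2 (by rintro _ ⟨_, ⟨a, rfl⟩, rfl⟩; exact h a)
  generalize Submodule.span ℚ ((fun u => toQ u - 1) ''
      (ρ.range : Set (GL (Fin N) ℤ))) = n at hk hm hs
  have h2 : n ≤ n * n := by
    refine hs _ fun a => ?_
    by_contra hne
    obtain ⟨φ, h0, h1⟩ := Submodule.exists_le_ker_of_notMem hne
    have := hG (fun b => ((φ (toQ (ρ b) - 1) : ℚ) : ℝ)) (fun b c => by
      have h3 : φ ((toQ (ρ b) - 1) * (toQ (ρ c) - 1)) = 0 :=
        h1 (Submodule.mul_mem_mul (hm b) (hm c))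
      rw [map_mul, L4_id, map_add, map_add, h3, add_zero, Rat.cast_add]) a
    exact h0 (Rat.cast_eq_zero.1 this)
  have h3 : ∀ i : ℕ, n ≤ n ^ i * n := by
    intro i
    induction i with
    | zero => rw [pow_zero, one_mul]
    | succ i ih =>
      rw [pow_succ, mul_assoc]
      exact ih.trans (mul_le_mul' le_rfl h2)
  have h4 := h3 k (hm g)
  rw [hk, Submodule.bot_mul, Submodule.mem_bot, sub_eq_zero, ← toQ_one] at h4
  exact toQ_injective h4

end Pool.Agent.P.MP_2d26dd_al
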