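import Pool.Agent.P.MP_2d26dd_al.L4

/-! The trace form. -/

namespace Pool.Agent.P.MP_2d26dd_al

variable {N : ℕ}

theorem l5_mem {L : Subgroup (GL (Fin N) ℤ)} {g : GL (Fin N) ℤ} (hg : g ∈ L) : toQ g ∈ env L :=
  Submodule.subset_span ⟨g, hg, rfl⟩

theorem l5_one (L : Subgroup (GL (Fin N) ℤ)) : (1 : MQ N) ∈ env L :=
  toQ_one ▸ l5_mem L.one_mem

theorem env_mul {L : Subgroup (GL (Fin N) ℤ)} {a b : MQ N} (ha : a ∈ env L) (hb : b ∈ env L) :
    a * b ∈ env L := by
  have h := Submodule.mul_mem_mul ha hb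
  rw [env, Submodule.span_mul_span] at h
  refine Submodule.span_le.2 ?_ h
  rintro _ ⟨_, ⟨g, hg, rfl⟩, _, ⟨k, hk, rfl⟩, rfl⟩
  show toQ g * toQ k ∈ env L
  rw [← toQ_mul]
  exact l5_mem (L.mul_mem hg hk)

theorem rad_mul {L : Subgroup (GL (Fin N) ℤ)} {a b : MQ N} (ha : a ∈ rad (env L))
    (hb : b ∈ env L) : a * b ∈ rad (env L) ∧ b * a ∈ rad (env L) := by
  refine ⟨⟨env_mul ha.1 hb, fun c hc => ?_⟩, ⟨env_mul hb ha.1, fun c hc => ?_⟩⟩
  · rw [mul_assoc]
    exact ha.2 _ (env_mul hb hc)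
  · rw [mul_assoc, Matrix.trace_mul_comm, mul_assoc]
    exact ha.2 _ (env_mul hc hb)

theorem l5_aeval {L : Subgroup (GL (Fin N) ℤ)} {a : MQ N} (ha : a ∈ env L) (p : Polynomial ℚ) :
    Polynomial.aeval a p ∈ env L := by
  have h : Algebra.adjoin ℚ {a} ≤ (env L).toSubalgebra (l5_one L) fun _ _ => env_mul :=
    Algebra.adjoin_le (Set.singleton_subset_iff.2 ha)
  exact h (Polynomial.aeval_mem_adjoin_singleton ℚ a)

theorem l5_idem {e : MQ N} (he : e * e = e) (ht : Matrix.trace e = 0) : e = 0 := by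
  have h1 : IsIdempotentElem (Matrix.toLin' e) := by
    show Matrix.toLin' e ∘ₗ Matrix.toLin' e = Matrix.toLin' e
    rw [← Matrix.toLin'_mul, he]
  have h2 := LinearMap.IsIdempotentElem.eq_zero_of_trace_eq_zero h1
    (by rw [Matrix.trace_toLin'_eq, ht])
  exact Matrix.toLin'.map_eq_zero_iff.1 h2

open Polynomial in
theorem l5_nil {a : MQ N} (h : ∀ p : ℚ[X], Matrix.trace (a * aeval a p) = 0) : IsNilpotent a := by
  obtain ⟨q, h1, h2⟩ := exists_eq_pow_rootMultiplicity_mul_and_not_dvd a.charpoly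
    a.charpoly_monic.ne_zero 0
  rw [C_0, sub_zero] at h1 h2
  generalize rootMultiplicity 0 a.charpoly = k at h1
  have h3 : q.coeff 0 ≠ 0 := fun e => h2 (X_dvd_iff.2 e)
  have h4 : aeval a (X ^ k * q) = 0 := by rw [← h1, Matrix.aeval_self_charpoly]
  obtain ⟨s, hs⟩ : ∃ s : ℚ[X], C (q.coeff 0)⁻¹ * q = 1 - X * s := by
    refine ⟨-(C (q.coeff 0)⁻¹ * q.divX), ?_⟩
    have h5 : C (q.coeff 0)⁻¹ * C (q.coeff 0) = 1 := by
      rw [← C_mul, inv_mul_cancel₀ h3, C_1]
    have h6 := X_mul_divX_add q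
    linear_combination h5 - C (q.coeff 0)⁻¹ * h6
  have h7 : ∀ (m : ℕ) (r : ℚ[X]), aeval a (r * X ^ k * (X * s) ^ m) = aeval a (r * X ^ k) := by
    intro m r
    obtain ⟨t, ht⟩ := one_sub_dvd_one_sub_pow (X * s) m
    have h8 : r * X ^ k * (X * s) ^ m = r * X ^ k - r * C (q.coeff 0)⁻¹ * t * (X ^ k * q) := by
      linear_combination (-(r * X ^ k)) * ht + r * X ^ k * t * hs
    rw [h8, map_sub, map_mul (aeval a) _ (X ^ k * q), h4, mul_zero, sub_zero]
  have h9 : aeval a ((X * s) ^ (k + 1)) = 0 := by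
    refine l5_idem ?_ ?_
    · have h10 := h7 (k + 1) (X * s ^ (k + 1))
      rw [show X * s ^ (k + 1) * X ^ k = (X * s) ^ (k + 1) by ring, map_mul] at h10
      exact h10
    · have h10 := h (X ^ k * s ^ (k + 1))
      rw [show (X * s) ^ (k + 1) = X * (X ^ k * s ^ (k + 1)) by ring, map_mul, aeval_X]
      exact h10
  refine ⟨k, ?_⟩
  have h11 := h7 (k + 1) 1
  rw [map_mul, h9, mul_zero, one_mul, map_pow, aeval_X] at h11
  exact h11.symm

theorem rad_nilpotent {L : Subgroup (GL (Fin N) ℤ)} {a : MQ N} (ha : a ∈ rad (env L)) :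
    IsNilpotent a := by
  exact l5_nil fun p => ha.2 _ (l5_aeval ha.1 p)

theorem del_le (L : Subgroup (GL (Fin N) ℤ)) : del L ≤ N ^ 2 := by
  have h := Submodule.finrank_le (env L)
  rw [Module.finrank_matrix, Fintype.card_fin, Module.finrank_self, mul_one, ← sq] at h
  exact (Nat.sub_le _ _).trans h

theorem l5_env_mono {L L' : Subgroup (GL (Fin N) ℤ)} (h : L ≤ L') : env L ≤ env L' :=
  Submodule.span_mono (Set.image_mono h)

theorem l5_sup_le {L L' : Subgroup (GL (Fin N) ℤ)} (h : L ≤ L') : env L ⊔ rad (env L') ≤ env L' :=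
  sup_le (l5_env_mono h) fun _ ha => ha.1

theorem l5_rank {L L' : Subgroup (GL (Fin N) ℤ)} (h : L ≤ L') :
    del L + Module.finrank ℚ (rad (env L')) ≤ Module.finrank ℚ ↥(env L ⊔ rad (env L')) := by
  have h1 := Submodule.finrank_sup_add_finrank_inf_eq (env L) (rad (env L'))
  have h2 : env L ⊓ rad (env L') ≤ rad (env L) :=
    fun a ha => ⟨ha.1, fun b hb => ha.2.2 b (l5_env_mono h hb)⟩
  have h3 := Submodule.finrank_mono h2
  have h4 : Module.finrank ℚ (rad (env L)) ≤ Module.finrank ℚ (env L) :=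
    Submodule.finrank_mono fun _ ha => ha.1
  rw [del]
  omega

theorem del_mono {L L' : Subgroup (GL (Fin N) ℤ)} (h : L ≤ L') : del L ≤ del L' := by
  have h1 := l5_rank h
  have h2 := Submodule.finrank_mono (l5_sup_le h)
  rw [del.eq_1 L']
  omega

theorem full_of_del {L L' : Subgroup (GL (Fin N) ℤ)} (h : L ≤ L') (hd : del L' ≤ del L) :
    env L' ≤ env L ⊔ rad (env L') := by
  have h1 := l5_rank h
  rw [del.eq_1 L'] at hd
  exact (Submodule.eq_of_le_of_finrank_le (l5_sup_le h) (by omega)).ge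

theorem l5_torsion {G : Type} [Group G] (hG : NoHom G) (g : G) :
    ∃ m : ℕ, 0 < m ∧ g ^ m ∈ commutator G := by
  have h : IsOfFinOrder (Abelianization.of g) := by
    by_contra h
    have h1 : Function.Injective
        (zmultiplesHom (Additive (Abelianization G)) (Additive.ofMul (Abelianization.of g))) :=
      fun a b e => injective_zpow_iff_not_isOfFinOrder.2 h (congrArg Additive.toMul e)
    obtain ⟨f, hf⟩ := (Module.Baer.of_divisible ℝ).extension_property_addMonoidHom _ h1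
      (Int.castAddHom ℝ)
    have h2 := hG (fun a => f (Additive.ofMul (Abelianization.of a)))
      (fun a b => by rw [map_mul, ofMul_mul, map_add]) g
    have h3 := DFunLike.congr_fun hf 1
    rw [AddMonoidHom.comp_apply, zmultiplesHom_apply, one_smul, h2] at h3
    simp at h3
  obtain ⟨m, hm, e⟩ := isOfFinOrder_iff_pow_eq_one.1 h
  refine ⟨m, hm, ?_⟩
  rw [← Abelianization.ker_of, MonoidHom.mem_ker, map_pow, e]

theorem trivial_of_comm {G : Type} [Group G] (hG : NoHom G) (ρ : G →* GL (Fin N) ℤ)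
    (h3 : ∀ g, Lev3 (ρ g))
    (hc : ∀ g h, toQ (ρ g) * toQ (ρ h) - toQ (ρ h) * toQ (ρ g) ∈ rad (env ρ.range)) (g : G) :
    ρ g = 1 := by
  have hm : ∀ a, toQ (ρ a) ∈ env ρ.range := fun a => l5_mem ⟨a, rfl⟩
  have hmul : ∀ a b, toQ (ρ (a * b)) = toQ (ρ a) * toQ (ρ b) := fun a b => by
    rw [map_mul, toQ_mul]
  have hone : toQ (ρ 1) = 1 := by rw [map_one, toQ_one]
  let K : Subgroup G :=
    { carrier := {a | toQ (ρ a) - 1 ∈ rad (env ρ.range)}
      one_mem' := by
        show toQ (ρ 1) - 1 ∈ rad (env ρ.range)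
        rw [hone, sub_self]
        exact zero_mem _
      mul_mem' := fun {a b} ha hb => by
        show toQ (ρ (a * b)) - 1 ∈ rad (env ρ.range)
        have h := add_mem (rad_mul ha (hm b)).1 hb
        rwa [sub_mul, one_mul, sub_add_sub_cancel, ← hmul] at h
      inv_mem' := fun {a} ha => by
        show toQ (ρ a⁻¹) - 1 ∈ rad (env ρ.range)
        have h := neg_mem (rad_mul ha (hm a⁻¹)).1
        rwa [sub_mul, one_mul, ← hmul, mul_inv_cancel, hone, neg_sub] at h }
  have hK : commutator G ≤ K := by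
    rw [commutator_def, Subgroup.commutator_le]
    intro a _ b _
    show toQ (ρ (a * b * a⁻¹ * b⁻¹)) - 1 ∈ rad (env ρ.range)
    have h := (rad_mul (hc a b) (hm (b * a)⁻¹)).1
    rw [sub_mul, ← hmul, ← hmul, ← hmul, ← hmul, mul_inv_cancel, hone, mul_inv_rev,
      ← mul_assoc] at h
    exact h
  refine trivial_of_unip hG ρ (fun a => ?_) g
  obtain ⟨m, h0, h1⟩ := l5_torsion hG a
  refine unip_of_pow (h3 a) h0 ?_
  rw [← map_pow]
  exact rad_nilpotent (hK h1)

end Pool.Agent.P.MP_2d26dd_al
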