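import Pool.Agent.P.MP_2d26dd_al.Tn

/-! Finite-index subgroups have no homomorphism to `ℝ`. -/

namespace Pool.Agent.P.MP_2d26dd_al

section

open scoped InnerProductSpace

variable {G : Type} [Group G] {Γ : Subgroup G} {f : Γ → ℝ}

theorem t2_inv {u : G → ℝ} (hu : ∀ x (γ : Γ), u (x * γ) = u x + f γ) (g h : G) {x y : G}
    (e : (x : G ⧸ Γ) = y) : u (g * x) - u (h * x) = u (g * y) - u (h * y) := by
  obtain ⟨γ, rfl⟩ : ∃ γ : Γ, y = x * γ := ⟨⟨x⁻¹ * y, QuotientGroup.eq.1 e⟩, by simp⟩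
  rw [← mul_assoc, ← mul_assoc, hu, hu]
  ring

theorem t2_exists (hf : ∀ a b, f (a * b) = f a + f b) :
    ∃ u : G → ℝ, ∀ x (γ : Γ), u (x * γ) = u x + f γ := by
  refine ⟨fun x => f ⟨(x : G ⧸ Γ).out⁻¹ * x, QuotientGroup.eq.1 (Quotient.out_eq _)⟩,
    fun x γ => ?_⟩
  rw [← hf]
  refine congrArg f (Subtype.ext ?_)
  simp [mul_assoc]

theorem t2_harm [Γ.FiniteIndex] (hf : ∀ a b, f (a * b) = f a + f b) {A : Type} [Fintype A]
    (s : A → G) (r : A ≃ A) (hr : ∀ a, s (r a) = (s a)⁻¹) :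
    ∃ u : G → ℝ, (∀ x (γ : Γ), u (x * γ) = u x + f γ) ∧
      ∀ x, ∑ a, (u ((s a)⁻¹ * x) - u x) = 0 := by
  classical
  obtain ⟨u, hu⟩ := t2_exists hf
  have := Fintype.ofFinite (G ⧸ Γ)
  let T : ((G ⧸ Γ) → ℝ) →ₗ[ℝ] EuclideanSpace ℝ (A × (G ⧸ Γ)) :=
    { toFun := fun v => WithLp.toLp 2 fun p => v ((s p.1)⁻¹ • p.2) - v p.2
      map_add' := fun v w => by ext p; simp; ring
      map_smul' := fun c v => by ext p; simp; ring }
  obtain ⟨_, ⟨v, rfl⟩, z, hz, e⟩ := (LinearMap.range T).exists_add_mem_mem_orthogonal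
    (WithLp.toLp 2 fun p => u ((s p.1)⁻¹ * p.2.out) - u p.2.out)
  have hu' : ∀ x (γ : Γ), u (x * γ) - v (x * γ : G) = u x - v x + f γ := fun x γ => by
    rw [hu, QuotientGroup.mk_mul_of_mem x γ.2]
    ring
  have hzv : ∀ a (x : G), z (a, x) =
      (u ((s a)⁻¹ * x) - v ((s a)⁻¹ * x : G)) - (u x - v x) := fun a x => by
    have h1 : u ((s a)⁻¹ * (x : G ⧸ Γ).out) - u (x : G ⧸ Γ).out =
        v ((s a)⁻¹ • (x : G ⧸ Γ)) - v x + z (a, x) := congrArg (fun w => w.ofLp (a, (x : G ⧸ Γ))) e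
    have h2 := t2_inv hu (s a)⁻¹ 1 (Quotient.out_eq (x : G ⧸ Γ))
    rw [one_mul, one_mul, h1] at h2
    have h3 : (s a)⁻¹ • (x : G ⧸ Γ) = ((s a)⁻¹ * x : G) := rfl
    rw [h3] at h2
    linarith
  refine ⟨fun x => u x - v x, hu', fun x => ?_⟩
  have h1 := hz _ ⟨Pi.single (x : G ⧸ Γ) 1, rfl⟩
  have h2 : ⟪T (Pi.single (x : G ⧸ Γ) 1), z⟫_ℝ = ∑ a, (z (a, (s a * x : G)) - z (a, x)) := by
    rw [PiLp.inner_apply, Fintype.sum_prod_type]
    refine Finset.sum_congr rfl fun a _ => ?_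
    have h3 : ∀ q : G ⧸ Γ, ((s a)⁻¹ • q = x) ↔ q = (s a * x : G) := fun q => inv_smul_eq_iff
    simp [T, Pi.single_apply, h3, mul_sub, Finset.sum_sub_distrib]
  have h4 : ∑ a, z (a, (s a * x : G)) = -∑ a, z (a, x) := by
    rw [← Equiv.sum_comp r fun a => z (a, x), ← Finset.sum_neg_distrib]
    refine Finset.sum_congr rfl fun a _ => ?_
    rw [hzv, hzv, hr, inv_inv, inv_mul_cancel_left]
    ring
  rw [h2, Finset.sum_sub_distrib, h4] at h1
  rw [← Finset.sum_congr rfl fun a _ => hzv a x]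
  linarith

theorem t2_coc [Fintype (G ⧸ Γ)] {u : G → ℝ} (hu : ∀ x (γ : Γ), u (x * γ) = u x + f γ) :
    IsCoc fun g : G => (WithLp.toLp 2 fun q : G ⧸ Γ => u (g⁻¹ * q.out) - u q.out :
      EuclideanSpace ℝ (G ⧸ Γ)) := by
  refine ⟨by ext q; simp, fun g h => ?_⟩
  rw [EuclideanSpace.norm_eq, EuclideanSpace.norm_eq, ← Equiv.sum_comp (MulAction.toPerm g)]
  refine congrArg _ (Finset.sum_congr rfl fun q _ => ?_)
  have e : (((g • q).out : G) : G ⧸ Γ) = (g * q.out : G) := by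
    rw [QuotientGroup.out_eq']
    exact (MulAction.Quotient.mk_smul_out Γ g q).symm
  have h1 := t2_inv hu g⁻¹ h⁻¹ e
  rw [inv_mul_cancel_left] at h1
  simp only [PiLp.sub_apply, MulAction.toPerm_apply, sub_sub_sub_cancel_right, h1, mul_inv_rev,
    inv_inv, mul_assoc]
  rw [norm_sub_rev]

end

theorem noHom {ι : Type} [DecidableEq ι] [Fintype ι] (h : 303 ≤ Fintype.card ι)
    (Γ : Subgroup (AutF ι)) [Γ.FiniteIndex] : NoHom Γ := by
  intro f hf
  have := Fintype.ofFinite (AutF ι ⧸ Γ)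
  let r : TI ι → TI ι := fun a => (a.1, a.2.1, a.2.2.1, !a.2.2.2)
  have hr : ∀ a ∈ gens (Finset.univ : Finset ι), r a ∈ gens (Finset.univ : Finset ι) :=
    fun a ha => mem_gens.2 ⟨Finset.mem_univ _, Finset.mem_univ _, (mem_gens.1 ha).2.2⟩
  obtain ⟨u, hu, h0⟩ := t2_harm hf (fun a : gens (Finset.univ : Finset ι) => tvi a.1)
    (Function.Involutive.toPerm (fun a => ⟨r a.1, hr _ a.2⟩) fun a => Subtype.ext (by simp [r]))
    fun a => (tv_inv _ _ _ _).symm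
  have h1 := Tn Finset.univ h _ (t2_coc hu)
  have h2 : ∑ a ∈ gens (Finset.univ : Finset ι), (WithLp.toLp 2 fun q : AutF ι ⧸ Γ =>
      u ((tvi a)⁻¹ * q.out) - u q.out : EuclideanSpace ℝ (AutF ι ⧸ Γ)) = 0 := by
    ext q
    rw [← Finset.sum_coe_sort, WithLp.ofLp_sum, Finset.sum_apply]
    exact h0 q.out
  have hn : (303 : ℝ) ≤ (Finset.univ : Finset ι).card := by exact_mod_cast h
  rw [h2, norm_zero, zero_pow two_ne_zero] at h1
  have h3 := (Finset.sum_eq_zero_iff_of_nonneg fun _ _ => sq_nonneg _).1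
    (le_antisymm (nonpos_of_mul_nonpos_right h1 (by linarith))
      (Finset.sum_nonneg fun _ _ => sq_nonneg _))
  have h4 : ∀ φ ∈ SH (Finset.univ : Finset ι), ∀ x, u (φ⁻¹ * x) = u x := by
    intro φ hφ
    induction hφ using Subgroup.closure_induction with
    | mem φ hφ =>
      obtain ⟨a, ha, rfl⟩ := hφ
      intro x
      have h5 : u ((tvi a)⁻¹ * (x : AutF ι ⧸ Γ).out) - u (x : AutF ι ⧸ Γ).out = 0 :=
        congrArg (fun w => w.ofLp (x : AutF ι ⧸ Γ))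
          (norm_eq_zero.1 (pow_eq_zero_iff two_ne_zero |>.1 (h3 a ha)))
      have h6 := t2_inv hu (tvi a)⁻¹ 1 (Quotient.out_eq (x : AutF ι ⧸ Γ))
      rw [one_mul, one_mul, h5] at h6
      linarith
    | one => intro x; rw [inv_one, one_mul]
    | mul φ ψ _ _ h1 h2 => intro x; rw [mul_inv_rev, mul_assoc, h2, h1]
    | inv φ _ h1 => intro x; rw [← h1, inv_inv, inv_mul_cancel_left]
  have h5 : ∀ γ : Γ, (γ : AutF ι) ∈ SH (Finset.univ : Finset ι) → f γ = 0 := fun γ hγ => by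
    have h6 := h4 _ hγ (1 * γ)
    rw [hu, one_mul, inv_mul_cancel] at h6
    linarith
  intro γ
  obtain ⟨t⟩ : Nonempty ι := Fintype.card_pos_iff.1 (by omega)
  rcases mem_SH_or (Finset.mem_univ t) (φ := γ) (by rw [H_univ]; trivial) with h6 | h6
  · exact h5 γ h6
  · have h7 := mul_mem h6 (inv_conj_SH t h6)
    have e : (γ : AutF ι) * inv t * (inv t * (γ * inv t) * inv t) = (γ * γ : Γ) := by
      simp only [mul_assoc, inv_mul_inv, mul_one, Subgroup.coe_mul]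
      rw [← mul_assoc (inv t), inv_mul_inv, one_mul]
    have h8 := h5 _ (e ▸ h7)
    rw [hf] at h8
    linarith

end Pool.Agent.P.MP_2d26dd_al
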