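import Pool.Agent.P.MP_2d26dd_al.L3
import Pool.Agent.P.MP_2d26dd_al.L5
import Pool.Agent.P.MP_2d26dd_al.T2

/-! Two complementary blocks are not both full. -/

namespace Pool.Agent.P.MP_2d26dd_al

variable {ι : Type} [DecidableEq ι] [Fintype ι] {Γ : Subgroup (AutF ι)} [Γ.Normal]
  [Γ.FiniteIndex] {N : ℕ} (ρ : Γ →* GL (Fin N) ℤ)

section Aux

open FreeGroup

omit [Fintype ι] in
theorem l6_srep_mul (t : ι) (d : Bool) (w w' : FreeGroup ι) :
    srep t d w * srep t d w' = srep t d (if d then w * w' else w' * w) := by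
  cases d <;> simp [srep, rep_mul]

omit [Fintype ι] in
theorem l6_srep_one (t : ι) (d : Bool) : srep t d 1 = 1 := by
  cases d <;> simp [srep, rep_one]

omit [Fintype ι] in
theorem l6_srep_inv (t : ι) (d : Bool) (w : FreeGroup ι) : (srep t d w)⁻¹ = srep t d w⁻¹ := by
  cases d <;> simp [srep, rep_inv]

omit [Fintype ι] in
theorem l6_srep_ne {t i : ι} (h : i ≠ t) (d : Bool) (w : FreeGroup ι) :
    srep t d w (of i) = of i := by
  cases d <;> simp [srep, rep_ne h]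

omit [Fintype ι] in
theorem l6_srep_conj {B : Finset ι} {t : ι} (ht : t ∉ B) (d : Bool) {w : FreeGroup ι}
    (hw : w ∈ sub B) {φ : AutF ι} (hφ : φ ∈ H B) :
    φ * srep t d w * φ⁻¹ = srep t d (φ w) := by
  rw [mul_inv_eq_iff_eq_mul]
  refine autF_ext fun i => ?_
  simp only [MulAut.mul_apply]
  by_cases h : i = t
  · subst h
    have k1 := kill_of_mem ht hw
    have k2 := kill_of_mem ht (H_map hφ hw)
    have k3 := H_fix hφ ht
    cases d <;> simp [srep, rep_self, k1, k2, k3]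
  · rw [l6_srep_ne h]
    by_cases hi : i ∈ B
    · exact (fix_of_mem_sub (fun j hj => l6_srep_ne (fun e : j = t => ht (e ▸ hj)) d _)
        (H_map hφ (of_mem_sub hi))).symm
    · rw [H_fix hφ hi, l6_srep_ne h]

omit [DecidableEq ι] [Fintype ι] [Γ.Normal] [Γ.FiniteIndex] in
theorem l6_mem_blockIm {x : AutF ι} {B : Finset ι} {a : GL (Fin N) ℤ} :
    a ∈ blockIm ρ x B ↔ ∃ φ ∈ H B, ∃ hγ : x * φ * x⁻¹ ∈ Γ, ρ ⟨x * φ * x⁻¹, hγ⟩ = a := by
  constructor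
  · rintro ⟨γ, hγ, rfl⟩
    obtain ⟨φ, hφ, e⟩ := Subgroup.mem_subgroupOf.1 hγ
    have e' : x * φ * x⁻¹ = (γ : AutF ι) := e
    exact ⟨φ, hφ, e' ▸ γ.2, congrArg ρ (Subtype.ext e')⟩
  · rintro ⟨φ, hφ, hγ, rfl⟩
    exact ⟨⟨_, hγ⟩, Subgroup.mem_subgroupOf.2 ⟨φ, hφ, rfl⟩, rfl⟩

omit [DecidableEq ι] [Fintype ι] [Γ.Normal] [Γ.FiniteIndex] in
theorem l6_blockIm_le (x : AutF ι) (B : Finset ι) : blockIm ρ x B ≤ ρ.range := by
  intro a ha
  obtain ⟨φ, _, hγ, rfl⟩ := (l6_mem_blockIm ρ).1 ha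
  exact ⟨_, rfl⟩

theorem l6_env_mono {L L' : Subgroup (GL (Fin N) ℤ)} (h : L ≤ L') : env L ≤ env L' :=
  Submodule.span_mono (Set.image_mono h)

theorem l6_mem_env {L : Subgroup (GL (Fin N) ℤ)} {a : GL (Fin N) ℤ} (h : a ∈ L) :
    toQ a ∈ env L := Submodule.subset_span ⟨a, h, rfl⟩

omit [DecidableEq ι] [Fintype ι] [Γ.Normal] [Γ.FiniteIndex] in
theorem l6_blockIm_comm {x g : AutF ι} {B : Finset ι} (h : ∀ φ ∈ H B, Commute g φ) :
    blockIm ρ x B ≤ blockIm ρ (x * g) B := by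
  intro a ha
  obtain ⟨φ, hφ, hγ, rfl⟩ := (l6_mem_blockIm ρ).1 ha
  have e : x * g * φ * (x * g)⁻¹ = x * φ * x⁻¹ := by
    rw [mul_assoc x g φ, (h φ hφ).eq]; group
  exact (l6_mem_blockIm ρ).2 ⟨φ, hφ, e ▸ hγ, congrArg ρ (Subtype.ext e)⟩

/-- The images of the one-sided multiplications of a letter outside the block. -/
def l6U (x : AutF ι) (B : Finset ι) (t : ι) (d : Bool) : Subgroup (GL (Fin N) ℤ) where
  carrier := {a | ∃ w ∈ sub B, ∃ hγ : x * srep t d w * x⁻¹ ∈ Γ, ρ ⟨_, hγ⟩ = a}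
  one_mem' := by
    have e : x * srep t d 1 * x⁻¹ = 1 := by rw [l6_srep_one]; group
    exact ⟨1, (sub B).one_mem, e ▸ Γ.one_mem, by
      rw [← ρ.map_one]; exact congrArg ρ (Subtype.ext e)⟩
  mul_mem' := by
    rintro _ _ ⟨w, hw, hγ, rfl⟩ ⟨w', hw', hγ', rfl⟩
    have e : x * srep t d (if d then w * w' else w' * w) * x⁻¹ =
        (x * srep t d w * x⁻¹) * (x * srep t d w' * x⁻¹) := by
      rw [← l6_srep_mul]; group
    refine ⟨if d then w * w' else w' * w, ?_, e ▸ Γ.mul_mem hγ hγ', ?_⟩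
    · cases d
      · exact (sub B).mul_mem hw' hw
      · exact (sub B).mul_mem hw hw'
    · rw [← ρ.map_mul]; exact congrArg ρ (Subtype.ext e)
  inv_mem' := by
    rintro _ ⟨w, hw, hγ, rfl⟩
    have e : x * srep t d w⁻¹ * x⁻¹ = (x * srep t d w * x⁻¹)⁻¹ := by
      rw [← l6_srep_inv]; group
    refine ⟨w⁻¹, (sub B).inv_mem hw, e ▸ Γ.inv_mem hγ, ?_⟩
    rw [← ρ.map_inv]; exact congrArg ρ (Subtype.ext e)

theorem l6U_rad (h3 : ∀ γ, Lev3 (ρ γ)) {B : Finset ι} (hB : B.card + 3 ≤ Fintype.card ι)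
    {x : AutF ι} {t : ι} (ht : t ∉ B) (d : Bool)
    (hx : env ρ.range ≤ env (blockIm ρ x B) ⊔ rad (env ρ.range))
    {u : GL (Fin N) ℤ} (hu : u ∈ l6U ρ x B t d) : toQ u - 1 ∈ rad (env ρ.range) := by
  have hU : ∀ v ∈ l6U ρ x B t d, Unip v := by
    rintro _ ⟨w, hw, hγ, rfl⟩
    exact srep_unip ρ h3 hB ht d hw x hγ
  have hmem : toQ u - 1 ∈ env ρ.range := by
    obtain ⟨w, _, hγ, rfl⟩ := hu
    refine (env ρ.range).sub_mem (l6_mem_env ⟨_, rfl⟩) ?_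
    rw [← toQ_one]
    exact l6_mem_env ρ.range.one_mem
  refine ⟨hmem, fun b hb => ?_⟩
  obtain ⟨b1, hb1, r, hr, rfl⟩ := Submodule.mem_sup.1 (hx hb)
  have h1 : Matrix.trace ((toQ u - 1) * b1) = 0 := by
    refine Submodule.span_induction (p := fun b _ => Matrix.trace ((toQ u - 1) * b) = 0)
      ?_ ?_ ?_ ?_ hb1
    · rintro _ ⟨a, ha, rfl⟩
      refine trace_unip _ hU ?_ hu
      obtain ⟨φ, hφ, hγ, rfl⟩ := (l6_mem_blockIm ρ).1 ha
      rintro _ ⟨w, hw, hγ', rfl⟩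
      have e : x * srep t d (φ w) * x⁻¹ =
          (x * φ * x⁻¹) * (x * srep t d w * x⁻¹) * (x * φ * x⁻¹)⁻¹ := by
        rw [← l6_srep_conj ht d hw hφ]; group
      refine ⟨φ w, H_map hφ hw, e ▸ Γ.mul_mem (Γ.mul_mem hγ hγ') (Γ.inv_mem hγ), ?_⟩
      rw [← ρ.map_inv, ← ρ.map_mul, ← ρ.map_mul]
      exact congrArg ρ (Subtype.ext e)
    · simp
    · intro a b _ _ ha hb
      rw [mul_add, Matrix.trace_add, ha, hb, add_zero]
    · intro c a _ ha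
      rw [mul_smul_comm, Matrix.trace_smul, ha, smul_zero]
  rw [mul_add, Matrix.trace_add, h1, zero_add, Matrix.trace_mul_comm]
  exact hr.2 _ hmem

theorem l6_step (h3 : ∀ γ, Lev3 (ρ γ)) {B : Finset ι} (hB : B.card + 3 ≤ Fintype.card ι)
    {x : AutF ι} {t : ι} (ht : t ∉ B) (d : Bool) {w : FreeGroup ι} (hw : w ∈ sub B)
    (hx : env ρ.range ≤ env (blockIm ρ x B) ⊔ rad (env ρ.range)) :
    env ρ.range ≤ env (blockIm ρ (x * srep t d w) B) ⊔ rad (env ρ.range) := by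
  refine hx.trans (sup_le ?_ le_sup_right)
  refine Submodule.span_le.2 ?_
  rintro _ ⟨a, ha, rfl⟩
  obtain ⟨φ, hφ, hγ, rfl⟩ := (l6_mem_blockIm ρ).1 ha
  have hn : Γ.Normal := inferInstance
  have e1 : x * srep t d w * φ * (x * srep t d w)⁻¹ =
      (x * srep t d w * x⁻¹) * (x * φ * x⁻¹) * (x * srep t d w * x⁻¹)⁻¹ := by group
  have m1 : x * srep t d w * φ * (x * srep t d w)⁻¹ ∈ Γ := by
    rw [e1]; exact hn.conj_mem _ hγ _
  have hφ' : φ⁻¹ ∈ H B := (H B).inv_mem hφ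
  obtain ⟨w', hw', e2⟩ : ∃ w' ∈ sub B, srep t d w' = φ⁻¹ * srep t d w * φ * (srep t d w)⁻¹ := by
    refine ⟨if d then φ⁻¹ w * w⁻¹ else w⁻¹ * φ⁻¹ w, ?_, ?_⟩
    · cases d
      · exact (sub B).mul_mem ((sub B).inv_mem hw) (H_map hφ' hw)
      · exact (sub B).mul_mem (H_map hφ' hw) ((sub B).inv_mem hw)
    · rw [← l6_srep_mul, ← l6_srep_inv, ← l6_srep_conj ht d hw hφ', inv_inv]
  have e3 : x * srep t d w' * x⁻¹ =
      (x * φ * x⁻¹)⁻¹ * (x * srep t d w * φ * (x * srep t d w)⁻¹) := by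
    rw [e2]; group
  have m2 : x * srep t d w' * x⁻¹ ∈ Γ := by
    rw [e3]; exact Γ.mul_mem (Γ.inv_mem hγ) m1
  have hu : toQ (ρ ⟨_, m2⟩) - 1 ∈ rad (env ρ.range) :=
    l6U_rad ρ h3 hB ht d hx ⟨w', hw', m2, rfl⟩
  have e4 : ρ ⟨_, m1⟩ = ρ ⟨_, hγ⟩ * ρ ⟨_, m2⟩ := by
    rw [← ρ.map_mul]
    refine congrArg ρ (Subtype.ext ?_)
    show _ = (x * φ * x⁻¹) * (x * srep t d w' * x⁻¹)
    rw [e3]; group
  have e5 : toQ (ρ ⟨_, hγ⟩) =
      toQ (ρ ⟨_, m1⟩) - toQ (ρ ⟨_, hγ⟩) * (toQ (ρ ⟨_, m2⟩) - 1) := by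
    rw [e4, toQ_mul, mul_sub, mul_one, sub_sub_cancel]
  show toQ (ρ ⟨_, hγ⟩) ∈ env (blockIm ρ (x * srep t d w) B) ⊔ rad (env ρ.range)
  rw [e5]
  refine Submodule.sub_mem _ (Submodule.mem_sup_left (l6_mem_env ?_))
    (Submodule.mem_sup_right (rad_mul hu (l6_mem_env ⟨_, rfl⟩)).2)
  exact (l6_mem_blockIm ρ).2 ⟨φ, hφ, m1, rfl⟩

omit [Fintype ι] in
theorem l6_gen {B : Finset ι} {g : AutF ι} (hg : g ∈ relGens B) :
    (∀ φ ∈ H B, Commute g φ) ∨ ∃ t, t ∉ B ∧ ∃ d, ∃ w ∈ sub B, g = srep t d w := by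
  rcases hg with (⟨t, e, d, s, ht, _, rfl⟩ | ⟨t, ht, rfl⟩) | ⟨t, t', ht, ht', rfl⟩
  · by_cases he : e ∈ B
    · exact Or.inr ⟨t, ht, d, lt e s, lt_mem_sub he s, rfl⟩
    · exact Or.inl fun φ hφ => H_commute (X := {t, e}) (by simp [ht, he])
        (tv_mem_H (by simp) (by simp) d s) hφ
  · exact Or.inl fun φ hφ => H_commute (X := {t}) (by simp [ht]) (inv_mem_H (by simp)) hφ
  · exact Or.inl fun φ hφ => H_commute (X := {t, t'}) (by simp [ht, ht'])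
      (swap_mem_H (by simp) (by simp)) hφ

end Aux

theorem full_move (h3 : ∀ γ, Lev3 (ρ γ)) {B : Finset ι} (hB : B.card + 3 ≤ Fintype.card ι)
    {x g : AutF ι} (hg : ∀ b ∈ B, g (FreeGroup.of b) = FreeGroup.of b)
    (hx : env ρ.range ≤ env (blockIm ρ x B) ⊔ rad (env ρ.range)) :
    env ρ.range ≤ env (blockIm ρ (x * g) B) ⊔ rad (env ρ.range) := by
  have key : ∀ g : AutF ι,
      ((∀ φ ∈ H B, Commute g φ) ∨ ∃ t, t ∉ B ∧ ∃ d, ∃ w ∈ sub B, g = srep t d w) →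
      ∀ x : AutF ι, env ρ.range ≤ env (blockIm ρ x B) ⊔ rad (env ρ.range) →
        env ρ.range ≤ env (blockIm ρ (x * g) B) ⊔ rad (env ρ.range) := by
    rintro g (h | ⟨t, ht, d, w, hw, rfl⟩) x hx
    · exact hx.trans (sup_le_sup_right (l6_env_mono (l6_blockIm_comm ρ h)) _)
    · exact l6_step ρ h3 hB ht d hw hx
  have main : ∀ g ∈ Subgroup.closure (relGens B),
      ∀ x : AutF ι, env ρ.range ≤ env (blockIm ρ x B) ⊔ rad (env ρ.range) →
        env ρ.range ≤ env (blockIm ρ (x * g) B) ⊔ rad (env ρ.range) := by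
    intro g hg
    induction hg using Subgroup.closure_induction'' with
    | mem g hg => exact key g (l6_gen hg)
    | inv_mem g hg =>
      refine key g⁻¹ ?_
      rcases l6_gen hg with h | ⟨t, ht, d, w, hw, rfl⟩
      · exact Or.inl fun φ hφ => (h φ hφ).inv_left
      · exact Or.inr ⟨t, ht, d, w⁻¹, (sub B).inv_mem hw, l6_srep_inv t d w⟩
    | one => intro x hx; rwa [mul_one]
    | mul g g' _ _ ih ih' => intro x hx; rw [← mul_assoc]; exact ih' _ (ih x hx)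
  exact main g (nielsen_rel B g hg) x hx

omit [Γ.Normal] [Γ.FiniteIndex] in
theorem disj_normal_form {B : Finset ι} {x x' : AutF ι} (h : Disj B x x') :
    ∃ g g' : AutF ι, (∀ b ∈ B, g (FreeGroup.of b) = FreeGroup.of b) ∧
      (∀ b ∈ B, g' (FreeGroup.of b) = FreeGroup.of b) ∧
      ∀ φ ∈ H B, ∀ ψ ∈ H B,
        Commute (x * g * φ * (x * g)⁻¹) (x' * g' * ψ * (x' * g')⁻¹) := by
  obtain ⟨z, π, π', h1, h2, h3, h4, h5⟩ := h
  have ext : ∀ π : ι → ι, Set.InjOn π B → ∃ σ : Equiv.Perm ι, ∀ e ∈ B, σ e = π e := by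
    intro π hπ
    obtain ⟨σ, hσ⟩ := Equiv.Perm.exists_extending_pair (f := fun e : B => (e : ι))
      (g := fun e : B => π e) Subtype.val_injective
      (fun a b hab => Subtype.ext (hπ a.2 b.2 hab))
    exact ⟨σ, fun e he => hσ ⟨e, he⟩⟩
  obtain ⟨σ, hσ⟩ := ext π h1
  obtain ⟨σ', hσ'⟩ := ext π' h2
  refine ⟨x⁻¹ * z * perm σ, x'⁻¹ * z * perm σ', fun b hb => ?_, fun b hb => ?_, ?_⟩
  · simp [perm_of, hσ b hb, h4 b hb]
  · simp [perm_of, hσ' b hb, h5 b hb]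
  · intro φ hφ ψ hψ
    have hd : Disjoint (B.image σ) (B.image σ') := by
      rw [Finset.disjoint_left]
      intro i hi hi'
      obtain ⟨e, he, rfl⟩ := Finset.mem_image.1 hi
      obtain ⟨e', he', h⟩ := Finset.mem_image.1 hi'
      exact h3 e he e' he' (by rw [← hσ e he, ← hσ' e' he', h])
    have hc := H_commute hd (perm_conj_H σ hφ) (perm_conj_H σ' hψ)
    have e1 : x * (x⁻¹ * z * perm σ) * φ * (x * (x⁻¹ * z * perm σ))⁻¹ =
        z * (perm σ * φ * (perm σ)⁻¹) * z⁻¹ := by group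
    have e2 : x' * (x'⁻¹ * z * perm σ') * ψ * (x' * (x'⁻¹ * z * perm σ'))⁻¹ =
        z * (perm σ' * ψ * (perm σ')⁻¹) * z⁻¹ := by group
    rw [e1, e2]
    exact hc.map (MulAut.conj z)

theorem not_both_full (hι : 303 ≤ Fintype.card ι) (h3 : ∀ γ, Lev3 (ρ γ)) {B : Finset ι}
    (hB : B.card + 3 ≤ Fintype.card ι) {x x' : AutF ι} (h : Disj B x x')
    (hx : del ρ.range ≤ del (blockIm ρ x B)) (hx' : del ρ.range ≤ del (blockIm ρ x' B))
    (γ : Γ) : ρ γ = 1 := by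
  obtain ⟨g, g', hg, hg', hc⟩ := disj_normal_form h
  have f1 := full_move ρ h3 hB hg (full_of_del (l6_blockIm_le ρ x B) hx)
  have f2 := full_move ρ h3 hB hg' (full_of_del (l6_blockIm_le ρ x' B) hx')
  have comm : ∀ a ∈ env (blockIm ρ (x * g) B), ∀ b ∈ env (blockIm ρ (x' * g') B),
      a * b = b * a := by
    intro a ha b hb
    refine Submodule.span_induction (p := fun a _ => a * b = b * a) ?_ ?_ ?_ ?_ ha
    · rintro _ ⟨u, hu, rfl⟩
      refine Submodule.span_induction (p := fun b _ => toQ u * b = b * toQ u) ?_ ?_ ?_ ?_ hb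
      · rintro _ ⟨v, hv, rfl⟩
        obtain ⟨φ, hφ, hγ, rfl⟩ := (l6_mem_blockIm ρ).1 hu
        obtain ⟨ψ, hψ, hγ', rfl⟩ := (l6_mem_blockIm ρ).1 hv
        rw [← toQ_mul, ← toQ_mul, ← ρ.map_mul, ← ρ.map_mul]
        exact congrArg (fun δ => toQ (ρ δ)) (Subtype.ext (hc φ hφ ψ hψ).eq)
      · simp
      · intro a b _ _ ha hb
        rw [mul_add, add_mul, ha, hb]
      · intro c a _ ha
        rw [mul_smul_comm, smul_mul_assoc, ha]
    · simp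
    · intro a a' _ _ ha ha'
      rw [mul_add, add_mul, ha, ha']
    · intro c a _ ha
      rw [mul_smul_comm, smul_mul_assoc, ha]
  refine trivial_of_comm (noHom hι Γ) ρ h3 (fun δ δ' => ?_) γ
  have m1 : toQ (ρ δ) ∈ env ρ.range := l6_mem_env ⟨_, rfl⟩
  have m2 : toQ (ρ δ') ∈ env ρ.range := l6_mem_env ⟨_, rfl⟩
  obtain ⟨a, ha, r, hr, e1⟩ := Submodule.mem_sup.1 (f1 m1)
  obtain ⟨b, hb, r', hr', e2⟩ := Submodule.mem_sup.1 (f2 m2)
  have ha' : a ∈ env ρ.range := l6_env_mono (l6_blockIm_le ρ _ B) ha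
  have e3 : toQ (ρ δ) * toQ (ρ δ') - toQ (ρ δ') * toQ (ρ δ) =
      (a * r' - r' * a) + (r * toQ (ρ δ') - toQ (ρ δ') * r) := by
    rw [← e1, ← e2]
    have := comm a ha b hb
    simp only [mul_add, add_mul, this]
    abel
  rw [e3]
  exact Submodule.add_mem _
    (Submodule.sub_mem _ (rad_mul hr' ha').2 (rad_mul hr' ha').1)
    (Submodule.sub_mem _ (rad_mul hr m2).1 (rad_mul hr m2).2)

end Pool.Agent.P.MP_2d26dd_al
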