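import Pool.Agent.P.MP_2d26dd_al.C4

/-! A move between far letters as a path of block moves. -/

namespace Pool.Agent.P.MP_2d26dd_al

variable {n r : ℕ} {Γ : Subgroup (AutF (Fin n))} [Γ.Normal] [Γ.FiniteIndex]
  {X : Type} [MetricSpace X] (act : Γ →* (X ≃ᵢ X))

theorem far_step {F : AutF (Fin n) → X} (hF : Equi act F) {W : Finset (Fin n)}
    {h : AutF (Fin n)} {e₀ : ℝ} (he : disp Γ (fun x => Null act x W) F h ≤ e₀)
    {A : AutF (Fin n) → Prop} (g : AutF (Fin n)) (hA : ∀ x, A x → Null act (x * g) W) :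
    dd Γ A (fun x => F (x * g)) (fun x => F (x * g * h)) ≤ e₀ := by
  refine le_trans ?_ he
  have h1 := sumQ_shift (Γ := Γ) (linv_null act W) (linv_dist hF (hF.shift h)) g
  unfold disp dd
  rw [← h1]
  exact sumQ_mono hA fun x => sq_nonneg _

omit [Γ.Normal] [Γ.FiniteIndex] in
theorem far_null (hr : 0 < r) {d j : ℕ} {y : AutF (Fin n)} {e : Fin n} {σ : Equiv.Perm (Fin n)}
    (hσ : ∀ k, σ k = e ∨ σ k = k ∨ (k : ℕ) + 1 = σ k ∨ (σ k : ℕ) + 1 = k)
    (hy : Null act y (insert e (Win n r j (d + 1)))) :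
    Null act (y * perm σ) (Win n r j d) := by
  refine null_perm σ (Null.mono ?_ hy)
  intro k hk
  obtain ⟨i, hi, rfl⟩ := Finset.mem_image.1 hk
  rcases hσ i with h | h | h
  · rw [h]; exact Finset.mem_insert_self _ _
  · rw [h]
    exact Finset.mem_insert_of_mem (win_subset (by omega) (by omega) hi)
  · exact Finset.mem_insert_of_mem (mem_win_succ hr h hi)

theorem far_perm (hr : 0 < r) (hn : 3 * r ≤ n) (d : ℕ) {F : AutF (Fin n) → X} (hF : Equi act F)
    {e₀ : ℝ} (he : ∀ j, j < n / r - 1 → ∀ h ∈ H (Win n r j 0),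
      disp Γ (fun x => Null act x (Win n r j d)) F h ≤ e₀)
    {D : AutF (Fin n) → Prop}
    (hD' : ∀ x, D x → ∀ j, j < n / r - 1 → ∀ e, Null act x (insert e (Win n r j (d + 1))))
    (e : Fin n) (l : ℕ) : ∀ q : Fin n, ((q : ℕ) + l = e ∨ (e : ℕ) + l = q) →
      ∃ σ : Equiv.Perm (Fin n), σ q = e ∧
        (∀ k : Fin n, ((k : ℕ) < q ∧ (k : ℕ) < e) ∨ ((q : ℕ) < k ∧ (e : ℕ) < k) → σ k = k) ∧
        (∀ k, σ k = e ∨ σ k = k ∨ (k : ℕ) + 1 = σ k ∨ (σ k : ℕ) + 1 = k) ∧
        ∀ (g : AutF (Fin n)) (A : AutF (Fin n) → Prop), (∀ x, A x → D (x * g)) →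
          Real.sqrt (dd Γ A (fun x => F (x * g)) fun x => F (x * g * perm σ)) ≤
            l * Real.sqrt e₀ := by
  induction l with
  | zero =>
    intro q hq
    refine ⟨1, Fin.ext (by simp; omega), fun _ _ => rfl, fun _ => Or.inr (Or.inl rfl), ?_⟩
    intro g A _
    have : dd Γ A (fun x => F (x * g)) (fun x => F (x * g * perm 1)) = 0 := by
      unfold dd sumQ
      simp [perm_one]
    rw [this]
    simp
  | succ l ih =>
    intro q hq
    have hex : ∃ q' : Fin n, ((q' : ℕ) + l = e ∧ (q : ℕ) + 1 = q') ∨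
        ((e : ℕ) + l = q' ∧ (q' : ℕ) + 1 = q) := by
      rcases hq with hq | hq
      · exact ⟨⟨q + 1, by have := e.2; omega⟩, Or.inl ⟨by simp; omega, rfl⟩⟩
      · exact ⟨⟨q - 1, by have := q.2; omega⟩, Or.inr ⟨by simp; omega, by simp; omega⟩⟩
    obtain ⟨q', hq'⟩ := hex
    obtain ⟨σ, h1, h2, h3, h4⟩ := ih q' (by omega)
    have hσq : σ q = q := h2 q (by omega)
    have hwin : ∃ j, j < n / r - 1 ∧ q ∈ Win n r j 0 ∧ q' ∈ Win n r j 0 := by
      rcases hq' with hq' | hq'
      · exact adjacent_mem_win hr hn hq'.2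
      · obtain ⟨j, a1, a2, a3⟩ := adjacent_mem_win hr hn hq'.2
        exact ⟨j, a1, a3, a2⟩
    obtain ⟨j, hj, hjq, hjq'⟩ := hwin
    refine ⟨σ * Equiv.swap q q', by simp [h1], ?_, ?_, ?_⟩
    · intro k hk
      have a1 : k ≠ q := fun h => by subst h; omega
      have a2 : k ≠ q' := fun h => by subst h; omega
      rw [Equiv.Perm.mul_apply, Equiv.swap_apply_of_ne_of_ne a1 a2]
      exact h2 k (by omega)
    · intro k
      by_cases a1 : k = q
      · subst a1; left; simp [h1]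
      by_cases a2 : k = q'
      · subst a2
        rw [Equiv.Perm.mul_apply, Equiv.swap_apply_right, hσq]
        right; right; omega
      · rw [Equiv.Perm.mul_apply, Equiv.swap_apply_of_ne_of_ne a1 a2]
        exact h3 k
    · intro g A hA
      have t := dd_triangle (Γ := Γ) A (fun x => F (x * g)) (fun x => F (x * g * perm σ))
        (fun x => F (x * g * perm (σ * Equiv.swap q q')))
      have s := far_step act hF (he j hj _ (swap_mem_H hjq hjq')) (A := A) (g * perm σ)
        (fun x hx => by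
          rw [← mul_assoc]
          exact far_null act hr h3 (hD' _ (hA x hx) j hj e))
      have s' := Real.sqrt_le_sqrt s
      simp only [← mul_assoc] at s'
      simp only [perm_mul, ← mul_assoc] at t ⊢
      have := h4 g A hA
      push_cast
      linarith

theorem far_move (hr : 0 < r) (hn : 3 * r ≤ n) (d : ℕ) {F : AutF (Fin n) → X} (hF : Equi act F)
    {e₀ : ℝ} (he : ∀ j, j < n / r - 1 → ∀ h ∈ H (Win n r j 0),
      disp Γ (fun x => Null act x (Win n r j d)) F h ≤ e₀)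
    {D : AutF (Fin n) → Prop} (hD : LInv Γ D)
    (hD' : ∀ x, D x → ∀ j, j < n / r - 1 → ∀ e, Null act x (insert e (Win n r j (d + 1))))
    (μ : Mv (Fin n)) :
    disp Γ (fun x => D x ∧ D (x * mv μ)) F (mv μ) ≤ (2 * n + 1) ^ 2 * e₀ := by
  have h3 : 3 ≤ n / r := (Nat.le_div_iff_mul_le hr).2 hn
  have he0 : 0 ≤ e₀ := le_trans (dd_nonneg _ _ _) (he 0 (by omega) 1 (H _).one_mem)
  have hn0 : (0 : ℝ) ≤ n := Nat.cast_nonneg n
  have near : ∀ j, j < n / r - 1 → mv μ ∈ H (Win n r j 0) →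
      disp Γ (fun x => D x ∧ D (x * mv μ)) F (mv μ) ≤ (2 * n + 1) ^ 2 * e₀ := by
    intro j hj hm
    have hn' : 0 < n := by omega
    have s := far_step act hF (he j hj _ hm) (A := fun x => D x ∧ D (x * mv μ)) 1
      (fun x hx => by
        rw [mul_one]
        exact Null.mono (fun k hk => Finset.mem_insert_of_mem
          (win_subset (by omega) (by omega) hk)) (hD' x hx.1 j hj ⟨0, hn'⟩))
    simp only [mul_one] at s
    refine le_trans s ?_
    have : (1 : ℝ) ≤ (2 * n + 1) ^ 2 := by nlinarith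
    nlinarith
  rcases μ with ⟨a, e, b, s⟩ | t
  · by_cases hae : a = e
    · subst hae
      refine near 0 (by omega) ?_
      show tv a a b s ∈ _
      rw [tv_same]
      exact (H _).one_mem
    have hae' : (a : ℕ) ≠ e := fun h => hae (Fin.ext h)
    have hex : ∃ (p : Fin n) (l : ℕ), l ≤ n ∧ (((p : ℕ) + l = e ∧ (a : ℕ) + 1 = p) ∨
        ((e : ℕ) + l = p ∧ (p : ℕ) + 1 = a)) := by
      have := e.2
      have := a.2
      rcases lt_or_gt_of_ne hae' with h | h
      · exact ⟨⟨a + 1, by omega⟩, e - (a + 1), by omega, Or.inl ⟨by simp; omega, rfl⟩⟩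
      · exact ⟨⟨a - 1, by omega⟩, a - 1 - e, by omega, Or.inr ⟨by simp; omega, by simp; omega⟩⟩
    obtain ⟨p, l, hl, hp⟩ := hex
    obtain ⟨σ, h1, h2, h3', h4⟩ := far_perm act hr hn d hF he hD' e l p (by omega)
    have hσa : σ a = a := h2 a (by omega)
    have hwin : ∃ j, j < n / r - 1 ∧ a ∈ Win n r j 0 ∧ p ∈ Win n r j 0 := by
      rcases hp with hp | hp
      · exact adjacent_mem_win hr hn hp.2
      · obtain ⟨j, a1, a2, a3⟩ := adjacent_mem_win hr hn hp.2
        exact ⟨j, a1, a3, a2⟩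
    obtain ⟨j, hj, hja, hjp⟩ := hwin
    have hconj : tv a e b s * perm σ = perm σ * tv a p b s := by
      have := perm_conj_tv σ a p b s
      rw [hσa, h1] at this
      rw [← this, inv_mul_cancel_right]
    show dd Γ (fun x => D x ∧ D (x * tv a e b s)) F (fun x => F (x * tv a e b s)) ≤ _
    set A : AutF (Fin n) → Prop := fun x => D x ∧ D (x * tv a e b s) with hA
    have c1 := h4 1 A (fun x hx => by rw [mul_one]; exact hx.1)
    simp only [mul_one] at c1
    have c2 := Real.sqrt_le_sqrt (far_step act hF (he j hj _ (tv_mem_H hja hjp b s)) (A := A)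
      (perm σ) (fun x hx => far_null act hr h3' (hD' _ hx.1 j hj e)))
    have c3 := h4 (tv a e b s) A (fun x hx => hx.2)
    rw [dd_comm] at c3
    simp only [mul_assoc, hconj] at c2 c3
    have t1 := dd_triangle (Γ := Γ) A F (fun x => F (x * perm σ)) (fun x => F (x * tv a e b s))
    have t2 := dd_triangle (Γ := Γ) A (fun x => F (x * perm σ))
      (fun x => F (x * (perm σ * tv a p b s))) (fun x => F (x * tv a e b s))
    have hl' : (l : ℝ) ≤ n := by exact_mod_cast hl
    have hs := Real.sqrt_nonneg e₀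
    have key : Real.sqrt (dd Γ A F fun x => F (x * tv a e b s)) ≤ (2 * n + 1) * Real.sqrt e₀ := by
      nlinarith
    have := Real.sq_sqrt (dd_nonneg (Γ := Γ) A F fun x => F (x * tv a e b s))
    rw [← this, ← Real.sq_sqrt he0, ← mul_pow]
    exact pow_le_pow_left₀ (Real.sqrt_nonneg _) key 2
  · have hwin : ∃ j, j < n / r - 1 ∧ t ∈ Win n r j 0 := by
      have := t.2
      by_cases h : (t : ℕ) + 1 < n
      · obtain ⟨j, a1, a2, _⟩ := adjacent_mem_win hr hn (a := t) (b := ⟨t + 1, h⟩) rfl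
        exact ⟨j, a1, a2⟩
      · obtain ⟨j, a1, _, a3⟩ := adjacent_mem_win hr hn (a := ⟨t - 1, by omega⟩) (b := t)
          (by simp; omega)
        exact ⟨j, a1, a3⟩
    obtain ⟨j, hj, ht⟩ := hwin
    exact near j hj (inv_mem_H ht)

end Pool.Agent.P.MP_2d26dd_al
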