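import Pool.Agent.P.MP_2d26dd_al.X2h3

/-! Existence of the random paths. -/

namespace Pool.Agent.P.MP_2d26dd_al

open FreeGroup hiding map_mul map_one map_inv

section

variable {ι : Type} [DecidableEq ι] {m : ℕ} {pl : Fin 6 → Fin 8 → Fin m → ι}

variable (pl) in
open Classical in
/-- The order in which the letters change their pads. -/
noncomputable def rk (e : ι) : ℕ :=
  if InC pl 2 e then 1 else if InC pl 0 e then 2 else if InC pl 1 e then 3 else 0

omit [DecidableEq ι] in
theorem rk_of (hJ : JInj pl) {e : ι} : (InC pl 2 e → rk pl e = 1) ∧ (InC pl 0 e → rk pl e = 2) ∧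
    (InC pl 1 e → rk pl e = 3) ∧ (InC pl 3 e → rk pl e = 0) ∧
    (rk pl e = 1 → InC pl 2 e) ∧ (rk pl e = 2 → InC pl 0 e) ∧ rk pl e ≤ 3 := by
  have n : ∀ {c c' : Fin 6}, InC pl c e → c ≠ c' → ¬ InC pl c' e := fun h h' h2 => h' (h.eq hJ h2)
  refine ⟨fun h => by simp [rk, h], fun h => by simp [rk, h, n h (c' := 2) (by decide)],
    fun h => by simp [rk, h, n h (c' := 2) (by decide), n h (c' := 0) (by decide)],
    fun h => by simp [rk, n h (c' := 2) (by decide), n h (c' := 0) (by decide),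
      n h (c' := 1) (by decide)], ?_, ?_, ?_⟩ <;> unfold rk <;> split_ifs <;> simp_all

omit [DecidableEq ι] in
theorem exp_tails (hJ : JInj pl) {y : AutF ι} {a : ι} {ω : Bool → ι → Fin 8 → Fin m}
    (lo : ∀ e, rk pl e < rk pl a → e ≠ a ∧ y (of e) = mk (val pl true (ω true) e))
    (hi : ∀ e, rk pl a < rk pl e → e ≠ a ∧ y (of e) = mk (val pl false (ω false) e)) :
    Exp y a 1000 (mk (tl pl false (ω false) a)) ∧ Exp y a 1000 (mk (tl pl true (ω true) a)) := by
  obtain ⟨a2, a0, -, -, b2, b0, b3⟩ := rk_of hJ (e := a)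
  have r2 : ∀ e, InC pl (ca true) e → rk pl e = 1 := fun e => (rk_of hJ).1
  have r0 : ∀ e, InC pl (ca false) e → rk pl e = 2 := fun e => (rk_of hJ).2.1
  have r1 : ∀ e, InC pl (cb false) e → rk pl e = 3 := fun e => (rk_of hJ).2.2.1
  have r3 : ∀ e, InC pl (cb true) e → rk pl e = 0 := fun e => (rk_of hJ).2.2.2.1
  by_cases h : rk pl a ≤ 1
  · have hab : ∀ e, InC pl (ca false) e ∨ InC pl (cb false) e →
        e ≠ a ∧ y (of e) = mk (val pl false (ω false) e) := fun e he => hi e (by
      rcases he with he | he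
      · have := r0 e he; omega
      · have := r1 e he; omega)
    refine ⟨(exp_tl hJ hab a).mono (by norm_num), ?_⟩
    by_cases h2 : InC pl (ca true) a
    · exact (exp_tl_b hJ (fun e he => lo e (by have := r3 e he; have := r2 a h2; omega)) h2).mono
        (by norm_num)
    · rw [tl, if_neg h2]
      have h0 : rk pl a ≠ 1 := fun h3 => h2 (b2 h3)
      refine (exp_pw (K := 73) (fun z hz => ?_) _).mono (by norm_num)
      have := hi z (by have := r2 z hz; omega)
      exact exp_of hJ hab this.1 this.2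
  · have hab : ∀ e, InC pl (ca true) e ∨ InC pl (cb true) e →
        e ≠ a ∧ y (of e) = mk (val pl true (ω true) e) := fun e he => lo e (by
      rcases he with he | he
      · have := r2 e he; omega
      · have := r3 e he; omega)
    refine ⟨?_, (exp_tl hJ hab a).mono (by norm_num)⟩
    by_cases h2 : InC pl (ca false) a
    · exact (exp_tl_b hJ (fun e he => hi e (by have := r1 e he; have := r0 a h2; omega)) h2).mono
        (by norm_num)
    · rw [tl, if_neg h2]
      have h0 : rk pl a ≠ 2 := fun h3 => h2 (b0 h3)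
      refine (exp_pw (K := 73) (fun z hz => ?_) _).mono (by norm_num)
      have := lo z (by have := r0 z hz; omega)
      exact exp_of hJ hab this.1 this.2

theorem conn_B [Fintype ι] (hm : 0 < m) (hJ : JInj pl) (R : ℕ)
    (G : Bool → (ι → Fin 8 → Fin m) → AutF ι) (hG : ∀ κ ω e, G κ ω (of e) = mk (val pl κ ω e)) :
    Conn R (2 * R * (2 * R * (10 ^ 6 : ℕ) / m) ^ 8) (4033 * Fintype.card ι)
      (fun ω : Smp ι m => G false (par ω false)) fun ω => G true (par ω true) := by
  have key : ∀ S : Finset ι, (∀ e ∈ S, ∀ e', rk pl e' < rk pl e → e' ∈ S) →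
      ∃ y : (Bool → ι → Fin 8 → Fin m) → AutF ι,
        (∀ ω e, y ω (of e) = mk (val pl (decide (e ∈ S)) (ω (decide (e ∈ S))) e)) ∧
        Conn R (2 * R * (2 * R * (10 ^ 6 : ℕ) / m) ^ 8) (4033 * S.card)
          (fun ω : Smp ι m => G false (par ω false)) fun ω => y (par ω) := by
    intro S
    induction S using Finset.induction_on_max_value (rk pl) with
    | empty =>
      intro _
      refine ⟨fun ω => G false (ω false), fun ω e => by simp [hG], Conn.refl ?_⟩
      refine free_special hm hJ R (fun _ => false) (pl 4 0 ⟨0, hm⟩) (fun ω e _ => hG _ _ _)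
        (fun ω => hG _ _ _) (fun ω => (length_val _ _ _).trans (by norm_num)) (own_val hJ _ _)
        fun e he => ind_val he fun _ _ h => absurd (h.eq hJ ⟨_, _, rfl⟩) (by decide)
    | insert a S ha hmax ih =>
      intro hS
      have lo : ∀ e, rk pl e < rk pl a → e ≠ a ∧ e ∈ S := fun e he => by
        have h1 : e ≠ a := fun h => by rw [h] at he; omega
        exact ⟨h1, (Finset.mem_insert.1 (hS a (by simp) e he)).resolve_left h1⟩
      have hi : ∀ e, rk pl a < rk pl e → e ≠ a ∧ e ∉ S := fun e he =>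
        ⟨fun h => by rw [h] at he; omega, fun h => by have := hmax e h; omega⟩
      obtain ⟨y, hy, hC⟩ := ih fun e he e' h => (lo e' (h.trans_le (hmax e he))).2
      obtain ⟨y', h1, h2, h3⟩ := macro0 hm hJ R (fun e => decide (e ∈ S)) a y
        (fun ω => val pl false (ω false) a) (fun ω => val pl true (ω true) a)
        (fun ω e _ => hy ω e) (fun ω => by simpa [ha] using hy ω a)
        (fun e _ k1 k2 => by
          by_cases h : e ∈ S
          · simp only [h, decide_true] at k1 k2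
            have r1 := (rk_of hJ).1 k1
            have r2 := (rk_of hJ).2.2.2.1 k2
            exact (hi e (by omega)).2 h
          · simp only [h, decide_false] at k1 k2
            have r1 := (rk_of hJ).2.1 k1
            have r2 := (rk_of hJ).2.2.1 k2
            exact h (lo e (by omega)).2)
        (own_val hJ false a) (own_val hJ true a)
        (fun ω => (length_val _ _ _).trans (by norm_num))
        (fun ω => (length_val _ _ _).trans (by norm_num)) fun ω => by
          obtain ⟨k1, k2⟩ := exp_tails hJ (y := y ω) (a := a) (ω := ω)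
            (fun e he => ⟨(lo e he).1, by simpa [(lo e he).2] using hy ω e⟩)
            (fun e he => ⟨(hi e he).1, by simpa [(hi e he).2] using hy ω e⟩)
          refine ⟨1, _, Exp.one _, k1.inv.mul k2, ?_⟩
          rw [val, val, mk_cons_true, mk_cons_true]
          group
      refine ⟨y', fun ω e => ?_, ?_⟩
      · by_cases h : e = a
        · subst h; simpa using h2 ω
        · simpa [h] using h1 ω e h
      · rw [Finset.card_insert_of_notMem ha]
        exact (hC.trans h3).mono (by omega)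
  obtain ⟨y, hy, hC⟩ := key Finset.univ fun _ _ _ _ => Finset.mem_univ _
  have : ∀ ω, y ω = G true (ω true) := fun ω => autF_ext fun e => by simpa [hG] using hy ω e
  simpa only [this, Finset.card_univ] using hC

theorem conn_A [Fintype ι] (hm : 0 < m) (hJ : JInj pl) (R : ℕ)
    (G : Bool → (ι → Fin 8 → Fin m) → AutF ι) (hG : ∀ κ ω e, G κ ω (of e) = mk (val pl κ ω e))
    (μ : Mv ι) : ∃ κ, Conn R (2 * R * (2 * R * (10 ^ 6 : ℕ) / m) ^ 8) 4033
      (fun ω : Smp ι m => G κ (par ω κ)) fun ω => mv μ * G κ (par ω κ) := by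
  have hκ : ∀ a : ι, ∃ κ, ∀ e, InC pl (ca κ) e ∨ InC pl (cb κ) e → e ≠ a := by
    intro a
    by_cases h : InC pl 0 a ∨ InC pl 1 a
    · refine ⟨true, fun e he h1 => ?_⟩
      subst h1
      rcases h with h | h <;> rcases he with he | he <;> exact absurd (h.eq hJ he) (by decide)
    · exact ⟨false, fun e he h1 => h (h1 ▸ he)⟩
  have fin : ∀ (a : ι) (κ : Bool) (φ : AutF ι) (hd : List (ι × Bool)),
      (∀ e, InC pl (ca κ) e ∨ InC pl (cb κ) e → e ≠ a) → (∀ e, e ≠ a → φ (of e) = of e) →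
      φ (of a) = mk hd → ∀ (ω : ι → Fin 8 → Fin m) (y' : AutF ι),
      (∀ e, e ≠ a → y' (of e) = mk (val pl κ ω e)) → y' (of a) = mk (hd ++ tl pl κ ω a) →
      y' = φ * G κ ω := by
    intro a κ φ hd h1 h2 h3 ω y' h4 h5
    refine autF_ext fun e => ?_
    have h6 : φ (mk (tl pl κ ω e)) = mk (tl pl κ ω e) :=
      aut_mk_fix fun x hx => h2 x (h1 x (class_tl hx))
    rw [MulAut.mul_apply, hG, val, mk_cons_true, map_mul, h6]
    by_cases h : e = a
    · rw [h, h3, h5, mul_mk]
    · rw [h2 e h, h4 e h, val, mk_cons_true]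
  have len : ∀ κ (ω : ι → Fin 8 → Fin m) a (hd : List (ι × Bool)), hd.length ≤ 2 →
      (hd ++ tl pl κ ω a).length ≤ 100 := fun κ ω a hd h => by
    have := length_tl (pl := pl) κ ω a
    rw [List.length_append]
    omega
  have case0 : ∀ (a : ι) (φ : AutF ι) (hd : List (ι × Bool)), hd.length ≤ 2 →
      (∀ e, e ≠ a → φ (of e) = of e) → φ (of a) = mk hd →
      (∃ u v, mk hd = u * of a * v ∧ (u = 1 ∨ ∃ j s, j ≠ a ∧ u = lt j s) ∧
        (v = 1 ∨ ∃ j s, j ≠ a ∧ v = lt j s)) →
      ∃ κ, Conn R (2 * R * (2 * R * (10 ^ 6 : ℕ) / m) ^ 8) 4033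
        (fun ω : Smp ι m => G κ (par ω κ)) fun ω => φ * G κ (par ω κ) := by
    rintro a φ hd h0 h2 h3 ⟨u, v, h4, hu, hv⟩
    obtain ⟨κ, h1⟩ := hκ a
    obtain ⟨y', k1, k2, k3⟩ := macro0 hm hJ R (fun _ => κ) a (fun ω => G κ (ω κ))
      (fun ω => val pl κ (ω κ) a) (fun ω => hd ++ tl pl κ (ω κ) a) (fun ω e _ => hG _ _ _)
      (fun ω => hG _ _ _) (fun e _ _ h => h1 a (Or.inr h) rfl) (own_val hJ κ a) (own_hd hJ κ a hd)
      (fun ω => (length_val _ _ _).trans (by norm_num)) (fun ω => len _ _ _ _ h0) fun ω => by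
        have hab : ∀ e, InC pl (ca κ) e ∨ InC pl (cb κ) e →
            e ≠ a ∧ G κ (ω κ) (of e) = mk (val pl κ (ω κ) e) := fun e he => ⟨h1 e he, hG _ _ _⟩
        have hl : ∀ u, (u = 1 ∨ ∃ j s, j ≠ a ∧ u = lt j s) → Exp (G κ (ω κ)) a 73 u := by
          rintro u (rfl | ⟨j, s, hj, rfl⟩)
          · exact Exp.one _
          · have := exp_of hJ hab hj (hG _ _ _)
            cases s
            · exact this.inv
            · exact this
        have ht := exp_tl hJ hab a
        refine ⟨u, _, (hl u hu).mono (by norm_num),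
          ((ht.inv.mul (hl v hv)).mul ht).mono (by norm_num), ?_⟩
        rw [← mul_mk, h4, val, mk_cons_true]
        group
    have : ∀ ω, y' ω = φ * G κ (ω κ) := fun ω => fin a κ φ hd h1 h2 h3 _ _ (k1 ω) (k2 ω)
    exact ⟨κ, by simpa only [this] using k3.mono (by norm_num : 4032 ≤ 4033)⟩
  rcases μ with ⟨a, j, d, s⟩ | a
  · by_cases hj : a = j
    · subst hj
      refine case0 a _ [(a, true)] (by simp) (fun e he => tv_ne he _ _ _) ?_
        ⟨1, 1, by rw [one_mul, mul_one]; rfl, Or.inl rfl, Or.inl rfl⟩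
      show tv a a d s (of a) = of a
      rw [tv_same]
      rfl
    · cases d
      · exact case0 a _ [(j, s), (a, true)] (by simp) (fun e he => tv_ne he _ _ _) (tv_left hj s)
          ⟨lt j s, 1, by rw [mul_one]; rfl, Or.inr ⟨j, s, Ne.symm hj, rfl⟩, Or.inl rfl⟩
      · exact case0 a _ [(a, true), (j, s)] (by simp) (fun e he => tv_ne he _ _ _) (tv_right hj s)
          ⟨1, lt j s, by rw [one_mul]; rfl, Or.inl rfl, Or.inr ⟨j, s, Ne.symm hj, rfl⟩⟩
  · obtain ⟨κ, h1⟩ := hκ a
    obtain ⟨y', k1, k2, k3⟩ := macro1 hm hJ R (fun _ => κ) a (fun ω => G κ (ω κ))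
      (fun ω => val pl κ (ω κ) a) (fun ω => [(a, false)] ++ tl pl κ (ω κ) a)
      (fun ω e _ => hG _ _ _) (fun ω => hG _ _ _) (fun e _ _ h => h1 a (Or.inr h) rfl)
      (own_val hJ κ a) (own_hd hJ κ a _) (fun ω => (length_val _ _ _).trans (by norm_num))
      (fun ω => len _ _ _ _ (by simp)) fun ω => by
        have ht := exp_tl hJ (y := G κ (ω κ)) (a := a) (fun e he => ⟨h1 e he, hG _ _ _⟩) a
        refine ⟨_, _, ht.mono (by norm_num), ht.mono (by norm_num), ?_⟩
        rw [← mul_mk, val, mk_cons_true, show (mk [(a, false)] : FreeGroup ι) = (of a)⁻¹ from rfl]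
        group
    have : ∀ ω, y' ω = inv a * G κ (ω κ) := fun ω =>
      fin a κ (inv a) [(a, false)] h1 (fun e he => inv_ne he) (inv_self a) _ _ (k1 ω) (k2 ω)
    exact ⟨κ, by simpa only [this, mv] using k3⟩

/-- The three parts of a sample. -/
def smpEquiv (ι : Type) (m : ℕ) :
    (ι → Fin 8 → Fin m) × (ι → Fin 8 → Fin m) × (Bool → Fin 8 → Fin m) ≃ Smp ι m where
  toFun s := Sum.elim (fun p => (if p.1 then s.2.1 else s.1) p.2) s.2.2
  invFun ω := (par ω false, par ω true, fun b => ω (Sum.inr b))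
  left_inv _ := rfl
  right_inv ω := by
    funext p
    rcases p with ⟨κ, e⟩ | b
    · cases κ <;> rfl
    · rfl

end

theorem exists_scheme (n R : ℕ) (hn : 48 ≤ n) :
    ∃ (Ω Z : Type) (_ : Fintype Ω) (_ : Fintype Z) (_ : Nonempty Ω) (_ : Nonempty Z),
      Nonempty (Scheme (Fin n) Ω Z (10 ^ 4 * n) R
        (2 * R * (2 * R * (10 ^ 6 : ℕ) / (n / 48 : ℕ)) ^ 8)) := by
  have hm : 0 < n / 48 := by omega
  obtain ⟨emb⟩ : Nonempty (Fin 6 × Fin 8 × Fin (n / 48) ↪ Fin n) :=
    Function.Embedding.nonempty_of_card_le (by simp; omega)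
  have hJ : JInj fun c t k => emb (c, t, k) := fun c t k c' t' k' h => by
    simpa using emb.injective h
  choose G hG using exists_padded hJ
  obtain ⟨pB, b0, b1, b2, b3⟩ := ((conn_B hm hJ R G hG).mono (L' := 10 ^ 4 * n)
    (by rw [Fintype.card_fin]; omega)).comp (smpEquiv (Fin n) (n / 48))
  choose κ hκ using conn_A hm hJ R G hG
  have hA := fun μ => ((hκ μ).mono (L' := 10 ^ 4 * n) (by omega)).comp (smpEquiv (Fin n) (n / 48))
  choose pA a0 a1 a2 a3 using hA
  exact ⟨Fin n → Fin 8 → Fin (n / 48), Bool → Fin 8 → Fin (n / 48), inferInstance, inferInstance,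
    ⟨fun _ _ => ⟨0, hm⟩⟩, ⟨fun _ _ => ⟨0, hm⟩⟩,
    ⟨⟨G, pB, κ, pA, b0, b1, b2, b3, a0, a1, a2, a3⟩⟩⟩

end Pool.Agent.P.MP_2d26dd_al
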