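import Pool.Agent.P.MP_2d26dd_al.XDefs
import Pool.Agent.P.MP_2d26dd_al.C0

/-! The extension lemma. -/

namespace Pool.Agent.P.MP_2d26dd_al

section

variable {S : Type} [Fintype S]

open Classical in
/-- The number of samples with a property. -/
noncomputable def X3cnt (P : S → Prop) : ℝ := ((Finset.univ.filter P).card : ℝ)

theorem X3cnt_eq (P : S → Prop) [h : DecidablePred P] :
    ((Finset.univ.filter P).card : ℝ) = X3cnt P :=
  congrArg (fun h => ((@Finset.filter _ P h Finset.univ).card : ℝ)) (Subsingleton.elim _ _)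

theorem X3cnt_nonneg (P : S → Prop) : 0 ≤ X3cnt P := Nat.cast_nonneg _

open Classical in
theorem X3cnt_sum (P : S → Prop) : X3cnt P = ∑ s, if P s then (1 : ℝ) else 0 := by
  rw [X3cnt, Finset.card_filter, Nat.cast_sum]
  exact Finset.sum_congr rfl fun s _ => by split_ifs <;> simp

theorem X3cnt_sum_le {κ : Type} (T : Finset κ) {P : S → Prop} {Q : κ → S → Prop}
    (h : ∀ s, P s → ∃ k ∈ T, Q k s) : X3cnt P ≤ ∑ k ∈ T, X3cnt (Q k) := by
  simp only [X3cnt_sum]
  rw [Finset.sum_comm]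
  refine Finset.sum_le_sum fun s _ => ?_
  have h0 : ∀ k ∈ T, (0 : ℝ) ≤ @ite _ (Q k s) (Classical.propDecidable _) 1 0 :=
    fun k _ => by split_ifs <;> norm_num
  by_cases hs : P s
  · obtain ⟨k, hk, hq⟩ := h s hs
    exact le_trans (by rw [if_pos hs, if_pos hq]) (Finset.single_le_sum h0 hk)
  · rw [if_neg hs]
    exact Finset.sum_nonneg h0

theorem X3cnt_add {P Q R : S → Prop} (h : ∀ s, P s → Q s ∨ R s) :
    X3cnt P ≤ X3cnt Q + X3cnt R := by
  have := X3cnt_sum_le (P := P) (Q := fun b : Bool => bif b then Q else R) Finset.univ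
    fun s hs => (h s hs).elim (fun h => ⟨true, Finset.mem_univ _, h⟩)
      fun h => ⟨false, Finset.mem_univ _, h⟩
  rwa [Fintype.sum_bool] at this

theorem X3cnt_true : X3cnt (fun _ : S => True) = Fintype.card S := by
  simp [X3cnt]

theorem X3cnt_prod {T : Type} [Fintype T] (P : S × T → Prop) :
    X3cnt P = ∑ s, X3cnt fun t => P (s, t) := by
  simp only [X3cnt_sum]
  exact Fintype.sum_prod_type _

theorem X3cnt_mul (P : S → Prop) :
    X3cnt (fun s : S × S => P s.1 ∧ P s.2) = X3cnt P ^ 2 := by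
  rw [sq, X3cnt_prod, X3cnt_sum P, Finset.sum_mul]
  refine Finset.sum_congr rfl fun s _ => ?_
  by_cases h : P s
  · rw [if_pos h, one_mul, ← X3cnt_sum]
    exact congrArg X3cnt (funext fun t => propext ⟨fun a => a.2, fun a => ⟨h, a⟩⟩)
  · rw [if_neg h, zero_mul, X3cnt_sum]
    exact Finset.sum_eq_zero fun t _ => if_neg fun a => h a.1

theorem X3cnt_mono {P Q : S → Prop} (h : ∀ s, P s → Q s) : X3cnt P ≤ X3cnt Q := by
  have := X3cnt_sum_le (P := P) (Q := fun _ : Unit => Q) Finset.univ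
    fun s hs => ⟨(), Finset.mem_univ _, h s hs⟩
  rwa [Fintype.sum_unique] at this

theorem X3markov (Z : S → ℝ) (h0 : ∀ s, 0 ≤ Z s) :
    X3cnt (fun s => ¬ Z s ≤ 100 / Fintype.card S * ∑ s, Z s) ≤ 1 / 100 * Fintype.card S := by
  classical
  rw [← X3cnt_eq]
  set T := Finset.univ.filter fun s => ¬ Z s ≤ 100 / Fintype.card S * ∑ s, Z s
  rcases T.eq_empty_or_nonempty with h | h
  · rw [h, Finset.card_empty, Nat.cast_zero]
    positivity
  have hN : (0 : ℝ) < Fintype.card S := Nat.cast_pos.2 (Fintype.card_pos_iff.2 ⟨h.choose⟩)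
  have h1 := Finset.sum_lt_sum_of_nonempty h
    (f := fun _ => 100 / Fintype.card S * ∑ s, Z s) (g := Z)
    fun s hs => not_le.1 (Finset.mem_filter.1 hs).2
  have h2 : ∑ s ∈ T, Z s ≤ ∑ s, Z s :=
    Finset.sum_le_sum_of_subset_of_nonneg (Finset.subset_univ _) fun s _ _ => h0 s
  have h3 : 0 ≤ ∑ s, Z s := Finset.sum_nonneg fun s _ => h0 s
  rw [Finset.sum_const, nsmul_eq_mul, ← mul_assoc] at h1
  have h4 : (T.card : ℝ) * (100 / Fintype.card S) < 1 :=
    lt_of_mul_lt_mul_right (by rw [one_mul]; exact h1.trans_le h2) h3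
  rw [← mul_div_assoc, div_lt_one hN] at h4
  linarith

end

variable {ι : Type} [DecidableEq ι] {Γ : Subgroup (AutF ι)} [Γ.Normal] [Γ.FiniteIndex]
  {X : Type} [MetricSpace X] (act : Γ →* (X ≃ᵢ X))

omit [DecidableEq ι] [Γ.Normal] [Γ.FiniteIndex] in
theorem X3_sumQ_ite (A : AutF ι → Prop) [DecidablePred A] (φ : AutF ι → ℝ) :
    sumQ Γ (fun _ => True) (fun x => if A x then φ x else 0) = sumQ Γ A φ :=
  finsum_congr fun q => (if_pos trivial).trans (by
    by_cases h : A q.out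
    · exact (if_pos h).trans (if_pos h).symm
    · exact (if_neg h).trans (if_neg h).symm)

open Classical in
theorem bad_path {S : Type} [Fintype S] {path : S → ℕ → AutF ι} {R L : ℕ} {η : ℝ}
    (hfree : FreePath path R η)
    (hyp : ∀ x x' B, B.card = R → Disj B x x' → Null act x B ∨ Null act x' B)
    {𝓑 : Finset (Finset ι)} (h𝓑 : ∀ B ∈ 𝓑, B.card = R)
    (hη : (((L : ℝ) + 1) * 𝓑.card) ^ 2 * η ≤ 1 / 10 ^ 4) (x : AutF ι) :
    (((Finset.univ : Finset S).filter
      fun s => ∃ l ≤ L, ¬ Deep act 𝓑 (x * path s l)).card : ℝ) ≤ 1 / 100 * Fintype.card S := by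
  rw [X3cnt_eq]
  refine (X3cnt_sum_le (Finset.range (L + 1) ×ˢ 𝓑)
    (Q := fun k s => ¬ Null act (x * path s k.1) k.2) fun s hs => ?_).trans ?_
  · obtain ⟨l, hl, h⟩ := hs
    by_contra hn
    exact h fun B hB => by_contra fun hh => hn ⟨(l, B), Finset.mem_product.2
      ⟨Finset.mem_range.2 (Nat.lt_succ_of_le hl), hB⟩, hh⟩
  have hN : (0 : ℝ) ≤ Fintype.card S := Nat.cast_nonneg _
  have key : ∀ k ∈ Finset.range (L + 1) ×ˢ 𝓑, ((L : ℝ) + 1) * 𝓑.card *
      X3cnt (fun s => ¬ Null act (x * path s k.1) k.2) ≤ 1 / 100 * Fintype.card S := by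
    intro k hk
    have hB := h𝓑 _ (Finset.mem_product.1 hk).2
    have h1 := hfree k.1 k.2 hB
    rw [X3cnt_eq] at h1
    have h2 : X3cnt (fun s => ¬ Null act (x * path s k.1) k.2) ^ 2 ≤
        η * (Fintype.card S : ℝ) ^ 2 := by
      rw [← X3cnt_mul]
      exact (X3cnt_mono fun s hs hd => (hyp _ _ _ hB (hd.left x)).elim hs.1 hs.2).trans h1
    refine (abs_le_of_sq_le_sq' ?_ (by positivity)).2
    rw [mul_pow]
    calc _ ≤ (((L : ℝ) + 1) * 𝓑.card) ^ 2 * (η * (Fintype.card S : ℝ) ^ 2) :=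
          mul_le_mul_of_nonneg_left h2 (sq_nonneg _)
      _ = (((L : ℝ) + 1) * 𝓑.card) ^ 2 * η * (Fintype.card S : ℝ) ^ 2 := by ring
      _ ≤ 1 / 10 ^ 4 * (Fintype.card S : ℝ) ^ 2 := mul_le_mul_of_nonneg_right hη (sq_nonneg _)
      _ = _ := by ring
  rcases 𝓑.eq_empty_or_nonempty with h | h
  · rw [h, Finset.product_empty, Finset.sum_empty]
    positivity
  have hK : 0 < ((L : ℝ) + 1) * 𝓑.card :=
    mul_pos (by positivity) (Nat.cast_pos.2 h.card_pos)
  refine le_of_mul_le_mul_left ?_ hK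
  rw [Finset.mul_sum]
  refine (Finset.sum_le_card_nsmul _ _ _ key).trans (le_of_eq ?_)
  rw [Finset.card_product, Finset.card_range, nsmul_eq_mul]
  push_cast
  ring

open Classical in
theorem good_path {S : Type} [Fintype S] [Fintype ι] {path : S → ℕ → AutF ι} {L : ℕ}
    (hstep : ∀ s l, Step (path s l) (path s (l + 1))) {D : AutF ι → Prop} (hD : LInv Γ D)
    (hbad : ∀ x, (((Finset.univ : Finset S).filter
      fun s => ∃ l ≤ L, ¬ D (x * path s l)).card : ℝ) ≤ 1 / 100 * Fintype.card S)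
    {F : AutF ι → X} (hF : Equi act F) {e₁ : ℝ} (he0 : 0 ≤ e₁)
    (he : ∀ μ : Mv ι, disp Γ (fun x => D x ∧ D (x * mv μ)) F (mv μ) ≤ e₁) :
    ∃ z : AutF ι → ℝ, LInv Γ z ∧ (∀ x, 0 ≤ z x) ∧
      sumQ Γ (fun _ => True) z ≤ 100 * (L : ℝ) ^ 2 * e₁ ∧
      ∀ x, (((Finset.univ : Finset S).filter
        fun s => ¬ dist (F (x * path s 0)) (F (x * path s L)) ^ 2 ≤ z x).card : ℝ) ≤
          2 / 100 * Fintype.card S := by
  let W : S → ℕ → AutF ι → ℝ := fun s l x => if D (x * path s l) ∧ D (x * path s (l + 1)) then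
    dist (F (x * path s l)) (F (x * path s (l + 1))) ^ 2 else 0
  have W0 : ∀ s l x, 0 ≤ W s l x := fun s l x => by
    simp only [W]
    split_ifs <;> positivity
  have W1 : ∀ s l, LInv Γ (W s l) := fun s l γ x => by
    simp only [W, mul_assoc, hD γ, hF γ, IsometryEquiv.dist_eq]
  have W2 : ∀ s l, sumQ Γ (fun _ => True) (W s l) ≤ e₁ := fun s l => by
    rcases hstep s l with h | ⟨μ, h⟩
    · refine (sumQ_le (ψ := fun _ => 0 * 0) fun x _ => ?_).trans ?_
      · simp [W, h]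
      · rw [sumQ_mul _ 0 fun _ => 0, zero_mul]
        exact he0
    · refine le_trans (le_of_eq ?_) (he μ)
      refine Eq.trans ?_ ((sumQ_shift (Γ := Γ) (A := fun _ => True) (φ := fun x =>
        if D x ∧ D (x * mv μ) then dist (F x) (F (x * mv μ)) ^ 2 else 0) (fun _ _ => rfl)
        (fun γ x => by simp only [mul_assoc, hD γ, hF γ, IsometryEquiv.dist_eq])
        (path s l)).trans (X3_sumQ_ite (fun x => D x ∧ D (x * mv μ)) _))
      refine congrArg _ (funext fun x => ?_)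
      simp only [W, h, mul_assoc]
  have Z0 : ∀ x s, 0 ≤ (L : ℝ) * ∑ l ∈ Finset.range L, W s l x := fun x s =>
    mul_nonneg (Nat.cast_nonneg _) (Finset.sum_nonneg fun l _ => W0 s l x)
  refine ⟨fun x => 100 / Fintype.card S * ∑ s, (L : ℝ) * ∑ l ∈ Finset.range L, W s l x,
    fun γ x => by simp only [W1 _ _ γ x], fun x => mul_nonneg (by positivity)
      (Finset.sum_nonneg fun s _ => Z0 x s), ?_, fun x => ?_⟩
  · rw [sumQ_mul, sumQ_sum]
    have : ∀ s ∈ (Finset.univ : Finset S), sumQ Γ (fun _ => True)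
        (fun x => (L : ℝ) * ∑ l ∈ Finset.range L, W s l x) ≤ (L : ℝ) ^ 2 * e₁ := fun s _ => by
      rw [sumQ_mul, sumQ_sum, sq, mul_assoc]
      refine mul_le_mul_of_nonneg_left ?_ (Nat.cast_nonneg _)
      refine (Finset.sum_le_card_nsmul _ _ _ fun l _ => W2 s l).trans (le_of_eq ?_)
      rw [Finset.card_range, nsmul_eq_mul]
    refine (mul_le_mul_of_nonneg_left (Finset.sum_le_card_nsmul _ _ _ this)
      (by positivity)).trans ?_
    rw [Finset.card_univ, nsmul_eq_mul, ← mul_assoc, mul_assoc 100]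
    refine mul_le_mul_of_nonneg_right ?_ (by positivity)
    rw [div_mul_eq_mul_div, mul_div_assoc]
    exact mul_le_of_le_one_right (by norm_num) (div_self_le_one _)
  · have h1 := hbad x
    rw [X3cnt_eq] at h1 ⊢
    refine (X3cnt_add fun s hs => ?_).trans
      ((add_le_add h1 (X3markov _ (Z0 x))).trans (le_of_eq (by ring)))
    refine or_iff_not_imp_left.2 fun hn hh => hs (le_trans ?_ hh)
    push Not at hn
    refine (pow_le_pow_left₀ dist_nonneg
      (dist_le_range_sum_dist (fun l => F (x * path s l)) L) 2).trans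
      (sq_sum_le_card_mul_sum_sq.trans (le_of_eq ?_))
    rw [Finset.card_range]
    refine congrArg _ (Finset.sum_congr rfl fun l hl => (if_pos ?_).symm)
    have := Finset.mem_range.1 hl
    exact ⟨hn l this.le, hn (l + 1) this⟩

theorem extension [Fintype ι] {Ω Z : Type} [Fintype Ω] [Fintype Z] [Nonempty Ω] [Nonempty Z]
    {L R : ℕ} {η : ℝ} (𝒮 : Scheme ι Ω Z L R η)
    (hyp : ∀ x x' B, B.card = R → Disj B x x' → Null act x B ∨ Null act x' B)
    {𝓑 : Finset (Finset ι)} (h𝓑 : ∀ B ∈ 𝓑, B.card = R)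
    (hη : (((L : ℝ) + 1) * 𝓑.card) ^ 2 * η ≤ 1 / 10 ^ 4)
    {F : AutF ι → X} (hF : Equi act F) {e₁ : ℝ} (he0 : 0 ≤ e₁)
    (he : ∀ μ : Mv ι,
      disp Γ (fun x => Deep act 𝓑 x ∧ Deep act 𝓑 (x * mv μ)) F (mv μ) ≤ e₁) :
    ∃ ω : AutF ι → Ω, LInv Γ ω ∧
      energy Γ (fun x => F (x * 𝒮.g false (ω x))) ≤
        Fintype.card (Mv ι) * (2700 * (L : ℝ) ^ 2 * e₁) := by
  classical
  have hD : LInv Γ (Deep act 𝓑) := fun γ x =>
    propext (forall₂_congr fun B _ => null_left γ)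
  obtain ⟨z, z1, z0, z2, z3⟩ := good_path act 𝒮.stepB hD
    (bad_path act 𝒮.freeB hyp h𝓑 hη) hF he0 he
  choose u u1 u0 u2 u3 using fun μ => good_path act (𝒮.stepA μ) hD
    (bad_path act (𝒮.freeA μ) hyp h𝓑 hη) hF he0 he
  simp only [X3cnt_eq, 𝒮.startB, 𝒮.stopB, 𝒮.startA, 𝒮.stopA] at z3 u3
  let G : AutF ι → Ω → Prop := fun x a => X3cnt (fun t : Ω × Z =>
    ¬ dist (F (x * 𝒮.g false a)) (F (x * 𝒮.g true t.1)) ^ 2 ≤ z x) ≤
      2 / 100 * Fintype.card (Ω × Z)
  have hG : ∀ x, G x (Classical.epsilon (G x)) := fun x => Classical.epsilon_spec (by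
    have h := z3 x
    rw [X3cnt_prod, Fintype.card_prod Ω, Nat.cast_mul, mul_left_comm, ← nsmul_eq_mul,
      ← Finset.card_univ, ← Finset.sum_const] at h
    obtain ⟨a, -, ha⟩ := Finset.exists_le_of_sum_le Finset.univ_nonempty h
    exact ⟨a, ha⟩)
  have hG1 : LInv Γ G := fun γ x => by
    simp only [G, mul_assoc, hF γ, z1 γ, IsometryEquiv.dist_eq]
  refine ⟨fun x => Classical.epsilon (G x), fun γ x => by simp only [hG1 γ x], ?_⟩
  have hG2 : ∀ x, X3cnt (fun s : Ω × Ω × Z => ¬ dist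
      (F (x * 𝒮.g false (Classical.epsilon (G x)))) (F (x * 𝒮.g true s.2.1)) ^ 2 ≤ z x) ≤
        2 / 100 * Fintype.card (Ω × Ω × Z) := fun x => by
    rw [X3cnt_prod, Fintype.card_prod Ω, Nat.cast_mul, mul_left_comm, ← nsmul_eq_mul,
      ← Finset.card_univ, ← Finset.sum_const]
    exact Finset.sum_le_sum fun _ _ => hG x
  rw [energy, ← nsmul_eq_mul, ← Finset.card_univ]
  refine Finset.sum_le_card_nsmul _ _ _ fun μ _ => ?_
  rw [disp, dd]
  refine (sumQ_le (Γ := Γ) (ψ := fun x => 12 * z x + (3 * u μ x + 12 * z (x * mv μ)))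
    fun x _ => ?_).trans ?_
  · have hN : (0 : ℝ) < Fintype.card (Ω × Ω × Z) := Nat.cast_pos.2 Fintype.card_pos
    have ex : ∃ s : Ω × Ω × Z, ¬ (_ ∨ _ ∨ _ ∨ _ ∨ _) := by_contra fun hn => by
      have h := (X3cnt_add (P := fun _ => True) fun s _ =>
        not_not.1 fun h => hn ⟨s, h⟩).trans (add_le_add (z3 x)
          ((X3cnt_add fun _ => id).trans (add_le_add (hG2 x)
            ((X3cnt_add fun _ => id).trans (add_le_add (z3 (x * mv μ))
              ((X3cnt_add fun _ => id).trans (add_le_add (hG2 (x * mv μ)) (u3 μ x))))))))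
      rw [X3cnt_true] at h
      linarith
    obtain ⟨s, hs⟩ := ex
    simp only [not_or, not_not] at hs
    obtain ⟨h1, h2, h3, h4, h5⟩ := hs
    have key : ∀ y, dist (F (y * 𝒮.g false s.1)) (F (y * 𝒮.g true s.2.1)) ^ 2 ≤ z y →
        dist (F (y * 𝒮.g false (Classical.epsilon (G y)))) (F (y * 𝒮.g true s.2.1)) ^ 2 ≤ z y →
        dist (F (y * 𝒮.g false (Classical.epsilon (G y))))
          (F (y * 𝒮.g (𝒮.κ μ) (if 𝒮.κ μ then s.2.1 else s.1))) ^ 2 ≤ 4 * z y := by
      intro y a b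
      have := z0 y
      cases 𝒮.κ μ
      · refine (pow_le_pow_left₀ dist_nonneg
          (dist_triangle_right _ _ (F (y * 𝒮.g true s.2.1))) 2).trans (add_sq_le.trans ?_)
        rw [if_neg Bool.false_ne_true]
        linarith
      · rw [if_pos rfl]
        linarith
    have k1 := key x h1 h2
    have k2 := key _ h3 h4
    rw [← mul_assoc] at h5
    refine (pow_le_pow_left₀ dist_nonneg (dist_triangle4_right _ _
      (F (x * 𝒮.g (𝒮.κ μ) (if 𝒮.κ μ then s.2.1 else s.1)))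
      (F (x * mv μ * 𝒮.g (𝒮.κ μ) (if 𝒮.κ μ then s.2.1 else s.1)))) 2).trans ?_
    have three : ∀ a b c : ℝ, (a + b + c) ^ 2 ≤ 3 * (a ^ 2 + b ^ 2 + c ^ 2) := fun a b c => by
      nlinarith [sq_nonneg (a - b), sq_nonneg (b - c), sq_nonneg (a - c)]
    refine (three _ _ _).trans ?_
    linarith
  · rw [sumQ_add, sumQ_add, sumQ_mul, sumQ_mul, sumQ_mul,
      sumQ_shift (A := fun _ => True) (fun _ _ => rfl) z1]
    linarith [u2 μ]

end Pool.Agent.P.MP_2d26dd_al
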