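import Mathlib

/-! The choice of the parameters. -/

namespace Pool.Agent.P.MP_2d26dd_al

theorem x5_pow_le : ∃ k₀ : ℕ, ∀ k ≥ k₀, (10 : ℝ) ^ 250 * (k : ℝ) ^ 9 ≤ 2 ^ k := by
  have h := tendsto_pow_const_div_const_pow_of_one_lt 9 (r := (2 : ℝ)) (by norm_num)
  have h2 : ∀ᶠ k : ℕ in Filter.atTop, (k : ℝ) ^ 9 / 2 ^ k < 1 / 10 ^ 250 :=
    h.eventually (gt_mem_nhds (by positivity))
  obtain ⟨k₀, hk⟩ := Filter.eventually_atTop.mp h2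
  refine ⟨k₀, fun k hk' => ?_⟩
  have h3 := hk k hk'
  rw [div_lt_div_iff₀ (by positivity) (by positivity)] at h3
  linarith

theorem x5_A (n k R q : ℝ) (hk : 1 ≤ k) (hn : 10 ^ 250 * k ^ 9 ≤ n) (hR0 : 0 ≤ R)
    (hR : R ≤ 10 ^ 20 * k) (hq : n / 96 ≤ q) :
    ((10 ^ 4 * n + 1) * n ^ 2) ^ 2 * (2 * R * (2 * R * 10 ^ 6 / q) ^ 8) ≤ 1 / 10 ^ 4 := by
  have hk9 : 1 ≤ k ^ 9 := one_le_pow₀ hk
  have hn2 : (10 : ℝ) ^ 250 ≤ n :=
    le_trans (le_mul_of_one_le_right (by positivity) hk9) hn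
  have hn1 : (1 : ℝ) ≤ n := le_trans (by norm_num) hn2
  have hn0 : (0 : ℝ) < n := lt_of_lt_of_le one_pos hn1
  have hq0 : 0 < q := lt_of_lt_of_le (by positivity) hq
  have h1 : 2 * R * 10 ^ 6 / q ≤ 10 ^ 9 * R / n := by
    rw [div_le_div_iff₀ hq0 hn0]
    have : n ≤ 96 * q := by linarith
    nlinarith [mul_le_mul_of_nonneg_left this hR0, mul_nonneg hR0 hq0.le]
  have h2 : (2 * R * 10 ^ 6 / q) ^ 8 ≤ (10 ^ 9 * R / n) ^ 8 :=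
    pow_le_pow_left₀ (by positivity) h1 8
  have h3 : ((10 ^ 4 * n + 1) * n ^ 2) ^ 2 ≤ ((2 * 10 ^ 4 * n) * n ^ 2) ^ 2 := by
    apply pow_le_pow_left₀ (by positivity)
    apply mul_le_mul_of_nonneg_right _ (by positivity)
    linarith
  have h4 : R ^ 9 ≤ (10 ^ 20 * k) ^ 9 := pow_le_pow_left₀ hR0 hR 9
  have h5 : R ^ 9 ≤ n / 10 ^ 70 := by
    rw [le_div_iff₀ (by positivity)]
    have e : (10 ^ 20 * k) ^ 9 * 10 ^ 70 = 10 ^ 250 * k ^ 9 := by ring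
    calc R ^ 9 * 10 ^ 70 ≤ (10 ^ 20 * k) ^ 9 * 10 ^ 70 :=
          mul_le_mul_of_nonneg_right h4 (by positivity)
      _ = 10 ^ 250 * k ^ 9 := e
      _ ≤ n := hn
  calc ((10 ^ 4 * n + 1) * n ^ 2) ^ 2 * (2 * R * (2 * R * 10 ^ 6 / q) ^ 8)
      ≤ ((2 * 10 ^ 4 * n) * n ^ 2) ^ 2 * (2 * R * (10 ^ 9 * R / n) ^ 8) := by
        apply mul_le_mul h3 _ (by positivity) (by positivity)
        exact mul_le_mul_of_nonneg_left h2 (by positivity)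
    _ = 8 * 10 ^ 80 * R ^ 9 / n ^ 2 := by field_simp; ring
    _ ≤ 8 * 10 ^ 80 * (n / 10 ^ 70) / n ^ 2 := by
        apply div_le_div_of_nonneg_right _ (by positivity)
        exact mul_le_mul_of_nonneg_left h5 (by positivity)
    _ = 8 * 10 ^ 10 / n := by field_simp
    _ ≤ 8 * 10 ^ 10 / 10 ^ 250 := div_le_div_of_nonneg_left (by positivity) (by positivity) hn2
    _ ≤ 1 / 10 ^ 4 := by norm_num

theorem x5_B (n x : ℝ) (hn : 1 ≤ n) (hx : 10 ^ 250 ≤ x) (hnx : n ≤ 2 * x) :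
    (4 * n ^ 2 + n) * (2700 * (10 ^ 4 * n) ^ 2 * ((2 * n + 1) ^ 2 * (300 * (1 / x ^ 7)))) ≤ 1 / 2 := by
  have hx0 : (0 : ℝ) < x := lt_of_lt_of_le (by positivity) hx
  have h1 : 4 * n ^ 2 + n ≤ 5 * n ^ 2 := by nlinarith
  have h2 : (2 * n + 1) ^ 2 ≤ (3 * n) ^ 2 := pow_le_pow_left₀ (by positivity) (by linarith) 2
  have h3 : n ^ 6 ≤ (2 * x) ^ 6 := pow_le_pow_left₀ (by positivity) hnx 6
  calc (4 * n ^ 2 + n) * (2700 * (10 ^ 4 * n) ^ 2 * ((2 * n + 1) ^ 2 * (300 * (1 / x ^ 7))))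
      ≤ (5 * n ^ 2) * (2700 * (10 ^ 4 * n) ^ 2 * ((3 * n) ^ 2 * (300 * (1 / x ^ 7)))) := by
        apply mul_le_mul h1 _ (by positivity) (by positivity)
        apply mul_le_mul_of_nonneg_left _ (by positivity)
        exact mul_le_mul_of_nonneg_right h2 (by positivity)
    _ = 3645 * 10 ^ 12 * n ^ 6 / x ^ 7 := by field_simp; ring
    _ ≤ 3645 * 10 ^ 12 * (2 * x) ^ 6 / x ^ 7 := by
        apply div_le_div_of_nonneg_right _ (by positivity)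
        exact mul_le_mul_of_nonneg_left h3 (by positivity)
    _ = 3645 * 10 ^ 12 * 64 / x := by field_simp; ring
    _ ≤ 3645 * 10 ^ 12 * 64 / 10 ^ 250 := div_le_div_of_nonneg_left (by positivity) (by positivity) hx
    _ ≤ 1 / 2 := by norm_num

theorem params (m : ℕ) : ∃ n₀ : ℕ, ∀ n ≥ n₀, ∃ R T : ℕ, m ≤ R ∧ R + 3 ≤ n ∧ 3 * 10 ^ 18 ≤ n ∧
    (2 * (2 * T + 3) + 3) * 10 ^ 18 + 1 ≤ R ∧
    ((((10 ^ 4 * n : ℕ) : ℝ) + 1) * (n : ℝ) ^ 2) ^ 2 *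
      (2 * R * (2 * R * (10 ^ 6 : ℕ) / (n / 48 : ℕ)) ^ 8) ≤ 1 / 10 ^ 4 ∧
    (4 * (n : ℝ) ^ 2 + n) * (2700 * ((10 ^ 4 * n : ℕ) : ℝ) ^ 2 *
      ((2 * n + 1) ^ 2 * (300 * (1 / 2) ^ T))) ≤ 1 / 2 := by
  obtain ⟨k₀, hk₀⟩ := x5_pow_le
  refine ⟨2 ^ (k₀ + m + 1), fun n hn => ?_⟩
  have hn0 : n ≠ 0 := by
    have : 0 < 2 ^ (k₀ + m + 1) := by positivity
    omega
  obtain ⟨k, hk⟩ : ∃ k, k = Nat.log 2 n := ⟨_, rfl⟩
  have hkl : k₀ + m + 1 ≤ k := by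
    rw [hk]; exact Nat.le_log_of_pow_le (by norm_num) hn
  have hle : 2 ^ k ≤ n := by rw [hk]; exact Nat.pow_log_le_self 2 hn0
  have hlt : n < 2 ^ (k + 1) := by rw [hk]; exact Nat.lt_pow_succ_log_self (by norm_num) n
  have hleR : (2 : ℝ) ^ k ≤ n := by exact_mod_cast hle
  have hltR : (n : ℝ) ≤ 2 * 2 ^ k := by
    have : (n : ℝ) ≤ 2 ^ (k + 1) := by exact_mod_cast hlt.le
    rw [pow_succ] at this; linarith
  have hk1 : (1 : ℝ) ≤ k := by exact_mod_cast (by omega : 1 ≤ k)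
  have hmain := hk₀ k (by omega)
  have hk9 : (k : ℝ) ≤ (k : ℝ) ^ 9 := le_self_pow₀ hk1 (by norm_num)
  have hn300 : (10 : ℝ) ^ 250 * (k : ℝ) ^ 9 ≤ n := hmain.trans hleR
  have hnk : (10 : ℝ) ^ 30 * k ≤ n := by
    refine le_trans ?_ hn300
    exact mul_le_mul (by norm_num) hk9 (by positivity) (by positivity)
  have hnkN : 10 ^ 30 * k ≤ n := by exact_mod_cast hnk
  refine ⟨10 ^ 20 * k, 7 * k, by omega, by omega, by omega, by omega, ?_, ?_⟩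
  · have hq : (n : ℝ) / 96 ≤ ((n / 48 : ℕ) : ℝ) := by
      rw [div_le_iff₀ (by norm_num)]
      have : n ≤ n / 48 * 96 := by omega
      exact_mod_cast this
    have := x5_A n k ((10 ^ 20 * k : ℕ) : ℝ) ((n / 48 : ℕ) : ℝ) hk1 hn300 (by positivity)
      (by push_cast; norm_num) hq
    have e1 : ((10 ^ 4 * n : ℕ) : ℝ) = 10 ^ 4 * (n : ℝ) := by push_cast; ring
    have e2 : ((10 ^ 6 : ℕ) : ℝ) = 10 ^ 6 := by push_cast; ring
    rw [e1, e2]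
    exact this
  · have hx : (10 : ℝ) ^ 250 ≤ 2 ^ k := by
      refine le_trans ?_ hmain
      exact le_mul_of_one_le_right (by positivity) (one_le_pow₀ hk1)
    have hn1 : (1 : ℝ) ≤ n := by exact_mod_cast Nat.one_le_iff_ne_zero.mpr hn0
    have := x5_B n (2 ^ k) hn1 hx hltR
    have e1 : ((10 ^ 4 * n : ℕ) : ℝ) = 10 ^ 4 * (n : ℝ) := by push_cast; ring
    have e2 : ((1 : ℝ) / 2) ^ (7 * k) = 1 / (2 ^ k) ^ 7 := by
      rw [one_div_pow, ← pow_mul, mul_comm]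
    rw [e1, e2]
    exact this

end Pool.Agent.P.MP_2d26dd_al
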