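import Pool.Agent.P.MP_2d26dd_al.C5
import Pool.Agent.P.MP_2d26dd_al.C6
import Pool.Agent.P.MP_2d26dd_al.X1
import Pool.Agent.P.MP_2d26dd_al.X2
import Pool.Agent.P.MP_2d26dd_al.X3
import Pool.Agent.P.MP_2d26dd_al.X5

/-! The fixed point theorem. -/

namespace Pool.Agent.P.MP_2d26dd_al

theorem fixed_point (m : ℕ) : ∃ n₀ : ℕ, ∀ n ≥ n₀, ∃ R : ℕ, m ≤ R ∧ R + 3 ≤ n ∧
    ∀ (Γ : Subgroup (AutF (Fin n))) [Γ.Normal] [Γ.FiniteIndex] (X V : Type) [MetricSpace X]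
      [CompleteSpace X] [Nonempty X] [NormedAddCommGroup V] [InnerProductSpace ℝ V]
      [FiniteDimensional ℝ V] (_ : NPC X V) (act : Γ →* (X ≃ᵢ X)),
      (∀ x x' B, B.card = R → Disj B x x' → Null act x B ∨ Null act x' B) →
        ∃ p : X, ∀ γ : Γ, act γ p = p := by
  obtain ⟨n₀, h₀⟩ := params m
  refine ⟨n₀, fun n hn => ?_⟩
  obtain ⟨R, T, hm, hR, hn3, hRT, hη, hc⟩ := h₀ n hn
  refine ⟨R, hm, hR, fun Γ _ _ X V _ _ _ _ _ _ 𝒩 act hyp => ?_⟩
  obtain ⟨r, hr⟩ : ∃ r : ℕ, r = 10 ^ 18 := ⟨_, rfl⟩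
  rw [← hr] at hn3 hRT
  have hr0 : 0 < r := by rw [hr]; positivity
  have hr1 : 16 ≤ r := by rw [hr]; norm_num
  obtain ⟨Ω, Z, _, _, _, _, ⟨𝒮⟩⟩ := exists_scheme n R (by omega)
  have hB : ∀ p : ℕ × Fin n, ∃ B : Finset (Fin n),
      insert p.2 (Win n r p.1 (2 * T + 2 + 1)) ⊆ B ∧ B.card = R := fun p => by
    refine Finset.exists_superset_card_eq ?_ (by rw [Fintype.card_fin]; omega)
    have h1 := Finset.card_insert_le p.2 (Win n r p.1 (2 * T + 2 + 1))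
    have h2 := card_win (n := n) hr0 p.1 (2 * T + 2 + 1)
    exact h1.trans ((Nat.add_le_add_right h2 1).trans hRT)
  choose Bf hBs hBc using hB
  obtain ⟨𝓑, h𝓑⟩ : ∃ 𝓑 : Finset (Finset (Fin n)),
      𝓑 = (Finset.range (n / r - 1) ×ˢ (Finset.univ : Finset (Fin n))).image Bf := ⟨_, rfl⟩
  have hBR : ∀ B ∈ 𝓑, B.card = R := fun B hB => by
    rw [h𝓑] at hB
    obtain ⟨p, -, rfl⟩ := Finset.mem_image.1 hB
    exact hBc p
  have hcard : (𝓑.card : ℝ) ≤ (n : ℝ) ^ 2 := by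
    have h1 : 𝓑.card ≤ n ^ 2 := by
      rw [h𝓑]
      refine Finset.card_image_le.trans ?_
      rw [Finset.card_product, Finset.card_range, Finset.card_univ, Fintype.card_fin, sq]
      exact Nat.mul_le_mul_right n ((Nat.sub_le _ _).trans (Nat.div_le_self _ _))
    exact_mod_cast h1
  have hη' : ((((10 ^ 4 * n : ℕ) : ℝ) + 1) * 𝓑.card) ^ 2 *
      (2 * R * (2 * R * (10 ^ 6 : ℕ) / (n / 48 : ℕ)) ^ 8) ≤ 1 / 10 ^ 4 := by
    refine le_trans ?_ hη
    gcongr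
  have hD : LInv Γ (Deep act 𝓑) := fun γ x =>
    propext (forall_congr' fun B => forall_congr' fun _ => null_left γ)
  have hD' : ∀ x, Deep act 𝓑 x → ∀ j, j < n / r - 1 → ∀ e,
      Null act x (insert e (Win n r j (2 * T + 2 + 1))) := fun x hx j hj e => by
    refine Null.mono (hBs (j, e)) (hx _ ?_)
    rw [h𝓑]
    exact Finset.mem_image_of_mem _
      (Finset.mem_product.2 ⟨Finset.mem_range.2 hj, Finset.mem_univ _⟩)
  obtain ⟨K1, hK1⟩ := exists_rounds_bound 𝒩 act (fun j => Win n r j 0) (n / r - 1) T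
  choose K2 hK2 using fun ω : Ω => exists_disp_bound act (𝒮.g false ω)
  refine fixed_of_halving act (K1 + ∑ ω, |K2 ω|) fun F hF => ?_
  have hE : 0 ≤ energy Γ F := Finset.sum_nonneg fun μ _ => dd_nonneg _ _ _
  have hT := equi_rounds 𝒩 act (fun j => Win n r j 0) (n / r - 1) hF T
  obtain ⟨ω, hω, hen⟩ := extension act 𝒮 hyp hBR hη' hT
    (e₁ := (2 * n + 1) ^ 2 * (300 * (1 / 2) ^ T * energy Γ F)) (by positivity)
    (far_move act hr0 hn3 (2 * T + 2) hT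
      (fun j hj h hh => contraction 𝒩 act hr.ge hn3 hF T hj hh) hD hD')
  refine ⟨_, fun γ x => ?_, hen.trans ?_, fun x => ?_⟩
  · rw [hω γ x, mul_assoc]
    exact hT γ _
  · have e : (Fintype.card (Mv (Fin n)) : ℝ) = 4 * (n : ℝ) ^ 2 + n := by
      simp only [Fintype.card_sum, Fintype.card_prod, Fintype.card_fin, Fintype.card_bool]
      push_cast
      ring
    rw [e]
    refine le_trans (le_of_eq ?_) (mul_le_mul_of_nonneg_right hc hE)
    ring
  · have h1 := hK1 F hF (x * 𝒮.g false (ω x))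
    have h2 := hK2 (ω x) F hF x
    have h3 : K2 (ω x) ≤ ∑ ω, |K2 ω| := (le_abs_self _).trans
      (Finset.single_le_sum (f := fun ω => |K2 ω|) (fun _ _ => abs_nonneg _) (Finset.mem_univ _))
    have h4 := mul_le_mul_of_nonneg_right h3 (Real.sqrt_nonneg (energy Γ F))
    refine (dist_triangle _ (F (x * 𝒮.g false (ω x))) _).trans ?_
    rw [add_mul]
    exact add_le_add h1 (h2.trans h4)

end Pool.Agent.P.MP_2d26dd_al
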