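import Pool.Agent.P.MP_2d26dd_al.L6
import Pool.Agent.P.MP_2d26dd_al.X6
import Pool.Agent.P.MP_2d26dd_al.GP4

/-! The descent. -/

namespace Pool.Agent.P.MP_2d26dd_al

theorem l7_mem {ι : Type} {Γ : Subgroup (AutF ι)} {G : Type} [Group G] {ρ : Γ →* G} {x : AutF ι}
    {B : Finset ι} {g : G} : g ∈ blockIm ρ x B ↔
      ∃ h ∈ H B, ∃ hγ : x * h * x⁻¹ ∈ Γ, ρ ⟨x * h * x⁻¹, hγ⟩ = g := by
  constructor
  · rintro ⟨⟨γ, hγ⟩, hm, rfl⟩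
    obtain ⟨h, hh, e⟩ := Subgroup.mem_subgroupOf.1 hm
    have e' : x * h * x⁻¹ = γ := e
    subst e'
    exact ⟨h, hh, hγ, rfl⟩
  · rintro ⟨h, hh, hγ, rfl⟩
    exact ⟨⟨_, hγ⟩, Subgroup.mem_subgroupOf.2 ⟨h, hh, rfl⟩, rfl⟩

theorem block_transport {ι : Type} [DecidableEq ι] {Γ : Subgroup (AutF ι)} [Γ.Normal]
    [Γ.FiniteIndex] {G : Type} [Group G] (ρ : Γ →* G) (x : AutF ι) (B : Finset ι) :
    ∃ (Γ' : Subgroup (AutF (Fin B.card))) (_ : Γ'.Normal) (_ : Γ'.FiniteIndex) (ρ' : Γ' →* G),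
      ρ'.range = blockIm ρ x B := by
  let e : Fin B.card ↪ ι := B.equivFin.symm.toEmbedding.trans (Function.Embedding.subtype _)
  have he : Finset.univ.map e = B := by
    ext i
    rw [Finset.mem_map]
    constructor
    · rintro ⟨k, -, rfl⟩
      exact (B.equivFin.symm k).2
    · intro hi
      exact ⟨B.equivFin ⟨i, hi⟩, Finset.mem_univ _, by simp [e]⟩
  obtain ⟨E, hE, -⟩ := exists_ext e
  rw [he] at hE
  let F : AutF (Fin B.card) →* AutF ι := (MulAut.conj x).toMonoidHom.comp E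
  refine ⟨Γ.comap F, inferInstance, ⟨?_⟩, ρ.comp (F.subgroupComap Γ), ?_⟩
  · rw [Subgroup.index_comap]
    exact Subgroup.FiniteIndex.index_ne_zero (H := Γ.subgroupOf F.range)
  · ext g
    rw [l7_mem]
    constructor
    · rintro ⟨⟨γ, hγ⟩, rfl⟩
      exact ⟨E γ, hE ▸ ⟨γ, rfl⟩, hγ, rfl⟩
    · rintro ⟨h, hh, hγ, rfl⟩
      rw [← hE] at hh
      obtain ⟨γ, rfl⟩ := hh
      exact ⟨⟨γ, hγ⟩, rfl⟩

theorem null_iff {ι : Type} {Γ : Subgroup (AutF ι)} {G : Type} [Group G] (ρ : Γ →* G)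
    (x : AutF ι) (B : Finset ι) : Null ρ x B ↔ blockIm ρ x B = ⊥ := by
  rw [eq_bot_iff]
  constructor
  · intro h g hg
    obtain ⟨φ, hφ, hγ, rfl⟩ := l7_mem.1 hg
    exact h φ hφ hγ
  · intro h φ hφ hγ
    exact h (l7_mem.2 ⟨φ, hφ, hγ, rfl⟩)

theorem two_bad (m : ℕ) : ∃ n₀ : ℕ, ∀ n ≥ n₀, ∃ R : ℕ, m ≤ R ∧ R + 3 ≤ n ∧
    ∀ (Γ : Subgroup (AutF (Fin n))) [Γ.Normal] [Γ.FiniteIndex] (N : ℕ) (ρ : Γ →* GL (Fin N) ℤ),
      (∀ γ, Lev3 (ρ γ)) →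
      (∀ x x' B, B.card = R → Disj B x x' → Null ρ x B ∨ Null ρ x' B) → ∀ γ, ρ γ = 1 := by
  obtain ⟨n₀, h⟩ := fixed_point m
  refine ⟨n₀, fun n hn => ?_⟩
  obtain ⟨R, h1, h2, h3⟩ := h n hn
  refine ⟨R, h1, h2, fun Γ _ _ N ρ hl hn γ => ?_⟩
  obtain ⟨X, _, _, _, S, act, hact⟩ := exists_space N
  have key : ∀ x B, Null ρ x B → Null (act.comp ρ) x B := fun x B h0 φ hφ hγ => by
    rw [MonoidHom.comp_apply, h0 φ hφ hγ, map_one]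
  obtain ⟨p, hp⟩ := h3 Γ X _ S (act.comp ρ) fun x x' B hB hD =>
    (hn x x' B hB hD).imp (key x B) (key x' B)
  exact eq_one_of_finOrder (hl γ) (hact _ p (hp γ))

theorem l7_step (N d : ℕ) : ∃ n₀ : ℕ, ∀ n ≥ n₀, ∀ (Γ : Subgroup (AutF (Fin n))) [Γ.Normal]
    [Γ.FiniteIndex] (ρ : Γ →* GL (Fin N) ℤ), (∀ γ, Lev3 (ρ γ)) → ¬ (∀ γ, ρ γ = 1) →
      d ≤ del ρ.range := by
  induction d with
  | zero => exact ⟨0, fun _ _ _ _ _ _ _ _ => Nat.zero_le _⟩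
  | succ d ih =>
    obtain ⟨a, ha⟩ := ih
    obtain ⟨b, hb⟩ := two_bad a
    refine ⟨max b 303, fun n hn Γ _ _ ρ h3 hne => ?_⟩
    obtain ⟨R, hR, hRn, h⟩ := hb n (le_of_max_le_left hn)
    by_contra hd
    refine hne (h Γ N ρ h3 fun x x' B hB hD => ?_)
    by_contra hc
    have key : ∀ y, ¬ Null ρ y B → del ρ.range ≤ del (blockIm ρ y B) := by
      intro y hy
      obtain ⟨Γ', _, _, ρ', e⟩ := block_transport ρ y B
      have h1 := ha B.card (by omega) Γ' ρ' (fun γ => by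
        obtain ⟨_, _, _, e1⟩ := l7_mem.1 (e.le (⟨γ, rfl⟩ : ρ' γ ∈ ρ'.range))
        rw [← e1]
        exact h3 _) fun h0 => hy ((null_iff ρ y B).2 (by
          rw [← e, eq_bot_iff]
          rintro _ ⟨γ, rfl⟩
          exact h0 γ))
      rw [e] at h1
      omega
    exact hne (not_both_full ρ (by rw [Fintype.card_fin]; exact le_of_max_le_right hn) h3
      (by rw [Fintype.card_fin]; omega) hD (key x fun h0 => hc (Or.inl h0))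
      (key x' fun h0 => hc (Or.inr h0)))

theorem linear (N : ℕ) : ∃ n₀ : ℕ, ∀ n ≥ n₀, ∀ (Γ : Subgroup (AutF (Fin n))) [Γ.Normal]
    [Γ.FiniteIndex] (ρ : Γ →* GL (Fin N) ℤ), (∀ γ, Lev3 (ρ γ)) → ∀ γ, ρ γ = 1 := by
  obtain ⟨n₀, h⟩ := l7_step N (N ^ 2 + 1)
  refine ⟨n₀, fun n hn Γ _ _ ρ h3 => ?_⟩
  by_contra hne
  have h1 := h n hn Γ ρ h3 hne
  have h2 := del_le ρ.range
  omega

end Pool.Agent.P.MP_2d26dd_al
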