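import Pool.Agent.P.MP_2d26dd_al.Basic

/-! Enveloping algebras and the trace form. -/

namespace Pool.Agent.P.MP_2d26dd_al

variable {N : ℕ}

/-- Rational matrices. -/
abbrev MQ (N : ℕ) : Type := Matrix (Fin N) (Fin N) ℚ

/-- An integral invertible matrix as a rational matrix. -/
def toQ (g : GL (Fin N) ℤ) : MQ N := (g : Matrix (Fin N) (Fin N) ℤ).map (Int.cast : ℤ → ℚ)

/-- An integral invertible matrix as a complex matrix. -/
def toC (g : GL (Fin N) ℤ) : Matrix (Fin N) (Fin N) ℂ :=
  (g : Matrix (Fin N) (Fin N) ℤ).map (Int.cast : ℤ → ℂ)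

/-- Unipotent matrices. -/
def Unip (g : GL (Fin N) ℤ) : Prop := IsNilpotent (toQ g - 1)

/-- Sum of the squares of the logarithms of the moduli of the eigenvalues. -/
noncomputable def lg (g : GL (Fin N) ℤ) : ℝ :=
  ((toC g).charpoly.roots.map fun z => Real.log ‖z‖ ^ 2).sum

/-- The linear span of a group of matrices. -/
def env (L : Subgroup (GL (Fin N) ℤ)) : Submodule ℚ (MQ N) := Submodule.span ℚ (toQ '' L)

/-- The kernel of the trace form. -/
def rad (A : Submodule ℚ (MQ N)) : Submodule ℚ (MQ N) where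
  carrier := {a | a ∈ A ∧ ∀ b ∈ A, Matrix.trace (a * b) = 0}
  add_mem' := fun ha hb => ⟨A.add_mem ha.1 hb.1, fun c hc => by
    rw [add_mul, Matrix.trace_add, ha.2 c hc, hb.2 c hc, add_zero]⟩
  zero_mem' := ⟨A.zero_mem, fun _ _ => by simp⟩
  smul_mem' := fun c a ha => ⟨A.smul_mem c ha.1, fun b hb => by
    rw [smul_mul_assoc, Matrix.trace_smul, ha.2 b hb, smul_zero]⟩

/-- The rank of the trace form on the span of a group. -/
noncomputable def del (L : Subgroup (GL (Fin N) ℤ)) : ℕ :=
  Module.finrank ℚ (env L) - Module.finrank ℚ (rad (env L))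

/-- The image of the block `(x, B)`. -/
def blockIm {ι : Type} {Γ : Subgroup (AutF ι)} {G : Type} [Group G] (ρ : Γ →* G) (x : AutF ι)
    (B : Finset ι) : Subgroup G :=
  (((H B).map (MulAut.conj x).toMonoidHom).subgroupOf Γ).map ρ

/-- One-sided multiplication of the letter `t` by `w`. -/
def srep {ι : Type} [DecidableEq ι] (t : ι) (d : Bool) (w : FreeGroup ι) : AutF ι :=
  if d then rep t 1 w else rep t w 1

end Pool.Agent.P.MP_2d26dd_al
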