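import Pool.Agent.P.MP_2d26dd_al.MDefs

/-! The action on the homology of the closed surface. -/

namespace Pool.Agent.P.MP_2d26dd_al

variable {g p : ℕ} {G : Type} [Group G]

namespace M1

section General

variable {π : Type} [Group π] {A : Type} [AddCommGroup A]

theorem add_one {f : π → A} (hf : IsAdd f) : f 1 = 0 := by
  have := hf 1 1
  rw [mul_one] at this
  exact left_eq_add.1 this

theorem add_inv {f : π → A} (hf : IsAdd f) (x : π) : f x⁻¹ = -f x := by
  have := hf x x⁻¹
  rw [mul_inv_cancel, add_one hf] at this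
  exact eq_neg_of_add_eq_zero_right this.symm

theorem add_conj {f : π → A} (hf : IsAdd f) (c x : π) : f (c * x * c⁻¹) = f x := by
  rw [hf, hf, add_inv hf]
  abel

theorem add_isConj {f : π → A} (hf : IsAdd f) {x y : π} (h : IsConj x y) : f x = f y := by
  obtain ⟨c, rfl⟩ := isConj_iff.1 h
  exact (add_conj hf c x).symm

theorem isConj_of_mk_eq {α β : MulAut π}
    (h : (QuotientGroup.mk α : Out π) = QuotientGroup.mk β) (x : π) : IsConj (α x) (β x) := by
  obtain ⟨c, hc⟩ := QuotientGroup.eq.1 h
  have e : β = α * MulAut.conj c := by rw [hc]; group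
  rw [e]
  refine isConj_iff.2 ⟨α c, ?_⟩
  simp [MulAut.conj_apply]

end General

theorem add_ext {A : Type} [AddCommGroup A] {f f' : SurfGroup g p → A} (hf : IsAdd f)
    (hf' : IsAdd f') (h : ∀ i : Gen g p, f (PresentedGroup.of i) = f' (PresentedGroup.of i))
    (x : SurfGroup g p) : f x = f' x := by
  have hx : x ∈ Subgroup.closure (Set.range (PresentedGroup.of : Gen g p → SurfGroup g p)) := by
    rw [PresentedGroup.closure_range_of]; trivial
  induction hx using Subgroup.closure_induction with
  | mem y hy => obtain ⟨i, rfl⟩ := hy; exact h i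
  | one => rw [add_one hf, add_one hf']
  | mul a b _ _ ha hb => rw [hf, hf', ha, hb]
  | inv a _ ha => rw [add_inv hf, add_inv hf', ha]

/-- Values of the homology class on the generators. -/
def chiGen (g p : ℕ) : Gen g p → Multiplicative (Fin g × Bool → ℤ)
  | Sum.inl x => Multiplicative.ofAdd (Pi.single x 1)
  | Sum.inr _ => 1

theorem chi_rel (g p : ℕ) : ∀ r ∈ ({surfRel g p} : Set (FreeGroup (Gen g p))),
    FreeGroup.lift (chiGen g p) r = 1 := by
  intro r hr
  rw [Set.mem_singleton_iff.1 hr, surfRel, map_mul, map_list_prod, map_list_prod,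
    List.prod_eq_one, List.prod_eq_one, mul_one]
  · intro x hx
    simp only [List.map_ofFn, List.mem_ofFn] at hx
    obtain ⟨j, rfl⟩ := hx
    simp [chiGen]
  · intro x hx
    simp only [List.map_ofFn, List.mem_ofFn] at hx
    obtain ⟨j, rfl⟩ := hx
    simp only [Function.comp, map_mul, map_inv]
    rw [mul_comm (FreeGroup.lift (chiGen g p) (FreeGroup.of (Sum.inl (j, false))))]
    group

/-- The homology class in the closed surface. -/
def chi (x : SurfGroup g p) : Fin g × Bool → ℤ :=
  Multiplicative.toAdd (PresentedGroup.toGroup (chi_rel g p) x)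

theorem chi_add : IsAdd (chi : SurfGroup g p → Fin g × Bool → ℤ) := fun a b => by
  simp [chi]

theorem chi_inl (x : Fin g × Bool) :
    chi (PresentedGroup.of (Sum.inl x) : SurfGroup g p) = Pi.single x 1 := by
  simp [chi, chiGen]

theorem chi_per (j : Fin p) : chi (per j : SurfGroup g p) = 0 := by
  simp [chi, chiGen, per]

/-- Peripheral automorphisms. -/
def PerA (α : MulAut (SurfGroup g p)) : Prop :=
  ∀ j : Fin p, ∃ k : Fin p, IsConj (α (per j)) (per k) ∨ IsConj (α (per j)) (per k)⁻¹

theorem perA_of {o : Out (SurfGroup g p)} (h : Periph o) {α : MulAut (SurfGroup g p)}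
    (hα : QuotientGroup.mk α = o) : PerA α := by
  obtain ⟨β, hβ, h⟩ := h
  intro j
  obtain ⟨k, hk⟩ := h j
  have := isConj_of_mk_eq (hα.trans hβ.symm) (per j)
  exact ⟨k, hk.imp this.trans this.trans⟩

/-- The matrix of an automorphism on the homology. -/
def mat (α : MulAut (SurfGroup g p)) : Matrix (Fin g × Bool) (Fin g × Bool) ℤ :=
  Matrix.of fun i k => chi (α (PresentedGroup.of (Sum.inl k))) i

theorem chi_apply {α : MulAut (SurfGroup g p)} (h : PerA α) (x : SurfGroup g p) :
    chi (α x) = (mat α).mulVec (chi x) := by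
  refine add_ext (f := fun x => chi (α x)) (f' := fun x => (mat α).mulVec (chi x)) ?_ ?_ ?_ x
  · intro a b
    simp only [map_mul]
    exact chi_add _ _
  · intro a b
    simp only [chi_add a b, Matrix.mulVec_add]
  · rintro (i | j)
    · simp only [chi_inl, Matrix.mulVec_single_one]
      rfl
    · show chi (α (per j)) = (mat α).mulVec (chi (per j))
      rw [chi_per, Matrix.mulVec_zero]
      obtain ⟨k, hk | hk⟩ := h j
      · rw [add_isConj chi_add hk, chi_per]
      · rw [add_isConj chi_add hk, add_inv chi_add, chi_per, neg_zero]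

theorem mat_congr {α β : MulAut (SurfGroup g p)}
    (h : (QuotientGroup.mk α : Out (SurfGroup g p)) = QuotientGroup.mk β) : mat α = mat β := by
  ext i k
  simp only [mat, Matrix.of_apply]
  rw [add_isConj chi_add (isConj_of_mk_eq h _)]

theorem mat_one : mat (1 : MulAut (SurfGroup g p)) = 1 := by
  ext i k
  simp only [mat, Matrix.of_apply, MulAut.one_apply, chi_inl, Matrix.one_apply, Pi.single_apply]

theorem mat_mul {α : MulAut (SurfGroup g p)} (h : PerA α) (β : MulAut (SurfGroup g p)) :
    mat (α * β) = mat α * mat β := by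
  ext i k
  simp only [mat, Matrix.of_apply, MulAut.mul_apply]
  rw [chi_apply h]
  rfl

theorem add_eq_sum {f : SurfGroup g p → ℚ} (hf : IsAdd f) (h0 : ∀ j, f (per j) = 0)
    (x : SurfGroup g p) :
    f x = ∑ i, f (PresentedGroup.of (Sum.inl i)) * (chi x i : ℚ) := by
  refine add_ext (f' := fun x => ∑ i, f (PresentedGroup.of (Sum.inl i)) * (chi x i : ℚ)) hf ?_ ?_ x
  · intro a b
    simp only [chi_add a b, Pi.add_apply, Int.cast_add, mul_add, Finset.sum_add_distrib]
  · rintro (i | j)
    · simp [chi_inl, Pi.single_apply]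
    · show f (per j) = ∑ i, f (PresentedGroup.of (Sum.inl i)) * (chi (per j) i : ℚ)
      simp [h0, chi_per]

theorem mat_eq_one_iff {α : MulAut (SurfGroup g p)} (h : PerA α) :
    mat α = 1 ↔ ∀ f : SurfGroup g p → ℚ, IsAdd f → (∀ j, f (per j) = 0) → ∀ x, f (α x) = f x := by
  constructor
  · intro hm f hf h0 x
    rw [add_eq_sum hf h0 (α x), add_eq_sum hf h0 x, chi_apply h, hm, Matrix.one_mulVec]
  · intro hf
    ext i k
    have := hf (fun x => (chi x i : ℚ)) (fun a b => by simp [chi_add a b])
      (fun j => by simp [chi_per]) (PresentedGroup.of (Sum.inl k))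
    have h2 : chi (α (PresentedGroup.of (Sum.inl k))) i =
        chi (PresentedGroup.of (Sum.inl k) : SurfGroup g p) i := by exact_mod_cast this
    simp only [mat, Matrix.of_apply, h2, chi_inl, Matrix.one_apply, Pi.single_apply]

end M1

open M1

theorem exists_homology (φ : G →* Out (SurfGroup g p)) (h : ∀ γ, Periph (φ γ)) :
    ∃ ρ : G →* GL (Fin (2 * g)) ℤ, ∀ γ, ∀ α : MulAut (SurfGroup g p),
      QuotientGroup.mk α = φ γ →
      (ρ γ = 1 ↔ ∀ f : SurfGroup g p → ℚ, IsAdd f → (∀ j, f (per j) = 0) → ∀ x, f (α x) = f x) := by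
  have e : Fin g × Bool ≃ Fin (2 * g) := Fintype.equivFinOfCardEq (by simp [mul_comm])
  choose a ha using fun γ => QuotientGroup.mk_surjective (φ γ)
  let m : G →* Matrix (Fin g × Bool) (Fin g × Bool) ℤ :=
    { toFun := fun γ => mat (a γ)
      map_one' := by
        rw [← mat_one (g := g) (p := p)]
        exact mat_congr (by rw [ha, map_one, QuotientGroup.mk_one])
      map_mul' := fun γ δ => by
        rw [← mat_mul (perA_of (h γ) (ha γ))]
        exact mat_congr (by rw [ha, map_mul, QuotientGroup.mk_mul, ha, ha]) }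
  let r := Matrix.reindexAlgEquiv ℤ ℤ e
  let m' : G →* Matrix (Fin (2 * g)) (Fin (2 * g)) ℤ := (r.toMulEquiv.toMonoidHom).comp m
  refine ⟨m'.toHomUnits, fun γ α hα => ?_⟩
  rw [← mat_eq_one_iff (perA_of (h γ) hα), mat_congr (hα.trans (ha γ).symm), Units.ext_iff]
  show r (mat (a γ)) = 1 ↔ _
  exact map_eq_one_iff r r.injective

theorem exists_pure (φ : G →* Out (SurfGroup g p)) (h : ∀ γ, Periph (φ γ)) :
    ∃ L : Subgroup G, L.FiniteIndex ∧ ∀ γ ∈ L, ∀ α : MulAut (SurfGroup g p),
      QuotientGroup.mk α = φ γ → ∀ j, IsConj (α (per j)) (per j) := by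
  choose a ha using fun γ => QuotientGroup.mk_surjective (φ γ)
  have hmk : ∀ (γ : G) (x : SurfGroup g p),
      ConjClasses.map (a γ).toMonoidHom (ConjClasses.mk x) = ConjClasses.mk (a γ x) :=
    fun _ _ => rfl
  let _ : MulAction G (ConjClasses (SurfGroup g p)) :=
    { smul := fun γ c => ConjClasses.map (a γ).toMonoidHom c
      one_smul := fun c => by
        obtain ⟨x, rfl⟩ := ConjClasses.mk_surjective c
        show ConjClasses.mk (a 1 x) = ConjClasses.mk x
        refine ConjClasses.mk_eq_mk_iff_isConj.2 ?_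
        exact isConj_of_mk_eq (β := 1) (by rw [ha, map_one, QuotientGroup.mk_one]) x
      mul_smul := fun γ δ c => by
        obtain ⟨x, rfl⟩ := ConjClasses.mk_surjective c
        show ConjClasses.mk (a (γ * δ) x) = ConjClasses.mk (a γ (a δ x))
        refine ConjClasses.mk_eq_mk_iff_isConj.2 ?_
        exact isConj_of_mk_eq (β := a γ * a δ)
          (by rw [ha, map_mul, QuotientGroup.mk_mul, ha, ha]) x }
  have hs : ∀ (γ : G) (x : SurfGroup g p), γ • ConjClasses.mk x = ConjClasses.mk (a γ x) :=
    fun _ _ => rfl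
  have hfin : ∀ j : Fin p,
      (MulAction.stabilizer G (ConjClasses.mk (per j : SurfGroup g p))).FiniteIndex := by
    intro j
    have hf : (MulAction.orbit G (ConjClasses.mk (per j : SurfGroup g p))).Finite := by
      refine ((Set.finite_range fun k : Fin p => ConjClasses.mk (per k : SurfGroup g p)).union
        (Set.finite_range fun k : Fin p => ConjClasses.mk (per k : SurfGroup g p)⁻¹)).subset ?_
      rintro _ ⟨γ, rfl⟩
      obtain ⟨k, hk | hk⟩ := perA_of (h γ) (ha γ) j
      · exact Or.inl ⟨k, (ConjClasses.mk_eq_mk_iff_isConj.2 hk).symm⟩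
      · exact Or.inr ⟨k, (ConjClasses.mk_eq_mk_iff_isConj.2 hk).symm⟩
    have := hf.to_subtype
    have : Finite (G ⧸ MulAction.stabilizer G (ConjClasses.mk (per j : SurfGroup g p))) :=
      Finite.of_equiv _ (MulAction.orbitEquivQuotientStabilizer G _)
    exact Subgroup.finiteIndex_of_finite_quotient
  refine ⟨⨅ j : Fin p, MulAction.stabilizer G (ConjClasses.mk (per j : SurfGroup g p)),
    Subgroup.finiteIndex_iInf hfin, fun γ hγ α hα j => ?_⟩
  have h1 := Subgroup.mem_iInf.1 hγ j
  rw [MulAction.mem_stabilizer_iff, hs] at h1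
  exact (isConj_of_mk_eq (hα.trans (ha γ).symm) _).trans (ConjClasses.mk_eq_mk_iff_isConj.1 h1)

theorem addInv_of_pure (hG : NoHom G) (φ : G →* Out (SurfGroup g p))
    (h1 : ∀ γ, ∀ α : MulAut (SurfGroup g p), QuotientGroup.mk α = φ γ →
      ∀ j, IsConj (α (per j)) (per j))
    (h2 : ∀ γ, ∀ α : MulAut (SurfGroup g p), QuotientGroup.mk α = φ γ →
      ∀ f : SurfGroup g p → ℚ, IsAdd f → (∀ j, f (per j) = 0) → ∀ x, f (α x) = f x)
    (γ : G) (α : MulAut (SurfGroup g p)) (hα : QuotientGroup.mk α = φ γ) : AddInv α := by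
  choose a ha using fun γ => QuotientGroup.mk_surjective (φ γ)
  intro f hf x
  have key : ∀ δ ε : G, f (a (δ * ε) x) - f x = (f (a δ x) - f x) + (f (a ε x) - f x) := by
    intro δ ε
    have e1 : f (a (δ * ε) x) = f (a δ (a ε x)) :=
      add_isConj hf (isConj_of_mk_eq (β := a δ * a ε)
        (by rw [ha, map_mul, QuotientGroup.mk_mul, ha, ha]) x)
    have e2 := h2 ε (a ε) (ha ε) (fun y => f (a δ y) - f y)
      (fun u v => by simp only [map_mul, hf (a δ u), hf u]; ring)
      (fun j => by rw [add_isConj hf (h1 δ (a δ) (ha δ) j), sub_self]) x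
    rw [e1]
    linarith
  have := hG (fun δ => ((f (a δ x) - f x : ℚ) : ℝ)) (fun δ ε => by rw [key]; push_cast; ring) γ
  have h3 : f (a γ x) - f x = 0 := by exact_mod_cast this
  rw [add_isConj hf (isConj_of_mk_eq (hα.trans (ha γ).symm) x)]
  linarith

end Pool.Agent.P.MP_2d26dd_al
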