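import Pool.Agent.P.MP_2d26dd_al.MDefs

/-! Class functions modulo powers of the augmentation ideal. -/

namespace Pool.Agent.P.MP_2d26dd_al

namespace M3

variable {π : Type} [Group π]

/-- Difference operator. -/
def df (g : π) (f : π → ℚ) : π → ℚ := fun x => f (x * g) - f x

/-- Iterated difference. -/
def dl : List π → (π → ℚ) → (π → ℚ)
  | [], f => f
  | g :: l, f => dl l (df g f)

theorem df_add (g : π) (f f' : π → ℚ) : df g (f + f') = df g f + df g f' := by
  funext x; simp only [df, Pi.add_apply]; ring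

theorem df_sub (g : π) (f f' : π → ℚ) : df g (f - f') = df g f - df g f' := by
  funext x; simp only [df, Pi.sub_apply]; ring

theorem dl_add (l : List π) : ∀ f f' : π → ℚ, dl l (f + f') = dl l f + dl l f' := by
  induction l with
  | nil => intro f f'; rfl
  | cons g l ih => intro f f'; simp only [dl, df_add, ih]

theorem dl_sub (l : List π) : ∀ f f' : π → ℚ, dl l (f - f') = dl l f - dl l f' := by
  induction l with
  | nil => intro f f'; rfl
  | cons g l ih => intro f f'; simp only [dl, df_sub, ih]

/-- Polynomial functions of degree less than `k`. -/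
def Deg (k : ℕ) (f : π → ℚ) : Prop := ∀ l : List π, l.length = k → dl l f = 0

theorem deg_zero {f : π → ℚ} : Deg 0 f ↔ f = 0 := by
  constructor
  · intro h; exact h [] rfl
  · intro h l hl
    rw [List.length_eq_zero_iff.mp hl]; exact h

theorem deg_succ {k : ℕ} {f : π → ℚ} : Deg (k + 1) f ↔ ∀ g, Deg k (df g f) := by
  constructor
  · intro h g l hl
    exact h (g :: l) (by simp [hl])
  · intro h l hl
    cases l with
    | nil => simp at hl
    | cons g l => exact h g l (by simpa using hl)

theorem Deg.add {k : ℕ} {f f' : π → ℚ} (h : Deg k f) (h' : Deg k f') : Deg k (f + f') := by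
  intro l hl; rw [dl_add, h l hl, h' l hl, add_zero]

theorem df_mul (g h : π) (f : π → ℚ) : df (g * h) f = df g (df h f) + df h f + df g f := by
  funext x; simp only [df, Pi.add_apply, mul_assoc]; ring

theorem deg_df_sub {α : MulAut π} (hα : AddInv α) {k : ℕ} {f : π → ℚ} (hf : Deg (k + 2) f)
    (g : π) : Deg k (df (α g) f - df g f) := by
  intro l hl
  funext x
  have hadd : IsAdd (fun g => dl l (df g f) x) := by
    intro a b
    have h0 : dl l (df a (df b f)) = 0 := (deg_succ.mp (deg_succ.mp hf b) a) l hl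
    simp only [df_mul, dl_add, h0, Pi.add_apply, Pi.zero_apply]
    ring
  have := hα _ hadd g
  rw [dl_sub]
  simp only [Pi.sub_apply, Pi.zero_apply]
  rw [this, sub_self]

theorem deg_comp_sub {α : MulAut π} (hα : AddInv α) (k : ℕ) :
    ∀ f : π → ℚ, Deg (k + 1) f → Deg k ((fun x => f (α x)) - f) := by
  induction k with
  | zero =>
    intro f hf
    rw [deg_zero]
    have hc : ∀ x, f x = f 1 := by
      intro x
      have := congrFun (deg_zero.mp (deg_succ.mp hf x)) 1
      simp only [df, one_mul, Pi.zero_apply] at this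
      linarith
    funext x
    simp only [Pi.sub_apply, Pi.zero_apply]
    rw [hc (α x), hc x, sub_self]
  | succ k ih =>
    intro f hf
    rw [deg_succ]
    intro g
    have e : df g ((fun x => f (α x)) - f) =
        ((fun x => df (α g) f (α x)) - df (α g) f) + (df (α g) f - df g f) := by
      funext x
      simp only [df, Pi.sub_apply, Pi.add_apply, map_mul]
      ring
    rw [e]
    exact (ih _ (deg_succ.mp hf (α g))).add (deg_df_sub hα hf g)

/-- Class functions. -/
def Cl (f : π → ℚ) : Prop := ∀ c x, f (c * x * c⁻¹) = f x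

theorem cl_indep {f : π → ℚ} (hf : Cl f) {α β : MulAut π}
    (h : (QuotientGroup.mk α : Out π) = QuotientGroup.mk β) (x : π) : f (α x) = f (β x) := by
  obtain ⟨c, hc⟩ := QuotientGroup.eq.mp h
  have : β x = α c * α x * (α c)⁻¹ := by
    have h1 : β = α * MulAut.conj c := by rw [hc]; group
    rw [h1]
    simp [MulAut.conj_apply]
  rw [this, hf]

theorem inv_of_deg {G : Type} [Group G] (hG : NoHom G) (φ : G →* Out π)
    (h : ∀ γ, ∀ α : MulAut π, QuotientGroup.mk α = φ γ → AddInv α) (k : ℕ) :
    ∀ f : π → ℚ, Cl f → Deg k f → ∀ γ, ∀ α : MulAut π, QuotientGroup.mk α = φ γ →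
      ∀ x, f (α x) = f x := by
  induction k with
  | zero =>
    intro f _ hf γ α _ x
    rw [deg_zero.mp hf]; rfl
  | succ k ih =>
    intro f hc hf γ α hα x
    choose r hr using fun γ : G => QuotientGroup.mk_surjective (φ γ)
    have key := hG (fun γ => ((f (r γ x) - f x : ℚ) : ℝ)) (by
      intro a b
      have h1 : f (r (a * b) x) = f ((r a * r b) x) :=
        cl_indep hc (by rw [hr, QuotientGroup.mk_mul, hr, hr, map_mul]) x
      have h2 := ih ((fun x => f (r a x)) - f) (by
        intro c y
        simp only [Pi.sub_apply, map_mul, map_inv]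
        rw [hc, hc]) (deg_comp_sub (h a (r a) (hr a)) k f hf) b (r b) (hr b) x
      simp only [Pi.sub_apply] at h2
      rw [h1, MulAut.mul_apply]
      have h3 : f (r a (r b x)) - f x = (f (r a x) - f x) + (f (r b x) - f x) := by linarith
      rw [h3]; push_cast; ring) γ
    have h4 : f (r γ x) - f x = 0 := by exact_mod_cast key
    rw [cl_indep hc (hα.trans (hr γ).symm) x]
    linarith

theorem deg_trace {R : Type} [CommRing R] [Algebra ℚ R] (𝔪 : Ideal R)
    (θ : π →* GL (Fin 2) R) (hθ : ∀ x i j, ((θ x : Matrix (Fin 2) (Fin 2) R) - 1) i j ∈ 𝔪)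
    (lam : R →ₗ[ℚ] ℚ) (n : ℕ) (hl : ∀ r ∈ 𝔪 ^ n, lam r = 0) (k : ℕ) :
    ∀ (j : ℕ) (M : Matrix (Fin 2) (Fin 2) R), j + k = n → (∀ a b, M a b ∈ 𝔪 ^ j) →
      Deg k (fun x => lam (Matrix.trace ((θ x : Matrix (Fin 2) (Fin 2) R) * M))) := by
  induction k with
  | zero =>
    intro j M hj hM
    rw [deg_zero]
    funext x
    apply hl
    rw [← hj, add_zero]
    simp only [Matrix.trace, Matrix.diag, Matrix.mul_apply]
    exact Ideal.sum_mem _ fun a _ => Ideal.sum_mem _ fun b _ => Ideal.mul_mem_left _ _ (hM b a)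
  | succ k ih =>
    intro j M hj hM
    rw [deg_succ]
    intro g
    have e : df g (fun x => lam (Matrix.trace ((θ x : Matrix (Fin 2) (Fin 2) R) * M))) =
        fun x => lam (Matrix.trace ((θ x : Matrix (Fin 2) (Fin 2) R) *
          (((θ g : Matrix (Fin 2) (Fin 2) R) - 1) * M))) := by
      funext x
      simp only [df]
      rw [← map_sub, ← Matrix.trace_sub, map_mul, Units.val_mul]
      congr 2
      noncomm_ring
    rw [e]
    refine ih (j + 1) _ (by omega) fun a b => ?_
    rw [Matrix.mul_apply, pow_succ']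
    exact Ideal.sum_mem _ fun c _ => Ideal.mul_mem_mul (hθ g a c) (hM c b)

end M3

theorem nearInv_of_addInv {π G : Type} [Group π] [Group G] (hG : NoHom G) (φ : G →* Out π)
    (h : ∀ γ, ∀ α : MulAut π, QuotientGroup.mk α = φ γ → AddInv α)
    (γ : G) (α : MulAut π) (hα : QuotientGroup.mk α = φ γ) : NearInv α := by
  intro R _ _ 𝔪 h𝔪 θ hθ x
  rw [← sub_eq_zero, ← Ideal.mem_bot, ← h𝔪, Ideal.mem_iInf]
  intro n
  by_contra hn
  obtain ⟨lam, h1, h2⟩ := Submodule.exists_dual_map_eq_bot_of_notMem
    (p := (𝔪 ^ n).restrictScalars ℚ) hn inferInstance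
  have hl : ∀ r ∈ 𝔪 ^ n, lam r = 0 := by
    intro r hr
    have : lam r ∈ ((𝔪 ^ n).restrictScalars ℚ).map lam := Submodule.mem_map_of_mem hr
    rw [h2] at this
    exact this
  have hd := M3.deg_trace 𝔪 θ hθ lam n hl n 0 1 (zero_add n) (by simp)
  have hc : M3.Cl (fun x => lam (Matrix.trace ((θ x : Matrix (Fin 2) (Fin 2) R) * 1))) := by
    intro c y
    simp only [mul_one, map_mul, Units.val_mul]
    rw [Matrix.trace_mul_cycle, ← Units.val_mul, ← map_mul, inv_mul_cancel, map_one,
      Units.val_one, one_mul]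
  have := M3.inv_of_deg hG φ h n _ hc hd γ α hα x
  simp only [mul_one] at this
  apply h1
  rw [map_sub]
  exact sub_eq_zero.mpr this

end Pool.Agent.P.MP_2d26dd_al
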