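import Pool.Agent.P.MP_2d26dd_al.MDefs

/-! Paths of representations starting at the trivial one. -/

namespace Pool.Agent.P.MP_2d26dd_al

open Polynomial in
/-- Polynomials vanishing neither at zero nor at one. -/
def M4.den (K : Type) [Field K] : Submonoid K[X] where
  carrier := {f | f.eval 0 ≠ 0 ∧ f.eval 1 ≠ 0}
  one_mem' := by simp
  mul_mem' := by
    rintro f g ⟨h1, h2⟩ ⟨k1, k2⟩
    refine ⟨?_, ?_⟩
    · rw [eval_mul]; exact mul_ne_zero h1 k1
    · rw [eval_mul]; exact mul_ne_zero h2 k2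

open Polynomial in
theorem exists_path_ring (K : Type) [Field K] [CharZero K] :
    ∃ (R : Type) (_ : CommRing R) (_ : Algebra ℚ R) (_ : Algebra K R) (ε : R) (ev₀ ev₁ : R →ₐ[K] K),
      ev₀ ε = 0 ∧ ev₁ ε = 1 ∧ (∀ r, ev₀ r ≠ 0 → ev₁ r ≠ 0 → IsUnit r) ∧
      ⨅ k : ℕ, (RingHom.ker ev₀) ^ k = ⊥ := by
  have hle : M4.den K ≤ nonZeroDivisors K[X] := by
    intro f hf
    apply mem_nonZeroDivisors_of_ne_zero
    rintro rfl
    exact hf.1 (by simp)
  have h0 : ∀ y : M4.den K, IsUnit ((aeval (0 : K) : K[X] →ₐ[K] K) y) := by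
    intro y
    have := y.2.1
    simpa [coe_aeval_eq_eval] using this
  have h1 : ∀ y : M4.den K, IsUnit ((aeval (1 : K) : K[X] →ₐ[K] K) y) := by
    intro y
    have := y.2.2
    simpa [coe_aeval_eq_eval] using this
  let R := Localization (M4.den K)
  let ev₀ : R →ₐ[K] K := IsLocalization.liftAlgHom (M := M4.den K) h0
  let ev₁ : R →ₐ[K] K := IsLocalization.liftAlgHom (M := M4.den K) h1
  have e0 : ∀ f : K[X], ev₀ (algebraMap K[X] R f) = f.eval 0 := by
    intro f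
    simp [ev₀, IsLocalization.liftAlgHom_apply, coe_aeval_eq_eval]
  have e1 : ∀ f : K[X], ev₁ (algebraMap K[X] R f) = f.eval 1 := by
    intro f
    simp [ev₁, IsLocalization.liftAlgHom_apply, coe_aeval_eq_eval]
  haveI : IsDomain R := IsLocalization.isDomain_localization hle
  haveI : IsNoetherianRing R := IsLocalization.isNoetherianRing (M4.den K) R inferInstance
  refine ⟨R, inferInstance, inferInstance, inferInstance, algebraMap K[X] R X, ev₀, ev₁, ?_, ?_,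
    ?_, ?_⟩
  · rw [e0]; simp
  · rw [e1]; simp
  · intro r hr0 hr1
    obtain ⟨⟨a, s⟩, hs⟩ := IsLocalization.surj (M4.den K) r
    have hu : IsUnit (algebraMap K[X] R (s : K[X])) := IsLocalization.map_units R s
    have ha : a ∈ M4.den K := by
      refine ⟨?_, ?_⟩
      · rw [← e0, ← hs, map_mul, e0]
        exact mul_ne_zero hr0 s.2.1
      · rw [← e1, ← hs, map_mul, e1]
        exact mul_ne_zero hr1 s.2.2
    have hua : IsUnit (algebraMap K[X] R a) := IsLocalization.map_units R (⟨a, ha⟩ : M4.den K)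
    rw [← hs] at hua
    exact isUnit_of_mul_isUnit_left hua
  · apply Ideal.iInf_pow_eq_bot_of_isDomain
    intro h
    have : (1 : R) ∈ RingHom.ker ev₀ := by rw [h]; trivial
    simp at this

namespace M4

variable {K R : Type} [Field K] [CommRing R] [Algebra K R]

/-- The map induced on general linear groups. -/
noncomputable def gm (ev : R →ₐ[K] K) : GL (Fin 2) R →* GL (Fin 2) K :=
  Matrix.GeneralLinearGroup.map (ev : R →+* K)

theorem gm_coe (ev : R →ₐ[K] K) (g : GL (Fin 2) R) :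
    (gm ev g : Matrix (Fin 2) (Fin 2) K) = (g : Matrix (Fin 2) (Fin 2) R).map ev := rfl

theorem tr_gm (ev : R →ₐ[K] K) (g : GL (Fin 2) R) : tr (gm ev g) = ev (tr g) := by
  simp [tr, gm_coe, Matrix.trace_fin_two]

theorem exists_interp (ε : R) (ev₀ ev₁ : R →ₐ[K] K) (h0 : ev₀ ε = 0) (h1 : ev₁ ε = 1)
    (hu : ∀ r, ev₀ r ≠ 0 → ev₁ r ≠ 0 → IsUnit r) (M : Matrix (Fin 2) (Fin 2) R)
    (g : GL (Fin 2) K) (hg : M.map ev₁ = g) :
    ∃ z : GL (Fin 2) R, (z : Matrix (Fin 2) (Fin 2) R) = (1 - ε) • (1 : Matrix _ _ R) + ε • M ∧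
      gm ev₀ z = 1 ∧ gm ev₁ z = g := by
  set A : Matrix (Fin 2) (Fin 2) R := (1 - ε) • (1 : Matrix _ _ R) + ε • M with hA
  have a0 : A.map ev₀ = 1 := by
    ext i j
    by_cases h : i = j <;> simp [hA, Matrix.one_apply, h, h0]
  have a1 : A.map ev₁ = g := by
    rw [← hg]
    ext i j
    by_cases h : i = j <;> simp [hA, Matrix.one_apply, h, h1]
  have hd : IsUnit A.det := by
    apply hu
    · rw [AlgHom.map_det]
      change (A.map ev₀).det ≠ 0
      rw [a0]; simp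
    · rw [AlgHom.map_det]
      change (A.map ev₁).det ≠ 0
      rw [a1]
      exact Matrix.GeneralLinearGroup.det_ne_zero g
  refine ⟨Matrix.GeneralLinearGroup.mk'' A hd, rfl, ?_, ?_⟩
  · apply Units.ext
    rw [gm_coe]
    exact a0
  · apply Units.ext
    rw [gm_coe]
    exact a1

theorem exists_path {β : Type} (ε : R) (ev₀ ev₁ : R →ₐ[K] K) (h0 : ev₀ ε = 0) (h1 : ev₁ ε = 1)
    (hu : ∀ r, ev₀ r ≠ 0 → ev₁ r ≠ 0 → IsUnit r) (θ : FreeGroup β →* GL (Fin 2) K) :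
    ∃ η : FreeGroup β →* GL (Fin 2) R, (∀ p, gm ev₀ (η p) = 1) ∧ ∀ p, gm ev₁ (η p) = θ p := by
  have key : ∀ y : β, ∃ z : GL (Fin 2) R, gm ev₀ z = 1 ∧ gm ev₁ z = θ (FreeGroup.of y) := by
    intro y
    obtain ⟨z, -, hz⟩ := exists_interp ε ev₀ ev₁ h0 h1 hu
      ((θ (FreeGroup.of y) : Matrix (Fin 2) (Fin 2) K).map (algebraMap K R)) (θ (FreeGroup.of y))
      (by ext i j; simp)
    exact ⟨z, hz⟩
  choose z hz0 hz1 using key
  have k0 : (gm ev₀).comp (FreeGroup.lift z) = 1 := by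
    apply FreeGroup.ext_hom
    intro y
    simp [hz0]
  have k1 : (gm ev₁).comp (FreeGroup.lift z) = θ := by
    apply FreeGroup.ext_hom
    intro y
    simp [hz1]
  exact ⟨FreeGroup.lift z, fun p => DFunLike.congr_fun k0 p, fun p => DFunLike.congr_fun k1 p⟩

theorem tr_eq_of_path {π : Type} [Group π] {α : MulAut π} (h : NearInv α) [Algebra ℚ R]
    (ev₀ ev₁ : R →ₐ[K] K) (hb : ⨅ k : ℕ, (RingHom.ker ev₀) ^ k = ⊥)
    (η : π →* GL (Fin 2) R) (θ : π →* GL (Fin 2) K) (k0 : ∀ p, gm ev₀ (η p) = 1)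
    (k1 : ∀ p, gm ev₁ (η p) = θ p) (x : π) : tr (θ (α x)) = tr (θ x) := by
  have := h R (RingHom.ker ev₀) hb η (by
    intro p i j
    have e := congrArg (fun g : GL (Fin 2) K => (g : Matrix (Fin 2) (Fin 2) K) i j) (k0 p)
    simp only [gm_coe, Matrix.map_apply, Units.val_one] at e
    rw [RingHom.mem_ker, Matrix.sub_apply, map_sub, e]
    by_cases hij : i = j <;> simp [Matrix.one_apply, hij]) x
  rw [← k1, ← k1, tr_gm, tr_gm, this]

end M4

theorem NearInv.free {β : Type} {α : MulAut (FreeGroup β)} (h : NearInv α) (K : Type) [Field K]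
    [CharZero K] (θ : FreeGroup β →* GL (Fin 2) K) (x : FreeGroup β) :
    tr (θ (α x)) = tr (θ x) := by
  obtain ⟨R, _, _, _, ε, ev₀, ev₁, h0, h1, hu, hb⟩ := exists_path_ring K
  obtain ⟨η, k0, k1⟩ := M4.exists_path ε ev₀ ev₁ h0 h1 hu θ
  exact M4.tr_eq_of_path h ev₀ ev₁ hb η θ k0 k1 x

theorem NearInv.fold {π β E : Type} [Group π] (D : Dbl π β E) {α : MulAut π} (h : NearInv α) :
    D.FoldInv α := by
  intro K _ _ θ Z Θ hZ hF x
  obtain ⟨R, _, _, _, ε, ev₀, ev₁, h0, h1, hu, hb⟩ := exists_path_ring K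
  obtain ⟨η, k0, k1⟩ := M4.exists_path ε ev₀ ev₁ h0 h1 hu θ
  have key : ∀ e, ∃ z : GL (Fin 2) R, Commute z (η (D.γ e)) ∧ M4.gm ev₀ z = 1 ∧
      M4.gm ev₁ z = Z e := by
    intro e
    obtain ⟨a, b, hab⟩ := hZ e
    obtain ⟨z, hz, hz'⟩ := M4.exists_interp ε ev₀ ev₁ h0 h1 hu
      (algebraMap K R a • (1 : Matrix (Fin 2) (Fin 2) R) +
        algebraMap K R b • (η (D.γ e) : Matrix (Fin 2) (Fin 2) R)) (Z e) (by
        rw [hab, ← k1, M4.gm_coe]
        ext i j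
        by_cases hij : i = j <;> simp [Matrix.one_apply, hij])
    refine ⟨z, ?_, hz'⟩
    apply Units.ext
    simp only [Units.val_mul, hz, add_mul, mul_add, smul_mul_assoc, mul_smul_comm, one_mul,
      mul_one]
  choose z hc hz0 hz1 using key
  obtain ⟨Ψ, p1, p2, p3⟩ := D.univ (GL (Fin 2) R) η z hc
  have m0 : (M4.gm ev₀).comp Ψ = 1 := by
    apply MonoidHom.eq_of_eqOn_dense D.gen
    rintro y ((⟨p, rfl⟩ | ⟨p, rfl⟩) | ⟨e, rfl⟩)
    · simp [p1, k0]
    · simp [p2, k0, hz0]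
    · simp [p3, hz0]
  have m1 : (M4.gm ev₁).comp Ψ = Θ := by
    apply MonoidHom.eq_of_eqOn_dense D.gen
    rintro y ((⟨p, rfl⟩ | ⟨p, rfl⟩) | ⟨e, rfl⟩)
    · simp [p1, k1, hF.1]
    · simp [p2, k1, hz1, hF.2.1]
    · simp [p3, hz1, hF.2.2]
  exact M4.tr_eq_of_path h ev₀ ev₁ hb Ψ Θ (fun p => DFunLike.congr_fun m0 p)
    (fun p => DFunLike.congr_fun m1 p) x

end Pool.Agent.P.MP_2d26dd_al
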