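import Pool.Agent.P.MP_2d26dd_al.MDefs

/-! The trace detects the cyclic length. -/

namespace Pool.Agent.P.MP_2d26dd_al

variable {β : Type} [DecidableEq β]

section Aux

open FreeGroup hiding map_mul map_one map_inv
open Polynomial

theorem m5_conj (p : FreeGroup β) :
    p = mk (reduceCyclically.conjugator p.toWord) * mk (reduceCyclically p.toWord) *
      (mk (reduceCyclically.conjugator p.toWord))⁻¹ := by
  rw [inv_mk, mul_mk, mul_mk, reduceCyclically.conj_conjugator_reduceCyclically, mk_toWord]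

theorem m5_zero {p : FreeGroup β} : cyc p = 0 ↔ p = 1 := by
  constructor
  · intro h
    have h1 : reduceCyclically p.toWord = [] := List.length_eq_zero_iff.1 h
    have h2 := m5_conj p
    rw [h1, ← one_eq_mk, mul_one, mul_inv_cancel] at h2
    exact h2
  · rintro rfl
    simp [cyc]

section Theta

variable (c : β → ℚ)

/-- image of the leading projector -/
def m5u (a : β × Bool) : Fin 2 → ℚ := if a.2 then ![1, c a.1] else ![1, c a.1 + 1]

/-- linear form of the leading projector -/
def m5v (a : β × Bool) : Fin 2 → ℚ := if a.2 then ![c a.1 + 1, -1] else ![-c a.1, 1]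

/-- the leading projector -/
def m5P (a : β × Bool) : Matrix (Fin 2) (Fin 2) ℚ := Matrix.vecMulVec (m5u c a) (m5v c a)

/-- the constant term -/
def m5C (a : β × Bool) : Matrix (Fin 2) (Fin 2) ℚ :=
  Matrix.vecMulVec (m5u c (a.1, !a.2)) (m5v c a) - Matrix.vecMulVec (m5u c a) (m5v c (a.1, !a.2))

/-- the matrix of a letter -/
noncomputable def m5M (a : β × Bool) : Matrix (Fin 2) (Fin 2) ℚ[X] :=
  fun i j => C (m5P c a i j) * X + C (m5C c a i j)

omit [DecidableEq β] in
theorem m5M_true (i : β) : m5M c (i, true) =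
    !![(C (c i) + 1) * X + (2 * C (c i) + 1), -X - 2;
      C (c i) * (C (c i) + 1) * X + ((C (c i) + 1) ^ 2 + C (c i) ^ 2),
      -(C (c i) * X) - (2 * C (c i) + 1)] := by
  ext1 a b
  fin_cases a <;> fin_cases b <;>
    simp [m5M, m5P, m5C, m5u, m5v, Matrix.vecMulVec_apply] <;> ring

omit [DecidableEq β] in
theorem m5M_false (i : β) : m5M c (i, false) =
    !![-(C (c i) * X) - (2 * C (c i) + 1), X + 2;
      -(C (c i) * (C (c i) + 1) * X) - ((C (c i) + 1) ^ 2 + C (c i) ^ 2),
      (C (c i) + 1) * X + (2 * C (c i) + 1)] := by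
  ext1 a b
  fin_cases a <;> fin_cases b <;>
    simp [m5M, m5P, m5C, m5u, m5v, Matrix.vecMulVec_apply] <;> ring

/-- the invertible matrix of a generator -/
noncomputable def m5G (i : β) : GL (Fin 2) ℚ[X] where
  val := m5M c (i, true)
  inv := m5M c (i, false)
  val_inv := by
    rw [m5M_true, m5M_false]
    ext1 a b
    fin_cases a <;> fin_cases b <;> simp [Matrix.mul_apply, Fin.sum_univ_two] <;> ring
  inv_val := by
    rw [m5M_true, m5M_false]
    ext1 a b
    fin_cases a <;> fin_cases b <;> simp [Matrix.mul_apply, Fin.sum_univ_two] <;> ring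

/-- the representation over the polynomial ring -/
noncomputable def m5T : FreeGroup β →* GL (Fin 2) ℚ[X] := FreeGroup.lift (m5G c)

omit [DecidableEq β] in
theorem m5T_mk (L : List (β × Bool)) :
    ((m5T c (mk L) : GL (Fin 2) ℚ[X]) : Matrix (Fin 2) (Fin 2) ℚ[X]) = (L.map (m5M c)).prod := by
  induction L with
  | nil => rw [← one_eq_mk, map_one]; rfl
  | cons a L ih =>
    have e : mk (a :: L) = mk [a] * mk L := by rw [mul_mk]; rfl
    rw [e, map_mul, Units.val_mul, ih, List.map_cons, List.prod_cons]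
    congr 1
    obtain ⟨i, s⟩ := a
    cases s
    · have e1 : (mk [(i, false)] : FreeGroup β) = (of i)⁻¹ := rfl
      rw [e1, map_inv, m5T, lift_apply_of]
      rfl
    · have e1 : (mk [(i, true)] : FreeGroup β) = of i := rfl
      rw [e1, m5T, lift_apply_of]
      rfl

omit [DecidableEq β] in
theorem m5M_det (a : β × Bool) : (m5M c a).det = 1 := by
  obtain ⟨i, s⟩ := a
  cases s
  · rw [m5M_false, Matrix.det_fin_two_of]; ring
  · rw [m5M_true, Matrix.det_fin_two_of]; ring

theorem m5T_det (p : FreeGroup β) :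
    ((m5T c p : GL (Fin 2) ℚ[X]) : Matrix (Fin 2) (Fin 2) ℚ[X]).det = 1 := by
  rw [← mk_toWord (x := p), m5T_mk]
  induction p.toWord with
  | nil => simp
  | cons a L ih => rw [List.map_cons, List.prod_cons, Matrix.det_mul, ih, m5M_det, one_mul]

omit [DecidableEq β] in
theorem m5M_poly (a : β × Bool) :
    matPolyEquiv (m5M c a) = C (m5P c a) * X + C (m5C c a) := by
  ext k i j
  rw [matPolyEquiv_coeff_apply, m5M]
  simp only [coeff_add, coeff_C_mul, coeff_X, coeff_C, Matrix.add_apply]
  split_ifs <;> simp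

omit [DecidableEq β] in
theorem m5_top (L : List (β × Bool)) :
    (matPolyEquiv (L.map (m5M c)).prod).natDegree ≤ L.length ∧
      (matPolyEquiv (L.map (m5M c)).prod).coeff L.length = (L.map (m5P c)).prod := by
  induction L with
  | nil => simp
  | cons a L ih =>
    have h1 : (matPolyEquiv (m5M c a)).natDegree ≤ 1 := by
      rw [m5M_poly]
      exact natDegree_linear_le
    have h2 : (matPolyEquiv (m5M c a)).coeff 1 = m5P c a := by
      rw [m5M_poly]
      simp
    rw [List.map_cons, List.prod_cons, map_mul, List.length_cons, add_comm L.length 1]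
    refine ⟨natDegree_mul_le_of_le h1 ih.1, ?_⟩
    rw [coeff_mul_add_eq_of_natDegree_le h1 ih.1, h2, ih.2, List.map_cons, List.prod_cons]

omit [DecidableEq β] in
theorem m5_pair (hc : ∀ i j, c i = c j → i = j) (hc' : ∀ i j, c i + 1 ≠ c j)
    {a b : β × Bool} (h : a.1 = b.1 → a.2 = b.2) : m5v c a ⬝ᵥ m5u c b ≠ 0 := by
  obtain ⟨i, s⟩ := a
  obtain ⟨j, t⟩ := b
  cases s <;> cases t <;> simp only [m5u, m5v, dotProduct, Fin.sum_univ_two] <;> intro e <;>
    simp at e h
  · exact hc' j i (by linarith)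
  · exact h (hc i j (by linarith))
  · exact h (hc i j (by linarith))
  · exact hc' i j (by linarith)

omit [DecidableEq β] in
theorem m5_rank (hc : ∀ i j, c i = c j → i = j) (hc' : ∀ i j, c i + 1 ≠ c j)
    (L : List (β × Bool)) : ∀ a, IsReduced (a :: L) → ∃ k : ℚ, k ≠ 0 ∧
      ((a :: L).map (m5P c)).prod = k • Matrix.vecMulVec (m5u c a)
        (m5v c ((a :: L).getLast (List.cons_ne_nil _ _))) := by
  induction L with
  | nil => intro a _; exact ⟨1, one_ne_zero, by simp [m5P]⟩
  | cons b L ih =>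
    intro a h
    rw [isReduced_cons_cons] at h
    obtain ⟨k, hk, e⟩ := ih b h.2
    refine ⟨k * (m5v c a ⬝ᵥ m5u c b), mul_ne_zero hk (m5_pair c hc hc' h.1), ?_⟩
    rw [List.map_cons, List.prod_cons, e, List.getLast_cons_cons, m5P]
    ext i j
    simp only [Matrix.mul_apply, Matrix.smul_apply, Matrix.vecMulVec_apply, dotProduct,
      Fin.sum_univ_two, smul_eq_mul]
    ring

omit [DecidableEq β] in
theorem m5_deg (hc : ∀ i j, c i = c j → i = j) (hc' : ∀ i j, c i + 1 ≠ c j)
    {L : List (β × Bool)} (h : IsCyclicallyReduced L) :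
    (L.map (m5M c)).prod.trace.natDegree = L.length := by
  have key : ∀ k, (L.map (m5M c)).prod.trace.coeff k =
      ((matPolyEquiv (L.map (m5M c)).prod).coeff k).trace := fun k => by
    simp only [Matrix.trace_fin_two, coeff_add, matPolyEquiv_coeff_apply]
  obtain ⟨h1, h2⟩ := m5_top c L
  refine natDegree_eq_of_le_of_coeff_ne_zero (natDegree_le_iff_coeff_eq_zero.2 fun k hk => ?_) ?_
  · rw [key, coeff_eq_zero_of_natDegree_lt (h1.trans_lt hk), Matrix.trace_zero]
  · rw [key, h2]
    cases L with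
    | nil => simp
    | cons a L =>
      obtain ⟨k, hk, e⟩ := m5_rank c hc hc' L a h.1
      have h3 := m5_pair c hc hc' (h.2 ((a :: L).getLast (List.cons_ne_nil _ _))
        (List.getLast?_eq_some_getLast _) a rfl)
      rw [e, Matrix.trace_smul, Matrix.trace_vecMulVec, dotProduct_comm, smul_eq_mul]
      exact mul_ne_zero hk h3

theorem m5_cyc (hc : ∀ i j, c i = c j → i = j) (hc' : ∀ i j, c i + 1 ≠ c j) (p : FreeGroup β) :
    (tr (m5T c p)).natDegree = cyc p := by
  have e : tr (m5T c p) = tr (m5T c (mk (reduceCyclically p.toWord))) := by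
    conv_lhs => rw [m5_conj p]
    rw [map_mul, map_mul, map_inv, tr, tr, Units.val_mul, Units.val_mul, Matrix.trace_mul_comm,
      ← Matrix.mul_assoc, Units.inv_mul, Matrix.one_mul]
  rw [e, tr, m5T_mk, m5_deg c hc hc' (reduceCyclically.isCyclicallyReduced isReduced_toWord), cyc]

end Theta

end Aux

theorem exists_theta [Fintype β] :
    ∃ θ : FreeGroup β →* GL (Fin 2) (RatFunc ℚ),
      (∀ p, (θ p : Matrix (Fin 2) (Fin 2) (RatFunc ℚ)).det = 1) ∧
      (∀ p q, tr (θ p) = tr (θ q) → cyc p = cyc q) ∧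
      ∀ p, tr (θ p) ^ 2 = 4 → p = 1 := by
  let c : β → ℚ := fun i => ((2 * (Fintype.equivFin β i : ℕ) : ℕ) : ℚ)
  have hc : ∀ i j, c i = c j → i = j := fun i j h => by
    have h1 : 2 * (Fintype.equivFin β i : ℕ) = 2 * (Fintype.equivFin β j : ℕ) :=
      Nat.cast_injective (R := ℚ) h
    exact (Fintype.equivFin β).injective (Fin.ext (by omega))
  have hc' : ∀ i j, c i + 1 ≠ c j := fun i j h => by
    have h1 : 2 * (Fintype.equivFin β i : ℕ) + 1 = 2 * (Fintype.equivFin β j : ℕ) :=
      Nat.cast_injective (R := ℚ) ((Nat.cast_succ _).trans h)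
    omega
  let f : (Polynomial ℚ) →+* RatFunc ℚ := algebraMap (Polynomial ℚ) (RatFunc ℚ)
  have hf : Function.Injective f := RatFunc.algebraMap_injective ℚ
  have hv : ∀ g : GL (Fin 2) (Polynomial ℚ), ((Matrix.GeneralLinearGroup.map f g : GL (Fin 2) (RatFunc ℚ)) :
      Matrix (Fin 2) (Fin 2) (RatFunc ℚ)) = f.mapMatrix (g : Matrix (Fin 2) (Fin 2) (Polynomial ℚ)) :=
    fun g => rfl
  have ht : ∀ g : GL (Fin 2) (Polynomial ℚ), tr (Matrix.GeneralLinearGroup.map f g) = f (tr g) := fun g => by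
    rw [tr, tr, hv, Matrix.trace_fin_two, Matrix.trace_fin_two, map_add]
    rfl
  refine ⟨(Matrix.GeneralLinearGroup.map f).comp (m5T c), fun p => ?_, fun p q h => ?_,
    fun p h => ?_⟩
  · rw [MonoidHom.comp_apply, hv, ← RingHom.map_det, m5T_det, map_one]
  · rw [MonoidHom.comp_apply, MonoidHom.comp_apply, ht, ht] at h
    rw [← m5_cyc c hc hc', ← m5_cyc c hc hc', hf h]
  · rw [MonoidHom.comp_apply, ht, ← map_pow] at h
    have h1 : tr (m5T c p) ^ 2 = 4 := hf (by rw [h, map_ofNat])
    have h2 := congrArg Polynomial.natDegree h1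
    rw [Polynomial.natDegree_pow, m5_cyc c hc hc', Polynomial.natDegree_ofNat] at h2
    exact m5_zero.1 (by omega)

theorem cyc_eq_zero {p : FreeGroup β} : cyc p = 0 ↔ p = 1 := by
  exact m5_zero

theorem cyc_eq_one {p : FreeGroup β} (h : cyc p = 1) : ∃ y s, IsConj p (lt y s) := by
  obtain ⟨a, ha⟩ := List.length_eq_one_iff.1 h
  have h2 := m5_conj p
  rw [ha] at h2
  refine ⟨a.1, a.2, IsConj.symm (isConj_iff.2 ⟨_, h2.symm⟩)⟩

theorem cyc_of (y : β) : cyc (FreeGroup.of y) = 1 := by
  simp [cyc]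

theorem cyc_of_mul {y y' : β} (h : y ≠ y') : cyc (FreeGroup.of y * FreeGroup.of y') = 2 := by
  have e : (FreeGroup.of y * FreeGroup.of y').toWord = (y, true) :: ([] ++ [(y', true)]) := by
    rw [FreeGroup.toWord_mul, FreeGroup.toWord_of, FreeGroup.toWord_of]
    exact FreeGroup.IsReduced.reduce_eq (by simp [FreeGroup.IsReduced])
  rw [cyc, e, FreeGroup.reduceCyclically.cons_append]
  simp

end Pool.Agent.P.MP_2d26dd_al
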