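import Pool.Agent.P.MP_2d26dd_al.M4
import Pool.Agent.P.MP_2d26dd_al.M5

/-! Rigidity in free groups. -/

namespace Pool.Agent.P.MP_2d26dd_al

variable {β : Type} [DecidableEq β] [Fintype β]

theorem cyc_conj (p c : FreeGroup β) : cyc (c * p * c⁻¹) = cyc p := by
  obtain ⟨θ, -, h, -⟩ := exists_theta (β := β)
  apply h
  rw [map_mul, map_mul, map_inv, tr, tr, Units.val_mul, Units.val_mul, Matrix.trace_mul_comm,
    ← Matrix.mul_assoc, Units.inv_mul, Matrix.one_mul]

omit [Fintype β] in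
theorem m5b_cyc_mk {L : List (β × Bool)} (h : FreeGroup.IsCyclicallyReduced L) :
    cyc (FreeGroup.mk L) = L.length := by
  rw [cyc, FreeGroup.toWord_mk, h.isReduced.reduce_eq]
  rcases L with _ | ⟨a, L⟩
  · simp
  · rcases List.eq_nil_or_concat' L with rfl | ⟨L', b, rfl⟩
    · simp
    · have h1 := (FreeGroup.isCyclicallyReduced_cons_append_iff.1 h).2
      rw [FreeGroup.reduceCyclically.cons_append, if_neg, List.cons_append]
      rintro ⟨h2, h3⟩
      rw [← h1 h2] at h3
      exact absurd h3 (Bool.not_ne_self _)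

omit [Fintype β] in
theorem m5b_cycred {x y : β} (hxy : x ≠ y) {L : List (β × Bool)} (hL : FreeGroup.IsReduced L)
    (hh : ∀ c ∈ L.head?, c.1 ≠ x) (hl : ∀ c ∈ L.getLast?, c.1 ≠ y) :
    FreeGroup.IsCyclicallyReduced ((x, true) :: (L ++ (y, true) :: FreeGroup.invRev L)) := by
  have hI : FreeGroup.IsReduced (FreeGroup.invRev L) :=
    FreeGroup.IsReduced.of_reduce_eq (by rw [FreeGroup.reduce_invRev, hL.reduce_eq])
  have ih : ∀ c ∈ (FreeGroup.invRev L).head?, c.1 ≠ y := by
    intro c hc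
    rw [FreeGroup.invRev, List.head?_reverse, List.getLast?_map, Option.mem_map] at hc
    obtain ⟨d, hd, rfl⟩ := hc
    exact hl d hd
  have il : ∀ c ∈ (FreeGroup.invRev L).getLast?, c.1 ≠ x := by
    intro c hc
    rw [FreeGroup.invRev, List.getLast?_reverse, List.head?_map, Option.mem_map] at hc
    obtain ⟨d, hd, rfl⟩ := hc
    exact hh d hd
  have h1 : FreeGroup.IsReduced ((y, true) :: FreeGroup.invRev L) :=
    List.isChain_cons.2 ⟨fun c hc e => absurd e.symm (ih c hc), hI⟩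
  have h2 : FreeGroup.IsReduced (L ++ (y, true) :: FreeGroup.invRev L) :=
    List.IsChain.append hL h1 fun c hc d hd e => by
      rw [List.head?_cons, Option.mem_some_iff] at hd
      subst hd
      exact absurd e (hl c hc)
  refine ⟨List.isChain_cons.2 ⟨fun c hc e => ?_, h2⟩, fun c hc d hd e => ?_⟩
  · rcases L with _ | ⟨a, L⟩
    · rw [List.nil_append, List.head?_cons, Option.mem_some_iff] at hc
      subst hc
      exact absurd e hxy
    · exact absurd e.symm (hh c hc)
  · rw [List.head?_cons, Option.mem_some_iff] at hd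
    subst hd
    rcases List.eq_nil_or_concat' (FreeGroup.invRev L) with h3 | ⟨L', b, h3⟩
    · rw [h3, ← List.cons_append, List.getLast?_concat, Option.mem_some_iff] at hc
      subst hc
      exact absurd e.symm hxy
    · have h4 := il b (by rw [h3, List.getLast?_concat]; rfl)
      rw [h3, ← List.cons_append, ← List.cons_append, ← List.append_assoc, List.getLast?_concat,
        Option.mem_some_iff] at hc
      subst hc
      exact absurd e h4

omit [DecidableEq β] [Fintype β] in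
theorem m5b_letter (a : β × Bool) : ∃ e : ℤ, FreeGroup.mk [a] = FreeGroup.of a.1 ^ e := by
  obtain ⟨i, s⟩ := a
  cases s
  · exact ⟨-1, (zpow_neg_one (FreeGroup.of i)).symm⟩
  · exact ⟨1, (zpow_one (FreeGroup.of i)).symm⟩

theorem m5b_key_list {x y : β} (hxy : x ≠ y) (n : ℕ) : ∀ L : List (β × Bool), L.length = n →
    FreeGroup.IsReduced L →
    cyc (FreeGroup.of x * FreeGroup.mk L * FreeGroup.of y * (FreeGroup.mk L)⁻¹) = 2 →
    ∃ a b : ℤ, FreeGroup.mk L = FreeGroup.of x ^ a * FreeGroup.of y ^ b := by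
  induction n with
  | zero =>
    intro L hn _ _
    rw [List.length_eq_zero_iff.1 hn]
    exact ⟨0, 0, by rw [zpow_zero, zpow_zero, one_mul, FreeGroup.one_eq_mk]⟩
  | succ n ih =>
    intro L hn hL hc
    by_cases hh : ∀ c ∈ L.head?, c.1 ≠ x
    · by_cases hl : ∀ c ∈ L.getLast?, c.1 ≠ y
      · have h1 := m5b_cyc_mk (m5b_cycred hxy hL hh hl)
        have h2 : FreeGroup.of x * FreeGroup.mk L * FreeGroup.of y * (FreeGroup.mk L)⁻¹ =
            FreeGroup.mk ((x, true) :: (L ++ (y, true) :: FreeGroup.invRev L)) := by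
          rw [FreeGroup.inv_mk, FreeGroup.of, FreeGroup.of, FreeGroup.mul_mk, FreeGroup.mul_mk,
            FreeGroup.mul_mk]
          simp only [List.cons_append, List.nil_append, List.append_assoc]
        rw [h2, h1] at hc
        simp only [List.length_cons, List.length_append, FreeGroup.invRev_length] at hc
        omega
      · push Not at hl
        obtain ⟨c, hc1, hc2⟩ := hl
        obtain ⟨L', rfl⟩ := List.getLast?_eq_some_iff.1 (Option.mem_def.1 hc1)
        obtain ⟨e, he⟩ := m5b_letter c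
        rw [hc2] at he
        rw [← FreeGroup.mul_mk, he] at hc ⊢
        have h1 : FreeGroup.of x * (FreeGroup.mk L' * FreeGroup.of y ^ e) * FreeGroup.of y *
            (FreeGroup.mk L' * FreeGroup.of y ^ e)⁻¹ =
            FreeGroup.of x * FreeGroup.mk L' * FreeGroup.of y * (FreeGroup.mk L')⁻¹ := by group
        rw [h1] at hc
        obtain ⟨a, b, hab⟩ := ih L' (by simpa using hn) (List.isChain_append.1 hL).1 hc
        exact ⟨a, b + e, by rw [hab, zpow_add, mul_assoc]⟩
    · push Not at hh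
      obtain ⟨c, hc1, hc2⟩ := hh
      obtain ⟨L', rfl⟩ := List.head?_eq_some_iff.1 (Option.mem_def.1 hc1)
      obtain ⟨e, he⟩ := m5b_letter c
      rw [hc2] at he
      rw [← List.singleton_append, ← FreeGroup.mul_mk, he] at hc ⊢
      have h1 : FreeGroup.of x * (FreeGroup.of x ^ e * FreeGroup.mk L') * FreeGroup.of y *
          (FreeGroup.of x ^ e * FreeGroup.mk L')⁻¹ = FreeGroup.of x ^ e *
          (FreeGroup.of x * FreeGroup.mk L' * FreeGroup.of y * (FreeGroup.mk L')⁻¹) *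
          (FreeGroup.of x ^ e)⁻¹ := by group
      rw [h1, cyc_conj] at hc
      obtain ⟨a, b, hab⟩ := ih L' (by simpa using hn) (List.isChain_cons.1 hL).2 hc
      exact ⟨e + a, b, by rw [hab, zpow_add, mul_assoc]⟩

theorem m5b_key {x y : β} (hxy : x ≠ y) (w : FreeGroup β)
    (h : cyc (FreeGroup.of x * (w * FreeGroup.of y * w⁻¹)) = 2) :
    ∃ a b : ℤ, w = FreeGroup.of x ^ a * FreeGroup.of y ^ b := by
  have h1 := m5b_key_list hxy _ w.toWord rfl FreeGroup.isReduced_toWord
  rw [FreeGroup.mk_toWord] at h1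
  exact h1 (by rw [← h]; simp only [mul_assoc])

/-- The exponent sum of a letter. -/
def m5b_ex (y : β) : FreeGroup β →* Multiplicative ℤ :=
  FreeGroup.lift fun i => if i = y then Multiplicative.ofAdd 1 else 1

omit [Fintype β] in
theorem m5b_ex_self (y : β) : m5b_ex y (FreeGroup.of y) = Multiplicative.ofAdd 1 := by
  rw [m5b_ex, FreeGroup.lift_apply_of, if_pos rfl]

omit [Fintype β] in
theorem m5b_ex_ne {y i : β} (h : i ≠ y) : m5b_ex y (FreeGroup.of i) = 1 := by
  rw [m5b_ex, FreeGroup.lift_apply_of, if_neg h]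

theorem m5b_norm (η : FreeGroup β →* FreeGroup β) (y₀ : β)
    (h0 : η (FreeGroup.of y₀) = FreeGroup.of y₀)
    (h1 : ∀ y, IsConj (η (FreeGroup.of y)) (FreeGroup.of y))
    (h2 : ∀ y y', y ≠ y' → cyc (η (FreeGroup.of y * FreeGroup.of y')) = 2) :
    ∃ c, ∀ p, η p = c * p * c⁻¹ := by
  have k1 : ∀ y, y ≠ y₀ → ∃ a : ℤ, η (FreeGroup.of y) =
      FreeGroup.of y₀ ^ a * FreeGroup.of y * (FreeGroup.of y₀ ^ a)⁻¹ := by
    intro y hy
    obtain ⟨w, hw⟩ := isConj_iff.1 (h1 y).symm
    have h3 := h2 y₀ y hy.symm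
    rw [map_mul, h0, ← hw] at h3
    obtain ⟨a, b, hab⟩ := m5b_key hy.symm w h3
    exact ⟨a, by rw [← hw, hab]; group⟩
  have k2 : ∃ a : ℤ, ∀ y, y ≠ y₀ → η (FreeGroup.of y) =
      FreeGroup.of y₀ ^ a * FreeGroup.of y * (FreeGroup.of y₀ ^ a)⁻¹ := by
    by_cases hex : ∃ y₁, y₁ ≠ y₀
    · obtain ⟨y₁, hy₁⟩ := hex
      obtain ⟨a, ha⟩ := k1 y₁ hy₁
      refine ⟨a, fun y hy => ?_⟩
      by_cases hyy : y₁ = y
      · rw [← hyy, ha]
      · obtain ⟨a', ha'⟩ := k1 y hy
        have h3 := h2 y₁ y hyy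
        have h4 : η (FreeGroup.of y₁ * FreeGroup.of y) = FreeGroup.of y₀ ^ a *
            (FreeGroup.of y₁ * (FreeGroup.of y₀ ^ (a' - a) * FreeGroup.of y *
              (FreeGroup.of y₀ ^ (a' - a))⁻¹)) * (FreeGroup.of y₀ ^ a)⁻¹ := by
          rw [map_mul, ha, ha']
          group
        rw [h4, cyc_conj] at h3
        obtain ⟨m, n, hmn⟩ := m5b_key hyy _ h3
        have h5 := congrArg (m5b_ex y₀) hmn
        rw [map_mul, map_zpow, map_zpow, map_zpow, m5b_ex_self, m5b_ex_ne hy₁, m5b_ex_ne hy,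
          one_zpow, one_zpow, one_mul] at h5
        have h6 := congrArg Multiplicative.toAdd h5
        rw [toAdd_zpow, toAdd_ofAdd, toAdd_one, smul_eq_mul, mul_one] at h6
        rw [ha', sub_eq_zero.1 h6]
    · exact ⟨0, fun y hy => absurd ⟨y, hy⟩ hex⟩
  obtain ⟨a, ha⟩ := k2
  have k3 : η = (MulAut.conj (FreeGroup.of y₀ ^ a)).toMonoidHom := by
    refine FreeGroup.ext_hom _ _ fun y => ?_
    by_cases hy : y = y₀
    · rw [hy, h0]
      show _ = FreeGroup.of y₀ ^ a * FreeGroup.of y₀ * (FreeGroup.of y₀ ^ a)⁻¹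
      group
    · exact ha y hy
  exact ⟨FreeGroup.of y₀ ^ a, fun p => DFunLike.congr_fun k3 p⟩

theorem rigid_free (η : FreeGroup β →* FreeGroup β)
    (h1 : ∀ y, IsConj (η (FreeGroup.of y)) (FreeGroup.of y))
    (h2 : ∀ y y', y ≠ y' → cyc (η (FreeGroup.of y * FreeGroup.of y')) = 2) :
    ∃ c, ∀ p, η p = c * p * c⁻¹ := by
  rcases isEmpty_or_nonempty β with hβ | ⟨⟨y₀⟩⟩
  · have h3 : η = MonoidHom.id _ := FreeGroup.ext_hom _ _ fun y => hβ.elim y
    exact ⟨1, fun p => by rw [h3, one_mul, inv_one, mul_one, MonoidHom.id_apply]⟩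
  · obtain ⟨c, hc⟩ := isConj_iff.1 (h1 y₀)
    obtain ⟨d, hd⟩ := m5b_norm ((MulAut.conj c).toMonoidHom.comp η) y₀ hc
      (fun y => (isConj_iff.2 ⟨c, rfl⟩ : IsConj (η (FreeGroup.of y)) _).symm.trans (h1 y))
      (fun y y' h => (cyc_conj _ c).trans (h2 y y' h))
    refine ⟨c⁻¹ * d, fun p => ?_⟩
    have h3 : c * η p * c⁻¹ = d * p * d⁻¹ := hd p
    calc η p = c⁻¹ * (c * η p * c⁻¹) * c := by group
      _ = _ := by rw [h3]; group

theorem inner_free (α : MulAut (FreeGroup β)) (h1 : AddInv α) (h2 : NearInv α) : Inner α := by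
  obtain ⟨θ, -, hθ, -⟩ := exists_theta (β := β)
  have hc : ∀ x, cyc (α x) = cyc x := fun x => hθ _ _ (h2.free (RatFunc ℚ) θ x)
  refine rigid_free α.toMonoidHom (fun y => ?_) fun y y' h => (hc _).trans (cyc_of_mul h)
  obtain ⟨y', s, hs⟩ := cyc_eq_one ((hc (FreeGroup.of y)).trans (cyc_of y))
  have h3 := h1 (fun p => (((m5b_ex y p).toAdd : ℤ) : ℚ)) (fun a b => by
    simp only [map_mul, toAdd_mul, Int.cast_add]) (FreeGroup.of y)
  have h4 : m5b_ex y (α (FreeGroup.of y)) = m5b_ex y (FreeGroup.of y) :=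
    Multiplicative.toAdd.injective (Int.cast_injective h3)
  have h5 : m5b_ex y (α (FreeGroup.of y)) = m5b_ex y (lt y' s) :=
    isConj_iff_eq.1 ((m5b_ex y).map_isConj hs)
  rw [h4, m5b_ex_self] at h5
  have h6 : lt y' s = FreeGroup.of y := by
    by_cases hy : y' = y
    · cases s
      · rw [lt_false, map_inv, hy, m5b_ex_self] at h5
        have h7 := congrArg Multiplicative.toAdd h5
        rw [toAdd_inv, toAdd_ofAdd] at h7
        omega
      · rw [lt_true, hy]
    · have h7 : m5b_ex y (lt y' s) = 1 := by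
        cases s
        · rw [lt_false, map_inv, m5b_ex_ne hy, inv_one]
        · rw [lt_true, m5b_ex_ne hy]
      rw [h7] at h5
      have h8 := congrArg Multiplicative.toAdd h5
      rw [toAdd_ofAdd, toAdd_one] at h8
      omega
  rw [h6] at hs
  exact hs

end Pool.Agent.P.MP_2d26dd_al
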