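import Pool.Agent.P.MP_2d26dd_al.MDefs

/-! Products of commutators, the Heisenberg group and common roots. -/

namespace Pool.Agent.P.MP_2d26dd_al

namespace M6ah

theorem common_root' {β : Type} {p q : FreeGroup β} (h : Commute p q) :
    ∃ z, p ∈ Subgroup.zpowers z ∧ q ∈ Subgroup.zpowers z := by
  classical
  let K : Subgroup (FreeGroup β) := Subgroup.closure {p, q}
  have hc : ∀ x ∈ ({p, q} : Set (FreeGroup β)), ∀ y ∈ ({p, q} : Set (FreeGroup β)),
      x * y = y * x := by
    rintro x (rfl | rfl) y (rfl | rfl)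
    · rfl
    · exact h.eq
    · exact h.eq.symm
    · rfl
  have hK : ∀ x y : K, x * y = y * x := by
    intro x y
    have := Subgroup.isMulCommutative_closure hc
    exact mul_comm' x y
  let e : K ≃* FreeGroup (IsFreeGroup.Generators K) := IsFreeGroup.toFreeGroup K
  have hF : ∀ x y : FreeGroup (IsFreeGroup.Generators K), x * y = y * x := by
    intro x y
    apply e.symm.injective
    rw [map_mul, map_mul, hK]
  have hs : Subsingleton (IsFreeGroup.Generators K) := by
    refine ⟨fun a b => ?_⟩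
    by_contra hab
    let φ : FreeGroup (IsFreeGroup.Generators K) →* Equiv.Perm (Fin 3) :=
      FreeGroup.lift fun x => if x = a then Equiv.swap 0 1 else Equiv.swap 1 2
    have h1 := congrArg φ (hF (FreeGroup.of a) (FreeGroup.of b))
    have hba : b ≠ a := fun h => hab h.symm
    simp only [φ, map_mul, FreeGroup.lift_apply_of, if_true, if_neg hba] at h1
    revert h1
    decide
  have hcyc : IsCyclic (FreeGroup (IsFreeGroup.Generators K)) := by
    rcases isEmpty_or_nonempty (IsFreeGroup.Generators K) with h0 | h0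
    · exact isCyclic_of_subsingleton
    · let _ : Unique (IsFreeGroup.Generators K) := uniqueOfSubsingleton h0.some
      infer_instance
  have hcK : IsCyclic K := isCyclic_of_surjective e.symm e.symm.surjective
  obtain ⟨z, hz⟩ := hcK.exists_generator
  have hp : p ∈ K := Subgroup.subset_closure (by simp)
  have hq : q ∈ K := Subgroup.subset_closure (by simp)
  refine ⟨z, ?_, ?_⟩
  · obtain ⟨k, hk⟩ := hz ⟨p, hp⟩
    exact ⟨k, by simpa using congrArg Subtype.val hk⟩
  · obtain ⟨k, hk⟩ := hz ⟨q, hq⟩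
    exact ⟨k, by simpa using congrArg Subtype.val hk⟩

variable {G G' : Type} [Group G] [Group G']

/-- Ordered product of the first `n` values. -/
def cp (f : ℕ → G) : ℕ → G
  | 0 => 1
  | n + 1 => cp f n * f n

/-- The commutator. -/
def cm (a b : G) : G := a * b * a⁻¹ * b⁻¹

theorem cp_succ (f : ℕ → G) (n : ℕ) : cp f (n + 1) = cp f n * f n := rfl

theorem cp_congr {f g : ℕ → G} {n : ℕ} (h : ∀ i < n, f i = g i) : cp f n = cp g n := by
  induction n with
  | zero => rfl
  | succ n ih =>
    rw [cp_succ, cp_succ, ih fun i hi => h i (by omega), h n (by omega)]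

theorem map_cp (φ : G →* G') (f : ℕ → G) (n : ℕ) : φ (cp f n) = cp (fun i => φ (f i)) n := by
  induction n with
  | zero => simp [cp]
  | succ n ih => rw [cp_succ, cp_succ, map_mul, ih]

theorem map_cm (φ : G →* G') (a b : G) : φ (cm a b) = cm (φ a) (φ b) := by simp [cm]

theorem cm_swap (a b : G) : cm b a = (cm a b)⁻¹ := by simp [cm, mul_assoc]

theorem cm_conj (z a b : G) : cm (z * a * z⁻¹) (z * b * z⁻¹) = z * cm a b * z⁻¹ := by
  simp [cm, mul_assoc]

theorem cp_add (f : ℕ → G) (m n : ℕ) : cp f (m + n) = cp f m * cp (fun i => f (m + i)) n := by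
  induction n with
  | zero => simp [cp]
  | succ n ih => rw [← add_assoc, cp_succ, cp_succ, ih, mul_assoc]

theorem cp_succ' (f : ℕ → G) (n : ℕ) : cp f (n + 1) = f 0 * cp (fun i => f (i + 1)) n := by
  rw [add_comm n 1, cp_add]
  simp only [cp, one_mul, add_comm 1]

theorem cp_rev (f : ℕ → G) (n : ℕ) : cp (fun i => (f (n - 1 - i))⁻¹) n = (cp f n)⁻¹ := by
  induction n with
  | zero => simp [cp]
  | succ n ih =>
    rw [cp_succ', cp_succ f, mul_inv_rev, ← ih]
    congr 1
    apply cp_congr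
    intro i hi
    congr 2
    omega

theorem cp_conj (z : G) (f : ℕ → G) (n : ℕ) :
    cp (fun i => z * f i * z⁻¹) n = z * cp f n * z⁻¹ := by
  induction n with
  | zero => simp [cp]
  | succ n ih => rw [cp_succ, cp_succ, ih]; simp [mul_assoc]

theorem cp_one {f : ℕ → G} {n : ℕ} (h : ∀ i < n, f i = 1) : cp f n = 1 := by
  induction n with
  | zero => rfl
  | succ n ih => rw [cp_succ, ih fun i hi => h i (by omega), h n (by omega), mul_one]

theorem ofFn_cp (f : ℕ → G) (n : ℕ) : (List.ofFn fun i : Fin n => f i).prod = cp f n := by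
  induction n with
  | zero => simp [cp]
  | succ n ih =>
    rw [List.ofFn_succ', List.concat_eq_append, List.prod_append, cp_succ, ← ih]
    simp

/-- The product of the first `n` commutators. -/
def cc (U : ℕ → Bool → G) (n : ℕ) : G := cp (fun i => cm (U i false) (U i true)) n

theorem map_cc (φ : G →* G') (U : ℕ → Bool → G) (n : ℕ) :
    φ (cc U n) = cc (fun i t => φ (U i t)) n := by
  simp only [cc, map_cp, map_cm]

theorem cc_congr {U V : ℕ → Bool → G} {n : ℕ} (h : ∀ i < n, ∀ t, U i t = V i t) :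
    cc U n = cc V n :=
  cp_congr fun i hi => by rw [h i hi, h i hi]

theorem cc_comm {A : Type} [CommGroup A] (U : ℕ → Bool → A) (n : ℕ) : cc U n = 1 :=
  cp_one fun i _ => by simp [cm]

theorem cc_add (U : ℕ → Bool → G) (m n : ℕ) :
    cc U (m + n) = cc U m * cc (fun i => U (m + i)) n := cp_add _ _ _

theorem cc_succ (U : ℕ → Bool → G) (n : ℕ) :
    cc U (n + 1) = cc U n * cm (U n false) (U n true) := rfl

theorem cc_rev (U : ℕ → Bool → G) (n : ℕ) :
    cc (fun i t => U (n - 1 - i) (!t)) n = (cc U n)⁻¹ := by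
  rw [cc, cc, ← cp_rev]
  apply cp_congr
  intro i _
  exact cm_swap _ _

theorem cc_conj (z : G) (U : ℕ → Bool → G) (n : ℕ) :
    cc (fun i t => z * U i t * z⁻¹) n = z * cc U n * z⁻¹ := by
  rw [cc, cc, ← cp_conj]
  apply cp_congr
  intro i _
  exact cm_conj _ _ _

theorem cc_first {U : ℕ → Bool → G} {n : ℕ} (hn : 1 ≤ n) (h : ∀ i, 0 < i → ∀ t, U i t = 1) :
    cc U n = cm (U 0 false) (U 0 true) := by
  obtain ⟨m, rfl⟩ : ∃ m, n = m + 1 := ⟨n - 1, by omega⟩
  rw [cc, cp_succ', cp_one, mul_one]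
  intro i _
  rw [h (i + 1) (by omega), h (i + 1) (by omega)]
  simp [cm]

/-- Images of the generators of a closed surface group. -/
def uOf {g : ℕ} (U : ℕ → Bool → G) : Gen g 0 → G
  | Sum.inl a => U a.1 a.2
  | Sum.inr j => j.elim0

theorem lift_rel (g : ℕ) (U : ℕ → Bool → G) :
    FreeGroup.lift (uOf U) (surfRel g 0) = cc U g := by
  rw [cc, ← ofFn_cp]
  simp only [surfRel, List.ofFn_zero, List.prod_nil, mul_one, map_list_prod,
    List.map_ofFn]
  congr 2
  funext i
  simp [uOf, cm]

/-- The generators of a closed surface group. -/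
def gn (g : ℕ) (i : ℕ) (t : Bool) : SurfGroup g 0 :=
  if h : i < g then PresentedGroup.of (Sum.inl (⟨i, h⟩, t)) else 1

theorem gn_rel (g : ℕ) : cc (gn g) g = 1 := by
  rw [← lift_rel]
  have : FreeGroup.lift (uOf (gn g)) = PresentedGroup.mk {surfRel g 0} := by
    ext x
    rcases x with ⟨i, t⟩ | j
    · simp [uOf, gn]
      rfl
    · exact j.elim0
  rw [this]
  exact PresentedGroup.one_of_mem rfl

theorem exists_hom (g : ℕ) (U : ℕ → Bool → G) (hU : cc U g = 1) :
    ∃ Θ : SurfGroup g 0 →* G, ∀ i < g, ∀ t, Θ (gn g i t) = U i t := by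
  have h : ∀ r ∈ ({surfRel g 0} : Set (FreeGroup (Gen g 0))), FreeGroup.lift (uOf U) r = 1 := by
    rintro r rfl
    rw [lift_rel, hU]
  refine ⟨PresentedGroup.toGroup h, fun i hi t => ?_⟩
  rw [gn, dif_pos hi, PresentedGroup.toGroup.of]
  rfl

theorem top_of_gn (g : ℕ) (K : Subgroup (SurfGroup g 0)) (h : ∀ i < g, ∀ t, gn g i t ∈ K) :
    K = ⊤ := by
  rw [eq_top_iff]
  intro x _
  refine PresentedGroup.generated_by _ K ?_ x
  rintro (⟨i, t⟩ | j)
  · have := h i i.2 t
    rwa [gn, dif_pos i.2] at this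
  · exact j.elim0

theorem exists_count (g h : ℕ) : ∃ f : SurfGroup g 0 →* Multiplicative ℚ,
    ∀ i < g, ∀ t, f (gn g i t) = if i < h then Multiplicative.ofAdd 1 else 1 :=
  exists_hom g (fun i _ => if i < h then Multiplicative.ofAdd 1 else 1) (cc_comm _ _)

theorem sep_of_hom {β π : Type} [DecidableEq β] [Group π] (ι ι' : FreeGroup β →* π)
    (f : π →* Multiplicative ℚ) (h1 : ∀ y, f (ι (FreeGroup.of y)) = Multiplicative.ofAdd 1)
    (h2 : ∀ y, f (ι' (FreeGroup.of y)) = 1) (y y' : β) (b b' : Bool) :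
    ∃ f : π → ℚ, IsAdd f ∧ f (ι (lt y b)) ≠ f (ι' (lt y' b')) := by
  refine ⟨fun x => Multiplicative.toAdd (f x), fun a b => by simp, ?_⟩
  cases b <;> cases b' <;> simp [lt_true, lt_false, h1, h2]

/-- The integral Heisenberg group. -/
@[ext] structure Heis where
  a : ℤ
  b : ℤ
  c : ℤ

instance : Mul Heis := ⟨fun x y => ⟨x.a + y.a, x.b + y.b, x.c + y.c + x.a * y.b⟩⟩
instance : One Heis := ⟨⟨0, 0, 0⟩⟩
instance : Inv Heis := ⟨fun x => ⟨-x.a, -x.b, -x.c + x.a * x.b⟩⟩

@[simp] theorem Heis.mul_a (x y : Heis) : (x * y).a = x.a + y.a := rfl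
@[simp] theorem Heis.mul_b (x y : Heis) : (x * y).b = x.b + y.b := rfl
@[simp] theorem Heis.mul_c (x y : Heis) : (x * y).c = x.c + y.c + x.a * y.b := rfl
@[simp] theorem Heis.one_a : (1 : Heis).a = 0 := rfl
@[simp] theorem Heis.one_b : (1 : Heis).b = 0 := rfl
@[simp] theorem Heis.one_c : (1 : Heis).c = 0 := rfl
@[simp] theorem Heis.inv_a (x : Heis) : x⁻¹.a = -x.a := rfl
@[simp] theorem Heis.inv_b (x : Heis) : x⁻¹.b = -x.b := rfl
@[simp] theorem Heis.inv_c (x : Heis) : x⁻¹.c = -x.c + x.a * x.b := rfl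

instance : Group Heis :=
  Group.ofLeftAxioms (fun x y z => by ext <;> simp <;> ring) (fun x => by ext <;> simp)
    (fun x => by ext <;> simp)

theorem Heis.zpow_ab (x : Heis) (k : ℤ) : (x ^ k).a = k * x.a ∧ (x ^ k).b = k * x.b := by
  induction k using Int.induction_on with
  | zero => simp
  | succ k ih =>
    rw [zpow_add_one, Heis.mul_a, Heis.mul_b, ih.1, ih.2]
    constructor <;> ring
  | pred k ih =>
    rw [zpow_sub_one, Heis.mul_a, Heis.mul_b, ih.1, ih.2, Heis.inv_a, Heis.inv_b]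
    constructor <;> ring

theorem Heis.zpow_c (x : Heis) (ha : x.a = 0) (k : ℤ) : (x ^ k).c = k * x.c := by
  induction k using Int.induction_on with
  | zero => simp
  | succ k ih =>
    rw [zpow_add_one, Heis.mul_c, ih, (Heis.zpow_ab x _).1, ha]
    ring
  | pred k ih =>
    rw [zpow_sub_one, Heis.mul_c, ih, (Heis.zpow_ab x _).1, Heis.inv_c, ha]
    ring

theorem Heis.root {x : Heis} {k : ℤ} (h : x ^ k = ⟨0, 0, 1⟩) : k = 1 ∨ k = -1 := by
  have hk : k ≠ 0 := by
    rintro rfl
    have := congrArg Heis.c h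
    simp at this
  have ha : x.a = 0 := by
    have := congrArg Heis.a h
    rw [(Heis.zpow_ab x k).1] at this
    simpa [hk] using this
  have hc := congrArg Heis.c h
  rw [Heis.zpow_c x ha] at hc
  exact Int.eq_one_or_neg_one_of_mul_eq_one hc

/-- The two standard generators of the Heisenberg group. -/
def hg : Bool → Heis
  | false => ⟨1, 0, 0⟩
  | true => ⟨0, 1, 0⟩

theorem cm_hg : cm (hg false) (hg true) = ⟨0, 0, 1⟩ := by
  ext <;> simp [cm, hg]

theorem cent_of_root {β : Type} {γ : FreeGroup β}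
    (h : ∀ (z : FreeGroup β) (k : ℤ), z ^ k = γ → k = 1 ∨ k = -1) {p : FreeGroup β}
    (hp : Commute p γ) : p ∈ Subgroup.zpowers γ := by
  obtain ⟨z, h1, k, hk⟩ := common_root' hp
  have : z ∈ Subgroup.zpowers γ := by
    rcases h z k hk with rfl | rfl
    · have : z = γ := by simpa using hk
      rw [this]
      exact Subgroup.mem_zpowers _
    · have : z = γ⁻¹ := by rw [← hk]; simp
      rw [this]
      exact Subgroup.inv_mem _ (Subgroup.mem_zpowers _)
  exact (Subgroup.zpowers_le_of_mem this) h1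

/-- The exponent sum of a letter. -/
def ex {β : Type} [DecidableEq β] (y : β) : FreeGroup β →* Multiplicative ℤ :=
  FreeGroup.lift fun x => if x = y then Multiplicative.ofAdd 1 else 1

theorem ex_self {β : Type} [DecidableEq β] (y : β) :
    ex y (FreeGroup.of y) = Multiplicative.ofAdd 1 := by simp [ex]

theorem ex_ne {β : Type} [DecidableEq β] {x y : β} (h : x ≠ y) :
    ex y (FreeGroup.of x) = 1 := by simp [ex, h]

end M6ah

end Pool.Agent.P.MP_2d26dd_al
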