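import Pool.Agent.P.MP_2d26dd_al.MDefs
import Pool.Agent.P.MP_2d26dd_al.M6ah1

/-! Closed surface groups are doubles. -/

namespace Pool.Agent.P.MP_2d26dd_al

namespace M6ah

/-- The letters in the even case. -/
def le (h : ℕ) (i : ℕ) (t : Bool) : FreeGroup (Fin h × Bool) :=
  if hi : i < h then FreeGroup.of (⟨i, hi⟩, t) else 1

/-- The letters in the odd case. -/
def lo (h : ℕ) (i : ℕ) (t : Bool) : FreeGroup (Option (Fin h × Bool)) :=
  if hi : i < h then FreeGroup.of (some (⟨i, hi⟩, t)) else 1

theorem le_of {h : ℕ} (y : Fin h × Bool) : le h y.1 y.2 = FreeGroup.of y := by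
  simp [le]

theorem lo_of {h : ℕ} (y : Fin h × Bool) : lo h y.1 y.2 = FreeGroup.of (some y) := by
  simp [lo]

variable {G : Type} [Group G]

theorem lift_le {h : ℕ} (U : ℕ → Bool → G) {i : ℕ} (hi : i < h) (t : Bool) :
    FreeGroup.lift (fun y : Fin h × Bool => U y.1 y.2) (le h i t) = U i t := by
  simp [le, hi]

/-- A homomorphism in the odd case. -/
def lf (h : ℕ) (U : ℕ → Bool → G) (w : G) : FreeGroup (Option (Fin h × Bool)) →* G :=
  FreeGroup.lift fun y => match y with
    | none => w
    | some y => U y.1 y.2

theorem lf_lo {h : ℕ} (U : ℕ → Bool → G) (w : G) {i : ℕ} (hi : i < h) (t : Bool) :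
    lf h U w (lo h i t) = U i t := by
  simp [lo, hi, lf]

theorem lf_none {h : ℕ} (U : ℕ → Bool → G) (w : G) : lf h U w (FreeGroup.of none) = w := by
  simp [lf]

theorem lf_cc {h : ℕ} (U : ℕ → Bool → G) (w : G) : lf h U w (cc (lo h) h) = cc U h := by
  rw [map_cc]
  exact cc_congr fun i hi t => lf_lo U w hi t

theorem lift_cc {h : ℕ} (U : ℕ → Bool → G) :
    FreeGroup.lift (fun y : Fin h × Bool => U y.1 y.2) (cc (le h) h) = cc U h := by
  rw [map_cc]
  exact cc_congr fun i hi t => lift_le U hi t

/-- The first handle goes to the Heisenberg generators. -/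
def hU (i : ℕ) (t : Bool) : Heis := if i = 0 then hg t else 1

theorem cc_hU {h : ℕ} (hh : 1 ≤ h) : cc hU h = ⟨0, 0, 1⟩ := by
  rw [cc_first hh, ← cm_hg]
  · rfl
  · intro i hi t
    rw [hU, if_neg (by omega)]

theorem cc_mirror (U : ℕ → Bool → G) (m h : ℕ) :
    cc (fun i t => U (m + h - 1 - i) (!t)) h = (cc (fun i => U (m + i)) h)⁻¹ := by
  rw [← cc_rev]
  refine cc_congr fun i hi t => ?_
  congr 1
  omega

end M6ah

open M6ah

theorem common_root {β : Type} {p q : FreeGroup β} (h : Commute p q) :
    ∃ z, p ∈ Subgroup.zpowers z ∧ q ∈ Subgroup.zpowers z := by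
  exact common_root' h

theorem dbl_even (h : ℕ) (hh : 1 ≤ h) :
    Nonempty (Dbl (SurfGroup (2 * h) 0) (Fin h × Bool) Unit) := by
  have h2 : 2 * h = h + h := two_mul h
  rw [h2]
  let ι : FreeGroup (Fin h × Bool) →* SurfGroup (h + h) 0 :=
    FreeGroup.lift fun y : Fin h × Bool => gn (h + h) y.1 y.2
  let ι' : FreeGroup (Fin h × Bool) →* SurfGroup (h + h) 0 :=
    FreeGroup.lift fun y : Fin h × Bool => (fun i t => gn (h + h) (h + h - 1 - i) (!t)) y.1 y.2
  have hcent : ∀ p : FreeGroup (Fin h × Bool), Commute p (cc (le h) h) →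
      p ∈ Subgroup.zpowers (cc (le h) h) := by
    intro p hp
    refine cent_of_root (fun z k hk => ?_) hp
    have := congrArg (FreeGroup.lift fun y : Fin h × Bool => hU y.1 y.2) hk
    rw [map_zpow, lift_cc, cc_hU hh] at this
    exact Heis.root this
  obtain ⟨f, hf⟩ := exists_count (h + h) h
  refine ⟨⟨(), ι, ι', fun _ => 1, fun _ => cc (le h) h, rfl, ?_, ?_, ?_, fun _ => hcent,
    fun e e' _ hne => absurd rfl hne, ?_, ?_⟩⟩
  · intro _
    have h1 := gn_rel (h + h)
    rw [cc_add] at h1
    simp only [ι, ι', one_mul, inv_one, mul_one]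
    rw [lift_cc, lift_cc (fun i t => gn (h + h) (h + h - 1 - i) (!t)), cc_mirror]
    exact inv_eq_of_mul_eq_one_left h1
  · apply top_of_gn
    intro i hi t
    apply Subgroup.subset_closure
    by_cases hih : i < h
    · exact Or.inl (Or.inl ⟨le h i t, lift_le _ hih t⟩)
    · refine Or.inl (Or.inr ⟨le h (h + h - 1 - i) (!t), ?_⟩)
      simp only [ι']
      rw [lift_le (fun i t => gn (h + h) (h + h - 1 - i) (!t)) (by omega)]
      have : h + h - 1 - (h + h - 1 - i) = i := by omega
      simp only [this, Bool.not_not]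
  · intro G _ θ Z hZ
    let U : ℕ → Bool → G := fun i t =>
      if i < h then θ (le h i t) else Z () * θ (le h (h + h - 1 - i) (!t)) * (Z ())⁻¹
    have hU : cc U (h + h) = 1 := by
      rw [cc_add]
      have e1 : cc U h = θ (cc (le h) h) := by
        rw [map_cc]
        exact cc_congr fun i hi t => by simp only [U, if_pos hi]
      have e2 : cc (fun i => U (h + i)) h = Z () * (θ (cc (le h) h))⁻¹ * (Z ())⁻¹ := by
        rw [map_cc, ← cc_rev, ← cc_conj]
        refine cc_congr fun i hi t => ?_
        have : h + h - 1 - (h + i) = h - 1 - i := by omega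
        simp only [U, if_neg (show ¬ h + i < h by omega), this]
      rw [e1, e2, (hZ ()).inv_right.eq]
      simp
    obtain ⟨Θ, hΘ⟩ := exists_hom (h + h) U hU
    refine ⟨Θ, fun p => ?_, fun p => ?_, fun e => by simp⟩
    · have : Θ.comp ι = θ := by
        ext y
        have hy := y.1.2
        simp only [ι, MonoidHom.comp_apply, FreeGroup.lift_apply_of]
        rw [hΘ _ (by omega)]
        simp only [U, if_pos hy, le_of]
      exact DFunLike.congr_fun this p
    · have : Θ.comp ι' = (MulAut.conj (Z ())).toMonoidHom.comp θ := by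
        ext y
        have hy := y.1.2
        simp only [ι', MonoidHom.comp_apply, FreeGroup.lift_apply_of]
        rw [hΘ _ (by omega)]
        have e3 : h + h - 1 - (h + h - 1 - y.1) = y.1 := by omega
        simp only [U, if_neg (show ¬ h + h - 1 - y.1 < h by omega), e3, Bool.not_not, le_of]
        rfl
      exact DFunLike.congr_fun this p
  · intro y _ p hc
    obtain ⟨k, hk⟩ := hcent _ hc
    have := congrArg (ex y) hk
    simp only [map_zpow, map_mul, map_inv, map_cc, cc_comm, ex_self, one_zpow,
      mul_inv_cancel_comm] at this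
    exact absurd this (by decide)
  · intro y y' b b'
    refine sep_of_hom ι ι' f (fun y => ?_) (fun y => ?_) y y' b b'
    · have hy := y.1.2
      simp only [ι, FreeGroup.lift_apply_of]
      rw [hf _ (by omega), if_pos hy]
    · have hy := y.1.2
      simp only [ι', FreeGroup.lift_apply_of]
      rw [hf _ (by omega), if_neg (by omega)]

theorem dbl_odd (h : ℕ) (hh : 1 ≤ h) :
    Nonempty (Dbl (SurfGroup (2 * h + 1) 0) (Option (Fin h × Bool)) Bool) := by
  have h2 : 2 * h + 1 = h + 1 + h := by omega
  rw [h2]
  let g : ℕ → Bool → SurfGroup (h + 1 + h) 0 := gn (h + 1 + h)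
  let g' : ℕ → Bool → SurfGroup (h + 1 + h) 0 := fun i t => g (h + 1 + h - 1 - i) (!t)
  let ι : FreeGroup (Option (Fin h × Bool)) →* SurfGroup (h + 1 + h) 0 :=
    lf h g (g 0 true * g h false)
  let ι' : FreeGroup (Option (Fin h × Bool)) →* SurfGroup (h + 1 + h) 0 :=
    lf h g' (g' 0 true * (g h true * g h false * (g h true)⁻¹))
  let x : FreeGroup (Option (Fin h × Bool)) := (lo h 0 true)⁻¹ * FreeGroup.of none
  let γ : Bool → FreeGroup (Option (Fin h × Bool)) := fun e => cond e x (cc (lo h) h * x)
  let s : Bool → SurfGroup (h + 1 + h) 0 := fun e => cond e (g h true) 1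
  have hlo0 : lo h 0 true = FreeGroup.of (some (⟨0, hh⟩, true)) := by
    rw [lo, dif_pos (show 0 < h from hh)]
  have hιx : ι x = g h false := by
    simp only [ι, x, map_mul, map_inv, lf_none]
    rw [lf_lo _ _ (show 0 < h from hh)]
    simp
  have hι'x : ι' x = g h true * g h false * (g h true)⁻¹ := by
    simp only [ι', x, map_mul, map_inv, lf_none]
    rw [lf_lo _ _ (show 0 < h from hh)]
    simp
  have hex : ∀ (y : Option (Fin h × Bool)) (e : Bool), ex y (γ e) = ex y x := by
    intro y e
    cases e
    · simp only [γ, cond, map_mul, map_cc, cc_comm, one_mul]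
    · rfl
  have hexn : ex none x = Multiplicative.ofAdd 1 := by
    simp only [x, map_mul, map_inv, hlo0, ex_self]
    rw [ex_ne (by simp)]
    simp
  have hex0 : ex (some (⟨0, hh⟩, true)) x = (Multiplicative.ofAdd 1)⁻¹ := by
    simp only [x, map_mul, map_inv, hlo0, ex_self]
    rw [ex_ne (by simp)]
    simp
  have hcent : ∀ e p, Commute p (γ e) → p ∈ Subgroup.zpowers (γ e) := by
    intro e p hp
    refine cent_of_root (fun z k hk => ?_) hp
    have := congrArg (fun w => Multiplicative.toAdd (ex none w)) hk
    simp only [map_zpow, hex, hexn, toAdd_zpow, toAdd_ofAdd, smul_eq_mul] at this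
    exact Int.eq_one_or_neg_one_of_mul_eq_one this
  obtain ⟨f, hf⟩ := exists_count (h + 1 + h) h
  refine ⟨⟨false, ι, ι', s, γ, rfl, ?_, ?_, ?_, hcent, ?_, ?_, ?_⟩⟩
  · intro e
    cases e
    · have h1 := gn_rel (h + 1 + h)
      rw [cc_add, cc_succ] at h1
      simp only [γ, s, cond, map_mul, hιx, hι'x, one_mul, inv_one, mul_one]
      simp only [ι, ι', lf_cc, g']
      rw [cc_mirror]
      have h3 := inv_eq_of_mul_eq_one_left h1
      simp only [g]
      rw [h3]
      simp [cm, mul_assoc]
    · simp only [γ, s, cond, hιx, hι'x]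
  · apply top_of_gn
    intro i hi t
    apply Subgroup.subset_closure
    by_cases hih : i < h
    · exact Or.inl (Or.inl ⟨lo h i t, lf_lo _ _ hih t⟩)
    · by_cases hi2 : i = h
      · subst hi2
        cases t
        · exact Or.inl (Or.inl ⟨x, hιx⟩)
        · exact Or.inr ⟨true, rfl⟩
      · refine Or.inl (Or.inr ⟨lo h (h + 1 + h - 1 - i) (!t), ?_⟩)
        simp only [ι']
        rw [lf_lo _ _ (by omega)]
        have : h + 1 + h - 1 - (h + 1 + h - 1 - i) = i := by omega
        simp only [g', g, this, Bool.not_not]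
  · intro G _ θ Z hZ
    let U : ℕ → Bool → G := fun i t =>
      if i < h then θ (lo h i t) else if i = h then cond t (Z false * (Z true)⁻¹) (θ x)
        else Z false * θ (lo h (h + 1 + h - 1 - i) (!t)) * (Z false)⁻¹
    have hUa : U h false = θ x := by simp [U]
    have hUb : U h true = Z false * (Z true)⁻¹ := by simp [U]
    have hZ1 : (Z true)⁻¹ * θ x * Z true = θ x := by
      have : Commute (Z true) (θ x) := hZ true
      rw [mul_assoc, ← this.eq]
      simp
    have hZ0 : Z false * (θ (cc (lo h) h) * θ x) = θ (cc (lo h) h) * θ x * Z false := by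
      have := (hZ false).eq
      simpa only [γ, cond, map_mul] using this
    have hconj : U h true * U h false * (U h true)⁻¹ = Z false * θ x * (Z false)⁻¹ := by
      rw [hUa, hUb]
      conv_rhs => rw [← hZ1]
      simp [mul_assoc]
    have hU : cc U (h + 1 + h) = 1 := by
      rw [cc_add, cc_succ]
      have e1 : cc U h = θ (cc (lo h) h) := by
        rw [map_cc]
        exact cc_congr fun i hi t => by simp only [U, if_pos hi]
      have e2 : cc (fun i => U (h + 1 + i)) h
          = Z false * (θ (cc (lo h) h))⁻¹ * (Z false)⁻¹ := by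
        rw [map_cc, ← cc_rev, ← cc_conj]
        refine cc_congr fun i hi t => ?_
        have : h + 1 + h - 1 - (h + 1 + i) = h - 1 - i := by omega
        simp only [U, if_neg (show ¬ h + 1 + i < h by omega),
          if_neg (show ¬ h + 1 + i = h by omega), this]
      have e3 : cm (U h false) (U h true) = θ x * (Z false * θ x * (Z false)⁻¹)⁻¹ := by
        rw [← hconj, hUa]
        simp [cm, mul_assoc]
      rw [e1, e2, e3]
      calc _ = θ (cc (lo h) h) * θ x * Z false * (θ (cc (lo h) h) * θ x)⁻¹ * (Z false)⁻¹ := by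
            group
        _ = 1 := by rw [← hZ0]; group
    obtain ⟨Θ, hΘ⟩ := exists_hom (h + 1 + h) U hU
    have hm : ∀ i < h, ∀ t, Θ (g' i t) = Z false * θ (lo h i t) * (Z false)⁻¹ := by
      intro i hi t
      simp only [g', g]
      rw [hΘ _ (by omega)]
      have e3 : h + 1 + h - 1 - (h + 1 + h - 1 - i) = i := by omega
      simp only [U, if_neg (show ¬ h + 1 + h - 1 - i < h by omega),
        if_neg (show ¬ h + 1 + h - 1 - i = h by omega), e3, Bool.not_not]
    refine ⟨Θ, fun p => ?_, fun p => ?_, fun e => ?_⟩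
    · have : Θ.comp ι = θ := by
        ext y
        rcases y with _ | y
        · simp only [ι, MonoidHom.comp_apply, lf_none, map_mul, g]
          rw [hΘ _ (by omega), hΘ _ (by omega), hUa]
          simp only [U, if_pos (show 0 < h from hh), x, map_mul, map_inv]
          simp
        · have hy := y.1.2
          simp only [ι, MonoidHom.comp_apply, ← lo_of]
          rw [lf_lo _ _ hy, hΘ _ (by omega)]
          simp only [U, if_pos hy]
      exact DFunLike.congr_fun this p
    · have : Θ.comp ι' = (MulAut.conj (Z false)).toMonoidHom.comp θ := by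
        ext y
        rcases y with _ | y
        · simp only [ι', MonoidHom.comp_apply, lf_none, map_mul, map_inv]
          rw [hm _ (show 0 < h from hh)]
          simp only [g]
          rw [hΘ _ (by omega), hΘ _ (by omega), hconj]
          simp [x, mul_assoc]
        · have hy := y.1.2
          simp only [ι', MonoidHom.comp_apply, ← lo_of]
          rw [lf_lo _ _ hy, hm _ hy]
          rfl
      exact DFunLike.congr_fun this p
    · cases e
      · simp [s]
      · simp only [s, cond, g]
        rw [hΘ _ (by omega), hUb]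
  · intro e e' p hne hc
    obtain ⟨k, hk⟩ := hcent _ _ hc
    have h1 := congrArg (fun w => Multiplicative.toAdd (ex none w)) hk
    simp only [map_zpow, map_mul, map_inv, mul_inv_cancel_comm, hex, hexn, toAdd_zpow,
      toAdd_ofAdd, smul_eq_mul, mul_one] at h1
    subst h1
    have hφx : lf h hU (hg true) x = 1 := by
      simp only [x, map_mul, map_inv, lf_none]
      rw [lf_lo _ _ (show 0 < h from hh)]
      simp [hU]
    have h3 := congrArg (lf h hU (hg true)) hk
    have hne1 : (⟨0, 0, 1⟩ : Heis) ≠ 1 := fun h => by simpa using congrArg Heis.c h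
    cases e <;> cases e'
    · exact hne rfl
    · simp only [γ, cond, zpow_one, map_mul, map_inv, hφx, lf_cc, cc_hU hh, mul_one,
        mul_inv_cancel] at h3
      exact hne1 h3
    · simp only [γ, cond, zpow_one, map_mul, map_inv, hφx, lf_cc, cc_hU hh, mul_one] at h3
      exact hne1 (by
        have := h3.symm
        rwa [mul_inv_eq_one, mul_eq_left] at this)
    · exact hne rfl
  · intro y e p hc
    obtain ⟨k, hk⟩ := hcent _ _ hc
    have h1 := congrArg (fun w => Multiplicative.toAdd (ex none w)) hk
    simp only [map_zpow, map_mul, map_inv, mul_inv_cancel_comm, hex, hexn, toAdd_zpow,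
      toAdd_ofAdd, smul_eq_mul, mul_one] at h1
    rcases y with _ | y
    · rw [ex_self, toAdd_ofAdd] at h1
      subst h1
      have h3 := congrArg (ex (some (⟨0, hh⟩, true))) hk
      simp only [map_mul, map_inv, mul_inv_cancel_comm, hex, hex0, zpow_one] at h3
      rw [ex_ne (by simp)] at h3
      exact absurd h3 (by decide)
    · rw [ex_ne (by simp), toAdd_one] at h1
      subst h1
      have h3 := congrArg (ex (some y)) hk
      simp only [map_mul, map_inv, mul_inv_cancel_comm, zpow_zero, map_one, ex_self] at h3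
      exact absurd h3 (by decide)
  · intro y y' b b'
    have hf' : ∀ i < h + 1, ∀ t, f (g' i t) = 1 := by
      intro i hi t
      simp only [g', g]
      rw [hf _ (by omega), if_neg (by omega)]
    refine sep_of_hom ι ι' f (fun y => ?_) (fun y => ?_) y y' b b'
    · rcases y with _ | y
      · simp only [ι, lf_none, map_mul, g]
        rw [hf _ (by omega), hf _ (by omega), if_pos (show 0 < h from hh), if_neg (by omega),
          mul_one]
      · have hy := y.1.2
        simp only [ι, ← lo_of]
        rw [lf_lo _ _ hy, hf _ (by omega), if_pos hy]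
    · rcases y with _ | y
      · simp only [ι', lf_none, map_mul, map_inv, mul_inv_cancel_comm]
        rw [hf' _ (by omega)]
        simp only [g]
        rw [hf _ (by omega), if_neg (by omega), mul_one]
      · have hy := y.1.2
        simp only [ι', ← lo_of]
        rw [lf_lo _ _ hy, hf' _ (by omega)]

end Pool.Agent.P.MP_2d26dd_al
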