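import Mathlib

/-! Rank one matrices and top coefficients. -/

namespace Pool.Agent.P.MP_2d26dd_al

open Matrix Polynomial

variable {K : Type} [Field K]

theorem m6b_rank_one (T : Matrix (Fin 2) (Fin 2) K) (h : T.det = 0) :
    ∃ u v : Fin 2 → K, T = vecMulVec u v := by
  rw [Matrix.det_fin_two] at h
  by_cases h00 : T 0 0 = 0
  · by_cases h01 : T 0 1 = 0
    · refine ⟨![0, 1], ![T 1 0, T 1 1], ?_⟩
      ext i j
      fin_cases i <;> fin_cases j <;> simp [vecMulVec_apply, h00, h01]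
    · have h10 : T 1 0 = 0 := by
        rw [h00] at h
        have : T 0 1 * T 1 0 = 0 := by linear_combination -h
        exact (mul_eq_zero.1 this).resolve_left h01
      refine ⟨![T 0 1, T 1 1], ![0, 1], ?_⟩
      ext i j
      fin_cases i <;> fin_cases j <;> simp [vecMulVec_apply, h00, h10]
  · refine ⟨![T 0 0, T 1 0], ![1, T 0 1 / T 0 0], ?_⟩
    ext i j
    fin_cases i <;> fin_cases j <;> simp [vecMulVec_apply]
    · field_simp
    · field_simp
      linear_combination h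

theorem m6b_chain {S T U : Matrix (Fin 2) (Fin 2) K} (h : T.det = 0) (h1 : S * T ≠ 0)
    (h2 : T * U ≠ 0) : S * T * U ≠ 0 := by
  obtain ⟨u, v, rfl⟩ := m6b_rank_one T h
  rw [mul_vecMulVec] at h1
  rw [vecMulVec_mul] at h2
  rw [mul_vecMulVec, vecMulVec_mul]
  refine vecMulVec_ne_zero ?_ ?_
  · intro h0
    exact h1 (by rw [h0]; simp)
  · intro h0
    exact h2 (by rw [h0]; simp)

theorem m6b_sandwich {T : Matrix (Fin 2) (Fin 2) K} (h : T.det = 0)
    (A : Matrix (Fin 2) (Fin 2) K) : ∃ c : K, T * A * T = c • T := by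
  obtain ⟨u, v, rfl⟩ := m6b_rank_one T h
  refine ⟨(v ᵥ* A) ⬝ᵥ u, ?_⟩
  rw [vecMulVec_mul, vecMulVec_mul_vecMulVec, vecMulVec_smul]

theorem m6b_prod : ∀ (n : ℕ) (u w : Fin (n + 1) → Fin 2 → K),
    (∀ i : Fin n, w i.castSucc ⬝ᵥ u i.succ ≠ 0) →
    ∃ c : K, c ≠ 0 ∧ (List.ofFn fun i => vecMulVec (u i) (w i)).prod =
      c • vecMulVec (u 0) (w (Fin.last n))
  | 0, u, w, _ => ⟨1, one_ne_zero, by simp⟩
  | n + 1, u, w, h => by
    obtain ⟨c, hc, hp⟩ := m6b_prod n (fun i => u i.succ) (fun i => w i.succ)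
      (fun i => by
        have := h i.succ
        rwa [← Fin.succ_castSucc] at this)
    refine ⟨c * (w 0 ⬝ᵥ u 1), mul_ne_zero hc (by simpa using h 0), ?_⟩
    rw [List.ofFn_succ, List.prod_cons, hp, Matrix.mul_smul, vecMulVec_mul_vecMulVec,
      vecMulVec_smul, smul_smul]
    rfl

theorem m6b_trace_ne {k : ℕ} (T : Fin (k + 1) → Matrix (Fin 2) (Fin 2) K)
    (hd : ∀ i, (T i).det = 0) (h : ∀ i, T i * T (i + 1) ≠ 0) :
    Matrix.trace (List.ofFn T).prod ≠ 0 := by
  choose u w huw using fun i => m6b_rank_one (T i) (hd i)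
  have h' : ∀ i, w i ⬝ᵥ u (i + 1) ≠ 0 := by
    intro i h0
    apply h i
    rw [huw i, huw (i + 1), vecMulVec_mul_vecMulVec, h0]
    simp
  obtain ⟨c, hc, hp⟩ := m6b_prod k u w (fun i => by
    have := h' i.castSucc
    rwa [Fin.coeSucc_eq_succ] at this)
  have hT : T = fun i => vecMulVec (u i) (w i) := funext huw
  rw [hT, hp, Matrix.trace_smul, trace_vecMulVec, smul_eq_mul]
  refine mul_ne_zero hc ?_
  have := h' (Fin.last k)
  rw [Fin.last_add_one] at this
  rwa [dotProduct_comm]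

theorem m6b_spec [IsAlgClosed K] [CharZero K] (g : Matrix (Fin 2) (Fin 2) K) (hd : g.det = 1)
    (ht : Matrix.trace g ^ 2 ≠ 4) :
    ∃ (P : Matrix (Fin 2) (Fin 2) K) (l m a b : K), P = a • (1 : Matrix (Fin 2) (Fin 2) K) + b • g ∧
      g * P = l • P ∧ g * (1 - P) = m • (1 - P) ∧ P * P = P ∧ P.det = 0 ∧ (1 - P).det = 0 ∧
      P ≠ 0 ∧ 1 - P ≠ 0 := by
  obtain ⟨δ, hδ⟩ := IsAlgClosed.exists_eq_mul_self (Matrix.trace g ^ 2 - 4)
  have hδ0 : δ ≠ 0 := by
    rintro rfl
    apply ht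
    linear_combination hδ
  rw [Matrix.det_fin_two] at hd
  rw [Matrix.trace_fin_two] at hδ
  set t := g 0 0 + g 1 1 with htdef
  have h11 : g 1 1 = t - g 0 0 := by rw [htdef]; ring
  have hP : ∀ P : Matrix (Fin 2) (Fin 2) K, Matrix.trace P = 1 → P ≠ 0 := by
    rintro P h rfl
    simp at h
  refine ⟨(-(t - δ) / (2 * δ)) • (1 : Matrix (Fin 2) (Fin 2) K) + δ⁻¹ • g, (t + δ) / 2, (t - δ) / 2,
    _, _, rfl, ?_, ?_, ?_, ?_, ?_, hP _ ?_, hP _ ?_⟩
  · ext i j
    fin_cases i <;> fin_cases j <;> simp [Matrix.mul_apply, Fin.sum_univ_two, h11] <;>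
      rw [h11] at hd <;> field_simp
    · linear_combination (-4) * hd + hδ
    · ring
    · ring
    · linear_combination (-4) * hd + hδ
  · ext i j
    fin_cases i <;> fin_cases j <;> simp [Matrix.mul_apply, Fin.sum_univ_two, h11] <;>
      rw [h11] at hd <;> field_simp
    · linear_combination 4 * hd - hδ
    · ring
    · ring
    · linear_combination 4 * hd - hδ
  · ext i j
    fin_cases i <;> fin_cases j <;> simp [Matrix.mul_apply, Fin.sum_univ_two, h11] <;>
      rw [h11] at hd <;> field_simp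
    · linear_combination (-4) * hd + hδ
    · ring
    · ring
    · linear_combination (-4) * hd + hδ
  · simp [Matrix.det_fin_two, h11]
    rw [h11] at hd
    field_simp
    linear_combination 4 * hd - hδ
  · simp [Matrix.det_fin_two, h11]
    rw [h11] at hd
    field_simp
    linear_combination 4 * hd - hδ
  · simp [Matrix.trace_fin_two, h11]
    field_simp
    ring
  · simp [Matrix.trace_fin_two, h11]
    field_simp
    ring

/-- `M` is a polynomial matrix of degree at most `n` with top coefficient `T`. -/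
def M6bTop (n : ℕ) (M : Matrix (Fin 2) (Fin 2) (RatFunc K)) (T : Matrix (Fin 2) (Fin 2) K) :
    Prop :=
  ∃ N : Matrix (Fin 2) (Fin 2) K[X], M = N.map (algebraMap K[X] (RatFunc K)) ∧
    ∀ i j, (N i j).natDegree ≤ n ∧ (N i j).coeff n = T i j

theorem M6bTop.mul {n m : ℕ} {M M' : Matrix (Fin 2) (Fin 2) (RatFunc K)}
    {T T' : Matrix (Fin 2) (Fin 2) K} (h : M6bTop n M T) (h' : M6bTop m M' T') :
    M6bTop (n + m) (M * M') (T * T') := by
  obtain ⟨N, rfl, hN⟩ := h
  obtain ⟨N', rfl, hN'⟩ := h'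
  refine ⟨N * N', (Matrix.map_mul).symm, fun i j => ?_⟩
  simp only [Matrix.mul_apply, Fin.sum_univ_two]
  constructor
  · refine (natDegree_add_le _ _).trans (max_le ?_ ?_) <;>
      exact natDegree_mul_le.trans (add_le_add (hN _ _).1 (hN' _ _).1)
  · rw [coeff_add, coeff_mul_add_eq_of_natDegree_le (hN _ _).1 (hN' _ _).1,
      coeff_mul_add_eq_of_natDegree_le (hN _ _).1 (hN' _ _).1, (hN _ _).2, (hN _ _).2,
      (hN' _ _).2, (hN' _ _).2]

theorem M6bTop.const (A : Matrix (Fin 2) (Fin 2) K) : M6bTop 0 (A.map RatFunc.C) A := by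
  refine ⟨A.map Polynomial.C, ?_, fun i j => ?_⟩
  · ext i j
    simp
  · simp

theorem M6bTop.lin (P Q : Matrix (Fin 2) (Fin 2) K) :
    M6bTop 1 (P.map RatFunc.C + (RatFunc.X : RatFunc K) • Q.map RatFunc.C) Q := by
  refine ⟨P.map Polynomial.C + (Polynomial.X : K[X]) • Q.map Polynomial.C, ?_, fun i j => ?_⟩
  · ext i j
    simp only [Matrix.add_apply, Matrix.map_apply, Matrix.smul_apply, smul_eq_mul, map_add,
      map_mul, RatFunc.algebraMap_C, RatFunc.algebraMap_X]
  · simp only [Matrix.add_apply, Matrix.map_apply, Matrix.smul_apply, smul_eq_mul]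
    constructor
    · compute_degree
    · simp [coeff_C]

theorem M6bTop.list : ∀ (n : ℕ) (M : Fin n → Matrix (Fin 2) (Fin 2) (RatFunc K))
    (T : Fin n → Matrix (Fin 2) (Fin 2) K),
    (∀ i, M6bTop 2 ((RatFunc.X : RatFunc K) • M i) (T i)) →
    M6bTop (2 * n) ((RatFunc.X : RatFunc K) ^ n • (List.ofFn M).prod) (List.ofFn T).prod
  | 0, _, _, _ => by simpa using M6bTop.const (1 : Matrix (Fin 2) (Fin 2) K)
  | n + 1, M, T, h => by
    have h1 := (h 0).mul (M6bTop.list n (fun i => M i.succ) (fun i => T i.succ) fun i => h _)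
    rw [List.ofFn_succ, List.ofFn_succ, List.prod_cons, List.prod_cons,
      show 2 * (n + 1) = 2 + 2 * n by ring, pow_succ']
    rwa [Matrix.smul_mul, Matrix.mul_smul, smul_smul] at h1

theorem M6bTop.intDegree {n : ℕ} {M : Matrix (Fin 2) (Fin 2) (RatFunc K)}
    {T : Matrix (Fin 2) (Fin 2) K} (h : M6bTop (2 * n) ((RatFunc.X : RatFunc K) ^ n • M) T)
    (hT : Matrix.trace T ≠ 0) : (Matrix.trace M).intDegree = n := by
  obtain ⟨N, hM, hN⟩ := h
  have h1 : (RatFunc.X : RatFunc K) ^ n * Matrix.trace M =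
      algebraMap K[X] (RatFunc K) (N 0 0 + N 1 1) := by
    rw [← smul_eq_mul, ← Matrix.trace_smul, hM, Matrix.trace_fin_two]
    simp
  have hc : (N 0 0 + N 1 1).coeff (2 * n) ≠ 0 := by
    rwa [coeff_add, (hN _ _).2, (hN _ _).2, ← Matrix.trace_fin_two]
  have hdeg : (N 0 0 + N 1 1).natDegree = 2 * n :=
    le_antisymm ((natDegree_add_le _ _).trans (max_le (hN _ _).1 (hN _ _).1))
      (le_natDegree_of_ne_zero hc)
  have hN0 : N 0 0 + N 1 1 ≠ 0 := by
    intro h0
    rw [h0] at hc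
    simp at hc
  have hM0 : Matrix.trace M ≠ 0 := by
    intro h0
    rw [h0, mul_zero] at h1
    exact RatFunc.algebraMap_ne_zero hN0 h1.symm
  have hX : ((RatFunc.X : RatFunc K) ^ n).intDegree = n := by
    rw [← RatFunc.algebraMap_X, ← map_pow, RatFunc.intDegree_polynomial, natDegree_X_pow]
  have h2 := congrArg RatFunc.intDegree h1
  rw [RatFunc.intDegree_mul (pow_ne_zero _ RatFunc.X_ne_zero) hM0, hX,
    RatFunc.intDegree_polynomial, hdeg] at h2
  push_cast at h2
  omega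

end Pool.Agent.P.MP_2d26dd_al
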