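import Pool.Agent.P.MP_2d26dd_al.M5
import Pool.Agent.P.MP_2d26dd_al.M6bh1

/-! The order of the pole of the trace counts the round trips. -/

namespace Pool.Agent.P.MP_2d26dd_al

open Matrix

theorem m6b_commute {F K : Type} [Group F] [Field K] (θ : F →* GL (Fin 2) K)
    (hdet : ∀ p, (θ p : Matrix (Fin 2) (Fin 2) K).det = 1) (htr : ∀ p, tr (θ p) = 2 → p = 1)
    {x y : F} {R : Matrix (Fin 2) (Fin 2) K} (hR : R ≠ 0) {a b : K}
    (hx : (θ x : Matrix (Fin 2) (Fin 2) K) * R = a • R)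
    (hy : (θ y : Matrix (Fin 2) (Fin 2) K) * R = b • R) : Commute x y := by
  have h1 : (θ (x * y) : Matrix (Fin 2) (Fin 2) K) * R = (θ (y * x) : Matrix (Fin 2) (Fin 2) K) * R := by
    rw [map_mul, map_mul, Units.val_mul, Units.val_mul, Matrix.mul_assoc, Matrix.mul_assoc, hx, hy,
      Matrix.mul_smul, Matrix.mul_smul, hx, hy, smul_comm]
  have h2 : (θ ((y * x)⁻¹ * (x * y)) : Matrix (Fin 2) (Fin 2) K) * R = R := by
    rw [map_mul, Units.val_mul, Matrix.mul_assoc, h1, ← Matrix.mul_assoc, ← Units.val_mul,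
      ← map_mul, inv_mul_cancel, map_one, Units.val_one, Matrix.one_mul]
  set c := (y * x)⁻¹ * (x * y) with hc
  have h3 : ((θ c : Matrix (Fin 2) (Fin 2) K) - 1).det = 0 := by
    by_contra h0
    have hu : IsUnit ((θ c : Matrix (Fin 2) (Fin 2) K) - 1) :=
      (Matrix.isUnit_iff_isUnit_det _).2 (Ne.isUnit h0)
    apply hR
    apply hu.mul_left_cancel
    rw [Matrix.sub_mul, h2, Matrix.one_mul, sub_self, Matrix.mul_zero]
  have h4 : tr (θ c) = 2 := by
    have hd := hdet c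
    rw [Matrix.det_fin_two] at hd h3
    rw [tr, Matrix.trace_fin_two]
    simp only [Matrix.sub_apply, Matrix.one_apply_eq, ne_eq, zero_ne_one, not_false_eq_true,
      Matrix.one_apply_ne, one_ne_zero, sub_zero] at h3
    linear_combination hd - h3
  have h5 := htr c h4
  rw [hc, inv_mul_eq_one] at h5
  exact h5.symm

theorem m6b_pair {π β E K : Type} [Group π] [Field K] (D : Dbl π β E)
    (θ : FreeGroup β →* GL (Fin 2) K)
    (hdet : ∀ p, (θ p : Matrix (Fin 2) (Fin 2) K).det = 1) (htr : ∀ p, tr (θ p) = 2 → p = 1)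
    (T : E → Matrix (Fin 2) (Fin 2) K) (l : E → K)
    (hT : ∀ e, (θ (D.γ e) : Matrix (Fin 2) (Fin 2) K) * T e = l e • T e)
    (hT0 : ∀ e, T e ≠ 0) (hTd : ∀ e, (T e).det = 0) (e e' : E) (p : FreeGroup β)
    (hp : e = e' → p ∉ Subgroup.zpowers (D.γ e)) :
    (1 - T e) * (θ p : Matrix (Fin 2) (Fin 2) K) * T e' ≠ 0 := by
  intro h0
  have h1 : (θ p : Matrix (Fin 2) (Fin 2) K) * T e' = T e * θ p * T e' := by
    rw [Matrix.sub_mul, Matrix.sub_mul, Matrix.one_mul, sub_eq_zero] at h0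
    exact h0
  by_cases he : e = e'
  · subst he
    obtain ⟨c, hc⟩ := m6b_sandwich (hTd e) (θ p : Matrix (Fin 2) (Fin 2) K)
    exact hp rfl (D.cent e p (m6b_commute θ hdet htr (hT0 e) (h1.trans hc) (hT e)))
  · have hR : (θ p : Matrix (Fin 2) (Fin 2) K) * T e' ≠ 0 := by
      intro h
      apply hT0 e'
      apply (θ p).isUnit.mul_left_cancel
      rw [h, Matrix.mul_zero]
    refine D.sep e e' p he (m6b_commute θ hdet htr hR (a := l e') (b := l e) ?_ ?_)
    · rw [← Matrix.mul_assoc, ← Units.val_mul, ← map_mul, inv_mul_cancel_right, map_mul,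
        Units.val_mul, Matrix.mul_assoc, hT, Matrix.mul_smul]
    · rw [h1, ← Matrix.mul_assoc, ← Matrix.mul_assoc, hT, Matrix.smul_mul, Matrix.smul_mul]

theorem m6b_unit {K : Type} [Field K] {P : Matrix (Fin 2) (Fin 2) K} (hP : P * P = P) {x : K}
    (hx : x ≠ 0) : (P + x • (1 - P)) * (P + x⁻¹ • (1 - P)) = 1 := by
  have h1 : P * (1 - P) = 0 := by rw [Matrix.mul_sub, hP, Matrix.mul_one, sub_self]
  have h2 : (1 - P) * P = 0 := by rw [Matrix.sub_mul, hP, Matrix.one_mul, sub_self]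
  have h3 : (1 - P) * (1 - P) = 1 - P := by
    rw [Matrix.mul_sub, h2, Matrix.mul_one, sub_zero]
  rw [Matrix.add_mul, Matrix.mul_add, Matrix.mul_add, Matrix.mul_smul, Matrix.smul_mul,
    Matrix.smul_mul, Matrix.mul_smul, h1, h2, h3, hP, smul_smul, mul_inv_cancel₀ hx]
  simp

theorem m6b_main {π β E K : Type} [Group π] [Field K] [IsAlgClosed K] [CharZero K] [Nonempty β]
    (D : Dbl π β E) {α : MulAut π} (h2 : D.FoldInv α) (θ : FreeGroup β →* GL (Fin 2) K)
    (hdet : ∀ p, (θ p : Matrix (Fin 2) (Fin 2) K).det = 1)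
    (htr : ∀ p, tr (θ p) ^ 2 = 4 → p = 1) : ∃ ord : π → ℕ, D.Ord α ord := by
  have htr2 : ∀ p, tr (θ p) = 2 → p = 1 := fun p h => htr p (by rw [h]; norm_num)
  have hγ : ∀ e, Matrix.trace (θ (D.γ e) : Matrix (Fin 2) (Fin 2) K) ^ 2 ≠ 4 := by
    intro e h
    obtain ⟨y⟩ := ‹Nonempty β›
    apply D.notEdge y e 1
    rw [htr _ h]
    exact Commute.one_right _
  choose P l m a b hP hl hm hPP hd hd' h0 h0' using fun e => m6b_spec _ (hdet (D.γ e)) (hγ e)
  let θ' : FreeGroup β →* GL (Fin 2) (RatFunc K) :=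
    (Matrix.GeneralLinearGroup.map (RatFunc.C : K →+* RatFunc K)).comp θ
  have hθ' : ∀ p, (θ' p : Matrix (Fin 2) (Fin 2) (RatFunc K)) =
      (θ p : Matrix (Fin 2) (Fin 2) K).map RatFunc.C := fun _ => rfl
  let P' : E → Matrix (Fin 2) (Fin 2) (RatFunc K) := fun e => (P e).map RatFunc.C
  have hP' : ∀ e, P' e * P' e = P' e := fun e => by
    simp only [P']
    rw [← Matrix.map_mul, hPP]
  have hQ' : ∀ e, 1 - P' e = (1 - P e).map RatFunc.C := fun e => by
    ext i j
    by_cases h : i = j <;> simp [P', h]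
  have hX : (RatFunc.X : RatFunc K) ≠ 0 := RatFunc.X_ne_zero
  let Z : E → GL (Fin 2) (RatFunc K) := fun e =>
    ⟨P' e + (RatFunc.X : RatFunc K) • (1 - P' e), P' e + (RatFunc.X : RatFunc K)⁻¹ • (1 - P' e),
      m6b_unit (hP' e) hX, by simpa using m6b_unit (hP' e) (inv_ne_zero hX)⟩
  have hZ : ∀ e, ∃ a b : RatFunc K, (Z e : Matrix (Fin 2) (Fin 2) (RatFunc K)) =
      a • (1 : Matrix (Fin 2) (Fin 2) (RatFunc K)) +
        b • (θ' (D.γ e) : Matrix (Fin 2) (Fin 2) (RatFunc K)) := by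
    intro e
    refine ⟨RatFunc.X + (1 - RatFunc.X) * RatFunc.C (a e), (1 - RatFunc.X) * RatFunc.C (b e), ?_⟩
    rw [hθ']
    ext i j
    by_cases h : i = j <;> simp [Z, P', hP e, h] <;> ring
  obtain ⟨Θ, hΘ⟩ := D.univ _ θ' Z (fun e => by
    obtain ⟨a, b, h⟩ := hZ e
    apply Units.ext
    rw [Units.val_mul, Units.val_mul, h]
    simp [Matrix.add_mul, Matrix.mul_add])
  have hconj : ∀ x c : GL (Fin 2) (RatFunc K), tr (c * x * c⁻¹) = tr x := fun x c => by
    rw [tr, tr, Units.val_mul, Units.val_mul, Matrix.trace_mul_cycle, ← Units.val_mul,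
      inv_mul_cancel, Units.val_one, Matrix.one_mul]
  have hbase : ∀ p, (tr (θ' p)).intDegree = 0 := fun p => by
    rw [tr, hθ', Matrix.trace_fin_two, Matrix.map_apply, Matrix.map_apply, ← map_add,
      RatFunc.intDegree_C]
  refine ⟨fun x => (tr (Θ x)).intDegree.toNat, fun x c => ?_, fun x => ?_, fun p => ?_,
    fun p => ?_, fun k s hs => ?_⟩
  · rw [map_mul, map_mul, map_inv, hconj]
  · rw [h2 (RatFunc K) θ' Z Θ hZ hΘ]
  · rw [hΘ.1, hbase]
    rfl
  · rw [hΘ.2.1, hconj, hbase]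
    rfl
  · let T : Fin (k + 1) → Matrix (Fin 2) (Fin 2) K := fun i =>
      (1 - P (s i).1) * θ (s i).2.1 * P (s i).2.2.1 * θ (s i).2.2.2
    let M : Fin (k + 1) → Matrix (Fin 2) (Fin 2) (RatFunc K) := fun i => Θ (D.trip (s i))
    have hM : ∀ i, M6bTop 2 ((RatFunc.X : RatFunc K) • M i) (T i) := by
      intro i
      have h1 := (((M6bTop.lin (P (s i).1) (1 - P (s i).1)).mul
        (M6bTop.const (θ (s i).2.1 : Matrix (Fin 2) (Fin 2) K))).mul
        (M6bTop.lin (1 - P (s i).2.2.1) (P (s i).2.2.1))).mul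
        (M6bTop.const (θ (s i).2.2.2 : Matrix (Fin 2) (Fin 2) K))
      have h3 : Θ (D.trip (s i)) =
          Z (s i).1 * θ' (s i).2.1 * (Z (s i).2.2.1)⁻¹ * θ' (s i).2.2.2 := by
        rw [Dbl.trip, map_mul, map_mul, map_mul, map_inv, hΘ.1, hΘ.2.1, hΘ.2.2, hΘ.2.2]
        group
      have h4 : ∀ e, (1 - P e).map RatFunc.C + (RatFunc.X : RatFunc K) • (P e).map RatFunc.C =
          (RatFunc.X : RatFunc K) • ((Z e)⁻¹ : GL (Fin 2) (RatFunc K)).val := fun e => by
        change _ = (RatFunc.X : RatFunc K) • (P' e + (RatFunc.X : RatFunc K)⁻¹ • (1 - P' e))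
        rw [smul_add, smul_smul, mul_inv_cancel₀ hX, one_smul, hQ', add_comm]
      have h5 : ∀ e, (P e).map RatFunc.C + (RatFunc.X : RatFunc K) • (1 - P e).map RatFunc.C =
          (Z e).val := fun e => by
        rw [← hQ']
      rw [h4, h5, ← hθ', ← hθ', Matrix.mul_smul, Matrix.smul_mul] at h1
      simp only [M, h3, Units.val_mul]
      exact h1
    have hA : ∀ i, (1 - P (s i).1) * (θ (s i).2.1 : Matrix (Fin 2) (Fin 2) K) * P (s i).2.2.1 ≠ 0 :=
      fun i => m6b_pair D θ hdet htr2 P l hl h0 hd _ _ _ (hs i).1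
    have hB : ∀ i, P (s i).2.2.1 * (θ (s i).2.2.2 : Matrix (Fin 2) (Fin 2) K) *
        (1 - P (s (i + 1)).1) ≠ 0 := fun i => by
      have := m6b_pair D θ hdet htr2 (fun e => 1 - P e) m hm h0' hd' _ _ _ (hs i).2
      rwa [sub_sub_cancel] at this
    have hT : Matrix.trace (List.ofFn T).prod ≠ 0 := by
      refine m6b_trace_ne T (fun i => by simp [T, hd]) fun i h => ?_
      have e1 := m6b_chain (hd _) (hA i) (by simpa only [Matrix.mul_assoc] using hB i :
        P (s i).2.2.1 * ((θ (s i).2.2.2 : Matrix (Fin 2) (Fin 2) K) * (1 - P (s (i + 1)).1)) ≠ 0)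
      have e2 := m6b_chain (S := (1 - P (s i).1) * (θ (s i).2.1 : Matrix (Fin 2) (Fin 2) K) *
          P (s i).2.2.1 * (θ (s i).2.2.2 : Matrix (Fin 2) (Fin 2) K))
        (U := (θ (s (i + 1)).2.1 : Matrix (Fin 2) (Fin 2) K) * P (s (i + 1)).2.2.1) (hd' _)
        (by simpa only [Matrix.mul_assoc] using e1)
        (by simpa only [Matrix.mul_assoc] using hA (i + 1))
      apply e2
      apply (θ (s (i + 1)).2.2.2).isUnit.mul_right_cancel
      rw [Matrix.zero_mul]
      simpa only [T, Matrix.mul_assoc] using h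
    have h6 := (M6bTop.list (k + 1) M T hM).intDegree hT
    have h7 : tr (Θ (List.ofFn fun i => D.trip (s i)).prod) = Matrix.trace (List.ofFn M).prod := by
      have := map_list_prod ((Units.coeHom _).comp Θ) (List.ofFn fun i => D.trip (s i))
      rw [List.map_ofFn] at this
      exact congrArg Matrix.trace this
    change (tr (Θ _)).intDegree.toNat = _
    rw [h7, h6]
    rfl

theorem exists_ord {π β E : Type} [Group π] [DecidableEq β] [Fintype β] [Nonempty β]
    (D : Dbl π β E) {α : MulAut π} (h2 : D.FoldInv α) :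
    ∃ ord : π → ℕ, D.Ord α ord := by
  obtain ⟨θ, hdet, -, htr⟩ := exists_theta (β := β)
  let φ : RatFunc ℚ →+* AlgebraicClosure (RatFunc ℚ) := algebraMap _ _
  refine m6b_main D h2 ((Matrix.GeneralLinearGroup.map φ).comp θ) (fun p => ?_) (fun p h => ?_)
  · change (φ.mapMatrix (θ p : Matrix (Fin 2) (Fin 2) (RatFunc ℚ))).det = 1
    rw [← RingHom.map_det, hdet, map_one]
  · apply htr p
    apply φ.injective
    rw [map_pow, map_ofNat, ← h, tr, tr, Matrix.trace_fin_two, Matrix.trace_fin_two, map_add]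
    rfl

end Pool.Agent.P.MP_2d26dd_al
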