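import Pool.Agent.P.MP_2d26dd_al.MDefs

/-! Normal forms in a double. -/

namespace Pool.Agent.P.MP_2d26dd_al

namespace RM6c

variable {π β E : Type} [Group π] (D : Dbl π β E) {α : MulAut π} {ord : π → ℕ}

/-- Data of a round trip. -/
abbrev X (β E : Type) : Type := E × FreeGroup β × E × FreeGroup β

/-- Product of a list of round trips. -/
def T (L : List (X β E)) : π := (L.map D.trip).prod

/-- No pinch inside a trip. -/
def In (a : X β E) : Prop := a.1 = a.2.2.1 → a.2.1 ∉ Subgroup.zpowers (D.γ a.1)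

/-- No pinch between a trip and the next edge. -/
def R (a : X β E) (e : E) : Prop := a.2.2.1 = e → a.2.2.2 ∉ Subgroup.zpowers (D.γ a.2.2.1)

/-- First edge of a list of trips followed by the edge `e`. -/
def hd : List (X β E) → E → E
  | [], e => e
  | b :: _, _ => b.1

/-- A list of trips followed by the edge `e` has no pinch. -/
def Ch : List (X β E) → E → Prop
  | [], _ => True
  | a :: M, e => In D a ∧ R D a (hd M e) ∧ Ch M e

@[simp] theorem T_nil : T D [] = 1 := rfl

@[simp] theorem T_cons (a : X β E) (L : List (X β E)) : T D (a :: L) = D.trip a * T D L := by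
  simp [T]

@[simp] theorem T_append (L M : List (X β E)) : T D (L ++ M) = T D L * T D M := by
  simp [T]

theorem hd_append (L M : List (X β E)) (e : E) : hd (L ++ M) e = hd L (hd M e) := by
  cases L <;> rfl

theorem ch_append (L M : List (X β E)) (e : E) (h1 : Ch D L (hd M e)) (h2 : Ch D M e) :
    Ch D (L ++ M) e := by
  induction L with
  | nil => exact h2
  | cons a L ih =>
    obtain ⟨k1, k2, k3⟩ := h1
    refine ⟨k1, ?_, ih k3⟩
    have := hd_append L M e
    show R D a (hd (L ++ M) e)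
    rw [this]
    exact k2

theorem rel_mem (e : E) {g : FreeGroup β} (hg : g ∈ Subgroup.zpowers (D.γ e)) :
    D.ι' g = D.s e * D.ι g * (D.s e)⁻¹ := by
  obtain ⟨k, rfl⟩ := Subgroup.mem_zpowers_iff.1 hg
  rw [map_zpow, map_zpow, D.rel, conj_zpow]

theorem not_mem (y : β) (e : E) (p : FreeGroup β) :
    p * FreeGroup.of y * p⁻¹ ∉ Subgroup.zpowers (D.γ e) := by
  intro hm
  obtain ⟨k, hk⟩ := Subgroup.mem_zpowers_iff.1 hm
  apply D.notEdge y e p
  rw [← hk]
  exact (Commute.refl _).zpow_left k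

theorem trip_not_in {a : X β E} (h : ¬ In D a) : ∃ r, D.trip a = D.ι r := by
  obtain ⟨e, p, e', q⟩ := a
  simp only [In, Classical.not_imp, not_not] at h
  obtain ⟨rfl, hp⟩ := h
  refine ⟨p * q, ?_⟩
  simp only [Dbl.trip, rel_mem D e hp, map_mul]
  group

theorem trip_not_R {a : X β E} {e : E} (h : ¬ R D a e) :
    ∃ r, D.trip a * (D.s e)⁻¹ = (D.s a.1)⁻¹ * D.ι' r := by
  obtain ⟨e1, p, e', q⟩ := a
  simp only [R, Classical.not_imp, not_not] at h
  obtain ⟨rfl, hq⟩ := h
  refine ⟨p * q, ?_⟩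
  simp only [Dbl.trip, rel_mem D e' hq, map_mul]
  group

theorem merge {a b : X β E} (h : ¬ R D a b.1) : ∃ c, D.trip a * D.trip b = D.trip c := by
  obtain ⟨r, hr⟩ := trip_not_R D h
  refine ⟨(a.1, r * b.2.1, b.2.2.1, b.2.2.2), ?_⟩
  have h1 : D.trip a * D.trip b =
      (D.trip a * (D.s b.1)⁻¹) * (D.ι' b.2.1 * D.s b.2.2.1 * D.ι b.2.2.2) := by
    simp only [Dbl.trip]
    group
  rw [h1, hr]
  simp only [Dbl.trip, map_mul]
  group

theorem trip_mul (a : X β E) (r : FreeGroup β) :
    D.trip a * D.ι r = D.trip (a.1, a.2.1, a.2.2.1, a.2.2.2 * r) := by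
  simp only [Dbl.trip, map_mul]
  group

theorem absorb (L : List (X β E)) : ∀ p r : FreeGroup β, ∃ p' L', L'.length = L.length ∧
    D.ι p * T D L * D.ι r = D.ι p' * T D L' := by
  induction L with
  | nil => intro p r; exact ⟨p * r, [], rfl, by simp⟩
  | cons a L ih =>
    intro p r
    obtain ⟨p', L', h1, h2⟩ := ih 1 r
    refine ⟨p, (a.1, a.2.1, a.2.2.1, a.2.2.2 * p') :: L', by simp [h1], ?_⟩
    rw [map_one, one_mul] at h2
    rw [T_cons, T_cons, ← trip_mul]
    calc D.ι p * (D.trip a * T D L) * D.ι r = D.ι p * (D.trip a * (T D L * D.ι r)) := by group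
      _ = _ := by rw [h2]; group

theorem absorb' (a : X β E) (L : List (X β E)) (r : FreeGroup β) :
    ∃ a' L', L'.length = L.length ∧ T D (a :: L) * D.ι r = T D (a' :: L') := by
  obtain ⟨p', L', h1, h2⟩ := absorb D L 1 r
  refine ⟨(a.1, a.2.1, a.2.2.1, a.2.2.2 * p'), L', h1, ?_⟩
  rw [map_one, one_mul] at h2
  rw [T_cons, T_cons, ← trip_mul, mul_assoc, h2, mul_assoc]

theorem reduce (L : List (X β E)) : ∀ (p₀ : FreeGroup β) (e : E) (p : FreeGroup β),
    ¬ Ch D L e → ∃ p₀' L' e' p', L'.length < L.length ∧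
      D.ι p₀ * T D L * (D.s e)⁻¹ * D.ι' p = D.ι p₀' * T D L' * (D.s e')⁻¹ * D.ι' p' := by
  induction L with
  | nil => intro p₀ e p h; exact absurd trivial h
  | cons a M ih =>
    intro p₀ e p h
    by_cases h1 : In D a
    · by_cases h2 : R D a (hd M e)
      · have h3 : ¬ Ch D M e := fun h3 => h ⟨h1, h2, h3⟩
        obtain ⟨p1, M', e', p', k1, k2⟩ := ih 1 e p h3
        refine ⟨p₀, (a.1, a.2.1, a.2.2.1, a.2.2.2 * p1) :: M', e', p', by simp [k1], ?_⟩
        rw [map_one, one_mul] at k2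
        rw [T_cons, T_cons, ← trip_mul]
        calc D.ι p₀ * (D.trip a * T D M) * (D.s e)⁻¹ * D.ι' p
            = D.ι p₀ * D.trip a * (T D M * (D.s e)⁻¹ * D.ι' p) := by group
          _ = _ := by rw [k2]; group
      · cases M with
        | nil =>
          obtain ⟨r, hr⟩ := trip_not_R D (e := e) h2
          refine ⟨p₀, [], a.1, r * p, by simp, ?_⟩
          rw [T_cons, T_nil, map_mul]
          calc D.ι p₀ * (D.trip a * 1) * (D.s e)⁻¹ * D.ι' p
              = D.ι p₀ * (D.trip a * (D.s e)⁻¹) * D.ι' p := by group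
            _ = _ := by rw [hr]; group
        | cons b N =>
          obtain ⟨c, hc⟩ := merge D (b := b) h2
          refine ⟨p₀, c :: N, e, p, by simp, ?_⟩
          rw [T_cons, T_cons, T_cons, ← hc]
          group
    · obtain ⟨r, hr⟩ := trip_not_in D h1
      refine ⟨p₀ * r, M, e, p, by simp, ?_⟩
      rw [T_cons, hr, map_mul]
      group

theorem exists_list (x : π) : ∃ L, x = T D L := by
  have hx : x ∈ Subgroup.closure (Set.range D.ι ∪ Set.range D.ι' ∪ Set.range D.s) := by
    rw [D.gen]; trivial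
  induction hx using Subgroup.closure_induction'' with
  | one => exact ⟨[], rfl⟩
  | mem x hx =>
    rcases hx with (⟨p, rfl⟩ | ⟨p, rfl⟩) | ⟨e, rfl⟩
    · exact ⟨[(D.e₀, 1, D.e₀, p)], by simp [Dbl.trip]⟩
    · exact ⟨[(D.e₀, p, D.e₀, 1)], by simp [Dbl.trip, D.s₀]⟩
    · exact ⟨[(D.e₀, 1, e, 1)], by simp [Dbl.trip, D.s₀]⟩
  | inv_mem x hx =>
    rcases hx with (⟨p, rfl⟩ | ⟨p, rfl⟩) | ⟨e, rfl⟩
    · exact ⟨[(D.e₀, 1, D.e₀, p⁻¹)], by simp [Dbl.trip]⟩
    · exact ⟨[(D.e₀, p⁻¹, D.e₀, 1)], by simp [Dbl.trip, D.s₀]⟩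
    · exact ⟨[(e, 1, D.e₀, 1)], by simp [Dbl.trip, D.s₀]⟩
  | mul x y _ _ hx hy =>
    obtain ⟨L, rfl⟩ := hx
    obtain ⟨M, rfl⟩ := hy
    exact ⟨L ++ M, by simp⟩

theorem exists_half (w : π) :
    ∃ p₀ L e p, Ch D L e ∧ w = D.ι p₀ * T D L * (D.s e)⁻¹ * D.ι' p := by
  have key : ∀ n : ℕ, ∀ p₀ (L : List (X β E)) e p, L.length = n →
      ∃ p₀' L' e' p', Ch D L' e' ∧
        D.ι p₀ * T D L * (D.s e)⁻¹ * D.ι' p = D.ι p₀' * T D L' * (D.s e')⁻¹ * D.ι' p' := by
    intro n
    induction n using Nat.strong_induction_on with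
    | _ n ih =>
      intro p₀ L e p hL
      by_cases h : Ch D L e
      · exact ⟨p₀, L, e, p, h, rfl⟩
      · obtain ⟨p1, L1, e1, q1, k1, k2⟩ := reduce D L p₀ e p h
        rw [k2]
        exact ih _ (hL ▸ k1) p1 L1 e1 q1 rfl
  obtain ⟨L, hL⟩ := exists_list D w
  obtain ⟨p₀, L', e, p, h1, h2⟩ := key _ 1 L D.e₀ 1 rfl
  refine ⟨p₀, L', e, p, h1, ?_⟩
  rw [← h2, hL, D.s₀]
  simp

theorem ch_get (W : List (X β E)) (e : E) (h : Ch D W e) :
    ∀ (i : ℕ) (hi : i < W.length), In D W[i] ∧ R D W[i] (hd (W.drop (i + 1)) e) := by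
  induction W with
  | nil => intro i hi; simp at hi
  | cons a M ih =>
    intro i hi
    obtain ⟨k1, k2, k3⟩ := h
    cases i with
    | zero => exact ⟨k1, k2⟩
    | succ i => exact ih k3 i (by simpa using hi)

theorem hd_drop (W : List (X β E)) (e : E) (j : ℕ) (hj : j < W.length) :
    hd (W.drop j) e = W[j].1 := by
  rw [List.drop_eq_getElem_cons hj]
  rfl

theorem ord_list (h : D.Ord α ord) (a : X β E) (M : List (X β E)) (hc : Ch D (a :: M) a.1) :
    ord (T D (a :: M)) = M.length + 1 := by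
  have key := h.trips M.length (fun i => (a :: M)[i.1]'(by simpa using i.2)) ?_
  · rw [← key]
    congr 1
    unfold T
    congr 1
    apply List.ext_getElem
    · simp
    · intro i h1 h2
      rw [List.getElem_map, List.getElem_ofFn]
  · intro i
    obtain ⟨k1, k2⟩ := ch_get D _ _ hc i.1 (by simpa using i.2)
    refine ⟨k1, ?_⟩
    by_cases hi : i.1 + 1 < M.length + 1
    · rw [hd_drop _ _ _ (by simpa using hi)] at k2
      have h3 : (i + 1 : Fin (M.length + 1)).1 = i.1 + 1 := by
        rw [Fin.val_add_one_of_lt]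
        rw [Fin.lt_def, Fin.val_last]
        omega
      simp only [h3]
      exact k2
    · have h4 : i = Fin.last _ := by
        apply Fin.ext
        have := i.2
        rw [Fin.val_last]
        omega
      have h3 : (i + 1 : Fin (M.length + 1)).1 = 0 := by
        rw [h4, Fin.last_add_one]
        rfl
      have h5 : (a :: M).drop (i.1 + 1) = [] := by
        apply List.drop_eq_nil_of_le
        simp only [List.length_cons]
        omega
      rw [h5] at k2
      simp only [h3]
      exact k2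

/-- `C` is a product of `n` trips without pinch that starts and ends with the edge `e`. -/
def Core (C : π) (e : E) (n : ℕ) : Prop :=
  ∀ (v : FreeGroup β) (e₂ : E), (e = e₂ → v ∉ Subgroup.zpowers (D.γ e)) →
    ∃ (a : X β E) (W : List (X β E)), W.length = n ∧ a.1 = e ∧ Ch D (a :: W) e₂ ∧
      T D (a :: W) = C * D.ι v

theorem core_step {C : π} {e : E} {n : ℕ} (hC : Core D C e n) (a : X β E) (h1 : In D a)
    (h2 : R D a e) : Core D (D.trip a * C * (D.trip a)⁻¹) a.1 (n + 2) := by
  intro v e₂ hv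
  obtain ⟨b, W, k1, k2, k3, k4⟩ := hC a.2.2.2⁻¹ a.2.2.1 (by
    intro he hm
    subst he
    exact h2 rfl (inv_mem_iff.1 hm))
  refine ⟨a, (b :: W) ++ [(a.2.2.1, a.2.1⁻¹, a.1, v)], by simp [k1], rfl, ⟨h1, ?_, ?_⟩, ?_⟩
  · show R D a b.1
    rw [k2]
    exact h2
  · refine ch_append D _ _ _ k3 ⟨?_, hv, trivial⟩
    intro he hm
    have he' : a.2.2.1 = a.1 := he
    have hm' : a.2.1⁻¹ ∈ Subgroup.zpowers (D.γ a.2.2.1) := hm
    rw [he'] at hm'
    exact h1 he'.symm (inv_mem_iff.1 hm')
  · rw [T_cons, T_append, k4, T_cons, T_nil]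
    simp only [Dbl.trip, map_inv]
    group

theorem core_list {C : π} {e : E} {n : ℕ} (hC : Core D C e n) (L : List (X β E))
    (hL : Ch D L e) : Core D (T D L * C * (T D L)⁻¹) (hd L e) (n + 2 * L.length) := by
  induction L with
  | nil => simpa [hd] using hC
  | cons a M ih =>
    obtain ⟨k1, k2, k3⟩ := hL
    have h1 := core_step D (ih k3) a k1 k2
    have h2 : T D (a :: M) * C * (T D (a :: M))⁻¹ =
        D.trip a * (T D M * C * (T D M)⁻¹) * (D.trip a)⁻¹ := by
      rw [T_cons]; group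
    have h3 : n + 2 * (a :: M).length = n + 2 * M.length + 2 := by
      rw [List.length_cons]; ring
    rw [h2, h3]
    exact h1

theorem core_one (e : E) {u : FreeGroup β} (hu : u ∉ Subgroup.zpowers (D.γ e)) :
    Core D ((D.s e)⁻¹ * D.ι' u * D.s e) e 0 := by
  intro v e₂ hv
  exact ⟨(e, u, e, v), [], rfl, rfl, ⟨fun _ => hu, hv, trivial⟩, by simp [Dbl.trip]⟩

theorem core_two (a : X β E) (h1 : In D a) {u : FreeGroup β}
    (hu : a.2.2.2 * u * a.2.2.2⁻¹ ∉ Subgroup.zpowers (D.γ a.2.2.1)) :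
    Core D (D.trip a * D.ι u * (D.trip a)⁻¹) a.1 1 := by
  intro v e₂ hv
  refine ⟨(a.1, a.2.1, a.2.2.1, a.2.2.2 * u * a.2.2.2⁻¹), [(a.2.2.1, a.2.1⁻¹, a.1, v)], rfl, rfl,
    ⟨h1, fun _ => hu, ?_, hv, trivial⟩, ?_⟩
  · intro he hm
    have he' : a.2.2.1 = a.1 := he
    have hm' : a.2.1⁻¹ ∈ Subgroup.zpowers (D.γ a.2.2.1) := hm
    rw [he'] at hm'
    exact h1 he'.symm (inv_mem_iff.1 hm')
  · rw [T_cons, T_cons, T_nil]
    simp only [Dbl.trip, map_inv, map_mul]
    group

theorem ord_core (h : D.Ord α ord) {C : π} {e : E} {n : ℕ} (hC : Core D C e n)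
    {v : FreeGroup β} (hv : v ∉ Subgroup.zpowers (D.γ e)) : ord (C * D.ι v) = n + 1 := by
  obtain ⟨a, W, k1, k2, k3, k4⟩ := hC v e fun _ => hv
  rw [← k4, ← k1]
  exact ord_list D h a W (k2 ▸ k3)

theorem ord_core' (h : D.Ord α ord) {C : π} {e : E} {n : ℕ} (hC : Core D C e n) (f : E)
    {u p : FreeGroup β} (hu : u ∉ Subgroup.zpowers (D.γ f))
    (hp : f = e → p ∉ Subgroup.zpowers (D.γ f)) :
    ord (D.trip (f, u, f, p) * (C * D.ι p⁻¹)) = n + 2 := by
  obtain ⟨a, W, k1, k2, k3, k4⟩ := hC p⁻¹ f (by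
    intro he hm
    subst he
    exact hp rfl (inv_mem_iff.1 hm))
  rw [← k4, ← T_cons, ← k1]
  refine ord_list D h (f, u, f, p) (a :: W) ⟨fun _ => hu, ?_, k3⟩
  show R D (f, u, f, p) a.1
  rw [k2]
  exact hp

theorem not_mem' (y : β) (e : E) (p : FreeGroup β) :
    p⁻¹ * FreeGroup.of y * p ∉ Subgroup.zpowers (D.γ e) := by
  have := not_mem D y e p⁻¹
  rwa [inv_inv] at this

end RM6c

open RM6c

variable {π β E : Type} [Group π] (D : Dbl π β E) {α : MulAut π} {ord : π → ℕ}

theorem conj_of_ord_zero (h : D.Ord α ord) {x : π} (hx : ord x = 0) :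
    ∃ p, IsConj x (D.ι p) ∨ IsConj x (D.ι' p) := by
  have key : ∀ n : ℕ, ∀ p₀ (L : List (X β E)), L.length = n → IsConj x (D.ι p₀ * T D L) →
      ∃ p, IsConj x (D.ι p) ∨ IsConj x (D.ι' p) := by
    intro n
    induction n using Nat.strong_induction_on with
    | _ n ih =>
      intro p₀ L hL hc
      cases L with
      | nil => exact ⟨p₀, Or.inl (by simpa using hc)⟩
      | cons a₀ M₀ =>
        obtain ⟨a, M, k1, k2⟩ := absorb' D a₀ M₀ p₀
        have hn : M.length + 1 = n := by rw [k1, ← hL, List.length_cons]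
        have hc' : IsConj x (T D (a :: M)) := by
          refine hc.trans (isConj_iff.2 ⟨(D.ι p₀)⁻¹, ?_⟩)
          rw [← k2]
          group
        by_cases h1 : In D a
        · by_cases h2 : R D a (hd M a.1)
          · by_cases h3 : Ch D M a.1
            · exfalso
              obtain ⟨c, hc2⟩ := isConj_iff.1 hc'
              have := ord_list D h a M ⟨h1, h2, h3⟩
              rw [← hc2, h.conj, hx] at this
              omega
            · obtain ⟨p1, M', e', p', j1, j2⟩ := reduce D M 1 a.1 a.2.1 h3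
              refine ih (M'.length + 1) (by omega) p1 (M' ++ [(e', p', a.2.2.1, a.2.2.2)])
                (by simp) (hc'.trans (isConj_iff.2 ⟨(D.trip a)⁻¹, ?_⟩))
              rw [map_one, one_mul] at j2
              rw [T_cons, T_append, T_cons, T_nil]
              calc (D.trip a)⁻¹ * (D.trip a * T D M) * (D.trip a)⁻¹⁻¹
                  = (T D M * (D.s a.1)⁻¹ * D.ι' a.2.1) * D.s a.2.2.1 * D.ι a.2.2.2 := by
                    simp only [Dbl.trip]; group
                _ = _ := by rw [j2]; simp only [Dbl.trip]; group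
          · cases M with
            | nil =>
              obtain ⟨r, hr⟩ := trip_not_R D (e := a.1) h2
              refine ⟨r, Or.inr (hc'.trans (isConj_iff.2 ⟨D.s a.1, ?_⟩))⟩
              rw [T_cons, T_nil, mul_one, mul_assoc, hr]
              group
            | cons b N =>
              obtain ⟨c, hc2⟩ := merge D (b := b) h2
              refine ih (N.length + 1) (by simp at hn; omega) 1 (c :: N) rfl ?_
              rw [map_one, one_mul, T_cons, ← hc2, mul_assoc, ← T_cons, ← T_cons]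
              exact hc'
        · obtain ⟨r, hr⟩ := trip_not_in D h1
          refine ih M.length (by omega) r M rfl ?_
          rw [← hr, ← T_cons]
          exact hc'
  obtain ⟨L, hL⟩ := exists_list D x
  exact key _ 1 L rfl (by rw [map_one, one_mul, ← hL])

theorem mem_of_ord_zero (h : D.Ord α ord) (y y' : β) {w : π}
    (hw : ord (D.ι (FreeGroup.of y) * (w * D.ι (FreeGroup.of y') * w⁻¹)) = 0) :
    w ∈ D.ι.range := by
  have key : ∀ n : ℕ, ∀ p₀ (L : List (X β E)), L.length = n → w = D.ι p₀ * T D L →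
      w ∈ D.ι.range := by
    intro n
    induction n using Nat.strong_induction_on with
    | _ n ih =>
      intro p₀ L hL hc
      rcases List.eq_nil_or_concat L with rfl | ⟨M, a, rfl⟩
      · exact ⟨p₀, by simp [hc]⟩
      · rw [List.concat_eq_append] at hL hc
        have hn : M.length + 1 = n := by simpa using hL
        rw [T_append, T_cons, T_nil, mul_one] at hc
        by_cases h1 : In D a
        · by_cases h3 : Ch D M a.1
          · exfalso
            have h4 := ord_core D h (core_list D (core_two D a h1 (not_mem D y' _ _)) M h3)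
              (not_mem' D y _ p₀)
            have h5 : T D M * (D.trip a * D.ι (FreeGroup.of y') * (D.trip a)⁻¹) * (T D M)⁻¹ *
                D.ι (p₀⁻¹ * FreeGroup.of y * p₀) = (D.ι (FreeGroup.of y) * D.ι p₀)⁻¹ *
                  (D.ι (FreeGroup.of y) * (w * D.ι (FreeGroup.of y') * w⁻¹)) *
                  (D.ι (FreeGroup.of y) * D.ι p₀)⁻¹⁻¹ := by
              rw [hc, map_mul, map_mul, map_inv]
              group
            rw [h5, h.conj, hw] at h4
            omega
          · obtain ⟨p1, M', e', p', j1, j2⟩ := reduce D M p₀ a.1 a.2.1 h3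
            refine ih (M'.length + 1) (by omega) p1 (M' ++ [(e', p', a.2.2.1, a.2.2.2)])
              (by simp) ?_
            rw [T_append, T_cons, T_nil, hc]
            calc D.ι p₀ * (T D M * D.trip a)
                = (D.ι p₀ * T D M * (D.s a.1)⁻¹ * D.ι' a.2.1) * D.s a.2.2.1 * D.ι a.2.2.2 := by
                  simp only [Dbl.trip]; group
              _ = _ := by rw [j2]; simp only [Dbl.trip]; group
        · obtain ⟨r, hr⟩ := trip_not_in D h1
          obtain ⟨p1, M', j1, j2⟩ := absorb D M p₀ r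
          refine ih M.length (by omega) p1 M' j1 ?_
          rw [hc, hr, ← j2, mul_assoc]
  obtain ⟨L, hL⟩ := exists_list D w
  exact key _ 1 L rfl (by rw [map_one, one_mul, ← hL])

theorem mem_of_ord_zero' (h : D.Ord α ord) (y y' : β) {w : π}
    (hw : ord (D.ι' (FreeGroup.of y) * (w * D.ι' (FreeGroup.of y') * w⁻¹)) = 0) :
    w ∈ D.ι'.range := by
  have key : ∀ n : ℕ, ∀ r f p₀ (L : List (X β E)) e p, L.length = n →
      w = D.ι' r * D.s f * (D.ι p₀ * T D L * (D.s e)⁻¹ * D.ι' p) → w ∈ D.ι'.range := by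
    intro n
    induction n using Nat.strong_induction_on with
    | _ n ih =>
      intro r f p₀ L e p hL hc
      by_cases h3 : Ch D L e
      · by_cases h1 : f = hd L e → p₀ ∉ Subgroup.zpowers (D.γ f)
        · exfalso
          have h4 := ord_core' D h (core_list D (core_one D e (not_mem D y' e p)) L h3) f
            (not_mem' D y f r) h1
          have h5 : D.trip (f, r⁻¹ * FreeGroup.of y * r, f, p₀) *
              (T D L * ((D.s e)⁻¹ * D.ι' (p * FreeGroup.of y' * p⁻¹) * D.s e) * (T D L)⁻¹ *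
                D.ι p₀⁻¹) = (D.ι' r * D.s f)⁻¹ *
                (D.ι' (FreeGroup.of y) * (w * D.ι' (FreeGroup.of y') * w⁻¹)) *
                (D.ι' r * D.s f)⁻¹⁻¹ := by
            rw [hc]
            simp only [Dbl.trip, map_mul, map_inv]
            group
          rw [h5, h.conj, hw] at h4
          omega
        · simp only [Classical.not_imp, not_not] at h1
          obtain ⟨h1, h2⟩ := h1
          have h6 := rel_mem D f h2
          cases L with
          | nil =>
            have h7 : f = e := h1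
            subst h7
            refine ⟨r * p₀ * p, ?_⟩
            rw [hc, map_mul, map_mul, h6, T_nil]
            group
          | cons a M =>
            have h7 : f = a.1 := h1
            refine ih M.length (by simp at hL; omega) (r * p₀ * a.2.1) a.2.2.1 a.2.2.2 M e p rfl ?_
            rw [hc, map_mul, map_mul, h6, T_cons, h7]
            simp only [Dbl.trip]
            group
      · obtain ⟨p1, L', e', p', j1, j2⟩ := reduce D L p₀ e p h3
        exact ih L'.length (by omega) r f p1 L' e' p' rfl (by rw [hc, j2])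
  obtain ⟨L, hL⟩ := exists_list D w
  exact key _ 1 D.e₀ 1 L D.e₀ 1 rfl (by simp [D.s₀, ← hL])

theorem edge_of_ord_one (h : D.Ord α ord) (y y' : β) {w : π}
    (hw : ord (D.ι (FreeGroup.of y) * (w * D.ι' (FreeGroup.of y') * w⁻¹)) = 1) :
    ∃ p e q, w = D.ι p * (D.s e)⁻¹ * D.ι' q := by
  obtain ⟨p₀, L, e, p, h3, hc⟩ := exists_half D w
  have h4 := ord_core D h (core_list D (core_one D e (not_mem D y' e p)) L h3)
    (not_mem' D y _ p₀)
  have h5 : T D L * ((D.s e)⁻¹ * D.ι' (p * FreeGroup.of y' * p⁻¹) * D.s e) * (T D L)⁻¹ *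
      D.ι (p₀⁻¹ * FreeGroup.of y * p₀) = (D.ι (FreeGroup.of y) * D.ι p₀)⁻¹ *
        (D.ι (FreeGroup.of y) * (w * D.ι' (FreeGroup.of y') * w⁻¹)) *
        (D.ι (FreeGroup.of y) * D.ι p₀)⁻¹⁻¹ := by
    rw [hc]
    simp only [map_mul, map_inv]
    group
  rw [h5, h.conj, hw] at h4
  have h6 : L = [] := List.length_eq_zero_iff.1 (by omega)
  subst h6
  exact ⟨p₀, e, p, by simpa using hc⟩

theorem ord_edge (h : D.Ord α ord) (y y' : β) (e : E) :
    ord (D.ι (FreeGroup.of y) * ((D.s e)⁻¹ * D.ι' (FreeGroup.of y') * ((D.s e)⁻¹)⁻¹)) = 1 := by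
  have h1 : FreeGroup.of y' ∉ Subgroup.zpowers (D.γ e) := by simpa using not_mem D y' e 1
  have h2 : FreeGroup.of y ∉ Subgroup.zpowers (D.γ e) := by simpa using not_mem D y e 1
  have h4 := ord_core D h (core_one D e h1) h2
  have h5 : D.ι (FreeGroup.of y) * ((D.s e)⁻¹ * D.ι' (FreeGroup.of y') * ((D.s e)⁻¹)⁻¹) =
      D.ι (FreeGroup.of y) * ((D.s e)⁻¹ * D.ι' (FreeGroup.of y') * D.s e *
        D.ι (FreeGroup.of y)) * (D.ι (FreeGroup.of y))⁻¹ := by
    group
  rw [h5, h.conj, h4]

end Pool.Agent.P.MP_2d26dd_al
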