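import Pool.Agent.P.MP_2d26dd_al.M5b
import Pool.Agent.P.MP_2d26dd_al.M6b
import Pool.Agent.P.MP_2d26dd_al.M6c

/-! Rigidity in a double. -/

namespace Pool.Agent.P.MP_2d26dd_al

namespace M6d

theorem add_one {π : Type} [Group π] {f : π → ℚ} (hf : IsAdd f) : f 1 = 0 := by
  have := hf 1 1
  rw [one_mul] at this
  linarith

theorem add_inv {π : Type} [Group π] {f : π → ℚ} (hf : IsAdd f) (x : π) : f x⁻¹ = - f x := by
  have := hf x x⁻¹
  rw [mul_inv_cancel, add_one hf] at this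
  linarith

theorem add_conj {π : Type} [Group π] {f : π → ℚ} (hf : IsAdd f) (c x : π) :
    f (c * x * c⁻¹) = f x := by
  rw [hf, hf, add_inv hf]
  ring

theorem add_isConj {π : Type} [Group π] {f : π → ℚ} (hf : IsAdd f) {x y : π} (h : IsConj x y) :
    f x = f y := by
  obtain ⟨c, rfl⟩ := isConj_iff.1 h
  rw [add_conj hf]

theorem tr_conj {R : Type} [CommRing R] (c g : GL (Fin 2) R) : tr (c * g * c⁻¹) = tr g := by
  unfold tr
  rw [Units.val_mul, Matrix.trace_mul_comm, ← Units.val_mul, ← mul_assoc, inv_mul_cancel, one_mul]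

/-- The exponent of a letter. -/
def expo {β : Type} [DecidableEq β] (y : β) : FreeGroup β →* Multiplicative ℚ :=
  FreeGroup.lift fun z => Multiplicative.ofAdd (if z = y then 1 else 0)

theorem expo_lt {β : Type} [DecidableEq β] {y y' : β} {b : Bool}
    (h : expo y (lt y' b) = expo y (FreeGroup.of y)) : lt y' b = FreeGroup.of y := by
  have e1 : expo y (FreeGroup.of y) = Multiplicative.ofAdd 1 := by simp [expo]
  rw [e1] at h
  cases b
  · rw [lt_false, map_inv] at h
    by_cases hy : y' = y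
    · subst hy
      rw [e1] at h
      have := congrArg Multiplicative.toAdd h
      simp only [toAdd_inv, toAdd_ofAdd] at this
      norm_num at this
    · have e2 : expo y (FreeGroup.of y') = Multiplicative.ofAdd 0 := by simp [expo, hy]
      rw [e2] at h
      have := congrArg Multiplicative.toAdd h
      simp only [toAdd_inv, toAdd_ofAdd] at this
      norm_num at this
  · rw [lt_true] at h ⊢
    by_cases hy : y' = y
    · rw [hy]
    · have e2 : expo y (FreeGroup.of y') = Multiplicative.ofAdd 0 := by simp [expo, hy]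
      rw [e2] at h
      have := congrArg Multiplicative.toAdd h
      simp only [toAdd_ofAdd] at this
      norm_num at this

variable {π β E : Type} [Group π] (D : Dbl π β E)

theorem gamma_ne_one [Nonempty β] (e : E) : D.γ e ≠ 1 := by
  intro h
  obtain ⟨y⟩ := ‹Nonempty β›
  exact D.notEdge y e 1 (by rw [h]; exact Commute.one_right _)

include D in
theorem central_eq_one [Nonempty β] {C : FreeGroup β} (h : ∀ p, Commute C p) : C = 1 := by
  obtain ⟨m, hm⟩ := Subgroup.mem_zpowers_iff.1 (D.cent D.e₀ C (h _))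
  by_cases h0 : m = 0
  · rw [← hm, h0, zpow_zero]
  · exfalso
    obtain ⟨y⟩ := ‹Nonempty β›
    apply D.notEdge y D.e₀ 1
    rw [one_mul, inv_one, mul_one]
    have e1 : (FreeGroup.of y * D.γ D.e₀ * (FreeGroup.of y)⁻¹) ^ m = D.γ D.e₀ ^ m := by
      rw [conj_zpow, hm, ← (h (FreeGroup.of y)).eq, mul_inv_cancel_right]
    have e2 := (zpow_left_inj h0).1 e1
    exact mul_inv_eq_iff_eq_mul.1 e2

/-- Admissible folding data. -/
def Adm (Z : E → FreeGroup β) : Prop := ∀ e, Z e = 1 ∨ Z e = D.γ e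

theorem exists_fold {Z : E → FreeGroup β} (hZ : Adm D Z) :
    ∃ ρ : π →* FreeGroup β, D.Fold (MonoidHom.id _) Z ρ := by
  refine D.univ (FreeGroup β) (MonoidHom.id _) Z fun e => ?_
  rcases hZ e with h | h <;> rw [h]
  · exact Commute.one_left _
  · exact Commute.refl _

theorem cyc_fold [DecidableEq β] [Fintype β] {α : MulAut π} (h2 : D.FoldInv α)
    {Z : E → FreeGroup β} (hZ : Adm D Z) {ρ : π →* FreeGroup β}
    (hρ : D.Fold (MonoidHom.id _) Z ρ) (x : π) : cyc (ρ (α x)) = cyc (ρ x) := by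
  obtain ⟨θ, -, hθ, -⟩ := exists_theta (β := β)
  apply hθ
  refine h2 (RatFunc ℚ) θ (fun e => θ (Z e)) (θ.comp ρ) (fun e => ?_) ⟨fun p => ?_, fun p => ?_,
    fun e => ?_⟩ x
  · rcases hZ e with h | h
    · exact ⟨1, 0, by rw [h, map_one]; simp⟩
    · exact ⟨0, 1, by rw [h]; simp⟩
  · rw [MonoidHom.comp_apply, hρ.1]; rfl
  · rw [MonoidHom.comp_apply, hρ.2.1, map_mul, map_mul, map_inv]; rfl
  · rw [MonoidHom.comp_apply, hρ.2.2, map_mul, map_inv]

theorem fold_eq_one [DecidableEq β] [Fintype β] {α : MulAut π} (h2 : D.FoldInv α)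
    {Z : E → FreeGroup β} (hZ : Adm D Z) {ρ : π →* FreeGroup β}
    (hρ : D.Fold (MonoidHom.id _) Z ρ) {x : π} (hx : ρ x = 1) : ρ (α x) = 1 := by
  rw [← cyc_eq_zero, cyc_fold D h2 hZ hρ, cyc_eq_zero, hx]

/-- An element of edge shape whose folded images are those of an edge is that edge. -/
theorem eq_edge [Nonempty β] {w : π} {p q : FreeGroup β} {e e' : E}
    (hw : w = D.ι p * (D.s e')⁻¹ * D.ι' q)
    (h : ∀ Z ρ, Adm D Z → D.Fold (MonoidHom.id _) Z ρ → ρ w = Z e * (Z D.e₀)⁻¹) :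
    w = (D.s e)⁻¹ := by
  classical
  have key : ∀ Z, Adm D Z → p * Z e' * q = Z e := by
    intro Z hZ
    obtain ⟨ρ, hρ⟩ := exists_fold D hZ
    have := h Z ρ hZ hρ
    rw [hw, map_mul, map_mul, map_inv, hρ.1, hρ.2.1, hρ.2.2] at this
    simp only [MonoidHom.id_apply] at this
    have e1 : p * Z e' * q * (Z D.e₀)⁻¹ = Z e * (Z D.e₀)⁻¹ := by
      rw [← this]; group
    exact mul_right_cancel e1
  have k0 := key (fun _ => 1) (fun _ => Or.inl rfl)
  simp only [mul_one] at k0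
  have hq : q = p⁻¹ := eq_inv_of_mul_eq_one_right k0
  have k1 := key (fun x => if x = e then D.γ e else 1) (fun x => by
    by_cases hx : x = e
    · right; simp [hx]
    · left; simp [hx])
  by_cases he : e' = e
  · subst he
    simp only [if_true] at k1
    rw [hq] at k1
    have hc : Commute p (D.γ e') := mul_inv_eq_iff_eq_mul.1 k1
    obtain ⟨m, hm⟩ := Subgroup.mem_zpowers_iff.1 (D.cent e' p hc)
    rw [hw, hq, ← hm, map_inv, map_zpow, map_zpow, D.rel, conj_zpow]
    group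
  · simp only [if_neg he, if_true, mul_one] at k1
    exact absurd (k1.symm.trans k0) (gamma_ne_one D e)

/-- One half of the first step, for either of the two vertex groups. -/
theorem inner_half [DecidableEq β] [Fintype β] [Nonempty β] {α : MulAut π} (h1 : AddInv α)
    (ρ : π →* FreeGroup β) (hcyc : ∀ x, cyc (ρ (α x)) = cyc (ρ x)) (j j' : FreeGroup β →* π)
    (hj : ∀ p, ρ (j p) = p) (hj' : ∀ p, ρ (j' p) = p) (ord : π → ℕ)
    (hconj : ∀ x c, ord (c * x * c⁻¹) = ord x) (hinv : ∀ x, ord (α x) = ord x)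
    (hbase : ∀ p, ord (j p) = 0)
    (hzero : ∀ x, ord x = 0 → ∃ p, IsConj x (j p) ∨ IsConj x (j' p))
    (hsep : ∀ y y' b, ∃ f : π → ℚ, IsAdd f ∧ f (j (FreeGroup.of y)) ≠ f (j' (lt y' b)))
    (hmem : ∀ y y' w, ord (j (FreeGroup.of y) * (w * j (FreeGroup.of y') * w⁻¹)) = 0 →
      w ∈ j.range) :
    ∃ c, ∀ p, α (j p) = c * j p * c⁻¹ := by
  have hone : ∀ (y : β) (i : FreeGroup β →* π), (∀ p, ρ (i p) = p) → ∀ p,
      IsConj (α (j (FreeGroup.of y))) (i p) →
      ∃ y' b, IsConj (α (j (FreeGroup.of y))) (i (lt y' b)) := by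
    intro y i hi p hp
    have e1 : IsConj (ρ (α (j (FreeGroup.of y)))) p := by
      have := ρ.map_isConj hp
      rwa [hi] at this
    obtain ⟨c, hc⟩ := isConj_iff.1 e1
    have e2 : cyc p = 1 := by rw [← hc, cyc_conj, hcyc, hj, cyc_of]
    obtain ⟨y', b, hb⟩ := cyc_eq_one e2
    exact ⟨y', b, hp.trans (i.map_isConj hb)⟩
  have hletter : ∀ y : β, ∃ w, α (j (FreeGroup.of y)) = w * j (FreeGroup.of y) * w⁻¹ := by
    intro y
    obtain ⟨p, hp | hp⟩ := hzero (α (j (FreeGroup.of y))) (by rw [hinv, hbase])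
    · obtain ⟨y', b, hb⟩ := hone y j hj p hp
      have hf : IsAdd fun x => Multiplicative.toAdd (expo y (ρ x)) := fun a b => by
        simp only [map_mul, toAdd_mul]
      have e1 := add_isConj hf hb
      rw [h1 _ hf] at e1
      simp only [hj] at e1
      rw [expo_lt (Multiplicative.toAdd.injective e1).symm] at hb
      obtain ⟨c, hc⟩ := isConj_iff.1 hb.symm
      exact ⟨c, hc.symm⟩
    · obtain ⟨y', b, hb⟩ := hone y j' hj' p hp
      obtain ⟨f, hf, hne⟩ := hsep y y' b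
      exact absurd ((h1 f hf _).symm.trans (add_isConj hf hb)) hne
  choose w hw using hletter
  obtain ⟨y₀⟩ := ‹Nonempty β›
  have hq : ∀ y, ∃ q, j q = (w y₀)⁻¹ * w y := by
    intro y
    apply hmem y₀ y
    rw [← hconj _ (w y₀), ← hbase (FreeGroup.of y₀ * FreeGroup.of y),
      ← hinv (j (FreeGroup.of y₀ * FreeGroup.of y)), map_mul, map_mul, hw, hw]
    congr 1
    group
  choose q hq using hq
  let κ : FreeGroup β →* π :=
    ((MulAut.conj (w y₀)⁻¹).toMonoidHom.comp α.toMonoidHom).comp j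
  have hκ : ∀ p, κ p = (w y₀)⁻¹ * α (j p) * w y₀ := fun p => by simp [κ]
  have hκy : ∀ y, κ (FreeGroup.of y) = j (q y * FreeGroup.of y * (q y)⁻¹) := by
    intro y
    rw [hκ, hw, map_mul, map_mul, map_inv, hq]
    group
  have hκj : j.comp (ρ.comp κ) = κ := by
    ext y
    rw [MonoidHom.comp_apply, MonoidHom.comp_apply, hκy, hj]
  obtain ⟨c, hc⟩ := rigid_free (ρ.comp κ)
    (fun y => by
      rw [MonoidHom.comp_apply, hκy, hj]
      exact (isConj_iff.2 ⟨q y, rfl⟩).symm)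
    (fun y y' hy => by
      rw [MonoidHom.comp_apply, hκ, map_mul, map_mul, map_inv]
      have := cyc_conj (ρ (α (j (FreeGroup.of y * FreeGroup.of y')))) (ρ (w y₀))⁻¹
      rw [inv_inv] at this
      rw [this, hcyc, hj, cyc_of_mul hy])
  refine ⟨w y₀ * j c, fun p => ?_⟩
  have e1 : κ p = j (c * p * c⁻¹) := by
    rw [← hc]
    exact (DFunLike.congr_fun hκj p).symm
  rw [hκ, map_mul, map_mul, map_inv] at e1
  have e2 : α (j p) = w y₀ * ((w y₀)⁻¹ * α (j p) * w y₀) * (w y₀)⁻¹ := by group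
  rw [e2, e1]
  group

end M6d

open M6d

variable {π β E : Type} [Group π] [DecidableEq β] [Fintype β] [Nontrivial β] (D : Dbl π β E)

theorem inner_on_iota {α : MulAut π} (h1 : AddInv α) (h2 : D.FoldInv α) :
    (∃ c, ∀ p, α (D.ι p) = c * D.ι p * c⁻¹) ∧ ∃ c, ∀ p, α (D.ι' p) = c * D.ι' p * c⁻¹ := by
  obtain ⟨ord, ho⟩ := exists_ord D h2
  have hZ : Adm D fun _ => 1 := fun _ => Or.inl rfl
  obtain ⟨ρ, hρ⟩ := exists_fold D hZ
  have hj : ∀ p, ρ (D.ι p) = p := hρ.1
  have hj' : ∀ p, ρ (D.ι' p) = p := fun p => by rw [hρ.2.1]; simp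
  constructor
  · refine inner_half h1 ρ (cyc_fold D h2 hZ hρ) D.ι D.ι' hj hj' ord ho.conj ho.inv ho.base
      (fun x hx => conj_of_ord_zero D ho hx) (fun y y' b => D.sepH y y' true b)
      (fun y y' w hw => mem_of_ord_zero D ho y y' hw)
  · refine inner_half h1 ρ (cyc_fold D h2 hZ hρ) D.ι' D.ι hj' hj ord ho.conj ho.inv ho.base'
      (fun x hx => ?_) (fun y y' b => ?_) (fun y y' w hw => mem_of_ord_zero' D ho y y' hw)
    · obtain ⟨p, hp⟩ := conj_of_ord_zero D ho hx
      exact ⟨p, hp.symm⟩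
    · obtain ⟨f, hf, hne⟩ := D.sepH y' y b true
      exact ⟨f, hf, hne.symm⟩

theorem eq_one_of_fix {α : MulAut π} (h1 : AddInv α) (h2 : D.FoldInv α)
    (h3 : ∀ p, α (D.ι p) = D.ι p) {c : π} (h4 : ∀ p, α (D.ι' p) = c * D.ι' p * c⁻¹) :
    α = 1 := by
  obtain ⟨ord, ho⟩ := exists_ord D h2
  obtain ⟨y⟩ : Nonempty β := inferInstance
  have hc : c = 1 := by
    have e1 := ord_edge D ho y y D.e₀
    rw [D.s₀, inv_one, inv_one, one_mul, mul_one, ← ho.inv, map_mul, h3, h4] at e1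
    obtain ⟨p, e, q, hw⟩ := edge_of_ord_one D ho y y e1
    have := eq_edge D (e := D.e₀) hw fun Z ρ hZ hρ => by
      rw [mul_inv_cancel]
      apply central_eq_one D
      intro r
      have e2 := fold_eq_one D h2 hZ hρ
        (x := (D.ι r)⁻¹ * D.ι' ((Z D.e₀)⁻¹ * r * Z D.e₀)) (by
          rw [map_mul, map_inv, hρ.1, hρ.2.1]
          simp only [MonoidHom.id_apply]
          group)
      rw [map_mul, map_inv, h3, h4, map_mul, map_mul, map_mul, map_inv, map_inv, hρ.1,
        hρ.2.1] at e2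
      simp only [MonoidHom.id_apply] at e2
      have e3 : r⁻¹ * (ρ c * r * (ρ c)⁻¹) = 1 := by
        rw [← e2]; group
      exact mul_inv_eq_iff_eq_mul.1 (inv_mul_eq_one.1 e3).symm
    rw [this, D.s₀, inv_one]
  subst hc
  have h5 : ∀ p, α (D.ι' p) = D.ι' p := fun p => by rw [h4]; simp
  have h6 : ∀ e, α (D.s e) = D.s e := by
    intro e
    have e1 := ord_edge D ho y y e
    rw [← ho.inv, map_mul, map_mul, map_mul, h3, h5, map_inv α (D.s e)⁻¹, map_inv] at e1
    obtain ⟨p, e', q, hw⟩ := edge_of_ord_one D ho y y e1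
    have := eq_edge D (e := e) hw fun Z ρ hZ hρ => by
      have e2 := fold_eq_one D h2 hZ hρ
        (x := (D.ι (Z e * (Z D.e₀)⁻¹))⁻¹ * (D.s e)⁻¹) (by
          rw [map_mul, map_inv, map_inv, hρ.1, hρ.2.2]
          simp only [MonoidHom.id_apply]
          group)
      rw [map_mul, map_inv, h3, map_mul, map_inv, hρ.1, map_inv α] at e2
      exact (inv_mul_eq_one.1 e2).symm
    exact inv_injective this
  ext x
  have hx : x ∈ Subgroup.closure (Set.range D.ι ∪ Set.range D.ι' ∪ Set.range D.s) := by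
    rw [D.gen]; trivial
  show α x = x
  induction hx using Subgroup.closure_induction with
  | mem x hx =>
    rcases hx with (⟨p, rfl⟩ | ⟨p, rfl⟩) | ⟨e, rfl⟩
    · exact h3 p
    · exact h5 p
    · exact h6 e
  | one => exact map_one α
  | mul a b _ _ ha hb => rw [map_mul, ha, hb]
  | inv a _ ha => rw [map_inv, ha]

include D in
theorem inner_dbl {α : MulAut π} (h1 : AddInv α) (h2 : NearInv α) : Inner α := by
  have hf := NearInv.fold D h2
  obtain ⟨⟨c, hc⟩, c', hc'⟩ := inner_on_iota D h1 hf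
  have hα : ∀ x, (MulAut.conj c⁻¹ * α) x = c⁻¹ * α x * c⁻¹⁻¹ := fun x => rfl
  have key : MulAut.conj c⁻¹ * α = 1 := by
    refine eq_one_of_fix D (c := c⁻¹ * c') (fun f hf x => ?_)
      (fun K _ _ θ Z Θ hZ hΘ x => ?_) (fun p => ?_) (fun p => ?_)
    · rw [hα, add_conj hf, h1 f hf]
    · rw [hα, map_mul, map_mul, map_inv Θ c⁻¹, tr_conj]
      exact hf K θ Z Θ hZ hΘ x
    · rw [hα, hc]; group
    · rw [hα, hc']; group
  refine ⟨c, fun x => ?_⟩
  have e1 := hα x
  rw [key] at e1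
  have e2 : x = c⁻¹ * α x * c⁻¹⁻¹ := e1
  conv_rhs => rw [e2]
  group

end Pool.Agent.P.MP_2d26dd_al
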