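import Pool.Agent.P.MP_2d26dd_al.M6a
import Pool.Agent.P.MP_2d26dd_al.M6d

/-! Rigidity for all surface groups. -/

namespace Pool.Agent.P.MP_2d26dd_al

namespace M7

theorem map_surfRel {g p : ℕ} {H : Type} [Group H] (φ : FreeGroup (Gen g p) →* H) :
    φ (surfRel g p) =
      (List.ofFn fun i : Fin g =>
        φ (FreeGroup.of (Sum.inl (i, false))) * φ (FreeGroup.of (Sum.inl (i, true))) *
          (φ (FreeGroup.of (Sum.inl (i, false))))⁻¹ *
            (φ (FreeGroup.of (Sum.inl (i, true))))⁻¹).prod *
      (List.ofFn fun j : Fin p => φ (FreeGroup.of (Sum.inr j))).prod := by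
  unfold surfRel
  rw [map_mul, map_list_prod, map_list_prod, List.map_ofFn, List.map_ofFn]
  simp only [Function.comp_def, map_mul, map_inv]

theorem rel_one (g p : ℕ) :
    PresentedGroup.mk ({surfRel g p} : Set (FreeGroup (Gen g p))) (surfRel g p) = 1 :=
  PresentedGroup.one_of_mem (Set.mem_singleton _)

/-- Images of the generators when the last puncture loop is eliminated. -/
def elim (g p : ℕ) : Gen g (p + 1) → FreeGroup (Gen g p)
  | Sum.inl x => FreeGroup.of (Sum.inl x)
  | Sum.inr j => Fin.lastCases (surfRel g p)⁻¹ (fun k => FreeGroup.of (Sum.inr k)) j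

theorem elim_rel (g p : ℕ) : FreeGroup.lift (elim g p) (surfRel g (p + 1)) = 1 := by
  rw [map_surfRel, List.ofFn_succ', List.concat_eq_append, List.prod_append]
  simp only [FreeGroup.lift_apply_of, elim, Fin.lastCases_castSucc, Fin.lastCases_last,
    List.prod_cons, List.prod_nil, mul_one]
  rw [← mul_assoc]
  exact mul_inv_cancel (surfRel g p)

/-- The inclusion of generators. -/
def incl (g p : ℕ) : Gen g p → SurfGroup g (p + 1)
  | Sum.inl x => PresentedGroup.of (Sum.inl x)
  | Sum.inr j => PresentedGroup.of (Sum.inr j.castSucc)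

theorem incl_rel (g p : ℕ) :
    FreeGroup.lift (incl g p) (surfRel g p) * PresentedGroup.of (Sum.inr (Fin.last p)) = 1 := by
  have h := rel_one g (p + 1)
  rw [map_surfRel, List.ofFn_succ', List.concat_eq_append, List.prod_append] at h
  rw [map_surfRel]
  simp only [FreeGroup.lift_apply_of, incl]
  simp only [List.prod_cons, List.prod_nil, mul_one] at h
  rw [mul_assoc]
  exact h

variable {π π' : Type} [Group π] [Group π']

theorem inner_of_equiv (e : π ≃* π')
    (H : ∀ α : MulAut π', AddInv α → NearInv α → Inner α) (α : MulAut π) (h1 : AddInv α)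
    (h2 : NearInv α) : Inner α := by
  obtain ⟨c, hc⟩ := H ((e.symm.trans α).trans e)
    (by
      intro f hf x
      have := h1 (fun y => f (e y)) (fun a b => by simp only [map_mul]; exact hf _ _) (e.symm x)
      simpa using this)
    (by
      intro R _ _ 𝔪 h𝔪 θ hθ x
      have := h2 R 𝔪 h𝔪 (θ.comp e.toMonoidHom) (fun y i j => hθ (e y) i j) (e.symm x)
      simpa using this)
  refine ⟨e.symm c, fun x => e.injective ?_⟩
  have := hc (e x)
  simpa using this

/-- The exponent sum of a generator. -/
def expo (b : Bool) : SurfGroup 1 0 →* Multiplicative ℚ :=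
  PresentedGroup.toGroup (f := fun x : Gen 1 0 =>
    if x = Sum.inl (0, b) then Multiplicative.ofAdd (1 : ℚ) else 1) (by
    intro r hr
    rw [Set.mem_singleton_iff.mp hr, map_surfRel]
    cases b <;> simp)

theorem torus_comm : Commute (PresentedGroup.of (Sum.inl (0, false)) : SurfGroup 1 0)
    (PresentedGroup.of (Sum.inl (0, true))) := by
  have h := rel_one 1 0
  rw [map_surfRel] at h
  simp only [List.ofFn_succ, List.ofFn_zero, List.prod_cons, List.prod_nil, mul_one] at h
  rw [← commutatorElement_eq_one_iff_commute]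
  exact h

theorem torus_form (x : SurfGroup 1 0) : ∃ m n : ℤ,
    x = PresentedGroup.of (Sum.inl (0, false)) ^ m * PresentedGroup.of (Sum.inl (0, true)) ^ n := by
  let S : Subgroup (SurfGroup 1 0) :=
    { carrier := {x | ∃ m n : ℤ, x = PresentedGroup.of (Sum.inl (0, false)) ^ m *
        PresentedGroup.of (Sum.inl (0, true)) ^ n}
      one_mem' := ⟨0, 0, by simp⟩
      mul_mem' := by
        rintro _ _ ⟨m, n, rfl⟩ ⟨m', n', rfl⟩
        refine ⟨m + m', n + n', ?_⟩
        rw [zpow_add, zpow_add]
        exact (torus_comm.symm.zpow_zpow n m').mul_mul_mul_comm _ _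
      inv_mem' := by
        rintro _ ⟨m, n, rfl⟩
        refine ⟨-m, -n, ?_⟩
        rw [zpow_neg, zpow_neg, mul_inv_rev]
        exact ((torus_comm.zpow_zpow m n).inv_inv).symm.eq }
  refine PresentedGroup.generated_by _ S ?_ x
  rintro (⟨i, b⟩ | j)
  · obtain rfl : i = 0 := Subsingleton.elim _ _
    cases b
    · exact ⟨1, 0, by simp⟩
    · exact ⟨0, 1, by simp⟩
  · exact j.elim0

theorem expo_form (m n : ℤ) :
    Multiplicative.toAdd (expo false (PresentedGroup.of (Sum.inl (0, false)) ^ m *
      PresentedGroup.of (Sum.inl (0, true)) ^ n)) = m ∧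
    Multiplicative.toAdd (expo true (PresentedGroup.of (Sum.inl (0, false)) ^ m *
      PresentedGroup.of (Sum.inl (0, true)) ^ n)) = n := by
  constructor <;> simp [expo]

end M7

theorem surf_free (g p : ℕ) :
    Nonempty (SurfGroup g (p + 1) ≃* FreeGroup ((Fin g × Bool) ⊕ Fin p)) := by
  refine ⟨MonoidHom.toMulEquiv
    (PresentedGroup.toGroup (f := M7.elim g p) (by
      intro r hr
      rw [Set.mem_singleton_iff.mp hr]
      exact M7.elim_rel g p))
    (FreeGroup.lift (M7.incl g p)) ?_ ?_⟩
  · apply PresentedGroup.ext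
    rintro (x | j)
    · simp [M7.elim, M7.incl]
    · induction j using Fin.lastCases with
      | last =>
        simp only [MonoidHom.comp_apply, PresentedGroup.toGroup.of, M7.elim, Fin.lastCases_last,
          map_inv, MonoidHom.id_apply]
        exact inv_eq_of_mul_eq_one_right (M7.incl_rel g p)
      | cast k => simp [M7.elim, M7.incl]
  · apply FreeGroup.ext_hom
    rintro (x | j)
    · simp [M7.elim, M7.incl]
    · simp [M7.elim, M7.incl]

theorem inner_torus (α : MulAut (SurfGroup 1 0)) (h : AddInv α) : α = 1 := by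
  ext x
  have key : ∀ b, Multiplicative.toAdd (M7.expo b (α x)) = Multiplicative.toAdd (M7.expo b x) :=
    fun b => h (fun y => Multiplicative.toAdd (M7.expo b y)) (fun a b => by simp) x
  obtain ⟨m, n, hx⟩ := M7.torus_form x
  obtain ⟨m', n', hx'⟩ := M7.torus_form (α x)
  have k1 := key false
  have k2 := key true
  rw [hx', hx] at k1 k2
  rw [(M7.expo_form m' n').1, (M7.expo_form m n).1] at k1
  rw [(M7.expo_form m' n').2, (M7.expo_form m n).2] at k2
  have e1 : m' = m := by exact_mod_cast k1
  have e2 : n' = n := by exact_mod_cast k2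
  rw [MulAut.one_apply, hx', e1, e2, ← hx]

theorem inner_surf (g p : ℕ) (α : MulAut (SurfGroup g p)) (h1 : AddInv α) (h2 : NearInv α) :
    Inner α := by
  cases p with
  | succ p =>
    obtain ⟨e⟩ := surf_free g p
    exact M7.inner_of_equiv e (fun β k1 k2 => inner_free β k1 k2) α h1 h2
  | zero =>
    rcases Nat.lt_or_ge g 2 with hg | hg
    · obtain rfl | rfl : g = 0 ∨ g = 1 := by omega
      · have triv : ∀ x : SurfGroup 0 0, x = 1 := by
          intro x
          refine Subgroup.mem_bot.mp (PresentedGroup.generated_by _ ⊥ ?_ x)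
          rintro (⟨i, b⟩ | j)
          · exact i.elim0
          · exact j.elim0
        exact ⟨1, fun x => (triv _).trans (triv _).symm⟩
      · rw [inner_torus α h1]
        exact ⟨1, fun x => by simp⟩
    · obtain ⟨h, rfl | rfl⟩ := Nat.even_or_odd' g
      · have hh : 1 ≤ h := by omega
        haveI : Nonempty (Fin h) := ⟨⟨0, hh⟩⟩
        obtain ⟨D⟩ := dbl_even h hh
        exact inner_dbl D h1 h2
      · have hh : 1 ≤ h := by omega
        haveI : Nonempty (Fin h) := ⟨⟨0, hh⟩⟩
        obtain ⟨D⟩ := dbl_odd h hh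
        exact inner_dbl D h1 h2

end Pool.Agent.P.MP_2d26dd_al
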