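import Pool.Agent.P.MP_2d26dd_al.L7
import Pool.Agent.P.MP_2d26dd_al.M1
import Pool.Agent.P.MP_2d26dd_al.M3
import Pool.Agent.P.MP_2d26dd_al.M7

/-! Bounded genus. -/

namespace Pool.Agent.P.MP_2d26dd_al

/-- The elements acting trivially modulo three form a subgroup of finite index. -/
theorem M8_lev3 {G : Type} [Group G] {N : ℕ} (ρ : G →* GL (Fin N) ℤ) :
    ∃ K : Subgroup G, K.FiniteIndex ∧ ∀ γ ∈ K, Lev3 (ρ γ) := by
  refine ⟨((Matrix.GeneralLinearGroup.map (n := Fin N) (Int.castRingHom (ZMod 3))).comp ρ).ker,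
    Subgroup.finiteIndex_ker _, fun γ hγ i j => ?_⟩
  have h := congrArg (fun g : GL (Fin N) (ZMod 3) => (g : Matrix (Fin N) (Fin N) (ZMod 3)) i j)
    (MonoidHom.mem_ker.1 hγ)
  have h' : (((ρ γ : GL (Fin N) ℤ) : Matrix (Fin N) (Fin N) ℤ) i j : ZMod 3) =
      (1 : Matrix (Fin N) (Fin N) (ZMod 3)) i j := by
    simpa using h
  have key : ((((ρ γ : GL (Fin N) ℤ) : Matrix (Fin N) (Fin N) ℤ) i j -
      (1 : Matrix (Fin N) (Fin N) ℤ) i j : ℤ) : ZMod 3) = 0 := by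
    rw [Int.cast_sub, h']
    by_cases hij : i = j
    · subst hij; simp
    · simp [Matrix.one_apply_ne hij]
  exact (ZMod.intCast_zmod_eq_zero_iff_dvd _ 3).1 key

/-- The statement for finite-index subgroups of the automorphism group. -/
theorem M8_aut (g : ℕ) : ∃ n₀ : ℕ, ∀ n ≥ n₀, ∀ (p : ℕ)
    (Γ : Subgroup (AutF (Fin n))), Γ.FiniteIndex →
    ∀ φ : Γ →* Out (SurfGroup g p), (∀ γ, Periph (φ γ)) → Finite φ.range := by
  obtain ⟨n₁, hn₁⟩ := linear (2 * g)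
  refine ⟨max n₁ 303, fun n hn p Γ hΓ φ hφ => ?_⟩
  obtain ⟨ρ, hρ⟩ := exists_homology φ hφ
  obtain ⟨L, hL, hLp⟩ := exists_pure φ hφ
  obtain ⟨K, hK, hK3⟩ := M8_lev3 ρ
  have : ((L ⊓ K).map Γ.subtype).FiniteIndex := by
    refine ⟨?_⟩
    rw [Subgroup.index_map_subtype]
    exact mul_ne_zero Subgroup.FiniteIndex.index_ne_zero Subgroup.FiniteIndex.index_ne_zero
  set Δ : Subgroup (AutF (Fin n)) := ((L ⊓ K).map Γ.subtype).normalCore with hΔ
  have hle : Δ ≤ (L ⊓ K).map Γ.subtype := Subgroup.normalCore_le _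
  have hΔΓ : Δ ≤ Γ := hle.trans (Subgroup.map_subtype_le _)
  have hmem : ∀ γ : Δ, Subgroup.inclusion hΔΓ γ ∈ L ⊓ K := by
    intro γ
    obtain ⟨x, hx, e⟩ := hle γ.2
    have : Subgroup.inclusion hΔΓ γ = x := Subtype.ext e.symm
    rw [this]
    exact hx
  have htriv : ∀ γ : Δ, ρ (Subgroup.inclusion hΔΓ γ) = 1 :=
    hn₁ n (le_trans (le_max_left _ _) hn) Δ (ρ.comp (Subgroup.inclusion hΔΓ))
      fun γ => hK3 _ (hmem γ).2
  have hno : NoHom Δ := noHom (by simpa using le_trans (le_max_right _ _) hn) Δ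
  have hadd : ∀ γ : Δ, ∀ α : MulAut (SurfGroup g p),
      QuotientGroup.mk α = (φ.comp (Subgroup.inclusion hΔΓ)) γ → AddInv α :=
    addInv_of_pure hno (φ.comp (Subgroup.inclusion hΔΓ))
      (fun γ α hα => hLp _ (hmem γ).1 α hα)
      (fun γ α hα => (hρ _ α hα).1 (htriv γ))
  have hone : ∀ γ : Δ, φ (Subgroup.inclusion hΔΓ γ) = 1 := by
    intro γ
    obtain ⟨α, hα⟩ := QuotientGroup.mk_surjective (φ (Subgroup.inclusion hΔΓ γ))
    obtain ⟨c, hc⟩ := inner_surf g p α (hadd γ α hα)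
      (nearInv_of_addInv hno (φ.comp (Subgroup.inclusion hΔΓ)) hadd γ α hα)
    rw [← hα, QuotientGroup.eq_one_iff]
    exact ⟨c, by ext x; simp [MulAut.conj_apply, hc x]⟩
  have hker : Δ.subgroupOf Γ ≤ φ.ker := by
    intro x hx
    exact hone ⟨x, hx⟩
  have : φ.ker.FiniteIndex := Subgroup.finiteIndex_of_le hker
  exact Finite.of_equiv _ (QuotientGroup.quotientKerEquivRange φ).toEquiv

theorem genus_main (g : ℕ) : ∃ n₀ : ℕ, ∀ n ≥ n₀, ∀ (p : ℕ)
    (Γ : Subgroup (Out (FreeGroup (Fin n)))), Γ.FiniteIndex →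
    ∀ φ : Γ →* Out (SurfGroup g p), (∀ γ, Periph (φ γ)) → Finite φ.range := by
  obtain ⟨n₀, h⟩ := M8_aut g
  refine ⟨n₀, fun n hn p Γ hΓ φ hφ => ?_⟩
  have hs : Function.Surjective (QuotientGroup.mk'
      (MulAut.conj : FreeGroup (Fin n) →* MulAut (FreeGroup (Fin n))).range) :=
    QuotientGroup.mk'_surjective _
  have hfi : (Γ.comap (QuotientGroup.mk'
      (MulAut.conj : FreeGroup (Fin n) →* MulAut (FreeGroup (Fin n))).range)).FiniteIndex :=
    ⟨by rw [Subgroup.index_comap_of_surjective _ hs]; exact hΓ.index_ne_zero⟩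
  have hfin := h n hn p _ hfi (φ.comp ((QuotientGroup.mk' _).subgroupComap Γ)) fun γ => hφ _
  have hr : (φ.comp ((QuotientGroup.mk'
      (MulAut.conj : FreeGroup (Fin n) →* MulAut (FreeGroup (Fin n))).range).subgroupComap
        Γ)).range = φ.range := by
    rw [MonoidHom.range_comp, MonoidHom.range_eq_top.2
      (MonoidHom.subgroupComap_surjective_of_surjective _ _ hs), ← MonoidHom.range_eq_map]
  rwa [hr] at hfin

end Pool.Agent.P.MP_2d26dd_al
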