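import Mathlib

/-! Definitions used by the statements. -/

namespace Pool.Agent.P.MP_2d26dd_al

/-- Inner automorphisms form a normal subgroup. -/
instance innNormal (G : Type) [Group G] : (MulAut.conj : G →* MulAut G).range.Normal :=
  ⟨by
    rintro _ ⟨g, rfl⟩ φ
    refine ⟨φ g, ?_⟩
    ext x
    simp [MulAut.conj_apply]⟩

/-- The outer automorphism group. -/
abbrev Out (G : Type) [Group G] : Type := MulAut G ⧸ (MulAut.conj : G →* MulAut G).range

/-- Generators `a_i = (i, false)`, `b_i = (i, true)`, `c_j`. -/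
abbrev Gen (g p : ℕ) : Type := (Fin g × Bool) ⊕ Fin p

/-- The relator `∏ [a_i, b_i] ∏ c_j`. -/
def surfRel (g p : ℕ) : FreeGroup (Gen g p) :=
  (List.ofFn fun i : Fin g =>
      (FreeGroup.of (Sum.inl (i, false)) * FreeGroup.of (Sum.inl (i, true)) *
        (FreeGroup.of (Sum.inl (i, false)))⁻¹ * (FreeGroup.of (Sum.inl (i, true)))⁻¹ :
          FreeGroup (Gen g p))).prod *
    (List.ofFn fun j : Fin p => (FreeGroup.of (Sum.inr j) : FreeGroup (Gen g p))).prod

/-- The fundamental group of the orientable surface of genus `g` with `p` punctures. -/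
abbrev SurfGroup (g p : ℕ) : Type := PresentedGroup ({surfRel g p} : Set (FreeGroup (Gen g p)))

/-- The loop around the `j`-th puncture. -/
def per {g p : ℕ} (j : Fin p) : SurfGroup g p := PresentedGroup.of (Sum.inr j)

/-- An outer automorphism sending each puncture loop to a conjugate of a puncture loop or of its
inverse. -/
def Periph {g p : ℕ} (o : Out (SurfGroup g p)) : Prop :=
  ∃ α : MulAut (SurfGroup g p), QuotientGroup.mk α = o ∧
    ∀ j : Fin p, ∃ k : Fin p, IsConj (α (per j)) (per k) ∨ IsConj (α (per j)) (per k)⁻¹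

end Pool.Agent.P.MP_2d26dd_al
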