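import Pool.Agent.P.MP_2d26dd_al.Basic
import Pool.Agent.P.MP_2d26dd_al.SDefs

/-! Invariance properties of automorphisms; doubles of free groups. -/

namespace Pool.Agent.P.MP_2d26dd_al

variable {π : Type} [Group π]

/-- Additive functions. -/
def IsAdd {A : Type} [Add A] (f : π → A) : Prop := ∀ a b, f (a * b) = f a + f b

/-- `α` acts trivially on rational homology. -/
def AddInv (α : MulAut π) : Prop := ∀ f : π → ℚ, IsAdd f → ∀ x, f (α x) = f x

/-- The trace of a representation. -/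
def tr {R : Type} [CommRing R] (g : GL (Fin 2) R) : R :=
  Matrix.trace (g : Matrix (Fin 2) (Fin 2) R)

/-- `α` preserves the characters of all formal deformations of the trivial representation. -/
def NearInv (α : MulAut π) : Prop :=
  ∀ (R : Type) [CommRing R] [Algebra ℚ R] (𝔪 : Ideal R), ⨅ k : ℕ, 𝔪 ^ k = ⊥ →
    ∀ θ : π →* GL (Fin 2) R,
      (∀ x i j, ((θ x : Matrix (Fin 2) (Fin 2) R) - 1) i j ∈ 𝔪) → ∀ x, tr (θ (α x)) = tr (θ x)

/-- Inner automorphisms. -/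
def Inner (α : MulAut π) : Prop := ∃ c : π, ∀ x, α x = c * x * c⁻¹

/-- Cyclically reduced length. -/
def cyc {β : Type} [DecidableEq β] (p : FreeGroup β) : ℕ :=
  (FreeGroup.reduceCyclically p.toWord).length

/-- A group obtained by doubling a free group along finitely many cyclic subgroups. -/
structure Dbl (π β E : Type) [Group π] where
  e₀ : E
  ι : FreeGroup β →* π
  ι' : FreeGroup β →* π
  s : E → π
  γ : E → FreeGroup β
  s₀ : s e₀ = 1
  rel : ∀ e, ι' (γ e) = s e * ι (γ e) * (s e)⁻¹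
  gen : Subgroup.closure (Set.range ι ∪ Set.range ι' ∪ Set.range s) = ⊤
  univ : ∀ (G : Type) [Group G] (θ : FreeGroup β →* G) (Z : E → G),
    (∀ e, Commute (Z e) (θ (γ e))) → ∃ Θ : π →* G, (∀ p, Θ (ι p) = θ p) ∧
      (∀ p, Θ (ι' p) = Z e₀ * θ p * (Z e₀)⁻¹) ∧ ∀ e, Θ (s e) = Z e₀ * (Z e)⁻¹
  cent : ∀ e p, Commute p (γ e) → p ∈ Subgroup.zpowers (γ e)
  sep : ∀ e e' p, e ≠ e' → ¬ Commute (p * γ e' * p⁻¹) (γ e)
  notEdge : ∀ y e p, ¬ Commute (p * FreeGroup.of y * p⁻¹) (γ e)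
  sepH : ∀ y y' b b', ∃ f : π → ℚ, IsAdd f ∧ f (ι (lt y b)) ≠ f (ι' (lt y' b'))

/-- `Θ` is the representation of the double given by `θ` and the matrices `Z`. -/
def Dbl.Fold {β E G : Type} [Group G] (D : Dbl π β E) (θ : FreeGroup β →* G) (Z : E → G)
    (Θ : π →* G) : Prop :=
  (∀ p, Θ (D.ι p) = θ p) ∧ (∀ p, Θ (D.ι' p) = Z D.e₀ * θ p * (Z D.e₀)⁻¹) ∧
    ∀ e, Θ (D.s e) = Z D.e₀ * (Z e)⁻¹

/-- `α` preserves the characters of all folded representations. -/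
def Dbl.FoldInv {β E : Type} (D : Dbl π β E) (α : MulAut π) : Prop :=
  ∀ (K : Type) [Field K] [CharZero K] (θ : FreeGroup β →* GL (Fin 2) K) (Z : E → GL (Fin 2) K)
    (Θ : π →* GL (Fin 2) K),
    (∀ e, ∃ a b : K, (Z e : Matrix (Fin 2) (Fin 2) K) =
      a • (1 : Matrix (Fin 2) (Fin 2) K) + b • (θ (D.γ e) : Matrix (Fin 2) (Fin 2) K)) →
    D.Fold θ Z Θ → ∀ x, tr (Θ (α x)) = tr (Θ x)

/-- A round trip `s_e⁻¹ ι'(p) s_{e'} ι(q)`. -/
def Dbl.trip {β E : Type} (D : Dbl π β E) (a : E × FreeGroup β × E × FreeGroup β) : π :=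
  (D.s a.1)⁻¹ * D.ι' a.2.1 * D.s a.2.2.1 * D.ι a.2.2.2

/-- A cyclic sequence of round trips without pinch. -/
def Dbl.NoPinch {β E : Type} (D : Dbl π β E) {k : ℕ}
    (a : Fin (k + 1) → E × FreeGroup β × E × FreeGroup β) : Prop :=
  ∀ i, ((a i).1 = (a i).2.2.1 → (a i).2.1 ∉ Subgroup.zpowers (D.γ (a i).1)) ∧
    ((a i).2.2.1 = (a (i + 1)).1 → (a i).2.2.2 ∉ Subgroup.zpowers (D.γ (a i).2.2.1))

/-- A conjugation invariant order function detecting the number of round trips. -/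
structure Dbl.Ord {β E : Type} (D : Dbl π β E) (α : MulAut π) (ord : π → ℕ) : Prop where
  conj : ∀ x c, ord (c * x * c⁻¹) = ord x
  inv : ∀ x, ord (α x) = ord x
  base : ∀ p, ord (D.ι p) = 0
  base' : ∀ p, ord (D.ι' p) = 0
  trips : ∀ (k : ℕ) (a : Fin (k + 1) → E × FreeGroup β × E × FreeGroup β), D.NoPinch a →
    ord (List.ofFn fun i => D.trip (a i)).prod = k + 1

end Pool.Agent.P.MP_2d26dd_al
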