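import Mathlib

/-! Common prefixes of reduced words in a free group. -/

namespace Pool.Agent.P.MP_2d26dd_al.Niel

open FreeGroup hiding map_mul map_inv map_one

variable {ι : Type} [DecidableEq ι]

/-- the inverse letter -/
def bar (z : ι × Bool) : ι × Bool := (z.1, !z.2)

omit [DecidableEq ι] in
theorem el_bar (z : ι × Bool) : mk [bar z] = (mk [z])⁻¹ := by
  simp [inv_mk, invRev, bar]

omit [DecidableEq ι] in
theorem mk_cons (z : ι × Bool) (L : List (ι × Bool)) : mk (z :: L) = mk [z] * mk L := by
  simp [mul_mk]

omit [DecidableEq ι] in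
theorem red_iff (y z : ι × Bool) : (y.1 = z.1 → y.2 = z.2) ↔ z ≠ bar y := by
  rcases y with ⟨a, _ | _⟩ <;> rcases z with ⟨b, _ | _⟩ <;> simp [bar, eq_comm]

omit [DecidableEq ι] in
theorem eq_or_bar {y z : ι × Bool} (h : y.1 = z.1) : y = z ∨ y = bar z := by
  rcases y with ⟨a, _ | _⟩ <;> rcases z with ⟨b, _ | _⟩ <;> simp_all [bar]

theorem norm_of_red {L : List (ι × Bool)} (h : IsReduced L) : (mk L).norm = L.length := by
  rw [FreeGroup.norm, toWord_mk, h.reduce_eq]

theorem el_inj {y z : ι × Bool} (h : mk [y] = mk [z]) : y = z := by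
  simpa [toWord_mk] using congrArg toWord h

/-- length of the common prefix -/
def cpl : List (ι × Bool) → List (ι × Bool) → ℕ
  | x :: L, y :: M => if x = y then cpl L M + 1 else 0
  | _, _ => 0

theorem cpl_ultra (L M N : List (ι × Bool)) : min (cpl L M) (cpl M N) ≤ cpl L N := by
  induction L generalizing M N with
  | nil => simp [cpl]
  | cons x L ih =>
    cases M with
    | nil => simp [cpl]
    | cons y M =>
      cases N with
      | nil => simp [cpl]
      | cons z N =>
        have := ih M N
        simp only [cpl]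
        split_ifs <;> first | omega | simp_all

theorem cpl_take (k : ℕ) (L M : List (ι × Bool)) (h : k ≤ cpl L M) : L.take k = M.take k := by
  induction k generalizing L M with
  | zero => rfl
  | succ k ih =>
    rcases L with _ | ⟨x, L⟩
    · simp [cpl] at h
    rcases M with _ | ⟨y, M⟩
    · simp [cpl] at h
    by_cases e : x = y
    · subst e
      simp only [cpl, if_true, Nat.add_le_add_iff_right] at h
      rw [List.take_succ_cons, List.take_succ_cons, ih L M h]
    · simp [cpl, e] at h

theorem le_cpl (k : ℕ) (L M : List (ι × Bool)) (h : L.take k = M.take k) (hk : k ≤ L.length) :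
    k ≤ cpl L M := by
  induction k generalizing L M with
  | zero => exact Nat.zero_le _
  | succ k ih =>
    rcases L with _ | ⟨x, L⟩
    · simp at hk
    rcases M with _ | ⟨y, M⟩
    · simp at h
    rw [List.take_succ_cons, List.take_succ_cons, List.cons.injEq] at h
    have := ih L M h.2 (by simpa using hk)
    simp only [cpl, h.1, if_true]
    omega

theorem cpl_norm {L M : List (ι × Bool)} (hL : IsReduced L) (hM : IsReduced M) :
    ((mk L)⁻¹ * mk M).norm + 2 * cpl L M = L.length + M.length := by
  induction L generalizing M with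
  | nil => simp [cpl, ← one_eq_mk, norm_of_red hM]
  | cons x L ih =>
    cases M with
    | nil => rw [← one_eq_mk, mul_one, norm_inv_eq, norm_of_red hL]; simp [cpl]
    | cons y M =>
      by_cases hxy : x = y
      · subst hxy
        have := ih (M := M) (List.IsChain.tail hL) (List.IsChain.tail hM)
        rw [mk_cons x L, mk_cons x M]
        simp only [cpl, if_true, mul_inv_rev, mul_assoc, inv_mul_cancel_left, List.length_cons]
        omega
      · have hr : IsReduced (invRev (x :: L) ++ y :: M) := by
          refine List.isChain_append.mpr ⟨?_, hM, ?_⟩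
          · exact isReduced_iff_reduce_eq.2 (by rw [reduce_invRev, hL.reduce_eq])
          intro p hp q hq
          simp only [invRev, List.map_cons, List.reverse_cons, List.getLast?_concat,
            Option.mem_def, Option.some.injEq, List.head?_cons] at hp hq
          subst hp hq
          revert hxy
          rcases x with ⟨_, _ | _⟩ <;> rcases y with ⟨_, _ | _⟩ <;> simp
        rw [inv_mk, mul_mk, norm_of_red hr]
        simp [cpl, hxy]

/-- the Gromov product -/
def cp (x y : FreeGroup ι) : ℕ := cpl x.toWord y.toWord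

theorem cp_norm (x y : FreeGroup ι) : (x⁻¹ * y).norm + 2 * cp x y = x.norm + y.norm := by
  have := cpl_norm (isReduced_toWord (x := x)) (isReduced_toWord (x := y))
  rwa [mk_toWord, mk_toWord] at this

theorem cp_ultra (x y z : FreeGroup ι) : min (cp x y) (cp y z) ≤ cp x z := cpl_ultra _ _ _

theorem cp_comm (x y : FreeGroup ι) : cp x y = cp y x := by
  have h1 := cp_norm x y
  have h2 := cp_norm y x
  rw [← norm_inv_eq, mul_inv_rev, inv_inv] at h2
  omega

theorem cp_inv_lt {x : FreeGroup ι} (hx : x ≠ 1) : 2 * cp x x⁻¹ < x.norm := by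
  have h1 := cp_norm x⁻¹ x
  rw [inv_inv, norm_inv_eq, cp_comm] at h1
  have h2 := reduceCyclically.reduce_flatten_replicate_succ (isReduced_toWord (x := x)) 1
  have h3 := reduceCyclically.conj_conjugator_reduceCyclically x.toWord
  rw [← toWord_pow, pow_succ, pow_one] at h2
  have h4 := congrArg List.length h2
  have h5 := congrArg List.length h3
  have h6 : 0 < (reduceCyclically x.toWord).length := by
    rw [List.length_pos_iff]
    intro h0
    rw [h0] at h3
    apply hx
    rw [← mk_toWord (x := x), ← h3, ← mul_mk, ← mul_mk, ← inv_mk, ← one_eq_mk, mul_one,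
      mul_inv_cancel]
  simp only [List.length_append, invRev_length, List.replicate_succ, List.replicate_zero,
    List.flatten_cons, List.flatten_nil, List.length_nil] at h4 h5
  unfold FreeGroup.norm at *
  omega

theorem pp_norm (φ : FreeGroup ι →* FreeGroup ι) (p : ι × Bool → ℕ)
    (h1 : ∀ z z', z ≠ z' → cp (φ (mk [z])) (φ (mk [z'])) ≤ p z)
    (h2 : ∀ z, p z + p (bar z) < (φ (mk [z])).norm) (L : List (ι × Bool)) (z : ι × Bool)
    (hL : IsReduced (z :: L)) :
    p z < cp (φ (mk [z])) (φ (mk (z :: L))) ∧ p z + (z :: L).length ≤ (φ (mk (z :: L))).norm := by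
  induction L generalizing z with
  | nil =>
    have a1 := cp_norm (φ (mk [z])) (φ (mk [z]))
    have a2 := h2 z
    simp only [inv_mul_cancel, FreeGroup.norm_one] at a1
    change p z < cp (φ (mk [z])) (φ (mk [z])) ∧ p z + 1 ≤ (φ (mk [z])).norm
    omega
  | cons y L ih =>
    obtain ⟨b1, b2⟩ := isReduced_cons_cons.mp hL
    rw [red_iff] at b1
    obtain ⟨c1, c2⟩ := ih y b2
    rw [mk_cons z (y :: L), map_mul]
    set W := φ (mk (y :: L))
    have d1 := h1 (bar z) y b1.symm
    have d2 := h1 y (bar z) b1
    have d3 := h2 z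
    rw [cp_comm] at d2
    rw [el_bar, map_inv] at d1 d2
    set x := φ (mk [z])
    have u1 := cp_ultra x⁻¹ (φ (mk [y])) W
    have u2 := cp_ultra x⁻¹ W (φ (mk [y]))
    rw [cp_comm W] at u2
    have n1 := cp_norm x⁻¹ W
    have n2 := cp_norm x (x * W)
    rw [inv_inv, norm_inv_eq] at n1
    rw [inv_mul_cancel_left] at n2
    simp only [List.length_cons] at c2 ⊢
    omega

variable [Fintype ι]

/-- a word read as a number -/
noncomputable def val (L : List (ι × Bool)) : ℕ :=
  Nat.ofDigits (Fintype.card (ι × Bool) + 2) (L.map fun z => (Fintype.equivFin (ι × Bool) z : ℕ))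

omit [DecidableEq ι] in
theorem val_inj {L M : List (ι × Bool)} (h1 : L.length = M.length) (h : val L = val M) :
    L = M := by
  have key : ∀ L : List (ι × Bool), ∀ l ∈ L.map fun z => (Fintype.equivFin (ι × Bool) z : ℕ),
      l < Fintype.card (ι × Bool) + 2 := fun L l hl => by
    obtain ⟨z, -, rfl⟩ := List.mem_map.1 hl
    exact (Fintype.equivFin (ι × Bool) z).2.trans (by omega)
  exact List.map_injective_iff.2 (fun a b e => (Fintype.equivFin _).injective (Fin.ext e))
    (Nat.ofDigits_inj_of_len_eq (by omega) (by simpa using h1) (key L) (key M) h)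

omit [DecidableEq ι] in
theorem val_lt {L M : List (ι × Bool)} (h1 : L.length = M.length) (h : val L < val M)
    (N : List (ι × Bool)) : val (L ++ N) < val (M ++ N) := by
  unfold val at *
  rw [List.map_append, List.map_append, Nat.ofDigits_append, Nat.ofDigits_append,
    List.length_map, List.length_map, h1]
  omega

/-- the value of the left half -/
noncomputable def hv (w : FreeGroup ι) : ℕ := val (w.toWord.take (w.norm / 2))

theorem hv_move {x w : FreeGroup ι} {c : ℕ} (hx : x.norm = 2 * c) (hw : 2 * c ≤ w.norm)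
    (h : cp x w = c) (hv' : val (x⁻¹.toWord.take c) < val (x.toWord.take c)) :
    (x⁻¹ * w).norm = w.norm ∧ hv (x⁻¹ * w) < hv w ∧ hv (x⁻¹ * w)⁻¹ = hv w⁻¹ := by
  have n1 := cp_norm x w
  have e1 : (x⁻¹ * w).norm = w.norm := by omega
  have n2 := cp_norm x⁻¹ (x⁻¹ * w)
  have n3 := cp_norm w⁻¹ (x⁻¹ * w)⁻¹
  rw [inv_inv, mul_inv_cancel_left, norm_inv_eq] at n2
  rw [inv_inv, norm_inv_eq, norm_inv_eq, show w * (x⁻¹ * w)⁻¹ = x by group] at n3
  have t1 := cpl_take c x.toWord w.toWord h.ge
  have t2 := cpl_take c x⁻¹.toWord (x⁻¹ * w).toWord (by change c ≤ cp _ _; omega)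
  have t3 := fun k (hk : k ≤ w.norm - c) => cpl_take k w⁻¹.toWord (x⁻¹ * w)⁻¹.toWord
    (by change k ≤ cp _ _; omega)
  have key : ∀ u : FreeGroup ι, u⁻¹.toWord.take (u.norm - c) = invRev (u.toWord.drop c) := by
    intro u
    rw [toWord_inv]
    conv_lhs => rw [← List.take_append_drop c u.toWord, invRev_append]
    exact List.take_left' (by simp [FreeGroup.norm])
  have t4 : (x⁻¹ * w).toWord.drop c = w.toWord.drop c :=
    invRev_injective (by rw [← key, ← key, e1, t3 _ le_rfl])
  refine ⟨e1, ?_, ?_⟩
  · have l1 : (x.toWord.take c).length = c :=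
      List.length_take_of_le (by change c ≤ x.norm; omega)
    have l2 : (x⁻¹.toWord.take c).length = c :=
      List.length_take_of_le (by change c ≤ x⁻¹.norm; rw [norm_inv_eq]; omega)
    unfold hv
    rw [e1, show w.norm / 2 = c + (w.norm / 2 - c) by omega, List.take_add, List.take_add,
      ← t1, ← t2, t4]
    exact val_lt (l2.trans l1.symm) hv' _
  · unfold hv
    rw [norm_inv_eq, norm_inv_eq, e1, t3 _ (by omega)]

end Pool.Agent.P.MP_2d26dd_al.Niel
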