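import Pool.Agent.P.MP_2d26dd_al.Basic
import Pool.Agent.P.MP_2d26dd_al.Nielh1

/-! Nielsen's theorem, relative to a set of fixed letters. -/

namespace Pool.Agent.P.MP_2d26dd_al

open FreeGroup

variable {ι : Type} [DecidableEq ι]

/-- Moves of letters outside `B`. -/
def relGens (B : Finset ι) : Set (AutF ι) :=
  {φ | ∃ t e d s, t ∉ B ∧ t ≠ e ∧ φ = tv t e d s} ∪ {φ | ∃ t, t ∉ B ∧ φ = inv t} ∪
    {φ | ∃ t t', t ∉ B ∧ t' ∉ B ∧ φ = perm (Equiv.swap t t')}

namespace Niel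

theorem lt_fst {φ : AutF ι} {i j k : ι} {s : Bool} (h1 : φ (of i) = lt j s)
    (h2 : φ (of k) = of k) (h : k = j) : i = k := by
  subst h
  cases s
  · rw [lt_false, ← h2, ← _root_.map_inv] at h1
    exact congrArg Prod.fst (el_inj ((φ.injective h1).trans (lt_false k).symm))
  · exact of_injective (φ.injective (h1.trans h2.symm))

theorem signed (B C : Finset ι) (hC : ∀ c ∈ C, c ∉ B) (ψ : AutF ι)
    (h1 : ∀ i, ∃ j s, ψ (of i) = lt j s) (h2 : ∀ i, i ∉ C → ψ (of i) = of i) :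
    ψ ∈ Subgroup.closure (relGens B) := by
  induction C using Finset.induction_on generalizing ψ with
  | empty =>
    rw [autF_ext (φ := ψ) (ψ := 1) fun i => h2 i (by simp)]
    exact one_mem _
  | insert i C hi ih =>
    obtain ⟨j, s, hj⟩ := h1 i
    have hne : ∀ k, k ∉ insert i C → k ≠ i ∧ k ≠ j := fun k hk =>
      have : k ≠ i := fun e => hk (e ▸ Finset.mem_insert_self _ _)
      ⟨this, fun e => this (lt_fst hj (h2 k hk) e).symm⟩
    have hiB := hC i (Finset.mem_insert_self _ _)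
    have hjB : j ∉ B := hC j (by_contra fun h => (hne j h).2 rfl)
    obtain ⟨g, g1, g2, g3, g4⟩ : ∃ g ∈ Subgroup.closure (relGens B), g (lt i s) = of i ∧
        (∀ k, k ≠ i → g (of k) = of k) ∧ ∀ k t, ∃ t', g (lt k t) = lt k t' := by
      cases s
      · refine ⟨inv i, Subgroup.subset_closure (Or.inl (Or.inr ⟨i, hiB, rfl⟩)),
          inv_lt_self i false, fun k hk => inv_ne hk, fun k t => ?_⟩
        by_cases e : k = i
        · subst e
          exact ⟨_, inv_lt_self k t⟩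
        · exact ⟨_, inv_lt_ne e t⟩
      · exact ⟨1, one_mem _, rfl, fun _ _ => rfl, fun _ t => ⟨t, rfl⟩⟩
    have hp : perm (Equiv.swap i j) ∈ Subgroup.closure (relGens B) :=
      Subgroup.subset_closure (Or.inr ⟨i, j, hiB, hjB, rfl⟩)
    refine (Subgroup.mul_mem_cancel_left _ (mul_mem g1 hp)).1
      (ih (fun c hc => hC c (Finset.mem_insert_of_mem hc)) _ (fun k => ?_) fun k hk => ?_)
    · obtain ⟨a, t, e⟩ := h1 k
      obtain ⟨t', e'⟩ := g4 (Equiv.swap i j a) t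
      exact ⟨_, t', by rw [MulAut.mul_apply, MulAut.mul_apply, e, perm_lt, e']⟩
    · rw [MulAut.mul_apply, MulAut.mul_apply]
      by_cases e : k = i
      · rw [e, hj, perm_lt, Equiv.swap_apply_right, g2]
      · have hk' : k ∉ insert i C := by simp [e, hk]
        rw [h2 k hk', perm_of, Equiv.swap_apply_of_ne_of_ne e (hne k hk').2, g3 k e]

theorem move (B : Finset ι) {z y : ι × Bool} (h : z.1 ≠ y.1) (hy : y.1 ∉ B) :
    ∃ g ∈ relGens B, g (mk [y]) = (mk [z])⁻¹ * mk [y] ∧ ∀ k, k ≠ y.1 → g (of k) = of k := by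
  obtain ⟨t, _ | _⟩ := y
  · refine ⟨tv t z.1 true z.2, Or.inl (Or.inl ⟨_, _, _, _, hy, h.symm, rfl⟩), ?_,
      fun k hk => tv_ne hk _ _ _⟩
    change tv t z.1 true z.2 (lt t false) = (lt z.1 z.2)⁻¹ * lt t false
    rw [lt_false, _root_.map_inv, tv_right h.symm, mul_inv_rev]
  · refine ⟨tv t z.1 false (!z.2), Or.inl (Or.inl ⟨_, _, _, _, hy, h.symm, rfl⟩), ?_,
      fun k hk => tv_ne hk _ _ _⟩
    change tv t z.1 false (!z.2) (of t) = (lt z.1 z.2)⁻¹ * of t
    rw [tv_left h.symm, lt_not]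

variable [Fintype ι]

theorem sum_lt {f g : ι × Bool → ℕ} (y : ι × Bool) (h1 : ∀ z, z.1 ≠ y.1 → f z = g z)
    (h2 : f y < g y) (h3 : f (bar y) = g (bar y) ∨ f (bar y) < g (bar y)) :
    ∑ z, f z < ∑ z, g z := by
  refine Finset.sum_lt_sum (fun z _ => ?_) ⟨y, Finset.mem_univ _, h2⟩
  by_cases e : z.1 = y.1
  · rcases eq_or_bar e with rfl | rfl <;> omega
  · exact (h1 z e).le

theorem letters (B : Finset ι) (φ : AutF ι) (h : ∀ b ∈ B, φ (of b) = of b)
    (hm : ∀ g ∈ relGens B, (∀ b ∈ B, g (of b) = of b) →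
      ¬ Prod.Lex (· < ·) (· < ·) (∑ z, ((φ * g) (mk [z])).norm, ∑ z, hv ((φ * g) (mk [z])))
        (∑ z, (φ (mk [z])).norm, ∑ z, hv (φ (mk [z])))) (i : ι) : ∃ z, φ (mk [z]) = of i := by
  have hB : ∀ y : ι × Bool, y.1 ∈ B → (φ (mk [y])).norm = 1 := by
    rintro ⟨b, _ | _⟩ hb
    · change (φ (lt b false)).norm = 1
      rw [lt_false, _root_.map_inv, h b hb, norm_inv_eq, norm_of]
    · change (φ (of b)).norm = 1
      rw [h b hb, norm_of]
  have mv : ∀ z y : ι × Bool, z.1 ≠ y.1 → y.1 ∉ B → ∃ ψ : AutF ι,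
      ψ (mk [y]) = (φ (mk [z]))⁻¹ * φ (mk [y]) ∧ (∀ k : ι × Bool, k.1 ≠ y.1 →
        ψ (mk [k]) = φ (mk [k])) ∧ ¬ Prod.Lex (· < ·) (· < ·)
          (∑ z, (ψ (mk [z])).norm, ∑ z, hv (ψ (mk [z])))
          (∑ z, (φ (mk [z])).norm, ∑ z, hv (φ (mk [z]))) := by
    intro z y hzy hy
    obtain ⟨g, g1, g2, g3⟩ := move B hzy hy
    refine ⟨φ * g, by rw [MulAut.mul_apply, g2, _root_.map_mul, _root_.map_inv], ?_,
      hm g g1 fun b hb => g3 b fun e => hy (e ▸ hb)⟩
    rintro ⟨k, _ | _⟩ hk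
    · change φ (g (lt k false)) = φ (lt k false)
      rw [lt_false, _root_.map_inv g, g3 k hk]
    · exact congrArg φ (g3 k hk)
  have half : ∀ z y : ι × Bool, z.1 ≠ y.1 →
      2 * cp (φ (mk [z])) (φ (mk [y])) ≤ (φ (mk [z])).norm := by
    intro z y hzy
    by_contra hc
    have n1 := cp_norm (φ (mk [z])) (φ (mk [y]))
    by_cases hy : y.1 ∈ B
    · have := hB y hy
      exact hzy (congrArg Prod.fst (el_inj (φ.injective
        (inv_mul_eq_one.1 (norm_eq_zero.1 (by omega))))))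
    · obtain ⟨ψ, a1, a2, a3⟩ := mv z y hzy hy
      refine a3 (.left _ _ (sum_lt y (fun k hk => by rw [a2 k hk]) (by rw [a1]; omega)
        (Or.inr ?_)))
      rw [el_bar, _root_.map_inv, _root_.map_inv, norm_inv_eq, norm_inv_eq, a1]
      omega
  have ne1 : ∀ z : ι × Bool, φ (mk [z]) ≠ 1 := fun z e => by
    simpa [toWord_mk] using congrArg toWord ((map_eq_one_iff φ φ.injective).1 e)
  have exc : ∀ (z y : ι × Bool) (c : ℕ), z.1 ≠ y.1 → (φ (mk [z])).norm = 2 * c →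
      cp (φ (mk [z])) (φ (mk [y])) = c →
      ¬ val ((φ (mk [z]))⁻¹.toWord.take c) < val ((φ (mk [z])).toWord.take c) := by
    intro z y c hzy c1 c2 c3
    have a0 := half y z hzy.symm
    have a4 := cp_inv_lt (ne1 z)
    rw [cp_comm, c2] at a0
    obtain ⟨ψ, a1, a2, a3⟩ := mv z y hzy fun hy => by have := hB y hy; omega
    obtain ⟨b1, b2, b3⟩ := hv_move c1 a0 c2 c3
    rw [← a1] at b1 b2 b3
    have e : ∑ z, (ψ (mk [z])).norm = ∑ z, (φ (mk [z])).norm := Finset.sum_congr rfl fun k _ => by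
      by_cases e : k.1 = y.1
      · rcases eq_or_bar e with rfl | rfl
        · exact b1
        · rw [el_bar, _root_.map_inv, _root_.map_inv, norm_inv_eq, norm_inv_eq, b1]
      · rw [a2 k e]
    rw [e] at a3
    refine a3 (.right _ (sum_lt y (fun k hk => by rw [a2 k hk]) b2 (Or.inl ?_)))
    rw [el_bar, _root_.map_inv, _root_.map_inv, b3]
  have hp : ∀ z : ι × Bool, ∃ y, y ≠ z ∧ ∀ y', z ≠ y' →
      cp (φ (mk [z])) (φ (mk [y'])) ≤ cp (φ (mk [z])) (φ (mk [y])) := fun z => by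
    obtain ⟨y, y1, y2⟩ := Finset.exists_max_image (Finset.univ.erase z)
      (fun y => cp (φ (mk [z])) (φ (mk [y]))) ⟨bar z, by simp [bar, Prod.ext_iff]⟩
    exact ⟨y, Finset.ne_of_mem_erase y1, fun y' h => y2 y' (by simp [h.symm])⟩
  choose m m1 m2 using hp
  have key : ∀ z, 2 * cp (φ (mk [z])) (φ (mk [m z])) < (φ (mk [z])).norm ∨
      z.1 ≠ (m z).1 ∧ 2 * cp (φ (mk [z])) (φ (mk [m z])) ≤ (φ (mk [z])).norm := fun z => by
    by_cases e : (m z).1 = z.1
    · rw [(eq_or_bar e).resolve_left (m1 z), el_bar, _root_.map_inv]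
      exact Or.inl (cp_inv_lt (ne1 z))
    · exact Or.inr ⟨Ne.symm e, half z _ (Ne.symm e)⟩
  have h2 : ∀ z, cp (φ (mk [z])) (φ (mk [m z])) + cp (φ (mk [bar z])) (φ (mk [m (bar z)])) <
      (φ (mk [z])).norm := by
    intro z
    by_contra hc
    have k1 := key z
    have k2 := key (bar z)
    have e : (φ (mk [bar z])).norm = (φ (mk [z])).norm := by
      rw [el_bar, _root_.map_inv, norm_inv_eq]
    have a1 := exc z (m z) _ (k1.resolve_left (by omega)).1 (by omega) rfl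
    have a2 := exc (bar z) (m (bar z)) (cp (φ (mk [z])) (φ (mk [m z])))
      (k2.resolve_left (by omega)).1 (by omega) (by omega)
    have a4 := cp_inv_lt (ne1 z)
    rw [el_bar, _root_.map_inv, inv_inv] at a2
    have a3 := le_cpl _ _ _ (val_inj (by simp) (le_antisymm (not_lt.1 a1) (not_lt.1 a2)))
      (by change _ ≤ (φ (mk [z])).norm; omega)
    change _ ≤ cp _ _ at a3
    omega
  obtain ⟨k, hk⟩ := φ.surjective (of i)
  have hr := isReduced_toWord (x := k)
  rw [← mk_toWord (x := k)] at hk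
  cases hw : k.toWord with
  | nil =>
    rw [hw, ← one_eq_mk, _root_.map_one] at hk
    exact absurd hk (one_ne_of _)
  | cons z L =>
    rw [hw] at hr hk
    have := (pp_norm φ.toMonoidHom _ m2 h2 L z hr).2
    change _ ≤ (φ _).norm at this
    rw [hk, norm_of, List.length_cons] at this
    obtain rfl : L = [] := List.length_eq_zero_iff.mp (by omega)
    exact ⟨z, hk⟩

end Niel

theorem nielsen_rel [Fintype ι] (B : Finset ι) (φ : AutF ι) (h : ∀ b ∈ B, φ (of b) = of b) :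
    φ ∈ Subgroup.closure (relGens B) := by
  induction φ using (InvImage.wf (fun φ : AutF ι => (∑ z, (φ (mk [z])).norm,
    ∑ z, Niel.hv (φ (mk [z])))) (WellFounded.prod_lex wellFounded_lt wellFounded_lt)).induction with
  | _ φ ih =>
  by_cases hm : ∃ g ∈ relGens B, (∀ b ∈ B, g (of b) = of b) ∧ Prod.Lex (· < ·) (· < ·)
      (∑ z, ((φ * g) (mk [z])).norm, ∑ z, Niel.hv ((φ * g) (mk [z])))
      (∑ z, (φ (mk [z])).norm, ∑ z, Niel.hv (φ (mk [z])))
  · obtain ⟨g, g1, g2, g3⟩ := hm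
    exact (Subgroup.mul_mem_cancel_right _ (Subgroup.subset_closure g1)).1
      (ih (φ * g) g3 fun b hb => by rw [MulAut.mul_apply, g2 b hb, h b hb])
  · refine (Subgroup.inv_mem_iff _).1 (Niel.signed B Bᶜ (fun c hc => Finset.mem_compl.1 hc) φ⁻¹
      (fun i => ?_) fun i hi => ?_)
    · obtain ⟨z, hz⟩ := Niel.letters B φ h (fun g g1 g2 g3 => hm ⟨g, g1, g2, g3⟩) i
      exact ⟨z.1, z.2, by rw [← hz]; exact φ.symm_apply_apply _⟩
    · exact φ.symm_apply_eq.2 (h i (by simpa using hi)).symm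

end Pool.Agent.P.MP_2d26dd_al
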