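import Pool.Agent.P.MP_2d26dd_al.SDefs

/-! Short forms used by the final statements. -/

namespace Pool.Agent.P.MP_2d26dd_al

/-- Every homomorphism `Γ → H` all of whose values satisfy `P` has finite image. -/
def FinImage (Γ H : Type) [Group Γ] [Group H] (P : H → Prop) : Prop :=
  ∀ φ : Γ →* H, (∀ γ, P (φ γ)) → Finite φ.range

/-- Every homomorphism `Γ → H` with infinite image, all of whose values satisfy `P`, has a
subgroup isomorphic to `ℤ ^ k` in its image. -/
def RankImage (k : ℕ) (Γ H : Type) [Group Γ] [Group H] (P : H → Prop) : Prop :=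
  ∀ φ : Γ →* H, (∀ γ, P (φ γ)) → Infinite φ.range →
    ∃ f : Multiplicative (Fin k → ℤ) →* φ.range, Function.Injective f

end Pool.Agent.P.MP_2d26dd_al
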