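import Pool.Agent.P.MP_2d26dd_al.Tn

/-! Spectral gap in finite-dimensional orthogonal representations, averaging and Poincare lemmas. -/

namespace Pool.Agent.P.MP_2d26dd_al

open scoped InnerProductSpace

variable {ι : Type} [DecidableEq ι] {V : Type} [NormedAddCommGroup V] [InnerProductSpace ℝ V]
  [FiniteDimensional ℝ V] (ρ : AutF ι →* (V ≃ₗᵢ[ℝ] V))

omit [FiniteDimensional ℝ V] in
theorem t1_mul (f g : V ≃ₗᵢ[ℝ] V) (v : V) : (f * g) v = f (g v) := rfl

omit [DecidableEq ι] [FiniteDimensional ℝ V] in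
theorem t1_isCoc (v : V) : IsCoc (fun g : AutF ι => ρ g v - v) := by
  refine ⟨by simp, fun g h => ?_⟩
  have h1 : ρ g v - v - (ρ h v - v) = -(ρ g (ρ (g⁻¹ * h) v - v)) := by
    have : ρ g (ρ (g⁻¹ * h) v) = ρ h v := by
      rw [← t1_mul, ← map_mul]
      simp
    rw [map_sub, this]
    abel
  simp only
  rw [h1, norm_neg, LinearIsometryEquiv.norm_map]

/-- The Laplacian of the block. -/
noncomputable def t1D (X : Finset ι) : V →ₗ[ℝ] V :=
  ∑ a ∈ gens X, (LinearMap.id - (ρ (tvi a)).toLinearEquiv.toLinearMap)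

omit [FiniteDimensional ℝ V] in
theorem t1D_apply (X : Finset ι) (v : V) : t1D ρ X v = ∑ a ∈ gens X, (v - ρ (tvi a) v) := by
  simp [t1D, LinearMap.sum_apply]

omit [FiniteDimensional ℝ V] in
theorem t1D_self (X : Finset ι) (v : V) :
    2 * ⟪t1D ρ X v, v⟫_ℝ = ∑ a ∈ gens X, ‖ρ (tvi a) v - v‖ ^ 2 := by
  rw [t1D_apply, sum_inner, Finset.mul_sum]
  refine Finset.sum_congr rfl fun a _ => ?_
  rw [norm_sub_sq_real, LinearIsometryEquiv.norm_map, inner_sub_left, real_inner_self_eq_norm_sq]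
  ring

omit [DecidableEq ι] [FiniteDimensional ℝ V] in
theorem t1_inner_inv (g : AutF ι) (v w : V) : ⟪ρ g v, w⟫_ℝ = ⟪v, ρ g⁻¹ w⟫_ℝ := by
  have : ρ g (ρ g⁻¹ w) = w := by
    rw [← t1_mul, ← map_mul]
    simp
  conv_lhs => rw [← this]
  rw [LinearIsometryEquiv.inner_map_map]

omit [FiniteDimensional ℝ V] in
theorem t1D_symm (X : Finset ι) (v w : V) : ⟪t1D ρ X v, w⟫_ℝ = ⟪v, t1D ρ X w⟫_ℝ := by
  rw [t1D_apply, t1D_apply, sum_inner, inner_sum]
  refine Finset.sum_nbij' (fun a : TI ι => (a.1, a.2.1, a.2.2.1, !a.2.2.2))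
    (fun a : TI ι => (a.1, a.2.1, a.2.2.1, !a.2.2.2)) ?_ ?_ ?_ ?_ ?_
  · intro a ha
    exact mem_gens.2 (mem_gens.1 ha :)
  · intro a ha
    exact mem_gens.2 (mem_gens.1 ha :)
  · intro a _
    simp
  · intro a _
    simp
  · intro a _
    rw [inner_sub_left, inner_sub_right, t1_inner_inv]
    simp only [tvi, tv_inv]

omit [FiniteDimensional ℝ V] in
theorem t1D_sq (X : Finset ι) (hX : 303 ≤ X.card) (v : V) :
    ((X.card : ℝ) - 2) / 20 * ⟪t1D ρ X v, v⟫_ℝ ≤ ‖t1D ρ X v‖ ^ 2 := by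
  have h := Tn X hX _ (t1_isCoc ρ v)
  have h2 : ∑ a ∈ gens X, (ρ (tvi a) v - v) = -t1D ρ X v := by
    rw [t1D_apply, ← Finset.sum_neg_distrib]
    simp
  rw [h2, norm_neg, ← t1D_self] at h
  linarith

/-- Vectors fixed by the transvections of the block. -/
def t1W (X : Finset ι) : Submodule ℝ V where
  carrier := {v | ∀ a ∈ gens X, ρ (tvi a) v = v}
  add_mem' := fun ha hb h hh => by simp [ha h hh, hb h hh]
  zero_mem' := fun h _ => by simp
  smul_mem' := fun c v hv h hh => by simp [hv h hh]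

omit [FiniteDimensional ℝ V] in
theorem t1W_SH {X : Finset ι} {w : V} (hw : w ∈ t1W ρ X) {φ : AutF ι} (hφ : φ ∈ SH X) :
    ρ φ w = w := by
  induction hφ using Subgroup.closure_induction with
  | mem x hx =>
    obtain ⟨a, ha, rfl⟩ := hx
    exact hw a ha
  | one => simp
  | mul x y _ _ hx hy => rw [map_mul, t1_mul, hy, hx]
  | inv x _ hx =>
    conv_lhs => rw [← hx]
    rw [← t1_mul, ← map_mul]
    simp

omit [FiniteDimensional ℝ V] in
theorem t1_inv_inv (t : ι) (w : V) : ρ (inv t) (ρ (inv t) w) = w := by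
  rw [← t1_mul, ← map_mul, inv_mul_inv]
  simp

omit [FiniteDimensional ℝ V] in
theorem t1W_inv {X : Finset ι} {w : V} (hw : w ∈ t1W ρ X) (t : ι) : ρ (inv t) w ∈ t1W ρ X := by
  intro a ha
  have hm : tvi a ∈ SH X := Subgroup.subset_closure ⟨a, ha, rfl⟩
  have h := t1W_SH ρ hw (inv_conj_SH t hm)
  rw [map_mul, map_mul, t1_mul, t1_mul] at h
  have h2 := congrArg (ρ (inv t)) h
  rwa [t1_inv_inv] at h2

omit [FiniteDimensional ℝ V] in
theorem t1W_fix {X : Finset ι} {w : V} (hw : w ∈ t1W ρ X) {t : ι} (ht : t ∈ X) :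
    w + ρ (inv t) w ∈ Fix ρ X := by
  have h1 : w + ρ (inv t) w ∈ t1W ρ X := (t1W ρ X).add_mem hw (t1W_inv ρ hw t)
  have h2 : ρ (inv t) (w + ρ (inv t) w) = w + ρ (inv t) w := by
    rw [map_add, t1_inv_inv, add_comm]
  intro φ hφ
  rcases mem_SH_or ht hφ with h | h
  · exact t1W_SH ρ h1 h
  · have h3 := t1W_SH ρ h1 h
    rwa [map_mul, t1_mul, h2] at h3

theorem gap (X : Finset ι) (hX : 303 ≤ X.card) (ξ : V)
    (hξ : ∀ w, (∀ a ∈ gens X, ρ (tvi a) w = w) → ⟪ξ, w⟫_ℝ = 0) :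
    ((X.card : ℝ) - 2) / 10 * ‖ξ‖ ^ 2 ≤ ∑ a ∈ gens X, ‖ρ (tvi a) ξ - ξ‖ ^ 2 := by
  have hpos : (0 : ℝ) < ((X.card : ℝ) - 2) / 20 := by
    have : (303 : ℝ) ≤ X.card := by exact_mod_cast hX
    linarith
  have hker : (LinearMap.range (t1D ρ X))ᗮ ≤ (Submodule.span ℝ {ξ})ᗮ := by
    intro w hw
    rw [Submodule.mem_orthogonal_singleton_iff_inner_right]
    refine hξ w fun a ha => ?_
    have h0 : ⟪t1D ρ X w, w⟫_ℝ = 0 := (Submodule.mem_orthogonal _ _).1 hw _ ⟨w, rfl⟩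
    have h1 := t1D_self ρ X w
    rw [h0, mul_zero] at h1
    have h2 := (Finset.sum_eq_zero_iff_of_nonneg (fun a _ => by positivity)).1 h1.symm a ha
    have h3 : ‖ρ (tvi a) w - w‖ = 0 := by simpa using h2
    exact sub_eq_zero.1 (norm_eq_zero.1 h3)
  have hmem : ξ ∈ LinearMap.range (t1D ρ X) := by
    have h1 := Submodule.orthogonal_le hker
    rw [Submodule.orthogonal_orthogonal, Submodule.orthogonal_orthogonal] at h1
    exact h1 (Submodule.mem_span_singleton_self ξ)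
  obtain ⟨η, hη⟩ := hmem
  set l : ℝ := ((X.card : ℝ) - 2) / 20 with hl
  have h1 := t1D_sq ρ X hX η
  have h2 : 0 ≤ ⟪t1D ρ X (ξ - l • η), ξ - l • η⟫_ℝ := by
    have := t1D_self ρ X (ξ - l • η)
    have h3 : 0 ≤ ∑ a ∈ gens X, ‖ρ (tvi a) (ξ - l • η) - (ξ - l • η)‖ ^ 2 :=
      Finset.sum_nonneg fun a _ => by positivity
    linarith
  have h4 : ⟪t1D ρ X ξ, η⟫_ℝ = ‖ξ‖ ^ 2 := by
    rw [t1D_symm, hη, real_inner_self_eq_norm_sq]
  rw [map_sub, map_smul, inner_sub_left, inner_sub_right, inner_sub_right, inner_smul_left,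
    inner_smul_left, inner_smul_right, inner_smul_right, h4, hη, real_inner_self_eq_norm_sq] at h2
  rw [hη, ← hl] at h1
  simp only [conj_trivial] at h2
  have h5 := mul_le_mul_of_nonneg_left h1 hpos.le
  rw [← t1D_self]
  have h6 : ((X.card : ℝ) - 2) / 10 = 2 * l := by rw [hl]; ring
  rw [h6]
  nlinarith

theorem averaging (X : Finset ι) (hX : 303 ≤ X.card) (ξ : V)
    (hξ : ξ ∈ Submodule.span ℝ {v | ∃ i ∈ X, ρ (inv i) v = v}) (M : ℝ)
    (hM : ∀ a ∈ gens X, ‖ρ (tvi a) ξ - ξ‖ ≤ M) :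
    ‖ξ - (Fix ρ X).starProjection ξ‖ ^ 2 ≤ 80 * X.card * M ^ 2 := by
  have hn : (303 : ℝ) ≤ X.card := by exact_mod_cast hX
  have hperp : ∀ w ∈ t1W ρ X, ⟪ξ - (Fix ρ X).starProjection ξ, w⟫_ℝ = 0 := by
    intro w hw
    clear hM
    induction hξ using Submodule.span_induction with
    | mem v hv =>
      obtain ⟨i, hi, hv⟩ := hv
      have hP : (Fix ρ X).starProjection v ∈ Fix ρ X := Submodule.starProjection_apply_mem _ _
      have hu : ρ (inv i) (v - (Fix ρ X).starProjection v) = v - (Fix ρ X).starProjection v := by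
        rw [map_sub, hv, hP _ (inv_mem_H hi)]
      have h1 : ⟪v - (Fix ρ X).starProjection v, w + ρ (inv i) w⟫_ℝ = 0 :=
        Submodule.starProjection_inner_eq_zero _ _ (t1W_fix ρ hw hi)
      have h2 : ⟪v - (Fix ρ X).starProjection v, ρ (inv i) w⟫_ℝ =
          ⟪v - (Fix ρ X).starProjection v, w⟫_ℝ := by
        conv_lhs => rw [← hu]
        rw [LinearIsometryEquiv.inner_map_map]
      rw [inner_add_right, h2] at h1
      linarith
    | zero => simp
    | add x y _ _ hx hy =>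
      have : x + y - (Fix ρ X).starProjection (x + y) =
          (x - (Fix ρ X).starProjection x) + (y - (Fix ρ X).starProjection y) := by
        rw [map_add]; abel
      rw [this, inner_add_left, hx, hy, add_zero]
    | smul c x _ hx =>
      have : c • x - (Fix ρ X).starProjection (c • x) = c • (x - (Fix ρ X).starProjection x) := by
        rw [map_smul, smul_sub]
      rw [this, inner_smul_left, hx, mul_zero]
  have hg := gap ρ X hX _ fun w hw => hperp w hw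
  have hP : (Fix ρ X).starProjection ξ ∈ Fix ρ X := Submodule.starProjection_apply_mem _ _
  have hs : ∑ a ∈ gens X, ‖ρ (tvi a) (ξ - (Fix ρ X).starProjection ξ) -
      (ξ - (Fix ρ X).starProjection ξ)‖ ^ 2 ≤ (gens X).card * M ^ 2 := by
    rw [← nsmul_eq_mul]
    refine Finset.sum_le_card_nsmul _ _ _ fun a ha => ?_
    have : ρ (tvi a) (ξ - (Fix ρ X).starProjection ξ) - (ξ - (Fix ρ X).starProjection ξ) =
        ρ (tvi a) ξ - ξ := by
      rw [map_sub, hP _ (tvi_mem_H ha)]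
      abel
    rw [this]
    exact pow_le_pow_left₀ (norm_nonneg _) (hM a ha) 2
  have hc : ((gens X).card : ℝ) ≤ 4 * (X.card : ℝ) ^ 2 := by
    have h1 : (gens X).card ≤ (X ×ˢ X ×ˢ (Finset.univ : Finset (Bool × Bool))).card :=
      Finset.card_filter_le _ _
    rw [Finset.card_product, Finset.card_product, Finset.card_univ] at h1
    have h2 : Fintype.card (Bool × Bool) = 4 := by simp
    rw [h2] at h1
    have h3 : ((gens X).card : ℝ) ≤ (X.card : ℝ) * ((X.card : ℝ) * 4) := by exact_mod_cast h1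
    nlinarith
  have hM2 : 0 ≤ M ^ 2 := by positivity
  have h7 : ((X.card : ℝ) - 2) / 10 * ‖ξ - (Fix ρ X).starProjection ξ‖ ^ 2 ≤
      ((X.card : ℝ) - 2) / 10 * (80 * X.card * M ^ 2) := by
    have h8 := mul_le_mul_of_nonneg_right hc hM2
    have h9 : 4 * (X.card : ℝ) ^ 2 * M ^ 2 ≤ ((X.card : ℝ) - 2) / 10 * (80 * X.card * M ^ 2) := by
      have : 0 ≤ (X.card : ℝ) * ((X.card : ℝ) - 4) * M ^ 2 :=
        mul_nonneg (mul_nonneg (by linarith) (by linarith)) hM2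
      nlinarith
    linarith
  exact le_of_mul_le_mul_left h7 (by linarith)

theorem poincare (X : Finset ι) (hX : 303 ≤ X.card) {t : ι} (ht : t ∈ X) (v : V)
    (hv : ∀ w ∈ Fix ρ X, ⟪v, w⟫_ℝ = 0) :
    ‖v‖ ^ 2 ≤ ∑ a ∈ gens X, ‖ρ (tvi a) v - v‖ ^ 2 + ‖ρ (inv t) v - v‖ ^ 2 := by
  have hn : (303 : ℝ) ≤ X.card := by exact_mod_cast hX
  set p : V := (t1W ρ X).starProjection v with hp
  have hpW : p ∈ t1W ρ X := Submodule.starProjection_apply_mem _ _
  have hperp : ∀ w ∈ t1W ρ X, ⟪v - p, w⟫_ℝ = 0 := fun w hw =>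
    Submodule.starProjection_inner_eq_zero _ _ hw
  have hg := gap ρ X hX (v - p) fun w hw => hperp w hw
  have hs : ∑ a ∈ gens X, ‖ρ (tvi a) (v - p) - (v - p)‖ ^ 2 =
      ∑ a ∈ gens X, ‖ρ (tvi a) v - v‖ ^ 2 := by
    refine Finset.sum_congr rfl fun a ha => ?_
    have : ρ (tvi a) (v - p) - (v - p) = ρ (tvi a) v - v := by
      rw [map_sub, hpW a ha]
      abel
    rw [this]
  rw [hs] at hg
  have h1 : ⟪v, p⟫_ℝ = ‖p‖ ^ 2 := by
    have := hperp p hpW
    rw [inner_sub_left, real_inner_self_eq_norm_sq] at this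
    linarith
  have h2 : ⟪v, ρ (inv t) p⟫_ℝ = -‖p‖ ^ 2 := by
    have := hv _ (t1W_fix ρ hpW ht)
    rw [inner_add_right, h1] at this
    linarith
  have h3 : ⟪ρ (inv t) v - v, p⟫_ℝ = -(2 * ‖p‖ ^ 2) := by
    rw [inner_sub_left, t1_inner_inv, inv_inv', h1, h2]
    ring
  have h4 : 2 * ‖p‖ ^ 2 ≤ ‖ρ (inv t) v - v‖ * ‖p‖ := by
    have := abs_real_inner_le_norm (ρ (inv t) v - v) p
    rw [h3, abs_neg] at this
    exact (le_abs_self _).trans this
  have h5 : ‖v‖ ^ 2 = ‖v - p‖ ^ 2 + ‖p‖ ^ 2 := by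
    rw [norm_sub_sq_real, h1]
    ring
  have h6 : ‖v - p‖ ^ 2 ≤ ((X.card : ℝ) - 2) / 10 * ‖v - p‖ ^ 2 := by
    have : 0 ≤ (((X.card : ℝ) - 2) / 10 - 1) * ‖v - p‖ ^ 2 :=
      mul_nonneg (by linarith) (by positivity)
    linarith
  nlinarith [sq_nonneg (‖ρ (inv t) v - v‖ - ‖p‖)]

end Pool.Agent.P.MP_2d26dd_al
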