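import Pool.Agent.P.MP_2d26dd_al.T4he

/-! The certificate for invariant cocycles, and the averaging over signed permutations. -/

namespace Pool.Agent.P.MP_2d26dd_al.T4c

open scoped InnerProductSpace
open FreeGroup (of)

noncomputable section

variable {V : Type} [NormedAddCommGroup V] [InnerProductSpace ℝ V] {b : GG → V}

omit [InnerProductSpace ℝ V] in
theorem ctx (hb : IsCoc b) (hs : HS b) : Ctx b TAB where
  coc := hb
  hs := hs
  tab := fun j hj => by
    have e : sg TAB j = sg TAB (2 * (j / 2)) := by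
      unfold sg
      have : Nat.div (2 * (j / 2)) (nat_lit 2) = Nat.div j (nat_lit 2) :=
        Nat.mul_div_cancel_left (j / 2) (by norm_num)
      rw [this]
    rw [e]; exact tab_ok _ (by omega)
  gen := fun x y h hx => by
    obtain ⟨i, hi, h1, h2⟩ := tab_gen x h.le.1 y h.le.2 h hx
    obtain ⟨s, a1, a2⟩ := hs _ (tab_ok i hi)
    have := conj_gn (tab_ok i hi) a1 (x := 1) (y := 2) (by decide)
    rw [h1, h2] at this
    rw [this]; exact a2 _

theorem sum_gens (F : TI (Fin 4) → ℝ) :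
    ∑ a ∈ gens (Finset.univ : Finset (Fin 4)), F a = (GN.map fun p => F (toTI p.1 p.2)).sum := by
  rw [← gl_gens, List.sum_toFinset _ gl_nodup, List.map_map]; rfl

def wR (a c : TI (Fin 4)) : ℝ :=
  if (edge a ∩ edge c).card = 1 then (1 : ℝ) else if (edge a ∩ edge c).card = 0 then 300 else 0

theorem wt_cast (p q : ℕ × ℕ) : (wt p q : ℝ) = wR (toTI p.1 p.2) (toTI q.1 q.2) := by
  unfold wt wR
  split_ifs <;> simp

theorem T4inv (hb : IsCoc b) (hs : HS b) :
    (1 / 20 : ℝ) * ∑ a ∈ gens (Finset.univ : Finset (Fin 4)), ‖b (tvi a)‖ ^ 2 ≤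
      ∑ a ∈ gens (Finset.univ : Finset (Fin 4)), ∑ c ∈ gens (Finset.univ : Finset (Fin 4)),
        wR a c * ⟪b (tvi a), b (tvi c)⟫_ℝ := by
  have c := ctx hb hs
  obtain ⟨t1, t2, t3, t4, s, f⟩ := hs.fl
  have hρ : 0 ≤ ps b (gn 1 2) := sq_nonneg _
  have h0 : Ps b K0 = 0 := by
    rw [← k0_ok, c.keyw ev_w0.1 ev_w0.1 0 (by norm_num), ev_w0.2]
    simp [ps, hb.1]
  have h1 : Ps b K1 = ps b (gn 1 2) := by
    rw [← k1_ok, c.keyw ev_w0.1 (by decide) 0 (by norm_num), ev_w0.2]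
    simp [ev, gn_zero]
  obtain ⟨A, B, a1, a2⟩ := bnd_ok (Ψ := Ps b) (O := OO) h0 h1
    (fun k => le_min (sq_nonneg _) (by linarith)) (fun k => min_le_right _ _) SK rfl fin_ok
  have a3 : ((10 * A + 48 * NN : ℕ) : ℝ) ≤ (10 * B : ℕ) := by
    exact_mod_cast Nat.le_of_ble_eq_true a1
  have hp : ∀ (k : ℕ), ∀ x ∈ DD.drop k, ∀ y ∈ DD.drop k,
      Adds (Ps b) (pair TAB x y) (RR (B5 b t1 t2 t3 t4 s) x y) := fun k x hx y hy =>
    adds_pair c f (dd_ok x (List.mem_of_mem_drop hx)) (dd_ok y (List.mem_of_mem_drop hy))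
  have r0 := run_ok sk_ok (adds_off _ (hp _) _) run0
  have r1 := run_ok sk_ok (adds_off _ (hp _) _) run1
  have r2 := run_ok sk_ok (adds_off _ (hp _) _) run2
  have r3 := run_ok sk_ok (adds_off _ (hp _) _) run3
  have r4 := run_ok sk_ok (adds_off _ (hp _) _) run4
  have r5 := run_ok sk_ok (adds_off _ (hp _) _) run5
  have rD := run_ok sk_ok (adds_each DD fun x hx => hp 0 x hx x hx) runD
  have rT := run_ok sk_ok (adds_tg c h1 gl_ok) runT
  have neg := RR_nonpos (B5 b t1 t2 t3 t4 s) DD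
  rw [dd_len, show 77 = 9 + (7 + (8 + (10 + (12 + 31)))) from rfl] at neg
  simp only [offS_add, List.drop_drop] at neg
  rw [List.drop_zero] at r0
  simp only [CS, List.map_cons, List.map_nil, List.sum_cons, List.sum_nil] at a2
  rw [← r0, ← r1, ← r2, ← r3, ← r4, ← r5, ← rD, ← rT] at a2
  simp only [List.sum_map_mul_right] at a2
  have e1 : ∑ a ∈ gens (Finset.univ : Finset (Fin 4)), ‖b (tvi a)‖ ^ 2 = 48 * ps b (gn 1 2) := by
    rw [sum_gens, List.map_congr_left (g := fun _ => ps b (gn 1 2)) fun p hp => by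
      show ‖b (gn p.1 p.2)‖ ^ 2 = _
      rw [c.gen _ _ (gl_ok p hp).1 (gl_ok p hp).2]; rfl]
    rw [List.map_const', List.sum_replicate, show GN.length = 48 from rfl]; simp
  have e2 : ∑ a ∈ gens (Finset.univ : Finset (Fin 4)), ∑ c ∈ gens (Finset.univ : Finset (Fin 4)),
      wR a c * ⟪b (tvi a), b (tvi c)⟫_ℝ = (GN.map fun p => (GN.map fun q =>
        (wt p q : ℝ) * ⟪b (gn p.1 p.2), b (gn q.1 q.2)⟫_ℝ).sum).sum := by
    simp only [sum_gens, wt_cast, gn]
  rw [e1, e2]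
  have hN : (0 : ℝ) < NN := by exact_mod_cast (by decide +kernel : 0 < NN)
  generalize (GN.map fun p => (GN.map fun q =>
    (wt p q : ℝ) * ⟪b (gn p.1 p.2), b (gn q.1 q.2)⟫_ℝ).sum).sum = R at a2 ⊢
  push_cast at a2 a3
  have a4 : (48 / 10 * NN) * ps b (gn 1 2) ≤ ((B : ℝ) - A) * ps b (gn 1 2) :=
    mul_le_mul_of_nonneg_right (by linarith) hρ
  refine le_of_mul_le_mul_right ?_ (show (0 : ℝ) < 2 * NN by linarith)
  linarith

def sgn (ε : Fin 4 → Bool) : FreeGroup (Fin 4) →* FreeGroup (Fin 4) :=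
  FreeGroup.lift fun i => lt i (ε i)

theorem sgn_lt (ε : Fin 4 → Bool) (i : Fin 4) (s : Bool) : sgn ε (lt i s) = lt i (ε i == s) := by
  cases s
  · rw [lt_false, map_inv, sgn, FreeGroup.lift_apply_of, ← lt_not]; cases ε i <;> rfl
  · rw [lt_true, sgn, FreeGroup.lift_apply_of]; cases ε i <;> rfl

theorem sgn_sgn (ε : Fin 4 → Bool) : (sgn ε).comp (sgn ε) = MonoidHom.id _ := by
  refine FreeGroup.ext_hom _ _ fun i => ?_
  rw [MonoidHom.comp_apply, ← lt_true, sgn_lt, sgn_lt]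
  cases ε i <;> rfl

abbrev PP : Type := Equiv.Perm (Fin 4) × (Fin 4 → Bool)

def sp (p : PP) : GG :=
  perm p.1 * MonoidHom.toMulEquiv (sgn p.2) (sgn p.2) (sgn_sgn _) (sgn_sgn _)

theorem sp_lt (p : PP) (i : Fin 4) (s : Bool) : sp p (lt i s) = lt (p.1 i) (p.2 i == s) := by
  show perm p.1 (sgn p.2 (lt i s)) = _
  rw [sgn_lt, perm_lt]

theorem sp_of (p : PP) (i : Fin 4) : sp p (of i) = lt (p.1 i) (p.2 i) := by
  rw [← lt_true, sp_lt]; cases p.2 i <;> rfl

def mulP (q p : PP) : PP := (p.1 * q.1, fun i => p.2 (q.1 i) == q.2 i)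

theorem sp_mul (p q : PP) : sp p * sp q = sp (mulP q p) := autF_ext fun i => by
  rw [MulAut.mul_apply, sp_of, sp_lt, sp_of]; rfl

theorem mulP_bij (q : PP) : Function.Bijective (mulP q) := by
  refine Finite.injective_iff_bijective.1 fun p p' h => ?_
  have h1 : p.1 * q.1 = p'.1 * q.1 := congrArg Prod.fst h
  refine Prod.ext (mul_right_cancel h1) (funext fun j => ?_)
  have h2 := congrFun (congrArg Prod.snd h) (q.1.symm j)
  simp only [mulP, Equiv.apply_symm_apply] at h2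
  revert h2
  cases p.2 j <;> cases p'.2 j <;> cases q.2 (q.1.symm j) <;> simp

theorem exists_sp {f : ℕ → ℕ} (h : Ok f) : ∃ p, Lm (sp p) f := by
  obtain ⟨h0, h1, h2⟩ := h
  have h9 : f 9 = 9 := by have := (h1 0 (by omega)).2; rw [h0] at this; exact this
  have hr : ∀ z, 1 ≤ z → z ≤ 8 → 1 ≤ f z ∧ f z ≤ 8 := fun z a1 a2 => by
    have := h1 z (by omega)
    have := h2 z (by omega) 0 (by omega)
    have := h2 z (by omega) 9 (by omega)
    omega
  have inj : Function.Injective fun i : Fin 4 => bs (f (i.1 + 1)) := fun i j e => by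
    have a := hr (i.1 + 1) (by omega) (by omega)
    have a' := hr (j.1 + 1) (by omega) (by omega)
    have a1 := bs_eq a'.1 a'.2 a.1 a.2 e
    have a2 := (h1 (j.1 + 1) (by omega)).2
    have a3 := h2 (i.1 + 1) (by omega) (j.1 + 1) (by omega)
    have a4 := h2 (i.1 + 1) (by omega) (9 - (j.1 + 1)) (by omega)
    exact Fin.ext (by omega)
  let p : PP := (Equiv.ofBijective _ (Finite.injective_iff_bijective.1 inj),
    fun i => decide (f (i.1 + 1) ≤ 4))
  have key : ∀ z, 1 ≤ z → z ≤ 4 → sp p (Lt z) = Lt (f z) := fun z a1 a2 => by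
    obtain ⟨i, rfl⟩ : ∃ i : Fin 4, z = i.1 + 1 := ⟨⟨z - 1, by omega⟩, by simp only; omega⟩
    have a := hr (i.1 + 1) (by omega) (by omega)
    rw [Lt_of, sp_of, Lt_in a.1 a.2]; rfl
  refine ⟨p, fun z hz => ?_⟩
  by_cases a : z = 0 ∨ z = 9
  · rw [Lt_out (by omega), map_one, Lt_out (by rcases a with rfl | rfl <;> omega)]
  · by_cases a' : z ≤ 4
    · exact key z (by omega) a'
    · have := key (9 - z) (by omega) (by omega)
      rw [(h1 z hz).2, Lt_iv, Lt_iv, map_inv] at this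
      exact inv_injective this

def actTI (p : PP) (a : TI (Fin 4)) : TI (Fin 4) :=
  (p.1 a.1, p.1 a.2.1, a.2.2.1 == p.2 a.1, a.2.2.2 == (p.2 a.1 == p.2 a.2.1))

theorem actTI_bij (p : PP) : Function.Bijective (actTI p) := by
  refine Finite.injective_iff_bijective.1 ?_
  rintro ⟨i, j, d, s⟩ ⟨i', j', d', s'⟩ h
  simp only [actTI, Prod.mk.injEq, EmbeddingLike.apply_eq_iff_eq] at h
  obtain ⟨rfl, rfl, h1, h2⟩ := h
  have e1 : d = d' := by revert h1; cases d <;> cases d' <;> cases p.2 i <;> simp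
  have e2 : s = s' := by revert h2; cases s <;> cases s' <;> cases p.2 i <;> cases p.2 j <;> simp
  rw [e1, e2]

theorem act_gens (p : PP) (a : TI (Fin 4)) :
    a ∈ gens (Finset.univ : Finset (Fin 4)) ↔ actTI p a ∈ gens Finset.univ := by
  simp [mem_gens, actTI]

theorem cj_tvi (p : PP) {a : TI (Fin 4)} (ha : a ∈ gens (Finset.univ : Finset (Fin 4))) :
    cj (sp p) (tvi a) = tvi (actTI p a) := by
  obtain ⟨i, j, d, s⟩ := a
  have h : i ≠ j := (mem_gens.1 ha).2.2
  have h' : p.1 i ≠ p.1 j := fun e => h (p.1.injective e)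
  rw [cj, mul_inv_eq_iff_eq_mul]
  refine autF_ext fun k => ?_
  show sp p (tv i j d s (of k)) = tv (p.1 i) (p.1 j) (d == p.2 i) (s == (p.2 i == p.2 j)) (sp p (of k))
  by_cases e : k = i
  · subst e
    rw [sp_of]
    cases d
    · rw [tv_left h, map_mul, sp_lt, sp_of]
      cases p.2 k
      · rw [lt_false, map_inv]
        show _ = (tv _ _ true _ _)⁻¹
        rw [tv_right h', mul_inv_rev, ← lt_not]
        cases s <;> cases p.2 j <;> rfl
      · rw [lt_true]
        show _ = tv _ _ false _ _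
        rw [tv_left h']
        cases s <;> cases p.2 j <;> rfl
    · rw [tv_right h, map_mul, sp_lt, sp_of]
      cases p.2 k
      · rw [lt_false, map_inv]
        show _ = (tv _ _ false _ _)⁻¹
        rw [tv_left h', mul_inv_rev, ← lt_not]
        cases s <;> cases p.2 j <;> rfl
      · rw [lt_true]
        show _ = tv _ _ true _ _
        rw [tv_right h']
        cases s <;> cases p.2 j <;> rfl
  · rw [tv_ne e, sp_of, tv_lt_ne fun e' => e (p.1.injective e')]

theorem wR_act (p : PP) (a c : TI (Fin 4)) : wR (actTI p a) (actTI p c) = wR a c := by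
  have e : ∀ a : TI (Fin 4), edge (actTI p a) = (edge a).map p.1.toEmbedding := fun a => by
    simp [edge, actTI]
  simp only [wR, e, ← Finset.map_inter, Finset.card_map]

theorem sum_act (p : PP) (F : TI (Fin 4) → ℝ) :
    ∑ a ∈ gens (Finset.univ : Finset (Fin 4)), F (actTI p a) = ∑ a ∈ gens Finset.univ, F a :=
  Finset.sum_bijective _ (actTI_bij p) (act_gens p) fun _ _ => rfl

theorem T4all (hb : IsCoc b) :
    (1 / 20 : ℝ) * ∑ a ∈ gens (Finset.univ : Finset (Fin 4)), ‖b (tvi a)‖ ^ 2 ≤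
      ∑ a ∈ gens (Finset.univ : Finset (Fin 4)), ∑ c ∈ gens (Finset.univ : Finset (Fin 4)),
        wR a c * ⟪b (tvi a), b (tvi c)⟫_ℝ := by
  let bb : GG → PiLp 2 (fun _ : PP => V) := fun g => WithLp.toLp 2 fun p => b (cj (sp p) g)
  have nb : ∀ g, ‖bb g‖ ^ 2 = ∑ p : PP, ‖b (cj (sp p) g)‖ ^ 2 := fun g => PiLp.norm_sq_eq_of_L2 _ _
  have ib : ∀ g h, ⟪bb g, bb h⟫_ℝ = ∑ p : PP, ⟪b (cj (sp p) g), b (cj (sp p) h)⟫_ℝ :=
    fun g h => PiLp.inner_apply _ _
  have hc : IsCoc bb := by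
    refine ⟨?_, fun g h => ?_⟩
    · ext p
      show b (cj (sp p) 1) = 0
      rw [cj, mul_one, mul_inv_cancel, hb.1]
    · rw [← sq_eq_sq₀ (norm_nonneg _) (norm_nonneg _), nb, PiLp.norm_sq_eq_of_L2]
      refine Finset.sum_congr rfl fun p _ => ?_
      show ‖b (cj (sp p) g) - b (cj (sp p) h)‖ ^ 2 = _
      rw [hb.2]
      congr 3
      simp only [cj]; group
  have hs : HS bb := fun f hf => by
    obtain ⟨q, hq⟩ := exists_sp hf
    refine ⟨_, hq, fun g => ?_⟩
    rw [← sq_eq_sq₀ (norm_nonneg _) (norm_nonneg _), nb, nb]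
    simp only [cj_cj, sp_mul]
    exact (mulP_bij q).sum_comp fun p => ‖b (cj (sp p) g)‖ ^ 2
  have main := T4inv hc hs
  have e1 : ∑ a ∈ gens (Finset.univ : Finset (Fin 4)), ‖bb (tvi a)‖ ^ 2 =
      (Fintype.card PP : ℝ) * ∑ a ∈ gens (Finset.univ : Finset (Fin 4)), ‖b (tvi a)‖ ^ 2 := by
    simp only [nb]
    rw [Finset.sum_comm, ← nsmul_eq_mul, ← Finset.card_univ, ← Finset.sum_const]
    refine Finset.sum_congr rfl fun p _ => ?_
    rw [← sum_act p fun a => ‖b (tvi a)‖ ^ 2]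
    exact Finset.sum_congr rfl fun a ha => by rw [cj_tvi p ha]
  have e2 : ∑ a ∈ gens (Finset.univ : Finset (Fin 4)), ∑ c ∈ gens (Finset.univ : Finset (Fin 4)),
      wR a c * ⟪bb (tvi a), bb (tvi c)⟫_ℝ = (Fintype.card PP : ℝ) *
      ∑ a ∈ gens (Finset.univ : Finset (Fin 4)), ∑ c ∈ gens (Finset.univ : Finset (Fin 4)),
        wR a c * ⟪b (tvi a), b (tvi c)⟫_ℝ := by
    simp only [ib, Finset.mul_sum (Finset.univ : Finset PP)]
    simp only [Finset.sum_comm (t := (Finset.univ : Finset PP))]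
    rw [← nsmul_eq_mul, ← Finset.card_univ, ← Finset.sum_const]
    refine Finset.sum_congr rfl fun p _ => ?_
    rw [← sum_act p fun a => ∑ c ∈ gens (Finset.univ : Finset (Fin 4)),
      wR a c * ⟪b (tvi a), b (tvi c)⟫_ℝ]
    refine Finset.sum_congr rfl fun a ha => ?_
    rw [← sum_act p fun c => wR (actTI p a) c * ⟪b (tvi (actTI p a)), b (tvi c)⟫_ℝ]
    exact Finset.sum_congr rfl fun c hc => by rw [cj_tvi p ha, cj_tvi p hc, wR_act]
  rw [e1, e2, mul_left_comm] at main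
  exact le_of_mul_le_mul_left main (by exact_mod_cast Fintype.card_pos)

end

end Pool.Agent.P.MP_2d26dd_al.T4c
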