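import Pool.Agent.P.MP_2d26dd_al.Basic
import Pool.Agent.P.MP_2d26dd_al.T4h6

/-! The sum-of-squares certificate `Adj_4 + 300 Op_4 ≥ Δ_4 / 10`. -/

namespace Pool.Agent.P.MP_2d26dd_al

open scoped InnerProductSpace

theorem T4 {V : Type} [NormedAddCommGroup V] [InnerProductSpace ℝ V] (b : AutF (Fin 4) → V)
    (hb : IsCoc b) :
    (1 / 20 : ℝ) * ∑ a ∈ gens (Finset.univ : Finset (Fin 4)), ‖b (tvi a)‖ ^ 2 ≤
      ∑ a ∈ gens (Finset.univ : Finset (Fin 4)), ∑ c ∈ gens (Finset.univ : Finset (Fin 4)),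
        (if (edge a ∩ edge c).card = 1 then (1 : ℝ) else if (edge a ∩ edge c).card = 0 then 300
          else 0) * ⟪b (tvi a), b (tvi c)⟫_ℝ := by
  exact T4c.T4all hb

end Pool.Agent.P.MP_2d26dd_al
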