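import Mathlib

/-! The checker of the sum-of-squares certificate: programs run by the kernel. -/

namespace Pool.Agent.P.MP_2d26dd_al.T4c

noncomputable section

/-- Lists of signed numbers. -/
inductive ZL : Type
  | n : ZL
  | p : ℕ → ZL → ZL
  | m : ℕ → ZL → ZL

/-- Search trees; a leaf holds a key and the positive and negative parts of its coefficient. -/
inductive Tr : Type
  | l : ℕ → ℕ → ℕ → Tr
  | b : Tr → ℕ → Tr → Tr

/-- Words of two generators. -/
structure W2 : Type where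
  a : ℕ
  b : ℕ
  c : ℕ
  d : ℕ

structure I4 : Type where
  a : ℤ
  b : ℤ
  c : ℤ
  d : ℤ

structure Z4 : Type where
  a : ZL
  b : ZL
  c : ZL
  d : ZL

/-- An orbit representative with its columns. -/
structure El : Type where
  u : W2
  w : ℕ
  q0 : Z4
  q1 : Z4
  q2 : Z4
  q3 : Z4

def frc (n : ℕ) (k : ℕ → Bool) : Bool :=
  Nat.rec (motive := fun _ => Bool) (k (nat_lit 0)) (fun m _ => k (Nat.succ m)) n

def top4 (u : ℕ) : ℕ := Nat.mul (nat_lit 4) (Nat.div (Nat.log2 u) (nat_lit 4))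

def cat (u v : ℕ) : ℕ := Nat.add u (Nat.shiftLeft v (Nat.add (top4 u) (nat_lit 4)))

def ms (nx : ℕ → ℕ → ℕ) (u v : ℕ) : ℕ :=
  Bool.rec (motive := fun _ => ℕ) (cat u v)
    (Bool.rec (motive := fun _ => ℕ)
      (nx (Nat.mod u (Nat.pow (nat_lit 2) (top4 u))) (Nat.div v (nat_lit 16)))
      (Nat.div v (nat_lit 16)) (Nat.beq (top4 u) (nat_lit 0)))
    (Nat.beq (Nat.add (Nat.shiftRight u (top4 u)) (Nat.mod v (nat_lit 16))) (nat_lit 9))

def mul (u v : ℕ) : ℕ := ms (ms (ms cat)) u v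

def iv (x : ℕ) : ℕ := Nat.sub (nat_lit 9) x

def mov (W : ℕ → ℕ) (x y z : ℕ) : ℕ :=
  Bool.rec (motive := fun _ => ℕ)
    (Bool.rec (motive := fun _ => ℕ) (W z) (mul (W (iv y)) (W z)) (Nat.beq z (iv x)))
    (mul (W z) (W y)) (Nat.beq z x)

def pr (a b : ℕ) : ℕ := Nat.add (Nat.mul (Nat.add a b) (Nat.add a b)) a

def key4 (W : ℕ → ℕ) : ℕ :=
  pr (pr (W (nat_lit 1)) (W (nat_lit 2))) (pr (W (nat_lit 3)) (W (nat_lit 4)))

def ap (s z : ℕ) : ℕ := Nat.mod (Nat.shiftRight s (Nat.mul (nat_lit 4) z)) (nat_lit 16)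

def key2 (s : ℕ) (u v : W2) : ℕ :=
  key4 (mov (mov (mov (mov (fun z => z) (ap s u.c) (iv (ap s u.d))) (ap s u.a) (iv (ap s u.b)))
    (ap s v.a) (ap s v.b)) (ap s v.c) (ap s v.d))

def sg (T j : ℕ) : ℕ :=
  Nat.mod (Nat.shiftRight T (Nat.mul (nat_lit 40) (Nat.div j (nat_lit 2)))) (nat_lit 1099511627776)

def keyw (T j : ℕ) (u v : W2) : ℕ :=
  Bool.rec (motive := fun _ => ℕ) (key2 (sg T j) v u) (key2 (sg T j) u v)
    (Nat.beq (Nat.mod j (nat_lit 2)) (nat_lit 0))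

def upd (k P N : ℕ) (x : ℤ) (c : Tr → Bool) : Bool :=
  Int.rec (motive := fun _ => Bool)
    (fun n => frc (Nat.add P n) fun P' => c (Tr.l k P' N))
    (fun n => frc (Nat.add N (Nat.succ n)) fun N' => c (Tr.l k P N')) x

def ins (t : Tr) (k : ℕ) (x : ℤ) (c : Tr → Bool) : Bool :=
  Tr.rec (motive := fun _ => (Tr → Bool) → Bool)
    (fun k' P N c => Bool.rec (motive := fun _ => Bool) false (upd k' P N x c) (Nat.beq k k'))
    (fun l s r il ir c => Bool.rec (motive := fun _ => Bool)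
      (ir fun r' => c (Tr.b l s r')) (il fun l' => c (Tr.b l' s r)) (Nat.ble k s)) t c

/-- Programs acting on a tree and a stream of witnesses. -/
abbrev Pg : Type := Tr → ℕ → (Tr → ℕ → Bool) → Bool

def trip (T : ℕ) (x : ℤ) (u v : W2) : Pg := fun t w k =>
  frc (Nat.mod w (nat_lit 1024)) fun j =>
    ins t (keyw T j u v) x fun t' => k t' (Nat.div w (nat_lit 1024))

def put (key : ℕ) (x : ℤ) : Pg := fun t w k => ins t key x fun t' => k t' w

def sq (F G : Pg) : Pg := fun t w k => F t w fun t' w' => G t' w' k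

def ch (c : Bool) (F G : Pg) : Pg := Bool.rec (motive := fun _ => Pg) G F c

def skip : Pg := fun t w k => k t w

def fl (i x : ℕ) : ℕ :=
  Bool.rec (motive := fun _ => ℕ)
    (Bool.rec (motive := fun _ => ℕ) x (iv x) (Nat.beq x (iv i))) (iv x) (Nat.beq x i)

def flW (i : ℕ) (u : W2) : W2 := ⟨fl i u.a, fl i u.b, fl i u.c, fl i u.d⟩

def sw (x : ℕ) : ℕ := ap (nat_lit 654804468240) x

def swW (u : W2) : W2 := ⟨sw u.a, sw u.b, sw u.c, sw u.d⟩

def un (i : ℕ) (u : W2) : Bool :=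
  Bool.and (Bool.and (Nat.beq (fl i u.a) u.a) (Nat.beq (fl i u.b) u.b))
    (Bool.and (Nat.beq (fl i u.c) u.c) (Nat.beq (fl i u.d) u.d))

def fx (i : ℕ) (u v : W2) : Bool := Bool.rec (motive := fun _ => Bool) (un i u) true (un i v)

def ad (A B : I4) : I4 := ⟨Int.add A.a B.a, Int.add A.b B.b, Int.add A.c B.c, Int.add A.d B.d⟩

def sb (A B : I4) : I4 := ⟨Int.sub A.a B.a, Int.sub A.b B.b, Int.sub A.c B.c, Int.sub A.d B.d⟩

def f0 (T : ℕ) (p m : ℤ) (u v : W2) : Pg :=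
  ch (fx (nat_lit 1) u v) (trip T (Int.add p p) u v)
    (sq (trip T (Int.add p m) u v) (trip T (Int.sub p m) (flW (nat_lit 1) u) v))

def f1 (T : ℕ) (M : I4) (u v : W2) : Pg :=
  ch (fx (nat_lit 2) u v) (f0 T (Int.add M.a M.a) (Int.add M.b M.b) u v)
    (sq (f0 T (Int.add M.a M.c) (Int.add M.b M.d) u v)
      (f0 T (Int.sub M.a M.c) (Int.sub M.b M.d) (flW (nat_lit 2) u) v))

def f2 (T : ℕ) (A B : I4) (u v : W2) : Pg :=
  ch (fx (nat_lit 3) u v) (f1 T (ad A B) u v) (sq (f1 T A u v) (f1 T B (flW (nat_lit 3) u) v))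

def f3 (T : ℕ) (P D : I4) (u v : W2) : Pg :=
  ch (fx (nat_lit 4) u v) (f2 T (ad P P) (ad P P) u v)
    (sq (f2 T (ad P D) (sb P D) u v) (f2 T (sb P D) (ad P D) (flW (nat_lit 4) u) v))

def f4 (T : ℕ) (P D P' D' : I4) (u v : W2) : Pg :=
  sq (f3 T (ad P P') (ad D D') u v) (f3 T (sb P P') (sb D D') (swW u) v)

def dotA (x : ZL) : ZL → ℕ → ℕ → ℤ :=
  ZL.rec (motive := fun _ => ZL → ℕ → ℕ → ℤ) (fun _ P N => Int.subNatNat P N)
    (fun a _ ih y P N => ZL.rec (motive := fun _ => ℤ) (Int.subNatNat P N)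
      (fun b y' _ => ih y' (Nat.add P (Nat.mul a b)) N)
      (fun b y' _ => ih y' P (Nat.add N (Nat.mul a b))) y)
    (fun a _ ih y P N => ZL.rec (motive := fun _ => ℤ) (Int.subNatNat P N)
      (fun b y' _ => ih y' P (Nat.add N (Nat.mul a b)))
      (fun b y' _ => ih y' (Nat.add P (Nat.mul a b)) N) y) x

def dot (x y : ZL) : ℤ := dotA x y (nat_lit 0) (nat_lit 0)

def dot4 (x y : Z4) : I4 := ⟨dot x.a y.a, dot x.b y.b, dot x.c y.c, dot x.d y.d⟩

def w0 : W2 := ⟨nat_lit 0, nat_lit 0, nat_lit 0, nat_lit 0⟩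

def kel (T : ℕ) (x : El) : ℕ := keyw T x.w w0 x.u

def pair (T : ℕ) (x y : El) : Pg :=
  sq (f4 T (dot4 x.q0 y.q0) (dot4 x.q1 y.q1) (dot4 x.q2 y.q2) (dot4 x.q3 y.q3) x.u y.u)
    (sq (put (kel T x) (Int.mul (Int.negSucc (nat_lit 31)) (dot x.q0.a y.q0.a)))
      (put (kel T y) (Int.mul (Int.negSucc (nat_lit 31)) (dot x.q0.a y.q0.a))))

def each {α : Type} (F : α → Pg) (L : List α) : Pg :=
  List.rec (motive := fun _ => Pg) skip (fun y _ ih => sq (F y) ih) L

def off (T : ℕ) (L : List El) : ℕ → Pg :=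
  List.rec (motive := fun _ => ℕ → Pg) (fun _ => skip)
    (fun x L' ih n => Nat.rec (motive := fun _ => Pg) skip
      (fun n' _ => sq (each (pair T x) L') (ih n')) n) L

def cmp (B O : ℕ) (s : Tr) : Tr → ℕ → (ℕ → Bool) → Bool :=
  Tr.rec (motive := fun _ => Tr → ℕ → (ℕ → Bool) → Bool)
    (fun k _ _ t C c => Tr.rec (motive := fun _ => Bool)
      (fun k' P N => Bool.rec (motive := fun _ => Bool) false
        (Bool.rec (motive := fun _ => Bool) false
          (frc (Nat.div C B) c)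
          (Nat.beq (Nat.add P O)
            (Nat.add N (Nat.mod C B)))) (Nat.beq k k'))
      (fun _ _ _ _ _ => false) t)
    (fun _ _ _ il ir t C c => Tr.rec (motive := fun _ => Bool) (fun _ _ _ => false)
      (fun l' _ r' _ _ => il l' C fun C' => ir r' C' c) t) s

/-- Run a program from the skeleton and compare the coefficients with the digits of `C`. -/
def run (B O : ℕ) (S : Tr) (F : Pg) (w C : ℕ) : Bool :=
  F S w fun t _ => cmp B O S t C fun _ => true

def BB : ℕ := nat_lit 1152921504606846976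

def OO : ℕ := nat_lit 576460752303423488

end

end Pool.Agent.P.MP_2d26dd_al.T4c
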