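import Pool.Agent.P.MP_2d26dd_al.T4h1

/-! Data of the certificate. -/

namespace Pool.Agent.P.MP_2d26dd_al.T4c

noncomputable section

def TAB : ℕ := nat_lit 740002996946665811568935872554190593402816757199079180300568467146897823227242055989641100087680372666638193008478678467269270738375400145003927028959883014936818206083503727020871012435686590273305920731305381850584530053261603047159009635333163236470598775548944115143505596864702488551961017537624833670161818309578486216025687374903941211307048243824280452417197051629541224064841637719341499691438600838226229125832348202565599677645723923355964644369361636362588340411287586356203086906438099667025380155128791629662719788751241675181018032030828689806586507281262008261736332374784016744155152635240339208728890868891781485066339523425053638495727172030002563667541260802622197108103517840216356343394477284877698076737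854355580322224569114492422180844694446898826241594352490159421178915561329176540985492178423216851257386131717712830933782279559136833404588005681623457117510148985828944158634269925520453461072411864169346843699446280641397518215905678375267275457795600474222121567215232485927974060564600018703209241428947440211595459489217170363204976255852206765878964004616971121047974022280907394492859342318876046615287115711807422475407763644349558807587793597253163991574060827311474067145775995791686581919875861706615670644587323255848862765673275117880882877040680783457388636519365477183391950105306269850621028818530891306777340373253615504025115606149903182833348933141034700191684144328542881076245321958279369427649614055210198906386918955578007378141504369135137075898248812810878970809999934315808442240968414995526111569598028928654336888991188097757177061369301818847066656535466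644914433561404200674149769203782643191754256812687595227919060310652132927172682351798891406572795213772370290996500643098931862967399718448781735181491292590405361321401283835858697212046494978181736063970992269665891297467257288369170860378584446634132998234798805188412524242178488260244782979917481661023282967669985882862752526853398040363569470648007835083275668507492532419607419079868081031008372431604694105974225258674394222996510829430428241534680641456290997929788567216591044865797154090529594060540688770511137238084241025886987494321220331365419233914733118726860812625222840339157826016600944365395344042118235685856839699984283124406550894954914157276060732321627429541361941355137097134093804484028879356712054920488780218511894451597215497359051484746364730647864782332340578464336676122410338548653157954580968400803625118226448104051113203612957870778781622504852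831409053910273446234208129422218850519625163829337671276978966735055411391059151365403265343352512391913988645308386499511536701018161925396910842893923353781695083346349662503215309301187977736542492291006445322519092864762009882492192073312024887990116269014638117795053787907159766827777058033672404068652337457112153080479240390941063474060339717947184840562127859250348531841728652321065962925468915538102061831629120999516329503491274480448471843104650210543539259528630139498604315961082013923709970445365261717177776126287192890895644721142881337006268592706851961357286338742300064631902764243530602109474120903086963660661348190207606295022293594749445066176813748799560002136961114800536850764869475965578365419765436413026559679043658380543259844381537821627427905518054892880280736678030523446389010140873706550472176033855951755008089584357197293475959032846473309116387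769155241881249950682797800516171503632065755718549479616188823616455131848469702986108163248676483916605944568703857682670764041009381775098453811170296118927029131384655333729090356294984515339365714269596496741202323126525049443404504651944108330739915963037323971545568069670355191045003297935420786405939855988124310023617625113677461974185166236791346998194396680621028212830819300532012240010435612871968375266169794377489567843221651903588568402354593409237715952591553216661699387301509980616492531063583027659233709096399648691758905447356340544892069325211358505161775306829437240439793223004166759026619100191154502004806896465904750144735460446960027761850039661668066523307060325990746544618727072080354152460196166695893788448542390236089135889819591328974514706433301249569491102779773224483623864825212638126861435666713237199049517176490048754809763309919162091276740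283796138330607195268580829042530166320450554161863790065908342541986822208936879140193296899836350551960208642829166841201821750031173009631185303363777895830974766492501991586692475327711923248047497340386609159000647847029152963543775369408638760286729206568882920489850621389092779729071068414772512237753641791013757597567374245105180592813203480541356722165552161618483261888182897355316131625555383171014519814931983451476078988083900480235429280024077368023369069659104125237086366524821955333319637108267169083647082536923622182917230747590394079267271158994889967184582272200797851895004444408740177032966239031395876660661425684390510475501622083955621864300166376740573762876265707033447322087008281659398978858183545753364082270935755674825343659631624849818024991487217416419968390854429623937091502985933032113777250591018243688899127729524343834606699391110609873557890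931939374772668154918212623547549336175544663577562899702630899122558054618475225914282294611579878769310204767144665265713082380575914758311770225121699969762147650977435858224339576490849602495085464484180592942358997307362770021584217593693850801528360406758062705017123297444500908880046395722029566786912994387210558332347934507217257896885149866995390388453743388053422705386349733094368237385717720348385147893456837113040410379264365044909194082724363357799223979172945269211816297267383526574100484794621564258723095568019258795804897655699915119354271080429406292030799188647663912596201912190808899075143421358261840140460871552523505334410448408580828518032670799749497291947019043997779210320656749630108936611416825570599440582924049216604978230818374035919764730341856416084419078097112763589347973561989036192324298732573298850665392715537276947355795840306716029956342870329745098256677764012368257126987284077058851488270126214144573963099533584287758736680423896686929116903248449604321946120720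

def e0 : El := El.mk (W2.mk (nat_lit 1) (nat_lit 2) (nat_lit 0) (nat_lit 0)) (nat_lit 0)
  (Z4.mk (ZL.m (nat_lit 2184906) ZL.n) (ZL.m (nat_lit 2636798) ZL.n) ZL.n ZL.n)
  (Z4.mk ZL.n ZL.n ZL.n ZL.n)
  (Z4.mk ZL.n ZL.n ZL.n ZL.n)
  (Z4.mk ZL.n ZL.n ZL.n ZL.n)

def e1 : El := El.mk (W2.mk (nat_lit 1) (nat_lit 3) (nat_lit 0) (nat_lit 0)) (nat_lit 64)
  (Z4.mk (ZL.m (nat_lit 2586429) (ZL.m (nat_lit 873245) ZL.n)) (ZL.m (nat_lit 5273597) ZL.n) ZL.n ZL.n)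
  (Z4.mk ZL.n ZL.n ZL.n ZL.n)
  (Z4.mk (ZL.p (nat_lit 3777396) ZL.n) (ZL.p (nat_lit 9165101) ZL.n) ZL.n ZL.n)
  (Z4.mk ZL.n ZL.n ZL.n ZL.n)

def e2 : El := El.mk (W2.mk (nat_lit 2) (nat_lit 1) (nat_lit 0) (nat_lit 0)) (nat_lit 192)
  (Z4.mk (ZL.p (nat_lit 1394466) (ZL.m (nat_lit 1614277) (ZL.p (nat_lit 472643) ZL.n))) (ZL.m (nat_lit 10203) (ZL.m (nat_lit 2644156) ZL.n)) ZL.n ZL.n)
  (Z4.mk ZL.n ZL.n ZL.n ZL.n)
  (Z4.mk ZL.n ZL.n ZL.n ZL.n)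
  (Z4.mk ZL.n ZL.n ZL.n ZL.n)

def e3 : El := El.mk (W2.mk (nat_lit 2) (nat_lit 3) (nat_lit 0) (nat_lit 0)) (nat_lit 384)
  (Z4.mk (ZL.p (nat_lit 1005548) (ZL.m (nat_lit 2355309) (ZL.p (nat_lit 945285) ZL.n))) ZL.n ZL.n ZL.n)
  (Z4.mk ZL.n ZL.n ZL.n ZL.n)
  (Z4.mk (ZL.m (nat_lit 1715084) (ZL.p (nat_lit 3365592) ZL.n)) ZL.n ZL.n ZL.n)
  (Z4.mk ZL.n ZL.n ZL.n ZL.n)

def e4 : El := El.mk (W2.mk (nat_lit 3) (nat_lit 1) (nat_lit 0) (nat_lit 0)) (nat_lit 256)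
  (Z4.mk (ZL.p (nat_lit 992943) (ZL.m (nat_lit 2487522) (ZL.p (nat_lit 472643) ZL.n))) (ZL.m (nat_lit 20406) (ZL.m (nat_lit 5288313) ZL.n)) ZL.n ZL.n)
  (Z4.mk ZL.n ZL.n ZL.n ZL.n)
  (Z4.mk (ZL.p (nat_lit 1715084) (ZL.m (nat_lit 3365592) ZL.n)) (ZL.m (nat_lit 11467) (ZL.p (nat_lit 9145518) ZL.n)) ZL.n ZL.n)
  (Z4.mk ZL.n ZL.n ZL.n ZL.n)

def e5 : El := El.mk (W2.mk (nat_lit 3) (nat_lit 2) (nat_lit 0) (nat_lit 0)) (nat_lit 448)
  (Z4.mk (ZL.m (nat_lit 2573824) (ZL.m (nat_lit 741032) (ZL.p (nat_lit 472643) ZL.n))) ZL.n ZL.n ZL.n)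
  (Z4.mk ZL.n ZL.n ZL.n ZL.n)
  (Z4.mk (ZL.m (nat_lit 3777396) ZL.n) ZL.n ZL.n ZL.n)
  (Z4.mk ZL.n ZL.n ZL.n ZL.n)

def e6 : El := El.mk (W2.mk (nat_lit 3) (nat_lit 4) (nat_lit 0) (nat_lit 0)) (nat_lit 512)
  (Z4.mk (ZL.m (nat_lit 790441) (ZL.m (nat_lit 1614277) (ZL.p (nat_lit 472643) ZL.n))) ZL.n ZL.n ZL.n)
  (Z4.mk (ZL.m (nat_lit 7909961) ZL.n) ZL.n ZL.n ZL.n)
  (Z4.mk (ZL.p (nat_lit 2062312) (ZL.p (nat_lit 3365592) ZL.n)) ZL.n ZL.n ZL.n)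
  (Z4.mk (ZL.m (nat_lit 7911037) ZL.n) ZL.n ZL.n ZL.n)

def e7 : El := El.mk (W2.mk (nat_lit 1) (nat_lit 2) (nat_lit 1) (nat_lit 3)) (nat_lit 4)
  (Z4.mk (ZL.p (nat_lit 17054) (ZL.m (nat_lit 4023) (ZL.p (nat_lit 5714) (ZL.m (nat_lit 83820) ZL.n)))) (ZL.p (nat_lit 17842) (ZL.p (nat_lit 1696) (ZL.m (nat_lit 114388) ZL.n))) ZL.n ZL.n)
  (Z4.mk ZL.n ZL.n ZL.n ZL.n)
  (Z4.mk (ZL.p (nat_lit 3232) (ZL.p (nat_lit 5177) (ZL.m (nat_lit 115985) ZL.n))) (ZL.p (nat_lit 17474) (ZL.m (nat_lit 17295) (ZL.p (nat_lit 217280) ZL.n))) ZL.n ZL.n)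
  (Z4.mk ZL.n ZL.n ZL.n ZL.n)

def e8 : El := El.mk (W2.mk (nat_lit 1) (nat_lit 2) (nat_lit 8) (nat_lit 6)) (nat_lit 3)
  (Z4.mk (ZL.p (nat_lit 11422) (ZL.m (nat_lit 3041) (ZL.m (nat_lit 16148) (ZL.m (nat_lit 8407) (ZL.p (nat_lit 63754) ZL.n))))) ZL.n ZL.n ZL.n)
  (Z4.mk ZL.n ZL.n ZL.n ZL.n)
  (Z4.mk (ZL.m (nat_lit 9577) (ZL.m (nat_lit 3699) (ZL.m (nat_lit 15974) (ZL.p (nat_lit 103610) ZL.n)))) (ZL.p (nat_lit 27907) (ZL.p (nat_lit 1856) (ZL.p (nat_lit 64160) (ZL.m (nat_lit 347996) ZL.n)))) ZL.n ZL.n)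
  (Z4.mk ZL.n ZL.n ZL.n ZL.n)

def e9 : El := El.mk (W2.mk (nat_lit 1) (nat_lit 2) (nat_lit 2) (nat_lit 8)) (nat_lit 2)
  (Z4.mk (ZL.p (nat_lit 4670) (ZL.m (nat_lit 1217) (ZL.m (nat_lit 878) (ZL.m (nat_lit 17237) (ZL.m (nat_lit 246) (ZL.m (nat_lit 32672) ZL.n)))))) (ZL.p (nat_lit 5061) (ZL.m (nat_lit 307) (ZL.m (nat_lit 21673) (ZL.p (nat_lit 56841) ZL.n)))) ZL.n ZL.n)
  (Z4.mk ZL.n ZL.n ZL.n ZL.n)
  (Z4.mk ZL.n ZL.n ZL.n ZL.n)
  (Z4.mk ZL.n ZL.n ZL.n ZL.n)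

def e10 : El := El.mk (W2.mk (nat_lit 1) (nat_lit 2) (nat_lit 7) (nat_lit 6)) (nat_lit 12)
  (Z4.mk (ZL.m (nat_lit 4636) (ZL.m (nat_lit 3262) (ZL.m (nat_lit 6784) (ZL.p (nat_lit 1743) (ZL.m (nat_lit 28108) (ZL.m (nat_lit 19249) (ZL.p (nat_lit 94146) ZL.n))))))) (ZL.p (nat_lit 3189) (ZL.m (nat_lit 10379) (ZL.m (nat_lit 17579) (ZL.m (nat_lit 7832) (ZL.p (nat_lit 152463) ZL.n))))) ZL.n ZL.n)
  (Z4.mk ZL.n ZL.n ZL.n ZL.n)
  (Z4.mk (ZL.m (nat_lit 593) (ZL.m (nat_lit 856) (ZL.m (nat_lit 7518) (ZL.m (nat_lit 11697) (ZL.m (nat_lit 114699) ZL.n))))) (ZL.p (nat_lit 33135) (ZL.m (nat_lit 12238) (ZL.p (nat_lit 87515) (ZL.p (nat_lit 22205) (ZL.m (nat_lit 304286) ZL.n))))) ZL.n ZL.n)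
  (Z4.mk ZL.n ZL.n ZL.n ZL.n)

def e11 : El := El.mk (W2.mk (nat_lit 1) (nat_lit 2) (nat_lit 3) (nat_lit 8)) (nat_lit 261)
  (Z4.mk (ZL.p (nat_lit 613) (ZL.p (nat_lit 1321) (ZL.p (nat_lit 15057) (ZL.p (nat_lit 51864) (ZL.p (nat_lit 9929) (ZL.m (nat_lit 41821) (ZL.m (nat_lit 25711) (ZL.m (nat_lit 58640) ZL.n)))))))) (ZL.p (nat_lit 798) (ZL.p (nat_lit 7621) (ZL.m (nat_lit 3371) (ZL.m (nat_lit 504) (ZL.m (nat_lit 34987) (ZL.p (nat_lit 105030) ZL.n)))))) ZL.n ZL.n)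
  (Z4.mk ZL.n ZL.n ZL.n ZL.n)
  (Z4.mk (ZL.m (nat_lit 6097) (ZL.p (nat_lit 1758) (ZL.p (nat_lit 5345) (ZL.p (nat_lit 12795) (ZL.m (nat_lit 15448) (ZL.m (nat_lit 106939) ZL.n)))))) (ZL.m (nat_lit 15196) (ZL.p (nat_lit 13988) (ZL.m (nat_lit 64217) (ZL.m (nat_lit 36038) (ZL.m (nat_lit 39440) (ZL.m (nat_lit 234668) ZL.n)))))) ZL.n ZL.n)
  (Z4.mk ZL.n ZL.n ZL.n ZL.n)

def e12 : El := El.mk (W2.mk (nat_lit 1) (nat_lit 2) (nat_lit 3) (nat_lit 2)) (nat_lit 0)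
  (Z4.mk (ZL.p (nat_lit 28413) (ZL.m (nat_lit 9430) (ZL.m (nat_lit 29564) (ZL.m (nat_lit 37981) (ZL.m (nat_lit 9323) (ZL.m (nat_lit 112367) (ZL.m (nat_lit 29053) (ZL.p (nat_lit 1738) (ZL.p (nat_lit 263982) ZL.n))))))))) (ZL.m (nat_lit 8106) (ZL.m (nat_lit 3035) (ZL.m (nat_lit 36561) (ZL.p (nat_lit 68812) (ZL.m (nat_lit 178815) (ZL.p (nat_lit 2226) (ZL.p (nat_lit 167341) ZL.n))))))) ZL.n ZL.n)
  (Z4.mk ZL.n ZL.n ZL.n ZL.n)
  (Z4.mk (ZL.p (nat_lit 7747) (ZL.m (nat_lit 2417) (ZL.m (nat_lit 3388) (ZL.p (nat_lit 51443) (ZL.m (nat_lit 30294) (ZL.m (nat_lit 10492) (ZL.m (nat_lit 192116) ZL.n))))))) (ZL.m (nat_lit 19685) (ZL.p (nat_lit 10323) (ZL.m (nat_lit 123235) (ZL.m (nat_lit 81952) (ZL.p (nat_lit 8758) (ZL.p (nat_lit 25003) (ZL.p (nat_lit 530377) ZL.n))))))) ZL.n ZL.n)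
  (Z4.mk ZL.n ZL.n ZL.n ZL.n)

def e13 : El := El.mk (W2.mk (nat_lit 1) (nat_lit 2) (nat_lit 3) (nat_lit 7)) (nat_lit 1)
  (Z4.mk (ZL.m (nat_lit 10258) (ZL.p (nat_lit 6536) (ZL.p (nat_lit 23266) (ZL.m (nat_lit 7320) (ZL.m (nat_lit 47633) (ZL.m (nat_lit 10462) (ZL.m (nat_lit 8543) (ZL.m (nat_lit 12582) (ZL.m (nat_lit 82769) (ZL.p (nat_lit 79017) ZL.n)))))))))) (ZL.p (nat_lit 28068) (ZL.p (nat_lit 1729) (ZL.m (nat_lit 11598) (ZL.m (nat_lit 24035) (ZL.p (nat_lit 8141) (ZL.p (nat_lit 8830) (ZL.m (nat_lit 75899) (ZL.p (nat_lit 97262) ZL.n)))))))) ZL.n ZL.n)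
  (Z4.mk ZL.n ZL.n ZL.n ZL.n)
  (Z4.mk (ZL.p (nat_lit 1214) (ZL.p (nat_lit 3442) (ZL.m (nat_lit 20983) (ZL.p (nat_lit 25918) (ZL.m (nat_lit 1326) (ZL.p (nat_lit 10275) (ZL.m (nat_lit 37569) (ZL.m (nat_lit 80003) ZL.n)))))))) (ZL.m (nat_lit 2859) (ZL.p (nat_lit 4282) (ZL.p (nat_lit 102342) (ZL.m (nat_lit 20468) (ZL.p (nat_lit 18384) (ZL.m (nat_lit 23943) (ZL.p (nat_lit 161581) (ZL.p (nat_lit 187720) ZL.n)))))))) ZL.n ZL.n)
  (Z4.mk ZL.n ZL.n ZL.n ZL.n)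

def e14 : El := El.mk (W2.mk (nat_lit 1) (nat_lit 2) (nat_lit 3) (nat_lit 4)) (nat_lit 4)
  (Z4.mk (ZL.p (nat_lit 2162321) (ZL.m (nat_lit 7642) (ZL.m (nat_lit 35842) (ZL.p (nat_lit 44241) (ZL.m (nat_lit 30875) (ZL.p (nat_lit 114464) (ZL.m (nat_lit 60957) (ZL.p (nat_lit 57897) (ZL.m (nat_lit 57783) (ZL.m (nat_lit 56837) (ZL.m (nat_lit 60643) ZL.n))))))))))) (ZL.p (nat_lit 2598416) (ZL.p (nat_lit 2471) (ZL.p (nat_lit 120080) (ZL.m (nat_lit 48521) (ZL.m (nat_lit 30355) (ZL.m (nat_lit 91253) (ZL.m (nat_lit 17340) (ZL.m (nat_lit 24154) (ZL.p (nat_lit 32612) ZL.n))))))))) ZL.n ZL.n)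
  (Z4.mk (ZL.p (nat_lit 3908202) (ZL.m (nat_lit 3948235) ZL.n)) (ZL.m (nat_lit 2602415) ZL.n) ZL.n (ZL.m (nat_lit 2171244) ZL.n))
  (Z4.mk (ZL.m (nat_lit 1034196) (ZL.m (nat_lit 1669264) (ZL.p (nat_lit 125009) (ZL.p (nat_lit 37545) (ZL.m (nat_lit 257998) (ZL.p (nat_lit 153824) (ZL.p (nat_lit 95153) (ZL.m (nat_lit 9344) (ZL.m (nat_lit 2059025) ZL.n))))))))) (ZL.p (nat_lit 7945) (ZL.m (nat_lit 12596) (ZL.m (nat_lit 510918) (ZL.m (nat_lit 81892) (ZL.m (nat_lit 544737) (ZL.p (nat_lit 634129) (ZL.m (nat_lit 448464) (ZL.p (nat_lit 413566) (ZL.m (nat_lit 5742077) ZL.n))))))))) ZL.n ZL.n)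
  (Z4.mk (ZL.p (nat_lit 3915048) (ZL.m (nat_lit 3967221) ZL.n)) (ZL.m (nat_lit 5858404) ZL.n) ZL.n (ZL.m (nat_lit 2863109) ZL.n))

def e15 : El := El.mk (W2.mk (nat_lit 1) (nat_lit 3) (nat_lit 1) (nat_lit 2)) (nat_lit 9)
  (Z4.mk (ZL.p (nat_lit 11961) (ZL.p (nat_lit 4165) (ZL.p (nat_lit 25163) (ZL.m (nat_lit 13525) (ZL.p (nat_lit 1815) (ZL.m (nat_lit 41657) (ZL.m (nat_lit 23672) (ZL.m (nat_lit 37424) (ZL.p (nat_lit 7580) (ZL.m (nat_lit 16202) (ZL.m (nat_lit 19704) (ZL.m (nat_lit 41250) ZL.n)))))))))))) (ZL.p (nat_lit 17842) (ZL.p (nat_lit 1696) (ZL.m (nat_lit 114388) ZL.n))) ZL.n ZL.n)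
  (Z4.mk ZL.n ZL.n ZL.n ZL.n)
  (Z4.mk (ZL.m (nat_lit 7778) (ZL.m (nat_lit 4009) (ZL.p (nat_lit 32601) (ZL.p (nat_lit 23592) (ZL.m (nat_lit 12351) (ZL.m (nat_lit 48437) (ZL.p (nat_lit 22250) (ZL.p (nat_lit 26312) (ZL.p (nat_lit 10242) (ZL.m (nat_lit 105130) ZL.n)))))))))) (ZL.m (nat_lit 24979) (ZL.m (nat_lit 10032) (ZL.p (nat_lit 38973) (ZL.p (nat_lit 14805) (ZL.p (nat_lit 32802) (ZL.m (nat_lit 5108) (ZL.m (nat_lit 22194) (ZL.p (nat_lit 31871) (ZL.m (nat_lit 8975) (ZL.m (nat_lit 211386) ZL.n)))))))))) ZL.n ZL.n)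
  (Z4.mk ZL.n ZL.n ZL.n ZL.n)

def e16 : El := El.mk (W2.mk (nat_lit 1) (nat_lit 3) (nat_lit 1) (nat_lit 4)) (nat_lit 136)
  (Z4.mk (ZL.p (nat_lit 11615) (ZL.p (nat_lit 8057) (ZL.p (nat_lit 37876) (ZL.m (nat_lit 66818) (ZL.m (nat_lit 13675) (ZL.p (nat_lit 31616) (ZL.m (nat_lit 15494) (ZL.m (nat_lit 18348) (ZL.p (nat_lit 7056) (ZL.m (nat_lit 897) (ZL.p (nat_lit 34427) (ZL.m (nat_lit 62232) (ZL.m (nat_lit 24840) ZL.n))))))))))))) (ZL.p (nat_lit 17842) (ZL.p (nat_lit 1696) (ZL.m (nat_lit 114388) ZL.n))) ZL.n ZL.n)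
  (Z4.mk (ZL.m (nat_lit 1187) (ZL.m (nat_lit 19051) (ZL.m (nat_lit 288033) ZL.n))) (ZL.p (nat_lit 6135) (ZL.m (nat_lit 102390) ZL.n)) ZL.n ZL.n)
  (Z4.mk (ZL.p (nat_lit 909) (ZL.p (nat_lit 10266) (ZL.m (nat_lit 57029) (ZL.m (nat_lit 30776) (ZL.p (nat_lit 38035) (ZL.m (nat_lit 15506) (ZL.p (nat_lit 38199) (ZL.m (nat_lit 15629) (ZL.m (nat_lit 6339) (ZL.p (nat_lit 70914) (ZL.m (nat_lit 60192) ZL.n))))))))))) (ZL.m (nat_lit 42453) (ZL.p (nat_lit 7262) (ZL.m (nat_lit 65019) (ZL.m (nat_lit 26361) (ZL.p (nat_lit 78120) (ZL.m (nat_lit 431) (ZL.m (nat_lit 22913) (ZL.m (nat_lit 18224) (ZL.m (nat_lit 3111) (ZL.m (nat_lit 77743) (ZL.p (nat_lit 191928) ZL.n))))))))))) ZL.n ZL.n)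
  (Z4.mk (ZL.m (nat_lit 10943) (ZL.p (nat_lit 6413) (ZL.m (nat_lit 288386) ZL.n))) (ZL.m (nat_lit 459) (ZL.m (nat_lit 210897) ZL.n)) ZL.n ZL.n)

def e17 : El := El.mk (W2.mk (nat_lit 1) (nat_lit 3) (nat_lit 8) (nat_lit 5)) (nat_lit 131)
  (Z4.mk (ZL.p (nat_lit 6173) (ZL.p (nat_lit 4996) (ZL.p (nat_lit 14954) (ZL.m (nat_lit 131) (ZL.p (nat_lit 4504) (ZL.p (nat_lit 3800) (ZL.m (nat_lit 11568) (ZL.p (nat_lit 18881) (ZL.p (nat_lit 8512) (ZL.p (nat_lit 21504) (ZL.p (nat_lit 15214) (ZL.p (nat_lit 10259) (ZL.p (nat_lit 9507) (ZL.p (nat_lit 20249) ZL.n)))))))))))))) ZL.n ZL.n ZL.n)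
  (Z4.mk (ZL.p (nat_lit 1254) (ZL.p (nat_lit 237) (ZL.p (nat_lit 496) (ZL.p (nat_lit 163267) ZL.n)))) ZL.n ZL.n ZL.n)
  (Z4.mk ZL.n (ZL.m (nat_lit 27907) (ZL.m (nat_lit 1856) (ZL.m (nat_lit 14468) (ZL.m (nat_lit 63044) (ZL.m (nat_lit 41592) (ZL.p (nat_lit 30874) (ZL.p (nat_lit 2988) (ZL.p (nat_lit 50484) (ZL.p (nat_lit 12609) (ZL.p (nat_lit 31012) (ZL.p (nat_lit 51550) (ZL.m (nat_lit 197233) ZL.n)))))))))))) ZL.n ZL.n)
  (Z4.mk ZL.n (ZL.m (nat_lit 4079) (ZL.p (nat_lit 2154) (ZL.p (nat_lit 294477) ZL.n))) ZL.n ZL.n)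

def e18 : El := El.mk (W2.mk (nat_lit 1) (nat_lit 3) (nat_lit 2) (nat_lit 8)) (nat_lit 201)
  (Z4.mk (ZL.p (nat_lit 7136) (ZL.m (nat_lit 60) (ZL.p (nat_lit 21250) (ZL.m (nat_lit 3901) (ZL.m (nat_lit 12204) (ZL.m (nat_lit 19501) (ZL.m (nat_lit 13435) (ZL.m (nat_lit 51585) (ZL.m (nat_lit 6444) (ZL.m (nat_lit 27183) (ZL.m (nat_lit 30766) (ZL.m (nat_lit 647) (ZL.m (nat_lit 8370) (ZL.m (nat_lit 3329) (ZL.p (nat_lit 9789) ZL.n))))))))))))))) (ZL.p (nat_lit 798) (ZL.p (nat_lit 7621) (ZL.m (nat_lit 3371) (ZL.m (nat_lit 504) (ZL.m (nat_lit 34987) (ZL.p (nat_lit 105030) ZL.n)))))) ZL.n ZL.n)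
  (Z4.mk ZL.n ZL.n ZL.n ZL.n)
  (Z4.mk (ZL.p (nat_lit 1540) (ZL.p (nat_lit 8115) (ZL.m (nat_lit 49492) (ZL.p (nat_lit 6920) (ZL.p (nat_lit 21502) (ZL.p (nat_lit 60657) (ZL.p (nat_lit 9949) (ZL.p (nat_lit 27907) (ZL.p (nat_lit 7808) (ZL.p (nat_lit 43055) (ZL.m (nat_lit 27599) (ZL.m (nat_lit 72215) ZL.n)))))))))))) (ZL.m (nat_lit 2231) (ZL.p (nat_lit 14778) (ZL.m (nat_lit 11955) (ZL.m (nat_lit 10727) (ZL.p (nat_lit 35970) (ZL.m (nat_lit 53346) (ZL.m (nat_lit 25760) (ZL.p (nat_lit 27652) (ZL.p (nat_lit 11167) (ZL.p (nat_lit 31381) (ZL.p (nat_lit 27697) (ZL.p (nat_lit 53490) (ZL.p (nat_lit 226233) ZL.n))))))))))))) ZL.n ZL.n)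
  (Z4.mk ZL.n ZL.n ZL.n ZL.n)

def e19 : El := El.mk (W2.mk (nat_lit 1) (nat_lit 3) (nat_lit 2) (nat_lit 3)) (nat_lit 64)
  (Z4.mk (ZL.p (nat_lit 4854) (ZL.p (nat_lit 9912) (ZL.m (nat_lit 2902) (ZL.m (nat_lit 10093) (ZL.p (nat_lit 10061) (ZL.m (nat_lit 27269) (ZL.m (nat_lit 34678) (ZL.p (nat_lit 35425) (ZL.p (nat_lit 7434) (ZL.m (nat_lit 29203) (ZL.p (nat_lit 14992) (ZL.p (nat_lit 4218) (ZL.m (nat_lit 38313) (ZL.p (nat_lit 379) (ZL.m (nat_lit 16047) (ZL.p (nat_lit 10235) ZL.n)))))))))))))))) (ZL.m (nat_lit 8106) (ZL.m (nat_lit 3035) (ZL.m (nat_lit 36561) (ZL.p (nat_lit 68812) (ZL.m (nat_lit 178815) (ZL.p (nat_lit 2226) (ZL.p (nat_lit 167341) ZL.n))))))) ZL.n ZL.n)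
  (Z4.mk ZL.n ZL.n ZL.n ZL.n)
  (Z4.mk (ZL.m (nat_lit 2076) (ZL.m (nat_lit 3389) (ZL.m (nat_lit 6027) (ZL.p (nat_lit 1652) (ZL.p (nat_lit 144108) (ZL.m (nat_lit 532) (ZL.p (nat_lit 76158) (ZL.p (nat_lit 8525) (ZL.m (nat_lit 4521) (ZL.p (nat_lit 22261) (ZL.m (nat_lit 13765) (ZL.p (nat_lit 66505) (ZL.p (nat_lit 77227) ZL.n))))))))))))) (ZL.p (nat_lit 9885) (ZL.m (nat_lit 11872) (ZL.m (nat_lit 19072) (ZL.p (nat_lit 20453) (ZL.p (nat_lit 274733) (ZL.m (nat_lit 36443) (ZL.p (nat_lit 105318) (ZL.p (nat_lit 58094) (ZL.p (nat_lit 12312) (ZL.m (nat_lit 93207) (ZL.p (nat_lit 86217) (ZL.p (nat_lit 63906) (ZL.p (nat_lit 19308) (ZL.p (nat_lit 398272) ZL.n)))))))))))))) ZL.n ZL.n)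
  (Z4.mk ZL.n ZL.n ZL.n ZL.n)

def e20 : El := El.mk (W2.mk (nat_lit 1) (nat_lit 3) (nat_lit 2) (nat_lit 6)) (nat_lit 65)
  (Z4.mk (ZL.m (nat_lit 1958) (ZL.m (nat_lit 3998) (ZL.p (nat_lit 1171) (ZL.p (nat_lit 3331) (ZL.m (nat_lit 4874) (ZL.p (nat_lit 20795) (ZL.p (nat_lit 6529) (ZL.m (nat_lit 30274) (ZL.m (nat_lit 2017) (ZL.p (nat_lit 28433) (ZL.m (nat_lit 19845) (ZL.p (nat_lit 6121) (ZL.p (nat_lit 5281) (ZL.p (nat_lit 780) (ZL.m (nat_lit 5395) (ZL.m (nat_lit 1107) ZL.n)))))))))))))))) (ZL.p (nat_lit 28068) (ZL.p (nat_lit 1729) (ZL.m (nat_lit 11598) (ZL.m (nat_lit 24035) (ZL.p (nat_lit 8141) (ZL.p (nat_lit 8830) (ZL.m (nat_lit 75899) (ZL.p (nat_lit 97262) ZL.n)))))))) ZL.n ZL.n)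
  (Z4.mk ZL.n ZL.n ZL.n ZL.n)
  (Z4.mk (ZL.m (nat_lit 3729) (ZL.m (nat_lit 6086) (ZL.p (nat_lit 20752) (ZL.p (nat_lit 11544) (ZL.p (nat_lit 46549) (ZL.m (nat_lit 32023) (ZL.p (nat_lit 15719) (ZL.p (nat_lit 103934) (ZL.p (nat_lit 51) (ZL.m (nat_lit 15704) (ZL.p (nat_lit 23072) (ZL.m (nat_lit 12843) (ZL.m (nat_lit 516) (ZL.m (nat_lit 55816) ZL.n)))))))))))))) (ZL.m (nat_lit 45692) (ZL.p (nat_lit 14223) (ZL.p (nat_lit 21291) (ZL.p (nat_lit 32603) (ZL.p (nat_lit 43027) (ZL.m (nat_lit 20773) (ZL.p (nat_lit 20799) (ZL.p (nat_lit 40058) (ZL.m (nat_lit 1154) (ZL.m (nat_lit 2477) (ZL.m (nat_lit 21889) (ZL.p (nat_lit 40790) (ZL.p (nat_lit 45591) (ZL.m (nat_lit 83406) (ZL.p (nat_lit 194247) ZL.n))))))))))))))) ZL.n ZL.n)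
  (Z4.mk ZL.n ZL.n ZL.n ZL.n)

def e21 : El := El.mk (W2.mk (nat_lit 1) (nat_lit 3) (nat_lit 2) (nat_lit 4)) (nat_lit 72)
  (Z4.mk (ZL.p (nat_lit 392188) (ZL.p (nat_lit 800946) (ZL.m (nat_lit 234508) (ZL.m (nat_lit 1991) (ZL.m (nat_lit 3271) (ZL.p (nat_lit 1245) (ZL.m (nat_lit 11063) (ZL.m (nat_lit 5994) (ZL.p (nat_lit 1252) (ZL.p (nat_lit 97) (ZL.m (nat_lit 841) (ZL.p (nat_lit 7586) (ZL.m (nat_lit 6469) (ZL.m (nat_lit 5790) (ZL.m (nat_lit 11934) (ZL.p (nat_lit 1957) ZL.n)))))))))))))))) (ZL.p (nat_lit 2598416) (ZL.p (nat_lit 2471) (ZL.p (nat_lit 120080) (ZL.m (nat_lit 48521) (ZL.m (nat_lit 30355) (ZL.m (nat_lit 91253) (ZL.m (nat_lit 17340) (ZL.m (nat_lit 24154) (ZL.p (nat_lit 32612) ZL.n))))))))) ZL.n ZL.n)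
  (Z4.mk (ZL.p (nat_lit 39020) (ZL.p (nat_lit 16086) (ZL.m (nat_lit 123036) (ZL.m (nat_lit 494312) (ZL.m (nat_lit 5507957) ZL.n))))) (ZL.m (nat_lit 14038) (ZL.m (nat_lit 422398) (ZL.m (nat_lit 2565184) ZL.n))) ZL.n (ZL.m (nat_lit 390616) (ZL.p (nat_lit 833991) ZL.n)))
  (Z4.mk (ZL.m (nat_lit 1369543) (ZL.p (nat_lit 839206) (ZL.p (nat_lit 133801) (ZL.p (nat_lit 61844) (ZL.p (nat_lit 21256) (ZL.p (nat_lit 7454) (ZL.m (nat_lit 18890) (ZL.p (nat_lit 5468) (ZL.m (nat_lit 414203) (ZL.p (nat_lit 94337) (ZL.p (nat_lit 52676) (ZL.p (nat_lit 103960) (ZL.m (nat_lit 144046) (ZL.p (nat_lit 53113) (ZL.p (nat_lit 1224660) ZL.n))))))))))))))) (ZL.m (nat_lit 4505669) (ZL.m (nat_lit 10044) (ZL.p (nat_lit 52593) (ZL.m (nat_lit 76184) (ZL.m (nat_lit 122178) (ZL.p (nat_lit 271835) (ZL.m (nat_lit 127881) (ZL.p (nat_lit 51265) (ZL.m (nat_lit 1153579) (ZL.p (nat_lit 540655) (ZL.p (nat_lit 325426)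 (ZL.p (nat_lit 335885) (ZL.m (nat_lit 386670) (ZL.m (nat_lit 341516) (ZL.m (nat_lit 348682) (ZL.m (nat_lit 3422865) ZL.n)))))))))))))))) ZL.n ZL.n)
  (Z4.mk (ZL.p (nat_lit 0) (ZL.p (nat_lit 7892) (ZL.p (nat_lit 235610) (ZL.p (nat_lit 5534718) ZL.n)))) (ZL.p (nat_lit 3143) (ZL.m (nat_lit 1586484) (ZL.p (nat_lit 414001) (ZL.m (nat_lit 5626622) ZL.n)))) ZL.n (ZL.m (nat_lit 301836) (ZL.m (nat_lit 2050561) ZL.n)))

def e22 : El := El.mk (W2.mk (nat_lit 1) (nat_lit 3) (nat_lit 3) (nat_lit 8)) (nat_lit 66)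
  (Z4.mk (ZL.p (nat_lit 6473) (ZL.p (nat_lit 7221) (ZL.p (nat_lit 26425) (ZL.m (nat_lit 25973) (ZL.m (nat_lit 2574) (ZL.m (nat_lit 31540) (ZL.p (nat_lit 18145) (ZL.p (nat_lit 14089) (ZL.m (nat_lit 1056) (ZL.m (nat_lit 18643) (ZL.m (nat_lit 7737) (ZL.m (nat_lit 14058) (ZL.m (nat_lit 13587) (ZL.m (nat_lit 8070) (ZL.m (nat_lit 18989) (ZL.m (nat_lit 2424) ZL.n)))))))))))))))) (ZL.p (nat_lit 10122) (ZL.m (nat_lit 614) (ZL.m (nat_lit 43347) (ZL.p (nat_lit 113681) ZL.n)))) ZL.n ZL.n)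
  (Z4.mk ZL.n ZL.n ZL.n ZL.n)
  (Z4.mk (ZL.m (nat_lit 5393) (ZL.p (nat_lit 224) (ZL.p (nat_lit 7629) (ZL.p (nat_lit 1677) (ZL.m (nat_lit 2469) (ZL.p (nat_lit 4871) (ZL.m (nat_lit 204) (ZL.p (nat_lit 847) (ZL.p (nat_lit 1549) (ZL.m (nat_lit 14207) (ZL.p (nat_lit 31545) (ZL.m (nat_lit 17441) (ZL.m (nat_lit 3000) (ZL.m (nat_lit 25323) (ZL.p (nat_lit 622) (ZL.m (nat_lit 27028) ZL.n)))))))))))))))) (ZL.m (nat_lit 16258) (ZL.m (nat_lit 519) (ZL.p (nat_lit 56184) (ZL.m (nat_lit 9151) (ZL.p (nat_lit 20518) (ZL.m (nat_lit 16396) (ZL.m (nat_lit 21523) (ZL.m (nat_lit 6277) (ZL.m (nat_lit 7050) (ZL.p (nat_lit 389) (ZL.m (nat_lit 41345) (ZL.p (nat_lit 13205) (ZL.m (nat_lit 2944) (ZL.p (nat_lit 27823) (ZL.p (nat_lit 38500) (ZL.m (nat_lit 2072) (ZL.m (nat_lit 189250) ZL.n))))))))))))))))) ZL.n ZL.n)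
  (Z4.mk ZL.n ZL.n ZL.n ZL.n)

def e23 : El := El.mk (W2.mk (nat_lit 1) (nat_lit 3) (nat_lit 6) (nat_lit 7)) (nat_lit 76)
  (Z4.mk (ZL.m (nat_lit 10329) (ZL.p (nat_lit 11158) (ZL.p (nat_lit 32945) (ZL.p (nat_lit 1092) (ZL.p (nat_lit 11492) (ZL.p (nat_lit 31158) (ZL.p (nat_lit 94251) (ZL.m (nat_lit 2742) (ZL.m (nat_lit 85725) (ZL.m (nat_lit 18132) (ZL.p (nat_lit 29887) (ZL.p (nat_lit 20458) (ZL.m (nat_lit 16756) (ZL.p (nat_lit 4793) (ZL.p (nat_lit 5806) (ZL.p (nat_lit 9097) ZL.n)))))))))))))))) (ZL.p (nat_lit 3189) (ZL.m (nat_lit 10379) (ZL.m (nat_lit 17579) (ZL.m (nat_lit 7832) (ZL.p (nat_lit 152463) ZL.n))))) ZL.n ZL.n)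
  (Z4.mk ZL.n ZL.n ZL.n ZL.n)
  (Z4.mk (ZL.m (nat_lit 1702) (ZL.p (nat_lit 3323) (ZL.p (nat_lit 27819) (ZL.m (nat_lit 13925) (ZL.p (nat_lit 44256) (ZL.p (nat_lit 12463) (ZL.p (nat_lit 65712) (ZL.p (nat_lit 54856) (ZL.p (nat_lit 4225) (ZL.p (nat_lit 5895) (ZL.m (nat_lit 14343) (ZL.p (nat_lit 14211) (ZL.m (nat_lit 13729) (ZL.p (nat_lit 6956) (ZL.m (nat_lit 625) (ZL.m (nat_lit 12890) (ZL.m (nat_lit 88149) ZL.n))))))))))))))))) (ZL.p (nat_lit 15314) (ZL.m (nat_lit 13911) (ZL.p (nat_lit 62387) (ZL.p (nat_lit 46930) (ZL.m (nat_lit 39088) (ZL.p (nat_lit 5415) (ZL.m (nat_lit 48806) (ZL.m (nat_lit 18470) (ZL.p (nat_lit 2159) (ZL.m (nat_lit 46322) (ZL.p (nat_lit 34476) (ZL.m (nat_lit 36655) (ZL.p (nat_lit 3715) (ZL.p (nat_lit 54170) (ZL.m (nat_lit 10743) (ZL.m (nat_lit 18743) (ZL.p (nat_lit 2620) (ZL.p (nat_lit 169499) ZL.n)))))))))))))))))) ZL.n ZL.n)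
  (Z4.mk ZL.n ZL.n ZL.n ZL.n)

def e24 : El := El.mk (W2.mk (nat_lit 1) (nat_lit 3) (nat_lit 6) (nat_lit 5)) (nat_lit 152)
  (Z4.mk (ZL.m (nat_lit 2635) (ZL.m (nat_lit 8514) (ZL.m (nat_lit 21374) (ZL.p (nat_lit 13152) (ZL.p (nat_lit 22468) (ZL.p (nat_lit 16605) (ZL.p (nat_lit 68558) (ZL.p (nat_lit 15706) (ZL.m (nat_lit 3152) (ZL.p (nat_lit 8470) (ZL.p (nat_lit 16456) (ZL.m (nat_lit 21265) (ZL.p (nat_lit 27718) (ZL.p (nat_lit 71) (ZL.m (nat_lit 28442) (ZL.m (nat_lit 13719) ZL.n)))))))))))))))) (ZL.p (nat_lit 3189) (ZL.m (nat_lit 10379) (ZL.m (nat_lit 17579) (ZL.m (nat_lit 7832) (ZL.p (nat_lit 152463) ZL.n))))) ZL.n ZL.n)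
  (Z4.mk (ZL.m (nat_lit 20346) (ZL.p (nat_lit 8362) (ZL.p (nat_lit 16166) (ZL.m (nat_lit 65611) (ZL.m (nat_lit 18245) (ZL.p (nat_lit 279542) ZL.n)))))) (ZL.m (nat_lit 10246) (ZL.m (nat_lit 21054) (ZL.m (nat_lit 395) (ZL.p (nat_lit 108534) ZL.n)))) ZL.n ZL.n)
  (Z4.mk (ZL.m (nat_lit 3890) (ZL.m (nat_lit 361) (ZL.m (nat_lit 15186) (ZL.p (nat_lit 5261) (ZL.m (nat_lit 84577) (ZL.m (nat_lit 407) (ZL.m (nat_lit 4570) (ZL.m (nat_lit 24766) (ZL.p (nat_lit 3445) (ZL.m (nat_lit 17204) (ZL.m (nat_lit 31684) (ZL.m (nat_lit 12001) (ZL.m (nat_lit 17935) (ZL.p (nat_lit 5983) (ZL.m (nat_lit 2981) (ZL.p (nat_lit 3493) (ZL.p (nat_lit 36297) (ZL.m (nat_lit 24132) ZL.n)))))))))))))))))) (ZL.m (nat_lit 17821) (ZL.m (nat_lit 1672) (ZL.m (nat_lit 47169) (ZL.m (nat_lit 24613) (ZL.p (nat_lit 147655) (ZL.p (nat_lit 4389) (ZL.m (nat_lit 23710) (ZL.m (nat_lit 14964) (ZL.m (nat_lit 10518) (ZL.m (nat_lit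 96280) (ZL.p (nat_lit 26008) (ZL.m (nat_lit 44184) (ZL.m (nat_lit 4214) (ZL.p (nat_lit 73872) (ZL.p (nat_lit 25854) (ZL.p (nat_lit 16674) (ZL.m (nat_lit 5391) (ZL.m (nat_lit 34524) (ZL.p (nat_lit 182559) ZL.n))))))))))))))))))) ZL.n ZL.n)
  (Z4.mk (ZL.p (nat_lit 6105) (ZL.m (nat_lit 30388) (ZL.p (nat_lit 33551) (ZL.m (nat_lit 29923) (ZL.p (nat_lit 280604) ZL.n))))) (ZL.p (nat_lit 10633) (ZL.m (nat_lit 73171) (ZL.p (nat_lit 26936) (ZL.p (nat_lit 51510) (ZL.m (nat_lit 290505) ZL.n))))) ZL.n ZL.n)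

def e25 : El := El.mk (W2.mk (nat_lit 1) (nat_lit 3) (nat_lit 4) (nat_lit 8)) (nat_lit 361)
  (Z4.mk (ZL.m (nat_lit 1310) (ZL.p (nat_lit 2501) (ZL.p (nat_lit 15871) (ZL.p (nat_lit 49352) (ZL.p (nat_lit 5574) (ZL.m (nat_lit 43479) (ZL.m (nat_lit 5560) (ZL.m (nat_lit 23555) (ZL.m (nat_lit 10217) (ZL.m (nat_lit 23247) (ZL.m (nat_lit 63521) (ZL.p (nat_lit 52321) (ZL.p (nat_lit 9659) (ZL.m (nat_lit 16785) (ZL.p (nat_lit 4670) (ZL.p (nat_lit 900) ZL.n)))))))))))))))) (ZL.p (nat_lit 798) (ZL.p (nat_lit 7621) (ZL.m (nat_lit 3371) (ZL.m (nat_lit 504) (ZL.m (nat_lit 34987) (ZL.p (nat_lit 105030) ZL.n)))))) ZL.n ZL.n)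
  (Z4.mk (ZL.p (nat_lit 14561) (ZL.p (nat_lit 19074) (ZL.m (nat_lit 16987) (ZL.p (nat_lit 14845) (ZL.m (nat_lit 33197) (ZL.m (nat_lit 1846) (ZL.p (nat_lit 203664) ZL.n))))))) (ZL.m (nat_lit 8263) (ZL.p (nat_lit 67664) (ZL.m (nat_lit 3342) (ZL.p (nat_lit 10974) (ZL.p (nat_lit 66422) ZL.n))))) ZL.n ZL.n)
  (Z4.mk (ZL.p (nat_lit 2149) (ZL.m (nat_lit 2599) (ZL.m (nat_lit 44762) (ZL.m (nat_lit 22377) (ZL.p (nat_lit 4237) (ZL.m (nat_lit 8634) (ZL.p (nat_lit 25325) (ZL.m (nat_lit 7478) (ZL.p (nat_lit 3115) (ZL.m (nat_lit 41142) (ZL.p (nat_lit 11568) (ZL.p (nat_lit 43114) (ZL.p (nat_lit 7195) (ZL.p (nat_lit 20377) (ZL.m (nat_lit 52) (ZL.m (nat_lit 36101) (ZL.m (nat_lit 5201) (ZL.m (nat_lit 29576) (ZL.m (nat_lit 29431) ZL.n))))))))))))))))))) (ZL.p (nat_lit 12965) (ZL.p (nat_lit 790) (ZL.p (nat_lit 12331) (ZL.m (nat_lit 16633) (ZL.p (nat_lit 34343) (ZL.p (nat_lit 45860) (ZL.m (nat_lit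 21455) (ZL.p (nat_lit 52322) (ZL.p (nat_lit 1138) (ZL.m (nat_lit 19370) (ZL.m (nat_lit 38249) (ZL.p (nat_lit 7296) (ZL.p (nat_lit 55038) (ZL.p (nat_lit 12547) (ZL.p (nat_lit 23995) (ZL.m (nat_lit 914) (ZL.p (nat_lit 17002) (ZL.m (nat_lit 31936) (ZL.p (nat_lit 20278) (ZL.p (nat_lit 217977) ZL.n)))))))))))))))))))) ZL.n ZL.n)
  (Z4.mk (ZL.m (nat_lit 12129) (ZL.m (nat_lit 16608) (ZL.m (nat_lit 15556) (ZL.m (nat_lit 14459) (ZL.p (nat_lit 4899) (ZL.m (nat_lit 206812) ZL.n)))))) (ZL.p (nat_lit 9073) (ZL.p (nat_lit 54917) (ZL.m (nat_lit 2929) (ZL.m (nat_lit 37623) (ZL.m (nat_lit 16322) (ZL.m (nat_lit 187907) ZL.n)))))) ZL.n ZL.n)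

def e26 : El := El.mk (W2.mk (nat_lit 1) (nat_lit 3) (nat_lit 4) (nat_lit 2)) (nat_lit 133)
  (Z4.mk (ZL.p (nat_lit 2162321) (ZL.m (nat_lit 7642) (ZL.m (nat_lit 35842) (ZL.p (nat_lit 44241) (ZL.m (nat_lit 30875) (ZL.p (nat_lit 114464) (ZL.m (nat_lit 60957) (ZL.p (nat_lit 57897) (ZL.m (nat_lit 57783) (ZL.m (nat_lit 56837) (ZL.m (nat_lit 60643) ZL.n))))))))))) (ZL.p (nat_lit 2598416) (ZL.p (nat_lit 2471) (ZL.p (nat_lit 120080) (ZL.m (nat_lit 48521) (ZL.m (nat_lit 30355) (ZL.m (nat_lit 91253) (ZL.m (nat_lit 17340) (ZL.m (nat_lit 24154) (ZL.p (nat_lit 32612) ZL.n))))))))) ZL.n ZL.n)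
  (Z4.mk (ZL.m (nat_lit 28299) (ZL.m (nat_lit 618) (ZL.m (nat_lit 110327) (ZL.p (nat_lit 270677) (ZL.m (nat_lit 48650) (ZL.m (nat_lit 328668) (ZL.p (nat_lit 194131) (ZL.p (nat_lit 5516873) ZL.n)))))))) (ZL.m (nat_lit 2602415) ZL.n) ZL.n (ZL.m (nat_lit 2171244) ZL.n))
  (Z4.mk (ZL.m (nat_lit 2387263) (ZL.m (nat_lit 840155) (ZL.m (nat_lit 54576) (ZL.m (nat_lit 100648) (ZL.m (nat_lit 55885) (ZL.m (nat_lit 14937) (ZL.m (nat_lit 212508) (ZL.m (nat_lit 108976) (ZL.p (nat_lit 399447) (ZL.m (nat_lit 44566) (ZL.m (nat_lit 4543) (ZL.m (nat_lit 77496) (ZL.p (nat_lit 147715) (ZL.m (nat_lit 72756) (ZL.m (nat_lit 1223695) (ZL.p (nat_lit 74583) (ZL.p (nat_lit 48686) (ZL.p (nat_lit 57115) (ZL.p (nat_lit 17152) (ZL.p (nat_lit 8284) ZL.n)))))))))))))))))))) (ZL.m (nat_lit 4513614) (ZL.p (nat_lit 2553) (ZL.m (nat_lit 36178) (ZL.m (nat_lit 91307) (ZL.m (nat_lit 222571) (ZL.m (nat_lit 186376)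 (ZL.p (nat_lit 300099) (ZL.m (nat_lit 278953) (ZL.p (nat_lit 1138352) (ZL.m (nat_lit 136267) (ZL.m (nat_lit 631623) (ZL.p (nat_lit 30296) (ZL.p (nat_lit 46526) (ZL.p (nat_lit 97471) (ZL.p (nat_lit 219039) (ZL.p (nat_lit 3421089) (ZL.p (nat_lit 154301) (ZL.m (nat_lit 111316) (ZL.m (nat_lit 253306) (ZL.m (nat_lit 183891) (ZL.m (nat_lit 157392) ZL.n))))))))))))))))))))) ZL.n ZL.n)
  (Z4.mk (ZL.p (nat_lit 38793) (ZL.p (nat_lit 25390) (ZL.m (nat_lit 111257) (ZL.p (nat_lit 4182) (ZL.p (nat_lit 177448) (ZL.m (nat_lit 220395) (ZL.m (nat_lit 5525899) ZL.n))))))) (ZL.p (nat_lit 1159976) (ZL.p (nat_lit 656497) (ZL.m (nat_lit 430356) (ZL.m (nat_lit 226358) (ZL.m (nat_lit 351554) (ZL.m (nat_lit 7408) (ZL.p (nat_lit 5665890) ZL.n))))))) ZL.n (ZL.m (nat_lit 1047262) (ZL.m (nat_lit 255715) (ZL.m (nat_lit 2647927) ZL.n))))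

def e27 : El := El.mk (W2.mk (nat_lit 1) (nat_lit 3) (nat_lit 4) (nat_lit 3)) (nat_lit 128)
  (Z4.mk (ZL.p (nat_lit 3818) (ZL.p (nat_lit 35729) (ZL.p (nat_lit 83540) (ZL.m (nat_lit 43285) (ZL.m (nat_lit 53869) (ZL.m (nat_lit 140958) (ZL.m (nat_lit 34236) (ZL.m (nat_lit 21680) (ZL.p (nat_lit 49916) (ZL.p (nat_lit 9102) (ZL.p (nat_lit 31070) (ZL.p (nat_lit 68135) (ZL.m (nat_lit 58420) (ZL.p (nat_lit 8980) (ZL.p (nat_lit 79085) (ZL.p (nat_lit 38714) ZL.n)))))))))))))))) (ZL.m (nat_lit 8106) (ZL.m (nat_lit 3035) (ZL.m (nat_lit 36561) (ZL.p (nat_lit 68812) (ZL.m (nat_lit 178815) (ZL.p (nat_lit 2226) (ZL.p (nat_lit 167341) ZL.n))))))) ZL.n ZL.n)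
  (Z4.mk (ZL.m (nat_lit 9111) (ZL.p (nat_lit 20077) (ZL.p (nat_lit 39801) (ZL.p (nat_lit 50908) (ZL.m (nat_lit 25340) (ZL.m (nat_lit 253982) (ZL.p (nat_lit 60808) (ZL.m (nat_lit 3857) (ZL.p (nat_lit 440316) ZL.n))))))))) (ZL.p (nat_lit 14426) (ZL.m (nat_lit 31780) (ZL.m (nat_lit 26532) (ZL.m (nat_lit 254254) (ZL.p (nat_lit 125637) (ZL.p (nat_lit 178247) ZL.n)))))) ZL.n ZL.n)
  (Z4.mk (ZL.m (nat_lit 5671) (ZL.p (nat_lit 5805) (ZL.p (nat_lit 9415) (ZL.m (nat_lit 53095) (ZL.m (nat_lit 113814) (ZL.p (nat_lit 11023) (ZL.p (nat_lit 115958) (ZL.m (nat_lit 8525) (ZL.p (nat_lit 4521) (ZL.m (nat_lit 22261) (ZL.p (nat_lit 13765) (ZL.m (nat_lit 66505) (ZL.m (nat_lit 77227) ZL.n))))))))))))) (ZL.p (nat_lit 29570) (ZL.m (nat_lit 22195) (ZL.p (nat_lit 56048) (ZL.m (nat_lit 76320) (ZL.p (nat_lit 176605) (ZL.m (nat_lit 35194) (ZL.m (nat_lit 319351) (ZL.p (nat_lit 126492) (ZL.p (nat_lit 15045)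 (ZL.m (nat_lit 179458) (ZL.p (nat_lit 11555) (ZL.m (nat_lit 16118) (ZL.p (nat_lit 41781) (ZL.p (nat_lit 246794) (ZL.m (nat_lit 166378) (ZL.p (nat_lit 25991) (ZL.m (nat_lit 78198) (ZL.m (nat_lit 12814) (ZL.p (nat_lit 182824) (ZL.p (nat_lit 13841) (ZL.p (nat_lit 94159) (ZL.p (nat_lit 225310) ZL.n)))))))))))))))))))))) ZL.n ZL.n)
  (Z4.mk (ZL.p (nat_lit 21850) (ZL.m (nat_lit 44108) (ZL.p (nat_lit 58841) (ZL.m (nat_lit 27265) (ZL.p (nat_lit 369915) (ZL.p (nat_lit 1048) (ZL.p (nat_lit 29746) (ZL.p (nat_lit 409287) ZL.n)))))))) (ZL.m (nat_lit 13640) (ZL.m (nat_lit 158814) (ZL.p (nat_lit 65679) (ZL.p (nat_lit 43740) (ZL.m (nat_lit 412967) (ZL.p (nat_lit 17691) (ZL.m (nat_lit 51657) (ZL.p (nat_lit 455536) ZL.n)))))))) ZL.n ZL.n)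

def e28 : El := El.mk (W2.mk (nat_lit 1) (nat_lit 3) (nat_lit 4) (nat_lit 6)) (nat_lit 129)
  (Z4.mk (ZL.m (nat_lit 6365) (ZL.p (nat_lit 18911) (ZL.p (nat_lit 72044) (ZL.m (nat_lit 30112) (ZL.m (nat_lit 52438) (ZL.p (nat_lit 5302) (ZL.p (nat_lit 24280) (ZL.m (nat_lit 25103) (ZL.p (nat_lit 25953) (ZL.p (nat_lit 51215) (ZL.m (nat_lit 10589) (ZL.m (nat_lit 12981) (ZL.m (nat_lit 7962) (ZL.m (nat_lit 1203) (ZL.m (nat_lit 9291) (ZL.m (nat_lit 2966) ZL.n)))))))))))))))) (ZL.p (nat_lit 28068) (ZL.p (nat_lit 1729) (ZL.m (nat_lit 11598) (ZL.m (nat_lit 24035) (ZL.p (nat_lit 8141) (ZL.p (nat_lit 8830) (ZL.m (nat_lit 75899) (ZL.p (nat_lit 97262) ZL.n)))))))) ZL.n ZL.n)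
  (Z4.mk (ZL.m (nat_lit 45773) (ZL.m (nat_lit 4607) (ZL.p (nat_lit 114895) (ZL.p (nat_lit 3370) (ZL.m (nat_lit 10828) (ZL.p (nat_lit 16872) (ZL.p (nat_lit 26835) (ZL.p (nat_lit 5840) (ZL.p (nat_lit 7740) (ZL.m (nat_lit 224445) ZL.n)))))))))) ZL.n ZL.n ZL.n)
  (Z4.mk (ZL.p (nat_lit 2516) (ZL.p (nat_lit 2644) (ZL.p (nat_lit 231) (ZL.m (nat_lit 37462) (ZL.m (nat_lit 45224) (ZL.p (nat_lit 21748) (ZL.p (nat_lit 21851) (ZL.m (nat_lit 23931) (ZL.m (nat_lit 51) (ZL.p (nat_lit 15704) (ZL.m (nat_lit 23072) (ZL.p (nat_lit 12843) (ZL.p (nat_lit 516) (ZL.p (nat_lit 55816) ZL.n)))))))))))))) (ZL.m (nat_lit 42833) (ZL.p (nat_lit 9942) (ZL.m (nat_lit 64308) (ZL.m (nat_lit 70019) (ZL.p (nat_lit 16102) (ZL.m (nat_lit 620) (ZL.m (nat_lit 105848) (ZL.m (nat_lit 94050) (ZL.p (nat_lit 11630) (ZL.p (nat_lit 11837) (ZL.p (nat_lit 4566) (ZL.m (nat_lit 6964) (ZL.p (nat_lit 23689) (ZL.m (nat_lit 148086)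 (ZL.p (nat_lit 88077) (ZL.m (nat_lit 418) (ZL.m (nat_lit 35747) (ZL.p (nat_lit 37087) (ZL.p (nat_lit 50610) (ZL.p (nat_lit 35314) (ZL.p (nat_lit 34118) (ZL.p (nat_lit 31294) (ZL.m (nat_lit 110106) ZL.n))))))))))))))))))))))) ZL.n ZL.n)
  (Z4.mk (ZL.p (nat_lit 33577) (ZL.p (nat_lit 16233) (ZL.p (nat_lit 104211) (ZL.m (nat_lit 2226) (ZL.m (nat_lit 35168) (ZL.m (nat_lit 26958) (ZL.m (nat_lit 6106) (ZL.p (nat_lit 26953) (ZL.m (nat_lit 223182) ZL.n))))))))) (ZL.m (nat_lit 30636) (ZL.p (nat_lit 44663) (ZL.p (nat_lit 19340) (ZL.m (nat_lit 778) (ZL.m (nat_lit 37309) (ZL.m (nat_lit 12466) (ZL.p (nat_lit 16473) (ZL.m (nat_lit 16527) (ZL.p (nat_lit 222625) ZL.n))))))))) ZL.n ZL.n)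

def e29 : El := El.mk (W2.mk (nat_lit 2) (nat_lit 1) (nat_lit 1) (nat_lit 7)) (nat_lit 3)
  (Z4.mk (ZL.m (nat_lit 3690) (ZL.p (nat_lit 3219) (ZL.p (nat_lit 292) (ZL.p (nat_lit 14530) (ZL.p (nat_lit 4135) (ZL.p (nat_lit 20949) (ZL.m (nat_lit 7273) (ZL.p (nat_lit 16796) (ZL.p (nat_lit 1896) (ZL.m (nat_lit 14204) (ZL.p (nat_lit 8952) (ZL.m (nat_lit 2015) (ZL.m (nat_lit 8278) (ZL.p (nat_lit 654) (ZL.p (nat_lit 74) (ZL.p (nat_lit 2022) ZL.n)))))))))))))))) (ZL.p (nat_lit 316) (ZL.p (nat_lit 4726) (ZL.m (nat_lit 1452) (ZL.m (nat_lit 49594) (ZL.p (nat_lit 7044) (ZL.p (nat_lit 7487) (ZL.p (nat_lit 27041) (ZL.p (nat_lit 15472) (ZL.p (nat_lit 3717) (ZL.m (nat_lit 19457) ZL.n)))))))))) ZL.n ZL.n)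
  (Z4.mk ZL.n ZL.n ZL.n ZL.n)
  (Z4.mk ZL.n ZL.n ZL.n ZL.n)
  (Z4.mk ZL.n ZL.n ZL.n ZL.n)

def e30 : El := El.mk (W2.mk (nat_lit 2) (nat_lit 1) (nat_lit 8) (nat_lit 6)) (nat_lit 202)
  (Z4.mk (ZL.p (nat_lit 2016) (ZL.m (nat_lit 2088) (ZL.p (nat_lit 8351) (ZL.p (nat_lit 11598) (ZL.p (nat_lit 26458) (ZL.p (nat_lit 29763) (ZL.m (nat_lit 33588) (ZL.m (nat_lit 1084) (ZL.m (nat_lit 10026) (ZL.p (nat_lit 6549) (ZL.p (nat_lit 4150) (ZL.m (nat_lit 28121) (ZL.p (nat_lit 59569) (ZL.p (nat_lit 9142) (ZL.p (nat_lit 49951) (ZL.m (nat_lit 9940) ZL.n)))))))))))))))) (ZL.p (nat_lit 7864) (ZL.m (nat_lit 8600) (ZL.m (nat_lit 16509) (ZL.p (nat_lit 63362) (ZL.m (nat_lit 47779) (ZL.p (nat_lit 27508) (ZL.p (nat_lit 72574) (ZL.p (nat_lit 95432) (ZL.p (nat_lit 33307) (ZL.m (nat_lit 1187) (ZL.p (nat_lit 32674) ZL.n))))))))))) ZL.n ZL.n)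
  (Z4.mk ZL.n ZL.n ZL.n ZL.n)
  (Z4.mk (ZL.m (nat_lit 493) (ZL.m (nat_lit 918) (ZL.m (nat_lit 3169) (ZL.p (nat_lit 12056) (ZL.m (nat_lit 27667) (ZL.m (nat_lit 22656) (ZL.m (nat_lit 61931) (ZL.m (nat_lit 38924) (ZL.p (nat_lit 2194) (ZL.m (nat_lit 18987) (ZL.p (nat_lit 25850) (ZL.m (nat_lit 40649) (ZL.m (nat_lit 52146) (ZL.p (nat_lit 28055) (ZL.p (nat_lit 170) (ZL.p (nat_lit 2842) (ZL.p (nat_lit 1805) (ZL.p (nat_lit 8744) (ZL.p (nat_lit 8328) (ZL.m (nat_lit 13742) (ZL.m (nat_lit 5149) ZL.n))))))))))))))))))))) (ZL.p (nat_lit 939) (ZL.m (nat_lit 20177) (ZL.m (nat_lit 5791) (ZL.m (nat_lit 31290) (ZL.p (nat_lit 36696) (ZL.p (nat_lit 33084) (ZL.m (nat_lit 2621) (ZL.p (nat_lit 12573) (ZL.p (nat_lit 2944) (ZL.p (nat_lit 21157) (ZL.p (nat_lit 51759) (ZL.p (nat_lit 88392) (ZL.p (nat_lit 14667) (ZL.p (nat_lit 212434) (ZL.p (nat_lit 131172) (ZL.p (nat_lit 5408) (ZL.m (nat_lit 1753) (ZL.p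 (nat_lit 9670) (ZL.p (nat_lit 100037) (ZL.p (nat_lit 29596) (ZL.m (nat_lit 35672) (ZL.p (nat_lit 89183) (ZL.m (nat_lit 119586) (ZL.p (nat_lit 72866) ZL.n)))))))))))))))))))))))) ZL.n ZL.n)
  (Z4.mk ZL.n ZL.n ZL.n ZL.n)

def e31 : El := El.mk (W2.mk (nat_lit 2) (nat_lit 1) (nat_lit 2) (nat_lit 3)) (nat_lit 194)
  (Z4.mk (ZL.m (nat_lit 15093) (ZL.p (nat_lit 8028) (ZL.m (nat_lit 6887) (ZL.p (nat_lit 80485) (ZL.p (nat_lit 1659) (ZL.m (nat_lit 5197) (ZL.m (nat_lit 12383) (ZL.p (nat_lit 5589) (ZL.p (nat_lit 2376) (ZL.m (nat_lit 5023) (ZL.p (nat_lit 1636) (ZL.p (nat_lit 3303) (ZL.m (nat_lit 11365) (ZL.m (nat_lit 1629) (ZL.m (nat_lit 9192) (ZL.p (nat_lit 8535) ZL.n)))))))))))))))) (ZL.m (nat_lit 4635) (ZL.p (nat_lit 5128) (ZL.p (nat_lit 10768) (ZL.p (nat_lit 601) (ZL.m (nat_lit 19878) (ZL.p (nat_lit 26696) (ZL.p (nat_lit 21460) (ZL.p (nat_lit 5649) (ZL.p (nat_lit 23766) (ZL.m (nat_lit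 9064) (ZL.p (nat_lit 43754) (ZL.m (nat_lit 129862) ZL.n)))))))))))) ZL.n ZL.n)
  (Z4.mk ZL.n ZL.n ZL.n ZL.n)
  (Z4.mk (ZL.p (nat_lit 3145) (ZL.p (nat_lit 5230) (ZL.m (nat_lit 33113) (ZL.m (nat_lit 30677) (ZL.p (nat_lit 2094) (ZL.m (nat_lit 29468) (ZL.m (nat_lit 667) (ZL.m (nat_lit 4424) (ZL.m (nat_lit 10904) (ZL.p (nat_lit 59234) (ZL.m (nat_lit 16807) (ZL.m (nat_lit 1058) (ZL.m (nat_lit 15638) (ZL.p (nat_lit 11459) (ZL.p (nat_lit 8217) (ZL.p (nat_lit 43638) (ZL.p (nat_lit 18844) (ZL.p (nat_lit 30784) (ZL.m (nat_lit 18663) (ZL.m (nat_lit 21672) (ZL.m (nat_lit 28297) (ZL.p (nat_lit 36634) ZL.n)))))))))))))))))))))) (ZL.p (nat_lit 7521) (ZL.p (nat_lit 11510) (ZL.p (nat_lit 6321) (ZL.m (nat_lit 8037) (ZL.p (nat_lit 5302) (ZL.m (nat_lit 896) (ZL.m (nat_lit 12863) (ZL.p (nat_lit 11241) (ZL.m (nat_lit 302) (ZL.p (nat_lit 9247) (ZL.m (nat_lit 30637) (ZL.p (nat_lit 136) (ZL.p (nat_lit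 20879) (ZL.p (nat_lit 12668) (ZL.m (nat_lit 7115) (ZL.m (nat_lit 9321) (ZL.p (nat_lit 128903) (ZL.m (nat_lit 11298) (ZL.p (nat_lit 84326) (ZL.p (nat_lit 60545) (ZL.p (nat_lit 5906) (ZL.p (nat_lit 57490) (ZL.p (nat_lit 57669) (ZL.p (nat_lit 135427) (ZL.m (nat_lit 213321) ZL.n))))))))))))))))))))))))) ZL.n ZL.n)
  (Z4.mk ZL.n ZL.n ZL.n ZL.n)

def e32 : El := El.mk (W2.mk (nat_lit 2) (nat_lit 1) (nat_lit 7) (nat_lit 6)) (nat_lit 197)
  (Z4.mk (ZL.m (nat_lit 6043) (ZL.p (nat_lit 14025) (ZL.p (nat_lit 12932) (ZL.p (nat_lit 6811) (ZL.m (nat_lit 45329) (ZL.m (nat_lit 7582) (ZL.p (nat_lit 1672) (ZL.p (nat_lit 20454) (ZL.p (nat_lit 2746) (ZL.p (nat_lit 7694) (ZL.m (nat_lit 10510) (ZL.m (nat_lit 11267) (ZL.m (nat_lit 22874) (ZL.p (nat_lit 23553) (ZL.p (nat_lit 10866) (ZL.p (nat_lit 7436) ZL.n)))))))))))))))) (ZL.p (nat_lit 1832) (ZL.p (nat_lit 22124) (ZL.m (nat_lit 8606) (ZL.m (nat_lit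 10669) (ZL.p (nat_lit 20035) (ZL.p (nat_lit 12463) (ZL.m (nat_lit 29174) (ZL.m (nat_lit 31346) (ZL.p (nat_lit 1839) (ZL.p (nat_lit 30986) (ZL.p (nat_lit 18294) (ZL.m (nat_lit 4708) ZL.n)))))))))))) ZL.n ZL.n)
  (Z4.mk ZL.n ZL.n ZL.n ZL.n)
  (Z4.mk (ZL.p (nat_lit 1053) (ZL.m (nat_lit 10212) (ZL.p (nat_lit 22843) (ZL.m (nat_lit 2118) (ZL.m (nat_lit 12613) (ZL.p (nat_lit 3792) (ZL.p (nat_lit 30229) (ZL.p (nat_lit 28386) (ZL.p (nat_lit 11195) (ZL.p (nat_lit 19208) (ZL.m (nat_lit 4259) (ZL.p (nat_lit 6097) (ZL.m (nat_lit 14982) (ZL.p (nat_lit 32822) (ZL.m (nat_lit 6553) (ZL.m (nat_lit 21613) (ZL.p (nat_lit 39508) (ZL.m (nat_lit 1832) (ZL.p (nat_lit 47476) (ZL.m (nat_lit 9272) (ZL.m (nat_lit 38939) (ZL.p (nat_lit 28090) ZL.n)))))))))))))))))))))) (ZL.m (nat_lit 12003) (ZL.p (nat_lit 303) (ZL.p (nat_lit 19659) (ZL.p (nat_lit 10837) (ZL.p (nat_lit 7083) (ZL.m (nat_lit 30394) (ZL.p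 (nat_lit 5318) (ZL.m (nat_lit 31880) (ZL.m (nat_lit 7404) (ZL.m (nat_lit 11809) (ZL.p (nat_lit 7032) (ZL.m (nat_lit 30834) (ZL.m (nat_lit 23708) (ZL.m (nat_lit 54531) (ZL.m (nat_lit 56053) (ZL.m (nat_lit 2038) (ZL.m (nat_lit 15110) (ZL.m (nat_lit 5881) (ZL.p (nat_lit 11482) (ZL.p (nat_lit 28741) (ZL.m (nat_lit 46122) (ZL.m (nat_lit 46930) (ZL.p (nat_lit 4275) (ZL.p (nat_lit 152500) (ZL.p (nat_lit 7899) (ZL.m (nat_lit 225281) ZL.n)))))))))))))))))))))))))) ZL.n ZL.n)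
  (Z4.mk ZL.n ZL.n ZL.n ZL.n)

def e33 : El := El.mk (W2.mk (nat_lit 2) (nat_lit 1) (nat_lit 3) (nat_lit 1)) (nat_lit 192)
  (Z4.mk (ZL.m (nat_lit 18706) (ZL.p (nat_lit 29255) (ZL.p (nat_lit 23759) (ZL.p (nat_lit 17796) (ZL.p (nat_lit 29445) (ZL.p (nat_lit 57829) (ZL.m (nat_lit 40304) (ZL.p (nat_lit 69113) (ZL.m (nat_lit 249114) (ZL.m (nat_lit 58407) (ZL.p (nat_lit 29983) (ZL.p (nat_lit 8436) (ZL.m (nat_lit 76626) (ZL.p (nat_lit 759) (ZL.m (nat_lit 32094) (ZL.p (nat_lit 20470) ZL.n)))))))))))))))) (ZL.m (nat_lit 10584) (ZL.p (nat_lit 46154) (ZL.m (nat_lit 967) (ZL.m (nat_lit 50934) (ZL.m (nat_lit 18180) (ZL.m (nat_lit 4673) (ZL.p (nat_lit 147808) (ZL.p (nat_lit 85175) (ZL.m (nat_lit 267954) (ZL.m (nat_lit 154567) (ZL.p (nat_lit 7113) (ZL.m (nat_lit 189539) ZL.n)))))))))))) ZL.n ZL.n)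
  (Z4.mk ZL.n ZL.n ZL.n ZL.n)
  (Z4.mk (ZL.m (nat_lit 5671) (ZL.p (nat_lit 5805) (ZL.p (nat_lit 9415) (ZL.m (nat_lit 53095) (ZL.m (nat_lit 113814) (ZL.p (nat_lit 11023) (ZL.p (nat_lit 115958) (ZL.m (nat_lit 8525) (ZL.p (nat_lit 4521) (ZL.m (nat_lit 22261) (ZL.p (nat_lit 13765) (ZL.m (nat_lit 66505) (ZL.m (nat_lit 77227) ZL.n))))))))))))) (ZL.m (nat_lit 28388) (ZL.m (nat_lit 20343) (ZL.p (nat_lit 664) (ZL.m (nat_lit 2263) (ZL.p (nat_lit 17875) (ZL.p (nat_lit 24894) (ZL.p (nat_lit 53525) (ZL.m (nat_lit 27834) (ZL.m (nat_lit 10317) (ZL.m (nat_lit 2922) (ZL.m (nat_lit 10419) (ZL.m (nat_lit 5146) (ZL.p (nat_lit 6279) (ZL.m (nat_lit 99531) (ZL.m (nat_lit 13732) (ZL.m (nat_lit 625) (ZL.m (nat_lit 16976) (ZL.p (nat_lit 4869) (ZL.p (nat_lit 20668) (ZL.p (nat_lit 27504) (ZL.m (nat_lit 178711) (ZL.m (nat_lit 47400) (ZL.p (nat_lit 29054) (ZL.p (nat_lit 153169) (ZL.p (nat_lit 72155) (ZL.m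 (nat_lit 96798) (ZL.m (nat_lit 486072) ZL.n))))))))))))))))))))))))))) ZL.n ZL.n)
  (Z4.mk ZL.n ZL.n ZL.n ZL.n)

def e34 : El := El.mk (W2.mk (nat_lit 2) (nat_lit 1) (nat_lit 3) (nat_lit 8)) (nat_lit 193)
  (Z4.mk (ZL.p (nat_lit 6343) (ZL.m (nat_lit 14532) (ZL.m (nat_lit 20925) (ZL.p (nat_lit 13981) (ZL.p (nat_lit 37884) (ZL.p (nat_lit 52051) (ZL.p (nat_lit 21601) (ZL.m (nat_lit 47965) (ZL.p (nat_lit 78735) (ZL.m (nat_lit 22150) (ZL.m (nat_lit 39690) (ZL.p (nat_lit 12242) (ZL.p (nat_lit 10561) (ZL.p (nat_lit 1559) (ZL.m (nat_lit 10789) (ZL.m (nat_lit 2214) ZL.n)))))))))))))))) ZL.n ZL.n ZL.n)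
  (Z4.mk ZL.n ZL.n ZL.n ZL.n)
  (Z4.mk (ZL.p (nat_lit 2516) (ZL.p (nat_lit 2644) (ZL.p (nat_lit 231) (ZL.m (nat_lit 37462) (ZL.m (nat_lit 45224) (ZL.p (nat_lit 21748) (ZL.p (nat_lit 21851) (ZL.m (nat_lit 23931) (ZL.m (nat_lit 51) (ZL.p (nat_lit 15704) (ZL.m (nat_lit 23072) (ZL.p (nat_lit 12843) (ZL.p (nat_lit 516) (ZL.p (nat_lit 55816) ZL.n)))))))))))))) (ZL.m (nat_lit 936) (ZL.m (nat_lit 5532) (ZL.m (nat_lit 365) (ZL.m (nat_lit 172) (ZL.p (nat_lit 3) (ZL.m (nat_lit 68291) (ZL.m (nat_lit 5540) (ZL.m (nat_lit 5820) (ZL.m (nat_lit 8972) (ZL.p (nat_lit 2029) (ZL.m (nat_lit 837) (ZL.m (nat_lit 12471) (ZL.m (nat_lit 3677) (ZL.m (nat_lit 12569) (ZL.m (nat_lit 385) (ZL.m (nat_lit 591) (ZL.p (nat_lit 56980) (ZL.p (nat_lit 1035) (ZL.p (nat_lit 4825) (ZL.p (nat_lit 58576) (ZL.m (nat_lit 24592) (ZL.p (nat_lit 40707) (ZL.p (nat_lit 26649) (ZL.p (nat_lit 100769) (ZL.p (nat_lit 33706) (ZL.m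 (nat_lit 27890) (ZL.m (nat_lit 115621) (ZL.p (nat_lit 138919) ZL.n)))))))))))))))))))))))))))) ZL.n ZL.n)
  (Z4.mk ZL.n ZL.n ZL.n ZL.n)

def e35 : El := El.mk (W2.mk (nat_lit 2) (nat_lit 1) (nat_lit 3) (nat_lit 7)) (nat_lit 451)
  (Z4.mk (ZL.m (nat_lit 2673) (ZL.m (nat_lit 5527) (ZL.m (nat_lit 13826) (ZL.m (nat_lit 52479) (ZL.m (nat_lit 22953) (ZL.p (nat_lit 54774) (ZL.p (nat_lit 11124) (ZL.p (nat_lit 29639) (ZL.m (nat_lit 2) (ZL.p (nat_lit 9429) (ZL.m (nat_lit 6009) (ZL.p (nat_lit 19148) (ZL.m (nat_lit 2885) (ZL.m (nat_lit 15049) (ZL.m (nat_lit 22317) (ZL.m (nat_lit 11376) ZL.n)))))))))))))))) (ZL.m (nat_lit 847) (ZL.p (nat_lit 15422) (ZL.p (nat_lit 7593) (ZL.p (nat_lit 4518) (ZL.p (nat_lit 2119) (ZL.p (nat_lit 9031) (ZL.m (nat_lit 3182) (ZL.m (nat_lit 6597) (ZL.m (nat_lit 20295) (ZL.m (nat_lit 6161) (ZL.m (nat_lit 10691) (ZL.m (nat_lit 109666) ZL.n)))))))))))) ZL.n ZL.n)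
  (Z4.mk ZL.n ZL.n ZL.n ZL.n)
  (Z4.mk (ZL.p (nat_lit 4334) (ZL.m (nat_lit 4634) (ZL.m (nat_lit 21980) (ZL.m (nat_lit 4505) (ZL.m (nat_lit 24147) (ZL.m (nat_lit 41272) (ZL.p (nat_lit 5501) (ZL.p (nat_lit 23135) (ZL.m (nat_lit 4419) (ZL.m (nat_lit 32608) (ZL.p (nat_lit 45719) (ZL.p (nat_lit 18504) (ZL.p (nat_lit 8299) (ZL.p (nat_lit 9696) (ZL.p (nat_lit 1005) (ZL.m (nat_lit 40081) (ZL.m (nat_lit 1692) (ZL.p (nat_lit 5984) (ZL.m (nat_lit 3097) (ZL.m (nat_lit 37268) (ZL.p (nat_lit 18551) (ZL.p (nat_lit 38005) ZL.n)))))))))))))))))))))) (ZL.p (nat_lit 1195) (ZL.p (nat_lit 4422) (ZL.p (nat_lit 19989) (ZL.m (nat_lit 14125) (ZL.p (nat_lit 27796) (ZL.p (nat_lit 12737) (ZL.m (nat_lit 12855) (ZL.p (nat_lit 109919) (ZL.p (nat_lit 6510) (ZL.p (nat_lit 19940) (ZL.p (nat_lit 6260) (ZL.p (nat_lit 40007) (ZL.m (nat_lit 33776) (ZL.m (nat_lit 16496) (ZL.m (nat_lit 17708) (ZL.p (nat_lit 14060)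 (ZL.p (nat_lit 9631) (ZL.p (nat_lit 21825) (ZL.p (nat_lit 26892) (ZL.m (nat_lit 19657) (ZL.m (nat_lit 60399) (ZL.p (nat_lit 1593) (ZL.p (nat_lit 302) (ZL.p (nat_lit 39573) (ZL.p (nat_lit 71532) (ZL.m (nat_lit 37614) (ZL.p (nat_lit 45869) (ZL.m (nat_lit 23833) (ZL.m (nat_lit 180907) ZL.n))))))))))))))))))))))))))))) ZL.n ZL.n)
  (Z4.mk ZL.n ZL.n ZL.n ZL.n)

def e36 : El := El.mk (W2.mk (nat_lit 2) (nat_lit 1) (nat_lit 3) (nat_lit 4)) (nat_lit 194)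
  (Z4.mk (ZL.m (nat_lit 1377944) (ZL.p (nat_lit 1609535) (ZL.m (nat_lit 433175) (ZL.m (nat_lit 48222) (ZL.p (nat_lit 24333) (ZL.m (nat_lit 111974) (ZL.p (nat_lit 38831) (ZL.m (nat_lit 69885) (ZL.p (nat_lit 60287) (ZL.p (nat_lit 57030) (ZL.p (nat_lit 58961) (ZL.p (nat_lit 15173) (ZL.m (nat_lit 12938) (ZL.m (nat_lit 11579) (ZL.m (nat_lit 23867) (ZL.p (nat_lit 3915) ZL.n)))))))))))))))) (ZL.p (nat_lit 8289) (ZL.p (nat_lit 2585299) (ZL.p (nat_lit 638) (ZL.p (nat_lit 33572) (ZL.p (nat_lit 33095) (ZL.m (nat_lit 87233) (ZL.m (nat_lit 85671) (ZL.m (nat_lit 93608) (ZL.p (nat_lit 56373) (ZL.p (nat_lit 45592) (ZL.m (nat_lit 81078) (ZL.p (nat_lit 255693) ZL.n)))))))))))) ZL.n ZL.n)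
  (Z4.mk (ZL.p (nat_lit 3908202) (ZL.p (nat_lit 3886712) (ZL.m (nat_lit 205126) (ZL.m (nat_lit 25739) (ZL.p (nat_lit 29774) (ZL.p (nat_lit 134639) (ZL.m (nat_lit 260245) (ZL.p (nat_lit 26348) (ZL.m (nat_lit 155274) (ZL.m (nat_lit 167082) (ZL.p (nat_lit 547564) ZL.n))))))))))) (ZL.m (nat_lit 14038) (ZL.m (nat_lit 422398) (ZL.m (nat_lit 2565184) ZL.n))) ZL.n (ZL.p (nat_lit 1390012) (ZL.p (nat_lit 1667982) ZL.n)))
  (Z4.mk (ZL.m (nat_lit 1017719) (ZL.m (nat_lit 1679361) (ZL.m (nat_lit 104029) (ZL.m (nat_lit 149487) (ZL.p (nat_lit 77317) (ZL.m (nat_lit 93824) (ZL.m (nat_lit 212078) (ZL.m (nat_lit 135419) (ZL.p (nat_lit 2050186) (ZL.m (nat_lit 76809) (ZL.p (nat_lit 71411) (ZL.m (nat_lit 59834) (ZL.p (nat_lit 2547) (ZL.p (nat_lit 45245) (ZL.p (nat_lit 8247) (ZL.p (nat_lit 109916) (ZL.p (nat_lit 2062) (ZL.p (nat_lit 50297) (ZL.p (nat_lit 155) (ZL.p (nat_lit 45220) (ZL.p (nat_lit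 41678) (ZL.m (nat_lit 79770) ZL.n)))))))))))))))))))))) (ZL.p (nat_lit 32508) (ZL.p (nat_lit 7379) (ZL.m (nat_lit 129061) (ZL.m (nat_lit 15922) (ZL.m (nat_lit 155359) (ZL.p (nat_lit 20216) (ZL.p (nat_lit 195941) (ZL.m (nat_lit 326219) (ZL.m (nat_lit 26789) (ZL.p (nat_lit 236461) (ZL.p (nat_lit 142531) (ZL.p (nat_lit 48037) (ZL.m (nat_lit 32244) (ZL.p (nat_lit 727654) (ZL.p (nat_lit 223685) (ZL.m (nat_lit 88163) (ZL.p (nat_lit 137819) (ZL.m (nat_lit 215373) (ZL.m (nat_lit 673121) (ZL.m (nat_lit 149102) (ZL.p (nat_lit 78026) (ZL.p (nat_lit 939938) (ZL.m (nat_lit 644527) (ZL.m (nat_lit 1405465) (ZL.m (nat_lit 160593) (ZL.m (nat_lit 1601626) (ZL.m (nat_lit 190930) (ZL.p (nat_lit 158658) (ZL.p (nat_lit 64479) (ZL.m (nat_lit 5194459) ZL.n)))))))))))))))))))))))))))))) ZL.n ZL.n)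
  (Z4.mk (ZL.p (nat_lit 3915048) (ZL.p (nat_lit 3880718) (ZL.p (nat_lit 300401) (ZL.m (nat_lit 12665) (ZL.p (nat_lit 247317) (ZL.m (nat_lit 170728) (ZL.p (nat_lit 45286) (ZL.p (nat_lit 153573) (ZL.p (nat_lit 220428) (ZL.m (nat_lit 651101) ZL.n)))))))))) (ZL.m (nat_lit 14385) (ZL.p (nat_lit 233033) (ZL.p (nat_lit 10596) (ZL.p (nat_lit 1164424) (ZL.p (nat_lit 347466) (ZL.m (nat_lit 416273) (ZL.p (nat_lit 33732) (ZL.p (nat_lit 2141) (ZL.m (nat_lit 440638) (ZL.m (nat_lit 5694240) ZL.n)))))))))) ZL.n (ZL.p (nat_lit 159624) (ZL.p (nat_lit 397944) (ZL.m (nat_lit 1892377) (ZL.p (nat_lit 2105342) ZL.n)))))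

def e37 : El := El.mk (W2.mk (nat_lit 2) (nat_lit 3) (nat_lit 1) (nat_lit 7)) (nat_lit 9)
  (Z4.mk (ZL.m (nat_lit 9196) (ZL.m (nat_lit 4146) (ZL.m (nat_lit 20019) (ZL.p (nat_lit 3286) (ZL.m (nat_lit 820) (ZL.p (nat_lit 32453) (ZL.m (nat_lit 1152) (ZL.p (nat_lit 22584) (ZL.p (nat_lit 6442) (ZL.p (nat_lit 36612) (ZL.p (nat_lit 24757) (ZL.p (nat_lit 19794) (ZL.p (nat_lit 5485) (ZL.m (nat_lit 11720) (ZL.m (nat_lit 32106) (ZL.m (nat_lit 11376) ZL.n)))))))))))))))) (ZL.m (nat_lit 6079) (ZL.m (nat_lit 3703) (ZL.p (nat_lit 98717) (ZL.p (nat_lit 10629) (ZL.p (nat_lit 14422) (ZL.p (nat_lit 10755) (ZL.m (nat_lit 17801) (ZL.m (nat_lit 7100) (ZL.p (nat_lit 1320) (ZL.m (nat_lit 9535) (ZL.p (nat_lit 33047) (ZL.p (nat_lit 4781) ZL.n)))))))))))) ZL.n ZL.n)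
  (Z4.mk ZL.n ZL.n ZL.n ZL.n)
  (Z4.mk (ZL.p (nat_lit 6531) (ZL.p (nat_lit 5057) (ZL.m (nat_lit 22067) (ZL.p (nat_lit 1407) (ZL.p (nat_lit 18824) (ZL.p (nat_lit 45926) (ZL.m (nat_lit 14097) (ZL.p (nat_lit 18318) (ZL.m (nat_lit 5467) (ZL.p (nat_lit 87887) (ZL.m (nat_lit 8434) (ZL.m (nat_lit 34984) (ZL.m (nat_lit 10420) (ZL.m (nat_lit 22530) (ZL.p (nat_lit 6885) (ZL.p (nat_lit 320) (ZL.p (nat_lit 15245) (ZL.p (nat_lit 8414) (ZL.m (nat_lit 7320) (ZL.p (nat_lit 33797) (ZL.m (nat_lit 24635) (ZL.p (nat_lit 10133) ZL.n)))))))))))))))))))))) (ZL.p (nat_lit 25880) (ZL.p (nat_lit 7147) (ZL.m (nat_lit 32433) (ZL.m (nat_lit 4344) (ZL.m (nat_lit 27120) (ZL.m (nat_lit 6448) (ZL.p (nat_lit 3577) (ZL.p (nat_lit 11007) (ZL.p (nat_lit 3870) (ZL.p (nat_lit 172678) (ZL.p (nat_lit 12320) (ZL.p (nat_lit 12901) (ZL.p (nat_lit 19770) (ZL.p (nat_lit 35504) (ZL.p (nat_lit 7682) (ZL.p (nat_lit 9625)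 (ZL.m (nat_lit 24868) (ZL.m (nat_lit 6879) (ZL.m (nat_lit 3123) (ZL.m (nat_lit 18798) (ZL.p (nat_lit 76353) (ZL.m (nat_lit 23628) (ZL.p (nat_lit 58326) (ZL.p (nat_lit 18602) (ZL.p (nat_lit 7470) (ZL.m (nat_lit 18389) (ZL.m (nat_lit 12323) (ZL.p (nat_lit 22198) (ZL.m (nat_lit 4081) (ZL.m (nat_lit 11019) (ZL.p (nat_lit 60220) ZL.n))))))))))))))))))))))))))))))) ZL.n ZL.n)
  (Z4.mk ZL.n ZL.n ZL.n ZL.n)

def e38 : El := El.mk (W2.mk (nat_lit 2) (nat_lit 3) (nat_lit 2) (nat_lit 1)) (nat_lit 201)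
  (Z4.mk (ZL.m (nat_lit 10000) (ZL.m (nat_lit 160) (ZL.m (nat_lit 26335) (ZL.p (nat_lit 10190) (ZL.m (nat_lit 156) (ZL.p (nat_lit 36460) (ZL.p (nat_lit 11288) (ZL.p (nat_lit 43013) (ZL.m (nat_lit 5204) (ZL.p (nat_lit 11179) (ZL.p (nat_lit 21340) (ZL.p (nat_lit 44553) (ZL.m (nat_lit 11365) (ZL.m (nat_lit 1629) (ZL.m (nat_lit 9192) (ZL.p (nat_lit 8535) ZL.n)))))))))))))))) (ZL.p (nat_lit 2063) (ZL.p (nat_lit 6430) (ZL.m (nat_lit 10682) (ZL.m (nat_lit 30601) (ZL.m (nat_lit 19217) (ZL.p (nat_lit 85367) (ZL.p (nat_lit 70873) (ZL.m (nat_lit 64466) (ZL.m (nat_lit 11734) (ZL.m (nat_lit 69675) (ZL.p (nat_lit 14163) (ZL.m (nat_lit 4783) ZL.n)))))))))))) ZL.n ZL.n)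
  (Z4.mk ZL.n ZL.n ZL.n ZL.n)
  (Z4.mk (ZL.m (nat_lit 40) (ZL.m (nat_lit 8751) (ZL.p (nat_lit 59249) (ZL.p (nat_lit 10888) (ZL.m (nat_lit 15776) (ZL.m (nat_lit 45715) (ZL.m (nat_lit 17445) (ZL.p (nat_lit 30145) (ZL.m (nat_lit 7067) (ZL.m (nat_lit 38102) (ZL.p (nat_lit 32894) (ZL.p (nat_lit 60453) (ZL.m (nat_lit 19048) (ZL.m (nat_lit 20192) (ZL.m (nat_lit 6697) (ZL.p (nat_lit 66) (ZL.p (nat_lit 36715) (ZL.p (nat_lit 60) (ZL.p (nat_lit 10217) (ZL.m (nat_lit 2230) (ZL.p (nat_lit 26503) (ZL.p (nat_lit 8278) ZL.n)))))))))))))))))))))) (ZL.p (nat_lit 16640) (ZL.p (nat_lit 30166) (ZL.m (nat_lit 6380) (ZL.m (nat_lit 23856) (ZL.p (nat_lit 13806) (ZL.m (nat_lit 34523) (ZL.m (nat_lit 6402) (ZL.m (nat_lit 3857) (ZL.p (nat_lit 11548) (ZL.m (nat_lit 14508) (ZL.p (nat_lit 30227) (ZL.p (nat_lit 70950) (ZL.p (nat_lit 192250) (ZL.p (nat_lit 60930) (ZL.m (nat_lit 140532) (ZL.p (nat_lit 6538)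 (ZL.p (nat_lit 16497) (ZL.m (nat_lit 24866) (ZL.m (nat_lit 33396) (ZL.p (nat_lit 34635) (ZL.m (nat_lit 27571) (ZL.m (nat_lit 218) (ZL.p (nat_lit 11990) (ZL.m (nat_lit 49123) (ZL.m (nat_lit 20530) (ZL.m (nat_lit 27301) (ZL.p (nat_lit 24728) (ZL.p (nat_lit 35484) (ZL.m (nat_lit 1438) (ZL.p (nat_lit 15845) (ZL.p (nat_lit 24066) (ZL.m (nat_lit 65181) ZL.n)))))))))))))))))))))))))))))))) ZL.n ZL.n)
  (Z4.mk ZL.n ZL.n ZL.n ZL.n)

def e39 : El := El.mk (W2.mk (nat_lit 2) (nat_lit 3) (nat_lit 2) (nat_lit 4)) (nat_lit 584)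
  (Z4.mk (ZL.m (nat_lit 9654) (ZL.m (nat_lit 4052) (ZL.m (nat_lit 39049) (ZL.p (nat_lit 63483) (ZL.p (nat_lit 15333) (ZL.m (nat_lit 36814) (ZL.p (nat_lit 3111) (ZL.p (nat_lit 23937) (ZL.m (nat_lit 4680) (ZL.m (nat_lit 4126) (ZL.m (nat_lit 32791) (ZL.p (nat_lit 65534) (ZL.p (nat_lit 13475) (ZL.m (nat_lit 1629) (ZL.m (nat_lit 9192) (ZL.p (nat_lit 8535) ZL.n)))))))))))))))) ZL.n ZL.n ZL.n)
  (Z4.mk (ZL.m (nat_lit 1187) (ZL.p (nat_lit 3790) (ZL.p (nat_lit 28942) (ZL.m (nat_lit 11915) (ZL.m (nat_lit 5945) (ZL.m (nat_lit 8930) (ZL.m (nat_lit 129263) (ZL.m (nat_lit 3483) (ZL.m (nat_lit 61727) (ZL.m (nat_lit 17135) (ZL.p (nat_lit 39269) (ZL.m (nat_lit 244643) ZL.n)))))))))))) ZL.n ZL.n ZL.n)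
  (Z4.mk (ZL.p (nat_lit 8734) (ZL.p (nat_lit 5471) (ZL.m (nat_lit 74958) (ZL.m (nat_lit 6900) (ZL.p (nat_lit 54134) (ZL.p (nat_lit 25705) (ZL.m (nat_lit 3824) (ZL.m (nat_lit 13297) (ZL.m (nat_lit 2955) (ZL.p (nat_lit 41800) (ZL.m (nat_lit 9542) (ZL.p (nat_lit 11730) (ZL.p (nat_lit 17033) (ZL.p (nat_lit 6838) (ZL.p (nat_lit 7205) (ZL.m (nat_lit 17536) (ZL.m (nat_lit 11235) (ZL.m (nat_lit 2435) (ZL.m (nat_lit 43387) (ZL.m (nat_lit 14749) (ZL.m (nat_lit 12873) (ZL.p (nat_lit 41884) ZL.n)))))))))))))))))))))) ZL.n ZL.n ZL.n)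
  (Z4.mk (ZL.m (nat_lit 10943) (ZL.p (nat_lit 15564) (ZL.m (nat_lit 90008) (ZL.p (nat_lit 16077) (ZL.m (nat_lit 69680) (ZL.p (nat_lit 79920) (ZL.m (nat_lit 2200) (ZL.m (nat_lit 118013) (ZL.m (nat_lit 31152) (ZL.p (nat_lit 4040) (ZL.m (nat_lit 220101) ZL.n))))))))))) ZL.n ZL.n ZL.n)

def e40 : El := El.mk (W2.mk (nat_lit 2) (nat_lit 3) (nat_lit 7) (nat_lit 5)) (nat_lit 581)
  (Z4.mk (ZL.m (nat_lit 3483) (ZL.p (nat_lit 496) (ZL.m (nat_lit 16562) (ZL.m (nat_lit 667) (ZL.p (nat_lit 4709) (ZL.m (nat_lit 7591) (ZL.p (nat_lit 12404) (ZL.m (nat_lit 8654) (ZL.m (nat_lit 7139) (ZL.m (nat_lit 17657) (ZL.m (nat_lit 20469) (ZL.m (nat_lit 15892) (ZL.m (nat_lit 20944) (ZL.m (nat_lit 8472) (ZL.p (nat_lit 5433) (ZL.p (nat_lit 3718) ZL.n)))))))))))))))) ZL.n ZL.n ZL.n)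
  (Z4.mk (ZL.p (nat_lit 1254) (ZL.p (nat_lit 857) (ZL.p (nat_lit 6644) (ZL.m (nat_lit 21527) (ZL.p (nat_lit 16449) (ZL.m (nat_lit 27108) (ZL.p (nat_lit 67946) (ZL.p (nat_lit 17356) (ZL.p (nat_lit 51649) (ZL.m (nat_lit 24948) (ZL.p (nat_lit 37949) (ZL.m (nat_lit 38301) (ZL.p (nat_lit 118439) ZL.n))))))))))))) ZL.n ZL.n ZL.n)
  (Z4.mk ZL.n ZL.n ZL.n ZL.n)
  (Z4.mk ZL.n ZL.n ZL.n ZL.n)

def e41 : El := El.mk (W2.mk (nat_lit 2) (nat_lit 3) (nat_lit 6) (nat_lit 8)) (nat_lit 394)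
  (Z4.mk (ZL.p (nat_lit 7709) (ZL.m (nat_lit 16508) (ZL.m (nat_lit 31378) (ZL.p (nat_lit 12249) (ZL.m (nat_lit 13142) (ZL.m (nat_lit 20644) (ZL.m (nat_lit 33693) (ZL.p (nat_lit 1658) (ZL.p (nat_lit 75699) (ZL.p (nat_lit 24681) (ZL.m (nat_lit 25737) (ZL.m (nat_lit 48579) (ZL.p (nat_lit 76325) (ZL.p (nat_lit 4349) (ZL.p (nat_lit 44145) (ZL.m (nat_lit 19038) ZL.n)))))))))))))))) (ZL.p (nat_lit 486) (ZL.p (nat_lit 17778) (ZL.p (nat_lit 12320) (ZL.m (nat_lit 15141) (ZL.m (nat_lit 8145) (ZL.m (nat_lit 17620) (ZL.p (nat_lit 58712) (ZL.p (nat_lit 47125) (ZL.m (nat_lit 149017) (ZL.m (nat_lit 91110) (ZL.p (nat_lit 1840) (ZL.m (nat_lit 71261) ZL.n)))))))))))) ZL.n ZL.n)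
  (Z4.mk ZL.n ZL.n ZL.n ZL.n)
  (Z4.mk (ZL.p (nat_lit 3733) (ZL.m (nat_lit 8) (ZL.p (nat_lit 21212) (ZL.p (nat_lit 15238) (ZL.p (nat_lit 69449) (ZL.m (nat_lit 2602) (ZL.m (nat_lit 23028) (ZL.p (nat_lit 9855) (ZL.m (nat_lit 1197) (ZL.p (nat_lit 21851) (ZL.p (nat_lit 3610) (ZL.p (nat_lit 23062) (ZL.p (nat_lit 21156) (ZL.m (nat_lit 68033) (ZL.m (nat_lit 6756) (ZL.m (nat_lit 3887) (ZL.m (nat_lit 32309) (ZL.m (nat_lit 67449) (ZL.p (nat_lit 24999) (ZL.m (nat_lit 18472) (ZL.m (nat_lit 10255) (ZL.p (nat_lit 8839) ZL.n)))))))))))))))))))))) (ZL.m (nat_lit 3767) (ZL.m (nat_lit 102) (ZL.m (nat_lit 28459) (ZL.m (nat_lit 8259) (ZL.p (nat_lit 15651) (ZL.p (nat_lit 5128) (ZL.p (nat_lit 14718) (ZL.p (nat_lit 9781) (ZL.m (nat_lit 675) (ZL.m (nat_lit 13938) (ZL.p (nat_lit 12149) (ZL.p (nat_lit 17909) (ZL.m (nat_lit 11655) (ZL.p (nat_lit 20970) (ZL.m (nat_lit 15815) (ZL.m (nat_lit 8529) (ZL.m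 (nat_lit 31084) (ZL.m (nat_lit 8737) (ZL.m (nat_lit 24430) (ZL.m (nat_lit 8071) (ZL.m (nat_lit 121491) (ZL.m (nat_lit 13560) (ZL.p (nat_lit 8170) (ZL.m (nat_lit 11505) (ZL.m (nat_lit 12440) (ZL.m (nat_lit 29401) (ZL.m (nat_lit 108521) (ZL.p (nat_lit 116219) (ZL.m (nat_lit 12588) (ZL.p (nat_lit 16210) (ZL.p (nat_lit 73525) (ZL.m (nat_lit 23116) (ZL.p (nat_lit 99990) ZL.n))))))))))))))))))))))))))))))))) ZL.n ZL.n)
  (Z4.mk ZL.n ZL.n ZL.n ZL.n)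

def e42 : El := El.mk (W2.mk (nat_lit 2) (nat_lit 3) (nat_lit 3) (nat_lit 7)) (nat_lit 388)
  (Z4.mk (ZL.m (nat_lit 4512) (ZL.m (nat_lit 3217) (ZL.m (nat_lit 27597) (ZL.p (nat_lit 20559) (ZL.p (nat_lit 10352) (ZL.p (nat_lit 8092) (ZL.m (nat_lit 32691) (ZL.p (nat_lit 19503) (ZL.p (nat_lit 4847) (ZL.m (nat_lit 9765) (ZL.p (nat_lit 25641) (ZL.p (nat_lit 10027) (ZL.m (nat_lit 2969) (ZL.p (nat_lit 9379) (ZL.p (nat_lit 19137) (ZL.p (nat_lit 6467) ZL.n)))))))))))))))) ZL.n ZL.n ZL.n)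
  (Z4.mk ZL.n ZL.n ZL.n ZL.n)
  (Z4.mk (ZL.p (nat_lit 2648) (ZL.m (nat_lit 4703) (ZL.p (nat_lit 27970) (ZL.m (nat_lit 167) (ZL.m (nat_lit 11411) (ZL.m (nat_lit 16529) (ZL.m (nat_lit 10515) (ZL.p (nat_lit 26339) (ZL.p (nat_lit 468) (ZL.p (nat_lit 8766) (ZL.m (nat_lit 8474) (ZL.m (nat_lit 15260) (ZL.p (nat_lit 6823) (ZL.p (nat_lit 7645) (ZL.m (nat_lit 461) (ZL.m (nat_lit 129) (ZL.m (nat_lit 4908) (ZL.m (nat_lit 1141) (ZL.m (nat_lit 5977) (ZL.m (nat_lit 358) (ZL.p (nat_lit 9650) (ZL.m (nat_lit 18570) ZL.n)))))))))))))))))))))) ZL.n ZL.n ZL.n)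
  (Z4.mk ZL.n ZL.n ZL.n ZL.n)

def e43 : El := El.mk (W2.mk (nat_lit 2) (nat_lit 3) (nat_lit 6) (nat_lit 5)) (nat_lit 600)
  (Z4.mk (ZL.p (nat_lit 15) (ZL.p (nat_lit 3163) (ZL.p (nat_lit 22940) (ZL.p (nat_lit 189) (ZL.m (nat_lit 24118) (ZL.m (nat_lit 6091) (ZL.m (nat_lit 8001) (ZL.m (nat_lit 16790) (ZL.m (nat_lit 6873) (ZL.m (nat_lit 1922) (ZL.m (nat_lit 12306) (ZL.m (nat_lit 6856) (ZL.p (nat_lit 31850) (ZL.p (nat_lit 9071) (ZL.p (nat_lit 78393) (ZL.p (nat_lit 3779) ZL.n)))))))))))))))) ZL.n ZL.n ZL.n)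
  (Z4.mk (ZL.m (nat_lit 20346) (ZL.m (nat_lit 17215) (ZL.p (nat_lit 4981) (ZL.m (nat_lit 38890) (ZL.m (nat_lit 20468) (ZL.p (nat_lit 94949) (ZL.m (nat_lit 29373) (ZL.p (nat_lit 8953) (ZL.m (nat_lit 8562) (ZL.m (nat_lit 36927) (ZL.p (nat_lit 11615) (ZL.p (nat_lit 40936) (ZL.m (nat_lit 51998) (ZL.m (nat_lit 254854) ZL.n)))))))))))))) ZL.n ZL.n ZL.n)
  (Z4.mk (ZL.p (nat_lit 1444) (ZL.m (nat_lit 3630) (ZL.m (nat_lit 1686) (ZL.p (nat_lit 14442) (ZL.m (nat_lit 42146) (ZL.p (nat_lit 5801) (ZL.m (nat_lit 47167) (ZL.m (nat_lit 30527) (ZL.p (nat_lit 1454) (ZL.m (nat_lit 15140) (ZL.m (nat_lit 738) (ZL.m (nat_lit 2687) (ZL.m (nat_lit 56788) (ZL.p (nat_lit 32428) (ZL.p (nat_lit 1779) (ZL.m (nat_lit 11077) (ZL.p (nat_lit 17821) (ZL.p (nat_lit 32860) (ZL.m (nat_lit 11803) (ZL.p (nat_lit 1833) (ZL.m (nat_lit 2634) (ZL.p (nat_lit 20342) ZL.n)))))))))))))))))))))) ZL.n ZL.n ZL.n)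
  (Z4.mk (ZL.p (nat_lit 6105) (ZL.p (nat_lit 9597) (ZL.p (nat_lit 81793) (ZL.p (nat_lit 25042) (ZL.p (nat_lit 90887) (ZL.m (nat_lit 46038) (ZL.p (nat_lit 3997) (ZL.p (nat_lit 8200) (ZL.p (nat_lit 28550) (ZL.m (nat_lit 32238) (ZL.m (nat_lit 40654) (ZL.p (nat_lit 245568) ZL.n)))))))))))) ZL.n ZL.n ZL.n)

def e44 : El := El.mk (W2.mk (nat_lit 2) (nat_lit 3) (nat_lit 4) (nat_lit 1)) (nat_lit 290)
  (Z4.mk (ZL.m (nat_lit 1377944) (ZL.p (nat_lit 1609535) (ZL.m (nat_lit 433175) (ZL.m (nat_lit 48222) (ZL.p (nat_lit 24333) (ZL.m (nat_lit 111974) (ZL.p (nat_lit 38831) (ZL.m (nat_lit 69885) (ZL.p (nat_lit 60287) (ZL.p (nat_lit 57030) (ZL.p (nat_lit 58961) (ZL.p (nat_lit 15173) (ZL.m (nat_lit 12938) (ZL.m (nat_lit 11579) (ZL.m (nat_lit 23867) (ZL.p (nat_lit 3915) ZL.n)))))))))))))))) (ZL.p (nat_lit 8289) (ZL.p (nat_lit 2585299) (ZL.p (nat_lit 638) (ZL.p (nat_lit 33572) (ZL.p (nat_lit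 33095) (ZL.m (nat_lit 87233) (ZL.m (nat_lit 85671) (ZL.m (nat_lit 93608) (ZL.p (nat_lit 56373) (ZL.p (nat_lit 45592) (ZL.m (nat_lit 81078) (ZL.p (nat_lit 255693) ZL.n)))))))))))) ZL.n ZL.n)
  (Z4.mk (ZL.m (nat_lit 28299) (ZL.m (nat_lit 15804) (ZL.p (nat_lit 165981) (ZL.p (nat_lit 676274) (ZL.m (nat_lit 91266) (ZL.p (nat_lit 152287) (ZL.m (nat_lit 49321) (ZL.m (nat_lit 25897) (ZL.m (nat_lit 176400) (ZL.p (nat_lit 189690) (ZL.p (nat_lit 163788) (ZL.m (nat_lit 62889) (ZL.p (nat_lit 610068) (ZL.p (nat_lit 255014) (ZL.p (nat_lit 5441923) ZL.n))))))))))))))) (ZL.m (nat_lit 14038) (ZL.m (nat_lit 422398) (ZL.m (nat_lit 2565184) ZL.n))) ZL.n (ZL.p (nat_lit 1390012) (ZL.p (nat_lit 1667982) ZL.n)))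
  (Z4.mk (ZL.p (nat_lit 335347) (ZL.m (nat_lit 2508471) (ZL.p (nat_lit 75556) (ZL.m (nat_lit 11295) (ZL.m (nat_lit 124797) (ZL.p (nat_lit 74936) (ZL.p (nat_lit 95583) (ZL.m (nat_lit 35787) (ZL.m (nat_lit 408286) (ZL.m (nat_lit 32243) (ZL.p (nat_lit 75954) (ZL.p (nat_lit 17661) (ZL.m (nat_lit 145167) (ZL.p (nat_lit 118001) (ZL.p (nat_lit 1231941) (ZL.p (nat_lit 35333) (ZL.m (nat_lit 46623) (ZL.m (nat_lit 6817) (ZL.m (nat_lit 16997) (ZL.p (nat_lit 36937) (ZL.p (nat_lit 41678) (ZL.m (nat_lit 79770) ZL.n)))))))))))))))))))))) (ZL.m (nat_lit 19584) (ZL.p (nat_lit 4520682) (ZL.p (nat_lit 161684) (ZL.p (nat_lit 52598) (ZL.p (nat_lit 186366) (ZL.p (nat_lit 133223) (ZL.m (nat_lit 37459) (ZL.m (nat_lit 60878) (ZL.m (nat_lit 20238) (ZL.m (nat_lit 14662) (ZL.p (nat_lit 145216) (ZL.m (nat_lit 49866) (ZL.p (nat_lit 27982) (ZL.m (nat_lit 329500) (ZL.m (nat_lit 28062) (ZL.p (nat_lit 73660)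 (ZL.m (nat_lit 98600) (ZL.p (nat_lit 259964) (ZL.p (nat_lit 212596) (ZL.p (nat_lit 90660) (ZL.p (nat_lit 6969) (ZL.m (nat_lit 602443) (ZL.p (nat_lit 470703) (ZL.p (nat_lit 477941) (ZL.m (nat_lit 51469) (ZL.p (nat_lit 653575) (ZL.p (nat_lit 92189) (ZL.m (nat_lit 352125) (ZL.m (nat_lit 239420) (ZL.p (nat_lit 711549) (ZL.p (nat_lit 67911) (ZL.m (nat_lit 621828) (ZL.p (nat_lit 381454) (ZL.p (nat_lit 3315308) ZL.n)))))))))))))))))))))))))))))))))) ZL.n ZL.n)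
  (Z4.mk (ZL.p (nat_lit 38793) (ZL.p (nat_lit 26134) (ZL.p (nat_lit 26051) (ZL.m (nat_lit 628) (ZL.m (nat_lit 16613) (ZL.m (nat_lit 10501) (ZL.p (nat_lit 4995) (ZL.m (nat_lit 170022) (ZL.p (nat_lit 32084) (ZL.p (nat_lit 290046) (ZL.m (nat_lit 62024) (ZL.p (nat_lit 208133) (ZL.m (nat_lit 5519570) ZL.n))))))))))))) (ZL.p (nat_lit 6529) (ZL.p (nat_lit 301513) (ZL.m (nat_lit 433850) (ZL.p (nat_lit 1095176) (ZL.m (nat_lit 126338) (ZL.p (nat_lit 110297) (ZL.m (nat_lit 27906) (ZL.p (nat_lit 168620) (ZL.p (nat_lit 220662) (ZL.p (nat_lit 1396193) (ZL.m (nat_lit 5540141) ZL.n))))))))))) ZL.n (ZL.m (nat_lit 1656223) (ZL.p (nat_lit 653659) (ZL.p (nat_lit 755550) (ZL.p (nat_lit 2105342) ZL.n)))))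

def e45 : El := El.mk (W2.mk (nat_lit 2) (nat_lit 3) (nat_lit 4) (nat_lit 7)) (nat_lit 681)
  (Z4.mk (ZL.m (nat_lit 749) (ZL.m (nat_lit 6707) (ZL.m (nat_lit 14640) (ZL.m (nat_lit 49967) (ZL.m (nat_lit 18598) (ZL.p (nat_lit 56431) (ZL.m (nat_lit 9027) (ZL.m (nat_lit 5446) (ZL.p (nat_lit 10215) (ZL.p (nat_lit 32676) (ZL.p (nat_lit 57511) (ZL.m (nat_lit 33174) (ZL.m (nat_lit 12544) (ZL.p (nat_lit 1736) (ZL.m (nat_lit 26987) (ZL.m (nat_lit 12276) ZL.n)))))))))))))))) ZL.n ZL.n ZL.n)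
  (Z4.mk (ZL.p (nat_lit 14561) (ZL.m (nat_lit 5825) (ZL.p (nat_lit 93113) (ZL.p (nat_lit 78896) (ZL.m (nat_lit 41477) (ZL.m (nat_lit 12539) (ZL.p (nat_lit 64166) (ZL.m (nat_lit 5449) (ZL.p (nat_lit 37572) (ZL.p (nat_lit 32846) (ZL.m (nat_lit 823) (ZL.m (nat_lit 55705) (ZL.m (nat_lit 30747) (ZL.m (nat_lit 23565) (ZL.p (nat_lit 309) (ZL.p (nat_lit 124133) ZL.n)))))))))))))))) ZL.n ZL.n ZL.n)
  (Z4.mk (ZL.m (nat_lit 3291) (ZL.p (nat_lit 735) (ZL.p (nat_lit 18769) (ZL.m (nat_lit 9236) (ZL.p (nat_lit 20738) (ZL.m (nat_lit 55404) (ZL.m (nat_lit 7503) (ZL.m (nat_lit 36381) (ZL.m (nat_lit 9855) (ZL.p (nat_lit 12774) (ZL.m (nat_lit 39475) (ZL.p (nat_lit 32083) (ZL.p (nat_lit 426) (ZL.m (nat_lit 9435) (ZL.p (nat_lit 60) (ZL.p (nat_lit 11141) (ZL.p (nat_lit 4463) (ZL.p (nat_lit 25844) (ZL.m (nat_lit 11212) (ZL.m (nat_lit 34500) (ZL.p (nat_lit 9726) (ZL.p (nat_lit 7126) ZL.n))))))))))))))))))))))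 ZL.n ZL.n ZL.n)
  (Z4.mk (ZL.m (nat_lit 12129) (ZL.p (nat_lit 8172) (ZL.p (nat_lit 55527) (ZL.p (nat_lit 12769) (ZL.p (nat_lit 24733) (ZL.m (nat_lit 81323) (ZL.p (nat_lit 2739) (ZL.p (nat_lit 53097) (ZL.p (nat_lit 21262) (ZL.p (nat_lit 23515) (ZL.m (nat_lit 109528) (ZL.m (nat_lit 56561) (ZL.m (nat_lit 9438) (ZL.p (nat_lit 117760) ZL.n)))))))))))))) ZL.n ZL.n ZL.n)

def e46 : El := El.mk (W2.mk (nat_lit 2) (nat_lit 3) (nat_lit 4) (nat_lit 3)) (nat_lit 576)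
  (Z4.mk (ZL.p (nat_lit 5889) (ZL.m (nat_lit 15904) (ZL.m (nat_lit 89344) (ZL.p (nat_lit 23100) (ZL.p (nat_lit 73991) (ZL.p (nat_lit 86421) (ZL.m (nat_lit 35121) (ZL.p (nat_lit 92530) (ZL.m (nat_lit 35049) (ZL.m (nat_lit 67508) (ZL.m (nat_lit 1087) (ZL.m (nat_lit 59699) (ZL.m (nat_lit 18206) (ZL.m (nat_lit 8221) (ZL.m (nat_lit 111179) (ZL.m (nat_lit 18244) ZL.n)))))))))))))))) ZL.n ZL.n ZL.n)
  (Z4.mk (ZL.m (nat_lit 9111) (ZL.p (nat_lit 12838) (ZL.p (nat_lit 110200) (ZL.p (nat_lit 198464) (ZL.m (nat_lit 40176) (ZL.m (nat_lit 74819) (ZL.p (nat_lit 144928) (ZL.m (nat_lit 31259) (ZL.m (nat_lit 14122) (ZL.m (nat_lit 189175) (ZL.m (nat_lit 156043) (ZL.m (nat_lit 28664) (ZL.p (nat_lit 17115) (ZL.p (nat_lit 227923) (ZL.m (nat_lit 11953) (ZL.m (nat_lit 103450) (ZL.m (nat_lit 249365) ZL.n))))))))))))))))) ZL.n ZL.n ZL.n)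
  (Z4.mk (ZL.p (nat_lit 7747) (ZL.m (nat_lit 2417) (ZL.m (nat_lit 3388) (ZL.p (nat_lit 51443) (ZL.m (nat_lit 30294) (ZL.m (nat_lit 10492) (ZL.m (nat_lit 192116) ZL.n))))))) ZL.n ZL.n ZL.n)
  (Z4.mk (ZL.p (nat_lit 21850) (ZL.m (nat_lit 595) (ZL.p (nat_lit 279056) (ZL.p (nat_lit 12945) (ZL.p (nat_lit 113187) (ZL.m (nat_lit 180838) (ZL.p (nat_lit 18844) (ZL.m (nat_lit 29232) (ZL.m (nat_lit 143355) (ZL.m (nat_lit 107508) (ZL.m (nat_lit 102528) (ZL.p (nat_lit 255723) (ZL.p (nat_lit 25885) (ZL.m (nat_lit 176622) (ZL.p (nat_lit 216209) ZL.n))))))))))))))) ZL.n ZL.n ZL.n)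

def e47 : El := El.mk (W2.mk (nat_lit 2) (nat_lit 3) (nat_lit 4) (nat_lit 6)) (nat_lit 577)
  (Z4.mk (ZL.p (nat_lit 2450) (ZL.m (nat_lit 26907) (ZL.m (nat_lit 69703) (ZL.p (nat_lit 36773) (ZL.p (nat_lit 42689) (ZL.p (nat_lit 36288) (ZL.m (nat_lit 11222) (ZL.m (nat_lit 35444) (ZL.m (nat_lit 29986) (ZL.p (nat_lit 5652) (ZL.m (nat_lit 29101) (ZL.p (nat_lit 25223) (ZL.p (nat_lit 18523) (ZL.p (nat_lit 2762) (ZL.m (nat_lit 1498) (ZL.p (nat_lit 752) ZL.n)))))))))))))))) ZL.n ZL.n ZL.n)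
  (Z4.mk (ZL.m (nat_lit 45773) (ZL.p (nat_lit 2569) (ZL.m (nat_lit 10795) (ZL.p (nat_lit 48877) (ZL.m (nat_lit 12084) (ZL.p (nat_lit 46396) (ZL.p (nat_lit 22408) (ZL.m (nat_lit 4449) (ZL.p (nat_lit 151001) (ZL.m (nat_lit 12691) (ZL.p (nat_lit 52299) (ZL.p (nat_lit 89304) (ZL.m (nat_lit 41717) (ZL.p (nat_lit 4129) (ZL.p (nat_lit 6017) (ZL.m (nat_lit 14821) (ZL.m (nat_lit 21969) (ZL.m (nat_lit 152722) ZL.n)))))))))))))))))) ZL.n ZL.n ZL.n)
  (Z4.mk (ZL.p (nat_lit 1214) (ZL.p (nat_lit 3442) (ZL.m (nat_lit 20983) (ZL.p (nat_lit 25918) (ZL.m (nat_lit 1326) (ZL.p (nat_lit 10275) (ZL.m (nat_lit 37569) (ZL.m (nat_lit 80003) ZL.n)))))))) ZL.n ZL.n ZL.n)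
  (Z4.mk (ZL.p (nat_lit 33577) (ZL.m (nat_lit 11318) (ZL.p (nat_lit 17370) (ZL.m (nat_lit 2956) (ZL.m (nat_lit 1860) (ZL.m (nat_lit 19007) (ZL.p (nat_lit 1700) (ZL.p (nat_lit 146800) (ZL.p (nat_lit 8015) (ZL.p (nat_lit 81258) (ZL.p (nat_lit 43266) (ZL.m (nat_lit 23633) (ZL.m (nat_lit 5541) (ZL.m (nat_lit 45180) (ZL.p (nat_lit 55660) (ZL.p (nat_lit 164445) ZL.n)))))))))))))))) ZL.n ZL.n ZL.n)

def e48 : El := El.mk (W2.mk (nat_lit 3) (nat_lit 1) (nat_lit 8) (nat_lit 7)) (nat_lit 262)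
  (Z4.mk (ZL.m (nat_lit 7003) (ZL.p (nat_lit 11745) (ZL.p (nat_lit 40513) (ZL.p (nat_lit 6020) (ZL.p (nat_lit 38775) (ZL.p (nat_lit 55664) (ZL.p (nat_lit 30384) (ZL.m (nat_lit 3284) (ZL.m (nat_lit 90738) (ZL.m (nat_lit 14858) (ZL.p (nat_lit 31962) (ZL.p (nat_lit 6398) (ZL.p (nat_lit 13028) (ZL.p (nat_lit 9364) (ZL.p (nat_lit 30782) (ZL.p (nat_lit 4127) ZL.n)))))))))))))))) (ZL.p (nat_lit 7864) (ZL.m (nat_lit 8600) (ZL.m (nat_lit 16509) (ZL.p (nat_lit 63362) (ZL.m (nat_lit 47779) (ZL.p (nat_lit 27508) (ZL.p (nat_lit 72574) (ZL.p (nat_lit 95432) (ZL.p (nat_lit 33307) (ZL.m (nat_lit 1187) (ZL.p (nat_lit 32674) ZL.n))))))))))) ZL.n ZL.n)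
  (Z4.mk ZL.n ZL.n ZL.n ZL.n)
  (Z4.mk (ZL.m (nat_lit 3139) (ZL.p (nat_lit 864) (ZL.m (nat_lit 25922) (ZL.m (nat_lit 5426) (ZL.m (nat_lit 6885) (ZL.p (nat_lit 3294) (ZL.p (nat_lit 30922) (ZL.m (nat_lit 10012) (ZL.m (nat_lit 1616) (ZL.m (nat_lit 5412) (ZL.m (nat_lit 23031) (ZL.m (nat_lit 2969) (ZL.p (nat_lit 41785) (ZL.p (nat_lit 3289) (ZL.p (nat_lit 1225) (ZL.p (nat_lit 14253) (ZL.p (nat_lit 68564) (ZL.p (nat_lit 856) (ZL.m (nat_lit 10762) (ZL.p (nat_lit 15190) (ZL.p (nat_lit 9019) (ZL.m (nat_lit 14590) ZL.n)))))))))))))))))))))) (ZL.p (nat_lit 7905) (ZL.m (nat_lit 20387) (ZL.m (nat_lit 95964) (ZL.m (nat_lit 9062) (ZL.m (nat_lit 15407) (ZL.p (nat_lit 55210) (ZL.p (nat_lit 94718) (ZL.m (nat_lit 23890) (ZL.p (nat_lit 9601) (ZL.m (nat_lit 30916) (ZL.m (nat_lit 3728) (ZL.m (nat_lit 10284) (ZL.p (nat_lit 14936) (ZL.p (nat_lit 26399) (ZL.p (nat_lit 12740) (ZL.m (nat_lit 19744) (ZL.m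 (nat_lit 29350) (ZL.p (nat_lit 139712) (ZL.m (nat_lit 2793) (ZL.p (nat_lit 40598) (ZL.p (nat_lit 33629) (ZL.p (nat_lit 36109) (ZL.p (nat_lit 23797) (ZL.p (nat_lit 77470) (ZL.p (nat_lit 51709) (ZL.m (nat_lit 10580) (ZL.p (nat_lit 40563) (ZL.p (nat_lit 4455) (ZL.m (nat_lit 17116) (ZL.m (nat_lit 15661) (ZL.p (nat_lit 22734) (ZL.p (nat_lit 29081) (ZL.p (nat_lit 41343) (ZL.p (nat_lit 989) (ZL.m (nat_lit 44063) ZL.n))))))))))))))))))))))))))))))))))) ZL.n ZL.n)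
  (Z4.mk ZL.n ZL.n ZL.n ZL.n)

def e49 : El := El.mk (W2.mk (nat_lit 3) (nat_lit 1) (nat_lit 1) (nat_lit 6)) (nat_lit 67)
  (Z4.mk (ZL.m (nat_lit 1887) (ZL.p (nat_lit 11657) (ZL.p (nat_lit 27595) (ZL.p (nat_lit 5794) (ZL.p (nat_lit 1806) (ZL.p (nat_lit 22081) (ZL.p (nat_lit 10872) (ZL.p (nat_lit 30886) (ZL.p (nat_lit 840) (ZL.m (nat_lit 32847) (ZL.p (nat_lit 1215) (ZL.m (nat_lit 16073) (ZL.m (nat_lit 21864) (ZL.m (nat_lit 7416) (ZL.m (nat_lit 18915) (ZL.m (nat_lit 402) ZL.n)))))))))))))))) (ZL.p (nat_lit 632) (ZL.p (nat_lit 9452) (ZL.m (nat_lit 2903) (ZL.m (nat_lit 99187) (ZL.p (nat_lit 14089) (ZL.p (nat_lit 14974) (ZL.p (nat_lit 54081) (ZL.p (nat_lit 30944) (ZL.p (nat_lit 7435) (ZL.m (nat_lit 38914) ZL.n)))))))))) ZL.n ZL.n)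
  (Z4.mk ZL.n ZL.n ZL.n ZL.n)
  (Z4.mk (ZL.m (nat_lit 2648) (ZL.p (nat_lit 4703) (ZL.m (nat_lit 27970) (ZL.p (nat_lit 167) (ZL.p (nat_lit 11411) (ZL.p (nat_lit 16529) (ZL.p (nat_lit 10515) (ZL.m (nat_lit 26339) (ZL.m (nat_lit 468) (ZL.m (nat_lit 8766) (ZL.p (nat_lit 8474) (ZL.p (nat_lit 15260) (ZL.m (nat_lit 6823) (ZL.m (nat_lit 7645) (ZL.p (nat_lit 461) (ZL.p (nat_lit 129) (ZL.p (nat_lit 4908) (ZL.p (nat_lit 1141) (ZL.p (nat_lit 5977) (ZL.p (nat_lit 358) (ZL.m (nat_lit 9650) (ZL.p (nat_lit 18570) ZL.n)))))))))))))))))))))) (ZL.p (nat_lit 545) (ZL.m (nat_lit 16846) (ZL.p (nat_lit 19274) (ZL.m (nat_lit 17986) (ZL.p (nat_lit 40472) (ZL.m (nat_lit 53441) (ZL.p (nat_lit 44949) (ZL.p (nat_lit 357) (ZL.m (nat_lit 14696) (ZL.m (nat_lit 20987) (ZL.m (nat_lit 8164) (ZL.p (nat_lit 19838) (ZL.m (nat_lit 24900) (ZL.m (nat_lit 60136) (ZL.p (nat_lit 87854) (ZL.m (nat_lit 3437) (ZL.m (nat_lit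 64754) (ZL.p (nat_lit 18891) (ZL.p (nat_lit 17449) (ZL.m (nat_lit 49856) (ZL.p (nat_lit 14428) (ZL.m (nat_lit 23783) (ZL.m (nat_lit 6122) (ZL.p (nat_lit 23787) (ZL.m (nat_lit 53160) (ZL.m (nat_lit 864) (ZL.m (nat_lit 2804) (ZL.m (nat_lit 1600) (ZL.m (nat_lit 19572) (ZL.m (nat_lit 20340) (ZL.p (nat_lit 85735) (ZL.p (nat_lit 7442) (ZL.p (nat_lit 23907) (ZL.m (nat_lit 14844) (ZL.p (nat_lit 41492) (ZL.m (nat_lit 22587) ZL.n)))))))))))))))))))))))))))))))))))) ZL.n ZL.n)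
  (Z4.mk ZL.n ZL.n ZL.n ZL.n)

def e50 : El := El.mk (W2.mk (nat_lit 3) (nat_lit 1) (nat_lit 8) (nat_lit 5)) (nat_lit 338)
  (Z4.mk (ZL.p (nat_lit 691) (ZL.m (nat_lit 7927) (ZL.m (nat_lit 13806) (ZL.p (nat_lit 18079) (ZL.p (nat_lit 49751) (ZL.p (nat_lit 41111) (ZL.p (nat_lit 4691) (ZL.p (nat_lit 15164) (ZL.m (nat_lit 8165) (ZL.p (nat_lit 11745) (ZL.p (nat_lit 18531) (ZL.m (nat_lit 35325) (ZL.p (nat_lit 57503) (ZL.p (nat_lit 4642) (ZL.m (nat_lit 3466) (ZL.m (nat_lit 18689) ZL.n)))))))))))))))) (ZL.p (nat_lit 7864) (ZL.m (nat_lit 8600) (ZL.m (nat_lit 16509) (ZL.p (nat_lit 63362) (ZL.m (nat_lit 47779) (ZL.p (nat_lit 27508) (ZL.p (nat_lit 72574) (ZL.p (nat_lit 95432) (ZL.p (nat_lit 33307) (ZL.m (nat_lit 1187) (ZL.p (nat_lit 32674) ZL.n))))))))))) ZL.n ZL.n)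
  (Z4.mk (ZL.p (nat_lit 11427) (ZL.m (nat_lit 2495) (ZL.m (nat_lit 24144) (ZL.m (nat_lit 10187) (ZL.m (nat_lit 14564) (ZL.m (nat_lit 8947) (ZL.m (nat_lit 19180) (ZL.m (nat_lit 15096) (ZL.p (nat_lit 158458) (ZL.p (nat_lit 23741) (ZL.m (nat_lit 15161) (ZL.m (nat_lit 62390) (ZL.m (nat_lit 36474) (ZL.p (nat_lit 88431) (ZL.p (nat_lit 3021) (ZL.m (nat_lit 20542) (ZL.m (nat_lit 13973) (ZL.p (nat_lit 99069) (ZL.p (nat_lit 122694) ZL.n))))))))))))))))))) (ZL.m (nat_lit 10246) (ZL.m (nat_lit 21054) (ZL.m (nat_lit 395) (ZL.p (nat_lit 108534) ZL.n)))) ZL.n ZL.n)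
  (Z4.mk (ZL.m (nat_lit 2038) (ZL.p (nat_lit 2774) (ZL.p (nat_lit 6397) (ZL.m (nat_lit 24254) (ZL.m (nat_lit 20418) (ZL.m (nat_lit 6492) (ZL.p (nat_lit 39273) (ZL.p (nat_lit 30685) (ZL.p (nat_lit 1359) (ZL.m (nat_lit 1299) (ZL.p (nat_lit 20159) (ZL.m (nat_lit 17406) (ZL.m (nat_lit 6154) (ZL.p (nat_lit 32317) (ZL.p (nat_lit 3751) (ZL.p (nat_lit 711) (ZL.m (nat_lit 54076) (ZL.p (nat_lit 33732) (ZL.m (nat_lit 2434) (ZL.p (nat_lit 1448) (ZL.p (nat_lit 3870) (ZL.m (nat_lit 14590) ZL.n)))))))))))))))))))))) (ZL.p (nat_lit 6966) (ZL.m (nat_lit 210) (ZL.m (nat_lit 22976) (ZL.p (nat_lit 42530) (ZL.m (nat_lit 98564) (ZL.p (nat_lit 14001) (ZL.p (nat_lit 66714) (ZL.m (nat_lit 69419) (ZL.m (nat_lit 8849) (ZL.p (nat_lit 22701) (ZL.p (nat_lit 88282) (ZL.m (nat_lit 55145) (ZL.m (nat_lit 20925) (ZL.m (nat_lit 91464) (ZL.m (nat_lit 28749) (ZL.p (nat_lit 17309) (ZL.m (nat_lit 4015) (ZL.m (nat_lit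 62879) (ZL.m (nat_lit 2040) (ZL.m (nat_lit 2096) (ZL.p (nat_lit 18894) (ZL.m (nat_lit 216308) (ZL.p (nat_lit 47415) (ZL.p (nat_lit 13413) (ZL.p (nat_lit 35640) (ZL.m (nat_lit 6500) (ZL.p (nat_lit 40141) (ZL.p (nat_lit 26324) (ZL.m (nat_lit 6752) (ZL.m (nat_lit 12216) (ZL.p (nat_lit 19738) (ZL.p (nat_lit 36502) (ZL.p (nat_lit 30087) (ZL.m (nat_lit 5294) (ZL.m (nat_lit 44623) (ZL.p (nat_lit 15620) (ZL.p (nat_lit 22381) ZL.n))))))))))))))))))))))))))))))))))))) ZL.n ZL.n)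
  (Z4.mk (ZL.p (nat_lit 13504) (ZL.m (nat_lit 414) (ZL.m (nat_lit 9209) (ZL.m (nat_lit 14299) (ZL.m (nat_lit 53942) (ZL.m (nat_lit 23983) (ZL.m (nat_lit 12409) (ZL.m (nat_lit 147892) (ZL.m (nat_lit 44207) (ZL.m (nat_lit 1809) (ZL.p (nat_lit 2991) (ZL.m (nat_lit 85162) (ZL.m (nat_lit 1063) (ZL.p (nat_lit 10259) (ZL.p (nat_lit 4038) (ZL.p (nat_lit 98196) (ZL.m (nat_lit 152392) ZL.n))))))))))))))))) (ZL.p (nat_lit 14716) (ZL.p (nat_lit 13131) (ZL.p (nat_lit 4718) (ZL.m (nat_lit 13077) (ZL.m (nat_lit 83133) (ZL.p (nat_lit 38358) (ZL.m (nat_lit 26656) (ZL.p (nat_lit 187771) (ZL.m (nat_lit 29095) (ZL.m (nat_lit 33030) (ZL.p (nat_lit 3476) (ZL.m (nat_lit 200176) ZL.n)))))))))))) ZL.n ZL.n)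

def e51 : El := El.mk (W2.mk (nat_lit 3) (nat_lit 1) (nat_lit 2) (nat_lit 6)) (nat_lit 387)
  (Z4.mk (ZL.p (nat_lit 5493) (ZL.m (nat_lit 3484) (ZL.p (nat_lit 6809) (ZL.m (nat_lit 56072) (ZL.m (nat_lit 28645) (ZL.p (nat_lit 28797) (ZL.p (nat_lit 4982) (ZL.m (nat_lit 7446) (ZL.m (nat_lit 6444) (ZL.m (nat_lit 22468) (ZL.m (nat_lit 33771) (ZL.p (nat_lit 8927) (ZL.m (nat_lit 9813) (ZL.m (nat_lit 10854) (ZL.m (nat_lit 1370) (ZL.m (nat_lit 5688) ZL.n)))))))))))))))) (ZL.m (nat_lit 847) (ZL.p (nat_lit 15422) (ZL.p (nat_lit 7593) (ZL.p (nat_lit 4518) (ZL.p (nat_lit 2119) (ZL.p (nat_lit 9031) (ZL.m (nat_lit 3182) (ZL.m (nat_lit 6597) (ZL.m (nat_lit 20295) (ZL.m (nat_lit 6161) (ZL.m (nat_lit 10691) (ZL.m (nat_lit 109666) ZL.n)))))))))))) ZL.n ZL.n)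
  (Z4.mk ZL.n ZL.n ZL.n ZL.n)
  (Z4.mk (ZL.m (nat_lit 434) (ZL.m (nat_lit 6814) (ZL.p (nat_lit 12331) (ZL.m (nat_lit 14879) (ZL.m (nat_lit 8616) (ZL.p (nat_lit 44199) (ZL.p (nat_lit 15738) (ZL.m (nat_lit 20228) (ZL.p (nat_lit 7524) (ZL.m (nat_lit 76125) (ZL.p (nat_lit 20678) (ZL.p (nat_lit 49863) (ZL.p (nat_lit 4445) (ZL.p (nat_lit 21323) (ZL.m (nat_lit 4001) (ZL.m (nat_lit 3741) (ZL.m (nat_lit 11608) (ZL.m (nat_lit 34909) (ZL.m (nat_lit 3901) (ZL.p (nat_lit 18986) (ZL.m (nat_lit 1821) (ZL.m (nat_lit 27632) ZL.n)))))))))))))))))))))) (ZL.p (nat_lit 2041) (ZL.p (nat_lit 18632) (ZL.p (nat_lit 5265) (ZL.p (nat_lit 19164) (ZL.p (nat_lit 7011) (ZL.m (nat_lit 479) (ZL.p (nat_lit 22968) (ZL.m (nat_lit 12401) (ZL.m (nat_lit 4104) (ZL.p (nat_lit 2237) (ZL.m (nat_lit 18628) (ZL.m (nat_lit 24044) (ZL.p (nat_lit 15009) (ZL.p (nat_lit 35914) (ZL.m (nat_lit 15743) (ZL.m (nat_lit 7757) (ZL.p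 (nat_lit 40360) (ZL.m (nat_lit 30795) (ZL.m (nat_lit 2202) (ZL.p (nat_lit 13449) (ZL.m (nat_lit 42682) (ZL.p (nat_lit 25621) (ZL.p (nat_lit 29200) (ZL.p (nat_lit 42214) (ZL.m (nat_lit 149783) (ZL.p (nat_lit 21266) (ZL.p (nat_lit 49811) (ZL.m (nat_lit 2177) (ZL.p (nat_lit 88111) (ZL.p (nat_lit 17141) (ZL.p (nat_lit 46590) (ZL.m (nat_lit 10882) (ZL.p (nat_lit 5708) (ZL.p (nat_lit 847) (ZL.m (nat_lit 12530) (ZL.m (nat_lit 22003) (ZL.p (nat_lit 10156) ZL.n))))))))))))))))))))))))))))))))))))) ZL.n ZL.n)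
  (Z4.mk ZL.n ZL.n ZL.n ZL.n)

def e52 : El := El.mk (W2.mk (nat_lit 3) (nat_lit 1) (nat_lit 3) (nat_lit 2)) (nat_lit 258)
  (Z4.mk (ZL.m (nat_lit 4112) (ZL.p (nat_lit 10190) (ZL.p (nat_lit 18862) (ZL.p (nat_lit 68628) (ZL.p (nat_lit 2644) (ZL.m (nat_lit 44256) (ZL.m (nat_lit 29863) (ZL.m (nat_lit 34630) (ZL.p (nat_lit 8768) (ZL.m (nat_lit 18714) (ZL.m (nat_lit 18886) (ZL.m (nat_lit 39599) (ZL.m (nat_lit 5682) (ZL.m (nat_lit 814) (ZL.m (nat_lit 4596) (ZL.p (nat_lit 4268) ZL.n)))))))))))))))) (ZL.m (nat_lit 4635) (ZL.p (nat_lit 5128) (ZL.p (nat_lit 10768) (ZL.p (nat_lit 601) (ZL.m (nat_lit 19878) (ZL.p (nat_lit 26696) (ZL.p (nat_lit 21460) (ZL.p (nat_lit 5649) (ZL.p (nat_lit 23766) (ZL.m (nat_lit 9064) (ZL.p (nat_lit 43754) (ZL.m (nat_lit 129862) ZL.n)))))))))))) ZL.n ZL.n)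
  (Z4.mk ZL.n ZL.n ZL.n ZL.n)
  (Z4.mk (ZL.m (nat_lit 3192) (ZL.p (nat_lit 3573) (ZL.p (nat_lit 37589) (ZL.m (nat_lit 13840) (ZL.p (nat_lit 4966) (ZL.p (nat_lit 41204) (ZL.p (nat_lit 18943) (ZL.m (nat_lit 27183) (ZL.p (nat_lit 2172) (ZL.p (nat_lit 56556) (ZL.m (nat_lit 33369) (ZL.m (nat_lit 35563) (ZL.p (nat_lit 8827) (ZL.p (nat_lit 947) (ZL.m (nat_lit 4362) (ZL.m (nat_lit 13084) (ZL.m (nat_lit 22161) (ZL.m (nat_lit 14205) (ZL.p (nat_lit 25916) (ZL.p (nat_lit 19326) (ZL.p (nat_lit 7333) (ZL.m (nat_lit 43398) ZL.n)))))))))))))))))))))) (ZL.m (nat_lit 1645) (ZL.m (nat_lit 17571) (ZL.p (nat_lit 28780) (ZL.p (nat_lit 14947) (ZL.p (nat_lit 21427) (ZL.p (nat_lit 74444) (ZL.m (nat_lit 18029) (ZL.p (nat_lit 57245) (ZL.m (nat_lit 2943) (ZL.p (nat_lit 13380) (ZL.p (nat_lit 5402) (ZL.p (nat_lit 13998) (ZL.m (nat_lit 20268) (ZL.m (nat_lit 5523) (ZL.p (nat_lit 7194) (ZL.p (nat_lit 11848)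 (ZL.p (nat_lit 56576) (ZL.p (nat_lit 95019) (ZL.p (nat_lit 48166) (ZL.m (nat_lit 23161) (ZL.m (nat_lit 33634) (ZL.m (nat_lit 67990) (ZL.m (nat_lit 25854) (ZL.p (nat_lit 6027) (ZL.p (nat_lit 57707) (ZL.m (nat_lit 22011) (ZL.p (nat_lit 26252) (ZL.m (nat_lit 74288) (ZL.m (nat_lit 172327) (ZL.m (nat_lit 12617) (ZL.p (nat_lit 14064) (ZL.m (nat_lit 6208) (ZL.m (nat_lit 21119) (ZL.m (nat_lit 19646) (ZL.p (nat_lit 30408) (ZL.m (nat_lit 8882) (ZL.m (nat_lit 13801) ZL.n))))))))))))))))))))))))))))))))))))) ZL.n ZL.n)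
  (Z4.mk ZL.n ZL.n ZL.n ZL.n)

def e53 : El := El.mk (W2.mk (nat_lit 3) (nat_lit 1) (nat_lit 6) (nat_lit 7)) (nat_lit 265)
  (Z4.mk (ZL.p (nat_lit 2689) (ZL.p (nat_lit 5492) (ZL.m (nat_lit 1608) (ZL.m (nat_lit 798) (ZL.p (nat_lit 9212) (ZL.m (nat_lit 3791) (ZL.p (nat_lit 836) (ZL.p (nat_lit 10227) (ZL.p (nat_lit 1373) (ZL.p (nat_lit 3847) (ZL.m (nat_lit 5255) (ZL.m (nat_lit 5633) (ZL.m (nat_lit 11437) (ZL.p (nat_lit 11776) (ZL.p (nat_lit 5433) (ZL.p (nat_lit 3718) ZL.n)))))))))))))))) (ZL.p (nat_lit 1832) (ZL.p (nat_lit 22124) (ZL.m (nat_lit 8606) (ZL.m (nat_lit 10669) (ZL.p (nat_lit 20035) (ZL.p (nat_lit 12463) (ZL.m (nat_lit 29174) (ZL.m (nat_lit 31346) (ZL.p (nat_lit 1839) (ZL.p (nat_lit 30986) (ZL.p (nat_lit 18294) (ZL.m (nat_lit 4708) ZL.n)))))))))))) ZL.n ZL.n)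
  (Z4.mk ZL.n ZL.n ZL.n ZL.n)
  (Z4.mk (ZL.p (nat_lit 8524) (ZL.p (nat_lit 13911) (ZL.m (nat_lit 6869) (ZL.m (nat_lit 101492) (ZL.p (nat_lit 12613) (ZL.m (nat_lit 3792) (ZL.m (nat_lit 30229) (ZL.m (nat_lit 28386) (ZL.m (nat_lit 11195) (ZL.m (nat_lit 19208) (ZL.p (nat_lit 4259) (ZL.m (nat_lit 6097) (ZL.p (nat_lit 14982) (ZL.m (nat_lit 32822) (ZL.p (nat_lit 6553) (ZL.p (nat_lit 21613) (ZL.m (nat_lit 39508) (ZL.p (nat_lit 1832) (ZL.m (nat_lit 47476) (ZL.p (nat_lit 9272) (ZL.p (nat_lit 38939) (ZL.m (nat_lit 28090) ZL.n)))))))))))))))))))))) (ZL.m (nat_lit 13149) (ZL.m (nat_lit 33174) (ZL.m (nat_lit 9544) (ZL.m (nat_lit 994) (ZL.p (nat_lit 8700) (ZL.p (nat_lit 37901) (ZL.m (nat_lit 27548) (ZL.m (nat_lit 18527) (ZL.p (nat_lit 937) (ZL.m (nat_lit 18941) (ZL.m (nat_lit 6432) (ZL.m (nat_lit 7614) (ZL.p (nat_lit 38083) (ZL.p (nat_lit 309) (ZL.m (nat_lit 11291) (ZL.p (nat_lit 5883) (ZL.m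 (nat_lit 6595) (ZL.m (nat_lit 14578) (ZL.m (nat_lit 8381) (ZL.m (nat_lit 6387) (ZL.p (nat_lit 41090) (ZL.m (nat_lit 35679) (ZL.p (nat_lit 42878) (ZL.p (nat_lit 97444) (ZL.p (nat_lit 70756) (ZL.m (nat_lit 21465) (ZL.m (nat_lit 76600) (ZL.m (nat_lit 6108) (ZL.m (nat_lit 29919) (ZL.m (nat_lit 36027) (ZL.p (nat_lit 8941) (ZL.p (nat_lit 47833) (ZL.m (nat_lit 108422) (ZL.p (nat_lit 2310) (ZL.m (nat_lit 24519) (ZL.m (nat_lit 35284) (ZL.m (nat_lit 17531) ZL.n))))))))))))))))))))))))))))))))))))) ZL.n ZL.n)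
  (Z4.mk ZL.n ZL.n ZL.n ZL.n)

def e54 : El := El.mk (W2.mk (nat_lit 3) (nat_lit 1) (nat_lit 3) (nat_lit 4)) (nat_lit 322)
  (Z4.mk (ZL.m (nat_lit 4459) (ZL.p (nat_lit 14082) (ZL.p (nat_lit 31576) (ZL.p (nat_lit 15334) (ZL.m (nat_lit 12845) (ZL.p (nat_lit 29018) (ZL.m (nat_lit 21686) (ZL.m (nat_lit 15554) (ZL.p (nat_lit 8244) (ZL.m (nat_lit 3409) (ZL.p (nat_lit 35245) (ZL.m (nat_lit 60581) (ZL.m (nat_lit 30522) (ZL.m (nat_lit 814) (ZL.m (nat_lit 4596) (ZL.p (nat_lit 4268) ZL.n)))))))))))))))) (ZL.m (nat_lit 4635) (ZL.p (nat_lit 5128) (ZL.p (nat_lit 10768) (ZL.p (nat_lit 601) (ZL.m (nat_lit 19878) (ZL.p (nat_lit 26696) (ZL.p (nat_lit 21460) (ZL.p (nat_lit 5649) (ZL.p (nat_lit 23766) (ZL.m (nat_lit 9064) (ZL.p (nat_lit 43754) (ZL.m (nat_lit 129862) ZL.n)))))))))))) ZL.n ZL.n)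
  (Z4.mk (ZL.m (nat_lit 3235) (ZL.m (nat_lit 3202) (ZL.p (nat_lit 225) (ZL.m (nat_lit 23630) (ZL.p (nat_lit 9142) (ZL.m (nat_lit 6840) (ZL.p (nat_lit 3701) (ZL.p (nat_lit 4020) (ZL.m (nat_lit 15767) (ZL.m (nat_lit 3444) (ZL.p (nat_lit 22112) (ZL.p (nat_lit 30321) (ZL.p (nat_lit 5440) (ZL.p (nat_lit 6655) (ZL.p (nat_lit 33216) (ZL.p (nat_lit 45832) (ZL.p (nat_lit 16519) (ZL.m (nat_lit 32461) (ZL.p (nat_lit 163) (ZL.m (nat_lit 178316) ZL.n)))))))))))))))))))) (ZL.p (nat_lit 6135) (ZL.m (nat_lit 102390) ZL.n)) ZL.n ZL.n)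
  (Z4.mk (ZL.m (nat_lit 5502) (ZL.m (nat_lit 294) (ZL.m (nat_lit 21880) (ZL.p (nat_lit 9852) (ZL.m (nat_lit 43325) (ZL.m (nat_lit 21194) (ZL.p (nat_lit 2326) (ZL.p (nat_lit 10335) (ZL.p (nat_lit 7849) (ZL.m (nat_lit 60255) (ZL.p (nat_lit 10017) (ZL.m (nat_lit 36621) (ZL.m (nat_lit 6812) (ZL.p (nat_lit 12406) (ZL.p (nat_lit 3854) (ZL.p (nat_lit 30554) (ZL.m (nat_lit 3318) (ZL.p (nat_lit 16580) (ZL.p (nat_lit 7254) (ZL.m (nat_lit 2346) (ZL.m (nat_lit 20964) (ZL.m (nat_lit 6764) ZL.n)))))))))))))))))))))) (ZL.m (nat_lit 9166) (ZL.m (nat_lit 29080) (ZL.p (nat_lit 4432) (ZL.p (nat_lit 4860) (ZL.m (nat_lit 40704) (ZL.p (nat_lit 25959) (ZL.p (nat_lit 30409) (ZL.p (nat_lit 6683) (ZL.p (nat_lit 1704) (ZL.m (nat_lit 36464) (ZL.p (nat_lit 14193) (ZL.m (nat_lit 9166) (ZL.m (nat_lit 92309) (ZL.m (nat_lit 38176) (ZL.p (nat_lit 51530) (ZL.m (nat_lit 4428) (ZL.m (nat_lit 72796) (ZL.p (nat_lit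 17421) (ZL.p (nat_lit 52689) (ZL.p (nat_lit 1884) (ZL.m (nat_lit 13858) (ZL.p (nat_lit 10062) (ZL.p (nat_lit 84226) (ZL.m (nat_lit 65984) (ZL.m (nat_lit 25443) (ZL.m (nat_lit 67803) (ZL.p (nat_lit 11345) (ZL.p (nat_lit 69704) (ZL.p (nat_lit 36896) (ZL.p (nat_lit 3975) (ZL.m (nat_lit 67609) (ZL.p (nat_lit 144506) (ZL.p (nat_lit 7069) (ZL.p (nat_lit 25014) (ZL.m (nat_lit 91702) (ZL.p (nat_lit 68650) (ZL.p (nat_lit 44336) ZL.n))))))))))))))))))))))))))))))))))))) ZL.n ZL.n)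
  (Z4.mk (ZL.p (nat_lit 13693) (ZL.p (nat_lit 13513) (ZL.m (nat_lit 219) (ZL.m (nat_lit 159) (ZL.p (nat_lit 36738) (ZL.m (nat_lit 990) (ZL.p (nat_lit 4425) (ZL.m (nat_lit 17002) (ZL.m (nat_lit 1907) (ZL.m (nat_lit 19000) (ZL.m (nat_lit 28646) (ZL.m (nat_lit 20728) (ZL.p (nat_lit 16825) (ZL.m (nat_lit 39959) (ZL.p (nat_lit 12133) (ZL.m (nat_lit 11595) (ZL.p (nat_lit 46018) (ZL.p (nat_lit 218489) ZL.n)))))))))))))))))) (ZL.p (nat_lit 5772) (ZL.m (nat_lit 30633) (ZL.p (nat_lit 18656) (ZL.m (nat_lit 12342) (ZL.m (nat_lit 1813) (ZL.m (nat_lit 31212) (ZL.m (nat_lit 7153) (ZL.p (nat_lit 12509) (ZL.m (nat_lit 20442) (ZL.p (nat_lit 5495) (ZL.p (nat_lit 51904) (ZL.m (nat_lit 68981) (ZL.m (nat_lit 147403) ZL.n))))))))))))) ZL.n ZL.n)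

def e55 : El := El.mk (W2.mk (nat_lit 3) (nat_lit 1) (nat_lit 6) (nat_lit 5)) (nat_lit 329)
  (Z4.mk (ZL.p (nat_lit 3613) (ZL.p (nat_lit 18525) (ZL.p (nat_lit 44448) (ZL.p (nat_lit 7348) (ZL.m (nat_lit 45534) (ZL.p (nat_lit 3809) (ZL.m (nat_lit 22301) (ZL.p (nat_lit 47988) (ZL.p (nat_lit 18397) (ZL.p (nat_lit 46854) (ZL.p (nat_lit 25173) (ZL.p (nat_lit 14884) (ZL.p (nat_lit 7577) (ZL.p (nat_lit 52274) (ZL.p (nat_lit 5433) (ZL.p (nat_lit 3718) ZL.n)))))))))))))))) (ZL.p (nat_lit 1832) (ZL.p (nat_lit 22124) (ZL.m (nat_lit 8606) (ZL.m (nat_lit 10669) (ZL.p (nat_lit 20035) (ZL.p (nat_lit 12463) (ZL.m (nat_lit 29174) (ZL.m (nat_lit 31346) (ZL.p (nat_lit 1839) (ZL.p (nat_lit 30986) (ZL.p (nat_lit 18294) (ZL.m (nat_lit 4708) ZL.n)))))))))))) ZL.n ZL.n)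
  (Z4.mk (ZL.p (nat_lit 13336) (ZL.p (nat_lit 9022) (ZL.p (nat_lit 12541) (ZL.m (nat_lit 8559) (ZL.m (nat_lit 314) (ZL.p (nat_lit 17742) (ZL.p (nat_lit 44505) (ZL.m (nat_lit 430) (ZL.p (nat_lit 4919) (ZL.p (nat_lit 53152) (ZL.m (nat_lit 78971) (ZL.m (nat_lit 11240) (ZL.m (nat_lit 38141) (ZL.m (nat_lit 57947) (ZL.p (nat_lit 11978) (ZL.m (nat_lit 73818) (ZL.p (nat_lit 63409) (ZL.m (nat_lit 118869) (ZL.p (nat_lit 107177) (ZL.m (nat_lit 4703) (ZL.p (nat_lit 290235) ZL.n))))))))))))))))))))) ZL.n ZL.n ZL.n)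
  (Z4.mk (ZL.m (nat_lit 9577) (ZL.m (nat_lit 3699) (ZL.m (nat_lit 15974) (ZL.p (nat_lit 103610) ZL.n)))) (ZL.m (nat_lit 1146) (ZL.m (nat_lit 33477) (ZL.m (nat_lit 14102) (ZL.m (nat_lit 7210) (ZL.p (nat_lit 7888) (ZL.p (nat_lit 11616) (ZL.m (nat_lit 20707) (ZL.p (nat_lit 26335) (ZL.p (nat_lit 12581) (ZL.p (nat_lit 14342) (ZL.p (nat_lit 18153) (ZL.p (nat_lit 27479) (ZL.m (nat_lit 12499) (ZL.p (nat_lit 34526) (ZL.p (nat_lit 4874) (ZL.p (nat_lit 1933) (ZL.m (nat_lit 53) (ZL.p (nat_lit 861) (ZL.p (nat_lit 3295) (ZL.p (nat_lit 59559) (ZL.p (nat_lit 98958) (ZL.p (nat_lit 8690) (ZL.m (nat_lit 28044) (ZL.m (nat_lit 50977) (ZL.m (nat_lit 17269) (ZL.p (nat_lit 48842) (ZL.m (nat_lit 56347) (ZL.m (nat_lit 757) (ZL.p (nat_lit 42466) (ZL.p (nat_lit 9957) (ZL.m (nat_lit 32218) (ZL.m (nat_lit 6720) (ZL.p (nat_lit 64128) (ZL.p (nat_lit 2618) (ZL.p (nat_lit 11974) (ZL.p (nat_lit 131765) (ZL.m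 (nat_lit 70236) ZL.n))))))))))))))))))))))))))))))))))))) ZL.n ZL.n)
  (Z4.mk (ZL.p (nat_lit 8205) (ZL.p (nat_lit 3701) (ZL.p (nat_lit 13384) (ZL.p (nat_lit 892) (ZL.p (nat_lit 22454) (ZL.m (nat_lit 25352) (ZL.p (nat_lit 711) (ZL.m (nat_lit 23403) (ZL.m (nat_lit 38758) (ZL.p (nat_lit 101669) (ZL.m (nat_lit 33735) (ZL.p (nat_lit 14602) (ZL.p (nat_lit 9710) (ZL.m (nat_lit 48310) (ZL.m (nat_lit 34770) (ZL.m (nat_lit 113760) (ZL.m (nat_lit 72816) (ZL.m (nat_lit 740) (ZL.p (nat_lit 319649) ZL.n))))))))))))))))))) (ZL.m (nat_lit 17588) (ZL.p (nat_lit 5793) (ZL.p (nat_lit 113805) (ZL.m (nat_lit 15211) (ZL.m (nat_lit 2466) (ZL.p (nat_lit 70864) (ZL.p (nat_lit 1922) (ZL.p (nat_lit 23604) (ZL.m (nat_lit 21645) (ZL.m (nat_lit 7772) (ZL.p (nat_lit 9781) (ZL.p (nat_lit 10374) (ZL.m (nat_lit 39806) (ZL.m (nat_lit 344162) ZL.n)))))))))))))) ZL.n ZL.n)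

def e56 : El := El.mk (W2.mk (nat_lit 3) (nat_lit 1) (nat_lit 4) (nat_lit 1)) (nat_lit 320)
  (Z4.mk (ZL.m (nat_lit 9871) (ZL.p (nat_lit 27535) (ZL.p (nat_lit 55101) (ZL.m (nat_lit 7698) (ZL.m (nat_lit 17243) (ZL.m (nat_lit 27930) (ZL.m (nat_lit 19931) (ZL.p (nat_lit 6004) (ZL.m (nat_lit 103316) (ZL.m (nat_lit 10051) (ZL.p (nat_lit 23031) (ZL.p (nat_lit 36176) (ZL.m (nat_lit 48366) (ZL.p (nat_lit 4680) (ZL.p (nat_lit 31519) (ZL.p (nat_lit 24474) ZL.n)))))))))))))))) (ZL.m (nat_lit 5292) (ZL.p (nat_lit 23077) (ZL.m (nat_lit 483) (ZL.m (nat_lit 25467) (ZL.m (nat_lit 9090) (ZL.m (nat_lit 2336) (ZL.p (nat_lit 73904) (ZL.p (nat_lit 42588) (ZL.m (nat_lit 133977) (ZL.m (nat_lit 77284) (ZL.p (nat_lit 3556) (ZL.m (nat_lit 94769) ZL.n)))))))))))) ZL.n ZL.n)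
  (Z4.mk (ZL.m (nat_lit 5157) (ZL.m (nat_lit 11104) (ZL.p (nat_lit 756) (ZL.p (nat_lit 53) (ZL.p (nat_lit 56) (ZL.m (nat_lit 19829) (ZL.m (nat_lit 1452) (ZL.m (nat_lit 15237) (ZL.p (nat_lit 39451) (ZL.m (nat_lit 3608) (ZL.m (nat_lit 143752) (ZL.m (nat_lit 58668) (ZL.p (nat_lit 8654) (ZL.p (nat_lit 20666) (ZL.p (nat_lit 22499) (ZL.m (nat_lit 143355) (ZL.p (nat_lit 46022) (ZL.p (nat_lit 54617) (ZL.m (nat_lit 33337) (ZL.m (nat_lit 21931) (ZL.m (nat_lit 46015) (ZL.p (nat_lit 298564) ZL.n)))))))))))))))))))))) (ZL.p (nat_lit 7213) (ZL.m (nat_lit 15890) (ZL.m (nat_lit 13266) (ZL.m (nat_lit 127127) (ZL.p (nat_lit 62819) (ZL.p (nat_lit 89124) ZL.n)))))) ZL.n ZL.n)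
  (Z4.mk ZL.n ZL.n ZL.n ZL.n)
  (Z4.mk ZL.n ZL.n ZL.n ZL.n)

def e57 : El := El.mk (W2.mk (nat_lit 3) (nat_lit 1) (nat_lit 4) (nat_lit 8)) (nat_lit 321)
  (Z4.mk (ZL.p (nat_lit 968) (ZL.p (nat_lit 4189) (ZL.p (nat_lit 24974) (ZL.m (nat_lit 9731) (ZL.m (nat_lit 4840) (ZL.p (nat_lit 18279) (ZL.p (nat_lit 19676) (ZL.m (nat_lit 21397) (ZL.p (nat_lit 53352) (ZL.p (nat_lit 316) (ZL.m (nat_lit 15217) (ZL.m (nat_lit 3430) (ZL.m (nat_lit 1340) (ZL.m (nat_lit 211) (ZL.m (nat_lit 7343) (ZL.m (nat_lit 2037) ZL.n)))))))))))))))) ZL.n ZL.n ZL.n)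
  (Z4.mk (ZL.p (nat_lit 1309) (ZL.p (nat_lit 1092) (ZL.m (nat_lit 78) (ZL.m (nat_lit 12) (ZL.p (nat_lit 1166) (ZL.p (nat_lit 140) (ZL.p (nat_lit 9835) (ZL.p (nat_lit 11401) (ZL.m (nat_lit 3455) (ZL.m (nat_lit 3760) (ZL.m (nat_lit 13115) (ZL.m (nat_lit 14289) (ZL.p (nat_lit 5483) (ZL.m (nat_lit 18673) (ZL.m (nat_lit 15893) (ZL.m (nat_lit 18052) (ZL.p (nat_lit 6115) (ZL.m (nat_lit 3263) (ZL.p (nat_lit 18527) (ZL.p (nat_lit 82115) (ZL.m (nat_lit 15090) (ZL.p (nat_lit 3016) (ZL.m (nat_lit 147271) ZL.n))))))))))))))))))))))) ZL.n ZL.n ZL.n)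
  (Z4.mk ZL.n (ZL.p (nat_lit 936) (ZL.p (nat_lit 5532) (ZL.p (nat_lit 365) (ZL.p (nat_lit 172) (ZL.m (nat_lit 3) (ZL.p (nat_lit 17180) (ZL.p (nat_lit 11798) (ZL.m (nat_lit 8734) (ZL.p (nat_lit 813) (ZL.m (nat_lit 3300) (ZL.m (nat_lit 560) (ZL.m (nat_lit 246) (ZL.m (nat_lit 55143) (ZL.p (nat_lit 8385) (ZL.p (nat_lit 14267) (ZL.p (nat_lit 4536) (ZL.m (nat_lit 49981) (ZL.p (nat_lit 1939) (ZL.m (nat_lit 9218) (ZL.p (nat_lit 25301) (ZL.p (nat_lit 31353) (ZL.m (nat_lit 423) (ZL.p (nat_lit 25538) (ZL.m (nat_lit 77994) (ZL.m (nat_lit 64722) (ZL.p (nat_lit 41257) (ZL.p (nat_lit 115532) (ZL.p (nat_lit 49049) (ZL.m (nat_lit 31749) (ZL.p (nat_lit 5940) (ZL.m (nat_lit 33911) (ZL.m (nat_lit 5038) (ZL.m (nat_lit 18859) (ZL.m (nat_lit 3615) (ZL.p (nat_lit 28644) (ZL.p (nat_lit 9980) (ZL.m (nat_lit 720) ZL.n))))))))))))))))))))))))))))))))))))) ZL.n ZL.n)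
  (Z4.mk ZL.n (ZL.m (nat_lit 7796) (ZL.p (nat_lit 11165) (ZL.p (nat_lit 4833) (ZL.m (nat_lit 1321) (ZL.m (nat_lit 9532) (ZL.p (nat_lit 7792) (ZL.m (nat_lit 7311) (ZL.m (nat_lit 3680) (ZL.p (nat_lit 52313) (ZL.p (nat_lit 2863) (ZL.m (nat_lit 15622) (ZL.p (nat_lit 1804) (ZL.p (nat_lit 68915) (ZL.m (nat_lit 25284) (ZL.p (nat_lit 158144) ZL.n))))))))))))))) ZL.n ZL.n)

def e58 : El := El.mk (W2.mk (nat_lit 3) (nat_lit 1) (nat_lit 4) (nat_lit 2)) (nat_lit 322)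
  (Z4.mk (ZL.p (nat_lit 392188) (ZL.p (nat_lit 800946) (ZL.m (nat_lit 234508) (ZL.m (nat_lit 1991) (ZL.m (nat_lit 3271) (ZL.p (nat_lit 1245) (ZL.m (nat_lit 11063) (ZL.m (nat_lit 5994) (ZL.p (nat_lit 1252) (ZL.p (nat_lit 97) (ZL.m (nat_lit 841) (ZL.p (nat_lit 7586) (ZL.m (nat_lit 6469) (ZL.m (nat_lit 5790) (ZL.m (nat_lit 11934) (ZL.p (nat_lit 1957) ZL.n)))))))))))))))) (ZL.p (nat_lit 8289) (ZL.p (nat_lit 2585299) (ZL.p (nat_lit 638) (ZL.p (nat_lit 33572) (ZL.p (nat_lit 33095) (ZL.m (nat_lit 87233) (ZL.m (nat_lit 85671) (ZL.m (nat_lit 93608) (ZL.p (nat_lit 56373) (ZL.p (nat_lit 45592) (ZL.m (nat_lit 81078) (ZL.p (nat_lit 255693) ZL.n)))))))))))) ZL.n ZL.n)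
  (Z4.mk (ZL.m (nat_lit 28878) (ZL.m (nat_lit 37657) (ZL.m (nat_lit 93) (ZL.p (nat_lit 3156) (ZL.m (nat_lit 274) (ZL.m (nat_lit 32462) (ZL.m (nat_lit 40601) (ZL.p (nat_lit 18204) (ZL.m (nat_lit 296026) (ZL.m (nat_lit 73466) (ZL.p (nat_lit 420395) (ZL.p (nat_lit 165912) (ZL.p (nat_lit 50928) (ZL.p (nat_lit 88957) (ZL.m (nat_lit 8391) (ZL.p (nat_lit 159062) (ZL.p (nat_lit 296215) (ZL.m (nat_lit 215530) (ZL.p (nat_lit 328016) (ZL.p (nat_lit 1119815) (ZL.m (nat_lit 471660) (ZL.m (nat_lit 38109) (ZL.m (nat_lit 273468) (ZL.p (nat_lit 5349488) ZL.n)))))))))))))))))))))))) (ZL.m (nat_lit 2602415) ZL.n) ZL.n (ZL.m (nat_lit 390616) (ZL.p (nat_lit 833991) ZL.n)))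
  (Z4.mk (ZL.m (nat_lit 1369543) (ZL.p (nat_lit 839206) (ZL.p (nat_lit 133801) (ZL.p (nat_lit 61844) (ZL.p (nat_lit 21256) (ZL.p (nat_lit 7454) (ZL.m (nat_lit 18890) (ZL.p (nat_lit 5468) (ZL.m (nat_lit 414203) (ZL.p (nat_lit 94337) (ZL.p (nat_lit 52676) (ZL.p (nat_lit 103960) (ZL.m (nat_lit 144046) (ZL.p (nat_lit 53113) (ZL.p (nat_lit 1224660) ZL.n))))))))))))))) (ZL.m (nat_lit 12924) (ZL.m (nat_lit 4528061) (ZL.p (nat_lit 216317) (ZL.p (nat_lit 31047) (ZL.p (nat_lit 202587) (ZL.m (nat_lit 109621) (ZL.m (nat_lit 242331) (ZL.p (nat_lit 183939) (ZL.m (nat_lit 231) (ZL.p (nat_lit 100091) (ZL.p (nat_lit 93050) (ZL.p (nat_lit 32625) (ZL.p (nat_lit 80513) (ZL.m (nat_lit 314572) (ZL.m (nat_lit 46845) (ZL.p (nat_lit 83820) (ZL.p (nat_lit 31202) (ZL.p (nat_lit 138564) (ZL.p (nat_lit 152169) (ZL.m (nat_lit 25443) (ZL.m (nat_lit 138325) (ZL.m (nat_lit 350862) (ZL.p (nat_lit 410629) (ZL.p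 (nat_lit 515707) (ZL.p (nat_lit 21758) (ZL.p (nat_lit 582133) (ZL.p (nat_lit 13592) (ZL.m (nat_lit 347396) (ZL.m (nat_lit 278429) (ZL.p (nat_lit 772300) (ZL.m (nat_lit 22823) (ZL.m (nat_lit 606477) (ZL.p (nat_lit 428115) (ZL.p (nat_lit 3341959) (ZL.m (nat_lit 57022) (ZL.m (nat_lit 45029) (ZL.p (nat_lit 97060) ZL.n))))))))))))))))))))))))))))))))))))) ZL.n ZL.n)
  (Z4.mk (ZL.p (nat_lit 0) (ZL.p (nat_lit 3891) (ZL.m (nat_lit 2612) (ZL.m (nat_lit 214) (ZL.m (nat_lit 31382) (ZL.p (nat_lit 44077) (ZL.m (nat_lit 9720) (ZL.p (nat_lit 190488) (ZL.m (nat_lit 48703) (ZL.p (nat_lit 2570) (ZL.m (nat_lit 64295) (ZL.p (nat_lit 46443) (ZL.p (nat_lit 3499) (ZL.p (nat_lit 2310) (ZL.m (nat_lit 335977) (ZL.m (nat_lit 121402) (ZL.m (nat_lit 167062) (ZL.m (nat_lit 425467) (ZL.m (nat_lit 482083) (ZL.m (nat_lit 5472319) ZL.n)))))))))))))))))))) (ZL.m (nat_lit 1174337) (ZL.p (nat_lit 167814) (ZL.m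 (nat_lit 109209) (ZL.m (nat_lit 58064) (ZL.m (nat_lit 120219) (ZL.m (nat_lit 47072) (ZL.p (nat_lit 1402612) (ZL.m (nat_lit 399501) (ZL.m (nat_lit 324046) (ZL.p (nat_lit 27646) (ZL.m (nat_lit 12029) (ZL.p (nat_lit 471829) (ZL.p (nat_lit 953780) (ZL.p (nat_lit 232652) (ZL.p (nat_lit 577108) (ZL.m (nat_lit 5397363) ZL.n)))))))))))))))) ZL.n (ZL.m (nat_lit 301836) (ZL.m (nat_lit 2050561) ZL.n)))

def e59 : El := El.mk (W2.mk (nat_lit 3) (nat_lit 1) (nat_lit 4) (nat_lit 6)) (nat_lit 547)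
  (Z4.mk (ZL.m (nat_lit 2954) (ZL.m (nat_lit 923) (ZL.p (nat_lit 1430) (ZL.m (nat_lit 2819) (ZL.m (nat_lit 10868) (ZL.p (nat_lit 4819) (ZL.p (nat_lit 12857) (ZL.p (nat_lit 20584) (ZL.m (nat_lit 10218) (ZL.m (nat_lit 18532) (ZL.m (nat_lit 66525) (ZL.p (nat_lit 61895) (ZL.p (nat_lit 8216) (ZL.m (nat_lit 24309) (ZL.m (nat_lit 6488) (ZL.m (nat_lit 4788) ZL.n)))))))))))))))) (ZL.m (nat_lit 847) (ZL.p (nat_lit 15422) (ZL.p (nat_lit 7593) (ZL.p (nat_lit 4518) (ZL.p (nat_lit 2119) (ZL.p (nat_lit 9031) (ZL.m (nat_lit 3182) (ZL.m (nat_lit 6597) (ZL.m (nat_lit 20295) (ZL.m (nat_lit 6161) (ZL.m (nat_lit 10691) (ZL.m (nat_lit 109666) ZL.n)))))))))))) ZL.n ZL.n)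
  (Z4.mk (ZL.m (nat_lit 3969) (ZL.m (nat_lit 3929) (ZL.p (nat_lit 276) (ZL.p (nat_lit 43029) (ZL.m (nat_lit 3764) (ZL.p (nat_lit 12994) (ZL.m (nat_lit 2958) (ZL.m (nat_lit 2965) (ZL.m (nat_lit 12687) (ZL.m (nat_lit 6966) (ZL.m (nat_lit 35183) (ZL.p (nat_lit 4169) (ZL.p (nat_lit 31532) (ZL.m (nat_lit 6530) (ZL.p (nat_lit 11600) (ZL.m (nat_lit 8507) (ZL.p (nat_lit 38006) (ZL.m (nat_lit 13303) (ZL.p (nat_lit 26967) (ZL.m (nat_lit 129831) (ZL.p (nat_lit 25) (ZL.p (nat_lit 11437) (ZL.m (nat_lit 108163) (ZL.p (nat_lit 21720) (ZL.p (nat_lit 63165) ZL.n))))))))))))))))))))))))) (ZL.m (nat_lit 8263) (ZL.p (nat_lit 67664) (ZL.m (nat_lit 3342) (ZL.p (nat_lit 10974) (ZL.p (nat_lit 66422) ZL.n))))) ZL.n ZL.n)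
  (Z4.mk (ZL.m (nat_lit 2805) (ZL.p (nat_lit 1023) (ZL.m (nat_lit 9033) (ZL.p (nat_lit 22708) (ZL.m (nat_lit 30946) (ZL.m (nat_lit 34721) (ZL.p (nat_lit 5863) (ZL.p (nat_lit 38292) (ZL.p (nat_lit 7798) (ZL.m (nat_lit 24536) (ZL.p (nat_lit 27231) (ZL.m (nat_lit 46962) (ZL.p (nat_lit 5549) (ZL.p (nat_lit 10642) (ZL.m (nat_lit 2944) (ZL.m (nat_lit 7720) (ZL.m (nat_lit 8099) (ZL.p (nat_lit 651) (ZL.p (nat_lit 22433) (ZL.m (nat_lit 18283) (ZL.p (nat_lit 16730) (ZL.p (nat_lit 10373) ZL.n)))))))))))))))))))))) (ZL.p (nat_lit 846) (ZL.p (nat_lit 14210) (ZL.m (nat_lit 2884) (ZL.p (nat_lit 8577) (ZL.m (nat_lit 5308) (ZL.m (nat_lit 2948) (ZL.p (nat_lit 40683) (ZL.m (nat_lit 89918) (ZL.m (nat_lit 9452) (ZL.p (nat_lit 1399) (ZL.m (nat_lit 5732) (ZL.m (nat_lit 65951) (ZL.p (nat_lit 52963) (ZL.p (nat_lit 30008) (ZL.m (nat_lit 56907) (ZL.m (nat_lit 8904) (ZL.p (nat_lit 14802) (ZL.m (nat_lit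 11147) (ZL.m (nat_lit 31327) (ZL.p (nat_lit 24808) (ZL.p (nat_lit 25040) (ZL.m (nat_lit 4510) (ZL.m (nat_lit 74185) (ZL.m (nat_lit 43606) (ZL.p (nat_lit 25626) (ZL.p (nat_lit 89653) (ZL.p (nat_lit 19898) (ZL.p (nat_lit 6676) (ZL.p (nat_lit 59146) (ZL.m (nat_lit 5530) (ZL.p (nat_lit 96090) (ZL.m (nat_lit 167332) (ZL.m (nat_lit 7635) (ZL.m (nat_lit 13288) (ZL.p (nat_lit 124289) (ZL.m (nat_lit 68884) (ZL.m (nat_lit 52067) ZL.n))))))))))))))))))))))))))))))))))))) ZL.n ZL.n)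
  (Z4.mk (ZL.m (nat_lit 5274) (ZL.m (nat_lit 5205) (ZL.p (nat_lit 84) (ZL.m (nat_lit 139) (ZL.p (nat_lit 2841) (ZL.p (nat_lit 797) (ZL.p (nat_lit 1678) (ZL.p (nat_lit 10888) (ZL.m (nat_lit 9391) (ZL.p (nat_lit 7946) (ZL.m (nat_lit 12933) (ZL.m (nat_lit 979) (ZL.m (nat_lit 2254) (ZL.m (nat_lit 21410) (ZL.m (nat_lit 44740) (ZL.p (nat_lit 2370) (ZL.m (nat_lit 28953) (ZL.m (nat_lit 146906) (ZL.m (nat_lit 32380) (ZL.p (nat_lit 3495) (ZL.m (nat_lit 52905) ZL.n))))))))))))))))))))) (ZL.p (nat_lit 88) (ZL.m (nat_lit 22164) (ZL.m (nat_lit 17927) (ZL.m (nat_lit 2530) (ZL.p (nat_lit 859) (ZL.m (nat_lit 39100) (ZL.p (nat_lit 3185) (ZL.m (nat_lit 18867) (ZL.p (nat_lit 7770) (ZL.p (nat_lit 11449) (ZL.p (nat_lit 20362) (ZL.m (nat_lit 45125) (ZL.m (nat_lit 121876) (ZL.m (nat_lit 22629) (ZL.p (nat_lit 97550) (ZL.m (nat_lit 16071) (ZL.p (nat_lit 28671) ZL.n))))))))))))))))) ZL.n ZL.n)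

def e60 : El := El.mk (W2.mk (nat_lit 3) (nat_lit 2) (nat_lit 1) (nat_lit 6)) (nat_lit 69)
  (Z4.mk (ZL.m (nat_lit 7552) (ZL.m (nat_lit 722) (ZL.m (nat_lit 5577) (ZL.p (nat_lit 55458) (ZL.p (nat_lit 15621) (ZL.m (nat_lit 15845) (ZL.m (nat_lit 19569) (ZL.m (nat_lit 21555) (ZL.p (nat_lit 6443) (ZL.p (nat_lit 31897) (ZL.p (nat_lit 27762) (ZL.p (nat_lit 10220) (ZL.p (nat_lit 6928) (ZL.m (nat_lit 4195) (ZL.m (nat_lit 20947) (ZL.m (nat_lit 5688) ZL.n)))))))))))))))) (ZL.m (nat_lit 6079) (ZL.m (nat_lit 3703) (ZL.p (nat_lit 98717) (ZL.p (nat_lit 10629) (ZL.p (nat_lit 14422) (ZL.p (nat_lit 10755) (ZL.m (nat_lit 17801) (ZL.m (nat_lit 7100) (ZL.p (nat_lit 1320) (ZL.m (nat_lit 9535) (ZL.p (nat_lit 33047) (ZL.p (nat_lit 4781) ZL.n)))))))))))) ZL.n ZL.n)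
  (Z4.mk ZL.n ZL.n ZL.n ZL.n)
  (Z4.mk (ZL.m (nat_lit 5874) (ZL.m (nat_lit 3481) (ZL.p (nat_lit 75863) (ZL.m (nat_lit 1738) (ZL.p (nat_lit 7885) (ZL.m (nat_lit 2571) (ZL.m (nat_lit 17091) (ZL.m (nat_lit 49132) (ZL.m (nat_lit 5446) (ZL.m (nat_lit 22209) (ZL.m (nat_lit 30365) (ZL.p (nat_lit 38832) (ZL.m (nat_lit 2324) (ZL.m (nat_lit 8489) (ZL.m (nat_lit 3889) (ZL.p (nat_lit 43502) (ZL.m (nat_lit 1944) (ZL.p (nat_lit 20511) (ZL.p (nat_lit 14318) (ZL.m (nat_lit 15514) (ZL.p (nat_lit 7905) (ZL.m (nat_lit 20506) ZL.n)))))))))))))))))))))) (ZL.p (nat_lit 5286) (ZL.p (nat_lit 20327) (ZL.m (nat_lit 127579) (ZL.p (nat_lit 927) (ZL.m (nat_lit 15636) (ZL.m (nat_lit 48203) (ZL.p (nat_lit 66141) (ZL.p (nat_lit 75269) (ZL.m (nat_lit 8452) (ZL.m (nat_lit 23119) (ZL.p (nat_lit 11603) (ZL.p (nat_lit 6981) (ZL.m (nat_lit 477) (ZL.p (nat_lit 22227) (ZL.m (nat_lit 414) (ZL.m (nat_lit 13600) (ZL.m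 (nat_lit 6336) (ZL.p (nat_lit 12514) (ZL.m (nat_lit 14807) (ZL.m (nat_lit 2330) (ZL.p (nat_lit 45785) (ZL.m (nat_lit 13439) (ZL.m (nat_lit 13899) (ZL.p (nat_lit 37689) (ZL.p (nat_lit 7223) (ZL.m (nat_lit 35937) (ZL.p (nat_lit 13149) (ZL.m (nat_lit 5870) (ZL.p (nat_lit 21348) (ZL.m (nat_lit 316) (ZL.p (nat_lit 5440) (ZL.m (nat_lit 2786) (ZL.m (nat_lit 4347) (ZL.m (nat_lit 3586) (ZL.m (nat_lit 5381) (ZL.m (nat_lit 28106) (ZL.p (nat_lit 2108) ZL.n))))))))))))))))))))))))))))))))))))) ZL.n ZL.n)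
  (Z4.mk ZL.n ZL.n ZL.n ZL.n)

def e61 : El := El.mk (W2.mk (nat_lit 3) (nat_lit 2) (nat_lit 7) (nat_lit 8)) (nat_lit 454)
  (Z4.mk (ZL.p (nat_lit 4383) (ZL.m (nat_lit 17095) (ZL.m (nat_lit 38946) (ZL.p (nat_lit 7321) (ZL.m (nat_lit 40425) (ZL.m (nat_lit 45149) (ZL.p (nat_lit 30174) (ZL.p (nat_lit 2200) (ZL.p (nat_lit 80712) (ZL.p (nat_lit 21407) (ZL.m (nat_lit 27812) (ZL.m (nat_lit 34519) (ZL.p (nat_lit 46540) (ZL.m (nat_lit 222) (ZL.p (nat_lit 19169) (ZL.m (nat_lit 14068) ZL.n)))))))))))))))) (ZL.p (nat_lit 486) (ZL.p (nat_lit 17778) (ZL.p (nat_lit 12320) (ZL.m (nat_lit 15141) (ZL.m (nat_lit 8145) (ZL.m (nat_lit 17620) (ZL.p (nat_lit 58712) (ZL.p (nat_lit 47125) (ZL.m (nat_lit 149017) (ZL.m (nat_lit 91110) (ZL.p (nat_lit 1840) (ZL.m (nat_lit 71261) ZL.n)))))))))))) ZL.n ZL.n)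
  (Z4.mk ZL.n ZL.n ZL.n ZL.n)
  (Z4.mk (ZL.p (nat_lit 2195) (ZL.m (nat_lit 2405) (ZL.m (nat_lit 12422) (ZL.p (nat_lit 3755) (ZL.p (nat_lit 35546) (ZL.p (nat_lit 9502) (ZL.m (nat_lit 11675) (ZL.m (nat_lit 15774) (ZL.m (nat_lit 3607) (ZL.m (nat_lit 3347) (ZL.p (nat_lit 7915) (ZL.p (nat_lit 6346) (ZL.p (nat_lit 2933) (ZL.p (nat_lit 29733) (ZL.p (nat_lit 5985) (ZL.m (nat_lit 318) (ZL.p (nat_lit 50089) (ZL.p (nat_lit 57849) (ZL.m (nat_lit 22565) (ZL.p (nat_lit 17024) (ZL.p (nat_lit 6385) (ZL.p (nat_lit 5752) ZL.n)))))))))))))))))))))) (ZL.m (nat_lit 1142) (ZL.m (nat_lit 7890) (ZL.m (nat_lit 4730) (ZL.m (nat_lit 4087) (ZL.p (nat_lit 6005) (ZL.p (nat_lit 3481) (ZL.p (nat_lit 20717) (ZL.p (nat_lit 19266) (ZL.m (nat_lit 737) (ZL.p (nat_lit 13099) (ZL.p (nat_lit 7812) (ZL.p (nat_lit 9205) (ZL.m (nat_lit 3389) (ZL.m (nat_lit 32799) (ZL.m (nat_lit 36477) (ZL.p (nat_lit 12422) (ZL.m (nat_lit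 23914) (ZL.m (nat_lit 16202) (ZL.p (nat_lit 7431) (ZL.p (nat_lit 13438) (ZL.m (nat_lit 61238) (ZL.p (nat_lit 18570) (ZL.p (nat_lit 25271) (ZL.m (nat_lit 11632) (ZL.p (nat_lit 72140) (ZL.m (nat_lit 15609) (ZL.m (nat_lit 98290) (ZL.m (nat_lit 70805) (ZL.p (nat_lit 84005) (ZL.p (nat_lit 5934) (ZL.p (nat_lit 20967) (ZL.p (nat_lit 33323) (ZL.m (nat_lit 78196) (ZL.p (nat_lit 14436) (ZL.p (nat_lit 17495) (ZL.m (nat_lit 21045) (ZL.p (nat_lit 14826) ZL.n))))))))))))))))))))))))))))))))))))) ZL.n ZL.n)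
  (Z4.mk ZL.n ZL.n ZL.n ZL.n)

def e62 : El := El.mk (W2.mk (nat_lit 3) (nat_lit 2) (nat_lit 2) (nat_lit 6)) (nat_lit 389)
  (Z4.mk (ZL.p (nat_lit 3848) (ZL.m (nat_lit 7653) (ZL.m (nat_lit 28767) (ZL.m (nat_lit 11207) (ZL.p (nat_lit 5972) (ZL.m (nat_lit 45529) (ZL.m (nat_lit 25418) (ZL.p (nat_lit 2707) (ZL.p (nat_lit 2952) (ZL.p (nat_lit 4439) (ZL.p (nat_lit 16689) (ZL.p (nat_lit 12043) (ZL.p (nat_lit 5309) (ZL.p (nat_lit 8724) (ZL.p (nat_lit 19063) (ZL.p (nat_lit 4445) ZL.n)))))))))))))))) ZL.n ZL.n ZL.n)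
  (Z4.mk ZL.n ZL.n ZL.n ZL.n)
  (Z4.mk (ZL.p (nat_lit 5393) (ZL.m (nat_lit 224) (ZL.m (nat_lit 7629) (ZL.m (nat_lit 1677) (ZL.p (nat_lit 2469) (ZL.m (nat_lit 4871) (ZL.p (nat_lit 204) (ZL.m (nat_lit 847) (ZL.m (nat_lit 1549) (ZL.p (nat_lit 14207) (ZL.m (nat_lit 31545) (ZL.p (nat_lit 17441) (ZL.p (nat_lit 3000) (ZL.p (nat_lit 25323) (ZL.m (nat_lit 622) (ZL.p (nat_lit 27028) ZL.n)))))))))))))))) ZL.n ZL.n ZL.n)
  (Z4.mk ZL.n ZL.n ZL.n ZL.n)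

def e63 : El := El.mk (W2.mk (nat_lit 3) (nat_lit 2) (nat_lit 7) (nat_lit 5)) (nat_lit 660)
  (Z4.mk (ZL.m (nat_lit 3311) (ZL.p (nat_lit 2576) (ZL.p (nat_lit 15373) (ZL.m (nat_lit 4738) (ZL.m (nat_lit 51401) (ZL.m (nat_lit 30596) (ZL.p (nat_lit 55867) (ZL.m (nat_lit 16248) (ZL.m (nat_lit 1860) (ZL.m (nat_lit 5196) (ZL.m (nat_lit 14381) (ZL.p (nat_lit 7204) (ZL.p (nat_lit 2066) (ZL.p (nat_lit 4500) (ZL.p (nat_lit 53417) (ZL.p (nat_lit 8749) ZL.n)))))))))))))))) ZL.n ZL.n ZL.n)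
  (Z4.mk (ZL.p (nat_lit 11427) (ZL.p (nat_lit 9726) (ZL.m (nat_lit 23528) (ZL.p (nat_lit 21989) (ZL.m (nat_lit 17430) (ZL.m (nat_lit 85800) (ZL.p (nat_lit 7817) (ZL.m (nat_lit 9776) (ZL.m (nat_lit 14450) (ZL.m (nat_lit 34282) (ZL.m (nat_lit 47154) (ZL.m (nat_lit 34281) (ZL.m (nat_lit 26068) (ZL.m (nat_lit 25405) (ZL.m (nat_lit 9326) (ZL.m (nat_lit 54077) (ZL.m (nat_lit 179743) (ZL.p (nat_lit 24224) (ZL.p (nat_lit 86892) (ZL.m (nat_lit 41565) (ZL.m (nat_lit 18509) (ZL.m (nat_lit 66564) (ZL.p (nat_lit 15236) (ZL.p (nat_lit 9569) (ZL.m (nat_lit 21957) (ZL.m (nat_lit 14032) ZL.n)))))))))))))))))))))))))) ZL.n ZL.n ZL.n)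
  (Z4.mk (ZL.p (nat_lit 3397) (ZL.m (nat_lit 556) (ZL.m (nat_lit 211) (ZL.p (nat_lit 4909) (ZL.p (nat_lit 4775) (ZL.m (nat_lit 21558) (ZL.m (nat_lit 49467) (ZL.m (nat_lit 14316) (ZL.m (nat_lit 4064) (ZL.p (nat_lit 14656) (ZL.p (nat_lit 38112) (ZL.m (nat_lit 8555) (ZL.p (nat_lit 28731) (ZL.m (nat_lit 42673) (ZL.m (nat_lit 2380) (ZL.p (nat_lit 9715) (ZL.p (nat_lit 1763) (ZL.m (nat_lit 33716) (ZL.p (nat_lit 22565) (ZL.m (nat_lit 17024) (ZL.m (nat_lit 6385) (ZL.m (nat_lit 5752) ZL.n)))))))))))))))))))))) ZL.n ZL.n ZL.n)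
  (Z4.mk (ZL.p (nat_lit 13504) (ZL.p (nat_lit 11413) (ZL.m (nat_lit 71271) (ZL.p (nat_lit 17709) (ZL.m (nat_lit 89616) (ZL.p (nat_lit 16763) (ZL.m (nat_lit 4217) (ZL.p (nat_lit 52494) (ZL.p (nat_lit 2652) (ZL.p (nat_lit 6827) (ZL.p (nat_lit 25296) (ZL.m (nat_lit 215) (ZL.m (nat_lit 13405) (ZL.p (nat_lit 101133) (ZL.m (nat_lit 113713) (ZL.p (nat_lit 64374) (ZL.m (nat_lit 69917) (ZL.p (nat_lit 50811) (ZL.p (nat_lit 19080) (ZL.p (nat_lit 1155) (ZL.m (nat_lit 87302) (ZL.m (nat_lit 88126) ZL.n)))))))))))))))))))))) ZL.n ZL.n ZL.n)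

def e64 : El := El.mk (W2.mk (nat_lit 3) (nat_lit 2) (nat_lit 3) (nat_lit 1)) (nat_lit 261)
  (Z4.mk (ZL.p (nat_lit 6073) (ZL.m (nat_lit 6186) (ZL.m (nat_lit 20035) (ZL.m (nat_lit 71963) (ZL.m (nat_lit 985) (ZL.p (nat_lit 39058) (ZL.p (nat_lit 17480) (ZL.p (nat_lit 40218) (ZL.m (nat_lit 6392) (ZL.p (nat_lit 13691) (ZL.p (nat_lit 20522) (ZL.p (nat_lit 42901) (ZL.m (nat_lit 5682) (ZL.m (nat_lit 814) (ZL.m (nat_lit 4596) (ZL.p (nat_lit 4268) ZL.n)))))))))))))))) (ZL.p (nat_lit 2063) (ZL.p (nat_lit 6430) (ZL.m (nat_lit 10682) (ZL.m (nat_lit 30601) (ZL.m (nat_lit 19217) (ZL.p (nat_lit 85367) (ZL.p (nat_lit 70873) (ZL.m (nat_lit 64466) (ZL.m (nat_lit 11734) (ZL.m (nat_lit 69675) (ZL.p (nat_lit 14163) (ZL.m (nat_lit 4783) ZL.n)))))))))))) ZL.n ZL.n)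
  (Z4.mk ZL.n ZL.n ZL.n ZL.n)
  (Z4.mk (ZL.p (nat_lit 4633) (ZL.m (nat_lit 1221) (ZL.p (nat_lit 19660) (ZL.p (nat_lit 10036) (ZL.p (nat_lit 21066) (ZL.p (nat_lit 82415) (ZL.m (nat_lit 23080) (ZL.m (nat_lit 24850) (ZL.p (nat_lit 5557) (ZL.p (nat_lit 27442) (ZL.p (nat_lit 17281) (ZL.m (nat_lit 23832) (ZL.p (nat_lit 25859) (ZL.p (nat_lit 7785) (ZL.p (nat_lit 2843) (ZL.m (nat_lit 30620) (ZL.m (nat_lit 33397) (ZL.m (nat_lit 16640) (ZL.m (nat_lit 17471) (ZL.p (nat_lit 4577) (ZL.m (nat_lit 5539) (ZL.m (nat_lit 1514) ZL.n)))))))))))))))))))))) (ZL.m (nat_lit 5864) (ZL.p (nat_lit 30583) (ZL.m (nat_lit 53120) (ZL.m (nat_lit 24668) (ZL.m (nat_lit 45706) (ZL.m (nat_lit 167071) (ZL.m (nat_lit 58970) (ZL.m (nat_lit 43338) (ZL.m (nat_lit 1221) (ZL.m (nat_lit 2370) (ZL.p (nat_lit 5804) (ZL.m (nat_lit 15292) (ZL.p (nat_lit 13585) (ZL.p (nat_lit 11858) (ZL.p (nat_lit 2351) (ZL.m (nat_lit 7178)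 (ZL.p (nat_lit 25273) (ZL.m (nat_lit 22553) (ZL.m (nat_lit 20869) (ZL.p (nat_lit 7230) (ZL.p (nat_lit 48344) (ZL.p (nat_lit 996) (ZL.m (nat_lit 2426) (ZL.m (nat_lit 15419) (ZL.m (nat_lit 7166) (ZL.p (nat_lit 13870) (ZL.p (nat_lit 6998) (ZL.m (nat_lit 31684) (ZL.p (nat_lit 44272) (ZL.m (nat_lit 10471) (ZL.m (nat_lit 44269) (ZL.m (nat_lit 23436) (ZL.m (nat_lit 48203) (ZL.m (nat_lit 9602) (ZL.m (nat_lit 13388) (ZL.m (nat_lit 28304) (ZL.p (nat_lit 3351) ZL.n))))))))))))))))))))))))))))))))))))) ZL.n ZL.n)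
  (Z4.mk ZL.n ZL.n ZL.n ZL.n)

def e65 : El := El.mk (W2.mk (nat_lit 3) (nat_lit 2) (nat_lit 3) (nat_lit 4)) (nat_lit 644)
  (Z4.mk (ZL.p (nat_lit 6420) (ZL.m (nat_lit 10078) (ZL.m (nat_lit 32748) (ZL.m (nat_lit 18669) (ZL.p (nat_lit 14504) (ZL.m (nat_lit 34215) (ZL.p (nat_lit 9303) (ZL.p (nat_lit 21142) (ZL.m (nat_lit 5868) (ZL.m (nat_lit 1614) (ZL.m (nat_lit 33609) (ZL.p (nat_lit 63883) (ZL.p (nat_lit 19158) (ZL.m (nat_lit 814) (ZL.m (nat_lit 4596) (ZL.p (nat_lit 4268) ZL.n)))))))))))))))) ZL.n ZL.n ZL.n)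
  (Z4.mk (ZL.m (nat_lit 3235) (ZL.m (nat_lit 441) (ZL.p (nat_lit 19912) (ZL.p (nat_lit 4584) (ZL.p (nat_lit 6178) (ZL.m (nat_lit 206) (ZL.p (nat_lit 7578) (ZL.p (nat_lit 31047) (ZL.m (nat_lit 37468) (ZL.m (nat_lit 7061) (ZL.p (nat_lit 22939) (ZL.p (nat_lit 11183) (ZL.m (nat_lit 31544) (ZL.p (nat_lit 13087) (ZL.p (nat_lit 3900) (ZL.m (nat_lit 4960) (ZL.p (nat_lit 41520) (ZL.m (nat_lit 22131) (ZL.p (nat_lit 60523) (ZL.p (nat_lit 22722) (ZL.m (nat_lit 40618) (ZL.p (nat_lit 48097) (ZL.m (nat_lit 15623) (ZL.m (nat_lit 49822) (ZL.p (nat_lit 8216) (ZL.p (nat_lit 67680) (ZL.m (nat_lit 127592) ZL.n))))))))))))))))))))))))))) ZL.n ZL.n ZL.n)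
  (Z4.mk (ZL.p (nat_lit 2236) (ZL.m (nat_lit 5036) (ZL.p (nat_lit 4768) (ZL.m (nat_lit 2853) (ZL.m (nat_lit 46750) (ZL.m (nat_lit 18473) (ZL.m (nat_lit 37368) (ZL.p (nat_lit 14167) (ZL.m (nat_lit 9460) (ZL.p (nat_lit 6774) (ZL.p (nat_lit 42911) (ZL.p (nat_lit 23832) (ZL.m (nat_lit 25859) (ZL.m (nat_lit 7785) (ZL.m (nat_lit 2843) (ZL.p (nat_lit 30620) (ZL.p (nat_lit 33397) (ZL.p (nat_lit 16640) (ZL.p (nat_lit 17471) (ZL.m (nat_lit 4577) (ZL.p (nat_lit 5539) (ZL.p (nat_lit 1514) ZL.n)))))))))))))))))))))) ZL.n ZL.n ZL.n)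
  (Z4.mk (ZL.p (nat_lit 13693) (ZL.m (nat_lit 17940) (ZL.m (nat_lit 20764) (ZL.p (nat_lit 1059) (ZL.p (nat_lit 664) (ZL.p (nat_lit 7039) (ZL.p (nat_lit 17869) (ZL.p (nat_lit 35647) (ZL.p (nat_lit 12113) (ZL.m (nat_lit 22032) (ZL.m (nat_lit 12446) (ZL.p (nat_lit 41037) (ZL.p (nat_lit 2463) (ZL.p (nat_lit 11108) (ZL.p (nat_lit 15383) (ZL.m (nat_lit 19672) (ZL.m (nat_lit 51737) (ZL.m (nat_lit 11745) (ZL.m (nat_lit 2368) (ZL.m (nat_lit 15691) (ZL.p (nat_lit 68472) (ZL.p (nat_lit 45302) (ZL.m (nat_lit 200120) ZL.n))))))))))))))))))))))) ZL.n ZL.n ZL.n)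

def e66 : El := El.mk (W2.mk (nat_lit 3) (nat_lit 2) (nat_lit 6) (nat_lit 5)) (nat_lit 649)
  (Z4.mk (ZL.p (nat_lit 1766) (ZL.m (nat_lit 7540) (ZL.m (nat_lit 47664) (ZL.m (nat_lit 8944) (ZL.p (nat_lit 63959) (ZL.m (nat_lit 11390) (ZL.p (nat_lit 23973) (ZL.m (nat_lit 27534) (ZL.m (nat_lit 15652) (ZL.m (nat_lit 39160) (ZL.m (nat_lit 35683) (ZL.m (nat_lit 26151) (ZL.m (nat_lit 30451) (ZL.m (nat_lit 28721) (ZL.p (nat_lit 5433) (ZL.p (nat_lit 3718) ZL.n)))))))))))))))) ZL.n ZL.n ZL.n)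
  (Z4.mk (ZL.p (nat_lit 13336) (ZL.p (nat_lit 7443) (ZL.p (nat_lit 23722) (ZL.m (nat_lit 32852) (ZL.p (nat_lit 1612) (ZL.p (nat_lit 40843) (ZL.m (nat_lit 164) (ZL.p (nat_lit 8315) (ZL.m (nat_lit 8347) (ZL.m (nat_lit 54700) (ZL.m (nat_lit 140209) (ZL.p (nat_lit 1859) (ZL.p (nat_lit 26560) (ZL.m (nat_lit 5710) (ZL.p (nat_lit 4873) (ZL.p (nat_lit 102423) (ZL.p (nat_lit 51955) (ZL.m (nat_lit 16212) (ZL.p (nat_lit 33712) (ZL.p (nat_lit 30364) (ZL.m (nat_lit 188463) (ZL.m (nat_lit 81382) (ZL.m (nat_lit 20509) (ZL.m (nat_lit 46670) (ZL.m (nat_lit 79222) (ZL.m (nat_lit 113809) (ZL.m (nat_lit 728) (ZL.p (nat_lit 172387) ZL.n)))))))))))))))))))))))))))) ZL.n ZL.n ZL.n)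
  (Z4.mk (ZL.p (nat_lit 1053) (ZL.m (nat_lit 10212) (ZL.p (nat_lit 22843) (ZL.m (nat_lit 2118) (ZL.m (nat_lit 12613) (ZL.p (nat_lit 3792) (ZL.p (nat_lit 30229) (ZL.p (nat_lit 28386) (ZL.p (nat_lit 11195) (ZL.p (nat_lit 19208) (ZL.m (nat_lit 4259) (ZL.p (nat_lit 6097) (ZL.m (nat_lit 14982) (ZL.p (nat_lit 32822) (ZL.m (nat_lit 6553) (ZL.m (nat_lit 21613) (ZL.p (nat_lit 39508) (ZL.m (nat_lit 1832) (ZL.p (nat_lit 47476) (ZL.m (nat_lit 9272) (ZL.m (nat_lit 38939) (ZL.p (nat_lit 28090) ZL.n)))))))))))))))))))))) ZL.n ZL.n ZL.n)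
  (Z4.mk (ZL.p (nat_lit 8205) (ZL.p (nat_lit 12615) (ZL.m (nat_lit 24270) (ZL.m (nat_lit 451) (ZL.p (nat_lit 21129) (ZL.m (nat_lit 2602) (ZL.p (nat_lit 4205) (ZL.p (nat_lit 21225) (ZL.p (nat_lit 57011) (ZL.p (nat_lit 119861) (ZL.p (nat_lit 3287) (ZL.p (nat_lit 35122) (ZL.p (nat_lit 6384) (ZL.p (nat_lit 23983) (ZL.p (nat_lit 93762) (ZL.m (nat_lit 41456) (ZL.m (nat_lit 73182) (ZL.p (nat_lit 29232) (ZL.m (nat_lit 194315) (ZL.m (nat_lit 8799) (ZL.m (nat_lit 24358) (ZL.m (nat_lit 69058) (ZL.p (nat_lit 13778) (ZL.p (nat_lit 240583) ZL.n)))))))))))))))))))))))) ZL.n ZL.n ZL.n)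

def e67 : El := El.mk (W2.mk (nat_lit 3) (nat_lit 2) (nat_lit 4) (nat_lit 2)) (nat_lit 640)
  (Z4.mk (ZL.p (nat_lit 14724) (ZL.m (nat_lit 17623) (ZL.m (nat_lit 58003) (ZL.m (nat_lit 2394) (ZL.p (nat_lit 27303) (ZL.p (nat_lit 662) (ZL.m (nat_lit 14748) (ZL.p (nat_lit 29421) (ZL.p (nat_lit 110750) (ZL.m (nat_lit 19153) (ZL.m (nat_lit 8039) (ZL.m (nat_lit 31958) (ZL.p (nat_lit 10053) (ZL.m (nat_lit 4300) (ZL.m (nat_lit 47566) (ZL.m (nat_lit 14240) ZL.n)))))))))))))))) ZL.n ZL.n ZL.n)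
  (Z4.mk (ZL.m (nat_lit 5157) (ZL.p (nat_lit 32988) (ZL.m (nat_lit 25551) (ZL.p (nat_lit 728) (ZL.p (nat_lit 712) (ZL.m (nat_lit 41423) (ZL.m (nat_lit 71405) (ZL.p (nat_lit 18226) (ZL.p (nat_lit 63835) (ZL.p (nat_lit 44262) (ZL.m (nat_lit 156683) (ZL.m (nat_lit 7915) (ZL.p (nat_lit 59224) (ZL.m (nat_lit 16428) (ZL.m (nat_lit 13636) (ZL.p (nat_lit 26070) (ZL.m (nat_lit 88804) (ZL.m (nat_lit 31988) (ZL.m (nat_lit 171215) (ZL.m (nat_lit 77059) (ZL.p (nat_lit 1972) (ZL.m (nat_lit 80562) (ZL.p (nat_lit 3357) (ZL.p (nat_lit 21696) (ZL.m (nat_lit 103976) (ZL.p (nat_lit 20225) (ZL.m (nat_lit 161392) (ZL.m (nat_lit 115260) (ZL.p (nat_lit 8306) ZL.n))))))))))))))))))))))))))))) ZL.n ZL.n ZL.n)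
  (Z4.mk ZL.n ZL.n ZL.n ZL.n)
  (Z4.mk ZL.n ZL.n ZL.n ZL.n)

def e68 : El := El.mk (W2.mk (nat_lit 3) (nat_lit 2) (nat_lit 4) (nat_lit 7)) (nat_lit 641)
  (Z4.mk (ZL.m (nat_lit 2926) (ZL.m (nat_lit 8187) (ZL.m (nat_lit 23803) (ZL.p (nat_lit 13061) (ZL.m (nat_lit 35) (ZL.p (nat_lit 2516) (ZL.m (nat_lit 13147) (ZL.m (nat_lit 8876) (ZL.m (nat_lit 55369) (ZL.p (nat_lit 28118) (ZL.m (nat_lit 4628) (ZL.p (nat_lit 9551) (ZL.p (nat_lit 6621) (ZL.p (nat_lit 991) (ZL.p (nat_lit 1948) (ZL.p (nat_lit 929) ZL.n)))))))))))))))) ZL.n ZL.n ZL.n)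
  (Z4.mk (ZL.p (nat_lit 1309) (ZL.p (nat_lit 1003) (ZL.m (nat_lit 6806) (ZL.p (nat_lit 9185) (ZL.p (nat_lit 491) (ZL.p (nat_lit 15747) (ZL.m (nat_lit 5609) (ZL.m (nat_lit 15790) (ZL.p (nat_lit 10621) (ZL.p (nat_lit 6171) (ZL.m (nat_lit 18024) (ZL.m (nat_lit 4647) (ZL.p (nat_lit 12038) (ZL.m (nat_lit 1063) (ZL.p (nat_lit 9720) (ZL.p (nat_lit 14978) (ZL.p (nat_lit 2043) (ZL.m (nat_lit 3118) (ZL.m (nat_lit 32345) (ZL.m (nat_lit 33936) (ZL.p (nat_lit 41497) (ZL.m (nat_lit 34097) (ZL.p (nat_lit 119009) (ZL.p (nat_lit 45750) (ZL.m (nat_lit 14609) (ZL.p (nat_lit 28519) (ZL.p (nat_lit 49037) (ZL.p (nat_lit 64311) (ZL.p (nat_lit 4015) (ZL.p (nat_lit 9479) ZL.n)))))))))))))))))))))))))))))) ZL.n ZL.n ZL.n)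
  (Z4.mk ZL.n ZL.n ZL.n ZL.n)
  (Z4.mk ZL.n ZL.n ZL.n ZL.n)

def e69 : El := El.mk (W2.mk (nat_lit 3) (nat_lit 2) (nat_lit 4) (nat_lit 6)) (nat_lit 741)
  (Z4.mk (ZL.p (nat_lit 894) (ZL.m (nat_lit 3283) (ZL.m (nat_lit 198) (ZL.p (nat_lit 2205) (ZL.m (nat_lit 2156) (ZL.p (nat_lit 8134) (ZL.m (nat_lit 27444) (ZL.m (nat_lit 49585) (ZL.p (nat_lit 10216) (ZL.p (nat_lit 27961) (ZL.p (nat_lit 60516) (ZL.m (nat_lit 42748) (ZL.m (nat_lit 11102) (ZL.p (nat_lit 9260) (ZL.m (nat_lit 15829) (ZL.m (nat_lit 6588) ZL.n)))))))))))))))) ZL.n ZL.n ZL.n)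
  (Z4.mk (ZL.m (nat_lit 3969) (ZL.p (nat_lit 7658) (ZL.p (nat_lit 5464) (ZL.p (nat_lit 976) (ZL.m (nat_lit 72) (ZL.m (nat_lit 610) (ZL.p (nat_lit 2037) (ZL.p (nat_lit 19411) (ZL.p (nat_lit 8901) (ZL.p (nat_lit 6161) (ZL.m (nat_lit 19346) (ZL.m (nat_lit 6375) (ZL.p (nat_lit 56535) (ZL.m (nat_lit 18299) (ZL.m (nat_lit 6765) (ZL.m (nat_lit 947) (ZL.p (nat_lit 25481) (ZL.m (nat_lit 34173) (ZL.p (nat_lit 33831) (ZL.m (nat_lit 1976) (ZL.m (nat_lit 39289) (ZL.m (nat_lit 9100) (ZL.p (nat_lit 72565) (ZL.p (nat_lit 162) (ZL.p (nat_lit 42098) (ZL.p (nat_lit 87573) (ZL.m (nat_lit 116491) (ZL.p (nat_lit 52179) (ZL.m (nat_lit 9789) (ZL.p (nat_lit 2063) ZL.n)))))))))))))))))))))))))))))) ZL.n ZL.n ZL.n)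
  (Z4.mk (ZL.p (nat_lit 2185) (ZL.m (nat_lit 2035) (ZL.p (nat_lit 18392) (ZL.p (nat_lit 17194) (ZL.m (nat_lit 33624) (ZL.m (nat_lit 49452) (ZL.m (nat_lit 18184) (ZL.p (nat_lit 28702) (ZL.m (nat_lit 5477) (ZL.p (nat_lit 20296) (ZL.p (nat_lit 46396) (ZL.m (nat_lit 9731) (ZL.m (nat_lit 4871) (ZL.m (nat_lit 11888) (ZL.p (nat_lit 3941) (ZL.m (nat_lit 7400) (ZL.p (nat_lit 7145) (ZL.p (nat_lit 9065) (ZL.p (nat_lit 15113) (ZL.p (nat_lit 15514) (ZL.m (nat_lit 7905) (ZL.p (nat_lit 20506) ZL.n)))))))))))))))))))))) ZL.n ZL.n ZL.n)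
  (Z4.mk (ZL.m (nat_lit 5274) (ZL.p (nat_lit 6327) (ZL.m (nat_lit 5607) (ZL.p (nat_lit 372) (ZL.p (nat_lit 1510) (ZL.p (nat_lit 2305) (ZL.m (nat_lit 2256) (ZL.m (nat_lit 10608) (ZL.m (nat_lit 6383) (ZL.m (nat_lit 1448) (ZL.p (nat_lit 9975) (ZL.p (nat_lit 7969) (ZL.p (nat_lit 2041) (ZL.p (nat_lit 22442) (ZL.p (nat_lit 42382) (ZL.p (nat_lit 15518) (ZL.p (nat_lit 9419) (ZL.m (nat_lit 3711) (ZL.p (nat_lit 18950) (ZL.p (nat_lit 9995) (ZL.m (nat_lit 61792) (ZL.p (nat_lit 5769) (ZL.p (nat_lit 143987) (ZL.m (nat_lit 27666) (ZL.m (nat_lit 19199) ZL.n))))))))))))))))))))))))) ZL.n ZL.n ZL.n)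

def e70 : El := El.mk (W2.mk (nat_lit 3) (nat_lit 4) (nat_lit 1) (nat_lit 6)) (nat_lit 145)
  (Z4.mk (ZL.m (nat_lit 9476) (ZL.p (nat_lit 458) (ZL.m (nat_lit 4764) (ZL.p (nat_lit 52946) (ZL.p (nat_lit 11265) (ZL.m (nat_lit 17502) (ZL.p (nat_lit 581) (ZL.p (nat_lit 13530) (ZL.m (nat_lit 3774) (ZL.p (nat_lit 8651) (ZL.m (nat_lit 35759) (ZL.p (nat_lit 62542) (ZL.p (nat_lit 16586) (ZL.m (nat_lit 20980) (ZL.m (nat_lit 16277) (ZL.m (nat_lit 4788) ZL.n)))))))))))))))) (ZL.m (nat_lit 6079) (ZL.m (nat_lit 3703) (ZL.p (nat_lit 98717) (ZL.p (nat_lit 10629) (ZL.p (nat_lit 14422) (ZL.p (nat_lit 10755) (ZL.m (nat_lit 17801) (ZL.m (nat_lit 7100) (ZL.p (nat_lit 1320) (ZL.m (nat_lit 9535) (ZL.p (nat_lit 33047) (ZL.p (nat_lit 4781) ZL.n)))))))))))) ZL.n ZL.n)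
  (Z4.mk (ZL.m (nat_lit 2170) (ZL.p (nat_lit 13229) (ZL.p (nat_lit 157474) (ZL.m (nat_lit 53690) (ZL.p (nat_lit 14134) (ZL.m (nat_lit 62106) (ZL.m (nat_lit 50424) (ZL.p (nat_lit 7082) (ZL.m (nat_lit 17009) (ZL.p (nat_lit 72454) (ZL.m (nat_lit 15279) (ZL.m (nat_lit 57651) (ZL.m (nat_lit 35293) (ZL.p (nat_lit 37009) (ZL.p (nat_lit 13165) (ZL.m (nat_lit 35063) (ZL.m (nat_lit 17780) (ZL.p (nat_lit 20972) (ZL.m (nat_lit 21136) (ZL.m (nat_lit 13998) (ZL.m (nat_lit 24568) (ZL.m (nat_lit 26241) (ZL.m (nat_lit 10078) (ZL.p (nat_lit 6347) (ZL.p (nat_lit 43023) (ZL.p (nat_lit 49131) (ZL.p (nat_lit 33216) (ZL.m (nat_lit 733) (ZL.p (nat_lit 4522) (ZL.p (nat_lit 1119) ZL.n)))))))))))))))))))))))))))))) (ZL.m (nat_lit 8263) (ZL.p (nat_lit 67664) (ZL.m (nat_lit 3342) (ZL.p (nat_lit 10974) (ZL.p (nat_lit 66422) ZL.n))))) ZL.n ZL.n)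
  (Z4.mk (ZL.m (nat_lit 1751) (ZL.p (nat_lit 8850) (ZL.m (nat_lit 35114) (ZL.m (nat_lit 2992) (ZL.p (nat_lit 37000) (ZL.m (nat_lit 11561) (ZL.p (nat_lit 4086) (ZL.m (nat_lit 10385) (ZL.p (nat_lit 10) (ZL.p (nat_lit 67591) (ZL.m (nat_lit 54829) (ZL.m (nat_lit 25252) (ZL.m (nat_lit 5549) (ZL.m (nat_lit 10642) (ZL.p (nat_lit 2944) (ZL.p (nat_lit 7720) (ZL.p (nat_lit 8099) (ZL.m (nat_lit 651) (ZL.m (nat_lit 22433) (ZL.p (nat_lit 18283) (ZL.m (nat_lit 16730) (ZL.m (nat_lit 10373) ZL.n)))))))))))))))))))))) (ZL.m (nat_lit 20594) (ZL.p (nat_lit 13180) (ZL.m (nat_lit 2382) (ZL.m (nat_lit 7302) (ZL.p (nat_lit 45225) (ZL.m (nat_lit 12983) (ZL.p (nat_lit 53852) (ZL.m (nat_lit 6984) (ZL.m (nat_lit 20456) (ZL.m (nat_lit 89166) (ZL.p (nat_lit 155586) (ZL.p (nat_lit 1234) (ZL.p (nat_lit 18036) (ZL.p (nat_lit 7401) (ZL.p (nat_lit 38645) (ZL.m (nat_lit 4592) (ZL.p (nat_lit 29822) (ZL.m (nat_lit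 3955) (ZL.m (nat_lit 22319) (ZL.m (nat_lit 29726) (ZL.m (nat_lit 39779) (ZL.p (nat_lit 24877) (ZL.p (nat_lit 6377) (ZL.p (nat_lit 21815) (ZL.p (nat_lit 14460) (ZL.m (nat_lit 10372) (ZL.p (nat_lit 27086) (ZL.p (nat_lit 4) (ZL.p (nat_lit 5079) (ZL.p (nat_lit 1655) (ZL.m (nat_lit 52873) (ZL.m (nat_lit 20343) (ZL.m (nat_lit 15451) (ZL.p (nat_lit 5884) (ZL.p (nat_lit 14098) (ZL.m (nat_lit 17270) (ZL.p (nat_lit 16425) ZL.n))))))))))))))))))))))))))))))))))))) ZL.n ZL.n)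
  (Z4.mk (ZL.m (nat_lit 3516) (ZL.p (nat_lit 15543) (ZL.m (nat_lit 157666) (ZL.p (nat_lit 19437) (ZL.p (nat_lit 6165) (ZL.m (nat_lit 57487) (ZL.p (nat_lit 8830) (ZL.p (nat_lit 7431) (ZL.m (nat_lit 111214) (ZL.m (nat_lit 2615) (ZL.m (nat_lit 6180) (ZL.p (nat_lit 6763) (ZL.p (nat_lit 9339) (ZL.m (nat_lit 23401) (ZL.m (nat_lit 27059) (ZL.m (nat_lit 34142) (ZL.m (nat_lit 27766) (ZL.m (nat_lit 2610) (ZL.m (nat_lit 12376) (ZL.p (nat_lit 5504) (ZL.p (nat_lit 81339) (ZL.m (nat_lit 23040) (ZL.p (nat_lit 40020) (ZL.m (nat_lit 37777) (ZL.p (nat_lit 27419) (ZL.m (nat_lit 494) ZL.n)))))))))))))))))))))))))) (ZL.m (nat_lit 8722) (ZL.m (nat_lit 143589) (ZL.p (nat_lit 26571) (ZL.p (nat_lit 35083) (ZL.p (nat_lit 17139) (ZL.p (nat_lit 28743) (ZL.p (nat_lit 13563) (ZL.m (nat_lit 42237) (ZL.p (nat_lit 60675) (ZL.m (nat_lit 8026) (ZL.m (nat_lit 14629) (ZL.m (nat_lit 69888) (ZL.p (nat_lit 6516)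 (ZL.p (nat_lit 14537) (ZL.m (nat_lit 355) (ZL.m (nat_lit 5389) (ZL.p (nat_lit 61136) (ZL.p (nat_lit 38911) ZL.n)))))))))))))))))) ZL.n ZL.n)

def e71 : El := El.mk (W2.mk (nat_lit 3) (nat_lit 4) (nat_lit 2) (nat_lit 6)) (nat_lit 593)
  (Z4.mk (ZL.p (nat_lit 7417) (ZL.m (nat_lit 4664) (ZL.p (nat_lit 5995) (ZL.m (nat_lit 53560) (ZL.m (nat_lit 24289) (ZL.p (nat_lit 30455) (ZL.m (nat_lit 15168) (ZL.m (nat_lit 42531) (ZL.p (nat_lit 3773) (ZL.p (nat_lit 778) (ZL.p (nat_lit 29750) (ZL.m (nat_lit 43394) (ZL.m (nat_lit 19472) (ZL.p (nat_lit 5931) (ZL.m (nat_lit 6040) (ZL.m (nat_lit 6588) ZL.n)))))))))))))))) ZL.n ZL.n ZL.n)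
  (Z4.mk (ZL.m (nat_lit 2170) (ZL.m (nat_lit 2035) (ZL.m (nat_lit 88479) (ZL.m (nat_lit 26749) (ZL.p (nat_lit 17165) (ZL.m (nat_lit 52427) (ZL.p (nat_lit 36843) (ZL.p (nat_lit 5894) (ZL.m (nat_lit 1026) (ZL.p (nat_lit 36649) (ZL.m (nat_lit 75269) (ZL.p (nat_lit 144793) (ZL.m (nat_lit 30485) (ZL.p (nat_lit 43200) (ZL.p (nat_lit 15295) (ZL.p (nat_lit 9105) (ZL.m (nat_lit 25880) (ZL.p (nat_lit 60287) (ZL.m (nat_lit 6359) (ZL.p (nat_lit 14461) (ZL.m (nat_lit 9863) (ZL.m (nat_lit 7370) (ZL.m (nat_lit 8907) (ZL.p (nat_lit 974) (ZL.p (nat_lit 49070) (ZL.p (nat_lit 64782) (ZL.p (nat_lit 18618) (ZL.m (nat_lit 5084) (ZL.m (nat_lit 2604) (ZL.m (nat_lit 1363) ZL.n)))))))))))))))))))))))))))))) ZL.n ZL.n ZL.n)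
  (Z4.mk (ZL.p (nat_lit 8680) (ZL.p (nat_lit 2458) (ZL.m (nat_lit 62439) (ZL.m (nat_lit 20293) (ZL.p (nat_lit 28301) (ZL.p (nat_lit 54106) (ZL.p (nat_lit 9587) (ZL.p (nat_lit 12750) (ZL.m (nat_lit 4409) (ZL.p (nat_lit 34983) (ZL.m (nat_lit 9110) (ZL.m (nat_lit 6749) (ZL.p (nat_lit 2750) (ZL.m (nat_lit 946) (ZL.p (nat_lit 3949) (ZL.m (nat_lit 32361) (ZL.p (nat_lit 6407) (ZL.p (nat_lit 5333) (ZL.m (nat_lit 25530) (ZL.m (nat_lit 18986) (ZL.p (nat_lit 1821) (ZL.p (nat_lit 27632) ZL.n)))))))))))))))))))))) ZL.n ZL.n ZL.n)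
  (Z4.mk (ZL.m (nat_lit 3516) (ZL.m (nat_lit 701) (ZL.m (nat_lit 47311) (ZL.m (nat_lit 10733) (ZL.m (nat_lit 31684) (ZL.p (nat_lit 42823) (ZL.p (nat_lit 8805) (ZL.m (nat_lit 4218) (ZL.p (nat_lit 14812) (ZL.p (nat_lit 50282) (ZL.m (nat_lit 161940) (ZL.m (nat_lit 4086) (ZL.p (nat_lit 7403) (ZL.p (nat_lit 14206) (ZL.p (nat_lit 63373) (ZL.p (nat_lit 73466) (ZL.p (nat_lit 22913) (ZL.m (nat_lit 14313) (ZL.m (nat_lit 9252) (ZL.m (nat_lit 2135) (ZL.p (nat_lit 19673) (ZL.m (nat_lit 95965) (ZL.m (nat_lit 10565) (ZL.m (nat_lit 31823) (ZL.p (nat_lit 18649) (ZL.m (nat_lit 494) ZL.n)))))))))))))))))))))))))) ZL.n ZL.n ZL.n)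

def e72 : El := El.mk (W2.mk (nat_lit 3) (nat_lit 4) (nat_lit 3) (nat_lit 1)) (nat_lit 337)
  (Z4.mk (ZL.p (nat_lit 634) (ZL.p (nat_lit 5894) (ZL.p (nat_lit 12127) (ZL.m (nat_lit 54961) (ZL.m (nat_lit 14660) (ZL.p (nat_lit 70675) (ZL.p (nat_lit 1986) (ZL.p (nat_lit 21870) (ZL.p (nat_lit 664) (ZL.p (nat_lit 12793) (ZL.p (nat_lit 54949) (ZL.m (nat_lit 19330) (ZL.m (nat_lit 30522) (ZL.m (nat_lit 814) (ZL.m (nat_lit 4596) (ZL.p (nat_lit 4268) ZL.n)))))))))))))))) (ZL.p (nat_lit 2063) (ZL.p (nat_lit 6430) (ZL.m (nat_lit 10682) (ZL.m (nat_lit 30601) (ZL.m (nat_lit 19217) (ZL.p (nat_lit 85367) (ZL.p (nat_lit 70873) (ZL.m (nat_lit 64466) (ZL.m (nat_lit 11734) (ZL.m (nat_lit 69675) (ZL.p (nat_lit 14163) (ZL.m (nat_lit 4783) ZL.n)))))))))))) ZL.n ZL.n)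
  (Z4.mk (ZL.p (nat_lit 25372) (ZL.p (nat_lit 7741) (ZL.m (nat_lit 3925) (ZL.p (nat_lit 31372) (ZL.m (nat_lit 19946) (ZL.p (nat_lit 2310) (ZL.p (nat_lit 157367) (ZL.m (nat_lit 12362) (ZL.m (nat_lit 10300) (ZL.p (nat_lit 54837) (ZL.p (nat_lit 3443) (ZL.p (nat_lit 21637) (ZL.m (nat_lit 3889) (ZL.p (nat_lit 17171) (ZL.m (nat_lit 8787) (ZL.m (nat_lit 25078) (ZL.m (nat_lit 65062) (ZL.p (nat_lit 13713) (ZL.m (nat_lit 11308) (ZL.m (nat_lit 15021) (ZL.p (nat_lit 1941) (ZL.m (nat_lit 14983) (ZL.m (nat_lit 10032) (ZL.p (nat_lit 12014) (ZL.m (nat_lit 10342) (ZL.m (nat_lit 3053) (ZL.m (nat_lit 32456) (ZL.p (nat_lit 8367) (ZL.p (nat_lit 783) (ZL.m (nat_lit 460) ZL.n)))))))))))))))))))))))))))))) (ZL.p (nat_lit 6135) (ZL.m (nat_lit 102390) ZL.n)) ZL.n ZL.n)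
  (Z4.mk (ZL.p (nat_lit 955) (ZL.p (nat_lit 1462) (ZL.m (nat_lit 61505) (ZL.p (nat_lit 13740) (ZL.p (nat_lit 30974) (ZL.m (nat_lit 27243) (ZL.p (nat_lit 19923) (ZL.p (nat_lit 15978) (ZL.p (nat_lit 2393) (ZL.m (nat_lit 44875) (ZL.m (nat_lit 10017) (ZL.p (nat_lit 36621) (ZL.p (nat_lit 6812) (ZL.m (nat_lit 12406) (ZL.m (nat_lit 3854) (ZL.m (nat_lit 30554) (ZL.p (nat_lit 3318) (ZL.m (nat_lit 16580) (ZL.m (nat_lit 7254) (ZL.p (nat_lit 2346) (ZL.p (nat_lit 20964) (ZL.p (nat_lit 6764) ZL.n)))))))))))))))))))))) (ZL.m (nat_lit 22503) (ZL.p (nat_lit 417) (ZL.m (nat_lit 24412) (ZL.p (nat_lit 32644) (ZL.m (nat_lit 27491) (ZL.m (nat_lit 34178) (ZL.m (nat_lit 39387) (ZL.m (nat_lit 37781) (ZL.m (nat_lit 7804) (ZL.p (nat_lit 42803) (ZL.p (nat_lit 14438) (ZL.m (nat_lit 48114) (ZL.m (nat_lit 55485) (ZL.m (nat_lit 90663) (ZL.p (nat_lit 74758) (ZL.m (nat_lit 990) (ZL.m (nat_lit 20800) (ZL.p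 (nat_lit 51423) (ZL.p (nat_lit 14517) (ZL.m (nat_lit 178368) (ZL.p (nat_lit 92988) (ZL.p (nat_lit 22614) (ZL.m (nat_lit 58533) (ZL.p (nat_lit 34187) (ZL.p (nat_lit 27101) (ZL.m (nat_lit 439) (ZL.m (nat_lit 7252) (ZL.p (nat_lit 8306) (ZL.p (nat_lit 10842) (ZL.m (nat_lit 19452) (ZL.m (nat_lit 85095) (ZL.m (nat_lit 16393) (ZL.p (nat_lit 994) (ZL.m (nat_lit 2935) (ZL.p (nat_lit 42044) (ZL.p (nat_lit 25593) (ZL.m (nat_lit 25715) ZL.n))))))))))))))))))))))))))))))))))))) ZL.n ZL.n)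
  (Z4.mk (ZL.p (nat_lit 28690) (ZL.p (nat_lit 11414) (ZL.p (nat_lit 2469) (ZL.p (nat_lit 3616) (ZL.p (nat_lit 11329) (ZL.p (nat_lit 160456) (ZL.m (nat_lit 11120) (ZL.m (nat_lit 25810) (ZL.m (nat_lit 60391) (ZL.p (nat_lit 30932) (ZL.p (nat_lit 10954) (ZL.m (nat_lit 19894) (ZL.p (nat_lit 4396) (ZL.p (nat_lit 40001) (ZL.m (nat_lit 33324) (ZL.p (nat_lit 15893) (ZL.m (nat_lit 21448) (ZL.p (nat_lit 10440) (ZL.p (nat_lit 33943) (ZL.p (nat_lit 2424) (ZL.m (nat_lit 18918) (ZL.p (nat_lit 2924) (ZL.m (nat_lit 14348) (ZL.p (nat_lit 243) (ZL.p (nat_lit 8665) (ZL.m (nat_lit 2872) ZL.n)))))))))))))))))))))))))) (ZL.p (nat_lit 23547) (ZL.p (nat_lit 88382) (ZL.p (nat_lit 22153) (ZL.m (nat_lit 25597) (ZL.m (nat_lit 1223) (ZL.m (nat_lit 129326) (ZL.m (nat_lit 18312) (ZL.m (nat_lit 15157) (ZL.m (nat_lit 69972) (ZL.m (nat_lit 29009) (ZL.m (nat_lit 9436) (ZL.m (nat_lit 73762) (ZL.p (nat_lit 10511)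 (ZL.m (nat_lit 34689) (ZL.m (nat_lit 7918) (ZL.p (nat_lit 2722) (ZL.p (nat_lit 25522) (ZL.p (nat_lit 66117) ZL.n)))))))))))))))))) ZL.n ZL.n)

def e73 : El := El.mk (W2.mk (nat_lit 3) (nat_lit 4) (nat_lit 3) (nat_lit 2)) (nat_lit 657)
  (Z4.mk (ZL.p (nat_lit 1327) (ZL.m (nat_lit 1890) (ZL.m (nat_lit 13300) (ZL.p (nat_lit 51626) (ZL.p (nat_lit 16318) (ZL.m (nat_lit 75872) (ZL.m (nat_lit 14369) (ZL.m (nat_lit 16282) (ZL.p (nat_lit 1712) (ZL.m (nat_lit 17817) (ZL.m (nat_lit 53312) (ZL.p (nat_lit 22633) (ZL.p (nat_lit 19158) (ZL.m (nat_lit 814) (ZL.m (nat_lit 4596) (ZL.p (nat_lit 4268) ZL.n)))))))))))))))) ZL.n ZL.n ZL.n)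
  (Z4.mk (ZL.p (nat_lit 25372) (ZL.p (nat_lit 4345) (ZL.p (nat_lit 90399) (ZL.p (nat_lit 38512) (ZL.m (nat_lit 22704) (ZL.m (nat_lit 35946) (ZL.p (nat_lit 48581) (ZL.m (nat_lit 7616) (ZL.p (nat_lit 51703) (ZL.p (nat_lit 29058) (ZL.p (nat_lit 6073) (ZL.m (nat_lit 32934) (ZL.m (nat_lit 15708) (ZL.m (nat_lit 25485) (ZL.m (nat_lit 8687) (ZL.p (nat_lit 93439) (ZL.p (nat_lit 298) (ZL.p (nat_lit 84670) (ZL.p (nat_lit 6808) (ZL.m (nat_lit 8869) (ZL.p (nat_lit 5246) (ZL.p (nat_lit 33826) (ZL.m (nat_lit 2792) (ZL.p (nat_lit 10625) (ZL.p (nat_lit 3680) (ZL.m (nat_lit 1627) (ZL.m (nat_lit 12681) (ZL.p (nat_lit 21691) (ZL.m (nat_lit 1401) (ZL.m (nat_lit 654) ZL.n)))))))))))))))))))))))))))))) ZL.n ZL.n ZL.n)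
  (Z4.mk (ZL.p (nat_lit 869) (ZL.p (nat_lit 1515) (ZL.p (nat_lit 21367) (ZL.m (nat_lit 16936) (ZL.p (nat_lit 33069) (ZL.m (nat_lit 56710) (ZL.p (nat_lit 19256) (ZL.p (nat_lit 11554) (ZL.m (nat_lit 8512) (ZL.p (nat_lit 14358) (ZL.m (nat_lit 26823) (ZL.p (nat_lit 35563) (ZL.m (nat_lit 8827) (ZL.m (nat_lit 947) (ZL.p (nat_lit 4362) (ZL.p (nat_lit 13084) (ZL.p (nat_lit 22161) (ZL.p (nat_lit 14205) (ZL.m (nat_lit 25916) (ZL.m (nat_lit 19326) (ZL.m (nat_lit 7333) (ZL.p (nat_lit 43398) ZL.n)))))))))))))))))))))) ZL.n ZL.n ZL.n)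
  (Z4.mk (ZL.p (nat_lit 28690) (ZL.p (nat_lit 4416) (ZL.m (nat_lit 50922) (ZL.m (nat_lit 1576) (ZL.m (nat_lit 44433) (ZL.p (nat_lit 50186) (ZL.p (nat_lit 1096) (ZL.m (nat_lit 53742) (ZL.m (nat_lit 6282) (ZL.p (nat_lit 27644) (ZL.p (nat_lit 86414) (ZL.p (nat_lit 74674) (ZL.m (nat_lit 359) (ZL.m (nat_lit 79807) (ZL.m (nat_lit 11551) (ZL.p (nat_lit 67590) (ZL.m (nat_lit 26736) (ZL.p (nat_lit 17426) (ZL.m (nat_lit 20512) (ZL.m (nat_lit 4303) (ZL.m (nat_lit 9647) (ZL.m (nat_lit 771) (ZL.m (nat_lit 3472) (ZL.p (nat_lit 23585) (ZL.m (nat_lit 15963) (ZL.m (nat_lit 2872) ZL.n)))))))))))))))))))))))))) ZL.n ZL.n ZL.n)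

def e74 : El := El.mk (W2.mk (nat_lit 3) (nat_lit 4) (nat_lit 5) (nat_lit 8)) (nat_lit 530)
  (Z4.mk (ZL.p (nat_lit 6384) (ZL.m (nat_lit 22347) (ZL.m (nat_lit 53535) (ZL.p (nat_lit 18730) (ZL.p (nat_lit 10151) (ZL.m (nat_lit 9296) (ZL.p (nat_lit 4586) (ZL.p (nat_lit 17906) (ZL.p (nat_lit 77560) (ZL.p (nat_lit 29877) (ZL.m (nat_lit 11356) (ZL.m (nat_lit 55784) (ZL.p (nat_lit 74259) (ZL.m (nat_lit 152) (ZL.m (nat_lit 9272) (ZL.m (nat_lit 27786) ZL.n)))))))))))))))) (ZL.p (nat_lit 486) (ZL.p (nat_lit 17778) (ZL.p (nat_lit 12320) (ZL.m (nat_lit 15141) (ZL.m (nat_lit 8145) (ZL.m (nat_lit 17620) (ZL.p (nat_lit 58712) (ZL.p (nat_lit 47125) (ZL.m (nat_lit 149017) (ZL.m (nat_lit 91110) (ZL.p (nat_lit 1840) (ZL.m (nat_lit 71261) ZL.n)))))))))))) ZL.n ZL.n)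
  (Z4.mk (ZL.p (nat_lit 1675) (ZL.m (nat_lit 6723) (ZL.p (nat_lit 20373) (ZL.m (nat_lit 3516) (ZL.m (nat_lit 551) (ZL.m (nat_lit 4127) (ZL.p (nat_lit 9421) (ZL.m (nat_lit 3011) (ZL.p (nat_lit 12795) (ZL.p (nat_lit 20353) (ZL.m (nat_lit 81057) (ZL.m (nat_lit 51161) (ZL.p (nat_lit 26667) (ZL.p (nat_lit 6569) (ZL.m (nat_lit 13436) (ZL.m (nat_lit 17244) (ZL.p (nat_lit 27132) (ZL.m (nat_lit 62049) (ZL.p (nat_lit 7506) (ZL.m (nat_lit 34670) (ZL.m (nat_lit 55248) (ZL.p (nat_lit 218645) (ZL.p (nat_lit 72954) (ZL.p (nat_lit 11577) (ZL.m (nat_lit 36978) (ZL.m (nat_lit 5098) (ZL.p (nat_lit 71687) (ZL.m (nat_lit 41001) (ZL.m (nat_lit 25839) (ZL.m (nat_lit 5631) ZL.n)))))))))))))))))))))))))))))) (ZL.m (nat_lit 10246) (ZL.m (nat_lit 21054) (ZL.m (nat_lit 395) (ZL.p (nat_lit 108534) ZL.n)))) ZL.n ZL.n)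
  (Z4.mk (ZL.m (nat_lit 257) (ZL.m (nat_lit 308) (ZL.p (nat_lit 13905) (ZL.m (nat_lit 1369) (ZL.m (nat_lit 50025) (ZL.p (nat_lit 18955) (ZL.p (nat_lit 26439) (ZL.p (nat_lit 24171) (ZL.p (nat_lit 2867) (ZL.p (nat_lit 7195) (ZL.m (nat_lit 34502) (ZL.p (nat_lit 31616) (ZL.m (nat_lit 7575) (ZL.m (nat_lit 25361) (ZL.m (nat_lit 4376) (ZL.m (nat_lit 13602) (ZL.m (nat_lit 34072) (ZL.m (nat_lit 33732) (ZL.p (nat_lit 2434) (ZL.m (nat_lit 1448) (ZL.m (nat_lit 3870) (ZL.p (nat_lit 14590) ZL.n)))))))))))))))))))))) (ZL.p (nat_lit 2626) (ZL.m (nat_lit 7788) (ZL.p (nat_lit 13667) (ZL.p (nat_lit 9909) (ZL.m (nat_lit 3108) (ZL.p (nat_lit 3737) (ZL.m (nat_lit 23894) (ZL.p (nat_lit 15066) (ZL.p (nat_lit 9797) (ZL.p (nat_lit 19686) (ZL.m (nat_lit 26855) (ZL.m (nat_lit 9072) (ZL.p (nat_lit 12307) (ZL.m (nat_lit 11367) (ZL.p (nat_lit 20841) (ZL.m (nat_lit 4140) (ZL.p (nat_lit 26762) (ZL.m (nat_lit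 7551) (ZL.m (nat_lit 14111) (ZL.p (nat_lit 1066) (ZL.p (nat_lit 32780) (ZL.m (nat_lit 41513) (ZL.p (nat_lit 2028) (ZL.p (nat_lit 13240) (ZL.p (nat_lit 29210) (ZL.m (nat_lit 64560) (ZL.p (nat_lit 21827) (ZL.p (nat_lit 67176) (ZL.p (nat_lit 56296) (ZL.p (nat_lit 14492) (ZL.m (nat_lit 126620) (ZL.p (nat_lit 161) (ZL.m (nat_lit 75252) (ZL.p (nat_lit 31440) (ZL.p (nat_lit 81772) (ZL.p (nat_lit 35699) (ZL.m (nat_lit 91370) ZL.n))))))))))))))))))))))))))))))))))))) ZL.n ZL.n)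
  (Z4.mk (ZL.p (nat_lit 2157) (ZL.m (nat_lit 7766) (ZL.p (nat_lit 16122) (ZL.p (nat_lit 200) (ZL.p (nat_lit 2068) (ZL.p (nat_lit 6294) (ZL.m (nat_lit 3541) (ZL.p (nat_lit 3141) (ZL.m (nat_lit 2350) (ZL.p (nat_lit 128693) (ZL.p (nat_lit 18962) (ZL.m (nat_lit 14283) (ZL.m (nat_lit 36365) (ZL.m (nat_lit 49933) (ZL.m (nat_lit 3994) (ZL.m (nat_lit 91169) (ZL.p (nat_lit 18857) (ZL.m (nat_lit 44724) (ZL.m (nat_lit 35369) (ZL.m (nat_lit 18496) (ZL.m (nat_lit 15630) (ZL.m (nat_lit 19182) (ZL.m (nat_lit 23412) (ZL.m (nat_lit 72032) (ZL.m (nat_lit 211886) (ZL.p (nat_lit 7699) ZL.n)))))))))))))))))))))))))) (ZL.p (nat_lit 8068) (ZL.p (nat_lit 57145) (ZL.m (nat_lit 3804) (ZL.m (nat_lit 26395) (ZL.p (nat_lit 59857) (ZL.p (nat_lit 2975) (ZL.m (nat_lit 34488) (ZL.p (nat_lit 38160) (ZL.m (nat_lit 9339) (ZL.m (nat_lit 6160) (ZL.p (nat_lit 42767) (ZL.m (nat_lit 58040) (ZL.m (nat_lit 10377) (ZL.p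 (nat_lit 22978) (ZL.m (nat_lit 42185) (ZL.p (nat_lit 11686) (ZL.m (nat_lit 54553) (ZL.p (nat_lit 256847) ZL.n)))))))))))))))))) ZL.n ZL.n)

def e75 : El := El.mk (W2.mk (nat_lit 3) (nat_lit 4) (nat_lit 5) (nat_lit 7)) (nat_lit 724)
  (Z4.mk (ZL.m (nat_lit 9004) (ZL.p (nat_lit 16996) (ZL.p (nat_lit 55102) (ZL.m (nat_lit 5389) (ZL.m (nat_lit 11801) (ZL.p (nat_lit 19810) (ZL.p (nat_lit 55971) (ZL.m (nat_lit 18990) (ZL.m (nat_lit 87585) (ZL.m (nat_lit 23329) (ZL.p (nat_lit 15506) (ZL.p (nat_lit 27663) (ZL.m (nat_lit 14690) (ZL.p (nat_lit 9293) (ZL.p (nat_lit 59224) (ZL.p (nat_lit 17846) ZL.n)))))))))))))))) ZL.n ZL.n ZL.n)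
  (Z4.mk (ZL.p (nat_lit 1675) (ZL.p (nat_lit 21046) (ZL.m (nat_lit 27894) (ZL.p (nat_lit 18986) (ZL.m (nat_lit 1411) (ZL.m (nat_lit 20723) (ZL.p (nat_lit 10108) (ZL.m (nat_lit 14596) (ZL.p (nat_lit 9581) (ZL.m (nat_lit 16833) (ZL.m (nat_lit 102207) (ZL.m (nat_lit 2422) (ZL.p (nat_lit 16124) (ZL.m (nat_lit 17859) (ZL.m (nat_lit 944) (ZL.p (nat_lit 13233) (ZL.p (nat_lit 42630) (ZL.m (nat_lit 21072) (ZL.m (nat_lit 76061) (ZL.m (nat_lit 5198) (ZL.m (nat_lit 19643) (ZL.m (nat_lit 76068) (ZL.m (nat_lit 22294) (ZL.p (nat_lit 6702) (ZL.m (nat_lit 107069) (ZL.p (nat_lit 13421) (ZL.m (nat_lit 107552) (ZL.m (nat_lit 170636) (ZL.p (nat_lit 38375) (ZL.p (nat_lit 12586) ZL.n)))))))))))))))))))))))))))))) ZL.n ZL.n ZL.n)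
  (Z4.mk (ZL.m (nat_lit 157) (ZL.m (nat_lit 369) (ZL.p (nat_lit 18254) (ZL.p (nat_lit 22384) (ZL.p (nat_lit 37007) (ZL.m (nat_lit 3701) (ZL.m (nat_lit 35492) (ZL.m (nat_lit 14753) (ZL.p (nat_lit 5061) (ZL.m (nat_lit 11792) (ZL.m (nat_lit 8652) (ZL.m (nat_lit 9032) (ZL.m (nat_lit 59721) (ZL.p (nat_lit 2694) (ZL.m (nat_lit 4206) (ZL.m (nat_lit 10759) (ZL.m (nat_lit 32267) (ZL.m (nat_lit 24988) (ZL.p (nat_lit 10762) (ZL.m (nat_lit 15190) (ZL.m (nat_lit 9019) (ZL.p (nat_lit 14590) ZL.n)))))))))))))))))))))) ZL.n ZL.n ZL.n)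
  (Z4.mk (ZL.p (nat_lit 2157) (ZL.p (nat_lit 27689) (ZL.p (nat_lit 18484) (ZL.m (nat_lit 1702) (ZL.m (nat_lit 25533) (ZL.p (nat_lit 11852) (ZL.m (nat_lit 43774) (ZL.p (nat_lit 5338) (ZL.p (nat_lit 17165) (ZL.p (nat_lit 117495) (ZL.p (nat_lit 25314) (ZL.p (nat_lit 28263) (ZL.p (nat_lit 4124) (ZL.p (nat_lit 567) (ZL.p (nat_lit 67461) (ZL.m (nat_lit 75532) (ZL.p (nat_lit 8086) (ZL.p (nat_lit 10515) (ZL.m (nat_lit 34420) (ZL.p (nat_lit 26481) (ZL.m (nat_lit 68146) (ZL.p (nat_lit 92661) (ZL.p (nat_lit 37776) (ZL.m (nat_lit 60678) (ZL.p (nat_lit 186528) (ZL.p (nat_lit 7699) ZL.n)))))))))))))))))))))))))) ZL.n ZL.n ZL.n)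

def e76 : El := El.mk (W2.mk (nat_lit 3) (nat_lit 4) (nat_lit 4) (nat_lit 6)) (nat_lit 520)
  (Z4.mk (ZL.p (nat_lit 980) (ZL.p (nat_lit 2002) (ZL.m (nat_lit 586) (ZL.m (nat_lit 2707) (ZL.p (nat_lit 3889) (ZL.m (nat_lit 11724) (ZL.m (nat_lit 7273) (ZL.p (nat_lit 16796) (ZL.p (nat_lit 1896) (ZL.m (nat_lit 14204) (ZL.p (nat_lit 8952) (ZL.m (nat_lit 2015) (ZL.m (nat_lit 8278) (ZL.p (nat_lit 654) (ZL.p (nat_lit 74) (ZL.p (nat_lit 2022) ZL.n)))))))))))))))) ZL.n ZL.n ZL.n)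
  (Z4.mk (ZL.p (nat_lit 14480) (ZL.p (nat_lit 4021) (ZL.p (nat_lit 43570) (ZL.p (nat_lit 10809) (ZL.m (nat_lit 6995) (ZL.m (nat_lit 28646) (ZL.p (nat_lit 514) (ZL.m (nat_lit 2311) (ZL.p (nat_lit 25676) (ZL.m (nat_lit 20023) (ZL.m (nat_lit 31757) (ZL.p (nat_lit 47104) (ZL.p (nat_lit 19035) (ZL.p (nat_lit 23760) (ZL.m (nat_lit 3077) (ZL.m (nat_lit 18186) (ZL.p (nat_lit 12414) (ZL.m (nat_lit 29494) (ZL.p (nat_lit 2448) (ZL.m (nat_lit 32138) (ZL.p (nat_lit 1041) (ZL.p (nat_lit 4107) (ZL.m (nat_lit 680) (ZL.p (nat_lit 5511) (ZL.p (nat_lit 65682) (ZL.m (nat_lit 31659) (ZL.m (nat_lit 62896) (ZL.p (nat_lit 22838) (ZL.m (nat_lit 11226) (ZL.m (nat_lit 6297) ZL.n)))))))))))))))))))))))))))))) ZL.n ZL.n ZL.n)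
  (Z4.mk (ZL.m (nat_lit 2745) (ZL.m (nat_lit 4479) (ZL.p (nat_lit 35599) (ZL.p (nat_lit 1509) (ZL.m (nat_lit 13880) (ZL.m (nat_lit 11659) (ZL.m (nat_lit 10719) (ZL.p (nat_lit 27185) (ZL.p (nat_lit 2017) (ZL.m (nat_lit 5442) (ZL.p (nat_lit 23071) (ZL.m (nat_lit 32701) (ZL.p (nat_lit 3823) (ZL.m (nat_lit 17677) (ZL.p (nat_lit 161) (ZL.m (nat_lit 27156) (ZL.m (nat_lit 4908) (ZL.m (nat_lit 1141) (ZL.m (nat_lit 5977) (ZL.m (nat_lit 358) (ZL.p (nat_lit 9650) (ZL.m (nat_lit 18570) ZL.n)))))))))))))))))))))) ZL.n ZL.n ZL.n)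
  (Z4.mk (ZL.p (nat_lit 14478) (ZL.p (nat_lit 4025) (ZL.p (nat_lit 35296) (ZL.m (nat_lit 1508) (ZL.m (nat_lit 33290) (ZL.m (nat_lit 14944) (ZL.m (nat_lit 864) (ZL.p (nat_lit 12310) (ZL.m (nat_lit 32114) (ZL.p (nat_lit 48073) (ZL.p (nat_lit 35818) (ZL.m (nat_lit 20195) (ZL.p (nat_lit 1412) (ZL.p (nat_lit 14124) (ZL.m (nat_lit 8805) (ZL.p (nat_lit 33820) (ZL.p (nat_lit 21121) (ZL.p (nat_lit 64870) (ZL.m (nat_lit 14225) (ZL.m (nat_lit 4435) (ZL.p (nat_lit 35741) (ZL.p (nat_lit 18624) (ZL.m (nat_lit 67987) (ZL.m (nat_lit 25743) (ZL.p (nat_lit 2770) (ZL.m (nat_lit 7907) ZL.n)))))))))))))))))))))))))) ZL.n ZL.n ZL.n)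

def DD : List El := [e0, e1, e2, e3, e4, e5, e6, e7, e8, e9, e10, e11, e12, e13, e14, e15, e16, e17, e18, e19, e20, e21, e22, e23, e24, e25, e26, e27, e28, e29, e30, e31, e32, e33, e34, e35, e36, e37, e38, e39, e40, e41, e42, e43, e44, e45, e46, e47, e48, e49, e50, e51, e52, e53, e54, e55, e56, e57, e58, e59, e60, e61, e62, e63, e64, e65, e66, e67, e68, e69, e70, e71, e72, e73, e74, e75, e76]

def SK : Tr := (Tr.b (Tr.b (Tr.b (Tr.b (Tr.b (Tr.b (Tr.b (Tr.b (Tr.b (Tr.b (Tr.l (nat_lit 3854) (nat_lit 0) (nat_lit 0)) (nat_lit 3854) (Tr.b (Tr.l (nat_lit 15200) (nat_lit 0) (nat_lit 0)) (nat_lit 15200) (Tr.l (nat_lit 424400) (nat_lit 0) (nat_lit 0)))) (nat_lit 424400) (Tr.b (Tr.l (nat_lit 540908) (nat_lit 0) (nat_lit 0)) (nat_lit 540908) (Tr.b (Tr.l (nat_lit 1717358) (nat_lit 0) (nat_lit 0)) (nat_lit 1717358) (Tr.l (nat_lit 7919854) (nat_lit 0) (nat_lit 0))))) (nat_lit 7919854) (Tr.b (Tr.b (Tr.l (nat_lit 26822112) (nat_lit 0) (nat_lit 0)) (nat_lit 26822112) (Tr.b (Tr.l (nat_lit 29403468) (nat_lit 0) (nat_lit 0)) (nat_lit 29403468) (Tr.l (nat_lit 32570448) (nat_lit 0) (nat_lit 0)))) (nat_lit 32570448) (Tr.b (Tr.l (nat_lit 36337416) (nat_lit 0) (nat_lit 0)) (nat_lit 36337416) (Tr.b (Tr.l (nat_lit 40120814) (nat_lit 0) (nat_lit 0)) (nat_lit 40120814) (Tr.l (nat_lit 48643598) (nat_lit 0) (nat_lit 0)))))) (nat_lit 48643598) (Tr.b (Tr.b (Tr.b (Tr.l (nat_lit 73484568) (nat_lit 0) (nat_lit 0)) (nat_lit 73484568) (Tr.b (Tr.l (nat_lit 99009422) (nat_lit 0) (nat_lit 0)) (nat_lit 99009422) (Tr.l (nat_lit 102219022) (nat_lit 0) (nat_lit 0)))) (nat_lit 102219022) (Tr.b (Tr.l (nat_lit 163697674) (nat_lit 0) (nat_lit 0)) (nat_lit 163697674) (Tr.b (Tr.l (nat_lit 205836480) (nat_lit 0) (nat_lit 0)) (nat_lit 205836480) (Tr.l (nat_lit 221844574) (nat_lit 0) (nat_lit 0))))) (nat_lit 221844574) (Tr.b (Tr.b (Tr.l (nat_lit 307448078) (nat_lit 0) (nat_lit 0)) (nat_lit 307448078) (Tr.b (Tr.l (nat_lit 339088734) (nat_lit 0) (nat_lit 0)) (nat_lit 339088734) (Tr.l (nat_lit 340268254) (nat_lit 0) (nat_lit 0)))) (nat_lit 340268254) (Tr.b (Tr.b (Tr.l (nat_lit 349073120) (nat_lit 0) (nat_lit 0)) (nat_lit 349073120) (Tr.l (nat_lit 359292624) (nat_lit 0) (nat_lit 0))) (nat_lit 359292624) (Tr.b (Tr.l (nat_lit 389786681) (nat_lit 0) (nat_lit 0)) (nat_lit 389786681) (Tr.l (nat_lit 506357430) (nat_lit 0) (nat_lit 0))))))) (nat_lit 506357430) (Tr.b (Tr.b (Tr.b (Tr.b (Tr.l (nat_lit 554508936) (nat_lit 0) (nat_lit 0)) (nat_lit 554508936) (Tr.b (Tr.l (nat_lit 714733438) (nat_lit 0) (nat_lit 0)) (nat_lit 714733438) (Tr.l (nat_lit 718802782) (nat_lit 0) (nat_lit 0)))) (nat_lit 718802782) (Tr.b (Tr.l (nat_lit 882710782) (nat_lit 0) (nat_lit 0)) (nat_lit 882710782) (Tr.b (Tr.l (nat_lit 892243582) (nat_lit 0) (nat_lit 0)) (nat_lit 892243582) (Tr.l (nat_lit 1046411176) (nat_lit 0) (nat_lit 0))))) (nat_lit 1046411176) (Tr.b (Tr.b (Tr.l (nat_lit 1061358534) (nat_lit 0) (nat_lit 0)) (nat_lit 1061358534) (Tr.b (Tr.l (nat_lit 1237790550) (nat_lit 0) (nat_lit 0)) (nat_lit 1237790550) (Tr.l (nat_lit 1270099494) (nat_lit 0) (nat_lit 0)))) (nat_lit 1270099494) (Tr.b (Tr.l (nat_lit 1390869118) (nat_lit 0) (nat_lit 0)) (nat_lit 1390869118) (Tr.b (Tr.l (nat_lit 2927676296) (nat_lit 0) (nat_lit 0)) (nat_lit 2927676296) (Tr.l (nat_lit 7636313066) (nat_lit 0) (nat_lit 0)))))) (nat_lit 7636313066) (Tr.b (Tr.b (Tr.b (Tr.l (nat_lit 7636487840) (nat_lit 0) (nat_lit 0)) (nat_lit 7636487840) (Tr.b (Tr.l (nat_lit 7654850240) (nat_lit 0) (nat_lit 0)) (nat_lit 7654850240) (Tr.l (nat_lit 7791328040) (nat_lit 0) (nat_lit 0)))) (nat_lit 7791328040) (Tr.b (Tr.l (nat_lit 8403393542) (nat_lit 0) (nat_lit 0)) (nat_lit 8403393542) (Tr.b (Tr.l (nat_lit 9012559238) (nat_lit 0) (nat_lit 0)) (nat_lit 9012559238) (Tr.l (nat_lit 9998094982) (nat_lit 0) (nat_lit 0))))) (nat_lit 9998094982) (Tr.b (Tr.b (Tr.l (nat_lit 13068942972) (nat_lit 0) (nat_lit 0)) (nat_lit 13068942972) (Tr.b (Tr.l (nat_lit 15836833072) (nat_lit 0) (nat_lit 0)) (nat_lit 15836833072) (Tr.l (nat_lit 19029507648) (nat_lit 0) (nat_lit 0)))) (nat_lit 19029507648) (Tr.b (Tr.b (Tr.l (nat_lit 19267522004) (nat_lit 0) (nat_lit 0)) (nat_lit 19267522004) (Tr.l (nat_lit 20049144624) (nat_lit 0) (nat_lit 0))) (nat_lit 20049144624) (Tr.b (Tr.l (nat_lit 21310165752) (nat_lit 0) (nat_lit 0)) (nat_lit 21310165752) (Tr.l (nat_lit 22688939904) (nat_lit 0) (nat_lit 0)))))))) (nat_lit 22688939904) (Tr.b (Tr.b (Tr.b (Tr.b (Tr.b (Tr.l (nat_lit 27687629448) (nat_lit 0) (nat_lit 0)) (nat_lit 27687629448) (Tr.b (Tr.l (nat_lit 27761891760) (nat_lit 0) (nat_lit 0)) (nat_lit 27761891760) (Tr.l (nat_lit 29884122454) (nat_lit 0) (nat_lit 0)))) (nat_lit 29884122454) (Tr.b (Tr.l (nat_lit 30291400664) (nat_lit 0) (nat_lit 0)) (nat_lit 30291400664) (Tr.b (Tr.l (nat_lit 31231461584) (nat_lit 0) (nat_lit 0)) (nat_lit 31231461584) (Tr.l (nat_lit 33196206086) (nat_lit 0) (nat_lit 0))))) (nat_lit 33196206086) (Tr.b (Tr.b (Tr.l (nat_lit 49240612558) (nat_lit 0) (nat_lit 0)) (nat_lit 49240612558) (Tr.b (Tr.l (nat_lit 68028210566) (nat_lit 0) (nat_lit 0)) (nat_lit 68028210566) (Tr.l (nat_lit 75132001286) (nat_lit 0) (nat_lit 0)))) (nat_lit 75132001286) (Tr.b (Tr.l (nat_lit 81287995654) (nat_lit 0) (nat_lit 0)) (nat_lit 81287995654) (Tr.b (Tr.l (nat_lit 83190999560) (nat_lit 0) (nat_lit 0)) (nat_lit 83190999560) (Tr.l (nat_lit 83326033798) (nat_lit 0) (nat_lit 0)))))) (nat_lit 83326033798) (Tr.b (Tr.b (Tr.b (Tr.l (nat_lit 84367300504) (nat_lit 0) (nat_lit 0)) (nat_lit 84367300504) (Tr.b (Tr.l (nat_lit 85620903154) (nat_lit 0) (nat_lit 0)) (nat_lit 85620903154) (Tr.l (nat_lit 85936929422) (nat_lit 0) (nat_lit 0)))) (nat_lit 85936929422) (Tr.b (Tr.l (nat_lit 86443345048) (nat_lit 0) (nat_lit 0)) (nat_lit 86443345048) (Tr.b (Tr.l (nat_lit 86451884528) (nat_lit 0) (nat_lit 0)) (nat_lit 86451884528) (Tr.l (nat_lit 90788015854) (nat_lit 0) (nat_lit 0))))) (nat_lit 90788015854) (Tr.b (Tr.b (Tr.l (nat_lit 91696618350) (nat_lit 0) (nat_lit 0)) (nat_lit 91696618350) (Tr.b (Tr.l (nat_lit 91918401304) (nat_lit 0) (nat_lit 0)) (nat_lit 91918401304) (Tr.l (nat_lit 92941138798) (nat_lit 0) (nat_lit 0)))) (nat_lit 92941138798) (Tr.b (Tr.b (Tr.l (nat_lit 95156515594) (nat_lit 0) (nat_lit 0)) (nat_lit 95156515594) (Tr.l (nat_lit 97018828038) (nat_lit 0) (nat_lit 0))) (nat_lit 97018828038) (Tr.b (Tr.l (nat_lit 97232001304) (nat_lit 0) (nat_lit 0)) (nat_lit 97232001304) (Tr.l (nat_lit 97360531594) (nat_lit 0) (nat_lit 0))))))) (nat_lit 97360531594) (Tr.b (Tr.b (Tr.b (Tr.b (Tr.l (nat_lit 98615140654) (nat_lit 0) (nat_lit 0)) (nat_lit 98615140654) (Tr.b (Tr.l (nat_lit 100380270488) (nat_lit 0) (nat_lit 0)) (nat_lit 100380270488) (Tr.l (nat_lit 101184092590) (nat_lit 0) (nat_lit 0)))) (nat_lit 101184092590) (Tr.b (Tr.l (nat_lit 102276837004) (nat_lit 0) (nat_lit 0)) (nat_lit 102276837004) (Tr.b (Tr.l (nat_lit 103165892554) (nat_lit 0) (nat_lit 0)) (nat_lit 103165892554) (Tr.l (nat_lit 104116228654) (nat_lit 0) (nat_lit 0))))) (nat_lit 104116228654) (Tr.b (Tr.b (Tr.l (nat_lit 105438206100) (nat_lit 0) (nat_lit 0)) (nat_lit 105438206100) (Tr.b (Tr.l (nat_lit 105942112604) (nat_lit 0) (nat_lit 0)) (nat_lit 105942112604) (Tr.l (nat_lit 106178546794) (nat_lit 0) (nat_lit 0)))) (nat_lit 106178546794) (Tr.b (Tr.b (Tr.l (nat_lit 107759546448) (nat_lit 0) (nat_lit 0)) (nat_lit 107759546448) (Tr.l (nat_lit 109701720104) (nat_lit 0) (nat_lit 0))) (nat_lit 109701720104) (Tr.b (Tr.l (nat_lit 112417019326) (nat_lit 0) (nat_lit 0)) (nat_lit 112417019326) (Tr.l (nat_lit 113567314954) (nat_lit 0) (nat_lit 0)))))) (nat_lit 113567314954) (Tr.b (Tr.b (Tr.b (Tr.l (nat_lit 113589504454) (nat_lit 0) (nat_lit 0)) (nat_lit 113589504454) (Tr.b (Tr.l (nat_lit 114179451068) (nat_lit 0) (nat_lit 0)) (nat_lit 114179451068) (Tr.l (nat_lit 114393106492) (nat_lit 0) (nat_lit 0)))) (nat_lit 114393106492) (Tr.b (Tr.l (nat_lit 115974642922) (nat_lit 0) (nat_lit 0)) (nat_lit 115974642922) (Tr.b (Tr.l (nat_lit 116006998022) (nat_lit 0) (nat_lit 0)) (nat_lit 116006998022) (Tr.l (nat_lit 116152819976) (nat_lit 0) (nat_lit 0))))) (nat_lit 116152819976) (Tr.b (Tr.b (Tr.l (nat_lit 116363192492) (nat_lit 0) (nat_lit 0)) (nat_lit 116363192492) (Tr.b (Tr.l (nat_lit 116472376492) (nat_lit 0) (nat_lit 0)) (nat_lit 116472376492) (Tr.l (nat_lit 116754790894) (nat_lit 0) (nat_lit 0)))) (nat_lit 116754790894) (Tr.b (Tr.b (Tr.l (nat_lit 116771533114) (nat_lit 0) (nat_lit 0)) (nat_lit 116771533114) (Tr.l (nat_lit 117268232392) (nat_lit 0) (nat_lit 0))) (nat_lit 117268232392) (Tr.b (Tr.l (nat_lit 117958242922) (nat_lit 0) (nat_lit 0)) (nat_lit 117958242922) (Tr.l (nat_lit 118068172522) (nat_lit 0) (nat_lit 0))))))))) (nat_lit 118068172522) (Tr.b (Tr.b (Tr.b (Tr.b (Tr.b (Tr.b (Tr.l (nat_lit 118761907514) (nat_lit 0) (nat_lit 0)) (nat_lit 118761907514) (Tr.b (Tr.l (nat_lit 118788102940) (nat_lit 0) (nat_lit 0)) (nat_lit 118788102940) (Tr.l (nat_lit 118803207238) (nat_lit 0) (nat_lit 0)))) (nat_lit 118803207238) (Tr.b (Tr.l (nat_lit 118872210874) (nat_lit 0) (nat_lit 0)) (nat_lit 118872210874) (Tr.b (Tr.l (nat_lit 121594817708) (nat_lit 0) (nat_lit 0)) (nat_lit 121594817708) (Tr.l (nat_lit 122519889688) (nat_lit 0) (nat_lit 0))))) (nat_lit 122519889688) (Tr.b (Tr.b (Tr.l (nat_lit 123225209578) (nat_lit 0) (nat_lit 0)) (nat_lit 123225209578) (Tr.b (Tr.l (nat_lit 124046590394) (nat_lit 0) (nat_lit 0)) (nat_lit 124046590394) (Tr.l (nat_lit 124307366200) (nat_lit 0) (nat_lit 0)))) (nat_lit 124307366200) (Tr.b (Tr.l (nat_lit 125014909294) (nat_lit 0) (nat_lit 0)) (nat_lit 125014909294) (Tr.b (Tr.l (nat_lit 130285261894) (nat_lit 0) (nat_lit 0)) (nat_lit 130285261894) (Tr.l (nat_lit 133542009614) (nat_lit 0) (nat_lit 0)))))) (nat_lit 133542009614) (Tr.b (Tr.b (Tr.b (Tr.l (nat_lit 138015235354) (nat_lit 0) (nat_lit 0)) (nat_lit 138015235354) (Tr.b (Tr.l (nat_lit 138662750494) (nat_lit 0) (nat_lit 0)) (nat_lit 138662750494) (Tr.l (nat_lit 139883853982) (nat_lit 0) (nat_lit 0)))) (nat_lit 139883853982) (Tr.b (Tr.l (nat_lit 142061521982) (nat_lit 0) (nat_lit 0)) (nat_lit 142061521982) (Tr.b (Tr.l (nat_lit 142182158782) (nat_lit 0) (nat_lit 0)) (nat_lit 142182158782) (Tr.l (nat_lit 143645921966) (nat_lit 0) (nat_lit 0))))) (nat_lit 143645921966) (Tr.b (Tr.b (Tr.l (nat_lit 144696930934) (nat_lit 0) (nat_lit 0)) (nat_lit 144696930934) (Tr.b (Tr.l (nat_lit 146143732604) (nat_lit 0) (nat_lit 0)) (nat_lit 146143732604) (Tr.l (nat_lit 147158171928) (nat_lit 0) (nat_lit 0)))) (nat_lit 147158171928) (Tr.b (Tr.b (Tr.l (nat_lit 147836009918) (nat_lit 0) (nat_lit 0)) (nat_lit 147836009918) (Tr.l (nat_lit 153418296526) (nat_lit 0) (nat_lit 0))) (nat_lit 153418296526) (Tr.b (Tr.l (nat_lit 157398260462) (nat_lit 0) (nat_lit 0)) (nat_lit 157398260462) (Tr.l (nat_lit 157423632686) (nat_lit 0) (nat_lit 0))))))) (nat_lit 157423632686) (Tr.b (Tr.b (Tr.b (Tr.b (Tr.l (nat_lit 157525240942) (nat_lit 0) (nat_lit 0)) (nat_lit 157525240942) (Tr.b (Tr.l (nat_lit 158237280334) (nat_lit 0) (nat_lit 0)) (nat_lit 158237280334) (Tr.l (nat_lit 163473438830) (nat_lit 0) (nat_lit 0)))) (nat_lit 163473438830) (Tr.b (Tr.l (nat_lit 171537202942) (nat_lit 0) (nat_lit 0)) (nat_lit 171537202942) (Tr.b (Tr.l (nat_lit 173301109174) (nat_lit 0) (nat_lit 0)) (nat_lit 173301109174) (Tr.l (nat_lit 173947798942) (nat_lit 0) (nat_lit 0))))) (nat_lit 173947798942) (Tr.b (Tr.b (Tr.l (nat_lit 174081286942) (nat_lit 0) (nat_lit 0)) (nat_lit 174081286942) (Tr.b (Tr.l (nat_lit 174495310830) (nat_lit 0) (nat_lit 0)) (nat_lit 174495310830) (Tr.l (nat_lit 174883292734) (nat_lit 0) (nat_lit 0)))) (nat_lit 174883292734) (Tr.b (Tr.l (nat_lit 175204308430) (nat_lit 0) (nat_lit 0)) (nat_lit 175204308430) (Tr.b (Tr.l (nat_lit 175827585190) (nat_lit 0) (nat_lit 0)) (nat_lit 175827585190) (Tr.l (nat_lit 176271078454) (nat_lit 0) (nat_lit 0)))))) (nat_lit 176271078454) (Tr.b (Tr.b (Tr.b (Tr.l (nat_lit 176274862800) (nat_lit 0) (nat_lit 0)) (nat_lit 176274862800) (Tr.b (Tr.l (nat_lit 176678151168) (nat_lit 0) (nat_lit 0)) (nat_lit 176678151168) (Tr.l (nat_lit 177995812868) (nat_lit 0) (nat_lit 0)))) (nat_lit 177995812868) (Tr.b (Tr.l (nat_lit 178827071468) (nat_lit 0) (nat_lit 0)) (nat_lit 178827071468) (Tr.b (Tr.l (nat_lit 178998801754) (nat_lit 0) (nat_lit 0)) (nat_lit 178998801754) (Tr.l (nat_lit 180331433758) (nat_lit 0) (nat_lit 0))))) (nat_lit 180331433758) (Tr.b (Tr.b (Tr.l (nat_lit 182125812794) (nat_lit 0) (nat_lit 0)) (nat_lit 182125812794) (Tr.b (Tr.l (nat_lit 189202697678) (nat_lit 0) (nat_lit 0)) (nat_lit 189202697678) (Tr.l (nat_lit 189241095214) (nat_lit 0) (nat_lit 0)))) (nat_lit 189241095214) (Tr.b (Tr.b (Tr.l (nat_lit 191727068286) (nat_lit 0) (nat_lit 0)) (nat_lit 191727068286) (Tr.l (nat_lit 191772609614) (nat_lit 0) (nat_lit 0))) (nat_lit 191772609614) (Tr.b (Tr.l (nat_lit 191912768974) (nat_lit 0) (nat_lit 0)) (nat_lit 191912768974) (Tr.l (nat_lit 198472466894) (nat_lit 0) (nat_lit 0)))))))) (nat_lit 198472466894) (Tr.b (Tr.b (Tr.b (Tr.b (Tr.b (Tr.l (nat_lit 205620543454) (nat_lit 0) (nat_lit 0)) (nat_lit 205620543454) (Tr.b (Tr.l (nat_lit 210145687420) (nat_lit 0) (nat_lit 0)) (nat_lit 210145687420) (Tr.l (nat_lit 213705572688) (nat_lit 0) (nat_lit 0)))) (nat_lit 213705572688) (Tr.b (Tr.l (nat_lit 214222718730) (nat_lit 0) (nat_lit 0)) (nat_lit 214222718730) (Tr.b (Tr.l (nat_lit 214366684954) (nat_lit 0) (nat_lit 0)) (nat_lit 214366684954) (Tr.l (nat_lit 221722789642) (nat_lit 0) (nat_lit 0))))) (nat_lit 221722789642) (Tr.b (Tr.b (Tr.l (nat_lit 224378521478) (nat_lit 0) (nat_lit 0)) (nat_lit 224378521478) (Tr.b (Tr.l (nat_lit 230778408574) (nat_lit 0) (nat_lit 0)) (nat_lit 230778408574) (Tr.l (nat_lit 257491404614) (nat_lit 0) (nat_lit 0)))) (nat_lit 257491404614) (Tr.b (Tr.l (nat_lit 325253779654) (nat_lit 0) (nat_lit 0)) (nat_lit 325253779654) (Tr.b (Tr.l (nat_lit 337011891500) (nat_lit 0) (nat_lit 0)) (nat_lit 337011891500) (Tr.l (nat_lit 351710963608) (nat_lit 0) (nat_lit 0)))))) (nat_lit 351710963608) (Tr.b (Tr.b (Tr.b (Tr.l (nat_lit 357822301750) (nat_lit 0) (nat_lit 0)) (nat_lit 357822301750) (Tr.b (Tr.l (nat_lit 364019439154) (nat_lit 0) (nat_lit 0)) (nat_lit 364019439154) (Tr.l (nat_lit 364524039566) (nat_lit 0) (nat_lit 0)))) (nat_lit 364524039566) (Tr.b (Tr.l (nat_lit 364697925358) (nat_lit 0) (nat_lit 0)) (nat_lit 364697925358) (Tr.b (Tr.l (nat_lit 365386682338) (nat_lit 0) (nat_lit 0)) (nat_lit 365386682338) (Tr.l (nat_lit 368160590410) (nat_lit 0) (nat_lit 0))))) (nat_lit 368160590410) (Tr.b (Tr.b (Tr.l (nat_lit 370503805004) (nat_lit 0) (nat_lit 0)) (nat_lit 370503805004) (Tr.b (Tr.l (nat_lit 370730269064) (nat_lit 0) (nat_lit 0)) (nat_lit 370730269064) (Tr.l (nat_lit 371996630384) (nat_lit 0) (nat_lit 0)))) (nat_lit 371996630384) (Tr.b (Tr.b (Tr.l (nat_lit 372034409674) (nat_lit 0) (nat_lit 0)) (nat_lit 372034409674) (Tr.l (nat_lit 378855311048) (nat_lit 0) (nat_lit 0))) (nat_lit 378855311048) (Tr.b (Tr.l (nat_lit 385807762958) (nat_lit 0) (nat_lit 0)) (nat_lit 385807762958) (Tr.l (nat_lit 386613477254) (nat_lit 0) (nat_lit 0))))))) (nat_lit 386613477254) (Tr.b (Tr.b (Tr.b (Tr.b (Tr.l (nat_lit 388446170246) (nat_lit 0) (nat_lit 0)) (nat_lit 388446170246) (Tr.b (Tr.l (nat_lit 388578312908) (nat_lit 0) (nat_lit 0)) (nat_lit 388578312908) (Tr.l (nat_lit 393764079790) (nat_lit 0) (nat_lit 0)))) (nat_lit 393764079790) (Tr.b (Tr.l (nat_lit 396305507426) (nat_lit 0) (nat_lit 0)) (nat_lit 396305507426) (Tr.b (Tr.l (nat_lit 397240278284) (nat_lit 0) (nat_lit 0)) (nat_lit 397240278284) (Tr.l (nat_lit 398368624536) (nat_lit 0) (nat_lit 0))))) (nat_lit 398368624536) (Tr.b (Tr.b (Tr.l (nat_lit 399278018312) (nat_lit 0) (nat_lit 0)) (nat_lit 399278018312) (Tr.b (Tr.l (nat_lit 399480246792) (nat_lit 0) (nat_lit 0)) (nat_lit 399480246792) (Tr.l (nat_lit 399920270520) (nat_lit 0) (nat_lit 0)))) (nat_lit 399920270520) (Tr.b (Tr.b (Tr.l (nat_lit 400190358158) (nat_lit 0) (nat_lit 0)) (nat_lit 400190358158) (Tr.l (nat_lit 406057596806) (nat_lit 0) (nat_lit 0))) (nat_lit 406057596806) (Tr.b (Tr.l (nat_lit 407258401576) (nat_lit 0) (nat_lit 0)) (nat_lit 407258401576) (Tr.l (nat_lit 408919951880) (nat_lit 0) (nat_lit 0)))))) (nat_lit 408919951880) (Tr.b (Tr.b (Tr.b (Tr.l (nat_lit 413475349256) (nat_lit 0) (nat_lit 0)) (nat_lit 413475349256) (Tr.b (Tr.l (nat_lit 415190128760) (nat_lit 0) (nat_lit 0)) (nat_lit 415190128760) (Tr.l (nat_lit 418783059566) (nat_lit 0) (nat_lit 0)))) (nat_lit 418783059566) (Tr.b (Tr.l (nat_lit 430005446426) (nat_lit 0) (nat_lit 0)) (nat_lit 430005446426) (Tr.b (Tr.l (nat_lit 430870802520) (nat_lit 0) (nat_lit 0)) (nat_lit 430870802520) (Tr.l (nat_lit 431156398424) (nat_lit 0) (nat_lit 0))))) (nat_lit 431156398424) (Tr.b (Tr.b (Tr.l (nat_lit 432472611978) (nat_lit 0) (nat_lit 0)) (nat_lit 432472611978) (Tr.b (Tr.l (nat_lit 434371284726) (nat_lit 0) (nat_lit 0)) (nat_lit 434371284726) (Tr.l (nat_lit 434453013002) (nat_lit 0) (nat_lit 0)))) (nat_lit 434453013002) (Tr.b (Tr.b (Tr.l (nat_lit 434663960202) (nat_lit 0) (nat_lit 0)) (nat_lit 434663960202) (Tr.l (nat_lit 444508213898) (nat_lit 0) (nat_lit 0))) (nat_lit 444508213898) (Tr.b (Tr.l (nat_lit 444936344096) (nat_lit 0) (nat_lit 0)) (nat_lit 444936344096) (Tr.l (nat_lit 445834262168) (nat_lit 0) (nat_lit 0)))))))))) (nat_lit 445834262168) (Tr.b (Tr.b (Tr.b (Tr.b (Tr.b (Tr.b (Tr.b (Tr.l (nat_lit 457363089614) (nat_lit 0) (nat_lit 0)) (nat_lit 457363089614) (Tr.b (Tr.l (nat_lit 459421328254) (nat_lit 0) (nat_lit 0)) (nat_lit 459421328254) (Tr.l (nat_lit 460441259118) (nat_lit 0) (nat_lit 0)))) (nat_lit 460441259118) (Tr.b (Tr.l (nat_lit 483144902014) (nat_lit 0) (nat_lit 0)) (nat_lit 483144902014) (Tr.b (Tr.l (nat_lit 484146306638) (nat_lit 0) (nat_lit 0)) (nat_lit 484146306638) (Tr.l (nat_lit 485973879854) (nat_lit 0) (nat_lit 0))))) (nat_lit 485973879854) (Tr.b (Tr.b (Tr.l (nat_lit 489628370438) (nat_lit 0) (nat_lit 0)) (nat_lit 489628370438) (Tr.b (Tr.l (nat_lit 493936557190) (nat_lit 0) (nat_lit 0)) (nat_lit 493936557190) (Tr.l (nat_lit 499203717240) (nat_lit 0) (nat_lit 0)))) (nat_lit 499203717240) (Tr.b (Tr.l (nat_lit 501440307448) (nat_lit 0) (nat_lit 0)) (nat_lit 501440307448) (Tr.b (Tr.l (nat_lit 501784513080) (nat_lit 0) (nat_lit 0)) (nat_lit 501784513080) (Tr.l (nat_lit 503527191288) (nat_lit 0) (nat_lit 0)))))) (nat_lit 503527191288) (Tr.b (Tr.b (Tr.b (Tr.l (nat_lit 506231533392) (nat_lit 0) (nat_lit 0)) (nat_lit 506231533392) (Tr.b (Tr.l (nat_lit 514912452398) (nat_lit 0) (nat_lit 0)) (nat_lit 514912452398) (Tr.l (nat_lit 515395467782) (nat_lit 0) (nat_lit 0)))) (nat_lit 515395467782) (Tr.b (Tr.l (nat_lit 527512398072) (nat_lit 0) (nat_lit 0)) (nat_lit 527512398072) (Tr.b (Tr.l (nat_lit 528154661254) (nat_lit 0) (nat_lit 0)) (nat_lit 528154661254) (Tr.l (nat_lit 537059595440) (nat_lit 0) (nat_lit 0))))) (nat_lit 537059595440) (Tr.b (Tr.b (Tr.l (nat_lit 540655060504) (nat_lit 0) (nat_lit 0)) (nat_lit 540655060504) (Tr.b (Tr.l (nat_lit 566320214254) (nat_lit 0) (nat_lit 0)) (nat_lit 566320214254) (Tr.l (nat_lit 581809566130) (nat_lit 0) (nat_lit 0)))) (nat_lit 581809566130) (Tr.b (Tr.b (Tr.l (nat_lit 609371487454) (nat_lit 0) (nat_lit 0)) (nat_lit 609371487454) (Tr.l (nat_lit 611671805406) (nat_lit 0) (nat_lit 0))) (nat_lit 611671805406) (Tr.b (Tr.l (nat_lit 611984684678) (nat_lit 0) (nat_lit 0)) (nat_lit 611984684678) (Tr.l (nat_lit 613929443866) (nat_lit 0) (nat_lit 0))))))) (nat_lit 613929443866) (Tr.b (Tr.b (Tr.b (Tr.b (Tr.l (nat_lit 614277383134) (nat_lit 0) (nat_lit 0)) (nat_lit 614277383134) (Tr.b (Tr.l (nat_lit 621263969808) (nat_lit 0) (nat_lit 0)) (nat_lit 621263969808) (Tr.l (nat_lit 625941266008) (nat_lit 0) (nat_lit 0)))) (nat_lit 625941266008) (Tr.b (Tr.l (nat_lit 628272619608) (nat_lit 0) (nat_lit 0)) (nat_lit 628272619608) (Tr.b (Tr.l (nat_lit 637852186906) (nat_lit 0) (nat_lit 0)) (nat_lit 637852186906) (Tr.l (nat_lit 640753003142) (nat_lit 0) (nat_lit 0))))) (nat_lit 640753003142) (Tr.b (Tr.b (Tr.l (nat_lit 654569183918) (nat_lit 0) (nat_lit 0)) (nat_lit 654569183918) (Tr.b (Tr.l (nat_lit 655032026712) (nat_lit 0) (nat_lit 0)) (nat_lit 655032026712) (Tr.l (nat_lit 655346106158) (nat_lit 0) (nat_lit 0)))) (nat_lit 655346106158) (Tr.b (Tr.l (nat_lit 656953205678) (nat_lit 0) (nat_lit 0)) (nat_lit 656953205678) (Tr.b (Tr.l (nat_lit 657377207626) (nat_lit 0) (nat_lit 0)) (nat_lit 657377207626) (Tr.l (nat_lit 658575258678) (nat_lit 0) (nat_lit 0)))))) (nat_lit 658575258678) (Tr.b (Tr.b (Tr.b (Tr.l (nat_lit 660917779026) (nat_lit 0) (nat_lit 0)) (nat_lit 660917779026) (Tr.b (Tr.l (nat_lit 691881912940) (nat_lit 0) (nat_lit 0)) (nat_lit 691881912940) (Tr.l (nat_lit 695539734838) (nat_lit 0) (nat_lit 0)))) (nat_lit 695539734838) (Tr.b (Tr.l (nat_lit 699849782218) (nat_lit 0) (nat_lit 0)) (nat_lit 699849782218) (Tr.b (Tr.l (nat_lit 712860102022) (nat_lit 0) (nat_lit 0)) (nat_lit 712860102022) (Tr.l (nat_lit 717327722754) (nat_lit 0) (nat_lit 0))))) (nat_lit 717327722754) (Tr.b (Tr.b (Tr.l (nat_lit 746672446554) (nat_lit 0) (nat_lit 0)) (nat_lit 746672446554) (Tr.b (Tr.l (nat_lit 752893745278) (nat_lit 0) (nat_lit 0)) (nat_lit 752893745278) (Tr.l (nat_lit 753726961918) (nat_lit 0) (nat_lit 0)))) (nat_lit 753726961918) (Tr.b (Tr.b (Tr.l (nat_lit 778781635078) (nat_lit 0) (nat_lit 0)) (nat_lit 778781635078) (Tr.l (nat_lit 783257326090) (nat_lit 0) (nat_lit 0))) (nat_lit 783257326090) (Tr.b (Tr.l (nat_lit 805941596254) (nat_lit 0) (nat_lit 0)) (nat_lit 805941596254) (Tr.l (nat_lit 835945224472) (nat_lit 0) (nat_lit 0)))))))) (nat_lit 835945224472) (Tr.b (Tr.b (Tr.b (Tr.b (Tr.b (Tr.l (nat_lit 888929171052) (nat_lit 0) (nat_lit 0)) (nat_lit 888929171052) (Tr.b (Tr.l (nat_lit 920399431198) (nat_lit 0) (nat_lit 0)) (nat_lit 920399431198) (Tr.l (nat_lit 921320660638) (nat_lit 0) (nat_lit 0)))) (nat_lit 921320660638) (Tr.b (Tr.l (nat_lit 923225995038) (nat_lit 0) (nat_lit 0)) (nat_lit 923225995038) (Tr.b (Tr.l (nat_lit 925113247104) (nat_lit 0) (nat_lit 0)) (nat_lit 925113247104) (Tr.l (nat_lit 1074527987630) (nat_lit 0) (nat_lit 0))))) (nat_lit 1074527987630) (Tr.b (Tr.b (Tr.l (nat_lit 1220154732238) (nat_lit 0) (nat_lit 0)) (nat_lit 1220154732238) (Tr.b (Tr.l (nat_lit 1268561826668) (nat_lit 0) (nat_lit 0)) (nat_lit 1268561826668) (Tr.l (nat_lit 1292640522140) (nat_lit 0) (nat_lit 0)))) (nat_lit 1292640522140) (Tr.b (Tr.l (nat_lit 1364399206224) (nat_lit 0) (nat_lit 0)) (nat_lit 1364399206224) (Tr.b (Tr.l (nat_lit 1369454636768) (nat_lit 0) (nat_lit 0)) (nat_lit 1369454636768) (Tr.l (nat_lit 1441716511824) (nat_lit 0) (nat_lit 0)))))) (nat_lit 1441716511824) (Tr.b (Tr.b (Tr.b (Tr.l (nat_lit 1454357611004) (nat_lit 0) (nat_lit 0)) (nat_lit 1454357611004) (Tr.b (Tr.l (nat_lit 1455259814178) (nat_lit 0) (nat_lit 0)) (nat_lit 1455259814178) (Tr.l (nat_lit 1470385075630) (nat_lit 0) (nat_lit 0)))) (nat_lit 1470385075630) (Tr.b (Tr.l (nat_lit 1514327137032) (nat_lit 0) (nat_lit 0)) (nat_lit 1514327137032) (Tr.b (Tr.l (nat_lit 1529306932400) (nat_lit 0) (nat_lit 0)) (nat_lit 1529306932400) (Tr.l (nat_lit 1540325486650) (nat_lit 0) (nat_lit 0))))) (nat_lit 1540325486650) (Tr.b (Tr.b (Tr.l (nat_lit 1544302042192) (nat_lit 0) (nat_lit 0)) (nat_lit 1544302042192) (Tr.b (Tr.l (nat_lit 1546552152368) (nat_lit 0) (nat_lit 0)) (nat_lit 1546552152368) (Tr.l (nat_lit 1550059861454) (nat_lit 0) (nat_lit 0)))) (nat_lit 1550059861454) (Tr.b (Tr.b (Tr.l (nat_lit 1577244716338) (nat_lit 0) (nat_lit 0)) (nat_lit 1577244716338) (Tr.l (nat_lit 1593547815046) (nat_lit 0) (nat_lit 0))) (nat_lit 1593547815046) (Tr.b (Tr.l (nat_lit 1593811563374) (nat_lit 0) (nat_lit 0)) (nat_lit 1593811563374) (Tr.l (nat_lit 1599010925282) (nat_lit 0) (nat_lit 0))))))) (nat_lit 1599010925282) (Tr.b (Tr.b (Tr.b (Tr.b (Tr.l (nat_lit 1606006202688) (nat_lit 0) (nat_lit 0)) (nat_lit 1606006202688) (Tr.b (Tr.l (nat_lit 1640945629802) (nat_lit 0) (nat_lit 0)) (nat_lit 1640945629802) (Tr.l (nat_lit 1677019914886) (nat_lit 0) (nat_lit 0)))) (nat_lit 1677019914886) (Tr.b (Tr.l (nat_lit 1744017375104) (nat_lit 0) (nat_lit 0)) (nat_lit 1744017375104) (Tr.b (Tr.l (nat_lit 1751887935803) (nat_lit 0) (nat_lit 0)) (nat_lit 1751887935803) (Tr.l (nat_lit 1853862067238) (nat_lit 0) (nat_lit 0))))) (nat_lit 1853862067238) (Tr.b (Tr.b (Tr.l (nat_lit 1951626063790) (nat_lit 0) (nat_lit 0)) (nat_lit 1951626063790) (Tr.b (Tr.l (nat_lit 1985660039038) (nat_lit 0) (nat_lit 0)) (nat_lit 1985660039038) (Tr.l (nat_lit 2000114693518) (nat_lit 0) (nat_lit 0)))) (nat_lit 2000114693518) (Tr.b (Tr.b (Tr.l (nat_lit 2016207173528) (nat_lit 0) (nat_lit 0)) (nat_lit 2016207173528) (Tr.l (nat_lit 2047137431278) (nat_lit 0) (nat_lit 0))) (nat_lit 2047137431278) (Tr.b (Tr.l (nat_lit 2071636400006) (nat_lit 0) (nat_lit 0)) (nat_lit 2071636400006) (Tr.l (nat_lit 2086742320690) (nat_lit 0) (nat_lit 0)))))) (nat_lit 2086742320690) (Tr.b (Tr.b (Tr.b (Tr.l (nat_lit 2092975894498) (nat_lit 0) (nat_lit 0)) (nat_lit 2092975894498) (Tr.b (Tr.l (nat_lit 2098507146974) (nat_lit 0) (nat_lit 0)) (nat_lit 2098507146974) (Tr.l (nat_lit 2102227697740) (nat_lit 0) (nat_lit 0)))) (nat_lit 2102227697740) (Tr.b (Tr.l (nat_lit 2105488344454) (nat_lit 0) (nat_lit 0)) (nat_lit 2105488344454) (Tr.b (Tr.l (nat_lit 2108484340748) (nat_lit 0) (nat_lit 0)) (nat_lit 2108484340748) (Tr.l (nat_lit 2121042993304) (nat_lit 0) (nat_lit 0))))) (nat_lit 2121042993304) (Tr.b (Tr.b (Tr.l (nat_lit 2125476783023) (nat_lit 0) (nat_lit 0)) (nat_lit 2125476783023) (Tr.b (Tr.l (nat_lit 2127345054668) (nat_lit 0) (nat_lit 0)) (nat_lit 2127345054668) (Tr.l (nat_lit 2139994777288) (nat_lit 0) (nat_lit 0)))) (nat_lit 2139994777288) (Tr.b (Tr.b (Tr.l (nat_lit 2140111819498) (nat_lit 0) (nat_lit 0)) (nat_lit 2140111819498) (Tr.l (nat_lit 2148681042843) (nat_lit 0) (nat_lit 0))) (nat_lit 2148681042843) (Tr.b (Tr.l (nat_lit 2151637523534) (nat_lit 0) (nat_lit 0)) (nat_lit 2151637523534) (Tr.l (nat_lit 2152764172654) (nat_lit 0) (nat_lit 0))))))))) (nat_lit 2152764172654) (Tr.b (Tr.b (Tr.b (Tr.b (Tr.b (Tr.b (Tr.l (nat_lit 2171856833038) (nat_lit 0) (nat_lit 0)) (nat_lit 2171856833038) (Tr.b (Tr.l (nat_lit 2178251591854) (nat_lit 0) (nat_lit 0)) (nat_lit 2178251591854) (Tr.l (nat_lit 2207144391934) (nat_lit 0) (nat_lit 0)))) (nat_lit 2207144391934) (Tr.b (Tr.l (nat_lit 2217180849304) (nat_lit 0) (nat_lit 0)) (nat_lit 2217180849304) (Tr.b (Tr.l (nat_lit 2229461404046) (nat_lit 0) (nat_lit 0)) (nat_lit 2229461404046) (Tr.l (nat_lit 2249610316654) (nat_lit 0) (nat_lit 0))))) (nat_lit 2249610316654) (Tr.b (Tr.b (Tr.l (nat_lit 2286933615675) (nat_lit 0) (nat_lit 0)) (nat_lit 2286933615675) (Tr.b (Tr.l (nat_lit 2303143436225) (nat_lit 0) (nat_lit 0)) (nat_lit 2303143436225) (Tr.l (nat_lit 2403238140198) (nat_lit 0) (nat_lit 0)))) (nat_lit 2403238140198) (Tr.b (Tr.l (nat_lit 2419854314648) (nat_lit 0) (nat_lit 0)) (nat_lit 2419854314648) (Tr.b (Tr.l (nat_lit 2433977629523) (nat_lit 0) (nat_lit 0)) (nat_lit 2433977629523) (Tr.l (nat_lit 2453728307598) (nat_lit 0) (nat_lit 0)))))) (nat_lit 2453728307598) (Tr.b (Tr.b (Tr.b (Tr.l (nat_lit 2508061663598) (nat_lit 0) (nat_lit 0)) (nat_lit 2508061663598) (Tr.b (Tr.l (nat_lit 2531733147718) (nat_lit 0) (nat_lit 0)) (nat_lit 2531733147718) (Tr.l (nat_lit 2548786994968) (nat_lit 0) (nat_lit 0)))) (nat_lit 2548786994968) (Tr.b (Tr.l (nat_lit 2583548604718) (nat_lit 0) (nat_lit 0)) (nat_lit 2583548604718) (Tr.b (Tr.l (nat_lit 2650351723654) (nat_lit 0) (nat_lit 0)) (nat_lit 2650351723654) (Tr.l (nat_lit 2667799844504) (nat_lit 0) (nat_lit 0))))) (nat_lit 2667799844504) (Tr.b (Tr.b (Tr.l (nat_lit 2728838034428) (nat_lit 0) (nat_lit 0)) (nat_lit 2728838034428) (Tr.b (Tr.l (nat_lit 2740936499110) (nat_lit 0) (nat_lit 0)) (nat_lit 2740936499110) (Tr.l (nat_lit 2751544455050) (nat_lit 0) (nat_lit 0)))) (nat_lit 2751544455050) (Tr.b (Tr.b (Tr.l (nat_lit 3077017953353) (nat_lit 0) (nat_lit 0)) (nat_lit 3077017953353) (Tr.l (nat_lit 3115200589803) (nat_lit 0) (nat_lit 0))) (nat_lit 3115200589803) (Tr.b (Tr.l (nat_lit 3171199644590) (nat_lit 0) (nat_lit 0)) (nat_lit 3171199644590) (Tr.l (nat_lit 3176383299083) (nat_lit 0) (nat_lit 0))))))) (nat_lit 3176383299083) (Tr.b (Tr.b (Tr.b (Tr.b (Tr.l (nat_lit 3178406147620) (nat_lit 0) (nat_lit 0)) (nat_lit 3178406147620) (Tr.b (Tr.l (nat_lit 3207073879678) (nat_lit 0) (nat_lit 0)) (nat_lit 3207073879678) (Tr.l (nat_lit 3263218547598) (nat_lit 0) (nat_lit 0)))) (nat_lit 3263218547598) (Tr.b (Tr.l (nat_lit 3325830943598) (nat_lit 0) (nat_lit 0)) (nat_lit 3325830943598) (Tr.b (Tr.l (nat_lit 3473893954030) (nat_lit 0) (nat_lit 0)) (nat_lit 3473893954030) (Tr.l (nat_lit 3521164053528) (nat_lit 0) (nat_lit 0))))) (nat_lit 3521164053528) (Tr.b (Tr.b (Tr.l (nat_lit 3625088431598) (nat_lit 0) (nat_lit 0)) (nat_lit 3625088431598) (Tr.b (Tr.l (nat_lit 3693574682448) (nat_lit 0) (nat_lit 0)) (nat_lit 3693574682448) (Tr.l (nat_lit 3748972145310) (nat_lit 0) (nat_lit 0)))) (nat_lit 3748972145310) (Tr.b (Tr.b (Tr.l (nat_lit 3810954038894) (nat_lit 0) (nat_lit 0)) (nat_lit 3810954038894) (Tr.l (nat_lit 3833100126022) (nat_lit 0) (nat_lit 0))) (nat_lit 3833100126022) (Tr.b (Tr.l (nat_lit 3988929670078) (nat_lit 0) (nat_lit 0)) (nat_lit 3988929670078) (Tr.l (nat_lit 4152386138232) (nat_lit 0) (nat_lit 0)))))) (nat_lit 4152386138232) (Tr.b (Tr.b (Tr.b (Tr.l (nat_lit 4309367005235) (nat_lit 0) (nat_lit 0)) (nat_lit 4309367005235) (Tr.b (Tr.l (nat_lit 4512956515120) (nat_lit 0) (nat_lit 0)) (nat_lit 4512956515120) (Tr.l (nat_lit 4541529668958) (nat_lit 0) (nat_lit 0)))) (nat_lit 4541529668958) (Tr.b (Tr.l (nat_lit 5884779758540) (nat_lit 0) (nat_lit 0)) (nat_lit 5884779758540) (Tr.b (Tr.l (nat_lit 5940948015758) (nat_lit 0) (nat_lit 0)) (nat_lit 5940948015758) (Tr.l (nat_lit 6204719810204) (nat_lit 0) (nat_lit 0))))) (nat_lit 6204719810204) (Tr.b (Tr.b (Tr.l (nat_lit 6629968390754) (nat_lit 0) (nat_lit 0)) (nat_lit 6629968390754) (Tr.b (Tr.l (nat_lit 6714278571304) (nat_lit 0) (nat_lit 0)) (nat_lit 6714278571304) (Tr.l (nat_lit 6764692475790) (nat_lit 0) (nat_lit 0)))) (nat_lit 6764692475790) (Tr.b (Tr.b (Tr.l (nat_lit 6771684251438) (nat_lit 0) (nat_lit 0)) (nat_lit 6771684251438) (Tr.l (nat_lit 6890575122062) (nat_lit 0) (nat_lit 0))) (nat_lit 6890575122062) (Tr.b (Tr.l (nat_lit 6891415144462) (nat_lit 0) (nat_lit 0)) (nat_lit 6891415144462) (Tr.l (nat_lit 6930448487438) (nat_lit 0) (nat_lit 0)))))))) (nat_lit 6930448487438) (Tr.b (Tr.b (Tr.b (Tr.b (Tr.b (Tr.l (nat_lit 6956319212720) (nat_lit 0) (nat_lit 0)) (nat_lit 6956319212720) (Tr.b (Tr.l (nat_lit 6990622308410) (nat_lit 0) (nat_lit 0)) (nat_lit 6990622308410) (Tr.l (nat_lit 6993086710552) (nat_lit 0) (nat_lit 0)))) (nat_lit 6993086710552) (Tr.b (Tr.l (nat_lit 7032384053909) (nat_lit 0) (nat_lit 0)) (nat_lit 7032384053909) (Tr.b (Tr.l (nat_lit 7149412324030) (nat_lit 0) (nat_lit 0)) (nat_lit 7149412324030) (Tr.l (nat_lit 7166620792942) (nat_lit 0) (nat_lit 0))))) (nat_lit 7166620792942) (Tr.b (Tr.b (Tr.l (nat_lit 7433423271278) (nat_lit 0) (nat_lit 0)) (nat_lit 7433423271278) (Tr.b (Tr.l (nat_lit 7557020237904) (nat_lit 0) (nat_lit 0)) (nat_lit 7557020237904) (Tr.l (nat_lit 7725812036638) (nat_lit 0) (nat_lit 0)))) (nat_lit 7725812036638) (Tr.b (Tr.l (nat_lit 8026741755598) (nat_lit 0) (nat_lit 0)) (nat_lit 8026741755598) (Tr.b (Tr.l (nat_lit 8103791985288) (nat_lit 0) (nat_lit 0)) (nat_lit 8103791985288) (Tr.l (nat_lit 8121807461734) (nat_lit 0) (nat_lit 0)))))) (nat_lit 8121807461734) (Tr.b (Tr.b (Tr.b (Tr.l (nat_lit 8122719448294) (nat_lit 0) (nat_lit 0)) (nat_lit 8122719448294) (Tr.b (Tr.l (nat_lit 8165091928294) (nat_lit 0) (nat_lit 0)) (nat_lit 8165091928294) (Tr.l (nat_lit 8199231382326) (nat_lit 0) (nat_lit 0)))) (nat_lit 8199231382326) (Tr.b (Tr.l (nat_lit 8423989613520) (nat_lit 0) (nat_lit 0)) (nat_lit 8423989613520) (Tr.b (Tr.l (nat_lit 8428100037372) (nat_lit 0) (nat_lit 0)) (nat_lit 8428100037372) (Tr.l (nat_lit 8673817220062) (nat_lit 0) (nat_lit 0))))) (nat_lit 8673817220062) (Tr.b (Tr.b (Tr.l (nat_lit 8767177642318) (nat_lit 0) (nat_lit 0)) (nat_lit 8767177642318) (Tr.b (Tr.l (nat_lit 8980175024518) (nat_lit 0) (nat_lit 0)) (nat_lit 8980175024518) (Tr.l (nat_lit 9130441417918) (nat_lit 0) (nat_lit 0)))) (nat_lit 9130441417918) (Tr.b (Tr.b (Tr.l (nat_lit 9807495068552) (nat_lit 0) (nat_lit 0)) (nat_lit 9807495068552) (Tr.l (nat_lit 9814198035402) (nat_lit 0) (nat_lit 0))) (nat_lit 9814198035402) (Tr.b (Tr.l (nat_lit 10123991575502) (nat_lit 0) (nat_lit 0)) (nat_lit 10123991575502) (Tr.l (nat_lit 10243981541502) (nat_lit 0) (nat_lit 0))))))) (nat_lit 10243981541502) (Tr.b (Tr.b (Tr.b (Tr.b (Tr.l (nat_lit 10367975338286) (nat_lit 0) (nat_lit 0)) (nat_lit 10367975338286) (Tr.b (Tr.l (nat_lit 10900222497800) (nat_lit 0) (nat_lit 0)) (nat_lit 10900222497800) (Tr.l (nat_lit 10910155816200) (nat_lit 0) (nat_lit 0)))) (nat_lit 10910155816200) (Tr.b (Tr.l (nat_lit 10933633314312) (nat_lit 0) (nat_lit 0)) (nat_lit 10933633314312) (Tr.b (Tr.l (nat_lit 10944545253518) (nat_lit 0) (nat_lit 0)) (nat_lit 10944545253518) (Tr.l (nat_lit 10970208447474) (nat_lit 0) (nat_lit 0))))) (nat_lit 10970208447474) (Tr.b (Tr.b (Tr.l (nat_lit 10994347257480) (nat_lit 0) (nat_lit 0)) (nat_lit 10994347257480) (Tr.b (Tr.l (nat_lit 11028443254782) (nat_lit 0) (nat_lit 0)) (nat_lit 11028443254782) (Tr.l (nat_lit 11202392260379) (nat_lit 0) (nat_lit 0)))) (nat_lit 11202392260379) (Tr.b (Tr.b (Tr.l (nat_lit 11325294564929) (nat_lit 0) (nat_lit 0)) (nat_lit 11325294564929) (Tr.l (nat_lit 11336187320994) (nat_lit 0) (nat_lit 0))) (nat_lit 11336187320994) (Tr.b (Tr.l (nat_lit 11584264914846) (nat_lit 0) (nat_lit 0)) (nat_lit 11584264914846) (Tr.l (nat_lit 11660903430886) (nat_lit 0) (nat_lit 0)))))) (nat_lit 11660903430886) (Tr.b (Tr.b (Tr.b (Tr.l (nat_lit 11670740131006) (nat_lit 0) (nat_lit 0)) (nat_lit 11670740131006) (Tr.b (Tr.l (nat_lit 11685954231700) (nat_lit 0) (nat_lit 0)) (nat_lit 11685954231700) (Tr.l (nat_lit 11705474996766) (nat_lit 0) (nat_lit 0)))) (nat_lit 11705474996766) (Tr.b (Tr.l (nat_lit 11711250929514) (nat_lit 0) (nat_lit 0)) (nat_lit 11711250929514) (Tr.b (Tr.l (nat_lit 11726217434328) (nat_lit 0) (nat_lit 0)) (nat_lit 11726217434328) (Tr.l (nat_lit 11981611867598) (nat_lit 0) (nat_lit 0))))) (nat_lit 11981611867598) (Tr.b (Tr.b (Tr.l (nat_lit 11993300559694) (nat_lit 0) (nat_lit 0)) (nat_lit 11993300559694) (Tr.b (Tr.l (nat_lit 12008030332732) (nat_lit 0) (nat_lit 0)) (nat_lit 12008030332732) (Tr.l (nat_lit 12028137250732) (nat_lit 0) (nat_lit 0)))) (nat_lit 12028137250732) (Tr.b (Tr.b (Tr.l (nat_lit 12029247087532) (nat_lit 0) (nat_lit 0)) (nat_lit 12029247087532) (Tr.l (nat_lit 12053981978312) (nat_lit 0) (nat_lit 0))) (nat_lit 12053981978312) (Tr.b (Tr.l (nat_lit 12055093006792) (nat_lit 0) (nat_lit 0)) (nat_lit 12055093006792) (Tr.l (nat_lit 12059718216682) (nat_lit 0) (nat_lit 0))))))))))) (nat_lit 12059718216682) (Tr.b (Tr.b (Tr.b (Tr.b (Tr.b (Tr.b (Tr.b (Tr.b (Tr.l (nat_lit 12079062001774) (nat_lit 0) (nat_lit 0)) (nat_lit 12079062001774) (Tr.b (Tr.l (nat_lit 12079868344682) (nat_lit 0) (nat_lit 0)) (nat_lit 12079868344682) (Tr.l (nat_lit 12080799818668) (nat_lit 0) (nat_lit 0)))) (nat_lit 12080799818668) (Tr.b (Tr.l (nat_lit 12080980565482) (nat_lit 0) (nat_lit 0)) (nat_lit 12080980565482) (Tr.b (Tr.l (nat_lit 12085624644154) (nat_lit 0) (nat_lit 0)) (nat_lit 12085624644154) (Tr.l (nat_lit 12105796394554) (nat_lit 0) (nat_lit 0))))) (nat_lit 12105796394554) (Tr.b (Tr.b (Tr.l (nat_lit 12106701031880) (nat_lit 0) (nat_lit 0)) (nat_lit 12106701031880) (Tr.b (Tr.l (nat_lit 12106909808314) (nat_lit 0) (nat_lit 0)) (nat_lit 12106909808314) (Tr.l (nat_lit 12132643914218) (nat_lit 0) (nat_lit 0)))) (nat_lit 12132643914218) (Tr.b (Tr.l (nat_lit 12158628510394) (nat_lit 0) (nat_lit 0)) (nat_lit 12158628510394) (Tr.b (Tr.l (nat_lit 12410785652734) (nat_lit 0) (nat_lit 0)) (nat_lit 12410785652734) (Tr.l (nat_lit 12436389153646) (nat_lit 0) (nat_lit 0)))))) (nat_lit 12436389153646) (Tr.b (Tr.b (Tr.b (Tr.l (nat_lit 12448576464190) (nat_lit 0) (nat_lit 0)) (nat_lit 12448576464190) (Tr.b (Tr.l (nat_lit 12489654297414) (nat_lit 0) (nat_lit 0)) (nat_lit 12489654297414) (Tr.l (nat_lit 12498024362014) (nat_lit 0) (nat_lit 0)))) (nat_lit 12498024362014) (Tr.b (Tr.l (nat_lit 12784182370950) (nat_lit 0) (nat_lit 0)) (nat_lit 12784182370950) (Tr.b (Tr.l (nat_lit 12801014200222) (nat_lit 0) (nat_lit 0)) (nat_lit 12801014200222) (Tr.l (nat_lit 12821774140222) (nat_lit 0) (nat_lit 0))))) (nat_lit 12821774140222) (Tr.b (Tr.b (Tr.l (nat_lit 12822920005822) (nat_lit 0) (nat_lit 0)) (nat_lit 12822920005822) (Tr.b (Tr.l (nat_lit 12836789037486) (nat_lit 0) (nat_lit 0)) (nat_lit 12836789037486) (Tr.l (nat_lit 12865582592350) (nat_lit 0) (nat_lit 0)))) (nat_lit 12865582592350) (Tr.b (Tr.b (Tr.l (nat_lit 12870518579438) (nat_lit 0) (nat_lit 0)) (nat_lit 12870518579438) (Tr.l (nat_lit 12876144473278) (nat_lit 0) (nat_lit 0))) (nat_lit 12876144473278) (Tr.b (Tr.l (nat_lit 12920218173814) (nat_lit 0) (nat_lit 0)) (nat_lit 12920218173814) (Tr.l (nat_lit 12927810794446) (nat_lit 0) (nat_lit 0))))))) (nat_lit 12927810794446) (Tr.b (Tr.b (Tr.b (Tr.b (Tr.l (nat_lit 12929706023854) (nat_lit 0) (nat_lit 0)) (nat_lit 12929706023854) (Tr.b (Tr.l (nat_lit 12945244209422) (nat_lit 0) (nat_lit 0)) (nat_lit 12945244209422) (Tr.l (nat_lit 12964367145006) (nat_lit 0) (nat_lit 0)))) (nat_lit 12964367145006) (Tr.b (Tr.l (nat_lit 13087825670782) (nat_lit 0) (nat_lit 0)) (nat_lit 13087825670782) (Tr.b (Tr.l (nat_lit 13098800135114) (nat_lit 0) (nat_lit 0)) (nat_lit 13098800135114) (Tr.l (nat_lit 13129592848934) (nat_lit 0) (nat_lit 0))))) (nat_lit 13129592848934) (Tr.b (Tr.b (Tr.l (nat_lit 13260773511662) (nat_lit 0) (nat_lit 0)) (nat_lit 13260773511662) (Tr.b (Tr.l (nat_lit 13261938828142) (nat_lit 0) (nat_lit 0)) (nat_lit 13261938828142) (Tr.l (nat_lit 13305791890254) (nat_lit 0) (nat_lit 0)))) (nat_lit 13305791890254) (Tr.b (Tr.l (nat_lit 13316065816430) (nat_lit 0) (nat_lit 0)) (nat_lit 13316065816430) (Tr.b (Tr.l (nat_lit 13350532130254) (nat_lit 0) (nat_lit 0)) (nat_lit 13350532130254) (Tr.l (nat_lit 13611820219954) (nat_lit 0) (nat_lit 0)))))) (nat_lit 13611820219954) (Tr.b (Tr.b (Tr.b (Tr.l (nat_lit 13639076528098) (nat_lit 0) (nat_lit 0)) (nat_lit 13639076528098) (Tr.b (Tr.l (nat_lit 13651325641804) (nat_lit 0) (nat_lit 0)) (nat_lit 13651325641804) (Tr.l (nat_lit 13675902930878) (nat_lit 0) (nat_lit 0)))) (nat_lit 13675902930878) (Tr.b (Tr.l (nat_lit 13678621454348) (nat_lit 0) (nat_lit 0)) (nat_lit 13678621454348) (Tr.b (Tr.l (nat_lit 13689485704702) (nat_lit 0) (nat_lit 0)) (nat_lit 13689485704702) (Tr.l (nat_lit 13710953708702) (nat_lit 0) (nat_lit 0))))) (nat_lit 13710953708702) (Tr.b (Tr.b (Tr.l (nat_lit 13712138639902) (nat_lit 0) (nat_lit 0)) (nat_lit 13712138639902) (Tr.b (Tr.l (nat_lit 13713323620542) (nat_lit 0) (nat_lit 0)) (nat_lit 13713323620542) (Tr.l (nat_lit 13732898053004) (nat_lit 0) (nat_lit 0)))) (nat_lit 13732898053004) (Tr.b (Tr.b (Tr.l (nat_lit 13757203972414) (nat_lit 0) (nat_lit 0)) (nat_lit 13757203972414) (Tr.l (nat_lit 13767175751198) (nat_lit 0) (nat_lit 0))) (nat_lit 13767175751198) (Tr.b (Tr.l (nat_lit 13850890534174) (nat_lit 0) (nat_lit 0)) (nat_lit 13850890534174) (Tr.l (nat_lit 13876165130204) (nat_lit 0) (nat_lit 0)))))))) (nat_lit 13876165130204) (Tr.b (Tr.b (Tr.b (Tr.b (Tr.b (Tr.l (nat_lit 13924137327790) (nat_lit 0) (nat_lit 0)) (nat_lit 13924137327790) (Tr.b (Tr.l (nat_lit 14158185965466) (nat_lit 0) (nat_lit 0)) (nat_lit 14158185965466) (Tr.l (nat_lit 14177984874558) (nat_lit 0) (nat_lit 0)))) (nat_lit 14177984874558) (Tr.b (Tr.l (nat_lit 14254623002342) (nat_lit 0) (nat_lit 0)) (nat_lit 14254623002342) (Tr.b (Tr.l (nat_lit 14255831197222) (nat_lit 0) (nat_lit 0)) (nat_lit 14255831197222) (Tr.l (nat_lit 14295404875214) (nat_lit 0) (nat_lit 0))))) (nat_lit 14295404875214) (Tr.b (Tr.b (Tr.l (nat_lit 14311947743270) (nat_lit 0) (nat_lit 0)) (nat_lit 14311947743270) (Tr.b (Tr.l (nat_lit 14517121192838) (nat_lit 0) (nat_lit 0)) (nat_lit 14517121192838) (Tr.l (nat_lit 14561966546238) (nat_lit 0) (nat_lit 0)))) (nat_lit 14561966546238) (Tr.b (Tr.l (nat_lit 14604210007014) (nat_lit 0) (nat_lit 0)) (nat_lit 14604210007014) (Tr.b (Tr.l (nat_lit 14657063852942) (nat_lit 0) (nat_lit 0)) (nat_lit 14657063852942) (Tr.l (nat_lit 14750872468094) (nat_lit 0) (nat_lit 0)))))) (nat_lit 14750872468094) (Tr.b (Tr.b (Tr.b (Tr.l (nat_lit 14883905174654) (nat_lit 0) (nat_lit 0)) (nat_lit 14883905174654) (Tr.b (Tr.l (nat_lit 15069147720518) (nat_lit 0) (nat_lit 0)) (nat_lit 15069147720518) (Tr.l (nat_lit 15217476895534) (nat_lit 0) (nat_lit 0)))) (nat_lit 15217476895534) (Tr.b (Tr.l (nat_lit 15437984312492) (nat_lit 0) (nat_lit 0)) (nat_lit 15437984312492) (Tr.b (Tr.l (nat_lit 15447132659912) (nat_lit 0) (nat_lit 0)) (nat_lit 15447132659912) (Tr.l (nat_lit 15456299442922) (nat_lit 0) (nat_lit 0))))) (nat_lit 15456299442922) (Tr.b (Tr.b (Tr.l (nat_lit 15465484675514) (nat_lit 0) (nat_lit 0)) (nat_lit 15465484675514) (Tr.b (Tr.l (nat_lit 15480180179078) (nat_lit 0) (nat_lit 0)) (nat_lit 15480180179078) (Tr.l (nat_lit 15502977297478) (nat_lit 0) (nat_lit 0)))) (nat_lit 15502977297478) (Tr.b (Tr.b (Tr.l (nat_lit 15545135912728) (nat_lit 0) (nat_lit 0)) (nat_lit 15545135912728) (Tr.l (nat_lit 15583873410966) (nat_lit 0) (nat_lit 0))) (nat_lit 15583873410966) (Tr.b (Tr.l (nat_lit 15630810930478) (nat_lit 0) (nat_lit 0)) (nat_lit 15630810930478) (Tr.l (nat_lit 15720511681982) (nat_lit 0) (nat_lit 0))))))) (nat_lit 15720511681982) (Tr.b (Tr.b (Tr.b (Tr.b (Tr.l (nat_lit 15878105444462) (nat_lit 0) (nat_lit 0)) (nat_lit 15878105444462) (Tr.b (Tr.l (nat_lit 15978935032838) (nat_lit 0) (nat_lit 0)) (nat_lit 15978935032838) (Tr.l (nat_lit 16033265561240) (nat_lit 0) (nat_lit 0)))) (nat_lit 16033265561240) (Tr.b (Tr.l (nat_lit 16040586118942) (nat_lit 0) (nat_lit 0)) (nat_lit 16040586118942) (Tr.b (Tr.l (nat_lit 16208016177614) (nat_lit 0) (nat_lit 0)) (nat_lit 16208016177614) (Tr.l (nat_lit 16620677005758) (nat_lit 0) (nat_lit 0))))) (nat_lit 16620677005758) (Tr.b (Tr.b (Tr.l (nat_lit 16877285428314) (nat_lit 0) (nat_lit 0)) (nat_lit 16877285428314) (Tr.b (Tr.l (nat_lit 17203701476862) (nat_lit 0) (nat_lit 0)) (nat_lit 17203701476862) (Tr.l (nat_lit 17522914420998) (nat_lit 0) (nat_lit 0)))) (nat_lit 17522914420998) (Tr.b (Tr.b (Tr.l (nat_lit 17567733655448) (nat_lit 0) (nat_lit 0)) (nat_lit 17567733655448) (Tr.l (nat_lit 17658804508398) (nat_lit 0) (nat_lit 0))) (nat_lit 17658804508398) (Tr.b (Tr.l (nat_lit 17804062421198) (nat_lit 0) (nat_lit 0)) (nat_lit 17804062421198) (Tr.l (nat_lit 17931756362222) (nat_lit 0) (nat_lit 0)))))) (nat_lit 17931756362222) (Tr.b (Tr.b (Tr.b (Tr.l (nat_lit 18660931323782) (nat_lit 0) (nat_lit 0)) (nat_lit 18660931323782) (Tr.b (Tr.l (nat_lit 19062440629028) (nat_lit 0) (nat_lit 0)) (nat_lit 19062440629028) (Tr.l (nat_lit 19089904270748) (nat_lit 0) (nat_lit 0)))) (nat_lit 19089904270748) (Tr.b (Tr.l (nat_lit 19508979109208) (nat_lit 0) (nat_lit 0)) (nat_lit 19508979109208) (Tr.b (Tr.l (nat_lit 20318656112310) (nat_lit 0) (nat_lit 0)) (nat_lit 20318656112310) (Tr.l (nat_lit 20355564240030) (nat_lit 0) (nat_lit 0))))) (nat_lit 20355564240030) (Tr.b (Tr.b (Tr.l (nat_lit 21608797490174) (nat_lit 0) (nat_lit 0)) (nat_lit 21608797490174) (Tr.b (Tr.l (nat_lit 21683313370630) (nat_lit 0) (nat_lit 0)) (nat_lit 21683313370630) (Tr.l (nat_lit 21929650747982) (nat_lit 0) (nat_lit 0)))) (nat_lit 21929650747982) (Tr.b (Tr.b (Tr.l (nat_lit 21931149304782) (nat_lit 0) (nat_lit 0)) (nat_lit 21931149304782) (Tr.l (nat_lit 22000738643918) (nat_lit 0) (nat_lit 0))) (nat_lit 22000738643918) (Tr.b (Tr.l (nat_lit 22579645753080) (nat_lit 0) (nat_lit 0)) (nat_lit 22579645753080) (Tr.l (nat_lit 22597763512702) (nat_lit 0) (nat_lit 0))))))))) (nat_lit 22597763512702) (Tr.b (Tr.b (Tr.b (Tr.b (Tr.b (Tr.b (Tr.l (nat_lit 22736370183888) (nat_lit 0) (nat_lit 0)) (nat_lit 22736370183888) (Tr.b (Tr.l (nat_lit 22994848244478) (nat_lit 0) (nat_lit 0)) (nat_lit 22994848244478) (Tr.l (nat_lit 23268182982702) (nat_lit 0) (nat_lit 0)))) (nat_lit 23268182982702) (Tr.b (Tr.l (nat_lit 23340788141102) (nat_lit 0) (nat_lit 0)) (nat_lit 23340788141102) (Tr.b (Tr.l (nat_lit 23342334160302) (nat_lit 0) (nat_lit 0)) (nat_lit 23342334160302) (Tr.l (nat_lit 23414125754798) (nat_lit 0) (nat_lit 0))))) (nat_lit 23414125754798) (Tr.b (Tr.b (Tr.l (nat_lit 23673269106366) (nat_lit 0) (nat_lit 0)) (nat_lit 23673269106366) (Tr.b (Tr.l (nat_lit 23694312280442) (nat_lit 0) (nat_lit 0)) (nat_lit 23694312280442) (Tr.l (nat_lit 23757614873726) (nat_lit 0) (nat_lit 0)))) (nat_lit 23757614873726) (Tr.b (Tr.l (nat_lit 23953413874398) (nat_lit 0) (nat_lit 0)) (nat_lit 23953413874398) (Tr.b (Tr.l (nat_lit 23991955491006) (nat_lit 0) (nat_lit 0)) (nat_lit 23991955491006) (Tr.l (nat_lit 24011318112982) (nat_lit 0) (nat_lit 0)))))) (nat_lit 24011318112982) (Tr.b (Tr.b (Tr.b (Tr.l (nat_lit 24080101494536) (nat_lit 0) (nat_lit 0)) (nat_lit 24080101494536) (Tr.b (Tr.l (nat_lit 24648507953118) (nat_lit 0) (nat_lit 0)) (nat_lit 24648507953118) (Tr.l (nat_lit 24653672800654) (nat_lit 0) (nat_lit 0)))) (nat_lit 24653672800654) (Tr.b (Tr.l (nat_lit 25150766939918) (nat_lit 0) (nat_lit 0)) (nat_lit 25150766939918) (Tr.b (Tr.l (nat_lit 25212560229680) (nat_lit 0) (nat_lit 0)) (nat_lit 25212560229680) (Tr.l (nat_lit 25853706616718) (nat_lit 0) (nat_lit 0))))) (nat_lit 25853706616718) (Tr.b (Tr.b (Tr.l (nat_lit 26481377846918) (nat_lit 0) (nat_lit 0)) (nat_lit 26481377846918) (Tr.b (Tr.l (nat_lit 26571612831758) (nat_lit 0) (nat_lit 0)) (nat_lit 26571612831758) (Tr.l (nat_lit 26659474383003) (nat_lit 0) (nat_lit 0)))) (nat_lit 26659474383003) (Tr.b (Tr.b (Tr.l (nat_lit 27089176433118) (nat_lit 0) (nat_lit 0)) (nat_lit 27089176433118) (Tr.l (nat_lit 28458789647238) (nat_lit 0) (nat_lit 0))) (nat_lit 28458789647238) (Tr.b (Tr.l (nat_lit 28515899329688) (nat_lit 0) (nat_lit 0)) (nat_lit 28515899329688) (Tr.l (nat_lit 30302801034142) (nat_lit 0) (nat_lit 0))))))) (nat_lit 30302801034142) (Tr.b (Tr.b (Tr.b (Tr.b (Tr.l (nat_lit 31514463005822) (nat_lit 0) (nat_lit 0)) (nat_lit 31514463005822) (Tr.b (Tr.l (nat_lit 32188263923262) (nat_lit 0) (nat_lit 0)) (nat_lit 32188263923262) (Tr.l (nat_lit 32922951301144) (nat_lit 0) (nat_lit 0)))) (nat_lit 32922951301144) (Tr.b (Tr.l (nat_lit 33076002391614) (nat_lit 0) (nat_lit 0)) (nat_lit 33076002391614) (Tr.b (Tr.l (nat_lit 33475741990894) (nat_lit 0) (nat_lit 0)) (nat_lit 33475741990894) (Tr.l (nat_lit 33616190652400) (nat_lit 0) (nat_lit 0))))) (nat_lit 33616190652400) (Tr.b (Tr.b (Tr.l (nat_lit 36204066368314) (nat_lit 0) (nat_lit 0)) (nat_lit 36204066368314) (Tr.b (Tr.l (nat_lit 36205991827834) (nat_lit 0) (nat_lit 0)) (nat_lit 36205991827834) (Tr.l (nat_lit 36333836353978) (nat_lit 0) (nat_lit 0)))) (nat_lit 36333836353978) (Tr.b (Tr.b (Tr.l (nat_lit 37680105174152) (nat_lit 0) (nat_lit 0)) (nat_lit 37680105174152) (Tr.l (nat_lit 37724683225802) (nat_lit 0) (nat_lit 0))) (nat_lit 37724683225802) (Tr.b (Tr.l (nat_lit 38152642041694) (nat_lit 0) (nat_lit 0)) (nat_lit 38152642041694) (Tr.l (nat_lit 38993708714526) (nat_lit 0) (nat_lit 0)))))) (nat_lit 38993708714526) (Tr.b (Tr.b (Tr.b (Tr.l (nat_lit 39737166660302) (nat_lit 0) (nat_lit 0)) (nat_lit 39737166660302) (Tr.b (Tr.l (nat_lit 40494161221502) (nat_lit 0) (nat_lit 0)) (nat_lit 40494161221502) (Tr.l (nat_lit 41264875980846) (nat_lit 0) (nat_lit 0)))) (nat_lit 41264875980846) (Tr.b (Tr.l (nat_lit 43312065101254) (nat_lit 0) (nat_lit 0)) (nat_lit 43312065101254) (Tr.b (Tr.l (nat_lit 43407597633544) (nat_lit 0) (nat_lit 0)) (nat_lit 43407597633544) (Tr.l (nat_lit 43558076519358) (nat_lit 0) (nat_lit 0))))) (nat_lit 43558076519358) (Tr.b (Tr.b (Tr.l (nat_lit 46786810687780) (nat_lit 0) (nat_lit 0)) (nat_lit 46786810687780) (Tr.b (Tr.l (nat_lit 47001863379838) (nat_lit 0) (nat_lit 0)) (nat_lit 47001863379838) (Tr.l (nat_lit 48917130768126) (nat_lit 0) (nat_lit 0)))) (nat_lit 48917130768126) (Tr.b (Tr.b (Tr.l (nat_lit 48970863332590) (nat_lit 0) (nat_lit 0)) (nat_lit 48970863332590) (Tr.l (nat_lit 49451225026328) (nat_lit 0) (nat_lit 0))) (nat_lit 49451225026328) (Tr.b (Tr.l (nat_lit 49736546925438) (nat_lit 0) (nat_lit 0)) (nat_lit 49736546925438) (Tr.l (nat_lit 49789397410732) (nat_lit 0) (nat_lit 0)))))))) (nat_lit 49789397410732) (Tr.b (Tr.b (Tr.b (Tr.b (Tr.b (Tr.l (nat_lit 49841965562312) (nat_lit 0) (nat_lit 0)) (nat_lit 49841965562312) (Tr.b (Tr.l (nat_lit 49894589704682) (nat_lit 0) (nat_lit 0)) (nat_lit 49894589704682) (Tr.l (nat_lit 49947269882554) (nat_lit 0) (nat_lit 0)))) (nat_lit 49947269882554) (Tr.b (Tr.l (nat_lit 50200717951598) (nat_lit 0) (nat_lit 0)) (nat_lit 50200717951598) (Tr.b (Tr.l (nat_lit 51388871715504) (nat_lit 0) (nat_lit 0)) (nat_lit 51388871715504) (Tr.l (nat_lit 51390980140222) (nat_lit 0) (nat_lit 0))))) (nat_lit 51390980140222) (Tr.b (Tr.b (Tr.l (nat_lit 52266165495662) (nat_lit 0) (nat_lit 0)) (nat_lit 52266165495662) (Tr.b (Tr.l (nat_lit 52623279810238) (nat_lit 0) (nat_lit 0)) (nat_lit 52623279810238) (Tr.l (nat_lit 53156205788702) (nat_lit 0) (nat_lit 0)))) (nat_lit 53156205788702) (Tr.b (Tr.l (nat_lit 56507792174558) (nat_lit 0) (nat_lit 0)) (nat_lit 56507792174558) (Tr.b (Tr.l (nat_lit 57767999174718) (nat_lit 0) (nat_lit 0)) (nat_lit 57767999174718) (Tr.l (nat_lit 59974076907354) (nat_lit 0) (nat_lit 0)))))) (nat_lit 59974076907354) (Tr.b (Tr.b (Tr.b (Tr.l (nat_lit 63821405493902) (nat_lit 0) (nat_lit 0)) (nat_lit 63821405493902) (Tr.b (Tr.l (nat_lit 64894209519678) (nat_lit 0) (nat_lit 0)) (nat_lit 64894209519678) (Tr.l (nat_lit 65978811332798) (nat_lit 0) (nat_lit 0)))) (nat_lit 65978811332798) (Tr.b (Tr.l (nat_lit 67080788459838) (nat_lit 0) (nat_lit 0)) (nat_lit 67080788459838) (Tr.b (Tr.l (nat_lit 67093501582870) (nat_lit 0) (nat_lit 0)) (nat_lit 67093501582870) (Tr.l (nat_lit 71048285422982) (nat_lit 0) (nat_lit 0))))) (nat_lit 71048285422982) (Tr.b (Tr.b (Tr.l (nat_lit 71538516745752) (nat_lit 0) (nat_lit 0)) (nat_lit 71538516745752) (Tr.b (Tr.l (nat_lit 72235015276990) (nat_lit 0) (nat_lit 0)) (nat_lit 72235015276990) (Tr.l (nat_lit 72858622045118) (nat_lit 0) (nat_lit 0)))) (nat_lit 72858622045118) (Tr.b (Tr.b (Tr.l (nat_lit 73833986321518) (nat_lit 0) (nat_lit 0)) (nat_lit 73833986321518) (Tr.l (nat_lit 74892242153854) (nat_lit 0) (nat_lit 0))) (nat_lit 74892242153854) (Tr.b (Tr.l (nat_lit 75459356273438) (nat_lit 0) (nat_lit 0)) (nat_lit 75459356273438) (Tr.l (nat_lit 75702358847158) (nat_lit 0) (nat_lit 0))))))) (nat_lit 75702358847158) (Tr.b (Tr.b (Tr.b (Tr.b (Tr.l (nat_lit 85612055066710) (nat_lit 0) (nat_lit 0)) (nat_lit 85612055066710) (Tr.b (Tr.l (nat_lit 94062987439004) (nat_lit 0) (nat_lit 0)) (nat_lit 94062987439004) (Tr.l (nat_lit 143319936823422) (nat_lit 0) (nat_lit 0)))) (nat_lit 143319936823422) (Tr.b (Tr.l (nat_lit 145988993185582) (nat_lit 0) (nat_lit 0)) (nat_lit 145988993185582) (Tr.b (Tr.l (nat_lit 148695160248798) (nat_lit 0) (nat_lit 0)) (nat_lit 148695160248798) (Tr.l (nat_lit 151438780455054) (nat_lit 0) (nat_lit 0))))) (nat_lit 151438780455054) (Tr.b (Tr.b (Tr.l (nat_lit 160287705968942) (nat_lit 0) (nat_lit 0)) (nat_lit 160287705968942) (Tr.b (Tr.l (nat_lit 171964000271468) (nat_lit 0) (nat_lit 0)) (nat_lit 171964000271468) (Tr.l (nat_lit 172693187486622) (nat_lit 0) (nat_lit 0)))) (nat_lit 172693187486622) (Tr.b (Tr.b (Tr.l (nat_lit 208636476396974) (nat_lit 0) (nat_lit 0)) (nat_lit 208636476396974) (Tr.l (nat_lit 230619880771614) (nat_lit 0) (nat_lit 0))) (nat_lit 230619880771614) (Tr.b (Tr.l (nat_lit 301000275060188) (nat_lit 0) (nat_lit 0)) (nat_lit 301000275060188) (Tr.l (nat_lit 476307054386482) (nat_lit 0) (nat_lit 0)))))) (nat_lit 476307054386482) (Tr.b (Tr.b (Tr.b (Tr.l (nat_lit 478080258447110) (nat_lit 0) (nat_lit 0)) (nat_lit 478080258447110) (Tr.b (Tr.l (nat_lit 478280322688283) (nat_lit 0) (nat_lit 0)) (nat_lit 478280322688283) (Tr.l (nat_lit 485291115897394) (nat_lit 0) (nat_lit 0)))) (nat_lit 485291115897394) (Tr.b (Tr.l (nat_lit 503805498165062) (nat_lit 0) (nat_lit 0)) (nat_lit 503805498165062) (Tr.b (Tr.l (nat_lit 506281230486278) (nat_lit 0) (nat_lit 0)) (nat_lit 506281230486278) (Tr.l (nat_lit 510564302843782) (nat_lit 0) (nat_lit 0))))) (nat_lit 510564302843782) (Tr.b (Tr.b (Tr.l (nat_lit 520103692631942) (nat_lit 0) (nat_lit 0)) (nat_lit 520103692631942) (Tr.b (Tr.l (nat_lit 526275671805728) (nat_lit 0) (nat_lit 0)) (nat_lit 526275671805728) (Tr.l (nat_lit 533358333282212) (nat_lit 0) (nat_lit 0)))) (nat_lit 533358333282212) (Tr.b (Tr.b (Tr.l (nat_lit 547738698187418) (nat_lit 0) (nat_lit 0)) (nat_lit 547738698187418) (Tr.l (nat_lit 578132113406954) (nat_lit 0) (nat_lit 0))) (nat_lit 578132113406954) (Tr.b (Tr.l (nat_lit 578839546978088) (nat_lit 0) (nat_lit 0)) (nat_lit 578839546978088) (Tr.l (nat_lit 598012495133606) (nat_lit 0) (nat_lit 0)))))))))) (nat_lit 598012495133606) (Tr.b (Tr.b (Tr.b (Tr.b (Tr.b (Tr.b (Tr.b (Tr.l (nat_lit 600136129401394) (nat_lit 0) (nat_lit 0)) (nat_lit 600136129401394) (Tr.b (Tr.l (nat_lit 606972628706862) (nat_lit 0) (nat_lit 0)) (nat_lit 606972628706862) (Tr.l (nat_lit 622227032690652) (nat_lit 0) (nat_lit 0)))) (nat_lit 622227032690652) (Tr.b (Tr.l (nat_lit 623047727064408) (nat_lit 0) (nat_lit 0)) (nat_lit 623047727064408) (Tr.b (Tr.l (nat_lit 624251998936208) (nat_lit 0) (nat_lit 0)) (nat_lit 624251998936208) (Tr.l (nat_lit 637738454236536) (nat_lit 0) (nat_lit 0))))) (nat_lit 637738454236536) (Tr.b (Tr.b (Tr.l (nat_lit 640905830590342) (nat_lit 0) (nat_lit 0)) (nat_lit 640905830590342) (Tr.b (Tr.l (nat_lit 647060021452702) (nat_lit 0) (nat_lit 0)) (nat_lit 647060021452702) (Tr.l (nat_lit 708651339696106) (nat_lit 0) (nat_lit 0)))) (nat_lit 708651339696106) (Tr.b (Tr.l (nat_lit 715775981058806) (nat_lit 0) (nat_lit 0)) (nat_lit 715775981058806) (Tr.b (Tr.l (nat_lit 732077677585654) (nat_lit 0) (nat_lit 0)) (nat_lit 732077677585654) (Tr.l (nat_lit 733707221302822) (nat_lit 0) (nat_lit 0)))))) (nat_lit 733707221302822) (Tr.b (Tr.b (Tr.b (Tr.l (nat_lit 750264415918592) (nat_lit 0) (nat_lit 0)) (nat_lit 750264415918592) (Tr.b (Tr.l (nat_lit 760275402561200) (nat_lit 0) (nat_lit 0)) (nat_lit 760275402561200) (Tr.l (nat_lit 761184924718856) (nat_lit 0) (nat_lit 0)))) (nat_lit 761184924718856) (Tr.b (Tr.l (nat_lit 762881662597604) (nat_lit 0) (nat_lit 0)) (nat_lit 762881662597604) (Tr.b (Tr.l (nat_lit 764047350452254) (nat_lit 0) (nat_lit 0)) (nat_lit 764047350452254) (Tr.l (nat_lit 768818470943652) (nat_lit 0) (nat_lit 0))))) (nat_lit 768818470943652) (Tr.b (Tr.b (Tr.l (nat_lit 778256222904104) (nat_lit 0) (nat_lit 0)) (nat_lit 778256222904104) (Tr.b (Tr.l (nat_lit 779281532912062) (nat_lit 0) (nat_lit 0)) (nat_lit 779281532912062) (Tr.l (nat_lit 868664213222982) (nat_lit 0) (nat_lit 0)))) (nat_lit 868664213222982) (Tr.b (Tr.b (Tr.l (nat_lit 887513095096902) (nat_lit 0) (nat_lit 0)) (nat_lit 887513095096902) (Tr.l (nat_lit 899520453890934) (nat_lit 0) (nat_lit 0))) (nat_lit 899520453890934) (Tr.b (Tr.l (nat_lit 921111574187192) (nat_lit 0) (nat_lit 0)) (nat_lit 921111574187192) (Tr.l (nat_lit 1034650140696554) (nat_lit 0) (nat_lit 0))))))) (nat_lit 1034650140696554) (Tr.b (Tr.b (Tr.b (Tr.b (Tr.l (nat_lit 1044828951670166) (nat_lit 0) (nat_lit 0)) (nat_lit 1044828951670166) (Tr.b (Tr.l (nat_lit 1066477428452246) (nat_lit 0) (nat_lit 0)) (nat_lit 1066477428452246) (Tr.l (nat_lit 1091968753542342) (nat_lit 0) (nat_lit 0)))) (nat_lit 1091968753542342) (Tr.b (Tr.l (nat_lit 1103918433817344) (nat_lit 0) (nat_lit 0)) (nat_lit 1103918433817344) (Tr.b (Tr.l (nat_lit 1105006895990376) (nat_lit 0) (nat_lit 0)) (nat_lit 1105006895990376) (Tr.l (nat_lit 1108035054152708) (nat_lit 0) (nat_lit 0))))) (nat_lit 1108035054152708) (Tr.b (Tr.b (Tr.l (nat_lit 1127583894924936) (nat_lit 0) (nat_lit 0)) (nat_lit 1127583894924936) (Tr.b (Tr.l (nat_lit 1245355268236820) (nat_lit 0) (nat_lit 0)) (nat_lit 1245355268236820) (Tr.l (nat_lit 1257691253246004) (nat_lit 0) (nat_lit 0)))) (nat_lit 1257691253246004) (Tr.b (Tr.l (nat_lit 1258780089868033) (nat_lit 0) (nat_lit 0)) (nat_lit 1258780089868033) (Tr.b (Tr.l (nat_lit 1273298898023244) (nat_lit 0) (nat_lit 0)) (nat_lit 1273298898023244) (Tr.l (nat_lit 1313762548363798) (nat_lit 0) (nat_lit 0)))))) (nat_lit 1313762548363798) (Tr.b (Tr.b (Tr.b (Tr.l (nat_lit 1316375106594808) (nat_lit 0) (nat_lit 0)) (nat_lit 1316375106594808) (Tr.b (Tr.l (nat_lit 1324739425487818) (nat_lit 0) (nat_lit 0)) (nat_lit 1324739425487818) (Tr.l (nat_lit 1335769900546698) (nat_lit 0) (nat_lit 0)))) (nat_lit 1335769900546698) (Tr.b (Tr.l (nat_lit 1344666311375512) (nat_lit 0) (nat_lit 0)) (nat_lit 1344666311375512) (Tr.b (Tr.l (nat_lit 1369247172649256) (nat_lit 0) (nat_lit 0)) (nat_lit 1369247172649256) (Tr.l (nat_lit 1392284000096922) (nat_lit 0) (nat_lit 0))))) (nat_lit 1392284000096922) (Tr.b (Tr.b (Tr.l (nat_lit 1855749795833262) (nat_lit 0) (nat_lit 0)) (nat_lit 1855749795833262) (Tr.b (Tr.l (nat_lit 1876157691812914) (nat_lit 0) (nat_lit 0)) (nat_lit 1876157691812914) (Tr.l (nat_lit 1947895974115102) (nat_lit 0) (nat_lit 0)))) (nat_lit 1947895974115102) (Tr.b (Tr.b (Tr.l (nat_lit 1971424469327494) (nat_lit 0) (nat_lit 0)) (nat_lit 1971424469327494) (Tr.l (nat_lit 2309687305365334) (nat_lit 0) (nat_lit 0))) (nat_lit 2309687305365334) (Tr.b (Tr.l (nat_lit 2311572187365848) (nat_lit 0) (nat_lit 0)) (nat_lit 2311572187365848) (Tr.l (nat_lit 2463536537161770) (nat_lit 0) (nat_lit 0)))))))) (nat_lit 2463536537161770) (Tr.b (Tr.b (Tr.b (Tr.b (Tr.b (Tr.l (nat_lit 2613891421094822) (nat_lit 0) (nat_lit 0)) (nat_lit 2613891421094822) (Tr.b (Tr.l (nat_lit 2817474085659944) (nat_lit 0) (nat_lit 0)) (nat_lit 2817474085659944) (Tr.l (nat_lit 2831296251514966) (nat_lit 0) (nat_lit 0)))) (nat_lit 2831296251514966) (Tr.b (Tr.l (nat_lit 2833492118679256) (nat_lit 0) (nat_lit 0)) (nat_lit 2833492118679256) (Tr.b (Tr.l (nat_lit 3204390292574454) (nat_lit 0) (nat_lit 0)) (nat_lit 3204390292574454) (Tr.l (nat_lit 3208247287917996) (nat_lit 0) (nat_lit 0))))) (nat_lit 3208247287917996) (Tr.b (Tr.b (Tr.l (nat_lit 3439170841385944) (nat_lit 0) (nat_lit 0)) (nat_lit 3439170841385944) (Tr.b (Tr.l (nat_lit 4134206859780694) (nat_lit 0) (nat_lit 0)) (nat_lit 4134206859780694) (Tr.l (nat_lit 4137123665021144) (nat_lit 0) (nat_lit 0)))) (nat_lit 4137123665021144) (Tr.b (Tr.l (nat_lit 4679471442222998) (nat_lit 0) (nat_lit 0)) (nat_lit 4679471442222998) (Tr.b (Tr.l (nat_lit 5150181639041678) (nat_lit 0) (nat_lit 0)) (nat_lit 5150181639041678) (Tr.l (nat_lit 5189483529325318) (nat_lit 0) (nat_lit 0)))))) (nat_lit 5189483529325318) (Tr.b (Tr.b (Tr.b (Tr.l (nat_lit 5196003580873102) (nat_lit 0) (nat_lit 0)) (nat_lit 5196003580873102) (Tr.b (Tr.l (nat_lit 5221515476341414) (nat_lit 0) (nat_lit 0)) (nat_lit 5221515476341414) (Tr.l (nat_lit 5222028824381734) (nat_lit 0) (nat_lit 0)))) (nat_lit 5222028824381734) (Tr.b (Tr.l (nat_lit 5223353933913574) (nat_lit 0) (nat_lit 0)) (nat_lit 5223353933913574) (Tr.b (Tr.l (nat_lit 5228842251620014) (nat_lit 0) (nat_lit 0)) (nat_lit 5228842251620014) (Tr.l (nat_lit 5233811251310584) (nat_lit 0) (nat_lit 0))))) (nat_lit 5233811251310584) (Tr.b (Tr.b (Tr.l (nat_lit 5234325203404024) (nat_lit 0) (nat_lit 0)) (nat_lit 5234325203404024) (Tr.b (Tr.l (nat_lit 5235651872045944) (nat_lit 0) (nat_lit 0)) (nat_lit 5235651872045944) (Tr.l (nat_lit 5259490016642570) (nat_lit 0) (nat_lit 0)))) (nat_lit 5259490016642570) (Tr.b (Tr.b (Tr.l (nat_lit 5260938387501046) (nat_lit 0) (nat_lit 0)) (nat_lit 5260938387501046) (Tr.l (nat_lit 5261453669761654) (nat_lit 0) (nat_lit 0))) (nat_lit 5261453669761654) (Tr.b (Tr.l (nat_lit 5262783771672886) (nat_lit 0) (nat_lit 0)) (nat_lit 5262783771672886) (Tr.l (nat_lit 5273303702626216) (nat_lit 0) (nat_lit 0))))))) (nat_lit 5273303702626216) (Tr.b (Tr.b (Tr.b (Tr.b (Tr.l (nat_lit 5273819590076584) (nat_lit 0) (nat_lit 0)) (nat_lit 5273819590076584) (Tr.b (Tr.l (nat_lit 5275151254031656) (nat_lit 0) (nat_lit 0)) (nat_lit 5275151254031656) (Tr.l (nat_lit 5276439430260908) (nat_lit 0) (nat_lit 0)))) (nat_lit 5276439430260908) (Tr.b (Tr.l (nat_lit 5277797868597038) (nat_lit 0) (nat_lit 0)) (nat_lit 5277797868597038) (Tr.b (Tr.l (nat_lit 5286972412181902) (nat_lit 0) (nat_lit 0)) (nat_lit 5286972412181902) (Tr.l (nat_lit 5301101335033798) (nat_lit 0) (nat_lit 0))))) (nat_lit 5301101335033798) (Tr.b (Tr.b (Tr.l (nat_lit 5302845537188908) (nat_lit 0) (nat_lit 0)) (nat_lit 5302845537188908) (Tr.b (Tr.l (nat_lit 5313537058345048) (nat_lit 0) (nat_lit 0)) (nat_lit 5313537058345048) (Tr.l (nat_lit 5315284763093948) (nat_lit 0) (nat_lit 0)))) (nat_lit 5315284763093948) (Tr.b (Tr.b (Tr.l (nat_lit 5320442290416302) (nat_lit 0) (nat_lit 0)) (nat_lit 5320442290416302) (Tr.l (nat_lit 5340453496577686) (nat_lit 0) (nat_lit 0))) (nat_lit 5340453496577686) (Tr.b (Tr.l (nat_lit 5340972658190614) (nat_lit 0) (nat_lit 0)) (nat_lit 5340972658190614) (Tr.l (nat_lit 5342728084891004) (nat_lit 0) (nat_lit 0)))))) (nat_lit 5342728084891004) (Tr.b (Tr.b (Tr.b (Tr.l (nat_lit 5353478446693384) (nat_lit 0) (nat_lit 0)) (nat_lit 5353478446693384) (Tr.b (Tr.l (nat_lit 5354820129438856) (nat_lit 0) (nat_lit 0)) (nat_lit 5354820129438856) (Tr.l (nat_lit 5355237390762604) (nat_lit 0) (nat_lit 0)))) (nat_lit 5355237390762604) (Tr.b (Tr.l (nat_lit 5387956367290648) (nat_lit 0) (nat_lit 0)) (nat_lit 5387956367290648) (Tr.b (Tr.l (nat_lit 5396547024247226) (nat_lit 0) (nat_lit 0)) (nat_lit 5396547024247226) (Tr.l (nat_lit 5423167655823388) (nat_lit 0) (nat_lit 0))))) (nat_lit 5423167655823388) (Tr.b (Tr.b (Tr.l (nat_lit 5796446939494348) (nat_lit 0) (nat_lit 0)) (nat_lit 5796446939494348) (Tr.b (Tr.l (nat_lit 5796675954031564) (nat_lit 0) (nat_lit 0)) (nat_lit 5796675954031564) (Tr.l (nat_lit 5797216836110284) (nat_lit 0) (nat_lit 0)))) (nat_lit 5797216836110284) (Tr.b (Tr.b (Tr.l (nat_lit 5798613013227724) (nat_lit 0) (nat_lit 0)) (nat_lit 5798613013227724) (Tr.l (nat_lit 5799874712272264) (nat_lit 0) (nat_lit 0))) (nat_lit 5799874712272264) (Tr.b (Tr.l (nat_lit 5801992372225354) (nat_lit 0) (nat_lit 0)) (nat_lit 5801992372225354) (Tr.l (nat_lit 5802533502276298) (nat_lit 0) (nat_lit 0))))))))) (nat_lit 5802533502276298) (Tr.b (Tr.b (Tr.b (Tr.b (Tr.b (Tr.b (Tr.l (nat_lit 5803930319430154) (nat_lit 0) (nat_lit 0)) (nat_lit 5803930319430154) (Tr.b (Tr.l (nat_lit 5804651952273466) (nat_lit 0) (nat_lit 0)) (nat_lit 5804651952273466) (Tr.l (nat_lit 5805193206331834) (nat_lit 0) (nat_lit 0)))) (nat_lit 5805193206331834) (Tr.b (Tr.l (nat_lit 5806590343558906) (nat_lit 0) (nat_lit 0)) (nat_lit 5806590343558906) (Tr.b (Tr.l (nat_lit 5877351493279774) (nat_lit 0) (nat_lit 0)) (nat_lit 5877351493279774) (Tr.l (nat_lit 5878757286345694) (nat_lit 0) (nat_lit 0))))) (nat_lit 5878757286345694) (Tr.b (Tr.b (Tr.l (nat_lit 5884629607884208) (nat_lit 0) (nat_lit 0)) (nat_lit 5884629607884208) (Tr.b (Tr.l (nat_lit 5890006459372454) (nat_lit 0) (nat_lit 0)) (nat_lit 5890006459372454) (Tr.l (nat_lit 5892696266446048) (nat_lit 0) (nat_lit 0)))) (nat_lit 5892696266446048) (Tr.b (Tr.l (nat_lit 5920428149424334) (nat_lit 0) (nat_lit 0)) (nat_lit 5920428149424334) (Tr.b (Tr.l (nat_lit 5963192572544254) (nat_lit 0) (nat_lit 0)) (nat_lit 5963192572544254) (Tr.l (nat_lit 5963741168188798) (nat_lit 0) (nat_lit 0)))))) (nat_lit 5963741168188798) (Tr.b (Tr.b (Tr.b (Tr.l (nat_lit 5965157254645054) (nat_lit 0) (nat_lit 0)) (nat_lit 5965157254645054) (Tr.b (Tr.l (nat_lit 5965669947824698) (nat_lit 0) (nat_lit 0)) (nat_lit 5965669947824698) (Tr.l (nat_lit 5996825054873314) (nat_lit 0) (nat_lit 0)))) (nat_lit 5996825054873314) (Tr.b (Tr.l (nat_lit 6006740817525166) (nat_lit 0) (nat_lit 0)) (nat_lit 6006740817525166) (Tr.b (Tr.l (nat_lit 6007291412633134) (nat_lit 0) (nat_lit 0)) (nat_lit 6007291412633134) (Tr.l (nat_lit 6008153318260006) (nat_lit 0) (nat_lit 0))))) (nat_lit 6008153318260006) (Tr.b (Tr.b (Tr.l (nat_lit 6008712659866606) (nat_lit 0) (nat_lit 0)) (nat_lit 6008712659866606) (Tr.b (Tr.l (nat_lit 6035497360989276) (nat_lit 0) (nat_lit 0)) (nat_lit 6035497360989276) (Tr.l (nat_lit 6053032556531354) (nat_lit 0) (nat_lit 0)))) (nat_lit 6053032556531354) (Tr.b (Tr.b (Tr.l (nat_lit 6095982716322294) (nat_lit 0) (nat_lit 0)) (nat_lit 6095982716322294) (Tr.l (nat_lit 6097071935978698) (nat_lit 0) (nat_lit 0))) (nat_lit 6097071935978698) (Tr.b (Tr.l (nat_lit 6123625834704844) (nat_lit 0) (nat_lit 0)) (nat_lit 6123625834704844) (Tr.l (nat_lit 6274526765058454) (nat_lit 0) (nat_lit 0))))))) (nat_lit 6274526765058454) (Tr.b (Tr.b (Tr.b (Tr.b (Tr.l (nat_lit 6530686097086704) (nat_lit 0) (nat_lit 0)) (nat_lit 6530686097086704) (Tr.b (Tr.l (nat_lit 6547895970583918) (nat_lit 0) (nat_lit 0)) (nat_lit 6547895970583918) (Tr.l (nat_lit 6559793236493494) (nat_lit 0) (nat_lit 0)))) (nat_lit 6559793236493494) (Tr.b (Tr.l (nat_lit 6572048836068158) (nat_lit 0) (nat_lit 0)) (nat_lit 6572048836068158) (Tr.b (Tr.l (nat_lit 6646893132633772) (nat_lit 0) (nat_lit 0)) (nat_lit 6646893132633772) (Tr.l (nat_lit 6658026999784286) (nat_lit 0) (nat_lit 0))))) (nat_lit 6658026999784286) (Tr.b (Tr.b (Tr.l (nat_lit 6697091041922184) (nat_lit 0) (nat_lit 0)) (nat_lit 6697091041922184) (Tr.b (Tr.l (nat_lit 6706781279496984) (nat_lit 0) (nat_lit 0)) (nat_lit 6706781279496984) (Tr.l (nat_lit 6736474782635374) (nat_lit 0) (nat_lit 0)))) (nat_lit 6736474782635374) (Tr.b (Tr.b (Tr.l (nat_lit 6747572745970602) (nat_lit 0) (nat_lit 0)) (nat_lit 6747572745970602) (Tr.l (nat_lit 6783952124927198) (nat_lit 0) (nat_lit 0))) (nat_lit 6783952124927198) (Tr.b (Tr.l (nat_lit 6796167369314214) (nat_lit 0) (nat_lit 0)) (nat_lit 6796167369314214) (Tr.l (nat_lit 6797728191615830) (nat_lit 0) (nat_lit 0)))))) (nat_lit 6797728191615830) (Tr.b (Tr.b (Tr.b (Tr.l (nat_lit 6798339312416698) (nat_lit 0) (nat_lit 0)) (nat_lit 6798339312416698) (Tr.b (Tr.l (nat_lit 6868039544006016) (nat_lit 0) (nat_lit 0)) (nat_lit 6868039544006016) (Tr.l (nat_lit 6916370070525320) (nat_lit 0) (nat_lit 0)))) (nat_lit 6916370070525320) (Tr.b (Tr.l (nat_lit 6977586754332894) (nat_lit 0) (nat_lit 0)) (nat_lit 6977586754332894) (Tr.b (Tr.l (nat_lit 7341266324794022) (nat_lit 0) (nat_lit 0)) (nat_lit 7341266324794022) (Tr.l (nat_lit 7346658970009506) (nat_lit 0) (nat_lit 0))))) (nat_lit 7346658970009506) (Tr.b (Tr.b (Tr.l (nat_lit 7353547853402606) (nat_lit 0) (nat_lit 0)) (nat_lit 7353547853402606) (Tr.b (Tr.l (nat_lit 7382873199704204) (nat_lit 0) (nat_lit 0)) (nat_lit 7382873199704204) (Tr.l (nat_lit 7561169764276736) (nat_lit 0) (nat_lit 0)))) (nat_lit 7561169764276736) (Tr.b (Tr.b (Tr.l (nat_lit 7735032493582566) (nat_lit 0) (nat_lit 0)) (nat_lit 7735032493582566) (Tr.l (nat_lit 7841149520118934) (nat_lit 0) (nat_lit 0))) (nat_lit 7841149520118934) (Tr.b (Tr.l (nat_lit 8202756441078942) (nat_lit 0) (nat_lit 0)) (nat_lit 8202756441078942) (Tr.l (nat_lit 8280670674269182) (nat_lit 0) (nat_lit 0)))))))) (nat_lit 8280670674269182) (Tr.b (Tr.b (Tr.b (Tr.b (Tr.b (Tr.l (nat_lit 8302410560410104) (nat_lit 0) (nat_lit 0)) (nat_lit 8302410560410104) (Tr.b (Tr.l (nat_lit 8304282858908862) (nat_lit 0) (nat_lit 0)) (nat_lit 8304282858908862) (Tr.l (nat_lit 8337255777220494) (nat_lit 0) (nat_lit 0)))) (nat_lit 8337255777220494) (Tr.b (Tr.l (nat_lit 8542341436965680) (nat_lit 0) (nat_lit 0)) (nat_lit 8542341436965680) (Tr.b (Tr.l (nat_lit 8598188873289928) (nat_lit 0) (nat_lit 0)) (nat_lit 8598188873289928) (Tr.l (nat_lit 8598236534735600) (nat_lit 0) (nat_lit 0))))) (nat_lit 8598236534735600) (Tr.b (Tr.b (Tr.l (nat_lit 9048017672581640) (nat_lit 0) (nat_lit 0)) (nat_lit 9048017672581640) (Tr.b (Tr.l (nat_lit 9077750561585614) (nat_lit 0) (nat_lit 0)) (nat_lit 9077750561585614) (Tr.l (nat_lit 9123477039842126) (nat_lit 0) (nat_lit 0)))) (nat_lit 9123477039842126) (Tr.b (Tr.l (nat_lit 9154233662939788) (nat_lit 0) (nat_lit 0)) (nat_lit 9154233662939788) (Tr.b (Tr.l (nat_lit 9213343007531708) (nat_lit 0) (nat_lit 0)) (nat_lit 9213343007531708) (Tr.l (nat_lit 9227467597104920) (nat_lit 0) (nat_lit 0)))))) (nat_lit 9227467597104920) (Tr.b (Tr.b (Tr.b (Tr.l (nat_lit 9233435310840686) (nat_lit 0) (nat_lit 0)) (nat_lit 9233435310840686) (Tr.b (Tr.l (nat_lit 9239144753116070) (nat_lit 0) (nat_lit 0)) (nat_lit 9239144753116070) (Tr.l (nat_lit 9266258381353134) (nat_lit 0) (nat_lit 0)))) (nat_lit 9266258381353134) (Tr.b (Tr.l (nat_lit 9284086282159280) (nat_lit 0) (nat_lit 0)) (nat_lit 9284086282159280) (Tr.b (Tr.l (nat_lit 9486339041979132) (nat_lit 0) (nat_lit 0)) (nat_lit 9486339041979132) (Tr.l (nat_lit 10054580879416874) (nat_lit 0) (nat_lit 0))))) (nat_lit 10054580879416874) (Tr.b (Tr.b (Tr.l (nat_lit 10337315658975582) (nat_lit 0) (nat_lit 0)) (nat_lit 10337315658975582) (Tr.b (Tr.l (nat_lit 11151101175900294) (nat_lit 0) (nat_lit 0)) (nat_lit 11151101175900294) (Tr.l (nat_lit 11194570953554044) (nat_lit 0) (nat_lit 0)))) (nat_lit 11194570953554044) (Tr.b (Tr.b (Tr.l (nat_lit 11295584748033980) (nat_lit 0) (nat_lit 0)) (nat_lit 11295584748033980) (Tr.l (nat_lit 11498646599581198) (nat_lit 0) (nat_lit 0))) (nat_lit 11498646599581198) (Tr.b (Tr.l (nat_lit 11579511794548504) (nat_lit 0) (nat_lit 0)) (nat_lit 11579511794548504) (Tr.l (nat_lit 11586885201659184) (nat_lit 0) (nat_lit 0))))))) (nat_lit 11586885201659184) (Tr.b (Tr.b (Tr.b (Tr.b (Tr.l (nat_lit 11641297147232240) (nat_lit 0) (nat_lit 0)) (nat_lit 11641297147232240) (Tr.b (Tr.l (nat_lit 11673459801257530) (nat_lit 0) (nat_lit 0)) (nat_lit 11673459801257530) (Tr.l (nat_lit 12932698401489754) (nat_lit 0) (nat_lit 0)))) (nat_lit 12932698401489754) (Tr.b (Tr.l (nat_lit 14138653363938778) (nat_lit 0) (nat_lit 0)) (nat_lit 14138653363938778) (Tr.b (Tr.l (nat_lit 14138695456718710) (nat_lit 0) (nat_lit 0)) (nat_lit 14138695456718710) (Tr.l (nat_lit 15340181040729688) (nat_lit 0) (nat_lit 0))))) (nat_lit 15340181040729688) (Tr.b (Tr.b (Tr.l (nat_lit 15344683765651032) (nat_lit 0) (nat_lit 0)) (nat_lit 15344683765651032) (Tr.b (Tr.l (nat_lit 16497503678284220) (nat_lit 0) (nat_lit 0)) (nat_lit 16497503678284220) (Tr.l (nat_lit 16541813594987414) (nat_lit 0) (nat_lit 0)))) (nat_lit 16541813594987414) (Tr.b (Tr.b (Tr.l (nat_lit 21216343344859654) (nat_lit 0) (nat_lit 0)) (nat_lit 21216343344859654) (Tr.l (nat_lit 24022910107593066) (nat_lit 0) (nat_lit 0))) (nat_lit 24022910107593066) (Tr.b (Tr.l (nat_lit 25084948043438888) (nat_lit 0) (nat_lit 0)) (nat_lit 25084948043438888) (Tr.l (nat_lit 25143581175926834) (nat_lit 0) (nat_lit 0)))))) (nat_lit 25143581175926834) (Tr.b (Tr.b (Tr.b (Tr.l (nat_lit 25172769192689030) (nat_lit 0) (nat_lit 0)) (nat_lit 25172769192689030) (Tr.b (Tr.l (nat_lit 25177684697321986) (nat_lit 0) (nat_lit 0)) (nat_lit 25177684697321986) (Tr.l (nat_lit 25177755148971814) (nat_lit 0) (nat_lit 0)))) (nat_lit 25177755148971814) (Tr.b (Tr.l (nat_lit 25217683440984556) (nat_lit 0) (nat_lit 0)) (nat_lit 25217683440984556) (Tr.b (Tr.l (nat_lit 25233081048704642) (nat_lit 0) (nat_lit 0)) (nat_lit 25233081048704642) (Tr.l (nat_lit 25274271567876232) (nat_lit 0) (nat_lit 0))))) (nat_lit 25274271567876232) (Tr.b (Tr.b (Tr.l (nat_lit 25291041529617158) (nat_lit 0) (nat_lit 0)) (nat_lit 25291041529617158) (Tr.b (Tr.l (nat_lit 25305389642590838) (nat_lit 0) (nat_lit 0)) (nat_lit 25305389642590838) (Tr.l (nat_lit 25305848421809554) (nat_lit 0) (nat_lit 0)))) (nat_lit 25305848421809554) (Tr.b (Tr.b (Tr.l (nat_lit 25305868147500278) (nat_lit 0) (nat_lit 0)) (nat_lit 25305868147500278) (Tr.l (nat_lit 25305919052544118) (nat_lit 0) (nat_lit 0))) (nat_lit 25305919052544118) (Tr.b (Tr.l (nat_lit 25308281102881910) (nat_lit 0) (nat_lit 0)) (nat_lit 25308281102881910) (Tr.l (nat_lit 25337974575092132) (nat_lit 0) (nat_lit 0)))))))))))) (nat_lit 25337974575092132) (Tr.b (Tr.b (Tr.b (Tr.b (Tr.b (Tr.b (Tr.b (Tr.b (Tr.b (Tr.l (nat_lit 25338025512418212) (nat_lit 0) (nat_lit 0)) (nat_lit 25338025512418212) (Tr.b (Tr.l (nat_lit 25340389060651940) (nat_lit 0) (nat_lit 0)) (nat_lit 25340389060651940) (Tr.l (nat_lit 25345540602398888) (nat_lit 0) (nat_lit 0)))) (nat_lit 25345540602398888) (Tr.b (Tr.l (nat_lit 25345999745434204) (nat_lit 0) (nat_lit 0)) (nat_lit 25345999745434204) (Tr.b (Tr.l (nat_lit 25354095292100754) (nat_lit 0) (nat_lit 0)) (nat_lit 25354095292100754) (Tr.l (nat_lit 25365121076972050) (nat_lit 0) (nat_lit 0))))) (nat_lit 25365121076972050) (Tr.b (Tr.b (Tr.l (nat_lit 25406521195012280) (nat_lit 0) (nat_lit 0)) (nat_lit 25406521195012280) (Tr.b (Tr.l (nat_lit 25423367334028064) (nat_lit 0) (nat_lit 0)) (nat_lit 25423367334028064) (Tr.l (nat_lit 25434040884404166) (nat_lit 0) (nat_lit 0)))) (nat_lit 25434040884404166) (Tr.b (Tr.l (nat_lit 25434445966573362) (nat_lit 0) (nat_lit 0)) (nat_lit 25434445966573362) (Tr.b (Tr.l (nat_lit 25434520604112454) (nat_lit 0) (nat_lit 0)) (nat_lit 25434520604112454) (Tr.l (nat_lit 25434571638390214) (nat_lit 0) (nat_lit 0)))))) (nat_lit 25434571638390214) (Tr.b (Tr.b (Tr.b (Tr.l (nat_lit 25436939685181894) (nat_lit 0) (nat_lit 0)) (nat_lit 25436939685181894) (Tr.b (Tr.l (nat_lit 25445331444877220) (nat_lit 0) (nat_lit 0)) (nat_lit 25445331444877220) (Tr.l (nat_lit 25453520536341152) (nat_lit 0) (nat_lit 0)))) (nat_lit 25453520536341152) (Tr.b (Tr.l (nat_lit 25472384399300106) (nat_lit 0) (nat_lit 0)) (nat_lit 25472384399300106) (Tr.b (Tr.l (nat_lit 25474750214242252) (nat_lit 0) (nat_lit 0)) (nat_lit 25474750214242252) (Tr.l (nat_lit 25481823740004278) (nat_lit 0) (nat_lit 0))))) (nat_lit 25481823740004278) (Tr.b (Tr.b (Tr.l (nat_lit 25489786239421082) (nat_lit 0) (nat_lit 0)) (nat_lit 25489786239421082) (Tr.b (Tr.l (nat_lit 25562187252594186) (nat_lit 0) (nat_lit 0)) (nat_lit 25562187252594186) (Tr.l (nat_lit 25563643157569714) (nat_lit 0) (nat_lit 0)))) (nat_lit 25563643157569714) (Tr.b (Tr.b (Tr.l (nat_lit 25563714147155734) (nat_lit 0) (nat_lit 0)) (nat_lit 25563714147155734) (Tr.l (nat_lit 25578848690073526) (nat_lit 0) (nat_lit 0))) (nat_lit 25578848690073526) (Tr.b (Tr.l (nat_lit 25603152897071704) (nat_lit 0) (nat_lit 0)) (nat_lit 25603152897071704) (Tr.l (nat_lit 25604100804208444) (nat_lit 0) (nat_lit 0))))))) (nat_lit 25604100804208444) (Tr.b (Tr.b (Tr.b (Tr.b (Tr.l (nat_lit 25631218471874354) (nat_lit 0) (nat_lit 0)) (nat_lit 25631218471874354) (Tr.b (Tr.l (nat_lit 25673040184303384) (nat_lit 0) (nat_lit 0)) (nat_lit 25673040184303384) (Tr.l (nat_lit 25692321966044710) (nat_lit 0) (nat_lit 0)))) (nat_lit 25692321966044710) (Tr.b (Tr.l (nat_lit 25692327095268854) (nat_lit 0) (nat_lit 0)) (nat_lit 25692327095268854) (Tr.b (Tr.l (nat_lit 25732932602510200) (nat_lit 0) (nat_lit 0)) (nat_lit 25732932602510200) (Tr.l (nat_lit 25732937735786504) (nat_lit 0) (nat_lit 0))))) (nat_lit 25732937735786504) (Tr.b (Tr.b (Tr.l (nat_lit 25863210222923560) (nat_lit 0) (nat_lit 0)) (nat_lit 25863210222923560) (Tr.b (Tr.l (nat_lit 25940208926114808) (nat_lit 0) (nat_lit 0)) (nat_lit 25940208926114808) (Tr.l (nat_lit 25953052283339558) (nat_lit 0) (nat_lit 0)))) (nat_lit 25953052283339558) (Tr.b (Tr.l (nat_lit 25953062593709254) (nat_lit 0) (nat_lit 0)) (nat_lit 25953062593709254) (Tr.b (Tr.l (nat_lit 25953067748894870) (nat_lit 0) (nat_lit 0)) (nat_lit 25953067748894870) (Tr.l (nat_lit 25993971565358008) (nat_lit 0) (nat_lit 0)))))) (nat_lit 25993971565358008) (Tr.b (Tr.b (Tr.b (Tr.l (nat_lit 25993981883852504) (nat_lit 0) (nat_lit 0)) (nat_lit 25993981883852504) (Tr.b (Tr.l (nat_lit 25993987043100520) (nat_lit 0) (nat_lit 0)) (nat_lit 25993987043100520) (Tr.l (nat_lit 26034676451850694) (nat_lit 0) (nat_lit 0)))) (nat_lit 26034676451850694) (Tr.b (Tr.l (nat_lit 26084164294623350) (nat_lit 0) (nat_lit 0)) (nat_lit 26084164294623350) (Tr.b (Tr.l (nat_lit 26084174631003670) (nat_lit 0) (nat_lit 0)) (nat_lit 26084174631003670) (Tr.l (nat_lit 26084180122206548) (nat_lit 0) (nat_lit 0))))) (nat_lit 26084180122206548) (Tr.b (Tr.b (Tr.l (nat_lit 26125238488210280) (nat_lit 0) (nat_lit 0)) (nat_lit 26125238488210280) (Tr.b (Tr.l (nat_lit 26125248832725640) (nat_lit 0) (nat_lit 0)) (nat_lit 26125248832725640) (Tr.l (nat_lit 26199130939861174) (nat_lit 0) (nat_lit 0)))) (nat_lit 26199130939861174) (Tr.b (Tr.b (Tr.l (nat_lit 26202579349820886) (nat_lit 0) (nat_lit 0)) (nat_lit 26202579349820886) (Tr.l (nat_lit 26336001391766246) (nat_lit 0) (nat_lit 0))) (nat_lit 26336001391766246) (Tr.b (Tr.l (nat_lit 26336131870963270) (nat_lit 0) (nat_lit 0)) (nat_lit 26336131870963270) (Tr.l (nat_lit 26389263195227848) (nat_lit 0) (nat_lit 0)))))))) (nat_lit 26389263195227848) (Tr.b (Tr.b (Tr.b (Tr.b (Tr.b (Tr.l (nat_lit 26447375408795254) (nat_lit 0) (nat_lit 0)) (nat_lit 26447375408795254) (Tr.b (Tr.l (nat_lit 26468774228973014) (nat_lit 0) (nat_lit 0)) (nat_lit 26468774228973014) (Tr.l (nat_lit 26488781999786224) (nat_lit 0) (nat_lit 0)))) (nat_lit 26488781999786224) (Tr.b (Tr.l (nat_lit 26607861173571434) (nat_lit 0) (nat_lit 0)) (nat_lit 26607861173571434) (Tr.b (Tr.l (nat_lit 26671831846800278) (nat_lit 0) (nat_lit 0)) (nat_lit 26671831846800278) (Tr.l (nat_lit 26932416544707368) (nat_lit 0) (nat_lit 0))))) (nat_lit 26932416544707368) (Tr.b (Tr.b (Tr.l (nat_lit 27015942146538118) (nat_lit 0) (nat_lit 0)) (nat_lit 27015942146538118) (Tr.b (Tr.l (nat_lit 27058111706743448) (nat_lit 0) (nat_lit 0)) (nat_lit 27058111706743448) (Tr.l (nat_lit 27142598909762158) (nat_lit 0) (nat_lit 0)))) (nat_lit 27142598909762158) (Tr.b (Tr.l (nat_lit 27152527494795692) (nat_lit 0) (nat_lit 0)) (nat_lit 27152527494795692) (Tr.b (Tr.l (nat_lit 27170204040181846) (nat_lit 0) (nat_lit 0)) (nat_lit 27170204040181846) (Tr.l (nat_lit 27179046448174934) (nat_lit 0) (nat_lit 0)))))) (nat_lit 27179046448174934) (Tr.b (Tr.b (Tr.b (Tr.l (nat_lit 27273956533886030) (nat_lit 0) (nat_lit 0)) (nat_lit 27273956533886030) (Tr.b (Tr.l (nat_lit 27278676015466526) (nat_lit 0) (nat_lit 0)) (nat_lit 27278676015466526) (Tr.l (nat_lit 27311520051196502) (nat_lit 0) (nat_lit 0)))) (nat_lit 27311520051196502) (Tr.b (Tr.l (nat_lit 27418835994969482) (nat_lit 0) (nat_lit 0)) (nat_lit 27418835994969482) (Tr.b (Tr.l (nat_lit 27551383567361406) (nat_lit 0) (nat_lit 0)) (nat_lit 27551383567361406) (Tr.l (nat_lit 27560396021307874) (nat_lit 0) (nat_lit 0))))) (nat_lit 27560396021307874) (Tr.b (Tr.b (Tr.l (nat_lit 27603200881391244) (nat_lit 0) (nat_lit 0)) (nat_lit 27603200881391244) (Tr.b (Tr.l (nat_lit 27688501569895982) (nat_lit 0) (nat_lit 0)) (nat_lit 27688501569895982) (Tr.l (nat_lit 27688960166397034) (nat_lit 0) (nat_lit 0)))) (nat_lit 27688960166397034) (Tr.b (Tr.b (Tr.l (nat_lit 27705651769635946) (nat_lit 0) (nat_lit 0)) (nat_lit 27705651769635946) (Tr.l (nat_lit 27825618302945950) (nat_lit 0) (nat_lit 0))) (nat_lit 27825618302945950) (Tr.b (Tr.l (nat_lit 27850131944188634) (nat_lit 0) (nat_lit 0)) (nat_lit 27850131944188634) (Tr.l (nat_lit 27906134829696398) (nat_lit 0) (nat_lit 0))))))) (nat_lit 27906134829696398) (Tr.b (Tr.b (Tr.b (Tr.b (Tr.l (nat_lit 27963758651071310) (nat_lit 0) (nat_lit 0)) (nat_lit 27963758651071310) (Tr.b (Tr.l (nat_lit 28045582939245024) (nat_lit 0) (nat_lit 0)) (nat_lit 28045582939245024) (Tr.l (nat_lit 28102401981681758) (nat_lit 0) (nat_lit 0)))) (nat_lit 28102401981681758) (Tr.b (Tr.l (nat_lit 28102412710496254) (nat_lit 0) (nat_lit 0)) (nat_lit 28102412710496254) (Tr.b (Tr.l (nat_lit 28241581753225390) (nat_lit 0) (nat_lit 0)) (nat_lit 28241581753225390) (Tr.l (nat_lit 28381256270923198) (nat_lit 0) (nat_lit 0))))) (nat_lit 28381256270923198) (Tr.b (Tr.b (Tr.l (nat_lit 28521459075967598) (nat_lit 0) (nat_lit 0)) (nat_lit 28521459075967598) (Tr.b (Tr.l (nat_lit 29479636694315582) (nat_lit 0) (nat_lit 0)) (nat_lit 29479636694315582) (Tr.l (nat_lit 29496977050685282) (nat_lit 0) (nat_lit 0)))) (nat_lit 29496977050685282) (Tr.b (Tr.b (Tr.l (nat_lit 29544810747589672) (nat_lit 0) (nat_lit 0)) (nat_lit 29544810747589672) (Tr.l (nat_lit 30297475409511962) (nat_lit 0) (nat_lit 0))) (nat_lit 30297475409511962) (Tr.b (Tr.l (nat_lit 30560720039970534) (nat_lit 0) (nat_lit 0)) (nat_lit 30560720039970534) (Tr.l (nat_lit 30658232585003794) (nat_lit 0) (nat_lit 0)))))) (nat_lit 30658232585003794) (Tr.b (Tr.b (Tr.b (Tr.l (nat_lit 31112708202497554) (nat_lit 0) (nat_lit 0)) (nat_lit 31112708202497554) (Tr.b (Tr.l (nat_lit 31749724771288242) (nat_lit 0) (nat_lit 0)) (nat_lit 31749724771288242) (Tr.l (nat_lit 31797321427940332) (nat_lit 0) (nat_lit 0)))) (nat_lit 31797321427940332) (Tr.b (Tr.l (nat_lit 31898813892309382) (nat_lit 0) (nat_lit 0)) (nat_lit 31898813892309382) (Tr.b (Tr.l (nat_lit 31902524643474566) (nat_lit 0) (nat_lit 0)) (nat_lit 31902524643474566) (Tr.l (nat_lit 32041856342915170) (nat_lit 0) (nat_lit 0))))) (nat_lit 32041856342915170) (Tr.b (Tr.b (Tr.l (nat_lit 32073427069298528) (nat_lit 0) (nat_lit 0)) (nat_lit 32073427069298528) (Tr.b (Tr.l (nat_lit 32093544421615400) (nat_lit 0) (nat_lit 0)) (nat_lit 32093544421615400) (Tr.l (nat_lit 32111790418419218) (nat_lit 0) (nat_lit 0)))) (nat_lit 32111790418419218) (Tr.b (Tr.b (Tr.l (nat_lit 32130984993638810) (nat_lit 0) (nat_lit 0)) (nat_lit 32130984993638810) (Tr.l (nat_lit 32498019312192454) (nat_lit 0) (nat_lit 0))) (nat_lit 32498019312192454) (Tr.b (Tr.l (nat_lit 32760362338972910) (nat_lit 0) (nat_lit 0)) (nat_lit 32760362338972910) (Tr.l (nat_lit 32848683406830118) (nat_lit 0) (nat_lit 0))))))))) (nat_lit 32848683406830118) (Tr.b (Tr.b (Tr.b (Tr.b (Tr.b (Tr.b (Tr.l (nat_lit 33023290343580058) (nat_lit 0) (nat_lit 0)) (nat_lit 33023290343580058) (Tr.b (Tr.l (nat_lit 33046180339631994) (nat_lit 0) (nat_lit 0)) (nat_lit 33046180339631994) (Tr.l (nat_lit 33085483804402894) (nat_lit 0) (nat_lit 0)))) (nat_lit 33085483804402894) (Tr.b (Tr.l (nat_lit 33170513131124330) (nat_lit 0) (nat_lit 0)) (nat_lit 33170513131124330) (Tr.b (Tr.l (nat_lit 33222444213659782) (nat_lit 0) (nat_lit 0)) (nat_lit 33222444213659782) (Tr.l (nat_lit 33901635227589590) (nat_lit 0) (nat_lit 0))))) (nat_lit 33901635227589590) (Tr.b (Tr.b (Tr.l (nat_lit 34619154362884004) (nat_lit 0) (nat_lit 0)) (nat_lit 34619154362884004) (Tr.b (Tr.l (nat_lit 34639462311655954) (nat_lit 0) (nat_lit 0)) (nat_lit 34639462311655954) (Tr.l (nat_lit 34716614344327502) (nat_lit 0) (nat_lit 0)))) (nat_lit 34716614344327502) (Tr.b (Tr.l (nat_lit 35409002095318574) (nat_lit 0) (nat_lit 0)) (nat_lit 35409002095318574) (Tr.b (Tr.l (nat_lit 35409062310639534) (nat_lit 0) (nat_lit 0)) (nat_lit 35409062310639534) (Tr.l (nat_lit 35411856357835694) (nat_lit 0) (nat_lit 0)))))) (nat_lit 35411856357835694) (Tr.b (Tr.b (Tr.b (Tr.l (nat_lit 35535892855524014) (nat_lit 0) (nat_lit 0)) (nat_lit 35535892855524014) (Tr.b (Tr.l (nat_lit 35604071014658458) (nat_lit 0) (nat_lit 0)) (nat_lit 35604071014658458) (Tr.l (nat_lit 35712629489683406) (nat_lit 0) (nat_lit 0)))) (nat_lit 35712629489683406) (Tr.b (Tr.l (nat_lit 35759836631268458) (nat_lit 0) (nat_lit 0)) (nat_lit 35759836631268458) (Tr.b (Tr.l (nat_lit 36072900637612204) (nat_lit 0) (nat_lit 0)) (nat_lit 36072900637612204) (Tr.l (nat_lit 36147514959533254) (nat_lit 0) (nat_lit 0))))) (nat_lit 36147514959533254) (Tr.b (Tr.b (Tr.l (nat_lit 36799515558339486) (nat_lit 0) (nat_lit 0)) (nat_lit 36799515558339486) (Tr.b (Tr.l (nat_lit 37410441681901838) (nat_lit 0) (nat_lit 0)) (nat_lit 37410441681901838) (Tr.l (nat_lit 38147498634625510) (nat_lit 0) (nat_lit 0)))) (nat_lit 38147498634625510) (Tr.b (Tr.b (Tr.l (nat_lit 39599756458758964) (nat_lit 0) (nat_lit 0)) (nat_lit 39599756458758964) (Tr.l (nat_lit 39880415311961886) (nat_lit 0) (nat_lit 0))) (nat_lit 39880415311961886) (Tr.b (Tr.l (nat_lit 39880991251188826) (nat_lit 0) (nat_lit 0)) (nat_lit 39880991251188826) (Tr.l (nat_lit 39881016014272414) (nat_lit 0) (nat_lit 0))))))) (nat_lit 39881016014272414) (Tr.b (Tr.b (Tr.b (Tr.b (Tr.l (nat_lit 39881079919039774) (nat_lit 0) (nat_lit 0)) (nat_lit 39881079919039774) (Tr.b (Tr.l (nat_lit 39884045156548894) (nat_lit 0) (nat_lit 0)) (nat_lit 39884045156548894) (Tr.l (nat_lit 40061334894297038) (nat_lit 0) (nat_lit 0)))) (nat_lit 40061334894297038) (Tr.b (Tr.l (nat_lit 40061936957619278) (nat_lit 0) (nat_lit 0)) (nat_lit 40061936957619278) (Tr.b (Tr.l (nat_lit 40062001007175118) (nat_lit 0) (nat_lit 0)) (nat_lit 40062001007175118) (Tr.l (nat_lit 40064972962869710) (nat_lit 0) (nat_lit 0))))) (nat_lit 40064972962869710) (Tr.b (Tr.b (Tr.l (nat_lit 40094107886822240) (nat_lit 0) (nat_lit 0)) (nat_lit 40094107886822240) (Tr.b (Tr.l (nat_lit 40100394313594294) (nat_lit 0) (nat_lit 0)) (nat_lit 40100394313594294) (Tr.l (nat_lit 40139461147374098) (nat_lit 0) (nat_lit 0)))) (nat_lit 40139461147374098) (Tr.b (Tr.b (Tr.l (nat_lit 40241848666367758) (nat_lit 0) (nat_lit 0)) (nat_lit 40241848666367758) (Tr.l (nat_lit 40242869344517246) (nat_lit 0) (nat_lit 0))) (nat_lit 40242869344517246) (Tr.b (Tr.l (nat_lit 40243447895033146) (nat_lit 0) (nat_lit 0)) (nat_lit 40243447895033146) (Tr.l (nat_lit 40243472770391294) (nat_lit 0) (nat_lit 0)))))) (nat_lit 40243472770391294) (Tr.b (Tr.b (Tr.b (Tr.l (nat_lit 40243536964899454) (nat_lit 0) (nat_lit 0)) (nat_lit 40243536964899454) (Tr.b (Tr.l (nat_lit 40246515646381694) (nat_lit 0) (nat_lit 0)) (nat_lit 40246515646381694) (Tr.l (nat_lit 40255017371073894) (nat_lit 0) (nat_lit 0)))) (nat_lit 40255017371073894) (Tr.b (Tr.l (nat_lit 40311885796014664) (nat_lit 0) (nat_lit 0)) (nat_lit 40311885796014664) (Tr.b (Tr.l (nat_lit 40424408834859454) (nat_lit 0) (nat_lit 0)) (nat_lit 40424408834859454) (Tr.l (nat_lit 40425020054164782) (nat_lit 0) (nat_lit 0))))) (nat_lit 40425020054164782) (Tr.b (Tr.b (Tr.l (nat_lit 40425599912540074) (nat_lit 0) (nat_lit 0)) (nat_lit 40425599912540074) (Tr.b (Tr.l (nat_lit 40425624844130734) (nat_lit 0) (nat_lit 0)) (nat_lit 40425624844130734) (Tr.l (nat_lit 40425689183755054) (nat_lit 0) (nat_lit 0)))) (nat_lit 40425689183755054) (Tr.b (Tr.b (Tr.l (nat_lit 40607169368498590) (nat_lit 0) (nat_lit 0)) (nat_lit 40607169368498590) (Tr.l (nat_lit 40699617492744294) (nat_lit 0) (nat_lit 0))) (nat_lit 40699617492744294) (Tr.b (Tr.l (nat_lit 40784887584567230) (nat_lit 0) (nat_lit 0)) (nat_lit 40784887584567230) (Tr.l (nat_lit 40790555381658190) (nat_lit 0) (nat_lit 0)))))))) (nat_lit 40790555381658190) (Tr.b (Tr.b (Tr.b (Tr.b (Tr.b (Tr.l (nat_lit 40790561844593438) (nat_lit 0) (nat_lit 0)) (nat_lit 40790561844593438) (Tr.b (Tr.l (nat_lit 40932727802324558) (nat_lit 0) (nat_lit 0)) (nat_lit 40932727802324558) (Tr.l (nat_lit 40955171119810732) (nat_lit 0) (nat_lit 0)))) (nat_lit 40955171119810732) (Tr.b (Tr.l (nat_lit 40981025623765846) (nat_lit 0) (nat_lit 0)) (nat_lit 40981025623765846) (Tr.b (Tr.l (nat_lit 40993958364720214) (nat_lit 0) (nat_lit 0)) (nat_lit 40993958364720214) (Tr.l (nat_lit 41008832928172454) (nat_lit 0) (nat_lit 0))))) (nat_lit 41008832928172454) (Tr.b (Tr.b (Tr.l (nat_lit 41020257108449254) (nat_lit 0) (nat_lit 0)) (nat_lit 41020257108449254) (Tr.b (Tr.l (nat_lit 41048152279116614) (nat_lit 0) (nat_lit 0)) (nat_lit 41048152279116614) (Tr.l (nat_lit 41159190131566510) (nat_lit 0) (nat_lit 0)))) (nat_lit 41159190131566510) (Tr.b (Tr.l (nat_lit 41344428652223678) (nat_lit 0) (nat_lit 0)) (nat_lit 41344428652223678) (Tr.b (Tr.l (nat_lit 41344528492509322) (nat_lit 0) (nat_lit 0)) (nat_lit 41344528492509322) (Tr.l (nat_lit 41345858504309374) (nat_lit 0) (nat_lit 0)))))) (nat_lit 41345858504309374) (Tr.b (Tr.b (Tr.b (Tr.l (nat_lit 41390227106203754) (nat_lit 0) (nat_lit 0)) (nat_lit 41390227106203754) (Tr.b (Tr.l (nat_lit 41530304797131118) (nat_lit 0) (nat_lit 0)) (nat_lit 41530304797131118) (Tr.l (nat_lit 41617771557699814) (nat_lit 0) (nat_lit 0)))) (nat_lit 41617771557699814) (Tr.b (Tr.l (nat_lit 41739536226856108) (nat_lit 0) (nat_lit 0)) (nat_lit 41739536226856108) (Tr.b (Tr.l (nat_lit 41748271022231386) (nat_lit 0) (nat_lit 0)) (nat_lit 41748271022231386) (Tr.l (nat_lit 41763495164471146) (nat_lit 0) (nat_lit 0))))) (nat_lit 41763495164471146) (Tr.b (Tr.b (Tr.l (nat_lit 42063043686506554) (nat_lit 0) (nat_lit 0)) (nat_lit 42063043686506554) (Tr.b (Tr.l (nat_lit 42221504573896618) (nat_lit 0) (nat_lit 0)) (nat_lit 42221504573896618) (Tr.l (nat_lit 43423317359977454) (nat_lit 0) (nat_lit 0)))) (nat_lit 43423317359977454) (Tr.b (Tr.b (Tr.l (nat_lit 43425246170946094) (nat_lit 0) (nat_lit 0)) (nat_lit 43425246170946094) (Tr.l (nat_lit 43819850219750586) (nat_lit 0) (nat_lit 0))) (nat_lit 43819850219750586) (Tr.b (Tr.l (nat_lit 43999191524710814) (nat_lit 0) (nat_lit 0)) (nat_lit 43999191524710814) (Tr.l (nat_lit 44040243126832550) (nat_lit 0) (nat_lit 0))))))) (nat_lit 44040243126832550) (Tr.b (Tr.b (Tr.b (Tr.b (Tr.l (nat_lit 44395893483788574) (nat_lit 0) (nat_lit 0)) (nat_lit 44395893483788574) (Tr.b (Tr.l (nat_lit 46803291769925682) (nat_lit 0) (nat_lit 0)) (nat_lit 46803291769925682) (Tr.l (nat_lit 46803449266076386) (nat_lit 0) (nat_lit 0)))) (nat_lit 46803449266076386) (Tr.b (Tr.l (nat_lit 46866965167471372) (nat_lit 0) (nat_lit 0)) (nat_lit 46866965167471372) (Tr.b (Tr.l (nat_lit 46867122770718156) (nat_lit 0) (nat_lit 0)) (nat_lit 46867122770718156) (Tr.l (nat_lit 46867923780326536) (nat_lit 0) (nat_lit 0))))) (nat_lit 46867923780326536) (Tr.b (Tr.b (Tr.l (nat_lit 46994664662850346) (nat_lit 0) (nat_lit 0)) (nat_lit 46994664662850346) (Tr.b (Tr.l (nat_lit 46995629783621614) (nat_lit 0) (nat_lit 0)) (nat_lit 46995629783621614) (Tr.l (nat_lit 47207583471701286) (nat_lit 0) (nat_lit 0)))) (nat_lit 47207583471701286) (Tr.b (Tr.b (Tr.l (nat_lit 47223990098653358) (nat_lit 0) (nat_lit 0)) (nat_lit 47223990098653358) (Tr.l (nat_lit 47249399757702118) (nat_lit 0) (nat_lit 0))) (nat_lit 47249399757702118) (Tr.b (Tr.l (nat_lit 48025370134866654) (nat_lit 0) (nat_lit 0)) (nat_lit 48025370134866654) (Tr.l (nat_lit 49919269750980590) (nat_lit 0) (nat_lit 0)))))) (nat_lit 49919269750980590) (Tr.b (Tr.b (Tr.b (Tr.l (nat_lit 50604068838970790) (nat_lit 0) (nat_lit 0)) (nat_lit 50604068838970790) (Tr.b (Tr.l (nat_lit 50617911173172710) (nat_lit 0) (nat_lit 0)) (nat_lit 50617911173172710) (Tr.l (nat_lit 54335290420366254) (nat_lit 0) (nat_lit 0)))) (nat_lit 54335290420366254) (Tr.b (Tr.l (nat_lit 55483102683153054) (nat_lit 0) (nat_lit 0)) (nat_lit 55483102683153054) (Tr.b (Tr.l (nat_lit 77398652995226374) (nat_lit 0) (nat_lit 0)) (nat_lit 77398652995226374) (Tr.l (nat_lit 78624831839941771) (nat_lit 0) (nat_lit 0))))) (nat_lit 78624831839941771) (Tr.b (Tr.b (Tr.l (nat_lit 78644345609131940) (nat_lit 0) (nat_lit 0)) (nat_lit 78644345609131940) (Tr.b (Tr.l (nat_lit 78663867408982809) (nat_lit 0) (nat_lit 0)) (nat_lit 78663867408982809) (Tr.l (nat_lit 78683397241582618) (nat_lit 0) (nat_lit 0)))) (nat_lit 78683397241582618) (Tr.b (Tr.b (Tr.l (nat_lit 78900476334400966) (nat_lit 0) (nat_lit 0)) (nat_lit 78900476334400966) (Tr.l (nat_lit 79207851056048534) (nat_lit 0) (nat_lit 0))) (nat_lit 79207851056048534) (Tr.b (Tr.l (nat_lit 79516400845664614) (nat_lit 0) (nat_lit 0)) (nat_lit 79516400845664614) (Tr.l (nat_lit 79590806854191920) (nat_lit 0) (nat_lit 0)))))))))) (nat_lit 79590806854191920) (Tr.b (Tr.b (Tr.b (Tr.b (Tr.b (Tr.b (Tr.b (Tr.l (nat_lit 79826129067900214) (nat_lit 0) (nat_lit 0)) (nat_lit 79826129067900214) (Tr.b (Tr.l (nat_lit 80048936456578004) (nat_lit 0) (nat_lit 0)) (nat_lit 80048936456578004) (Tr.l (nat_lit 82724375082699094) (nat_lit 0) (nat_lit 0)))) (nat_lit 82724375082699094) (Tr.b (Tr.l (nat_lit 83467000699940108) (nat_lit 0) (nat_lit 0)) (nat_lit 83467000699940108) (Tr.b (Tr.l (nat_lit 84001140233144942) (nat_lit 0) (nat_lit 0)) (nat_lit 84001140233144942) (Tr.l (nat_lit 84223142504684418) (nat_lit 0) (nat_lit 0))))) (nat_lit 84223142504684418) (Tr.b (Tr.b (Tr.l (nat_lit 84731236667466668) (nat_lit 0) (nat_lit 0)) (nat_lit 84731236667466668) (Tr.b (Tr.l (nat_lit 84918861501175034) (nat_lit 0) (nat_lit 0)) (nat_lit 84918861501175034) (Tr.l (nat_lit 86962946900672390) (nat_lit 0) (nat_lit 0)))) (nat_lit 86962946900672390) (Tr.b (Tr.l (nat_lit 88372047788873752) (nat_lit 0) (nat_lit 0)) (nat_lit 88372047788873752) (Tr.b (Tr.l (nat_lit 88577244458672622) (nat_lit 0) (nat_lit 0)) (nat_lit 88577244458672622) (Tr.l (nat_lit 88903325231725790) (nat_lit 0) (nat_lit 0)))))) (nat_lit 88903325231725790) (Tr.b (Tr.b (Tr.b (Tr.l (nat_lit 90231709645433182) (nat_lit 0) (nat_lit 0)) (nat_lit 90231709645433182) (Tr.b (Tr.l (nat_lit 90747786672620731) (nat_lit 0) (nat_lit 0)) (nat_lit 90747786672620731) (Tr.l (nat_lit 96545193291645589) (nat_lit 0) (nat_lit 0)))) (nat_lit 96545193291645589) (Tr.b (Tr.l (nat_lit 98509861304051334) (nat_lit 0) (nat_lit 0)) (nat_lit 98509861304051334) (Tr.b (Tr.l (nat_lit 103982309300357228) (nat_lit 0) (nat_lit 0)) (nat_lit 103982309300357228) (Tr.l (nat_lit 105222206641097262) (nat_lit 0) (nat_lit 0))))) (nat_lit 105222206641097262) (Tr.b (Tr.b (Tr.l (nat_lit 110575148113905302) (nat_lit 0) (nat_lit 0)) (nat_lit 110575148113905302) (Tr.b (Tr.l (nat_lit 112208990924743526) (nat_lit 0) (nat_lit 0)) (nat_lit 112208990924743526) (Tr.l (nat_lit 113529743071659782) (nat_lit 0) (nat_lit 0)))) (nat_lit 113529743071659782) (Tr.b (Tr.b (Tr.l (nat_lit 114172588386751526) (nat_lit 0) (nat_lit 0)) (nat_lit 114172588386751526) (Tr.l (nat_lit 114241175016862531) (nat_lit 0) (nat_lit 0))) (nat_lit 114241175016862531) (Tr.b (Tr.l (nat_lit 114677502704225299) (nat_lit 0) (nat_lit 0)) (nat_lit 114677502704225299) (Tr.l (nat_lit 115115356907262179) (nat_lit 0) (nat_lit 0))))))) (nat_lit 115115356907262179) (Tr.b (Tr.b (Tr.b (Tr.b (Tr.l (nat_lit 115554741594210739) (nat_lit 0) (nat_lit 0)) (nat_lit 115554741594210739) (Tr.b (Tr.l (nat_lit 129807374129001068) (nat_lit 0) (nat_lit 0)) (nat_lit 129807374129001068) (Tr.l (nat_lit 144390005032961900) (nat_lit 0) (nat_lit 0)))) (nat_lit 144390005032961900) (Tr.b (Tr.l (nat_lit 156702708238690454) (nat_lit 0) (nat_lit 0)) (nat_lit 156702708238690454) (Tr.b (Tr.l (nat_lit 181728833883361002) (nat_lit 0) (nat_lit 0)) (nat_lit 181728833883361002) (Tr.l (nat_lit 199192714292891982) (nat_lit 0) (nat_lit 0))))) (nat_lit 199192714292891982) (Tr.b (Tr.b (Tr.l (nat_lit 207294896082794904) (nat_lit 0) (nat_lit 0)) (nat_lit 207294896082794904) (Tr.b (Tr.l (nat_lit 207683764899364654) (nat_lit 0) (nat_lit 0)) (nat_lit 207683764899364654) (Tr.l (nat_lit 210814445539434654) (nat_lit 0) (nat_lit 0)))) (nat_lit 210814445539434654) (Tr.b (Tr.l (nat_lit 237171951716178822) (nat_lit 0) (nat_lit 0)) (nat_lit 237171951716178822) (Tr.b (Tr.l (nat_lit 250463492628452622) (nat_lit 0) (nat_lit 0)) (nat_lit 250463492628452622) (Tr.l (nat_lit 251898821901581102) (nat_lit 0) (nat_lit 0)))))) (nat_lit 251898821901581102) (Tr.b (Tr.b (Tr.b (Tr.l (nat_lit 255498738106397102) (nat_lit 0) (nat_lit 0)) (nat_lit 255498738106397102) (Tr.b (Tr.l (nat_lit 275780806314513390) (nat_lit 0) (nat_lit 0)) (nat_lit 275780806314513390) (Tr.l (nat_lit 309482336218891606) (nat_lit 0) (nat_lit 0)))) (nat_lit 309482336218891606) (Tr.b (Tr.l (nat_lit 350539086511193094) (nat_lit 0) (nat_lit 0)) (nat_lit 350539086511193094) (Tr.b (Tr.l (nat_lit 385816159275522566) (nat_lit 0) (nat_lit 0)) (nat_lit 385816159275522566) (Tr.l (nat_lit 389200708803297518) (nat_lit 0) (nat_lit 0))))) (nat_lit 389200708803297518) (Tr.b (Tr.b (Tr.l (nat_lit 390803575406998776) (nat_lit 0) (nat_lit 0)) (nat_lit 390803575406998776) (Tr.b (Tr.l (nat_lit 393413628616721108) (nat_lit 0) (nat_lit 0)) (nat_lit 393413628616721108) (Tr.l (nat_lit 397753544550073480) (nat_lit 0) (nat_lit 0)))) (nat_lit 397753544550073480) (Tr.b (Tr.b (Tr.l (nat_lit 398704687859481280) (nat_lit 0) (nat_lit 0)) (nat_lit 398704687859481280) (Tr.l (nat_lit 400546309818685628) (nat_lit 0) (nat_lit 0))) (nat_lit 400546309818685628) (Tr.b (Tr.l (nat_lit 401180264805381974) (nat_lit 0) (nat_lit 0)) (nat_lit 401180264805381974) (Tr.l (nat_lit 404958762496010964) (nat_lit 0) (nat_lit 0)))))))) (nat_lit 404958762496010964) (Tr.b (Tr.b (Tr.b (Tr.b (Tr.b (Tr.l (nat_lit 406086416087918104) (nat_lit 0) (nat_lit 0)) (nat_lit 406086416087918104) (Tr.b (Tr.l (nat_lit 428896223564857866) (nat_lit 0) (nat_lit 0)) (nat_lit 428896223564857866) (Tr.l (nat_lit 448673938977614344) (nat_lit 0) (nat_lit 0)))) (nat_lit 448673938977614344) (Tr.b (Tr.l (nat_lit 449853935682878602) (nat_lit 0) (nat_lit 0)) (nat_lit 449853935682878602) (Tr.b (Tr.l (nat_lit 458473031554714350) (nat_lit 0) (nat_lit 0)) (nat_lit 458473031554714350) (Tr.l (nat_lit 481148559244694854) (nat_lit 0) (nat_lit 0))))) (nat_lit 481148559244694854) (Tr.b (Tr.b (Tr.l (nat_lit 487236195781873798) (nat_lit 0) (nat_lit 0)) (nat_lit 487236195781873798) (Tr.b (Tr.l (nat_lit 487450036966194542) (nat_lit 0) (nat_lit 0)) (nat_lit 487450036966194542) (Tr.l (nat_lit 491298544376979982) (nat_lit 0) (nat_lit 0)))) (nat_lit 491298544376979982) (Tr.b (Tr.l (nat_lit 491315478917257342) (nat_lit 0) (nat_lit 0)) (nat_lit 491315478917257342) (Tr.b (Tr.l (nat_lit 493157251415677366) (nat_lit 0) (nat_lit 0)) (nat_lit 493157251415677366) (Tr.l (nat_lit 493504615992366522) (nat_lit 0) (nat_lit 0)))))) (nat_lit 493504615992366522) (Tr.b (Tr.b (Tr.b (Tr.l (nat_lit 494469974686746374) (nat_lit 0) (nat_lit 0)) (nat_lit 494469974686746374) (Tr.b (Tr.l (nat_lit 499464179058487162) (nat_lit 0) (nat_lit 0)) (nat_lit 499464179058487162) (Tr.l (nat_lit 499848454198192430) (nat_lit 0) (nat_lit 0)))) (nat_lit 499848454198192430) (Tr.b (Tr.l (nat_lit 508753748390643214) (nat_lit 0) (nat_lit 0)) (nat_lit 508753748390643214) (Tr.b (Tr.l (nat_lit 510616867542835694) (nat_lit 0) (nat_lit 0)) (nat_lit 510616867542835694) (Tr.l (nat_lit 511474147789268940) (nat_lit 0) (nat_lit 0))))) (nat_lit 511474147789268940) (Tr.b (Tr.b (Tr.l (nat_lit 513955093913846502) (nat_lit 0) (nat_lit 0)) (nat_lit 513955093913846502) (Tr.b (Tr.l (nat_lit 514472918316886544) (nat_lit 0) (nat_lit 0)) (nat_lit 514472918316886544) (Tr.l (nat_lit 515177106415392518) (nat_lit 0) (nat_lit 0)))) (nat_lit 515177106415392518) (Tr.b (Tr.b (Tr.l (nat_lit 515177413616029448) (nat_lit 0) (nat_lit 0)) (nat_lit 515177413616029448) (Tr.l (nat_lit 519258233479708506) (nat_lit 0) (nat_lit 0))) (nat_lit 519258233479708506) (Tr.b (Tr.l (nat_lit 531762235725843354) (nat_lit 0) (nat_lit 0)) (nat_lit 531762235725843354) (Tr.l (nat_lit 551489547645608398) (nat_lit 0) (nat_lit 0))))))) (nat_lit 551489547645608398) (Tr.b (Tr.b (Tr.b (Tr.b (Tr.l (nat_lit 554180857750821518) (nat_lit 0) (nat_lit 0)) (nat_lit 554180857750821518) (Tr.b (Tr.l (nat_lit 573839893340623534) (nat_lit 0) (nat_lit 0)) (nat_lit 573839893340623534) (Tr.l (nat_lit 575259080061592698) (nat_lit 0) (nat_lit 0)))) (nat_lit 575259080061592698) (Tr.b (Tr.l (nat_lit 618233266267952558) (nat_lit 0) (nat_lit 0)) (nat_lit 618233266267952558) (Tr.b (Tr.l (nat_lit 633684683926077606) (nat_lit 0) (nat_lit 0)) (nat_lit 633684683926077606) (Tr.l (nat_lit 702557591137198078) (nat_lit 0) (nat_lit 0))))) (nat_lit 702557591137198078) (Tr.b (Tr.b (Tr.l (nat_lit 705695047520630814) (nat_lit 0) (nat_lit 0)) (nat_lit 705695047520630814) (Tr.b (Tr.l (nat_lit 707618607586108318) (nat_lit 0) (nat_lit 0)) (nat_lit 707618607586108318) (Tr.l (nat_lit 708774377444710142) (nat_lit 0) (nat_lit 0)))) (nat_lit 708774377444710142) (Tr.b (Tr.b (Tr.l (nat_lit 708794441443281706) (nat_lit 0) (nat_lit 0)) (nat_lit 708794441443281706) (Tr.l (nat_lit 709305424944222622) (nat_lit 0) (nat_lit 0))) (nat_lit 709305424944222622) (Tr.b (Tr.l (nat_lit 710505947570777000) (nat_lit 0) (nat_lit 0)) (nat_lit 710505947570777000) (Tr.l (nat_lit 711457538714836908) (nat_lit 0) (nat_lit 0)))))) (nat_lit 711457538714836908) (Tr.b (Tr.b (Tr.b (Tr.l (nat_lit 712388615935266942) (nat_lit 0) (nat_lit 0)) (nat_lit 712388615935266942) (Tr.b (Tr.l (nat_lit 712626348700974838) (nat_lit 0) (nat_lit 0)) (nat_lit 712626348700974838) (Tr.l (nat_lit 712712504121494090) (nat_lit 0) (nat_lit 0)))) (nat_lit 712712504121494090) (Tr.b (Tr.l (nat_lit 716181839387251386) (nat_lit 0) (nat_lit 0)) (nat_lit 716181839387251386) (Tr.b (Tr.l (nat_lit 716200749529597310) (nat_lit 0) (nat_lit 0)) (nat_lit 716200749529597310) (Tr.l (nat_lit 716978629328627630) (nat_lit 0) (nat_lit 0))))) (nat_lit 716978629328627630) (Tr.b (Tr.b (Tr.l (nat_lit 717241889857633950) (nat_lit 0) (nat_lit 0)) (nat_lit 717241889857633950) (Tr.b (Tr.l (nat_lit 759766913189034558) (nat_lit 0) (nat_lit 0)) (nat_lit 759766913189034558) (Tr.l (nat_lit 760393732423127704) (nat_lit 0) (nat_lit 0)))) (nat_lit 760393732423127704) (Tr.b (Tr.b (Tr.l (nat_lit 761424251290494894) (nat_lit 0) (nat_lit 0)) (nat_lit 761424251290494894) (Tr.l (nat_lit 762797819276483166) (nat_lit 0) (nat_lit 0))) (nat_lit 762797819276483166) (Tr.b (Tr.l (nat_lit 768030796320817822) (nat_lit 0) (nat_lit 0)) (nat_lit 768030796320817822) (Tr.l (nat_lit 769706157571734814) (nat_lit 0) (nat_lit 0))))))))) (nat_lit 769706157571734814) (Tr.b (Tr.b (Tr.b (Tr.b (Tr.b (Tr.b (Tr.l (nat_lit 786516172098439406) (nat_lit 0) (nat_lit 0)) (nat_lit 786516172098439406) (Tr.b (Tr.l (nat_lit 789626761741635854) (nat_lit 0) (nat_lit 0)) (nat_lit 789626761741635854) (Tr.l (nat_lit 796842386206281678) (nat_lit 0) (nat_lit 0)))) (nat_lit 796842386206281678) (Tr.b (Tr.l (nat_lit 807357357742403626) (nat_lit 0) (nat_lit 0)) (nat_lit 807357357742403626) (Tr.b (Tr.l (nat_lit 813965615895884702) (nat_lit 0) (nat_lit 0)) (nat_lit 813965615895884702) (Tr.l (nat_lit 817157273602597822) (nat_lit 0) (nat_lit 0))))) (nat_lit 817157273602597822) (Tr.b (Tr.b (Tr.l (nat_lit 822431272735738094) (nat_lit 0) (nat_lit 0)) (nat_lit 822431272735738094) (Tr.b (Tr.l (nat_lit 829831633342143254) (nat_lit 0) (nat_lit 0)) (nat_lit 829831633342143254) (Tr.l (nat_lit 835250289162328718) (nat_lit 0) (nat_lit 0)))) (nat_lit 835250289162328718) (Tr.b (Tr.l (nat_lit 835286407682508798) (nat_lit 0) (nat_lit 0)) (nat_lit 835286407682508798) (Tr.b (Tr.l (nat_lit 835458790237819400) (nat_lit 0) (nat_lit 0)) (nat_lit 835458790237819400) (Tr.l (nat_lit 840277388805600518) (nat_lit 0) (nat_lit 0)))))) (nat_lit 840277388805600518) (Tr.b (Tr.b (Tr.b (Tr.l (nat_lit 840310711794903302) (nat_lit 0) (nat_lit 0)) (nat_lit 840310711794903302) (Tr.b (Tr.l (nat_lit 840832595358900728) (nat_lit 0) (nat_lit 0)) (nat_lit 840832595358900728) (Tr.l (nat_lit 840865929355225592) (nat_lit 0) (nat_lit 0)))) (nat_lit 840865929355225592) (Tr.b (Tr.l (nat_lit 841011908166883118) (nat_lit 0) (nat_lit 0)) (nat_lit 841011908166883118) (Tr.b (Tr.l (nat_lit 841048151045753758) (nat_lit 0) (nat_lit 0)) (nat_lit 841048151045753758) (Tr.l (nat_lit 841943833828675598) (nat_lit 0) (nat_lit 0))))) (nat_lit 841943833828675598) (Tr.b (Tr.b (Tr.l (nat_lit 841944714700881038) (nat_lit 0) (nat_lit 0)) (nat_lit 841944714700881038) (Tr.b (Tr.l (nat_lit 842127357909662286) (nat_lit 0) (nat_lit 0)) (nat_lit 842127357909662286) (Tr.l (nat_lit 842666913300805690) (nat_lit 0) (nat_lit 0)))) (nat_lit 842666913300805690) (Tr.b (Tr.b (Tr.l (nat_lit 845401480112329326) (nat_lit 0) (nat_lit 0)) (nat_lit 845401480112329326) (Tr.l (nat_lit 848938683017708558) (nat_lit 0) (nat_lit 0))) (nat_lit 848938683017708558) (Tr.b (Tr.l (nat_lit 849685473495208270) (nat_lit 0) (nat_lit 0)) (nat_lit 849685473495208270) (Tr.l (nat_lit 849797418613417150) (nat_lit 0) (nat_lit 0))))))) (nat_lit 849797418613417150) (Tr.b (Tr.b (Tr.b (Tr.b (Tr.l (nat_lit 850873441934412158) (nat_lit 0) (nat_lit 0)) (nat_lit 850873441934412158) (Tr.b (Tr.l (nat_lit 850874327465535998) (nat_lit 0) (nat_lit 0)) (nat_lit 850874327465535998) (Tr.l (nat_lit 852724158895407910) (nat_lit 0) (nat_lit 0)))) (nat_lit 852724158895407910) (Tr.b (Tr.l (nat_lit 873070988951346710) (nat_lit 0) (nat_lit 0)) (nat_lit 873070988951346710) (Tr.b (Tr.l (nat_lit 874682368334689398) (nat_lit 0) (nat_lit 0)) (nat_lit 874682368334689398) (Tr.l (nat_lit 876890428427916166) (nat_lit 0) (nat_lit 0))))) (nat_lit 876890428427916166) (Tr.b (Tr.b (Tr.l (nat_lit 891653398407382918) (nat_lit 0) (nat_lit 0)) (nat_lit 891653398407382918) (Tr.b (Tr.l (nat_lit 895215653551803294) (nat_lit 0) (nat_lit 0)) (nat_lit 895215653551803294) (Tr.l (nat_lit 897004433566207282) (nat_lit 0) (nat_lit 0)))) (nat_lit 897004433566207282) (Tr.b (Tr.b (Tr.l (nat_lit 898343625521290022) (nat_lit 0) (nat_lit 0)) (nat_lit 898343625521290022) (Tr.l (nat_lit 898646060121877932) (nat_lit 0) (nat_lit 0))) (nat_lit 898646060121877932) (Tr.b (Tr.l (nat_lit 899530728489953182) (nat_lit 0) (nat_lit 0)) (nat_lit 899530728489953182) (Tr.l (nat_lit 900632424511112584) (nat_lit 0) (nat_lit 0)))))) (nat_lit 900632424511112584) (Tr.b (Tr.b (Tr.b (Tr.l (nat_lit 901452135140883720) (nat_lit 0) (nat_lit 0)) (nat_lit 901452135140883720) (Tr.b (Tr.l (nat_lit 902205292266532926) (nat_lit 0) (nat_lit 0)) (nat_lit 902205292266532926) (Tr.l (nat_lit 902622080078121642) (nat_lit 0) (nat_lit 0)))) (nat_lit 902622080078121642) (Tr.b (Tr.l (nat_lit 903790678925821574) (nat_lit 0) (nat_lit 0)) (nat_lit 903790678925821574) (Tr.b (Tr.l (nat_lit 903804228054600200) (nat_lit 0) (nat_lit 0)) (nat_lit 903804228054600200) (Tr.l (nat_lit 904076589744552126) (nat_lit 0) (nat_lit 0))))) (nat_lit 904076589744552126) (Tr.b (Tr.b (Tr.l (nat_lit 904615030456307898) (nat_lit 0) (nat_lit 0)) (nat_lit 904615030456307898) (Tr.b (Tr.l (nat_lit 904631568476426070) (nat_lit 0) (nat_lit 0)) (nat_lit 904631568476426070) (Tr.l (nat_lit 905082634006339654) (nat_lit 0) (nat_lit 0)))) (nat_lit 905082634006339654) (Tr.b (Tr.b (Tr.l (nat_lit 905146277190647566) (nat_lit 0) (nat_lit 0)) (nat_lit 905146277190647566) (Tr.l (nat_lit 906602491805165446) (nat_lit 0) (nat_lit 0))) (nat_lit 906602491805165446) (Tr.b (Tr.l (nat_lit 927302065003853854) (nat_lit 0) (nat_lit 0)) (nat_lit 927302065003853854) (Tr.l (nat_lit 927543943940802136) (nat_lit 0) (nat_lit 0)))))))) (nat_lit 927543943940802136) (Tr.b (Tr.b (Tr.b (Tr.b (Tr.b (Tr.l (nat_lit 928740045083410926) (nat_lit 0) (nat_lit 0)) (nat_lit 928740045083410926) (Tr.b (Tr.l (nat_lit 929734672720476998) (nat_lit 0) (nat_lit 0)) (nat_lit 929734672720476998) (Tr.l (nat_lit 930630219787958798) (nat_lit 0) (nat_lit 0)))) (nat_lit 930630219787958798) (Tr.b (Tr.l (nat_lit 931732554920612254) (nat_lit 0) (nat_lit 0)) (nat_lit 931732554920612254) (Tr.b (Tr.l (nat_lit 938350548824132446) (nat_lit 0) (nat_lit 0)) (nat_lit 938350548824132446) (Tr.l (nat_lit 942830332624279616) (nat_lit 0) (nat_lit 0))))) (nat_lit 942830332624279616) (Tr.b (Tr.b (Tr.l (nat_lit 959683460679551742) (nat_lit 0) (nat_lit 0)) (nat_lit 959683460679551742) (Tr.b (Tr.l (nat_lit 971584489264216894) (nat_lit 0) (nat_lit 0)) (nat_lit 971584489264216894) (Tr.l (nat_lit 993480673182549934) (nat_lit 0) (nat_lit 0)))) (nat_lit 993480673182549934) (Tr.b (Tr.l (nat_lit 997628716415645318) (nat_lit 0) (nat_lit 0)) (nat_lit 997628716415645318) (Tr.b (Tr.l (nat_lit 997665025619962502) (nat_lit 0) (nat_lit 0)) (nat_lit 997665025619962502) (Tr.l (nat_lit 998320219009139240) (nat_lit 0) (nat_lit 0)))))) (nat_lit 998320219009139240) (Tr.b (Tr.b (Tr.b (Tr.l (nat_lit 1028162802921955422) (nat_lit 0) (nat_lit 0)) (nat_lit 1028162802921955422) (Tr.b (Tr.l (nat_lit 1063745163364144398) (nat_lit 0) (nat_lit 0)) (nat_lit 1063745163364144398) (Tr.l (nat_lit 1236927733150083260) (nat_lit 0) (nat_lit 0)))) (nat_lit 1236927733150083260) (Tr.b (Tr.l (nat_lit 1238370911891020542) (nat_lit 0) (nat_lit 0)) (nat_lit 1238370911891020542) (Tr.b (Tr.l (nat_lit 1243682776393269214) (nat_lit 0) (nat_lit 0)) (nat_lit 1243682776393269214) (Tr.l (nat_lit 1243865043300070526) (nat_lit 0) (nat_lit 0))))) (nat_lit 1243865043300070526) (Tr.b (Tr.b (Tr.l (nat_lit 1274380870219382790) (nat_lit 0) (nat_lit 0)) (nat_lit 1274380870219382790) (Tr.b (Tr.l (nat_lit 1277705388687154054) (nat_lit 0) (nat_lit 0)) (nat_lit 1277705388687154054) (Tr.l (nat_lit 1278465621142325784) (nat_lit 0) (nat_lit 0)))) (nat_lit 1278465621142325784) (Tr.b (Tr.b (Tr.l (nat_lit 1340413798960115514) (nat_lit 0) (nat_lit 0)) (nat_lit 1340413798960115514) (Tr.l (nat_lit 1377524776436720158) (nat_lit 0) (nat_lit 0))) (nat_lit 1377524776436720158) (Tr.b (Tr.l (nat_lit 1377525903169763998) (nat_lit 0) (nat_lit 0)) (nat_lit 1377525903169763998) (Tr.l (nat_lit 1403134286662311678) (nat_lit 0) (nat_lit 0))))))) (nat_lit 1403134286662311678) (Tr.b (Tr.b (Tr.b (Tr.b (Tr.l (nat_lit 1431218556780437902) (nat_lit 0) (nat_lit 0)) (nat_lit 1431218556780437902) (Tr.b (Tr.l (nat_lit 1437351661976573326) (nat_lit 0) (nat_lit 0)) (nat_lit 1437351661976573326) (Tr.l (nat_lit 1447130733878500654) (nat_lit 0) (nat_lit 0)))) (nat_lit 1447130733878500654) (Tr.b (Tr.l (nat_lit 1519360876413138694) (nat_lit 0) (nat_lit 0)) (nat_lit 1519360876413138694) (Tr.b (Tr.l (nat_lit 1520226572617856184) (nat_lit 0) (nat_lit 0)) (nat_lit 1520226572617856184) (Tr.l (nat_lit 1537399895418102734) (nat_lit 0) (nat_lit 0))))) (nat_lit 1537399895418102734) (Tr.b (Tr.b (Tr.l (nat_lit 1542283792686191270) (nat_lit 0) (nat_lit 0)) (nat_lit 1542283792686191270) (Tr.b (Tr.l (nat_lit 1542364983371661974) (nat_lit 0) (nat_lit 0)) (nat_lit 1542364983371661974) (Tr.l (nat_lit 1566646021778103582) (nat_lit 0) (nat_lit 0)))) (nat_lit 1566646021778103582) (Tr.b (Tr.b (Tr.l (nat_lit 1580907734378814638) (nat_lit 0) (nat_lit 0)) (nat_lit 1580907734378814638) (Tr.l (nat_lit 1580908941426917678) (nat_lit 0) (nat_lit 0))) (nat_lit 1580908941426917678) (Tr.b (Tr.l (nat_lit 1581884781827790080) (nat_lit 0) (nat_lit 0)) (nat_lit 1581884781827790080) (Tr.l (nat_lit 1595067330433920198) (nat_lit 0) (nat_lit 0)))))) (nat_lit 1595067330433920198) (Tr.b (Tr.b (Tr.b (Tr.l (nat_lit 1615738464551374854) (nat_lit 0) (nat_lit 0)) (nat_lit 1615738464551374854) (Tr.b (Tr.l (nat_lit 1616645025222317304) (nat_lit 0) (nat_lit 0)) (nat_lit 1616645025222317304) (Tr.l (nat_lit 1628100538325377982) (nat_lit 0) (nat_lit 0)))) (nat_lit 1628100538325377982) (Tr.b (Tr.l (nat_lit 1667340638104761642) (nat_lit 0) (nat_lit 0)) (nat_lit 1667340638104761642) (Tr.b (Tr.l (nat_lit 2706516384503440454) (nat_lit 0) (nat_lit 0)) (nat_lit 2706516384503440454) (Tr.l (nat_lit 2751970975758997932) (nat_lit 0) (nat_lit 0))))) (nat_lit 2751970975758997932) (Tr.b (Tr.b (Tr.l (nat_lit 2834591087444597254) (nat_lit 0) (nat_lit 0)) (nat_lit 2834591087444597254) (Tr.b (Tr.l (nat_lit 3013761573416602054) (nat_lit 0) (nat_lit 0)) (nat_lit 3013761573416602054) (Tr.l (nat_lit 3014170753067678728) (nat_lit 0) (nat_lit 0)))) (nat_lit 3014170753067678728) (Tr.b (Tr.b (Tr.l (nat_lit 3120302911965612296) (nat_lit 0) (nat_lit 0)) (nat_lit 3120302911965612296) (Tr.l (nat_lit 3196971178605724332) (nat_lit 0) (nat_lit 0))) (nat_lit 3196971178605724332) (Tr.b (Tr.l (nat_lit 3211114829434450026) (nat_lit 0) (nat_lit 0)) (nat_lit 3211114829434450026) (Tr.l (nat_lit 3228782586876173254) (nat_lit 0) (nat_lit 0))))))))))) (nat_lit 3228782586876173254) (Tr.b (Tr.b (Tr.b (Tr.b (Tr.b (Tr.b (Tr.b (Tr.b (Tr.l (nat_lit 3229213471836018184) (nat_lit 0) (nat_lit 0)) (nat_lit 3229213471836018184) (Tr.b (Tr.l (nat_lit 3340508484956579014) (nat_lit 0) (nat_lit 0)) (nat_lit 3340508484956579014) (Tr.l (nat_lit 3340950504637227784) (nat_lit 0) (nat_lit 0)))) (nat_lit 3340950504637227784) (Tr.b (Tr.l (nat_lit 3414095326190414142) (nat_lit 0) (nat_lit 0)) (nat_lit 3414095326190414142) (Tr.b (Tr.l (nat_lit 3657691127447116446) (nat_lit 0) (nat_lit 0)) (nat_lit 3657691127447116446) (Tr.l (nat_lit 3784264853382339918) (nat_lit 0) (nat_lit 0))))) (nat_lit 3784264853382339918) (Tr.b (Tr.b (Tr.l (nat_lit 4659333397876166622) (nat_lit 0) (nat_lit 0)) (nat_lit 4659333397876166622) (Tr.b (Tr.l (nat_lit 4659939538139651214) (nat_lit 0) (nat_lit 0)) (nat_lit 4659939538139651214) (Tr.l (nat_lit 4661735395192982142) (nat_lit 0) (nat_lit 0)))) (nat_lit 4661735395192982142) (Tr.b (Tr.l (nat_lit 5085543582041705766) (nat_lit 0) (nat_lit 0)) (nat_lit 5085543582041705766) (Tr.b (Tr.l (nat_lit 6117688804222175420) (nat_lit 0) (nat_lit 0)) (nat_lit 6117688804222175420) (Tr.l (nat_lit 7773303750957280794) (nat_lit 0) (nat_lit 0)))))) (nat_lit 7773303750957280794) (Tr.b (Tr.b (Tr.b (Tr.l (nat_lit 11283169073037737228) (nat_lit 0) (nat_lit 0)) (nat_lit 11283169073037737228) (Tr.b (Tr.l (nat_lit 11333089992988439468) (nat_lit 0) (nat_lit 0)) (nat_lit 11333089992988439468) (Tr.l (nat_lit 12049523803029002348) (nat_lit 0) (nat_lit 0)))) (nat_lit 12049523803029002348) (Tr.b (Tr.l (nat_lit 12074766759753178590) (nat_lit 0) (nat_lit 0)) (nat_lit 12074766759753178590) (Tr.b (Tr.l (nat_lit 12739351774380297114) (nat_lit 0) (nat_lit 0)) (nat_lit 12739351774380297114) (Tr.l (nat_lit 12909314885498831468) (nat_lit 0) (nat_lit 0))))) (nat_lit 12909314885498831468) (Tr.b (Tr.b (Tr.l (nat_lit 13356068184564553580) (nat_lit 0) (nat_lit 0)) (nat_lit 13356068184564553580) (Tr.b (Tr.l (nat_lit 13384000473198838254) (nat_lit 0) (nat_lit 0)) (nat_lit 13384000473198838254) (Tr.l (nat_lit 16595360439221520990) (nat_lit 0) (nat_lit 0)))) (nat_lit 16595360439221520990) (Tr.b (Tr.b (Tr.l (nat_lit 16596827409244056174) (nat_lit 0) (nat_lit 0)) (nat_lit 16596827409244056174) (Tr.l (nat_lit 31341378100491280864) (nat_lit 0) (nat_lit 0))) (nat_lit 31341378100491280864) (Tr.b (Tr.l (nat_lit 31585301493750853184) (nat_lit 0) (nat_lit 0)) (nat_lit 31585301493750853184) (Tr.l (nat_lit 31775902038976246692) (nat_lit 0) (nat_lit 0))))))) (nat_lit 31775902038976246692) (Tr.b (Tr.b (Tr.b (Tr.b (Tr.l (nat_lit 32214928648243740562) (nat_lit 0) (nat_lit 0)) (nat_lit 32214928648243740562) (Tr.b (Tr.l (nat_lit 32465634259838050546) (nat_lit 0) (nat_lit 0)) (nat_lit 32465634259838050546) (Tr.l (nat_lit 32658436282404899654) (nat_lit 0) (nat_lit 0)))) (nat_lit 32658436282404899654) (Tr.b (Tr.l (nat_lit 32658488926758497434) (nat_lit 0) (nat_lit 0)) (nat_lit 32658488926758497434) (Tr.b (Tr.l (nat_lit 35008947617592470426) (nat_lit 0) (nat_lit 0)) (nat_lit 35008947617592470426) (Tr.l (nat_lit 36133630563872383762) (nat_lit 0) (nat_lit 0))))) (nat_lit 36133630563872383762) (Tr.b (Tr.b (Tr.l (nat_lit 37734165878010370726) (nat_lit 0) (nat_lit 0)) (nat_lit 37734165878010370726) (Tr.b (Tr.l (nat_lit 37766914868033820454) (nat_lit 0) (nat_lit 0)) (nat_lit 37766914868033820454) (Tr.l (nat_lit 37795828734198108454) (nat_lit 0) (nat_lit 0)))) (nat_lit 37795828734198108454) (Tr.b (Tr.l (nat_lit 38316975116246722604) (nat_lit 0) (nat_lit 0)) (nat_lit 38316975116246722604) (Tr.b (Tr.l (nat_lit 38346204445392844454) (nat_lit 0) (nat_lit 0)) (nat_lit 38346204445392844454) (Tr.l (nat_lit 39326203701531038480) (nat_lit 0) (nat_lit 0)))))) (nat_lit 39326203701531038480) (Tr.b (Tr.b (Tr.b (Tr.l (nat_lit 39699670880428487264) (nat_lit 0) (nat_lit 0)) (nat_lit 39699670880428487264) (Tr.b (Tr.l (nat_lit 40290589260143125996) (nat_lit 0) (nat_lit 0)) (nat_lit 40290589260143125996) (Tr.l (nat_lit 40422058760092279108) (nat_lit 0) (nat_lit 0)))) (nat_lit 40422058760092279108) (Tr.b (Tr.l (nat_lit 40912920959831996504) (nat_lit 0) (nat_lit 0)) (nat_lit 40912920959831996504) (Tr.b (Tr.l (nat_lit 46262491776012908534) (nat_lit 0) (nat_lit 0)) (nat_lit 46262491776012908534) (Tr.l (nat_lit 46296157513785961874) (nat_lit 0) (nat_lit 0))))) (nat_lit 46296157513785961874) (Tr.b (Tr.b (Tr.l (nat_lit 46300647666704326774) (nat_lit 0) (nat_lit 0)) (nat_lit 46300647666704326774) (Tr.b (Tr.l (nat_lit 46334334225399138934) (nat_lit 0) (nat_lit 0)) (nat_lit 46334334225399138934) (Tr.l (nat_lit 46977575019871039868) (nat_lit 0) (nat_lit 0)))) (nat_lit 46977575019871039868) (Tr.b (Tr.b (Tr.l (nat_lit 47011630516134286838) (nat_lit 0) (nat_lit 0)) (nat_lit 47011630516134286838) (Tr.l (nat_lit 49237378001137935964) (nat_lit 0) (nat_lit 0))) (nat_lit 49237378001137935964) (Tr.b (Tr.l (nat_lit 49998479571247050248) (nat_lit 0) (nat_lit 0)) (nat_lit 49998479571247050248) (Tr.l (nat_lit 56204882660627113414) (nat_lit 0) (nat_lit 0)))))))) (nat_lit 56204882660627113414) (Tr.b (Tr.b (Tr.b (Tr.b (Tr.b (Tr.l (nat_lit 56243840178646679494) (nat_lit 0) (nat_lit 0)) (nat_lit 56243840178646679494) (Tr.b (Tr.l (nat_lit 67568355907927320214) (nat_lit 0) (nat_lit 0)) (nat_lit 67568355907927320214) (Tr.l (nat_lit 67613082229643759794) (nat_lit 0) (nat_lit 0)))) (nat_lit 67613082229643759794) (Tr.b (Tr.l (nat_lit 67619047416462714646) (nat_lit 0) (nat_lit 0)) (nat_lit 67619047416462714646) (Tr.b (Tr.l (nat_lit 67663798899990376726) (nat_lit 0) (nat_lit 0)) (nat_lit 67663798899990376726) (Tr.l (nat_lit 68614161824110597148) (nat_lit 0) (nat_lit 0))))) (nat_lit 68614161824110597148) (Tr.b (Tr.b (Tr.l (nat_lit 68659406650411993238) (nat_lit 0) (nat_lit 0)) (nat_lit 68659406650411993238) (Tr.b (Tr.l (nat_lit 71512331329387105084) (nat_lit 0) (nat_lit 0)) (nat_lit 71512331329387105084) (Tr.l (nat_lit 72619206941106234728) (nat_lit 0) (nat_lit 0)))) (nat_lit 72619206941106234728) (Tr.b (Tr.l (nat_lit 341835457444896526204) (nat_lit 0) (nat_lit 0)) (nat_lit 341835457444896526204) (Tr.b (Tr.l (nat_lit 342640643168677882604) (nat_lit 0) (nat_lit 0)) (nat_lit 342640643168677882604) (Tr.l (nat_lit 344417058185340435068) (nat_lit 0) (nat_lit 0)))))) (nat_lit 344417058185340435068) (Tr.b (Tr.b (Tr.b (Tr.l (nat_lit 345226798951290705388) (nat_lit 0) (nat_lit 0)) (nat_lit 345226798951290705388) (Tr.b (Tr.l (nat_lit 349624099536593326204) (nat_lit 0) (nat_lit 0)) (nat_lit 349624099536593326204) (Tr.l (nat_lit 350443001859107482604) (nat_lit 0) (nat_lit 0)))) (nat_lit 350443001859107482604) (Tr.b (Tr.l (nat_lit 379500086249971612204) (nat_lit 0) (nat_lit 0)) (nat_lit 379500086249971612204) (Tr.b (Tr.l (nat_lit 384747554657666982604) (nat_lit 0) (nat_lit 0)) (nat_lit 384747554657666982604) (Tr.l (nat_lit 390404638692587485388) (nat_lit 0) (nat_lit 0))))) (nat_lit 390404638692587485388) (Tr.b (Tr.b (Tr.l (nat_lit 393256460712653382604) (nat_lit 0) (nat_lit 0)) (nat_lit 393256460712653382604) (Tr.b (Tr.l (nat_lit 426035934673370633254) (nat_lit 0) (nat_lit 0)) (nat_lit 426035934673370633254) (Tr.l (nat_lit 426072764704074086746) (nat_lit 0) (nat_lit 0)))) (nat_lit 426072764704074086746) (Tr.b (Tr.b (Tr.l (nat_lit 426095245959382995704) (nat_lit 0) (nat_lit 0)) (nat_lit 426095245959382995704) (Tr.l (nat_lit 426225752587247883638) (nat_lit 0) (nat_lit 0))) (nat_lit 426225752587247883638) (Tr.b (Tr.l (nat_lit 426249691693399586272) (nat_lit 0) (nat_lit 0)) (nat_lit 426249691693399586272) (Tr.l (nat_lit 426262778928456835648) (nat_lit 0) (nat_lit 0))))))) (nat_lit 426262778928456835648) (Tr.b (Tr.b (Tr.b (Tr.b (Tr.l (nat_lit 426285083691169124008) (nat_lit 0) (nat_lit 0)) (nat_lit 426285083691169124008) (Tr.b (Tr.l (nat_lit 426362655240369962176) (nat_lit 0) (nat_lit 0)) (nat_lit 426362655240369962176) (Tr.l (nat_lit 426664949448600900104) (nat_lit 0) (nat_lit 0)))) (nat_lit 426664949448600900104) (Tr.b (Tr.l (nat_lit 426678298863183661064) (nat_lit 0) (nat_lit 0)) (nat_lit 426678298863183661064) (Tr.b (Tr.l (nat_lit 429068714833451079454) (nat_lit 0) (nat_lit 0)) (nat_lit 429068714833451079454) (Tr.l (nat_lit 429082101799209547294) (nat_lit 0) (nat_lit 0))))) (nat_lit 429082101799209547294) (Tr.b (Tr.b (Tr.l (nat_lit 429302723701904893504) (nat_lit 0) (nat_lit 0)) (nat_lit 429302723701904893504) (Tr.b (Tr.l (nat_lit 429450439254710346878) (nat_lit 0) (nat_lit 0)) (nat_lit 429450439254710346878) (Tr.l (nat_lit 429641396950705943854) (nat_lit 0) (nat_lit 0)))) (nat_lit 429641396950705943854) (Tr.b (Tr.b (Tr.l (nat_lit 432519433192968925754) (nat_lit 0) (nat_lit 0)) (nat_lit 432519433192968925754) (Tr.l (nat_lit 432549379125064428448) (nat_lit 0) (nat_lit 0))) (nat_lit 432549379125064428448) (Tr.b (Tr.l (nat_lit 432699412767591000254) (nat_lit 0) (nat_lit 0)) (nat_lit 432699412767591000254) (Tr.l (nat_lit 444929435758810610558) (nat_lit 0) (nat_lit 0)))))) (nat_lit 444929435758810610558) (Tr.b (Tr.b (Tr.b (Tr.l (nat_lit 445125532372292881454) (nat_lit 0) (nat_lit 0)) (nat_lit 445125532372292881454) (Tr.b (Tr.l (nat_lit 451622665514030496904) (nat_lit 0) (nat_lit 0)) (nat_lit 451622665514030496904) (Tr.l (nat_lit 476997110295438832548) (nat_lit 0) (nat_lit 0)))) (nat_lit 476997110295438832548) (Tr.b (Tr.l (nat_lit 531672188093239691518) (nat_lit 0) (nat_lit 0)) (nat_lit 531672188093239691518) (Tr.b (Tr.l (nat_lit 531882297365405545018) (nat_lit 0) (nat_lit 0)) (nat_lit 531882297365405545018) (Tr.l (nat_lit 532146413101667754898) (nat_lit 0) (nat_lit 0))))) (nat_lit 532146413101667754898) (Tr.b (Tr.b (Tr.l (nat_lit 532162758870132810994) (nat_lit 0) (nat_lit 0)) (nat_lit 532162758870132810994) (Tr.b (Tr.l (nat_lit 532206506793964535218) (nat_lit 0) (nat_lit 0)) (nat_lit 532206506793964535218) (Tr.l (nat_lit 535752626424566288626) (nat_lit 0) (nat_lit 0)))) (nat_lit 535752626424566288626) (Tr.b (Tr.b (Tr.l (nat_lit 539945841446833071770) (nat_lit 0) (nat_lit 0)) (nat_lit 539945841446833071770) (Tr.l (nat_lit 540158399712305646110) (nat_lit 0) (nat_lit 0))) (nat_lit 540158399712305646110) (Tr.b (Tr.l (nat_lit 561799055439398620456) (nat_lit 0) (nat_lit 0)) (nat_lit 561799055439398620456) (Tr.l (nat_lit 591401558664226151854) (nat_lit 0) (nat_lit 0))))))))) (nat_lit 591401558664226151854) (Tr.b (Tr.b (Tr.b (Tr.b (Tr.b (Tr.b (Tr.l (nat_lit 591629132547491185834) (nat_lit 0) (nat_lit 0)) (nat_lit 591629132547491185834) (Tr.b (Tr.l (nat_lit 591944831082122220742) (nat_lit 0) (nat_lit 0)) (nat_lit 591944831082122220742) (Tr.l (nat_lit 591945077787500018842) (nat_lit 0) (nat_lit 0)))) (nat_lit 591945077787500018842) (Tr.b (Tr.l (nat_lit 591983156867977468378) (nat_lit 0) (nat_lit 0)) (nat_lit 591983156867977468378) (Tr.b (Tr.l (nat_lit 595832869648696216774) (nat_lit 0) (nat_lit 0)) (nat_lit 595832869648696216774) (Tr.l (nat_lit 600606624263726888138) (nat_lit 0) (nat_lit 0))))) (nat_lit 600606624263726888138) (Tr.b (Tr.b (Tr.l (nat_lit 600836851262327350478) (nat_lit 0) (nat_lit 0)) (nat_lit 600836851262327350478) (Tr.b (Tr.l (nat_lit 623904258880966261624) (nat_lit 0) (nat_lit 0)) (nat_lit 623904258880966261624) (Tr.l (nat_lit 625619358791143339720) (nat_lit 0) (nat_lit 0)))) (nat_lit 625619358791143339720) (Tr.b (Tr.l (nat_lit 741488149532021850904) (nat_lit 0) (nat_lit 0)) (nat_lit 741488149532021850904) (Tr.b (Tr.l (nat_lit 750184582943694806296) (nat_lit 0) (nat_lit 0)) (nat_lit 750184582943694806296) (Tr.l (nat_lit 753610866064926205004) (nat_lit 0) (nat_lit 0)))))) (nat_lit 753610866064926205004) (Tr.b (Tr.b (Tr.b (Tr.l (nat_lit 754573415086916815384) (nat_lit 0) (nat_lit 0)) (nat_lit 754573415086916815384) (Tr.b (Tr.l (nat_lit 755103847179243826840) (nat_lit 0) (nat_lit 0)) (nat_lit 755103847179243826840) (Tr.l (nat_lit 765077073531889503080) (nat_lit 0) (nat_lit 0)))) (nat_lit 765077073531889503080) (Tr.b (Tr.l (nat_lit 842960793397160197048) (nat_lit 0) (nat_lit 0)) (nat_lit 842960793397160197048) (Tr.b (Tr.l (nat_lit 1016410097058275529560) (nat_lit 0) (nat_lit 0)) (nat_lit 1016410097058275529560) (Tr.l (nat_lit 1016410227005998693132) (nat_lit 0) (nat_lit 0))))) (nat_lit 1016410227005998693132) (Tr.b (Tr.b (Tr.l (nat_lit 1566762283049108649144) (nat_lit 0) (nat_lit 0)) (nat_lit 1566762283049108649144) (Tr.b (Tr.l (nat_lit 1648886352844522837208) (nat_lit 0) (nat_lit 0)) (nat_lit 1648886352844522837208) (Tr.l (nat_lit 1658776802077846108454) (nat_lit 0) (nat_lit 0)))) (nat_lit 1658776802077846108454) (Tr.b (Tr.b (Tr.l (nat_lit 1666186696042364293004) (nat_lit 0) (nat_lit 0)) (nat_lit 1666186696042364293004) (Tr.l (nat_lit 1667737623632718108278) (nat_lit 0) (nat_lit 0))) (nat_lit 1667737623632718108278) (Tr.b (Tr.l (nat_lit 1674167469184105350104) (nat_lit 0) (nat_lit 0)) (nat_lit 1674167469184105350104) (Tr.l (nat_lit 1685768133220102210838) (nat_lit 0) (nat_lit 0))))))) (nat_lit 1685768133220102210838) (Tr.b (Tr.b (Tr.b (Tr.b (Tr.l (nat_lit 1769842562898337596454) (nat_lit 0) (nat_lit 0)) (nat_lit 1769842562898337596454) (Tr.b (Tr.l (nat_lit 1770015145436645024504) (nat_lit 0) (nat_lit 0)) (nat_lit 1770015145436645024504) (Tr.l (nat_lit 1771672580074259882504) (nat_lit 0) (nat_lit 0)))) (nat_lit 1771672580074259882504) (Tr.b (Tr.l (nat_lit 1773849731545085143834) (nat_lit 0) (nat_lit 0)) (nat_lit 1773849731545085143834) (Tr.b (Tr.l (nat_lit 1773850151031380905114) (nat_lit 0) (nat_lit 0)) (nat_lit 1773850151031380905114) (Tr.l (nat_lit 1773904646260794844954) (nat_lit 0) (nat_lit 0))))) (nat_lit 1773904646260794844954) (Tr.b (Tr.b (Tr.l (nat_lit 1778660377537459988254) (nat_lit 0) (nat_lit 0)) (nat_lit 1778660377537459988254) (Tr.b (Tr.l (nat_lit 1780323879283777406254) (nat_lit 0) (nat_lit 0)) (nat_lit 1780323879283777406254) (Tr.l (nat_lit 1785115966127597233578) (nat_lit 0) (nat_lit 0)))) (nat_lit 1785115966127597233578) (Tr.b (Tr.b (Tr.l (nat_lit 1787981139594207407386) (nat_lit 0) (nat_lit 0)) (nat_lit 1787981139594207407386) (Tr.l (nat_lit 1788658899938905160302) (nat_lit 0) (nat_lit 0))) (nat_lit 1788658899938905160302) (Tr.b (Tr.l (nat_lit 1788659321172623679502) (nat_lit 0) (nat_lit 0)) (nat_lit 1788659321172623679502) (Tr.l (nat_lit 1788714043406991173518) (nat_lit 0) (nat_lit 0)))))) (nat_lit 1788714043406991173518) (Tr.b (Tr.b (Tr.b (Tr.l (nat_lit 1797564843057432972814) (nat_lit 0) (nat_lit 0)) (nat_lit 1797564843057432972814) (Tr.b (Tr.l (nat_lit 1797566059701996658286) (nat_lit 0) (nat_lit 0)) (nat_lit 1797566059701996658286) (Tr.l (nat_lit 1800027397746229089728) (nat_lit 0) (nat_lit 0)))) (nat_lit 1800027397746229089728) (Tr.b (Tr.l (nat_lit 1811535386704936511054) (nat_lit 0) (nat_lit 0)) (nat_lit 1811535386704936511054) (Tr.b (Tr.l (nat_lit 1814967762525074327254) (nat_lit 0) (nat_lit 0)) (nat_lit 1814967762525074327254) (Tr.l (nat_lit 1815000005216153779978) (nat_lit 0) (nat_lit 0))))) (nat_lit 1815000005216153779978) (Tr.b (Tr.b (Tr.l (nat_lit 1876506668288033990254) (nat_lit 0) (nat_lit 0)) (nat_lit 1876506668288033990254) (Tr.b (Tr.l (nat_lit 1891760652681435041518) (nat_lit 0) (nat_lit 0)) (nat_lit 1891760652681435041518) (Tr.l (nat_lit 1914995831043237980888) (nat_lit 0) (nat_lit 0)))) (nat_lit 1914995831043237980888) (Tr.b (Tr.b (Tr.l (nat_lit 2590119502866885449464) (nat_lit 0) (nat_lit 0)) (nat_lit 2590119502866885449464) (Tr.l (nat_lit 2612014480248063711368) (nat_lit 0) (nat_lit 0))) (nat_lit 2612014480248063711368) (Tr.b (Tr.l (nat_lit 2629830499875303312102) (nat_lit 0) (nat_lit 0)) (nat_lit 2629830499875303312102) (Tr.l (nat_lit 2629831830947767691970) (nat_lit 0) (nat_lit 0)))))))) (nat_lit 2629831830947767691970) (Tr.b (Tr.b (Tr.b (Tr.b (Tr.b (Tr.l (nat_lit 2647689590682786842504) (nat_lit 0) (nat_lit 0)) (nat_lit 2647689590682786842504) (Tr.b (Tr.l (nat_lit 2650270360831851172902) (nat_lit 0) (nat_lit 0)) (nat_lit 2650270360831851172902) (Tr.l (nat_lit 2650594009556511955650) (nat_lit 0) (nat_lit 0)))) (nat_lit 2650594009556511955650) (Tr.b (Tr.l (nat_lit 2691963645877786745498) (nat_lit 0) (nat_lit 0)) (nat_lit 2691963645877786745498) (Tr.b (Tr.l (nat_lit 2697930074683042464254) (nat_lit 0) (nat_lit 0)) (nat_lit 2697930074683042464254) (Tr.l (nat_lit 2723781625279300339550) (nat_lit 0) (nat_lit 0))))) (nat_lit 2723781625279300339550) (Tr.b (Tr.b (Tr.l (nat_lit 2736776847334302741518) (nat_lit 0) (nat_lit 0)) (nat_lit 2736776847334302741518) (Tr.b (Tr.l (nat_lit 2869755009953660373754) (nat_lit 0) (nat_lit 0)) (nat_lit 2869755009953660373754) (Tr.l (nat_lit 3299716754920269927428) (nat_lit 0) (nat_lit 0)))) (nat_lit 3299716754920269927428) (Tr.b (Tr.l (nat_lit 5145533527808299066508) (nat_lit 0) (nat_lit 0)) (nat_lit 5145533527808299066508) (Tr.b (Tr.l (nat_lit 5375730961917023950698) (nat_lit 0) (nat_lit 0)) (nat_lit 5375730961917023950698) (Tr.l (nat_lit 5375896066689366950378) (nat_lit 0) (nat_lit 0)))))) (nat_lit 5375896066689366950378) (Tr.b (Tr.b (Tr.b (Tr.l (nat_lit 5376248229069664193834) (nat_lit 0) (nat_lit 0)) (nat_lit 5376248229069664193834) (Tr.b (Tr.l (nat_lit 5400277752487854966722) (nat_lit 0) (nat_lit 0)) (nat_lit 5400277752487854966722) (Tr.l (nat_lit 5430255182667171753198) (nat_lit 0) (nat_lit 0)))) (nat_lit 5430255182667171753198) (Tr.b (Tr.l (nat_lit 5430421122621615034478) (nat_lit 0) (nat_lit 0)) (nat_lit 5430421122621615034478) (Tr.b (Tr.l (nat_lit 5430775066371629168174) (nat_lit 0) (nat_lit 0)) (nat_lit 5430775066371629168174) (Tr.l (nat_lit 5450728238588694854382) (nat_lit 0) (nat_lit 0))))) (nat_lit 5450728238588694854382) (Tr.b (Tr.b (Tr.l (nat_lit 5493079437059362092846) (nat_lit 0) (nat_lit 0)) (nat_lit 5493079437059362092846) (Tr.b (Tr.l (nat_lit 5510112880581442125782) (nat_lit 0) (nat_lit 0)) (nat_lit 5510112880581442125782) (Tr.l (nat_lit 5629424599924406715438) (nat_lit 0) (nat_lit 0)))) (nat_lit 5629424599924406715438) (Tr.b (Tr.b (Tr.l (nat_lit 5698911364317382907254) (nat_lit 0) (nat_lit 0)) (nat_lit 5698911364317382907254) (Tr.l (nat_lit 5700238947786857288390) (nat_lit 0) (nat_lit 0))) (nat_lit 5700238947786857288390) (Tr.b (Tr.l (nat_lit 5745431489811551292638) (nat_lit 0) (nat_lit 0)) (nat_lit 5745431489811551292638) (Tr.l (nat_lit 5827336503717213685454) (nat_lit 0) (nat_lit 0))))))) (nat_lit 5827336503717213685454) (Tr.b (Tr.b (Tr.b (Tr.b (Tr.l (nat_lit 5828686461763053009790) (nat_lit 0) (nat_lit 0)) (nat_lit 5828686461763053009790) (Tr.b (Tr.l (nat_lit 7294480473828873364774) (nat_lit 0) (nat_lit 0)) (nat_lit 7294480473828873364774) (Tr.l (nat_lit 7351167109747791333254) (nat_lit 0) (nat_lit 0)))) (nat_lit 7351167109747791333254) (Tr.b (Tr.l (nat_lit 7394089134125214048914) (nat_lit 0) (nat_lit 0)) (nat_lit 7394089134125214048914) (Tr.b (Tr.l (nat_lit 7485903462923405372678) (nat_lit 0) (nat_lit 0)) (nat_lit 7485903462923405372678) (Tr.l (nat_lit 7775775784265965966858) (nat_lit 0) (nat_lit 0))))) (nat_lit 7775775784265965966858) (Tr.b (Tr.b (Tr.l (nat_lit 9152554243869063554180) (nat_lit 0) (nat_lit 0)) (nat_lit 9152554243869063554180) (Tr.b (Tr.l (nat_lit 9190369525431557074954) (nat_lit 0) (nat_lit 0)) (nat_lit 9190369525431557074954) (Tr.l (nat_lit 9190369770849581119754) (nat_lit 0) (nat_lit 0)))) (nat_lit 9190369770849581119754) (Tr.b (Tr.b (Tr.l (nat_lit 12795120780825568772904) (nat_lit 0) (nat_lit 0)) (nat_lit 12795120780825568772904) (Tr.l (nat_lit 12938919535413658549198) (nat_lit 0) (nat_lit 0))) (nat_lit 12938919535413658549198) (Tr.b (Tr.l (nat_lit 12978172402777267579342) (nat_lit 0) (nat_lit 0)) (nat_lit 12978172402777267579342) (Tr.l (nat_lit 16432804257048660511662) (nat_lit 0) (nat_lit 0)))))) (nat_lit 16432804257048660511662) (Tr.b (Tr.b (Tr.b (Tr.l (nat_lit 16559463001868711570340) (nat_lit 0) (nat_lit 0)) (nat_lit 16559463001868711570340) (Tr.b (Tr.l (nat_lit 25271199311885624979198) (nat_lit 0) (nat_lit 0)) (nat_lit 25271199311885624979198) (Tr.l (nat_lit 25450058975311807876748) (nat_lit 0) (nat_lit 0)))) (nat_lit 25450058975311807876748) (Tr.b (Tr.l (nat_lit 26084036225910582485164) (nat_lit 0) (nat_lit 0)) (nat_lit 26084036225910582485164) (Tr.b (Tr.l (nat_lit 26084836358867219991724) (nat_lit 0) (nat_lit 0)) (nat_lit 26084836358867219991724) (Tr.l (nat_lit 26085137105732209710508) (nat_lit 0) (nat_lit 0))))) (nat_lit 26085137105732209710508) (Tr.b (Tr.b (Tr.l (nat_lit 26155656513514181697360) (nat_lit 0) (nat_lit 0)) (nat_lit 26155656513514181697360) (Tr.b (Tr.l (nat_lit 26299816722485592060808) (nat_lit 0) (nat_lit 0)) (nat_lit 26299816722485592060808) (Tr.l (nat_lit 26396456614108444822702) (nat_lit 0) (nat_lit 0)))) (nat_lit 26396456614108444822702) (Tr.b (Tr.b (Tr.l (nat_lit 26397261524543925135406) (nat_lit 0) (nat_lit 0)) (nat_lit 26397261524543925135406) (Tr.l (nat_lit 26397564067106258455918) (nat_lit 0) (nat_lit 0))) (nat_lit 26397564067106258455918) (Tr.b (Tr.l (nat_lit 26423589550813709080616) (nat_lit 0) (nat_lit 0)) (nat_lit 26423589550813709080616) (Tr.l (nat_lit 26463449169110009305774) (nat_lit 0) (nat_lit 0)))))))))) (nat_lit 26463449169110009305774) (Tr.b (Tr.b (Tr.b (Tr.b (Tr.b (Tr.b (Tr.b (Tr.l (nat_lit 26468564627621922821840) (nat_lit 0) (nat_lit 0)) (nat_lit 26468564627621922821840) (Tr.b (Tr.l (nat_lit 26485705165925392248952) (nat_lit 0) (nat_lit 0)) (nat_lit 26485705165925392248952) (Tr.l (nat_lit 26669007898854968352494) (nat_lit 0) (nat_lit 0)))) (nat_lit 26669007898854968352494) (Tr.b (Tr.l (nat_lit 26784427794264046940170) (nat_lit 0) (nat_lit 0)) (nat_lit 26784427794264046940170) (Tr.b (Tr.l (nat_lit 26854730472276135058286) (nat_lit 0) (nat_lit 0)) (nat_lit 26854730472276135058286) (Tr.l (nat_lit 26886129453350404298936) (nat_lit 0) (nat_lit 0))))) (nat_lit 26886129453350404298936) (Tr.b (Tr.b (Tr.l (nat_lit 29377867830236492953894) (nat_lit 0) (nat_lit 0)) (nat_lit 29377867830236492953894) (Tr.b (Tr.l (nat_lit 29382409550152308159094) (nat_lit 0) (nat_lit 0)) (nat_lit 29382409550152308159094) (Tr.l (nat_lit 29382977290852787295712) (nat_lit 0) (nat_lit 0)))) (nat_lit 29382977290852787295712) (Tr.b (Tr.l (nat_lit 29386951796648786143174) (nat_lit 0) (nat_lit 0)) (nat_lit 29386951796648786143174) (Tr.b (Tr.l (nat_lit 29391494569766627563798) (nat_lit 0) (nat_lit 0)) (nat_lit 29391494569766627563798) (Tr.l (nat_lit 29522117923840596490314) (nat_lit 0) (nat_lit 0)))))) (nat_lit 29522117923840596490314) (Tr.b (Tr.b (Tr.b (Tr.l (nat_lit 29770384552576722271354) (nat_lit 0) (nat_lit 0)) (nat_lit 29770384552576722271354) (Tr.b (Tr.l (nat_lit 29815992959532696995614) (nat_lit 0) (nat_lit 0)) (nat_lit 29815992959532696995614) (Tr.l (nat_lit 29829771824024936938798) (nat_lit 0) (nat_lit 0)))) (nat_lit 29829771824024936938798) (Tr.b (Tr.l (nat_lit 30010379121566838841074) (nat_lit 0) (nat_lit 0)) (nat_lit 30010379121566838841074) (Tr.b (Tr.l (nat_lit 31204515754202496287652) (nat_lit 0) (nat_lit 0)) (nat_lit 31204515754202496287652) (Tr.l (nat_lit 31773021918370208064166) (nat_lit 0) (nat_lit 0))))) (nat_lit 31773021918370208064166) (Tr.b (Tr.b (Tr.l (nat_lit 31774527074669199826936) (nat_lit 0) (nat_lit 0)) (nat_lit 31774527074669199826936) (Tr.b (Tr.l (nat_lit 31777838606765102219254) (nat_lit 0) (nat_lit 0)) (nat_lit 31777838606765102219254) (Tr.l (nat_lit 31779343934192495316904) (nat_lit 0) (nat_lit 0)))) (nat_lit 31779343934192495316904) (Tr.b (Tr.b (Tr.l (nat_lit 31787473626471851421334) (nat_lit 0) (nat_lit 0)) (nat_lit 31787473626471851421334) (Tr.l (nat_lit 32069512399052946702998) (nat_lit 0) (nat_lit 0))) (nat_lit 32069512399052946702998) (Tr.b (Tr.l (nat_lit 32213258911170924829686) (nat_lit 0) (nat_lit 0)) (nat_lit 32213258911170924829686) (Tr.l (nat_lit 32237622788264287221406) (nat_lit 0) (nat_lit 0))))))) (nat_lit 32237622788264287221406) (Tr.b (Tr.b (Tr.b (Tr.b (Tr.l (nat_lit 32252232689428940062894) (nat_lit 0) (nat_lit 0)) (nat_lit 32252232689428940062894) (Tr.b (Tr.l (nat_lit 32267001689519813051514) (nat_lit 0) (nat_lit 0)) (nat_lit 32267001689519813051514) (Tr.l (nat_lit 32285385458729608577702) (nat_lit 0) (nat_lit 0)))) (nat_lit 32285385458729608577702) (Tr.b (Tr.l (nat_lit 32388552686937463537376) (nat_lit 0) (nat_lit 0)) (nat_lit 32388552686937463537376) (Tr.b (Tr.l (nat_lit 32433939549771417032768) (nat_lit 0) (nat_lit 0)) (nat_lit 32433939549771417032768) (Tr.l (nat_lit 32517713864609565798234) (nat_lit 0) (nat_lit 0))))) (nat_lit 32517713864609565798234) (Tr.b (Tr.b (Tr.l (nat_lit 32667464803834507337754) (nat_lit 0) (nat_lit 0)) (nat_lit 32667464803834507337754) (Tr.b (Tr.l (nat_lit 32744426246467990492806) (nat_lit 0) (nat_lit 0)) (nat_lit 32744426246467990492806) (Tr.l (nat_lit 33332999884488077339963) (nat_lit 0) (nat_lit 0)))) (nat_lit 33332999884488077339963) (Tr.b (Tr.l (nat_lit 33551502870814451108044) (nat_lit 0) (nat_lit 0)) (nat_lit 33551502870814451108044) (Tr.b (Tr.l (nat_lit 33699335308033241060006) (nat_lit 0) (nat_lit 0)) (nat_lit 33699335308033241060006) (Tr.l (nat_lit 33699339120493759265782) (nat_lit 0) (nat_lit 0)))))) (nat_lit 33699339120493759265782) (Tr.b (Tr.b (Tr.b (Tr.l (nat_lit 33699343120934072639814) (nat_lit 0) (nat_lit 0)) (nat_lit 33699343120934072639814) (Tr.b (Tr.l (nat_lit 33699347309354214654614) (nat_lit 0) (nat_lit 0)) (nat_lit 33699347309354214654614) (Tr.l (nat_lit 34105299253650108271918) (nat_lit 0) (nat_lit 0)))) (nat_lit 34105299253650108271918) (Tr.b (Tr.l (nat_lit 34175663379937702852734) (nat_lit 0) (nat_lit 0)) (nat_lit 34175663379937702852734) (Tr.b (Tr.l (nat_lit 34316882893176058569502) (nat_lit 0) (nat_lit 0)) (nat_lit 34316882893176058569502) (Tr.l (nat_lit 37718667060144415509798) (nat_lit 0) (nat_lit 0))))) (nat_lit 37718667060144415509798) (Tr.b (Tr.b (Tr.l (nat_lit 40486060808763792494768) (nat_lit 0) (nat_lit 0)) (nat_lit 40486060808763792494768) (Tr.b (Tr.l (nat_lit 40591320065920692605934) (nat_lit 0) (nat_lit 0)) (nat_lit 40591320065920692605934) (Tr.l (nat_lit 42087744430274283703194) (nat_lit 0) (nat_lit 0)))) (nat_lit 42087744430274283703194) (Tr.b (Tr.b (Tr.l (nat_lit 43625063675720463452766) (nat_lit 0) (nat_lit 0)) (nat_lit 43625063675720463452766) (Tr.l (nat_lit 43625088532465376049422) (nat_lit 0) (nat_lit 0))) (nat_lit 43625088532465376049422) (Tr.b (Tr.l (nat_lit 43625113603096417715134) (nat_lit 0) (nat_lit 0)) (nat_lit 43625113603096417715134) (Tr.l (nat_lit 43625138887613772819054) (nat_lit 0) (nat_lit 0)))))))) (nat_lit 43625138887613772819054) (Tr.b (Tr.b (Tr.b (Tr.b (Tr.b (Tr.l (nat_lit 46880268333140843734446) (nat_lit 0) (nat_lit 0)) (nat_lit 46880268333140843734446) (Tr.b (Tr.l (nat_lit 46912516463488367746206) (nat_lit 0) (nat_lit 0)) (nat_lit 46912516463488367746206) (Tr.l (nat_lit 46939334994508373219504) (nat_lit 0) (nat_lit 0)))) (nat_lit 46939334994508373219504) (Tr.b (Tr.l (nat_lit 47147015205774955016870) (nat_lit 0) (nat_lit 0)) (nat_lit 47147015205774955016870) (Tr.b (Tr.l (nat_lit 47251113362800012956128) (nat_lit 0) (nat_lit 0)) (nat_lit 47251113362800012956128) (Tr.l (nat_lit 49361593914596260535386) (nat_lit 0) (nat_lit 0))))) (nat_lit 49361593914596260535386) (Tr.b (Tr.b (Tr.l (nat_lit 49362431697146973217054) (nat_lit 0) (nat_lit 0)) (nat_lit 49362431697146973217054) (Tr.b (Tr.l (nat_lit 50127512797394663792954) (nat_lit 0) (nat_lit 0)) (nat_lit 50127512797394663792954) (Tr.l (nat_lit 50133869457897587793854) (nat_lit 0) (nat_lit 0)))) (nat_lit 50133869457897587793854) (Tr.b (Tr.l (nat_lit 50175289878608608746454) (nat_lit 0) (nat_lit 0)) (nat_lit 50175289878608608746454) (Tr.b (Tr.l (nat_lit 50179487734334089467130) (nat_lit 0) (nat_lit 0)) (nat_lit 50179487734334089467130) (Tr.l (nat_lit 50207188271152184646422) (nat_lit 0) (nat_lit 0)))))) (nat_lit 50207188271152184646422) (Tr.b (Tr.b (Tr.b (Tr.l (nat_lit 50535372104780178566970) (nat_lit 0) (nat_lit 0)) (nat_lit 50535372104780178566970) (Tr.b (Tr.l (nat_lit 51100742712270280118734) (nat_lit 0) (nat_lit 0)) (nat_lit 51100742712270280118734) (Tr.l (nat_lit 51107191660496117382094) (nat_lit 0) (nat_lit 0)))) (nat_lit 51107191660496117382094) (Tr.b (Tr.l (nat_lit 51938760788830381690602) (nat_lit 0) (nat_lit 0)) (nat_lit 51938760788830381690602) (Tr.b (Tr.l (nat_lit 51966837295008282900934) (nat_lit 0) (nat_lit 0)) (nat_lit 51966837295008282900934) (Tr.l (nat_lit 52300180927225153107242) (nat_lit 0) (nat_lit 0))))) (nat_lit 52300180927225153107242) (Tr.b (Tr.b (Tr.l (nat_lit 52877067230944814079998) (nat_lit 0) (nat_lit 0)) (nat_lit 52877067230944814079998) (Tr.b (Tr.l (nat_lit 52883683586347921757498) (nat_lit 0) (nat_lit 0)) (nat_lit 52883683586347921757498) (Tr.l (nat_lit 52884565813979773378174) (nat_lit 0) (nat_lit 0)))) (nat_lit 52884565813979773378174) (Tr.b (Tr.b (Tr.l (nat_lit 52891182873070092310654) (nat_lit 0) (nat_lit 0)) (nat_lit 52891182873070092310654) (Tr.l (nat_lit 53704405890925649679770) (nat_lit 0) (nat_lit 0))) (nat_lit 53704405890925649679770) (Tr.b (Tr.l (nat_lit 53711099787292547252510) (nat_lit 0) (nat_lit 0)) (nat_lit 53711099787292547252510) (Tr.l (nat_lit 53739589466414936252726) (nat_lit 0) (nat_lit 0))))))) (nat_lit 53739589466414936252726) (Tr.b (Tr.b (Tr.b (Tr.b (Tr.l (nat_lit 53772354275392673354870) (nat_lit 0) (nat_lit 0)) (nat_lit 53772354275392673354870) (Tr.b (Tr.l (nat_lit 54706996167316789458094) (nat_lit 0) (nat_lit 0)) (nat_lit 54706996167316789458094) (Tr.l (nat_lit 54714688545754465109806) (nat_lit 0) (nat_lit 0)))) (nat_lit 54714688545754465109806) (Tr.b (Tr.l (nat_lit 54721476612150592016686) (nat_lit 0) (nat_lit 0)) (nat_lit 54721476612150592016686) (Tr.b (Tr.l (nat_lit 54732927944819529369254) (nat_lit 0) (nat_lit 0)) (nat_lit 54732927944819529369254) (Tr.l (nat_lit 54735191146416338070104) (nat_lit 0) (nat_lit 0))))) (nat_lit 54735191146416338070104) (Tr.b (Tr.b (Tr.l (nat_lit 54740170436988402558454) (nat_lit 0) (nat_lit 0)) (nat_lit 54740170436988402558454) (Tr.b (Tr.l (nat_lit 54742433863187630186504) (nat_lit 0) (nat_lit 0)) (nat_lit 54742433863187630186504) (Tr.l (nat_lit 54754657577605956638870) (nat_lit 0) (nat_lit 0)))) (nat_lit 54754657577605956638870) (Tr.b (Tr.b (Tr.l (nat_lit 54756921453054600681320) (nat_lit 0) (nat_lit 0)) (nat_lit 54756921453054600681320) (Tr.l (nat_lit 54834841522062051577004) (nat_lit 0) (nat_lit 0))) (nat_lit 54834841522062051577004) (Tr.b (Tr.l (nat_lit 54835748058205217487338) (nat_lit 0) (nat_lit 0)) (nat_lit 54835748058205217487338) (Tr.l (nat_lit 54836201330491860752570) (nat_lit 0) (nat_lit 0)))))) (nat_lit 54836201330491860752570) (Tr.b (Tr.b (Tr.b (Tr.l (nat_lit 54848440744470328113854) (nat_lit 0) (nat_lit 0)) (nat_lit 54848440744470328113854) (Tr.b (Tr.l (nat_lit 54862949369599827811358) (nat_lit 0) (nat_lit 0)) (nat_lit 54862949369599827811358) (Tr.l (nat_lit 54870204761465316325070) (nat_lit 0) (nat_lit 0)))) (nat_lit 54870204761465316325070) (Tr.b (Tr.l (nat_lit 55066827206789397576454) (nat_lit 0) (nat_lit 0)) (nat_lit 55066827206789397576454) (Tr.b (Tr.l (nat_lit 55300004342175035204870) (nat_lit 0) (nat_lit 0)) (nat_lit 55300004342175035204870) (Tr.l (nat_lit 55417327087943652082604) (nat_lit 0) (nat_lit 0))))) (nat_lit 55417327087943652082604) (Tr.b (Tr.b (Tr.l (nat_lit 55418240836814838513898) (nat_lit 0) (nat_lit 0)) (nat_lit 55418240836814838513898) (Tr.b (Tr.l (nat_lit 55418697715487820157370) (nat_lit 0) (nat_lit 0)) (nat_lit 55418697715487820157370) (Tr.l (nat_lit 55431034507524225528254) (nat_lit 0) (nat_lit 0)))) (nat_lit 55431034507524225528254) (Tr.b (Tr.b (Tr.l (nat_lit 55445658557738054226718) (nat_lit 0) (nat_lit 0)) (nat_lit 55445658557738054226718) (Tr.l (nat_lit 55452971667862354193870) (nat_lit 0) (nat_lit 0))) (nat_lit 55452971667862354193870) (Tr.b (Tr.l (nat_lit 55562984955313298219978) (nat_lit 0) (nat_lit 0)) (nat_lit 55562984955313298219978) (Tr.l (nat_lit 55569851852606587706318) (nat_lit 0) (nat_lit 0))))))))) (nat_lit 55569851852606587706318) (Tr.b (Tr.b (Tr.b (Tr.b (Tr.b (Tr.b (Tr.l (nat_lit 55591330836905181150694) (nat_lit 0) (nat_lit 0)) (nat_lit 55591330836905181150694) (Tr.b (Tr.l (nat_lit 55595699832242919039916) (nat_lit 0) (nat_lit 0)) (nat_lit 55595699832242919039916) (Tr.l (nat_lit 55624529694669173484326) (nat_lit 0) (nat_lit 0)))) (nat_lit 55624529694669173484326) (Tr.b (Tr.l (nat_lit 55651165230939949647366) (nat_lit 0) (nat_lit 0)) (nat_lit 55651165230939949647366) (Tr.b (Tr.l (nat_lit 55653456849776874454776) (nat_lit 0) (nat_lit 0)) (nat_lit 55653456849776874454776) (Tr.l (nat_lit 55658032742795843687758) (nat_lit 0) (nat_lit 0))))) (nat_lit 55658032742795843687758) (Tr.b (Tr.b (Tr.l (nat_lit 55694710532963482503358) (nat_lit 0) (nat_lit 0)) (nat_lit 55694710532963482503358) (Tr.b (Tr.l (nat_lit 55709621940252237983510) (nat_lit 0) (nat_lit 0)) (nat_lit 55709621940252237983510) (Tr.l (nat_lit 55968285143033656957356) (nat_lit 0) (nat_lit 0)))) (nat_lit 55968285143033656957356) (Tr.b (Tr.l (nat_lit 56882244278862180096790) (nat_lit 0) (nat_lit 0)) (nat_lit 56882244278862180096790) (Tr.b (Tr.l (nat_lit 57118152902090087658614) (nat_lit 0) (nat_lit 0)) (nat_lit 57118152902090087658614) (Tr.l (nat_lit 57236490555602480323366) (nat_lit 0) (nat_lit 0)))))) (nat_lit 57236490555602480323366) (Tr.b (Tr.b (Tr.b (Tr.l (nat_lit 57425081812215677455666) (nat_lit 0) (nat_lit 0)) (nat_lit 57425081812215677455666) (Tr.b (Tr.l (nat_lit 57463568372286342031238) (nat_lit 0) (nat_lit 0)) (nat_lit 57463568372286342031238) (Tr.l (nat_lit 57591533943428741344454) (nat_lit 0) (nat_lit 0)))) (nat_lit 57591533943428741344454) (Tr.b (Tr.l (nat_lit 57761004132025277752390) (nat_lit 0) (nat_lit 0)) (nat_lit 57761004132025277752390) (Tr.b (Tr.l (nat_lit 58623214509610838579966) (nat_lit 0) (nat_lit 0)) (nat_lit 58623214509610838579966) (Tr.l (nat_lit 58640848865627646538878) (nat_lit 0) (nat_lit 0))))) (nat_lit 58640848865627646538878) (Tr.b (Tr.b (Tr.l (nat_lit 58835440583018484240454) (nat_lit 0) (nat_lit 0)) (nat_lit 58835440583018484240454) (Tr.b (Tr.l (nat_lit 58841355990515786081230) (nat_lit 0) (nat_lit 0)) (nat_lit 58841355990515786081230) (Tr.l (nat_lit 58961062735061150391582) (nat_lit 0) (nat_lit 0)))) (nat_lit 58961062735061150391582) (Tr.b (Tr.b (Tr.l (nat_lit 59075706972423617629766) (nat_lit 0) (nat_lit 0)) (nat_lit 59075706972423617629766) (Tr.l (nat_lit 59132573488965276051611) (nat_lit 0) (nat_lit 0))) (nat_lit 59132573488965276051611) (Tr.b (Tr.l (nat_lit 59164716964490113819526) (nat_lit 0) (nat_lit 0)) (nat_lit 59164716964490113819526) (Tr.l (nat_lit 59196215103884157283654) (nat_lit 0) (nat_lit 0))))))) (nat_lit 59196215103884157283654) (Tr.b (Tr.b (Tr.b (Tr.b (Tr.l (nat_lit 59201248513578191659966) (nat_lit 0) (nat_lit 0)) (nat_lit 59201248513578191659966) (Tr.b (Tr.l (nat_lit 59248330804194744303154) (nat_lit 0) (nat_lit 0)) (nat_lit 59248330804194744303154) (Tr.l (nat_lit 59252197298561382653070) (nat_lit 0) (nat_lit 0)))) (nat_lit 59252197298561382653070) (Tr.b (Tr.l (nat_lit 59366532467193253318622) (nat_lit 0) (nat_lit 0)) (nat_lit 59366532467193253318622) (Tr.b (Tr.l (nat_lit 59486329784009602955698) (nat_lit 0) (nat_lit 0)) (nat_lit 59486329784009602955698) (Tr.l (nat_lit 59488738854290474573548) (nat_lit 0) (nat_lit 0))))) (nat_lit 59488738854290474573548) (Tr.b (Tr.b (Tr.l (nat_lit 59547789105123300278390) (nat_lit 0) (nat_lit 0)) (nat_lit 59547789105123300278390) (Tr.b (Tr.l (nat_lit 59595942142878506273406) (nat_lit 0) (nat_lit 0)) (nat_lit 59595942142878506273406) (Tr.l (nat_lit 61539590801551839118118) (nat_lit 0) (nat_lit 0)))) (nat_lit 61539590801551839118118) (Tr.b (Tr.b (Tr.l (nat_lit 65672673482617166267270) (nat_lit 0) (nat_lit 0)) (nat_lit 65672673482617166267270) (Tr.l (nat_lit 76915868309109957146374) (nat_lit 0) (nat_lit 0))) (nat_lit 76915868309109957146374) (Tr.b (Tr.l (nat_lit 81182027811666710619054) (nat_lit 0) (nat_lit 0)) (nat_lit 81182027811666710619054) (Tr.l (nat_lit 81333873194080449011750) (nat_lit 0) (nat_lit 0)))))) (nat_lit 81333873194080449011750) (Tr.b (Tr.b (Tr.b (Tr.l (nat_lit 81338146809669662381406) (nat_lit 0) (nat_lit 0)) (nat_lit 81338146809669662381406) (Tr.b (Tr.l (nat_lit 81369831311022368517886) (nat_lit 0) (nat_lit 0)) (nat_lit 81369831311022368517886) (Tr.l (nat_lit 81486009530418656487142) (nat_lit 0) (nat_lit 0)))) (nat_lit 81486009530418656487142) (Tr.b (Tr.l (nat_lit 83391132711892605663022) (nat_lit 0) (nat_lit 0)) (nat_lit 83391132711892605663022) (Tr.b (Tr.l (nat_lit 84126849914655854006254) (nat_lit 0) (nat_lit 0)) (nat_lit 84126849914655854006254) (Tr.l (nat_lit 84479523711726577153822) (nat_lit 0) (nat_lit 0))))) (nat_lit 84479523711726577153822) (Tr.b (Tr.b (Tr.l (nat_lit 85961678514724254699134) (nat_lit 0) (nat_lit 0)) (nat_lit 85961678514724254699134) (Tr.b (Tr.l (nat_lit 86714980624483301663038) (nat_lit 0) (nat_lit 0)) (nat_lit 86714980624483301663038) (Tr.l (nat_lit 88591217608199373406670) (nat_lit 0) (nat_lit 0)))) (nat_lit 88591217608199373406670) (Tr.b (Tr.b (Tr.l (nat_lit 91280646019519345398046) (nat_lit 0) (nat_lit 0)) (nat_lit 91280646019519345398046) (Tr.l (nat_lit 92069953132289924569054) (nat_lit 0) (nat_lit 0))) (nat_lit 92069953132289924569054) (Tr.b (Tr.l (nat_lit 92416711798218581806190) (nat_lit 0) (nat_lit 0)) (nat_lit 92416711798218581806190) (Tr.l (nat_lit 92416712576461580483950) (nat_lit 0) (nat_lit 0)))))))) (nat_lit 92416712576461580483950) (Tr.b (Tr.b (Tr.b (Tr.b (Tr.b (Tr.l (nat_lit 94726161678916871822254) (nat_lit 0) (nat_lit 0)) (nat_lit 94726161678916871822254) (Tr.b (Tr.l (nat_lit 94751434714314464828590) (nat_lit 0) (nat_lit 0)) (nat_lit 94751434714314464828590) (Tr.l (nat_lit 95182701762538403768254) (nat_lit 0) (nat_lit 0)))) (nat_lit 95182701762538403768254) (Tr.b (Tr.l (nat_lit 95182702552341769713854) (nat_lit 0) (nat_lit 0)) (nat_lit 95182702552341769713854) (Tr.b (Tr.l (nat_lit 98010315957109683357102) (nat_lit 0) (nat_lit 0)) (nat_lit 98010315957109683357102) (Tr.l (nat_lit 100900477123228285694558) (nat_lit 0) (nat_lit 0))))) (nat_lit 100900477123228285694558) (Tr.b (Tr.b (Tr.l (nat_lit 100900477936408074879838) (nat_lit 0) (nat_lit 0)) (nat_lit 100900477936408074879838) (Tr.b (Tr.l (nat_lit 103854089894777698435054) (nat_lit 0) (nat_lit 0)) (nat_lit 103854089894777698435054) (Tr.l (nat_lit 171627603634740212532210586) (nat_lit 0) (nat_lit 0)))) (nat_lit 171627603634740212532210586) (Tr.b (Tr.l (nat_lit 173660638450603340856146330) (nat_lit 0) (nat_lit 0)) (nat_lit 173660638450603340856146330) (Tr.b (Tr.l (nat_lit 175837142892630554879875546) (nat_lit 0) (nat_lit 0)) (nat_lit 175837142892630554879875546) (Tr.l (nat_lit 177762254130466909252006298) (nat_lit 0) (nat_lit 0)))))) (nat_lit 177762254130466909252006298) (Tr.b (Tr.b (Tr.b (Tr.l (nat_lit 364165632739416957250473258) (nat_lit 0) (nat_lit 0)) (nat_lit 364165632739416957250473258) (Tr.b (Tr.l (nat_lit 365495744029807104860981354) (nat_lit 0) (nat_lit 0)) (nat_lit 365495744029807104860981354) (Tr.l (nat_lit 476433213897942442090013458) (nat_lit 0) (nat_lit 0)))) (nat_lit 476433213897942442090013458) (Tr.b (Tr.l (nat_lit 479194826068072289103719954) (nat_lit 0) (nat_lit 0)) (nat_lit 479194826068072289103719954) (Tr.b (Tr.l (nat_lit 479540689017335808412588454) (nat_lit 0) (nat_lit 0)) (nat_lit 479540689017335808412588454) (Tr.l (nat_lit 483592322036088710383205810) (nat_lit 0) (nat_lit 0))))) (nat_lit 483592322036088710383205810) (Tr.b (Tr.b (Tr.l (nat_lit 486113111071688046162619654) (nat_lit 0) (nat_lit 0)) (nat_lit 486113111071688046162619654) (Tr.b (Tr.l (nat_lit 487958964198291964774068754) (nat_lit 0) (nat_lit 0)) (nat_lit 487958964198291964774068754) (Tr.l (nat_lit 1751889731301596260310265004) (nat_lit 0) (nat_lit 0)))) (nat_lit 1751889731301596260310265004) (Tr.b (Tr.b (Tr.l (nat_lit 1751942123401910471164138924) (nat_lit 0) (nat_lit 0)) (nat_lit 1751942123401910471164138924) (Tr.l (nat_lit 1856730389777360450858966314) (nat_lit 0) (nat_lit 0))) (nat_lit 1856730389777360450858966314) (Tr.b (Tr.l (nat_lit 1877545752195172694583166194) (nat_lit 0) (nat_lit 0)) (nat_lit 1877545752195172694583166194) (Tr.l (nat_lit 1878508868771352074808572166) (nat_lit 0) (nat_lit 0))))))) (nat_lit 1878508868771352074808572166) (Tr.b (Tr.b (Tr.b (Tr.b (Tr.l (nat_lit 1879884744367184461663941874) (nat_lit 0) (nat_lit 0)) (nat_lit 1879884744367184461663941874) (Tr.b (Tr.l (nat_lit 2009564113742220825093653932) (nat_lit 0) (nat_lit 0)) (nat_lit 2009564113742220825093653932) (Tr.l (nat_lit 2031608854849257797203223104) (nat_lit 0) (nat_lit 0)))) (nat_lit 2031608854849257797203223104) (Tr.b (Tr.l (nat_lit 2033253119044578615729109018) (nat_lit 0) (nat_lit 0)) (nat_lit 2033253119044578615729109018) (Tr.b (Tr.l (nat_lit 2034090279156830897424601664) (nat_lit 0) (nat_lit 0)) (nat_lit 2034090279156830897424601664) (Tr.l (nat_lit 2091937643691448442583973036) (nat_lit 0) (nat_lit 0))))) (nat_lit 2091937643691448442583973036) (Tr.b (Tr.b (Tr.l (nat_lit 2107126801818066131775203098) (nat_lit 0) (nat_lit 0)) (nat_lit 2107126801818066131775203098) (Tr.b (Tr.l (nat_lit 2107960360130873055093258080) (nat_lit 0) (nat_lit 0)) (nat_lit 2107960360130873055093258080) (Tr.l (nat_lit 2109511353878396080331289184) (nat_lit 0) (nat_lit 0)))) (nat_lit 2109511353878396080331289184) (Tr.b (Tr.b (Tr.l (nat_lit 2109650751041465229027120890) (nat_lit 0) (nat_lit 0)) (nat_lit 2109650751041465229027120890) (Tr.l (nat_lit 2120774767433723552374881472) (nat_lit 0) (nat_lit 0))) (nat_lit 2120774767433723552374881472) (Tr.b (Tr.l (nat_lit 2134078970733620819909582874) (nat_lit 0) (nat_lit 0)) (nat_lit 2134078970733620819909582874) (Tr.l (nat_lit 2134525181869541920084337504) (nat_lit 0) (nat_lit 0)))))) (nat_lit 2134525181869541920084337504) (Tr.b (Tr.b (Tr.b (Tr.l (nat_lit 2171542571119621667864666662) (nat_lit 0) (nat_lit 0)) (nat_lit 2171542571119621667864666662) (Tr.b (Tr.l (nat_lit 2171553630253793234114664326) (nat_lit 0) (nat_lit 0)) (nat_lit 2171553630253793234114664326) (Tr.l (nat_lit 2171585130470517238501498714) (nat_lit 0) (nat_lit 0)))) (nat_lit 2171585130470517238501498714) (Tr.b (Tr.l (nat_lit 3304707540433970132348377966) (nat_lit 0) (nat_lit 0)) (nat_lit 3304707540433970132348377966) (Tr.b (Tr.l (nat_lit 3503441066672210664480884330) (nat_lit 0) (nat_lit 0)) (nat_lit 3503441066672210664480884330) (Tr.l (nat_lit 3504687144367263672530421230) (nat_lit 0) (nat_lit 0))))) (nat_lit 3504687144367263672530421230) (Tr.b (Tr.b (Tr.l (nat_lit 3528380304079948537172034606) (nat_lit 0) (nat_lit 0)) (nat_lit 3528380304079948537172034606) (Tr.b (Tr.l (nat_lit 3624321385861168973543854490) (nat_lit 0) (nat_lit 0)) (nat_lit 3624321385861168973543854490) (Tr.l (nat_lit 5356882726422060195917288870) (nat_lit 0) (nat_lit 0)))) (nat_lit 5356882726422060195917288870) (Tr.b (Tr.b (Tr.l (nat_lit 5366509502432037697458324454) (nat_lit 0) (nat_lit 0)) (nat_lit 5366509502432037697458324454) (Tr.l (nat_lit 6191891419286640911570652526) (nat_lit 0) (nat_lit 0))) (nat_lit 6191891419286640911570652526) (Tr.b (Tr.l (nat_lit 6200871766562763670916822574) (nat_lit 0) (nat_lit 0)) (nat_lit 6200871766562763670916822574) (Tr.l (nat_lit 6225826208589203696212287470) (nat_lit 0) (nat_lit 0)))))))))))))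

end

end Pool.Agent.P.MP_2d26dd_al.T4c
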