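import Pool.Agent.P.MP_2d26dd_al.Basic
import Pool.Agent.P.MP_2d26dd_al.T4h1

/-! Meaning of the word arithmetic of the checker. -/

namespace Pool.Agent.P.MP_2d26dd_al.T4c

open FreeGroup (of)

noncomputable section

def bs (x : ℕ) : Fin 4 := Fin.ofNat 4 (if x ≤ 4 then x - 1 else 8 - x)

def Lt (z : ℕ) : FreeGroup (Fin 4) := if 1 ≤ z ∧ z ≤ 8 then lt (bs z) (decide (z ≤ 4)) else 1

theorem bs_iv {z : ℕ} (h1 : 1 ≤ z) (h2 : z ≤ 8) : bs (9 - z) = bs z := by
  interval_cases z <;> decide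

theorem bs_eq {x z : ℕ} (h1 : 1 ≤ x) (h2 : x ≤ 8) (h3 : 1 ≤ z) (h4 : z ≤ 8) (h : bs z = bs x) :
    z = x ∨ z = 9 - x := by
  revert h
  interval_cases x <;> interval_cases z <;> decide

theorem Lt_in {z : ℕ} (h1 : 1 ≤ z) (h2 : z ≤ 8) : Lt z = lt (bs z) (decide (z ≤ 4)) := by
  simp [Lt, h1, h2]

theorem Lt_out {z : ℕ} (h : z = 0 ∨ 9 ≤ z) : Lt z = 1 := by
  rw [Lt, if_neg (by omega)]

theorem Lt_iv (z : ℕ) : Lt (9 - z) = (Lt z)⁻¹ := by
  by_cases h : 1 ≤ z ∧ z ≤ 8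
  · rw [Lt_in h.1 h.2, Lt_in (by omega) (by omega), bs_iv h.1 h.2, ← lt_not]
    congr 1
    by_cases h4 : z ≤ 4
    · simp [h4]; omega
    · simp [h4]; omega
  · rw [Lt_out (z := z) (by omega), Lt_out (by omega), inv_one]

theorem Lt_of (i : Fin 4) : Lt (i.1 + 1) = of i := by
  fin_cases i <;> rfl

def evN (n : ℕ) : FreeGroup (Fin 4) := if n = 0 then 1 else Lt (n % 16) * evN (n / 16)
decreasing_by omega

theorem evN_zero : evN 0 = 1 := by rw [evN]; simp

theorem evN_eq (n : ℕ) : evN n = Lt (n % 16) * evN (n / 16) := by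
  by_cases h : n = 0
  · subst h; simp [evN_zero, Lt_out]
  · rw [evN, if_neg h]

theorem evN_small {n : ℕ} (h : n < 16) : evN n = Lt n := by
  rw [evN_eq, Nat.mod_eq_of_lt h, Nat.div_eq_of_lt h, evN_zero, mul_one]

theorem evN_cat (j : ℕ) : ∀ u v : ℕ, u < 16 ^ j → evN (u + v * 16 ^ j) = evN u * evN v := by
  induction j with
  | zero =>
    intro u v h
    have : u = 0 := by simpa using h
    subst this; simp [evN_zero]
  | succ j ih =>
    intro u v h
    have e : u + v * 16 ^ (j + 1) = u + 16 * (v * 16 ^ j) := by ring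
    rw [pow_succ] at h
    rw [evN_eq, e, Nat.add_mul_mod_self_left, Nat.add_mul_div_left _ _ (by norm_num),
      ih _ _ (by omega), evN_eq u, mul_assoc]

theorem pow_top4 (u : ℕ) : 2 ^ top4 u = 16 ^ (u.log2 / 4) := by
  show 2 ^ (4 * (u.log2 / 4)) = _
  rw [pow_mul]; norm_num

theorem cat_ok (u v : ℕ) : evN (cat u v) = evN u * evN v := by
  have e : cat u v = u + v * 16 ^ (u.log2 / 4 + 1) := by
    show u + v <<< (top4 u + 4) = _
    rw [Nat.shiftLeft_eq, pow_add, pow_top4, pow_succ 16]; rfl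
  rw [e]
  refine evN_cat _ _ _ (lt_of_lt_of_le Nat.lt_log2_self ?_)
  rw [show (16 : ℕ) = 2 ^ 4 by norm_num, ← pow_mul]
  exact Nat.pow_le_pow_right (by norm_num) (by omega)

theorem ms_ok {nx : ℕ → ℕ → ℕ} (h : ∀ u v, evN (nx u v) = evN u * evN v) (u v : ℕ) :
    evN (ms nx u v) = evN u * evN v := by
  unfold ms
  cases hc : Nat.beq (Nat.add (Nat.shiftRight u (top4 u)) (Nat.mod v (nat_lit 16))) (nat_lit 9)
  · exact cat_ok u v
  · have h9 : u >>> top4 u + v % 16 = 9 := Nat.eq_of_beq_eq_true hc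
    rw [Nat.shiftRight_eq_div_pow, pow_top4] at h9
    have hp : 0 < 16 ^ (u.log2 / 4) := by positivity
    have hu : evN u = evN (u % 16 ^ (u.log2 / 4)) * Lt (u / 16 ^ (u.log2 / 4)) := by
      rw [← evN_small (n := u / 16 ^ (u.log2 / 4)) (by omega), ← evN_cat _ _ _ (Nat.mod_lt _ hp),
        Nat.mod_add_div']
    have key : evN u * evN v = evN (u % 16 ^ (u.log2 / 4)) * evN (v / 16) := by
      rw [hu, evN_eq v, show v % 16 = 9 - u / 16 ^ (u.log2 / 4) by omega, Lt_iv]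
      group
    rw [key]
    cases h0 : Nat.beq (top4 u) (nat_lit 0)
    · show evN (nx (u % 2 ^ top4 u) (v / 16)) = _
      rw [h, pow_top4]
    · have h1 : top4 u = 0 := Nat.eq_of_beq_eq_true h0
      have h2 : 16 ^ (u.log2 / 4) = 1 := by rw [← pow_top4, h1, pow_zero]
      rw [h2, Nat.mod_one, evN_zero, one_mul]
      rfl

theorem mul_ok (u v : ℕ) : evN (mul u v) = evN u * evN v := ms_ok (ms_ok (ms_ok cat_ok)) u v

def toTI (x y : ℕ) : TI (Fin 4) :=
  (bs x, bs y, decide (x ≤ 4), decide (x ≤ 4) == decide (y ≤ 4))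

def gn (x y : ℕ) : AutF (Fin 4) := tvi (toTI x y)

def Val (x y : ℕ) : Prop :=
  (1 ≤ x ∧ x ≤ 8 ∧ 1 ≤ y ∧ y ≤ 8 ∧ x ≠ y ∧ x + y ≠ 9) ∨ (x = 0 ∧ (y = 0 ∨ y = 9))

instance (x y : ℕ) : Decidable (Val x y) := by unfold Val; infer_instance

theorem gn_zero {y : ℕ} (h : y = 0 ∨ y = 9) : gn 0 y = 1 := by
  have e : bs y = bs 0 := by rcases h with rfl | rfl <;> decide
  simp only [gn, tvi, toTI, e, tv_same]

theorem gn_self {x y : ℕ} (h : Val x y) : gn x y (Lt x) = Lt x * Lt y := by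
  rcases h with ⟨h1, h2, h3, h4, h5, h6⟩ | ⟨rfl, h⟩
  · have hne : bs x ≠ bs y := fun e => by have := bs_eq h3 h4 h1 h2 e; omega
    rw [Lt_in h1 h2, Lt_in h3 h4]
    show tv (bs x) (bs y) (decide (x ≤ 4)) (decide (x ≤ 4) == decide (y ≤ 4)) _ = _
    cases decide (x ≤ 4)
    · rw [lt_false, map_inv, tv_left hne, mul_inv_rev, ← lt_not]
      cases decide (y ≤ 4) <;> rfl
    · rw [lt_true, tv_right hne]
      cases decide (y ≤ 4) <;> rfl
  · rw [gn_zero h, Lt_out (Or.inl rfl), Lt_out (by omega)]; simp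

theorem gn_Lt {x y : ℕ} (h : Val x y) (z : ℕ) :
    gn x y (Lt z) =
      if z = x then Lt z * Lt y else if z = 9 - x then Lt (9 - y) * Lt z else Lt z := by
  split_ifs with e1 e2
  · rw [e1, gn_self h]
  · rw [e2, Lt_iv, map_inv, gn_self h, mul_inv_rev, Lt_iv]
  · by_cases hz : 1 ≤ z ∧ z ≤ 8
    · rcases h with ⟨h1, h2, -⟩ | ⟨rfl, h⟩
      · rw [Lt_in hz.1 hz.2]
        exact tv_lt_ne (fun e => by have := bs_eq h1 h2 hz.1 hz.2 e; omega) _ _ _ _
      · rw [gn_zero h]; rfl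
    · rw [Lt_out (by omega), map_one]

theorem Val.iv {x y : ℕ} (h : Val x y) : Val x (9 - y) := by
  unfold Val at *; omega

theorem Val.le {x y : ℕ} (h : Val x y) : x < 10 ∧ y < 10 := by
  unfold Val at *; omega

theorem gn_inv {x y : ℕ} (h : Val x y) : (gn x y)⁻¹ = gn x (9 - y) := by
  rcases h with ⟨h1, h2, h3, h4, h5, h6⟩ | ⟨rfl, h⟩
  · show (tv _ _ _ _)⁻¹ = tv _ _ _ _
    rw [tv_inv]
    simp only [toTI, bs_iv h3 h4]
    congr 1
    have : decide (9 - y ≤ 4) = !decide (y ≤ 4) := by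
      by_cases h4 : y ≤ 4
      · simp [h4]; omega
      · simp [h4]; omega
    rw [this]
    cases decide (x ≤ 4) <;> cases decide (y ≤ 4) <;> rfl
  · rw [gn_zero h, gn_zero (by omega), inv_one]

/-- The table `W` lists the images of the letters. -/
def Tb (W : ℕ → ℕ) (φ : AutF (Fin 4)) : Prop := ∀ z, z < 10 → evN (W z) = φ (Lt z)

theorem tb_id : Tb (fun z => z) 1 := fun z hz => evN_small (n := z) (by omega)

theorem Tb.mov {W : ℕ → ℕ} {φ : AutF (Fin 4)} (h : Tb W φ) {x y : ℕ} (hv : Val x y) :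
    Tb (mov W x y) (φ * gn x y) := by
  intro z hz
  rw [MulAut.mul_apply, gn_Lt hv]
  unfold T4c.mov
  cases e1 : Nat.beq z x
  · rw [if_neg (Nat.ne_of_beq_eq_false e1)]
    cases e2 : Nat.beq z (iv x)
    · rw [if_neg (show ¬ z = 9 - x from Nat.ne_of_beq_eq_false e2)]
      exact h z hz
    · rw [if_pos (show z = 9 - x from Nat.eq_of_beq_eq_true e2), map_mul, ← h z hz, ← h (9 - y) (by omega)]
      exact mul_ok _ _
  · rw [if_pos (Nat.eq_of_beq_eq_true e1), map_mul, ← h z hz, ← h y hv.le.2]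
    exact mul_ok _ _

theorem pr_inj {a b c d : ℕ} (h : pr a b = pr c d) : a = c ∧ b = d := by
  have h' : (a + b) * (a + b) + a = (c + d) * (c + d) + c := h
  have e : a + b = c + d := by
    rcases lt_trichotomy (a + b) (c + d) with l | l | l
    · exfalso; nlinarith
    · exact l
    · exfalso; nlinarith
  rw [e] at h'
  omega

def Rep (k : ℕ) (φ : AutF (Fin 4)) : Prop := ∃ W, k = key4 W ∧ Tb W φ

theorem Rep.unique {k : ℕ} {φ φ' : AutF (Fin 4)} (h : Rep k φ) (h' : Rep k φ') : φ = φ' := by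
  obtain ⟨W, e, t⟩ := h
  obtain ⟨W', e', t'⟩ := h'
  have := pr_inj (e.symm.trans e')
  obtain ⟨e1, e2⟩ := pr_inj this.1
  obtain ⟨e3, e4⟩ := pr_inj this.2
  refine autF_ext fun i => ?_
  rw [← Lt_of, ← t _ (by omega), ← t' _ (by omega)]
  fin_cases i
  · exact congrArg evN e1
  · exact congrArg evN e2
  · exact congrArg evN e3
  · exact congrArg evN e4

open Classical in
def dec (k : ℕ) : AutF (Fin 4) := if h : ∃ φ, Rep k φ then h.choose else 1

theorem dec_key4 {W : ℕ → ℕ} {φ : AutF (Fin 4)} (h : Tb W φ) : dec (key4 W) = φ := by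
  have h' : ∃ φ, Rep (key4 W) φ := ⟨φ, W, rfl, h⟩
  rw [dec, dif_pos h']
  exact h'.choose_spec.unique ⟨W, rfl, h⟩

/-- Signed permutations of the letters. -/
def Ok (f : ℕ → ℕ) : Prop :=
  f 0 = 0 ∧ (∀ z, z < 10 → f z < 10 ∧ f (9 - z) = 9 - f z) ∧
    ∀ z, z < 10 → ∀ z', z' < 10 → f z = f z' → z = z'

instance (f : ℕ → ℕ) : Decidable (Ok f) := by unfold Ok; infer_instance

def Lm (s : AutF (Fin 4)) (f : ℕ → ℕ) : Prop := ∀ z, z < 10 → s (Lt z) = Lt (f z)

theorem Ok.val {f : ℕ → ℕ} (h : Ok f) {x y : ℕ} (hv : Val x y) : Val (f x) (f y) := by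
  obtain ⟨h0, h1, h2⟩ := h
  have h9 : f 9 = 9 := by have := (h1 0 (by omega)).2; rw [h0] at this; exact this
  rcases hv with ⟨a1, a2, a3, a4, a5, a6⟩ | ⟨rfl, hy⟩
  · have b1 := h1 x (by omega)
    have b2 := h1 y (by omega)
    have c1 := h2 x (by omega) 0 (by omega)
    have c2 := h2 x (by omega) 9 (by omega)
    have c3 := h2 y (by omega) 0 (by omega)
    have c4 := h2 y (by omega) 9 (by omega)
    have c5 := h2 x (by omega) y (by omega)
    have c6 := h2 x (by omega) (9 - y) (by omega)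
    left; omega
  · right; rcases hy with rfl | rfl <;> omega

theorem conj_gn {s : AutF (Fin 4)} {f : ℕ → ℕ} (h : Ok f) (hs : Lm s f) {x y : ℕ}
    (hv : Val x y) : gn (f x) (f y) = s * gn x y * s⁻¹ := by
  rw [eq_mul_inv_iff_mul_eq]
  refine autF_ext fun i => ?_
  have hx := hv.le.1
  have hy := hv.le.2
  have hz : i.1 + 1 < 10 := by omega
  rw [← Lt_of, MulAut.mul_apply, MulAut.mul_apply, hs _ hz, gn_Lt hv, gn_Lt (h.val hv)]
  generalize i.1 + 1 = z at hz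
  obtain ⟨h0, h1, h2⟩ := h
  have e1 : f z = f x ↔ z = x := ⟨h2 z hz x hx, fun e => by rw [e]⟩
  have e2 : f z = 9 - f x ↔ z = 9 - x := by
    rw [← (h1 x hx).2]; exact ⟨h2 z hz _ (by omega), fun e => by rw [e]⟩
  simp only [e1, e2]
  split_ifs
  · rw [map_mul, hs z hz, hs y hy]
  · rw [map_mul, hs z hz, hs (9 - y) (by omega), (h1 y hy).2]
  · rw [hs z hz]

def VW (u : W2) : Prop := Val u.a u.b ∧ Val u.c u.d

instance (u : W2) : Decidable (VW u) := by unfold VW; infer_instance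

def ev (u : W2) : AutF (Fin 4) := gn u.a u.b * gn u.c u.d

theorem dec_key2 {s : AutF (Fin 4)} {n : ℕ} (h : Ok (ap n)) (hs : Lm s (ap n)) {u v : W2}
    (hu : VW u) (hv : VW v) : dec (key2 n u v) = s * ((ev u)⁻¹ * ev v) * s⁻¹ := by
  have t := (((tb_id.mov (h.val hu.2).iv).mov (h.val hu.1).iv).mov (h.val hv.1)).mov (h.val hv.2)
  rw [← gn_inv (h.val hu.2), ← gn_inv (h.val hu.1), conj_gn h hs hu.1, conj_gn h hs hu.2,
    conj_gn h hs hv.1, conj_gn h hs hv.2] at t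
  refine (dec_key4 t).trans ?_
  simp only [ev]; group

theorem Lm.mul {s s' : AutF (Fin 4)} {f f' : ℕ → ℕ} (h : Lm s f) (h' : Lm s' f') (o : Ok f') :
    Lm (s * s') fun z => f (f' z) := fun z hz => by
  rw [MulAut.mul_apply, h' z hz, h _ (o.2.1 z hz).1]

theorem Lm.ext {s s' : AutF (Fin 4)} {f f' : ℕ → ℕ} (h : Lm s f) (h' : Lm s' f')
    (e : ∀ z, z < 10 → f z = f' z) : s = s' := autF_ext fun i => by
  rw [← Lt_of, h _ (by omega), h' _ (by omega), e _ (by omega)]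

theorem lm_one : Lm 1 fun z => z := fun _ _ => rfl

theorem ev_map {s : AutF (Fin 4)} {f : ℕ → ℕ} (h : Ok f) (hs : Lm s f) {u : W2} (hu : VW u) :
    VW ⟨f u.a, f u.b, f u.c, f u.d⟩ ∧ ev ⟨f u.a, f u.b, f u.c, f u.d⟩ = s * ev u * s⁻¹ := by
  refine ⟨⟨h.val hu.1, h.val hu.2⟩, ?_⟩
  simp only [ev]
  rw [conj_gn h hs hu.1, conj_gn h hs hu.2]; group

end

end Pool.Agent.P.MP_2d26dd_al.T4c
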