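import Pool.Agent.P.MP_2d26dd_al.T4h1

/-! Meaning of the trees and programs of the checker. -/

namespace Pool.Agent.P.MP_2d26dd_al.T4c

noncomputable section

variable (Ψ : ℕ → ℝ)

def val : Tr → ℝ
  | .l k P N => ((P : ℝ) - N) * Ψ k
  | .b l _ r => val l + val r

def Adds (F : Pg) (r : ℝ) : Prop :=
  ∀ t w k, F t w k = true → ∃ t' w', k t' w' = true ∧ val Ψ t' = val Ψ t + r

variable {Ψ}

theorem frc_eq (n : ℕ) (k : ℕ → Bool) : frc n k = k n := by cases n <;> rfl

theorem upd_ok {k P N : ℕ} {x : ℤ} {c : Tr → Bool} (h : upd k P N x c = true) :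
    ∃ t', c t' = true ∧ val Ψ t' = val Ψ (Tr.l k P N) + x * Ψ k := by
  cases x with
  | ofNat n =>
    have h' : frc (P + n) (fun P' => c (Tr.l k P' N)) = true := h
    rw [frc_eq] at h'
    refine ⟨_, h', ?_⟩
    simp only [val, Int.ofNat_eq_natCast]; push_cast; ring
  | negSucc n =>
    have h' : frc (N + (n + 1)) (fun N' => c (Tr.l k P N')) = true := h
    rw [frc_eq] at h'
    refine ⟨_, h', ?_⟩
    simp only [val, Int.cast_negSucc]; push_cast; ring

theorem ins_ok {k : ℕ} {x : ℤ} (t : Tr) : ∀ {c : Tr → Bool}, ins t k x c = true →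
    ∃ t', c t' = true ∧ val Ψ t' = val Ψ t + x * Ψ k := by
  induction t with
  | l k' P N =>
    intro c h
    have h' : Bool.rec (motive := fun _ => Bool) false (upd k' P N x c) (Nat.beq k k') = true := h
    cases e : Nat.beq k k'
    · rw [e] at h'; exact absurd h' (by simp)
    · rw [e] at h'
      rw [Nat.eq_of_beq_eq_true e]
      exact upd_ok h'
  | b l s r il ir =>
    intro c h
    have h' : Bool.rec (motive := fun _ => Bool) (ins r k x fun r' => c (Tr.b l s r'))
      (ins l k x fun l' => c (Tr.b l' s r)) (Nat.ble k s) = true := h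
    cases e : Nat.ble k s
    · rw [e] at h'
      obtain ⟨t', h1, h2⟩ := ir h'
      exact ⟨_, h1, by simp only [val, h2]; ring⟩
    · rw [e] at h'
      obtain ⟨t', h1, h2⟩ := il h'
      exact ⟨_, h1, by simp only [val, h2]; ring⟩

theorem Adds.of_eq {F : Pg} {r r' : ℝ} (h : Adds Ψ F r) (e : r = r') : Adds Ψ F r' := e ▸ h

theorem adds_trip {T : ℕ} {x : ℤ} {u v : W2} {c : ℝ} (h : ∀ j, j < 1024 → Ψ (keyw T j u v) = c) :
    Adds Ψ (trip T x u v) (x * c) := by
  intro t w k hk
  unfold trip at hk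
  rw [frc_eq] at hk
  obtain ⟨t', h1, h2⟩ := ins_ok (Ψ := Ψ) t hk
  rw [h (Nat.mod w (nat_lit 1024)) (Nat.mod_lt w (by norm_num))] at h2
  exact ⟨t', _, h1, h2⟩

theorem adds_put (key : ℕ) (x : ℤ) : Adds Ψ (put key x) (x * Ψ key) := by
  intro t w k hk
  obtain ⟨t', h1, h2⟩ := ins_ok (Ψ := Ψ) t hk
  exact ⟨t', _, h1, h2⟩

theorem Adds.sq {F G : Pg} {r s : ℝ} (h : Adds Ψ F r) (h' : Adds Ψ G s) :
    Adds Ψ (sq F G) (r + s) := by
  intro t w k hk
  obtain ⟨t1, w1, a1, a2⟩ := h t w _ hk
  obtain ⟨t2, w2, b1, b2⟩ := h' t1 w1 k a1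
  exact ⟨t2, w2, b1, by rw [b2, a2, add_assoc]⟩

theorem adds_ch {c : Bool} {F G : Pg} {r : ℝ} (h : c = true → Adds Ψ F r) (h' : Adds Ψ G r) :
    Adds Ψ (ch c F G) r := by
  cases c
  · exact h'
  · exact h rfl

theorem adds_skip : Adds Ψ skip 0 := fun t w _ hk => ⟨t, w, hk, by simp⟩

theorem adds_each {α : Type} {F : α → Pg} {r : α → ℝ} (L : List α)
    (h : ∀ y ∈ L, Adds Ψ (F y) (r y)) : Adds Ψ (each F L) (L.map r).sum := by
  induction L with
  | nil => exact adds_skip
  | cons y L ih =>
    rw [List.map_cons, List.sum_cons]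
    exact (h y (by simp)).sq (ih fun z hz => h z (by simp [hz]))

/-- Sum over the pairs whose first member is among the first `n` entries. -/
def offS {α : Type} (r : α → α → ℝ) : List α → ℕ → ℝ
  | [], _ => 0
  | _ :: _, 0 => 0
  | x :: L, n + 1 => (L.map (r x)).sum + offS r L n

theorem adds_off {T : ℕ} {r : El → El → ℝ} (L : List El)
    (h : ∀ x ∈ L, ∀ y ∈ L, Adds Ψ (pair T x y) (r x y)) :
    ∀ n, Adds Ψ (off T L n) (offS r L n) := by
  induction L with
  | nil => intro n; exact adds_skip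
  | cons x L ih =>
    intro n
    cases n with
    | zero => exact adds_skip
    | succ n =>
      exact (adds_each L fun y hy => h x (by simp) y (by simp [hy])).sq
        (ih (fun a ha b hb => h a (by simp [ha]) b (by simp [hb])) n)

theorem offS_add {α : Type} (r : α → α → ℝ) (m : ℕ) :
    ∀ (n : ℕ) (L : List α), offS r L (n + m) = offS r L n + offS r (L.drop n) m := by
  intro n
  induction n with
  | zero => intro L; cases L <;> simp [offS]
  | succ n ih =>
    intro L
    cases L with
    | nil => simp [offS]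
    | cons x L => rw [Nat.add_right_comm, List.drop_succ_cons]; simp only [offS, ih, add_assoc]

theorem tri {α : Type} {r : α → α → ℝ} (hr : ∀ x y, r x y = r y x) (L : List α) :
    (L.map fun x => (L.map (r x)).sum).sum =
      (L.map fun x => r x x).sum + 2 * offS r L L.length := by
  induction L with
  | nil => simp [offS]
  | cons x L ih =>
    simp only [List.map_cons, List.sum_cons, List.length_cons, offS, List.sum_map_add, ih]
    have : (L.map fun y => r y x) = L.map (r x) := List.map_congr_left fun y _ => hr y x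
    rw [this]; ring

def sh (Bs : ℕ) : Tr → ℕ → ℕ
  | .l _ _ _, C => C / Bs
  | .b l _ r, C => sh Bs r (sh Bs l C)

variable (Ψ) in
def dv (Bs O : ℕ) : Tr → ℕ → ℝ
  | .l k _ _, C => (((C % Bs : ℕ) : ℝ) - O) * Ψ k
  | .b l _ r, C => dv Bs O l C + dv Bs O r (sh Bs l C)

variable {Bs O : ℕ}

theorem cmp_ok (s : Tr) : ∀ {t : Tr} {C : ℕ} {c : ℕ → Bool}, cmp Bs O s t C c = true →
    c (sh Bs s C) = true ∧ val Ψ t = dv Ψ Bs O s C := by
  induction s with
  | l k P0 N0 =>
    intro t C c h
    cases t with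
    | l k' P N =>
      have h' : Bool.rec (motive := fun _ => Bool) false
        (Bool.rec (motive := fun _ => Bool) false (frc (C / Bs) c)
          (Nat.beq (P + O) (N + C % Bs))) (Nat.beq k k') =
          true := h
      cases e : Nat.beq k k'
      · rw [e] at h'; exact absurd h' (by simp)
      · cases e' : Nat.beq (P + O) (N + C % Bs)
        · rw [e, e'] at h'; exact absurd h' (by simp)
        · rw [e, e'] at h'
          refine ⟨(frc_eq _ _).symm.trans h', ?_⟩
          have a := congrArg (Nat.cast (R := ℝ)) (Nat.eq_of_beq_eq_true e')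
          simp only [val, dv, Nat.eq_of_beq_eq_true e]
          rw [Nat.cast_add, Nat.cast_add] at a
          congr 1; linarith
    | b _ _ _ => exact absurd h (by simp [cmp])
  | b l s r il ir =>
    intro t C c h
    cases t with
    | l _ _ _ => exact absurd h (by simp [cmp])
    | b l' s' r' =>
      have h' : cmp Bs O l l' C (fun C' => cmp Bs O r r' C' c) = true := h
      obtain ⟨a1, a2⟩ := il h'
      obtain ⟨b1, b2⟩ := ir a1
      exact ⟨b1, by simp only [val, dv, a2, b2]⟩

def allz (s : Tr) : Bool :=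
  Tr.rec (motive := fun _ => Bool)
    (fun _ P N => Bool.and (Nat.beq P (nat_lit 0)) (Nat.beq N (nat_lit 0)))
    (fun _ _ _ il ir => Bool.and il ir) s

theorem allz_ok (s : Tr) (h : allz s = true) : val Ψ s = 0 := by
  induction s with
  | l k P N =>
    have h' : (Nat.beq P 0 && Nat.beq N 0) = true := h
    rw [Bool.and_eq_true] at h'
    simp [val, Nat.eq_of_beq_eq_true h'.1, Nat.eq_of_beq_eq_true h'.2]
  | b l s r il ir =>
    have h' : (allz l && allz r) = true := h
    rw [Bool.and_eq_true] at h'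
    simp [val, il h'.1, ir h'.2]

theorem run_ok {S : Tr} {F : Pg} {w C : ℕ} {r : ℝ} (hz : allz S = true) (hF : Adds Ψ F r)
    (h : run Bs O S F w C = true) : r = dv Ψ Bs O S C := by
  obtain ⟨t', w', h1, h2⟩ := hF S w _ h
  rw [← (cmp_ok S h1).2, h2, allz_ok S hz, zero_add]

def hs (Bs : ℕ) (L : List ℕ) : ℕ :=
  List.rec (motive := fun _ => ℕ) (nat_lit 0)
    (fun C _ ih => Nat.add (Nat.mod C Bs) ih) L

def tl (Bs : ℕ) (L : List ℕ) : (List ℕ → Bool) → Bool :=
  List.rec (motive := fun _ => (List ℕ → Bool) → Bool) (fun c => c [])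
    (fun C _ ih c => frc (Nat.div C Bs) fun C' =>
      ih fun L' => c (C' :: L')) L

theorem tl_eq (L : List ℕ) : ∀ c, tl Bs L c = c (L.map (· / Bs)) := by
  induction L with
  | nil => intro c; rfl
  | cons C L ih =>
    intro c
    show frc (C / Bs) (fun C' => tl Bs L fun L' => c (C' :: L')) = _
    rw [frc_eq, ih]; rfl

theorem hs_eq (k P N : ℕ) (L : List ℕ) : (L.map (dv Ψ Bs O (Tr.l k P N))).sum =
    ((hs Bs L : ℝ) - (L.length * O : ℕ)) * Ψ k := by
  induction L with
  | nil => simp [hs]
  | cons C L ih =>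
    have : hs Bs (C :: L) = C % Bs + hs Bs L := rfl
    rw [List.map_cons, List.sum_cons, ih, this, List.length_cons]
    simp only [dv]
    generalize C % Bs = d
    push_cast; ring

def bnd (Bs k0 k1 M : ℕ) (s : Tr) : List ℕ → ℕ → ℕ → (List ℕ → ℕ → ℕ → Bool) → Bool :=
  Tr.rec (motive := fun _ => List ℕ → ℕ → ℕ → (List ℕ → ℕ → ℕ → Bool) → Bool)
    (fun k _ _ L A B c => tl Bs L fun L' => Bool.rec (motive := fun _ => Bool)
      (Bool.rec (motive := fun _ => Bool)
        (frc (Nat.add A (Nat.mul (nat_lit 16) (Nat.sub M (hs Bs L)))) fun A' => c L' A' B)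
        (c L' (Nat.add A M) (Nat.add B (hs Bs L))) (Nat.beq k k1))
      (c L' A B) (Nat.beq k k0))
    (fun _ _ _ il ir L A B c => il L A B fun L' A' B' => ir L' A' B' c) s

theorem bnd_ok {k0 k1 M : ℕ} {ρ : ℝ} (h0 : Ψ k0 = 0) (h1 : Ψ k1 = ρ) (hl : ∀ k, 0 ≤ Ψ k)
    (hu : ∀ k, Ψ k ≤ 16 * ρ) (s : Tr) :
    ∀ {L : List ℕ} {A B : ℕ} {c : List ℕ → ℕ → ℕ → Bool}, M = L.length * O →
      bnd Bs k0 k1 M s L A B c = true → ∃ A' B' : ℕ, c (L.map (sh Bs s)) A' B' = true ∧
        ((B' : ℝ) - A') * ρ ≤ ((B : ℝ) - A) * ρ + (L.map (dv Ψ Bs O s)).sum := by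
  induction s with
  | l k P N =>
    intro L A B c hM h
    have h' : (tl Bs L fun L' => Bool.rec (motive := fun _ => Bool)
      (Bool.rec (motive := fun _ => Bool) (frc (A + 16 * (M - hs Bs L)) fun A' => c L' A' B)
        (c L' (A + M) (B + hs Bs L)) (Nat.beq k k1)) (c L' A B) (Nat.beq k k0)) = true := h
    rw [tl_eq] at h'
    rw [hs_eq, ← hM]
    cases e : Nat.beq k k0
    · cases e' : Nat.beq k k1
      · rw [e, e'] at h'
        replace h' : frc (A + 16 * (M - hs Bs L))
          (fun A' => c (L.map (· / Bs)) A' B) = true := h'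
        rw [frc_eq] at h'
        refine ⟨_, _, h', ?_⟩
        have a := hl k
        have b := hu k
        rcases le_total M (hs Bs L) with d | d
        · have d' : (M : ℝ) ≤ hs Bs L := by exact_mod_cast d
          rw [Nat.sub_eq_zero_of_le d]
          have := mul_nonneg (sub_nonneg.2 d') a
          push_cast; linarith
        · have d' : (hs Bs L : ℝ) ≤ M := by exact_mod_cast d
          have := mul_le_mul_of_nonneg_left b (sub_nonneg.2 d')
          push_cast [Nat.cast_sub d]; linarith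
      · rw [e, e'] at h'
        refine ⟨_, _, h', ?_⟩
        rw [Nat.eq_of_beq_eq_true e', h1]
        push_cast; linarith
    · rw [e] at h'
      refine ⟨_, _, h', ?_⟩
      rw [Nat.eq_of_beq_eq_true e, h0]; simp
  | b l s r il ir =>
    intro L A B c hM h
    have h' : bnd Bs k0 k1 M l L A B (fun L' A' B' => bnd Bs k0 k1 M r L' A' B' c) = true := h
    obtain ⟨A1, B1, a1, a2⟩ := il hM h'
    obtain ⟨A2, B2, b1, b2⟩ := ir (by rw [List.length_map]; exact hM) a1
    rw [List.map_map] at b1 b2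
    refine ⟨A2, B2, b1, ?_⟩
    have : (L.map (dv Ψ Bs O (Tr.b l s r))).sum =
        (L.map (dv Ψ Bs O l)).sum + (L.map (dv Ψ Bs O r ∘ sh Bs l)).sum := by
      rw [← List.sum_map_add]; rfl
    rw [this]; linarith

def nth : ZL → ℕ → ℝ
  | .n, _ => 0
  | .p a _, 0 => a
  | .m a _, 0 => -(a : ℝ)
  | .p _ x, k + 1 => nth x k
  | .m _ x, k + 1 => nth x k

def len : ZL → ℕ
  | .n => 0
  | .p _ x => len x + 1
  | .m _ x => len x + 1

theorem dotA_eq (x : ZL) : ∀ (y : ZL) (P N n : ℕ), len x ≤ n →
    (dotA x y P N : ℝ) = P - N + ∑ k ∈ Finset.range n, nth x k * nth y k := by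
  have base : ∀ P N : ℕ, ((Int.subNatNat P N : ℤ) : ℝ) = P - N := fun P N => by
    rw [Int.subNatNat_eq_coe]; push_cast; rfl
  induction x with
  | n => intro y P N n _; simp only [nth, zero_mul, Finset.sum_const_zero, add_zero]; exact base P N
  | p a x ih =>
    intro y P N n hn
    obtain ⟨n, rfl⟩ : ∃ m, n = m + 1 := ⟨n - 1, by simp only [len] at hn; omega⟩
    have hn' : len x ≤ n := by simp only [len] at hn; omega
    cases y with
    | n => simp only [nth, mul_zero, Finset.sum_const_zero, add_zero]; exact base P N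
    | p b y =>
      refine (ih y (P + a * b) N n hn').trans ?_
      rw [Finset.sum_range_succ']; simp only [nth]; push_cast; ring
    | m b y =>
      refine (ih y P (N + a * b) n hn').trans ?_
      rw [Finset.sum_range_succ']; simp only [nth]; push_cast; ring
  | m a x ih =>
    intro y P N n hn
    obtain ⟨n, rfl⟩ : ∃ m, n = m + 1 := ⟨n - 1, by simp only [len] at hn; omega⟩
    have hn' : len x ≤ n := by simp only [len] at hn; omega
    cases y with
    | n => simp only [nth, mul_zero, Finset.sum_const_zero, add_zero]; exact base P N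
    | p b y =>
      refine (ih y P (N + a * b) n hn').trans ?_
      rw [Finset.sum_range_succ']; simp only [nth]; push_cast; ring
    | m b y =>
      refine (ih y (P + a * b) N n hn').trans ?_
      rw [Finset.sum_range_succ']; simp only [nth]; push_cast; ring

theorem dot_eq (x y : ZL) {n : ℕ} (h : len x ≤ n) :
    (dot x y : ℝ) = ∑ k ∈ Finset.range n, nth x k * nth y k := by
  refine (dotA_eq x y 0 0 n h).trans ?_
  simp

theorem dot_comm (x y : ZL) : (dot x y : ℝ) = dot y x := by
  rw [dot_eq x y (le_max_left _ (len y)), dot_eq y x (le_max_right (len x) _)]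
  simp only [mul_comm]

open scoped InnerProductSpace in
theorem gram_nonneg {V α : Type} [NormedAddCommGroup V] [InnerProductSpace ℝ V] (L : List α)
    (q : α → ZL) (v : α → V) :
    0 ≤ (L.map fun x => (L.map fun y => (dot (q x) (q y) : ℝ) * ⟪v x, v y⟫_ℝ).sum).sum := by
  simp only [← Fin.sum_univ_fun_getElem]
  have hn : ∀ i : Fin L.length, len (q L[i.1]) ≤ ∑ j : Fin L.length, len (q L[j.1]) := fun i =>
    Finset.single_le_sum (f := fun j : Fin L.length => len (q L[j.1])) (fun _ _ => Nat.zero_le _)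
      (Finset.mem_univ i)
  generalize ∑ j : Fin L.length, len (q L[j.1]) = n at hn
  have : ∀ i j : Fin L.length, (dot (q L[i.1]) (q L[j.1]) : ℝ) * ⟪v L[i.1], v L[j.1]⟫_ℝ =
      ∑ k ∈ Finset.range n, ⟪nth (q L[i.1]) k • v L[i.1], nth (q L[j.1]) k • v L[j.1]⟫_ℝ := by
    intro i j
    rw [dot_eq _ _ (hn i), Finset.sum_mul]
    refine Finset.sum_congr rfl fun k _ => ?_
    rw [real_inner_smul_left, real_inner_smul_right, mul_assoc]
  simp only [this]
  simp only [Finset.sum_comm (t := Finset.range n)]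
  refine Finset.sum_nonneg fun k _ => ?_
  simp only [← inner_sum, ← sum_inner]
  exact real_inner_self_nonneg

end

end Pool.Agent.P.MP_2d26dd_al.T4c
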