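import Pool.Agent.P.MP_2d26dd_al.T4h3
import Pool.Agent.P.MP_2d26dd_al.T4h4

/-! Soundness of the pair program. -/

namespace Pool.Agent.P.MP_2d26dd_al.T4c

open scoped InnerProductSpace

noncomputable section

abbrev GG : Type := AutF (Fin 4)

def cj (s g : GG) : GG := s * g * s⁻¹

theorem cj_cj (s t g : GG) : cj s (cj t g) = cj (s * t) g := by simp only [cj]; group

theorem cj_one (g : GG) : cj 1 g = g := by simp [cj]

theorem cj_comm {s t s' t' : GG} (h : s * t = t' * s') (g : GG) :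
    cj s (cj t g) = cj t' (cj s' g) := by rw [cj_cj, cj_cj, h]

variable {V : Type} [NormedAddCommGroup V] [InnerProductSpace ℝ V]

/-- Equal Gram kernels. -/
def Same (B B' : GG → V) : Prop := ∀ g h, ⟪B g, B h⟫_ℝ = ⟪B' g, B' h⟫_ℝ

def sy (B : GG → V) (t : GG) (e : ℝ) : GG → V := fun g => B g + e • B (cj t g)

theorem Same.sy {B B' : GG → V} (h : Same B B') (t : GG) (e : ℝ) :
    Same (sy B t e) (sy B' t e) := fun g k => by
  simp only [T4c.sy, inner_add_left, inner_add_right, real_inner_smul_left, real_inner_smul_right,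
    h _ _]

def Iso (B : GG → V) (t : GG) : Prop := Same (fun g => B (cj t g)) B

theorem Iso.sy {B : GG → V} {t s : GG} (h : Iso B s) (c : t * s = s * t) (e : ℝ) :
    Iso (sy B t e) s := by
  have : (fun g => T4c.sy B t e (cj s g)) = T4c.sy (fun g => B (cj s g)) t e := by
    funext g; simp only [T4c.sy, cj_comm c]
  unfold Iso
  rw [this]; exact Same.sy h t e

theorem Iso.sy2 {B : GG → V} {t t' s : GG} (h : Iso B s) (c : t * s = s * t')
    (c' : t' * s = s * t) (d : t * t' = t' * t) (e : ℝ) :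
    Iso (T4c.sy (T4c.sy B t e) t' e) s := by
  have : (fun g => T4c.sy (T4c.sy B t e) t' e (cj s g)) =
      T4c.sy (T4c.sy (fun g => B (cj s g)) t e) t' e := by
    funext g
    simp only [T4c.sy, cj_comm c, cj_comm c', cj_comm d, smul_add]
    abel
  unfold Iso
  rw [this]; exact (Same.sy h t e).sy t' e

theorem inner_sy {B : GG → V} {t : GG} {e : ℝ} (h : Iso B t) (ht : t * t = 1) (he : e * e = 1)
    (g k : GG) : ⟪sy B t e g, sy B t e k⟫_ℝ = 2 * (⟪B g, B k⟫_ℝ + e * ⟪B (cj t g), B k⟫_ℝ) := by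
  have h1 := h g k
  have h2 := h (cj t g) k
  simp only [cj_cj, ht, cj_one] at h1 h2
  simp only [sy, inner_add_left, inner_add_right, real_inner_smul_left, real_inner_smul_right,
    h1, h2]
  linear_combination ⟪B g, B k⟫_ℝ * he

def ps (b : GG → V) (g : GG) : ℝ := ‖b g‖ ^ 2

def Sy (b : GG → V) (s : GG) : Prop := ∀ g, ‖b (cj s g)‖ = ‖b g‖

def HS (b : GG → V) : Prop := ∀ f, Ok f → ∃ s, Lm s f ∧ Sy b s

variable {b : GG → V}

theorem inner_coc (hb : IsCoc b) (g h : GG) :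
    ⟪b g, b h⟫_ℝ = (ps b g + ps b h - ps b (g⁻¹ * h)) / 2 := by
  have := norm_sub_sq_real (b g) (b h)
  rw [hb.2] at this
  simp only [ps]; linarith

omit [InnerProductSpace ℝ V] in
theorem norm_inv_coc (hb : IsCoc b) (g : GG) : ‖b g⁻¹‖ = ‖b g‖ := by
  have := hb.2 g 1
  rw [hb.1, sub_zero, mul_one] at this
  exact this.symm

omit [InnerProductSpace ℝ V] in
theorem norm_mul_coc (hb : IsCoc b) (g h : GG) : ‖b (g * h)‖ ≤ ‖b g‖ + ‖b h‖ := by
  have := hb.2 g⁻¹ h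
  rw [inv_inv] at this
  rw [← this, ← norm_inv_coc hb g]
  exact norm_sub_le _ _

omit [InnerProductSpace ℝ V] in
theorem Sy.ps {s : GG} (h : Sy b s) (g : GG) : ps b (cj s g) = ps b g := by
  simp only [T4c.ps, h g]

theorem Sy.iso {s : GG} (h : Sy b s) (hb : IsCoc b) : Iso b s := fun g k => by
  have : (cj s g)⁻¹ * cj s k = cj s (g⁻¹ * k) := by simp only [cj]; group
  simp only [inner_coc hb, this, h.ps]

structure Ctx (b : GG → V) (T : ℕ) : Prop where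
  coc : IsCoc b
  hs : HS b
  tab : ∀ j, j < 1024 → Ok (ap (sg T j))
  gen : ∀ x y, Val x y → x ≠ 0 → ‖b (gn x y)‖ = ‖b (gn 1 2)‖

def Ps (b : GG → V) (k : ℕ) : ℝ := min (ps b (dec k)) (16 * ps b (gn 1 2))

variable {T : ℕ}

omit [InnerProductSpace ℝ V] in
theorem Ctx.gen_le (c : Ctx b T) {x y : ℕ} (h : Val x y) : ‖b (gn x y)‖ ≤ ‖b (gn 1 2)‖ := by
  by_cases hx : x = 0
  · subst hx
    rw [gn_zero (by unfold Val at h; omega), c.coc.1, norm_zero]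
    exact norm_nonneg _
  · exact (c.gen x y h hx).le

omit [InnerProductSpace ℝ V] in
theorem Ctx.key2 (c : Ctx b T) {n : ℕ} (h : Ok (ap n)) {u v : W2} (hu : VW u) (hv : VW v) :
    Ps b (key2 n u v) = ps b ((ev u)⁻¹ * ev v) := by
  obtain ⟨s, h1, h2⟩ := c.hs _ h
  have e : ps b (dec (T4c.key2 n u v)) = ps b ((ev u)⁻¹ * ev v) := by
    rw [dec_key2 h h1 hu hv]; exact h2.ps _
  rw [Ps, e]
  refine min_eq_left ?_
  have a1 := norm_mul_coc c.coc (ev u)⁻¹ (ev v)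
  rw [norm_inv_coc c.coc] at a1
  have a2 : ‖b (ev u)‖ ≤ _ := norm_mul_coc c.coc (gn u.a u.b) (gn u.c u.d)
  have a3 : ‖b (ev v)‖ ≤ _ := norm_mul_coc c.coc (gn v.a v.b) (gn v.c v.d)
  have := c.gen_le hu.1
  have := c.gen_le hu.2
  have := c.gen_le hv.1
  have := c.gen_le hv.2
  have a : ‖b ((ev u)⁻¹ * ev v)‖ ≤ 4 * ‖b (gn 1 2)‖ := by linarith
  have := pow_le_pow_left₀ (norm_nonneg _) a 2
  simp only [ps]; linarith

omit [InnerProductSpace ℝ V] in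
theorem Ctx.keyw (c : Ctx b T) {u v : W2} (hu : VW u) (hv : VW v) (j : ℕ) (hj : j < 1024) :
    Ps b (keyw T j u v) = ps b ((ev u)⁻¹ * ev v) := by
  unfold T4c.keyw
  cases Nat.beq (Nat.mod j (nat_lit 2)) (nat_lit 0)
  · refine (c.key2 (c.tab j hj) hv hu).trans ?_
    simp only [ps]
    rw [← norm_inv_coc c.coc, mul_inv_rev, inv_inv]
  · exact c.key2 (c.tab j hj) hu hv

structure Fl (b : GG → V) (t1 t2 t3 t4 s : GG) : Prop where
  l1 : Lm t1 (fl 1)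
  l2 : Lm t2 (fl 2)
  l3 : Lm t3 (fl 3)
  l4 : Lm t4 (fl 4)
  ls : Lm s sw
  y1 : Sy b t1
  y2 : Sy b t2
  y3 : Sy b t3
  y4 : Sy b t4
  ys : Sy b s

theorem ok1 : Ok (fl 1) := by decide
theorem ok2 : Ok (fl 2) := by decide
theorem ok3 : Ok (fl 3) := by decide
theorem ok4 : Ok (fl 4) := by decide
theorem oks : Ok sw := by decide +kernel

omit [InnerProductSpace ℝ V] in
theorem HS.fl (h : HS b) : ∃ t1 t2 t3 t4 s, Fl b t1 t2 t3 t4 s := by
  obtain ⟨t1, a1, b1⟩ := h _ ok1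
  obtain ⟨t2, a2, b2⟩ := h _ ok2
  obtain ⟨t3, a3, b3⟩ := h _ ok3
  obtain ⟨t4, a4, b4⟩ := h _ ok4
  obtain ⟨s, a5, b5⟩ := h _ oks
  exact ⟨t1, t2, t3, t4, s, a1, a2, a3, a4, a5, b1, b2, b3, b4, b5⟩

structure Rel (t1 t2 t3 t4 s : GG) : Prop where
  i1 : t1 * t1 = 1
  i2 : t2 * t2 = 1
  i3 : t3 * t3 = 1
  i4 : t4 * t4 = 1
  is : s * s = 1
  c12 : t1 * t2 = t2 * t1
  c13 : t1 * t3 = t3 * t1
  c14 : t1 * t4 = t4 * t1
  c23 : t2 * t3 = t3 * t2
  c24 : t2 * t4 = t4 * t2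
  c34 : t3 * t4 = t4 * t3
  c1 : t1 * s = s * t1
  c2 : t2 * s = s * t2
  c3 : t3 * s = s * t4
  c4 : t4 * s = s * t3

variable {t1 t2 t3 t4 s : GG}

omit [InnerProductSpace ℝ V] in
theorem Fl.rel (f : Fl b t1 t2 t3 t4 s) : Rel t1 t2 t3 t4 s where
  i1 := (f.l1.mul f.l1 ok1).ext lm_one (by decide +kernel)
  i2 := (f.l2.mul f.l2 ok2).ext lm_one (by decide +kernel)
  i3 := (f.l3.mul f.l3 ok3).ext lm_one (by decide +kernel)
  i4 := (f.l4.mul f.l4 ok4).ext lm_one (by decide +kernel)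
  is := (f.ls.mul f.ls oks).ext lm_one (by decide +kernel)
  c12 := (f.l1.mul f.l2 ok2).ext (f.l2.mul f.l1 ok1) (by decide +kernel)
  c13 := (f.l1.mul f.l3 ok3).ext (f.l3.mul f.l1 ok1) (by decide +kernel)
  c14 := (f.l1.mul f.l4 ok4).ext (f.l4.mul f.l1 ok1) (by decide +kernel)
  c23 := (f.l2.mul f.l3 ok3).ext (f.l3.mul f.l2 ok2) (by decide +kernel)
  c24 := (f.l2.mul f.l4 ok4).ext (f.l4.mul f.l2 ok2) (by decide +kernel)
  c34 := (f.l3.mul f.l4 ok4).ext (f.l4.mul f.l3 ok3) (by decide +kernel)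
  c1 := (f.l1.mul f.ls oks).ext (f.ls.mul f.l1 ok1) (by decide +kernel)
  c2 := (f.l2.mul f.ls oks).ext (f.ls.mul f.l2 ok2) (by decide +kernel)
  c3 := (f.l3.mul f.ls oks).ext (f.ls.mul f.l4 ok4) (by decide +kernel)
  c4 := (f.l4.mul f.ls oks).ext (f.ls.mul f.l3 ok3) (by decide +kernel)

def B5 (b : GG → V) (t1 t2 t3 t4 s : GG) (e0 e1 e2 e3 : ℝ) : GG → V :=
  sy (sy (sy (sy (sy b t1 e0) t2 e1) t3 e2) t4 e2) s e3

def op (F : GG → ℝ) (t : GG) (e : ℝ) : GG → ℝ := fun g => F g + e * F (cj t g)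

def E5 (K : GG → ℝ) (t1 t2 t3 t4 s : GG) (e0 e1 e2 e3 : ℝ) : GG → ℝ :=
  op (op (op (op (op K t1 e0) t2 e1) t3 e2) t4 e2) s e3

theorem inner_B5 (hb : IsCoc b) (f : Fl b t1 t2 t3 t4 s) {e0 e1 e2 e3 : ℝ} (h0 : e0 * e0 = 1)
    (h1 : e1 * e1 = 1) (h2 : e2 * e2 = 1) (h3 : e3 * e3 = 1) (g h : GG) :
    ⟪B5 b t1 t2 t3 t4 s e0 e1 e2 e3 g, B5 b t1 t2 t3 t4 s e0 e1 e2 e3 h⟫_ℝ =
      16 * ((1 + e0) * (1 + e1) * (1 + e2) * (1 + e2) * (1 + e3) * (ps b g + ps b h) -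
        E5 (fun x => ps b (x⁻¹ * h)) t1 t2 t3 t4 s e0 e1 e2 e3 g) := by
  have r := f.rel
  have a1 := inner_sy (f.y1.iso hb) r.i1 h0
  have a2 := inner_sy ((f.y2.iso hb).sy r.c12 e0) r.i2 h1
  have a3 := inner_sy (((f.y3.iso hb).sy r.c13 e0).sy r.c23 e1) r.i3 h2
  have a4 := inner_sy ((((f.y4.iso hb).sy r.c14 e0).sy r.c24 e1).sy r.c34 e2) r.i4 h2
  have a5 := inner_sy ((((f.ys.iso hb).sy r.c1 e0).sy r.c2 e1).sy2 r.c3 r.c4 r.c34 e2) r.is h3
  unfold B5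
  rw [a5]
  simp only [a4, a3, a2, a1, inner_coc hb, f.y1.ps, f.y2.ps, f.y3.ps, f.y4.ps, f.ys.ps, E5, op]
  ring

def S0 (K : GG → ℝ) (t1 : GG) (p m : ℝ) (g : GG) : ℝ := (p + m) * K g + (p - m) * K (cj t1 g)

def S1 (K : GG → ℝ) (t1 t2 : GG) (M : I4) (g : GG) : ℝ :=
  S0 K t1 (M.a + M.c) (M.b + M.d) g + S0 K t1 (M.a - M.c) (M.b - M.d) (cj t2 g)

def S2 (K : GG → ℝ) (t1 t2 t3 : GG) (A B : I4) (g : GG) : ℝ :=
  S1 K t1 t2 A g + S1 K t1 t2 B (cj t3 g)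

def S3 (K : GG → ℝ) (t1 t2 t3 t4 : GG) (P D : I4) (g : GG) : ℝ :=
  S2 K t1 t2 t3 (ad P D) (sb P D) g + S2 K t1 t2 t3 (sb P D) (ad P D) (cj t4 g)

def S4 (K : GG → ℝ) (t1 t2 t3 t4 s : GG) (P D P' D' : I4) (g : GG) : ℝ :=
  S3 K t1 t2 t3 t4 (ad P P') (ad D D') g + S3 K t1 t2 t3 t4 (sb P P') (sb D D') (cj s g)

theorem cast_add' (x y : ℤ) : ((Int.add x y : ℤ) : ℝ) = x + y := Int.cast_add x y

theorem cast_sub' (x y : ℤ) : ((Int.sub x y : ℤ) : ℝ) = x - y := Int.cast_sub x y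

def Iv (F : GG → ℝ) (t : GG) : Prop := ∀ g, F (cj t g) = F g

theorem Iv.s0 {K : GG → ℝ} {t : GG} (h : Iv K t) (c : t1 * t = t * t1) (p m : ℝ) :
    Iv (S0 K t1 p m) t := fun g => by simp only [S0, cj_comm c, h _]

theorem Iv.s1 {K : GG → ℝ} {t : GG} (h : Iv K t) (c : t1 * t = t * t1) (c' : t2 * t = t * t2)
    (M : I4) : Iv (S1 K t1 t2 M) t := fun g => by simp only [S1, cj_comm c', h.s0 c _ _ _]

theorem Iv.s2 {K : GG → ℝ} {t : GG} (h : Iv K t) (c : t1 * t = t * t1) (c' : t2 * t = t * t2)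
    (c'' : t3 * t = t * t3) (A B : I4) : Iv (S2 K t1 t2 t3 A B) t := fun g => by
  simp only [S2, cj_comm c'', h.s1 c c' _ _]

theorem un_ok {i : ℕ} {u : W2} (h : un i u = true) : flW i u = u := by
  unfold un at h
  simp only [Bool.and_eq_true] at h
  unfold flW
  rw [Nat.eq_of_beq_eq_true h.1.1, Nat.eq_of_beq_eq_true h.1.2, Nat.eq_of_beq_eq_true h.2.1,
    Nat.eq_of_beq_eq_true h.2.2]

omit [InnerProductSpace ℝ V] in
theorem fx_ok {i : ℕ} {t : GG} (o : Ok (fl i)) (l : Lm t (fl i)) (y : Sy b t) {u v : W2}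
    (hu : VW u) (hv : VW v) (h : fx i u v = true) :
    cj t (ev u) = ev u ∨ Iv (fun x => ps b (x⁻¹ * ev v)) t := by
  unfold fx at h
  cases e : un i v
  · rw [e] at h
    left
    have := (ev_map o l hu).2
    exact this.symm.trans (congrArg ev (un_ok h))
  · right
    have e' : cj t (ev v) = ev v := (ev_map o l hv).2.symm.trans (congrArg ev (un_ok e))
    intro g
    have : (cj t g)⁻¹ * ev v = cj t (g⁻¹ * ev v) := by
      conv_lhs => rw [← e']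
      simp only [cj]; group
    simp only [this, y.ps]

section Prog

omit [InnerProductSpace ℝ V]

variable (c : Ctx b T) (f : Fl b t1 t2 t3 t4 s) {v : W2} (hv : VW v)
include c f hv

theorem adds_f0 {u : W2} (hu : VW u) (p m : ℤ) :
    Adds (Ps b) (f0 T p m u v) (S0 (fun x => ps b (x⁻¹ * ev v)) t1 p m (ev u)) := by
  have e := ev_map ok1 f.l1 hu
  refine adds_ch (fun h => (adds_trip (c.keyw hu hv)).of_eq ?_)
    (((adds_trip (c.keyw hu hv)).sq (adds_trip (c.keyw (u := flW 1 u) e.1 hv))).of_eq ?_)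
  · rcases fx_ok ok1 f.l1 f.y1 hu hv h with h | h
    · simp only [S0, h, cast_add']; ring
    · simp only [S0, h _, cast_add']; ring
  · rw [show ev (flW 1 u) = cj t1 (ev u) from e.2]
    simp only [S0, cast_add', cast_sub']

theorem adds_f1 {u : W2} (hu : VW u) (M : I4) :
    Adds (Ps b) (f1 T M u v) (S1 (fun x => ps b (x⁻¹ * ev v)) t1 t2 M (ev u)) := by
  have e := ev_map ok2 f.l2 hu
  refine adds_ch (fun h => (adds_f0 c f hv hu _ _).of_eq ?_)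
    (((adds_f0 c f hv hu _ _).sq (adds_f0 c f hv (u := flW 2 u) e.1 _ _)).of_eq ?_)
  · rcases fx_ok ok2 f.l2 f.y2 hu hv h with h | h
    · simp only [S1, h, S0, cast_add']; ring
    · simp only [S1, h.s0 f.rel.c12 _ _ _]
      simp only [S0, cast_add']; ring
  · rw [show ev (flW 2 u) = cj t2 (ev u) from e.2]
    simp only [S1, cast_add', cast_sub']

theorem adds_f2 {u : W2} (hu : VW u) (A B : I4) :
    Adds (Ps b) (f2 T A B u v) (S2 (fun x => ps b (x⁻¹ * ev v)) t1 t2 t3 A B (ev u)) := by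
  have e := ev_map ok3 f.l3 hu
  refine adds_ch (fun h => (adds_f1 c f hv hu _).of_eq ?_)
    (((adds_f1 c f hv hu _).sq (adds_f1 c f hv (u := flW 3 u) e.1 _)).of_eq ?_)
  · rcases fx_ok ok3 f.l3 f.y3 hu hv h with h | h
    · simp only [S2, h, S1, S0, ad, cast_add']; ring
    · simp only [S2, h.s1 f.rel.c13 f.rel.c23 _ _]
      simp only [S1, S0, ad, cast_add']; ring
  · rw [show ev (flW 3 u) = cj t3 (ev u) from e.2]
    rfl

theorem adds_f3 {u : W2} (hu : VW u) (P D : I4) :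
    Adds (Ps b) (f3 T P D u v) (S3 (fun x => ps b (x⁻¹ * ev v)) t1 t2 t3 t4 P D (ev u)) := by
  have e := ev_map ok4 f.l4 hu
  refine adds_ch (fun h => (adds_f2 c f hv hu _ _).of_eq ?_)
    (((adds_f2 c f hv hu _ _).sq (adds_f2 c f hv (u := flW 4 u) e.1 _ _)).of_eq ?_)
  · rcases fx_ok ok4 f.l4 f.y4 hu hv h with h | h
    · simp only [S3, h, S2, S1, S0, ad, sb, cast_add', cast_sub']; ring
    · simp only [S3, h.s2 f.rel.c14 f.rel.c24 f.rel.c34 _ _ _]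
      simp only [S2, S1, S0, ad, sb, cast_add', cast_sub']; ring
  · rw [show ev (flW 4 u) = cj t4 (ev u) from e.2]
    rfl

theorem adds_f4 {u : W2} (hu : VW u) (P D P' D' : I4) :
    Adds (Ps b) (f4 T P D P' D' u v)
      (S4 (fun x => ps b (x⁻¹ * ev v)) t1 t2 t3 t4 s P D P' D' (ev u)) := by
  have e := ev_map oks f.ls hu
  refine ((adds_f3 c f hv hu _ _).sq (adds_f3 c f hv (u := swW u) e.1 _ _)).of_eq ?_
  rw [show ev (swW u) = cj s (ev u) from e.2]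
  rfl

end Prog

def VE (x : El) : Prop := VW x.u ∧ x.w < 1024

instance (x : El) : Decidable (VE x) := by unfold VE; infer_instance

def P4 (B : ℝ → ℝ → GG → V) (q : El → Z4) (x y : El) : ℝ :=
  (dot (q x).a (q y).a : ℝ) * ⟪B 1 1 (ev x.u), B 1 1 (ev y.u)⟫_ℝ +
  (dot (q x).b (q y).b : ℝ) * ⟪B (-1) 1 (ev x.u), B (-1) 1 (ev y.u)⟫_ℝ +
  (dot (q x).c (q y).c : ℝ) * ⟪B 1 (-1) (ev x.u), B 1 (-1) (ev y.u)⟫_ℝ +
  (dot (q x).d (q y).d : ℝ) * ⟪B (-1) (-1) (ev x.u), B (-1) (-1) (ev y.u)⟫_ℝ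

theorem P4_comm (B : ℝ → ℝ → GG → V) (q : El → Z4) (x y : El) : P4 B q x y = P4 B q y x := by
  simp only [P4, dot_comm (q x).a, dot_comm (q x).b, dot_comm (q x).c, dot_comm (q x).d,
    real_inner_comm (B _ _ (ev x.u))]

theorem P4_nonneg (B : ℝ → ℝ → GG → V) (q : El → Z4) (L : List El) :
    0 ≤ (L.map fun x => (L.map (P4 B q x)).sum).sum := by
  have a := gram_nonneg L (fun x => (q x).a) fun x => B 1 1 (ev x.u)
  have a' := gram_nonneg L (fun x => (q x).b) fun x => B (-1) 1 (ev x.u)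
  have a'' := gram_nonneg L (fun x => (q x).c) fun x => B 1 (-1) (ev x.u)
  have a''' := gram_nonneg L (fun x => (q x).d) fun x => B (-1) (-1) (ev x.u)
  unfold P4
  simp only [List.sum_map_add]
  linarith

def PC (B : ℝ → ℝ → ℝ → ℝ → GG → V) (x y : El) : ℝ :=
  P4 (fun e0 e1 => B e0 e1 1 1) El.q0 x y + P4 (fun e0 e1 => B e0 e1 (-1) 1) El.q1 x y +
  P4 (fun e0 e1 => B e0 e1 1 (-1)) El.q2 x y + P4 (fun e0 e1 => B e0 e1 (-1) (-1)) El.q3 x y

def RR (B : ℝ → ℝ → ℝ → ℝ → GG → V) (x y : El) : ℝ := PC B x y * (-1 / 16)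

theorem RR_comm (B : ℝ → ℝ → ℝ → ℝ → GG → V) (x y : El) : RR B x y = RR B y x := by
  simp only [RR, PC, P4_comm _ _ x y]

theorem RR_nonpos (B : ℝ → ℝ → ℝ → ℝ → GG → V) (L : List El) :
    (L.map fun x => RR B x x).sum + 2 * offS (RR B) L L.length ≤ 0 := by
  rw [← tri (RR_comm B)]
  have a := P4_nonneg (fun e0 e1 => B e0 e1 1 1) El.q0 L
  have a' := P4_nonneg (fun e0 e1 => B e0 e1 (-1) 1) El.q1 L
  have a'' := P4_nonneg (fun e0 e1 => B e0 e1 1 (-1)) El.q2 L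
  have a''' := P4_nonneg (fun e0 e1 => B e0 e1 (-1) (-1)) El.q3 L
  unfold RR PC
  simp only [List.sum_map_mul_right, List.sum_map_add]
  linarith

theorem ev_w0 : VW w0 ∧ ev w0 = 1 := by
  refine ⟨by decide, ?_⟩
  show gn 0 0 * gn 0 0 = 1
  rw [gn_zero (Or.inl rfl), mul_one]

theorem adds_pair (c : Ctx b T) (f : Fl b t1 t2 t3 t4 s) {x y : El} (hx : VE x) (hy : VE y) :
    Adds (Ps b) (pair T x y) (RR (B5 b t1 t2 t3 t4 s) x y) := by
  refine ((adds_f4 c f hy.1 hx.1 _ _ _ _).sq ((adds_put _ _).sq (adds_put _ _))).of_eq ?_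
  have k : ∀ {z : El}, VE z → Ps b (kel T z) = ps b (ev z.u) := fun hz => by
    rw [kel, c.keyw ev_w0.1 hz.1 _ hz.2, ev_w0.2, inv_one, one_mul]
  have m : ∀ z : ℤ, ((Int.mul (Int.negSucc (nat_lit 31)) z : ℤ) : ℝ) = -32 * z := fun z => by
    refine (Int.cast_mul _ _).trans ?_
    rw [Int.cast_negSucc]; norm_num
  have p : (1 : ℝ) * 1 = 1 := by norm_num
  have n : (-1 : ℝ) * -1 = 1 := by norm_num
  rw [k hx, k hy, m]
  simp only [RR, PC, P4, inner_B5 c.coc f p p p p, inner_B5 c.coc f n p p p,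
    inner_B5 c.coc f p n p p, inner_B5 c.coc f n n p p, inner_B5 c.coc f p p n p,
    inner_B5 c.coc f n p n p, inner_B5 c.coc f p n n p, inner_B5 c.coc f n n n p,
    inner_B5 c.coc f p p p n, inner_B5 c.coc f n p p n, inner_B5 c.coc f p n p n,
    inner_B5 c.coc f n n p n, inner_B5 c.coc f p p n n, inner_B5 c.coc f n p n n,
    inner_B5 c.coc f p n n n, inner_B5 c.coc f n n n n]
  simp only [S4, S3, S2, S1, S0, ad, sb, dot4, cast_add', cast_sub', E5, op]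
  ring

def wt (p q : ℕ × ℕ) : ℕ :=
  if (edge (toTI p.1 p.2) ∩ edge (toTI q.1 q.2)).card = 1 then 1
  else if (edge (toTI p.1 p.2) ∩ edge (toTI q.1 q.2)).card = 0 then 300 else 0

def tg1 (T N k1 : ℕ) (p q : ℕ × ℕ) : Pg :=
  ch (Nat.beq (wt p q) (nat_lit 0)) skip
    (sq (trip T (Int.neg (Int.ofNat (Nat.mul (wt p q) N))) ⟨p.1, p.2, nat_lit 0, nat_lit 0⟩
      ⟨q.1, q.2, nat_lit 0, nat_lit 0⟩)
      (put k1 (Int.ofNat (Nat.mul (nat_lit 2) (Nat.mul (wt p q) N)))))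

def tg (T N k1 : ℕ) (L : List (ℕ × ℕ)) : Pg := each (fun p => each (tg1 T N k1 p) L) L

theorem adds_tg (c : Ctx b T) {N k1 : ℕ} (h1 : Ps b k1 = ps b (gn 1 2)) {L : List (ℕ × ℕ)}
    (hL : ∀ p ∈ L, Val p.1 p.2 ∧ p.1 ≠ 0) :
    Adds (Ps b) (tg T N k1 L) (L.map fun p => (L.map fun q =>
      (wt p q : ℝ) * ⟪b (gn p.1 p.2), b (gn q.1 q.2)⟫_ℝ * (2 * N)).sum).sum := by
  refine adds_each L fun p hp => adds_each L fun q hq => ?_
  have z : Val 0 0 := by decide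
  refine adds_ch (fun h => adds_skip.of_eq ?_)
    (((adds_trip (c.keyw (u := ⟨p.1, p.2, 0, 0⟩) (v := ⟨q.1, q.2, 0, 0⟩) ⟨(hL p hp).1, z⟩
      ⟨(hL q hq).1, z⟩)).sq (adds_put _ _)).of_eq ?_)
  · rw [show wt p q = 0 from Nat.eq_of_beq_eq_true h]; simp
  · have e1 : ((Int.neg (Int.ofNat (Nat.mul (wt p q) N)) : ℤ) : ℝ) = -((wt p q : ℝ) * N) := by
      show ((-((wt p q * N : ℕ) : ℤ) : ℤ) : ℝ) = _
      push_cast; rfl
    have e2 : ((Int.ofNat (Nat.mul (nat_lit 2) (Nat.mul (wt p q) N)) : ℤ) : ℝ) =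
        2 * ((wt p q : ℝ) * N) := by
      show (((2 * (wt p q * N) : ℕ) : ℤ) : ℝ) = _
      push_cast; rfl
    rw [e1, e2, h1, inner_coc c.coc]
    simp only [ev, gn_zero (Or.inl rfl), mul_one, ps, c.gen _ _ (hL p hp).1 (hL p hp).2,
      c.gen _ _ (hL q hq).1 (hL q hq).2]
    ring

end

end Pool.Agent.P.MP_2d26dd_al.T4c
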