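import Pool.Agent.P.MP_2d26dd_al.T4hd
import Pool.Agent.P.MP_2d26dd_al.T4hc0
import Pool.Agent.P.MP_2d26dd_al.T4hc1
import Pool.Agent.P.MP_2d26dd_al.T4hc2
import Pool.Agent.P.MP_2d26dd_al.T4hc3
import Pool.Agent.P.MP_2d26dd_al.T4hc4
import Pool.Agent.P.MP_2d26dd_al.T4hc5

/-! The final bound. -/

namespace Pool.Agent.P.MP_2d26dd_al.T4c

def CS : List ℕ := [CD, CT, C0, C0, C1, C1, C2, C2, C3, C3, C4, C4, C5, C5]

theorem fin_ok : bnd BB K0 K1 (CS.length * OO) SK CS 0 0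
    (fun _ A B => Nat.ble (10 * A + 48 * NN) (10 * B)) = true := by
  decide +kernel

end Pool.Agent.P.MP_2d26dd_al.T4c
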