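import Pool.Agent.P.MP_2d26dd_al.T4
import Pool.Agent.P.MP_2d26dd_al.Ext

/-! Symmetrisation: the spectral gap in rank `n ≥ 303`. -/

namespace Pool.Agent.P.MP_2d26dd_al

open scoped InnerProductSpace

variable {ι : Type} [DecidableEq ι] {V : Type} [NormedAddCommGroup V] [InnerProductSpace ℝ V]

namespace TnAux

/-- The weight of the certificate. -/
noncomputable def wt (a c : TI ι) : ℝ :=
  if (edge a ∩ edge c).card = 1 then (1 : ℝ) else if (edge a ∩ edge c).card = 0 then 300 else 0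

/-- Transport of an index along an embedding. -/
def tmap {κ : Type} (e : κ ↪ ι) : TI κ ↪ TI ι :=
  e.prodMap (e.prodMap (Function.Embedding.refl _))

theorem gens_map {κ : Type} [DecidableEq κ] [Fintype κ] (e : κ ↪ ι) :
    gens (Finset.univ.map e) = (gens (Finset.univ : Finset κ)).map (tmap e) := by
  ext ⟨i, j, d, s⟩
  simp only [mem_gens, Finset.mem_map, Finset.mem_univ, true_and]
  constructor
  · rintro ⟨⟨i', rfl⟩, ⟨j', rfl⟩, h⟩
    exact ⟨(i', j', d, s), fun h' => h (congrArg e h'), rfl⟩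
  · rintro ⟨⟨i', j', d', s'⟩, h, h2⟩
    simp only [tmap, Function.Embedding.coe_prodMap, Prod.map_apply, Prod.mk.injEq] at h2
    obtain ⟨rfl, rfl, -⟩ := h2
    exact ⟨⟨i', rfl⟩, ⟨j', rfl⟩, fun h' => h (e.injective h')⟩

theorem edge_tmap {κ : Type} [DecidableEq κ] (e : κ ↪ ι) (a : TI κ) :
    edge (tmap e a) = (edge a).map e := by
  obtain ⟨i, j, d, s⟩ := a
  simp [edge, tmap, Finset.map_insert]

theorem wt_tmap {κ : Type} [DecidableEq κ] (e : κ ↪ ι) (a c : TI κ) :
    wt (tmap e a) (tmap e c) = wt a c := by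
  unfold wt
  rw [edge_tmap, edge_tmap, ← Finset.map_inter, Finset.card_map]

theorem T4_sub (Y : Finset ι) (hY : Y.card = 4) (b : AutF ι → V) (hb : IsCoc b) :
    (1 / 20 : ℝ) * ∑ a ∈ gens Y, ‖b (tvi a)‖ ^ 2 ≤
      ∑ a ∈ gens Y, ∑ c ∈ gens Y, wt a c * ⟪b (tvi a), b (tvi c)⟫_ℝ := by
  let e : Fin 4 ↪ ι :=
    (Finset.equivFinOfCardEq hY).symm.toEmbedding.trans (Function.Embedding.subtype _)
  have he : Finset.univ.map e = Y := by
    ext x
    simp only [Finset.mem_map, Finset.mem_univ, true_and]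
    constructor
    · rintro ⟨k, rfl⟩
      exact ((Finset.equivFinOfCardEq hY).symm k).2
    · intro hx
      exact ⟨Finset.equivFinOfCardEq hY ⟨x, hx⟩, by simp [e]⟩
  obtain ⟨E, -, hE, -⟩ := exists_ext e
  have hb' : IsCoc (fun g => b (E g)) := by
    refine ⟨by simp [hb.1], fun g h => ?_⟩
    simp only [map_mul, map_inv]
    exact hb.2 _ _
  have h4 := T4 (fun g => b (E g)) hb'
  have ht : ∀ a : TI (Fin 4), E (tvi a) = tvi (tmap e a) := fun a => hE _ _ _ _
  rw [← he, gens_map]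
  simp only [Finset.sum_map, wt_tmap]
  simp only [ht] at h4
  exact h4

theorem gens_eq_filter {X Y : Finset ι} (h : Y ⊆ X) :
    gens Y = (gens X).filter fun a => edge a ⊆ Y := by
  ext a
  simp only [Finset.mem_filter, mem_gens, edge, Finset.insert_subset_iff,
    Finset.singleton_subset_iff]
  constructor
  · rintro ⟨h1, h2, h3⟩
    exact ⟨⟨h h1, h h2, h3⟩, h1, h2⟩
  · rintro ⟨⟨-, -, h3⟩, h1, h2⟩
    exact ⟨h1, h2, h3⟩

theorem edge_card {X : Finset ι} {a : TI ι} (ha : a ∈ gens X) : (edge a).card = 2 :=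
  Finset.card_pair (mem_gens.1 ha).2.2

theorem edge_subset {X : Finset ι} {a : TI ι} (ha : a ∈ gens X) : edge a ⊆ X := by
  simp only [edge, Finset.insert_subset_iff, Finset.singleton_subset_iff]
  exact ⟨(mem_gens.1 ha).1, (mem_gens.1 ha).2.1⟩

theorem sum_single (X : Finset ι) (f : TI ι → ℝ) :
    ∑ Y ∈ X.powersetCard 4, ∑ a ∈ gens Y, f a =
      ((X.card - 2).choose 2 : ℝ) * ∑ a ∈ gens X, f a := by
  have h1 : ∀ Y ∈ X.powersetCard 4, ∑ a ∈ gens Y, f a =
      ∑ a ∈ gens X, if edge a ⊆ Y then f a else 0 := by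
    intro Y hY
    rw [gens_eq_filter (Finset.mem_powersetCard.1 hY).1, Finset.sum_filter]
  rw [Finset.sum_congr rfl h1, Finset.sum_comm, Finset.mul_sum]
  refine Finset.sum_congr rfl fun a ha => ?_
  rw [← Finset.sum_filter, Finset.sum_const,
    Finset.card_filter_powersetCard_subset _ _ _ (edge_subset ha) (by rw [edge_card ha]; norm_num),
    edge_card ha, nsmul_eq_mul]

theorem sum_pair (X : Finset ι) (f : TI ι → TI ι → ℝ) :
    ∑ Y ∈ X.powersetCard 4, ∑ a ∈ gens Y, ∑ c ∈ gens Y, f a c =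
      ∑ a ∈ gens X, ∑ c ∈ gens X,
        ((X.card - (edge a ∪ edge c).card).choose (4 - (edge a ∪ edge c).card) : ℝ) * f a c := by
  have h1 : ∀ Y ∈ X.powersetCard 4, ∑ a ∈ gens Y, ∑ c ∈ gens Y, f a c =
      ∑ a ∈ gens X, ∑ c ∈ gens X, if edge a ∪ edge c ⊆ Y then f a c else 0 := by
    intro Y hY
    rw [gens_eq_filter (Finset.mem_powersetCard.1 hY).1, Finset.sum_filter]
    refine Finset.sum_congr rfl fun a _ => ?_
    rw [Finset.sum_filter]
    by_cases h : edge a ⊆ Y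
    · simp [h, Finset.union_subset_iff]
    · simp [h, Finset.union_subset_iff]
  rw [Finset.sum_congr rfl h1, Finset.sum_comm]
  refine Finset.sum_congr rfl fun a ha => ?_
  rw [Finset.sum_comm]
  refine Finset.sum_congr rfl fun c hc => ?_
  have hle : (edge a ∪ edge c).card ≤ 4 := by
    have := Finset.card_union_le (edge a) (edge c)
    rw [edge_card ha, edge_card hc] at this
    exact this
  rw [← Finset.sum_filter, Finset.sum_const,
    Finset.card_filter_powersetCard_subset _ _ _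
      (Finset.union_subset (edge_subset ha) (edge_subset hc)) hle, nsmul_eq_mul]

omit [DecidableEq ι] in
theorem fibre_nonneg {A B : Type} [DecidableEq B] (s : Finset A) (φ : A → B) (v : A → V) :
    0 ≤ ∑ a ∈ s, ∑ c ∈ s, if φ a = φ c then ⟪v a, v c⟫_ℝ else 0 := by
  have h : ∑ a ∈ s, ∑ c ∈ s, (if φ a = φ c then ⟪v a, v c⟫_ℝ else 0) =
      ∑ E ∈ s.image φ, ⟪∑ a ∈ s with φ a = E, v a, ∑ c ∈ s with φ c = E, v c⟫_ℝ := by
    simp only [sum_inner, inner_sum]
    rw [← Finset.sum_fiberwise_of_maps_to (s := s) (t := s.image φ) (g := φ)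
      (fun a ha => Finset.mem_image_of_mem φ ha)]
    refine Finset.sum_congr rfl fun E _ => ?_
    refine Eq.trans ?_ Finset.sum_comm
    refine Finset.sum_congr rfl fun a ha => ?_
    rw [Finset.sum_filter, (Finset.mem_filter.1 ha).2]
    refine Finset.sum_congr rfl fun c _ => ?_
    by_cases hc : φ c = E
    · simp [hc]
    · simp [hc, Ne.symm hc]
  rw [h]
  exact Finset.sum_nonneg fun E _ => real_inner_self_nonneg

omit [DecidableEq ι] in
theorem comm_nonneg {G : Type} [Group G] {b : G → V} (hb : IsCoc b) {s t : G}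
    (h : Commute s t) : 0 ≤ ⟪b s, b t⟫_ℝ + ⟪b s⁻¹, b t⟫_ℝ := by
  have hinv : ∀ g, ‖b g⁻¹‖ = ‖b g‖ := fun g => by
    have := hb.2 g 1
    rw [hb.1, sub_zero, mul_one] at this
    exact this.symm
  have e1 : ‖b s⁻¹ - b t‖ = ‖b (s * t)‖ := by rw [hb.2, inv_inv]
  have e2 : ‖b s - b (s * t)‖ = ‖b t‖ := by rw [hb.2, inv_mul_cancel_left]
  have e3 : ‖b t - b (s * t)‖ = ‖b s‖ := by rw [hb.2, h.eq, inv_mul_cancel_left]
  have f1 := norm_sub_sq_real (b s⁻¹) (b t)
  have f2 := norm_sub_sq_real (b s) (b (s * t))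
  have f3 := norm_sub_sq_real (b t) (b (s * t))
  have f4 := norm_sub_sq_real (b s + b t) (b (s * t))
  have f5 := norm_add_sq_real (b s) (b t)
  rw [e1, hinv] at f1
  rw [e2] at f2
  rw [e3] at f3
  rw [inner_add_left] at f4
  have := sq_nonneg ‖b s + b t - b (s * t)‖
  linarith

/-- Sign change of an index. -/
def flip (a : TI ι) : TI ι := (a.1, a.2.1, a.2.2.1, !a.2.2.2)

theorem op_nonneg (X : Finset ι) (b : AutF ι → V) (hb : IsCoc b) :
    0 ≤ ∑ a ∈ gens X, ∑ c ∈ gens X,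
      if (edge a ∩ edge c).card = 0 then ⟪b (tvi a), b (tvi c)⟫_ℝ else 0 := by
  have hfl : ∀ a : TI ι, flip (flip a) = a := fun a => by simp [flip]
  have h1 : ∑ a ∈ gens X, ∑ c ∈ gens X,
      (if (edge a ∩ edge c).card = 0 then ⟪b (tvi a), b (tvi c)⟫_ℝ else 0) =
      ∑ a ∈ gens X, ∑ c ∈ gens X,
      (if (edge a ∩ edge c).card = 0 then ⟪b (tvi a)⁻¹, b (tvi c)⟫_ℝ else 0) := by
    have hm : ∀ a ∈ gens X, flip a ∈ gens X := fun a ha =>
      mem_gens.2 (mem_gens.1 ha : a.1 ∈ X ∧ a.2.1 ∈ X ∧ a.1 ≠ a.2.1)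
    refine Finset.sum_nbij' flip flip hm hm (fun a _ => hfl a) (fun a _ => hfl a) fun a _ => ?_
    have : (tvi (flip a))⁻¹ = tvi a := by
      simp [tvi, flip, tv_inv]
    rw [this]
    rfl
  have h2 : 0 ≤ ∑ a ∈ gens X, ∑ c ∈ gens X,
      ((if (edge a ∩ edge c).card = 0 then ⟪b (tvi a), b (tvi c)⟫_ℝ else 0) +
      (if (edge a ∩ edge c).card = 0 then ⟪b (tvi a)⁻¹, b (tvi c)⟫_ℝ else 0)) := by
    refine Finset.sum_nonneg fun a _ => Finset.sum_nonneg fun c _ => ?_
    by_cases h : (edge a ∩ edge c).card = 0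
    · rw [if_pos h, if_pos h]
      refine comm_nonneg hb (H_commute (X := edge a) (Y := edge c) ?_ ?_ ?_)
      · exact Finset.disjoint_iff_inter_eq_empty.2 (Finset.card_eq_zero.1 h)
      · exact tv_mem_H (by simp [edge]) (by simp [edge]) _ _
      · exact tv_mem_H (by simp [edge]) (by simp [edge]) _ _
    · rw [if_neg h, if_neg h]; simp
  simp only [Finset.sum_add_distrib] at h2
  linarith

end TnAux

open TnAux in
theorem Tn (X : Finset ι) (hX : 303 ≤ X.card) (b : AutF ι → V) (hb : IsCoc b) :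
    ((X.card : ℝ) - 2) / 40 * ∑ a ∈ gens X, ‖b (tvi a)‖ ^ 2 ≤ ‖∑ a ∈ gens X, b (tvi a)‖ ^ 2 := by
  have h0 := Finset.sum_le_sum fun Y (hY : Y ∈ X.powersetCard 4) =>
    T4_sub Y (Finset.mem_powersetCard.1 hY).2 b hb
  rw [← Finset.mul_sum, sum_single, sum_pair] at h0
  obtain ⟨m, hm⟩ : ∃ m, X.card = m + 3 := ⟨X.card - 3, by omega⟩
  have hm' : (300 : ℝ) ≤ m := by exact_mod_cast (by omega : 300 ≤ m)
  have hch : ((X.card - 2).choose 2 : ℝ) = ((m : ℝ) + 1) * m / 2 := by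
    rw [hm, show m + 3 - 2 = m + 1 by omega, Nat.cast_choose_two]
    push_cast; ring
  set Adj : ℝ := ∑ a ∈ gens X, ∑ c ∈ gens X,
      if (edge a ∩ edge c).card = 1 then ⟪b (tvi a), b (tvi c)⟫_ℝ else 0 with hAdj
  set Op : ℝ := ∑ a ∈ gens X, ∑ c ∈ gens X,
      if (edge a ∩ edge c).card = 0 then ⟪b (tvi a), b (tvi c)⟫_ℝ else 0 with hOp
  set Eq' : ℝ := ∑ a ∈ gens X, ∑ c ∈ gens X,
      if edge a = edge c then ⟪b (tvi a), b (tvi c)⟫_ℝ else 0 with hEq
  have hOp0 : 0 ≤ Op := op_nonneg X b hb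
  have hEq0 : 0 ≤ Eq' := fibre_nonneg (gens X) edge fun a => b (tvi a)
  have hcases : ∀ a ∈ gens X, ∀ c ∈ gens X,
      ((edge a ∩ edge c).card = 0 ∧ (edge a ∪ edge c).card = 4 ∧ edge a ≠ edge c) ∨
      ((edge a ∩ edge c).card = 1 ∧ (edge a ∪ edge c).card = 3 ∧ edge a ≠ edge c) ∨
      ((edge a ∩ edge c).card = 2 ∧ edge a = edge c) := by
    intro a ha c hc
    have e1 := Finset.card_union_add_card_inter (edge a) (edge c)
    rw [edge_card ha, edge_card hc] at e1
    have e2 : (edge a ∩ edge c).card ≤ 2 :=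
      (Finset.card_le_card Finset.inter_subset_left).trans (edge_card ha).le
    have e3 : edge a = edge c → (edge a ∩ edge c).card = 2 := fun h => by
      rw [← h, Finset.inter_self, edge_card ha]
    have e4 : (edge a ∩ edge c).card = 2 → edge a = edge c := fun h => by
      have k1 : edge a ∩ edge c = edge a :=
        Finset.eq_of_subset_of_card_le Finset.inter_subset_left (by rw [h, edge_card ha])
      have k2 : edge a ∩ edge c = edge c :=
        Finset.eq_of_subset_of_card_le Finset.inter_subset_right (by rw [h, edge_card hc])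
      rw [← k1, k2]
    rcases (by omega : (edge a ∩ edge c).card = 0 ∨ (edge a ∩ edge c).card = 1 ∨
      (edge a ∩ edge c).card = 2) with h | h | h
    · exact Or.inl ⟨h, by omega, fun k => by have := e3 k; omega⟩
    · exact Or.inr (Or.inl ⟨h, by omega, fun k => by have := e3 k; omega⟩)
    · exact Or.inr (Or.inr ⟨h, e4 h⟩)
  have h1 : ∑ a ∈ gens X, ∑ c ∈ gens X,
        ((X.card - (edge a ∪ edge c).card).choose (4 - (edge a ∪ edge c).card) : ℝ) *
          (wt a c * ⟪b (tvi a), b (tvi c)⟫_ℝ) = m * Adj + 300 * Op := by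
    rw [hAdj, hOp, Finset.mul_sum, Finset.mul_sum, ← Finset.sum_add_distrib]
    refine Finset.sum_congr rfl fun a ha => ?_
    rw [Finset.mul_sum, Finset.mul_sum, ← Finset.sum_add_distrib]
    refine Finset.sum_congr rfl fun c hc => ?_
    rcases hcases a ha c hc with ⟨k1, k2, -⟩ | ⟨k1, k2, -⟩ | ⟨k1, -⟩
    · simp [wt, k1, k2]
    · simp [wt, k1, k2, hm]
    · simp [wt, k1]
  have h2 : ‖∑ a ∈ gens X, b (tvi a)‖ ^ 2 = Adj + Op + Eq' := by
    rw [← real_inner_self_eq_norm_sq, sum_inner, hAdj, hOp, hEq, ← Finset.sum_add_distrib,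
      ← Finset.sum_add_distrib]
    refine Finset.sum_congr rfl fun a ha => ?_
    rw [inner_sum, ← Finset.sum_add_distrib, ← Finset.sum_add_distrib]
    refine Finset.sum_congr rfl fun c hc => ?_
    rcases hcases a ha c hc with ⟨k1, -, k3⟩ | ⟨k1, -, k3⟩ | ⟨k1, k3⟩
    · rw [if_neg (by omega), if_pos k1, if_neg k3]; ring
    · rw [if_pos k1, if_neg (by omega), if_neg k3]; ring
    · rw [if_neg (by omega), if_neg (by omega), if_pos k3]; ring
  rw [h1, hch] at h0
  rw [h2, hm]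
  push_cast
  set S : ℝ := ∑ a ∈ gens X, ‖b (tvi a)‖ ^ 2
  have hmpos : (0 : ℝ) < m := by linarith
  have h3 : m * ((m + 1) / 40 * S) ≤ m * (Adj + Op) := by nlinarith
  have h4 := le_of_mul_le_mul_left h3 hmpos
  have e : ((m : ℝ) + 3 - 2) / 40 * S = (m + 1) / 40 * S := by ring
  rw [e]
  linarith

end Pool.Agent.P.MP_2d26dd_al
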