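import Pool.Agent.P.MP_2d26dd_al.X2p

/-! Random paths: concatenation, reversal, and a criterion for privacy. -/

namespace Pool.Agent.P.MP_2d26dd_al

open FreeGroup

variable {ι : Type} [DecidableEq ι]

theorem Step.symm {y y' : AutF ι} (h : Step y y') : Step y' y := by
  rcases h with h | ⟨μ, h⟩
  · exact Or.inl h.symm
  · rcases μ with ⟨i, j, d, s⟩ | t
    · refine Or.inr ⟨Sum.inl (i, j, d, !s), ?_⟩
      rw [h]
      show y = y * tv i j d s * tv i j d (!s)
      rw [← tv_inv, mul_inv_cancel_right]
    · refine Or.inr ⟨Sum.inr t, ?_⟩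
      rw [h]
      show y = y * inv t * inv t
      rw [mul_assoc, inv_mul_inv, mul_one]

open Classical in
/-- Two independent samples are complementary with high probability. -/
def Free {S : Type} [Fintype S] (y : S → AutF ι) (R : ℕ) (η : ℝ) : Prop :=
  ∀ B : Finset ι, B.card = R →
    (((Finset.univ : Finset (S × S)).filter
      fun s => ¬ Disj B (y s.1) (y s.2)).card : ℝ) ≤ η * (Fintype.card S : ℝ) ^ 2

/-- Two random bases are joined by a random path. -/
def Conn {S : Type} [Fintype S] (R : ℕ) (η : ℝ) (L : ℕ) (y y' : S → AutF ι) : Prop :=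
  ∃ path : S → ℕ → AutF ι, (∀ s, path s 0 = y s) ∧ (∀ s, path s L = y' s) ∧
    (∀ s l, Step (path s l) (path s (l + 1))) ∧ ∀ l, Free (fun s => path s l) R η

section Conn

variable {S : Type} [Fintype S] {R : ℕ} {η : ℝ}

omit [DecidableEq ι] in
theorem Free.comp {S' : Type} [Fintype S'] (E : S' ≃ S) {y : S → AutF ι} (h : Free y R η) :
    Free (fun s => y (E s)) R η := by
  classical
  intro B hB
  have := h B hB
  rw [Fintype.card_congr E]
  refine le_trans (le_of_eq ?_) this
  congr 1
  refine Finset.card_equiv (E.prodCongr E) fun s => ?_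
  simp

theorem Conn.comp {S' : Type} [Fintype S'] (E : S' ≃ S) {L : ℕ} {y y' : S → AutF ι}
    (h : Conn R η L y y') : Conn R η L (fun s => y (E s)) fun s => y' (E s) := by
  obtain ⟨p, h0, h1, h2, h3⟩ := h
  exact ⟨fun s => p (E s), fun s => h0 _, fun s => h1 _, fun s => h2 _, fun l => (h3 l).comp E⟩

theorem Conn.trans {L L' : ℕ} {y y' y'' : S → AutF ι} (h : Conn R η L y y')
    (h' : Conn R η L' y' y'') : Conn R η (L + L') y y'' := by
  obtain ⟨p, h0, h1, h2, h3⟩ := h
  obtain ⟨q, k0, k1, k2, k3⟩ := h'
  refine ⟨fun s l => if l ≤ L then p s l else q s (l - L), fun s => by simp [h0], fun s => ?_,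
    fun s l => ?_, fun l => ?_⟩
  · by_cases hL : L' = 0
    · subst hL
      simp [h1, ← k0, ← k1]
    · have : ¬ L + L' ≤ L := by omega
      simp [this, k1]
  · by_cases h4 : l + 1 ≤ L
    · have : l ≤ L := by omega
      simpa [h4, this] using h2 s l
    · by_cases h5 : l ≤ L
      · obtain rfl : l = L := by omega
        have := k2 s 0
        rw [k0, ← h1] at this
        simpa using this
      · have e : l + 1 - L = l - L + 1 := by omega
        simpa [h4, h5, e] using k2 s (l - L)
  · by_cases h4 : l ≤ L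
    · simpa [h4] using h3 l
    · simpa [h4] using k3 (l - L)

theorem Conn.mono {L L' : ℕ} {y y' : S → AutF ι} (h : Conn R η L y y') (hL : L ≤ L') :
    Conn R η L' y y' := by
  obtain ⟨p, h0, h1, h2, h3⟩ := h
  refine ⟨fun s l => p s (min l L), fun s => by simp [h0], fun s => by simp [hL, h1],
    fun s l => ?_, fun l => h3 _⟩
  by_cases h4 : l + 1 ≤ L
  · have : l ≤ L := by omega
    simpa [h4, this] using h2 s l
  · have h5 : L ≤ l := by omega
    have h6 : L ≤ l + 1 := by omega
    exact Or.inl (by simp [h5, h6])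

theorem Conn.symm {L : ℕ} {y y' : S → AutF ι} (h : Conn R η L y y') : Conn R η L y' y := by
  obtain ⟨p, h0, h1, h2, h3⟩ := h
  refine ⟨fun s l => p s (L - l), fun s => by simp [h1], fun s => by simp [h0],
    fun s l => ?_, fun l => h3 _⟩
  by_cases h4 : l + 1 ≤ L
  · have e : L - l = L - (l + 1) + 1 := by omega
    show Step (p s (L - l)) (p s (L - (l + 1)))
    rw [e]
    exact (h2 s _).symm
  · have e : L - (l + 1) = L - l := by omega
    exact Or.inl (by simp only [e])

theorem Conn.single {y y' : S → AutF ι} (h : Free y R η) (h' : Free y' R η)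
    (hs : ∀ s, Step (y s) (y' s)) : Conn R η 1 y y' := by
  refine ⟨fun s l => if l = 0 then y s else y' s, fun s => by simp, fun s => by simp,
    fun s l => ?_, fun l => ?_⟩
  · by_cases h0 : l = 0
    · simpa [h0] using hs s
    · exact Or.inl (by simp [h0])
  · by_cases h0 : l = 0
    · simpa [h0] using h
    · simpa [h0] using h'

theorem Conn.refl {y : S → AutF ι} (h : Free y R η) : Conn R η 0 y y :=
  ⟨fun s _ => y s, fun _ => rfl, fun _ => rfl, fun _ _ => Or.inl rfl, fun _ => h⟩

theorem conn_left (a : ι) (y : S → AutF ι) (U V : S → List (ι × Bool)) {K : ℕ}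
    (hK : ∀ s, (U s).length ≤ K)
    (hf : ∀ k, Free (fun s => y s * rep a (mk ((U s).drop k)) (mk (V s))) R η) :
    Conn R η K (fun s => y s * rep a (mk (U s)) (mk (V s)))
      fun s => y s * rep a (mk []) (mk (V s)) := by
  refine ⟨fun s k => y s * rep a (mk ((U s).drop k)) (mk (V s)), fun s => by simp,
    fun s => by simp only [List.drop_eq_nil_of_le (hK s)], fun s k => ?_, hf⟩
  by_cases h : k < (U s).length
  · refine Step.symm (Or.inr ⟨Sum.inl (a, ((U s)[k]).1, false, ((U s)[k]).2), ?_⟩)
    show y s * rep a (mk ((U s).drop k)) (mk (V s)) =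
      y s * rep a (mk ((U s).drop (k + 1))) (mk (V s)) * rep a (lt _ _) 1
    rw [mul_assoc, rep_mul, mul_one, lt, mul_mk, List.drop_eq_getElem_cons h]
    rfl
  · refine Or.inl ?_
    show y s * rep a (mk ((U s).drop (k + 1))) (mk (V s)) = y s * rep a (mk ((U s).drop k)) (mk (V s))
    rw [List.drop_eq_nil_of_le (by omega), List.drop_eq_nil_of_le (by omega)]

theorem conn_right (a : ι) (y : S → AutF ι) (U V W : S → List (ι × Bool)) {K : ℕ}
    (hK : ∀ s, (W s).length ≤ K)
    (hf : ∀ k, Free (fun s => y s * rep a (mk (U s)) (mk (V s ++ (W s).take k))) R η) :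
    Conn R η K (fun s => y s * rep a (mk (U s)) (mk (V s)))
      fun s => y s * rep a (mk (U s)) (mk (V s ++ W s)) := by
  refine ⟨fun s k => y s * rep a (mk (U s)) (mk (V s ++ (W s).take k)), fun s => by simp,
    fun s => by simp only [List.take_of_length_le (hK s)], fun s k => ?_, hf⟩
  by_cases h : k < (W s).length
  · refine Or.inr ⟨Sum.inl (a, ((W s)[k]).1, true, ((W s)[k]).2), ?_⟩
    show _ = y s * rep a (mk (U s)) (mk (V s ++ (W s).take k)) * rep a 1 (lt _ _)
    rw [mul_assoc, rep_mul, one_mul, lt, mul_mk, List.append_assoc, ← List.take_succ_eq_append_getElem h]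
  · refine Or.inl ?_
    show y s * rep a (mk (U s)) (mk (V s ++ (W s).take (k + 1))) =
      y s * rep a (mk (U s)) (mk (V s ++ (W s).take k))
    rw [List.take_of_length_le (by omega), List.take_of_length_le (by omega)]

end Conn

section Own

variable {Pad : Type} [DecidableEq Pad] {m : ℕ}

/-- Independence of one pad. -/
def Ind {α : Type} (p : Pad) (v : (Pad → Fin 8 → Fin m) → α) : Prop :=
  ∀ ω f, v (Function.update ω p f) = v ω

/-- A letter of the pad occurs once, unless it occurs whatever the pad is. -/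
def Own (pl : Fin 6 → Fin 8 → Fin m → ι) (p : Pad) (c : Fin 6)
    (w : (Pad → Fin 8 → Fin m) → List (ι × Bool)) : Prop :=
  ∀ ω t, ((w ω).map Prod.fst).count (pl c t (ω p t)) = 1 ∨
    ∀ f, pl c t (ω p t) ∈ (w (Function.update ω p f)).map Prod.fst

variable {pl : Fin 6 → Fin 8 → Fin m → ι} {p : Pad} {c : Fin 6}
  {w v : (Pad → Fin 8 → Fin m) → List (ι × Bool)}

theorem Own.right (h : Own pl p c w) (hv : Ind p v) : Own pl p c fun ω => w ω ++ v ω := by
  intro ω t
  by_cases h1 : pl c t (ω p t) ∈ (v ω).map Prod.fst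
  · exact Or.inr fun f => by
      simp only [List.map_append, List.mem_append, hv ω f]
      exact Or.inr h1
  · rcases h ω t with h2 | h2
    · exact Or.inl (by
        simp only [List.map_append, List.count_append, h2, List.count_eq_zero_of_not_mem h1])
    · exact Or.inr fun f => by
        simp only [List.map_append, List.mem_append]
        exact Or.inl (h2 f)

theorem Own.perm (h : Own pl p c w)
    (hv : ∀ ω, ((v ω).map Prod.fst).Perm ((w ω).map Prod.fst)) : Own pl p c v := by
  intro ω t
  rcases h ω t with h2 | h2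
  · exact Or.inl (by rw [(hv ω).count_eq, h2])
  · exact Or.inr fun f => (hv _).mem_iff.2 (h2 f)

theorem Own.left (h : Own pl p c w) (hv : Ind p v) : Own pl p c fun ω => v ω ++ w ω :=
  (h.right hv).perm fun _ => List.perm_append_comm.map _

omit [DecidableEq ι] in
theorem map_fst_invRev (l : List (ι × Bool)) :
    (invRev l).map Prod.fst = (l.map Prod.fst).reverse := by
  simp [invRev, List.map_reverse, Function.comp_def]

theorem Own.invRev (h : Own pl p c w) : Own pl p c fun ω => invRev (w ω) :=
  h.perm fun ω => by rw [map_fst_invRev]; exact List.reverse_perm _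

theorem priv_of [Fintype ι] {M : ℕ} {y : (Pad → Fin 8 → Fin m) → AutF ι}
    (w : (Pad → Fin 8 → Fin m) → ι → List (ι × Bool)) (lv : ι → ℕ) (pd : ι → Pad)
    (cl : ι → Fin 6) (word : ∀ ω e, y ω (of e) = mk (w ω e)) (len : ∀ ω e, (w ω e).length ≤ M)
    (other : ∀ e e', e ≠ e' → lv e ≤ lv e' → Ind (pd e) fun ω => w ω e')
    (own : ∀ e, Own pl (pd e) (cl e) fun ω => w ω e) : Nonempty (Priv pl M y) := by
  classical
  refine ⟨⟨w, lv, pd, cl, fun ω e e' => Finset.univ.filter fun x =>
    ∀ f, x ∈ (w (Function.update ω (pd e) f) e').map Prod.fst, word, len, fun ω e e' => ?_,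
    fun ω e e' f => ?_, fun ω e e' t h1 h2 h3 => ?_, fun ω e t h => ?_⟩⟩
  · refine le_trans (Finset.card_le_card (t := ((w ω e').map Prod.fst).toFinset) fun x hx => ?_)
      ((List.toFinset_card_le _).trans (by simpa using len ω e'))
    have := (Finset.mem_filter.1 hx).2 (ω (pd e))
    rw [Function.update_eq_self] at this
    exact List.mem_toFinset.2 this
  · simp only [Function.update_idem]
  · refine Finset.mem_filter.2 ⟨Finset.mem_univ _, fun f => ?_⟩
    have := other e e' h1 h2 ω f
    simp only at this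
    rw [this]
    exact h3
  · rcases own e ω t with h1 | h1
    · exact h1
    · exact absurd (Finset.mem_filter.2 ⟨Finset.mem_univ _, h1⟩) h

theorem count_flat {l : List ι} (hl : l.Nodup) {x : ι} (hx : x ∈ l) (T : ι → List (ι × Bool))
    (hT : ∀ f ∈ l, x ∉ (T f).map Prod.fst) :
    ((l.flatMap fun f => (f, true) :: T f).map Prod.fst).count x = 1 := by
  have key : ∀ l : List ι, (∀ f ∈ l, x ∉ (T f).map Prod.fst) →
      ((l.flatMap fun f => (f, true) :: T f).map Prod.fst).count x = l.count x := by
    intro l hT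
    induction l with
    | nil => simp
    | cons f l ih =>
      have h1 := List.count_eq_zero_of_not_mem (hT f (by simp))
      have h2 := ih fun g hg => hT g (by simp [hg])
      rw [List.flatMap_cons, List.map_append, List.count_append, h2, List.map_cons,
        List.count_cons, h1, List.count_cons]
      simp only
      omega
  rw [key l hT]
  exact List.count_eq_one_of_mem hl hx

end Own

end Pool.Agent.P.MP_2d26dd_al
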