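import Pool.Agent.P.MP_2d26dd_al.X2h1

/-! Padded letters. -/

namespace Pool.Agent.P.MP_2d26dd_al

open FreeGroup hiding map_mul map_one map_inv

variable {ι : Type} [DecidableEq ι] {m : ℕ} (pl : Fin 6 → Fin 8 → Fin m → ι)

/-- The letter `e` has class `c`. -/
def InC (c : Fin 6) (e : ι) : Prop := ∃ t k, pl c t k = e

/-- Joint injectivity. -/
def JInj : Prop := ∀ c t k c' t' k', pl c t k = pl c' t' k' → c = c' ∧ t = t' ∧ k = k'

/-- First class of a padding. -/
def ca (κ : Bool) : Fin 6 := if κ then 2 else 0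

/-- Second class of a padding. -/
def cb (κ : Bool) : Fin 6 := if κ then 3 else 1

/-- The letters chosen by a pad. -/
def ch (c : Fin 6) (f : Fin 8 → Fin m) : List ι := List.ofFn fun t => pl c t (f t)

/-- The positive word on the letters chosen by a pad. -/
def pw (c : Fin 6) (f : Fin 8 → Fin m) : List (ι × Bool) := (ch pl c f).flatMap fun e => [(e, true)]

/-- A letter followed by its pad. -/
def xv (κ : Bool) (ω : ι → Fin 8 → Fin m) (e : ι) : List (ι × Bool) :=
  (e, true) :: pw pl (ca κ) (ω e)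

open Classical in
/-- The pad of a letter. -/
noncomputable def tl (κ : Bool) (ω : ι → Fin 8 → Fin m) (e : ι) : List (ι × Bool) :=
  if InC pl (ca κ) e then (ch pl (cb κ) (ω e)).flatMap (xv pl κ ω) else pw pl (ca κ) (ω e)

/-- The padded letter. -/
noncomputable def val (κ : Bool) (ω : ι → Fin 8 → Fin m) (e : ι) : List (ι × Bool) :=
  (e, true) :: tl pl κ ω e

open Classical in
/-- The class of the private letters of a padded letter. -/
noncomputable def oc (κ : Bool) (e : ι) : Fin 6 := if InC pl (ca κ) e then cb κ else ca κ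

variable {pl}

omit [DecidableEq ι] in
theorem InC.eq (h : JInj pl) {c c' : Fin 6} {e : ι} (h1 : InC pl c e) (h2 : InC pl c' e) :
    c = c' := by
  obtain ⟨t, k, e1⟩ := h1
  obtain ⟨t', k', e2⟩ := h2
  exact (h _ _ _ _ _ _ (e1.trans e2.symm)).1

theorem ca_ne_cb (κ κ' : Bool) : ca κ ≠ cb κ' := by cases κ <;> cases κ' <;> decide

omit [DecidableEq ι] in
theorem inC_of_mem_ch {c : Fin 6} {f : Fin 8 → Fin m} {e : ι} (h : e ∈ ch pl c f) : InC pl c e := by
  obtain ⟨t, ht⟩ := List.mem_ofFn.1 h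
  exact ⟨t, _, ht⟩

omit [DecidableEq ι] in
theorem length_ch (c : Fin 6) (f : Fin 8 → Fin m) : (ch pl c f).length = 8 := by simp [ch]

omit [DecidableEq ι] in
theorem nodup_ch (h : JInj pl) (c : Fin 6) (f : Fin 8 → Fin m) : (ch pl c f).Nodup :=
  List.nodup_ofFn.2 fun _ _ e => (h _ _ _ _ _ _ e).2.1

omit [DecidableEq ι] in
theorem mem_ch (c : Fin 6) (f : Fin 8 → Fin m) (t : Fin 8) : pl c t (f t) ∈ ch pl c f :=
  List.mem_ofFn.2 ⟨t, rfl⟩

omit [DecidableEq ι] in
theorem map_fst_pw (c : Fin 6) (f : Fin 8 → Fin m) : (pw pl c f).map Prod.fst = ch pl c f := by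
  rw [pw]
  induction ch pl c f with
  | nil => rfl
  | cons a l ih => simp [ih]

omit [DecidableEq ι] in
theorem length_pw (c : Fin 6) (f : Fin 8 → Fin m) : (pw pl c f).length = 8 := by
  rw [← length_ch (pl := pl) c f, ← map_fst_pw, List.length_map]

theorem length_flatMap_le {α β : Type} (l : List α) (T : α → List β) {K : ℕ}
    (h : ∀ x ∈ l, (T x).length ≤ K) : (l.flatMap T).length ≤ l.length * K := by
  induction l with
  | nil => simp
  | cons a l ih =>
    have h1 := h a (by simp)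
    have h2 := ih fun x hx => h x (by simp [hx])
    rw [List.flatMap_cons, List.length_append, List.length_cons, Nat.succ_mul]
    omega

omit [DecidableEq ι] in
theorem length_tl (κ : Bool) (ω : ι → Fin 8 → Fin m) (e : ι) : (tl pl κ ω e).length ≤ 72 := by
  unfold tl
  split_ifs
  · have := length_flatMap_le (ch pl (cb κ) (ω e)) (xv pl κ ω) (K := 9)
      fun x _ => by simp [xv, length_pw]
    rwa [length_ch] at this
  · simp [length_pw]

omit [DecidableEq ι] in
theorem length_val (κ : Bool) (ω : ι → Fin 8 → Fin m) (e : ι) : (val pl κ ω e).length ≤ 73 := by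
  have := length_tl (pl := pl) κ ω e
  rw [val, List.length_cons]
  omega

omit [DecidableEq ι] in
theorem val_of_not {κ : Bool} {e : ι} (h : ¬ InC pl (ca κ) e) (ω : ι → Fin 8 → Fin m) :
    val pl κ ω e = xv pl κ ω e := by simp [val, tl, xv, h]

omit [DecidableEq ι] in
theorem class_tl {κ : Bool} {ω : ι → Fin 8 → Fin m} {e x : ι}
    (h : x ∈ (tl pl κ ω e).map Prod.fst) : InC pl (ca κ) x ∨ InC pl (cb κ) x := by
  unfold tl at h
  split_ifs at h
  · rw [List.map_flatMap, List.mem_flatMap] at h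
    obtain ⟨f, hf, hx⟩ := h
    rw [xv, List.map_cons, List.mem_cons, map_fst_pw] at hx
    rcases hx with rfl | hx
    · exact Or.inr (inC_of_mem_ch hf)
    · exact Or.inl (inC_of_mem_ch hx)
  · rw [map_fst_pw] at h
    exact Or.inl (inC_of_mem_ch h)

theorem tl_update {κ : Bool} {a e : ι} (h : e ≠ a) (h' : InC pl (ca κ) e → ¬ InC pl (cb κ) a)
    (ω : ι → Fin 8 → Fin m) (f : Fin 8 → Fin m) :
    tl pl κ (Function.update ω a f) e = tl pl κ ω e := by
  unfold tl
  rw [Function.update_of_ne h]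
  split_ifs with h1
  · refine List.flatMap_congr fun x hx => ?_
    have : x ≠ a := fun h2 => h' h1 (h2 ▸ inC_of_mem_ch hx)
    rw [xv, xv, Function.update_of_ne this]
  · rfl

theorem count_tl (h : JInj pl) (κ : Bool) (ω : ι → Fin 8 → Fin m) (e : ι) (t : Fin 8) :
    ((tl pl κ ω e).map Prod.fst).count (pl (oc pl κ e) t (ω e t)) = 1 := by
  unfold tl oc
  split_ifs
  · refine count_flat (nodup_ch h _ _) (mem_ch _ _ _) (fun f => pw pl (ca κ) (ω f)) fun f _ hx => ?_
    rw [map_fst_pw] at hx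
    exact ca_ne_cb _ _ ((inC_of_mem_ch hx).eq h ⟨_, _, rfl⟩)
  · rw [map_fst_pw]
    exact List.count_eq_one_of_mem (nodup_ch h _ _) (mem_ch _ _ _)

omit [DecidableEq ι] in
theorem map_mk_congr {G : Type} [Group G] {φ ψ : FreeGroup ι →* G} {l : List (ι × Bool)}
    (h : ∀ x ∈ l.map Prod.fst, φ (of x) = ψ (of x)) : φ (mk l) = ψ (mk l) := by
  induction l with
  | nil => rw [← one_eq_mk, map_one, map_one]
  | cons x l ih =>
    have h1 := h x.1 (by simp)
    have h2 := ih fun y hy => h y (List.mem_cons_of_mem _ hy)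
    have e : (mk (x :: l) : FreeGroup ι) = lt x.1 x.2 * mk l := rfl
    rw [e, map_mul, map_mul, h2]
    obtain ⟨j, s⟩ := x
    cases s <;> simp_all [lt_true, lt_false]

omit [DecidableEq ι] in
theorem aut_mk_fix {φ : AutF ι} {l : List (ι × Bool)}
    (h : ∀ x ∈ l.map Prod.fst, φ (of x) = of x) : φ (mk l) = mk l :=
  map_mk_congr (φ := φ.toMonoidHom) (ψ := MonoidHom.id _) h

theorem kill_mk {a : ι} {l : List (ι × Bool)} (h : ∀ x ∈ l, x.1 ≠ a) : kill a (mk l) = mk l :=
  map_mk_congr (φ := kill a) (ψ := MonoidHom.id _) fun x hx => by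
    obtain ⟨y, hy, rfl⟩ := List.mem_map.1 hx
    exact kill_ne (h y hy)

omit [DecidableEq ι] in
theorem mk_cons_true (e : ι) (l : List (ι × Bool)) : mk ((e, true) :: l) = of e * mk l := rfl

omit [DecidableEq ι] in
open Classical in
theorem exists_layer (A : ι → Prop) (T : ι → List (ι × Bool))
    (h : ∀ e, A e → ∀ x ∈ (T e).map Prod.fst, ¬ A x) :
    ∃ z : AutF ι, ∀ e, z (of e) = if A e then of e * mk (T e) else of e := by
  have key : ∀ (u : ι → FreeGroup ι) (e : ι), A e →
      lift (fun e => if A e then of e * u e else of e) (mk (T e)) = mk (T e) := fun u e he =>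
    map_mk_congr (ψ := MonoidHom.id _) fun x hx => by simp [h e he x hx]
  refine ⟨MonoidHom.toMulEquiv (lift fun e => if A e then of e * mk (T e) else of e)
    (lift fun e => if A e then of e * (mk (T e))⁻¹ else of e) ?_ ?_, fun e => by simp⟩
  · ext e
    by_cases he : A e
    · simp only [MonoidHom.comp_apply, lift_apply_of, if_pos he, map_mul, key _ e he,
        MonoidHom.id_apply, inv_mul_cancel_right]
    · simp [he]
  · ext e
    by_cases he : A e
    · simp only [MonoidHom.comp_apply, lift_apply_of, if_pos he, map_mul, map_inv, key _ e he,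
        MonoidHom.id_apply, mul_inv_cancel_right]
    · simp [he]

omit [DecidableEq ι] in
theorem map_mk_flatMap {α : Type} (φ : AutF ι) (l : List α) (T T' : α → List (ι × Bool))
    (h : ∀ x ∈ l, φ (mk (T x)) = mk (T' x)) : φ (mk (l.flatMap T)) = mk (l.flatMap T') := by
  induction l with
  | nil => simp [← one_eq_mk]
  | cons a l ih =>
    rw [List.flatMap_cons, List.flatMap_cons, ← mul_mk, ← mul_mk, map_mul, h a (by simp),
      ih fun x hx => h x (by simp [hx])]

omit [DecidableEq ι] in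
theorem exists_padded (h : JInj pl) (κ : Bool) (ω : ι → Fin 8 → Fin m) :
    ∃ g : AutF ι, ∀ e, g (of e) = mk (val pl κ ω e) := by
  classical
  obtain ⟨z1, h1⟩ := exists_layer (fun e => ¬ InC pl (ca κ) e) (fun e => pw pl (ca κ) (ω e))
    fun e _ x hx => by
      rw [map_fst_pw] at hx
      exact not_not.2 (inC_of_mem_ch hx)
  obtain ⟨z2, h2⟩ := exists_layer (fun e => InC pl (ca κ) e) (fun e => pw pl (cb κ) (ω e))
    fun e _ x hx h3 => by
      rw [map_fst_pw] at hx
      exact ca_ne_cb _ _ (h3.eq h (inC_of_mem_ch hx))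
  refine ⟨z1 * z2, fun e => ?_⟩
  rw [MulAut.mul_apply, h2]
  by_cases he : InC pl (ca κ) e
  · rw [if_pos he, map_mul, h1, if_neg (not_not.2 he), val, mk_cons_true, tl, if_pos he, pw]
    congr 1
    refine map_mk_flatMap _ _ _ _ fun x hx => ?_
    have : ¬ InC pl (ca κ) x := fun h3 => ca_ne_cb _ _ (h3.eq h (inC_of_mem_ch hx))
    show z1 (of x) = _
    rw [h1, if_pos this, xv, mk_cons_true]
  · rw [if_neg he, h1, if_pos he, val_of_not he, xv, mk_cons_true]

/-- `u` is a word of length at most `K` in the letters of the basis `y` other than `a`. -/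
def Exp (y : AutF ι) (a : ι) (K : ℕ) (u : FreeGroup ι) : Prop :=
  ∃ W : List (ι × Bool), W.length ≤ K ∧ (∀ x ∈ W, x.1 ≠ a) ∧ y (mk W) = u

section Exp

omit [DecidableEq ι]

variable {y : AutF ι} {a : ι}

theorem Exp.mono {K K' : ℕ} {u : FreeGroup ι} (h : Exp y a K u) (hK : K ≤ K') : Exp y a K' u := by
  obtain ⟨W, h1, h2⟩ := h
  exact ⟨W, h1.trans hK, h2⟩

theorem Exp.one (K : ℕ) : Exp y a K 1 := ⟨[], by simp, by simp, by rw [← one_eq_mk, map_one]⟩

theorem Exp.mul {K K' : ℕ} {u u' : FreeGroup ι} (h : Exp y a K u) (h' : Exp y a K' u') :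
    Exp y a (K + K') (u * u') := by
  obtain ⟨W, h1, h2, h3⟩ := h
  obtain ⟨W', k1, k2, k3⟩ := h'
  refine ⟨W ++ W', by simpa using Nat.add_le_add h1 k1, fun x hx => ?_, by
    rw [← mul_mk, map_mul, h3, k3]⟩
  rcases List.mem_append.1 hx with hx | hx
  · exact h2 x hx
  · exact k2 x hx

theorem Exp.inv {K : ℕ} {u : FreeGroup ι} (h : Exp y a K u) : Exp y a K u⁻¹ := by
  obtain ⟨W, h1, h2, h3⟩ := h
  refine ⟨invRev W, by simpa using h1, fun x hx => ?_, by rw [← inv_mk, map_inv, h3]⟩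
  have : x.1 ∈ (invRev W).map Prod.fst := List.mem_map_of_mem hx
  rw [map_fst_invRev, List.mem_reverse, List.mem_map] at this
  obtain ⟨z, hz, e⟩ := this
  exact e ▸ h2 z hz

theorem Exp.basis {e : ι} (h : e ≠ a) : Exp y a 1 (y (of e)) :=
  ⟨[(e, true)], by simp, by simpa using h, rfl⟩

theorem Exp.flat {α : Type} {K : ℕ} (l : List α) (T : α → List (ι × Bool))
    (h : ∀ x ∈ l, Exp y a K (mk (T x))) : Exp y a (l.length * K) (mk (l.flatMap T)) := by
  induction l with
  | nil => exact Exp.one _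
  | cons x l ih =>
    rw [List.flatMap_cons, ← mul_mk, List.length_cons, Nat.succ_mul, add_comm]
    exact (h x (by simp)).mul (ih fun z hz => h z (by simp [hz]))

theorem exp_pw {K : ℕ} {c : Fin 6} (h : ∀ z, InC pl c z → Exp y a K (of z)) (f : Fin 8 → Fin m) :
    Exp y a (8 * K) (mk (pw pl c f)) := by
  have := Exp.flat (ch pl c f) (fun e => [(e, true)]) fun z hz => h z (inC_of_mem_ch hz)
  rwa [length_ch] at this

variable {κ : Bool} {ω : ι → Fin 8 → Fin m}

theorem exp_tl_b (hJ : JInj pl)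
    (hb : ∀ e, InC pl (cb κ) e → e ≠ a ∧ y (of e) = mk (val pl κ ω e)) {z : ι}
    (hz : InC pl (ca κ) z) : Exp y a 8 (mk (tl pl κ ω z)) := by
  rw [tl, if_pos hz]
  have := Exp.flat (y := y) (a := a) (K := 1) (ch pl (cb κ) (ω z)) (xv pl κ ω) fun x hx => by
    have h1 := inC_of_mem_ch hx
    rw [← val_of_not fun h3 => ca_ne_cb _ _ (h3.eq hJ h1), ← (hb x h1).2]
    exact Exp.basis (hb x h1).1
  rwa [length_ch] at this

theorem exp_raw {K : ℕ} {z : ι} (h1 : z ≠ a) (h2 : y (of z) = mk (val pl κ ω z))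
    (h3 : Exp y a K (mk (tl pl κ ω z))) : Exp y a (1 + K) (of z) := by
  have : of z = y (of z) * (mk (tl pl κ ω z))⁻¹ := by
    rw [h2, val, mk_cons_true, mul_inv_cancel_right]
  rw [this]
  exact (Exp.basis h1).mul h3.inv

theorem exp_pw_a (hJ : JInj pl)
    (hab : ∀ e, InC pl (ca κ) e ∨ InC pl (cb κ) e → e ≠ a ∧ y (of e) = mk (val pl κ ω e))
    (f : Fin 8 → Fin m) : Exp y a 72 (mk (pw pl (ca κ) f)) :=
  exp_pw (K := 9) (fun z hz => exp_raw (hab z (Or.inl hz)).1 (hab z (Or.inl hz)).2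
    (exp_tl_b hJ (fun e he => hab e (Or.inr he)) hz)) f

theorem exp_tl (hJ : JInj pl)
    (hab : ∀ e, InC pl (ca κ) e ∨ InC pl (cb κ) e → e ≠ a ∧ y (of e) = mk (val pl κ ω e))
    (z : ι) : Exp y a 72 (mk (tl pl κ ω z)) := by
  by_cases hz : InC pl (ca κ) z
  · exact (exp_tl_b hJ (fun e he => hab e (Or.inr he)) hz).mono (by norm_num)
  · rw [tl, if_neg hz]
    exact exp_pw_a hJ hab _

theorem exp_of (hJ : JInj pl)
    (hab : ∀ e, InC pl (ca κ) e ∨ InC pl (cb κ) e → e ≠ a ∧ y (of e) = mk (val pl κ ω e))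
    {z : ι} (h1 : z ≠ a) (h2 : y (of z) = mk (val pl κ ω z)) : Exp y a 73 (of z) :=
  exp_raw (K := 72) h1 h2 (exp_tl hJ hab z)

end Exp

end Pool.Agent.P.MP_2d26dd_al
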