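import Pool.Agent.P.MP_2d26dd_al.X2h2

/-! Changing one padded letter along a random path. -/

namespace Pool.Agent.P.MP_2d26dd_al

open FreeGroup hiding map_mul map_one map_inv

variable {ι : Type} [DecidableEq ι] {m : ℕ} {pl : Fin 6 → Fin 8 → Fin m → ι}

/-- The pads. -/
abbrev Pad (ι : Type) : Type := (Bool × ι) ⊕ Bool

/-- The samples. -/
abbrev Smp (ι : Type) (m : ℕ) : Type := Pad ι → Fin 8 → Fin m

/-- The pads of the letters. -/
def par (ω : Smp ι m) : Bool → ι → Fin 8 → Fin m := fun κ e => ω (Sum.inl (κ, e))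

theorem par_inr (ω : Smp ι m) (b : Bool) (f : Fin 8 → Fin m) :
    par (Function.update ω (Sum.inr b) f) = par ω := by
  funext κ e
  simp [par]

theorem ind_par {α : Type} (b : Bool) (F : (Bool → ι → Fin 8 → Fin m) → α) :
    Ind (Sum.inr b : Pad ι) fun ω : Smp ι m => F (par ω) := fun ω f => by
  simp only [par_inr]

theorem ind_val {κ κ' : Bool} {a e : ι} (h : e ≠ a)
    (h' : κ' = κ → InC pl (ca κ) e → ¬ InC pl (cb κ) a) :
    Ind (Sum.inl (κ', a) : Pad ι) fun ω : Smp ι m => val pl κ (par ω κ) e := by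
  intro ω f
  by_cases hκ : κ' = κ
  · subst hκ
    have : par (Function.update ω (Sum.inl (κ', a)) f) κ' = Function.update (par ω κ') a f := by
      funext x
      by_cases hx : x = a
      · subst hx; simp [par]
      · simp [par, hx]
    simp only [this, val, tl_update h (h' rfl)]
  · have : par (Function.update ω (Sum.inl (κ', a)) f) κ = par ω κ := by
      funext x
      simp [par, Ne.symm hκ]
    simp only [this]

theorem own_tl (hJ : JInj pl) (κ : Bool) (e : ι) :
    Own pl (Sum.inl (κ, e) : Pad ι) (oc pl κ e) fun ω : Smp ι m => tl pl κ (par ω κ) e :=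
  fun ω t => Or.inl (count_tl hJ κ (par ω κ) e t)

theorem own_hd (hJ : JInj pl) (κ : Bool) (e : ι) (hd : List (ι × Bool)) :
    Own pl (Sum.inl (κ, e) : Pad ι) (oc pl κ e) fun ω : Smp ι m => hd ++ tl pl κ (par ω κ) e :=
  (own_tl hJ κ e).left (v := fun _ => hd) fun _ _ => rfl

theorem own_val (hJ : JInj pl) (κ : Bool) (e : ι) :
    Own pl (Sum.inl (κ, e) : Pad ι) (oc pl κ e) fun ω : Smp ι m => val pl κ (par ω κ) e :=
  own_hd hJ κ e [(e, true)]

theorem free_special [Fintype ι] (hm : 0 < m) (hJ : JInj pl) (R : ℕ) (st : ι → Bool) (a : ι)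
    {p : Pad ι} {c : Fin 6} {sw : Smp ι m → List (ι × Bool)} {Y : Smp ι m → AutF ι}
    (hY : ∀ ω e, e ≠ a → Y ω (of e) = mk (val pl (st e) (par ω (st e)) e))
    (hYa : ∀ ω, Y ω (of a) = mk (sw ω)) (len : ∀ ω, (sw ω).length ≤ 10 ^ 6) (ho : Own pl p c sw)
    (hi : ∀ e, e ≠ a → Ind p fun ω : Smp ι m => val pl (st e) (par ω (st e)) e) :
    Free Y R (2 * R * (2 * R * (10 ^ 6 : ℕ) / m) ^ 8) := by
  classical
  obtain ⟨P⟩ := priv_of (pl := pl) (M := 10 ^ 6) (y := Y)
    (fun ω e => if e = a then sw ω else val pl (st e) (par ω (st e)) e)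
    (fun e => if e = a then 0 else if InC pl (ca (st e)) e then 1 else 2)
    (fun e => if e = a then p else Sum.inl (st e, e))
    (fun e => if e = a then c else oc pl (st e) e)
    (fun ω e => by
      by_cases h : e = a
      · rw [if_pos h, h, hYa]
      · rw [if_neg h, hY ω e h])
    (fun ω e => by
      by_cases h : e = a
      · rw [if_pos h]; exact len ω
      · rw [if_neg h]; exact (length_val _ _ _).trans (by norm_num))
    (fun e e' h1 h2 => by
      by_cases h : e = a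
      · have h' : e' ≠ a := fun h3 => h1 (h.trans h3.symm)
        simp only [if_pos h, if_neg h']
        exact hi e' h'
      · have h' : e' ≠ a := by
          intro h3
          simp only [if_neg h, if_pos h3] at h2
          split_ifs at h2 <;> omega
        simp only [if_neg h, if_neg h'] at h2 ⊢
        refine ind_val h1.symm fun h3 h4 h5 => ?_
        have h6 : ¬ InC pl (ca (st e)) e := fun h7 => ca_ne_cb _ _ (h7.eq hJ h5)
        rw [if_neg h6, if_pos h4] at h2
        omega)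
    (fun e => by
      by_cases h : e = a
      · simp only [if_pos h]; exact ho
      · simp only [if_neg h]; exact own_val hJ _ _)
  intro B hB
  have := P.free hm (fun c t k k' h => (hJ _ _ _ _ _ _ h).2.2) B
  rw [hB] at this
  exact this

variable (pl) in
/-- Expansion of a word in the padded letters. -/
noncomputable def ex (st : ι → Bool) (ω : Bool → ι → Fin 8 → Fin m) (U : List (ι × Bool)) :
    List (ι × Bool) :=
  U.flatMap fun x => if x.2 then val pl (st x.1) (ω (st x.1)) x.1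
    else invRev (val pl (st x.1) (ω (st x.1)) x.1)

omit [DecidableEq ι] in
theorem length_ex (st : ι → Bool) (ω : Bool → ι → Fin 8 → Fin m) (U : List (ι × Bool)) :
    (ex pl st ω U).length ≤ U.length * 73 :=
  length_flatMap_le _ _ fun x _ => by
    split_ifs
    · exact length_val _ _ _
    · rw [invRev_length]; exact length_val _ _ _

omit [DecidableEq ι] in
theorem ex_append (st : ι → Bool) (ω : Bool → ι → Fin 8 → Fin m) (U V : List (ι × Bool)) :
    ex pl st ω (U ++ V) = ex pl st ω U ++ ex pl st ω V := List.flatMap_append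

omit [DecidableEq ι] in
theorem mk_ex {st : ι → Bool} {ω : Bool → ι → Fin 8 → Fin m} {a : ι} {y : AutF ι}
    (hy : ∀ e, e ≠ a → y (of e) = mk (val pl (st e) (ω (st e)) e)) {U : List (ι × Bool)}
    (hU : ∀ x ∈ U, x.1 ≠ a) : y (mk U) = mk (ex pl st ω U) := by
  have := map_mk_flatMap y U (fun x => [x]) (fun x => if x.2 then val pl (st x.1) (ω (st x.1)) x.1
    else invRev (val pl (st x.1) (ω (st x.1)) x.1)) fun x hx => by
      obtain ⟨j, s⟩ := x
      cases s
      · show y (of j)⁻¹ = mk (invRev _)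
        rw [map_inv, hy j (hU _ hx), inv_mk]
      · exact hy j (hU _ hx)
  rwa [List.flatMap_singleton'] at this

theorem ind_ex {st : ι → Bool} {a : ι} {p : Pad ι}
    (hi : ∀ e, e ≠ a → Ind p fun ω : Smp ι m => val pl (st e) (par ω (st e)) e)
    {U : Smp ι m → List (ι × Bool)} (hU : Ind p U) (hUa : ∀ ω, ∀ x ∈ U ω, x.1 ≠ a) :
    Ind p fun ω => ex pl st (par ω) (U ω) := by
  intro ω f
  simp only [hU ω f, ex]
  refine List.flatMap_congr fun x hx => ?_
  have := hi x.1 (hUa ω x hx) ω f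
  simp only at this
  rw [this]

theorem own_ex (hJ : JInj pl) (st : ι → Bool) (b : Bool) {c : Fin 6}
    (hc : ∀ κ, c ≠ ca κ ∧ c ≠ cb κ) :
    Own pl (Sum.inr b : Pad ι) c fun ω : Smp ι m => ex pl st (par ω) (pw pl c (ω (Sum.inr b))) := by
  intro ω t
  left
  have e : ex pl st (par ω) (pw pl c (ω (Sum.inr b))) = (ch pl c (ω (Sum.inr b))).flatMap
      fun f => (f, true) :: tl pl (st f) (par ω (st f)) f := by
    simp [ex, pw, List.flatMap_assoc, val]
  simp only [e]
  refine count_flat (nodup_ch hJ _ _) (mem_ch _ _ _) _ fun f _ hx => ?_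
  rcases class_tl hx with h | h
  · exact (hc _).1 (InC.eq hJ ⟨_, _, rfl⟩ h)
  · exact (hc _).2 (InC.eq hJ ⟨_, _, rfl⟩ h)

omit [DecidableEq ι] in
theorem exists_tmp (hJ : JInj pl) (a : ι) :
    ∃ c : Fin 6, (∀ κ, c ≠ ca κ ∧ c ≠ cb κ) ∧ ¬ InC pl c a := by
  by_cases h : InC pl 4 a
  · exact ⟨5, by decide, fun h' => absurd (h.eq hJ h') (by decide)⟩
  · exact ⟨4, by decide, h⟩

theorem macro0 [Fintype ι] (hm : 0 < m) (hJ : JInj pl) (R : ℕ) (st : ι → Bool) (a : ι)
    (y : (Bool → ι → Fin 8 → Fin m) → AutF ι)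
    (old new : (Bool → ι → Fin 8 → Fin m) → List (ι × Bool))
    (hy : ∀ ω e, e ≠ a → y ω (of e) = mk (val pl (st e) (ω (st e)) e))
    (hya : ∀ ω, y ω (of a) = mk (old ω))
    (hst : ∀ e, e ≠ a → InC pl (ca (st e)) e → ¬ InC pl (cb (st e)) a)
    {κ0 κ1 : Bool} {c0 c1 : Fin 6}
    (ho : Own pl (Sum.inl (κ0, a) : Pad ι) c0 fun ω : Smp ι m => old (par ω))
    (hn : Own pl (Sum.inl (κ1, a) : Pad ι) c1 fun ω : Smp ι m => new (par ω))
    (lo : ∀ ω, (old ω).length ≤ 100) (ln : ∀ ω, (new ω).length ≤ 100)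
    (hW : ∀ ω, ∃ u v, Exp (y ω) a 2000 u ∧ Exp (y ω) a 2000 v ∧
      mk (new ω) = u * mk (old ω) * v) :
    ∃ y' : (Bool → ι → Fin 8 → Fin m) → AutF ι,
      (∀ ω e, e ≠ a → y' ω (of e) = mk (val pl (st e) (ω (st e)) e)) ∧
      (∀ ω, y' ω (of a) = mk (new ω)) ∧
      Conn R (2 * R * (2 * R * (10 ^ 6 : ℕ) / m) ^ 8) 4032
        (fun ω : Smp ι m => y (par ω)) fun ω => y' (par ω) := by
  have hW' : ∀ ω, ∃ W1 W2 : List (ι × Bool), W1.length ≤ 2000 ∧ W2.length ≤ 2000 ∧
      (∀ x ∈ W1, x.1 ≠ a) ∧ (∀ x ∈ W2, x.1 ≠ a) ∧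
      mk (new ω) = mk (ex pl st ω W1 ++ old ω ++ ex pl st ω W2) := by
    intro ω
    obtain ⟨u, v, ⟨W1, h1, h2, h3⟩, ⟨W2, k1, k2, k3⟩, h⟩ := hW ω
    refine ⟨W1, W2, h1, k1, h2, k2, ?_⟩
    rw [h, ← h3, ← k3, mk_ex (hy ω) h2, mk_ex (hy ω) k2, mul_mk, mul_mk]
  choose W1 W2 l1 l2 a1 a2 hnew using hW'
  obtain ⟨c, hc, hca⟩ := exists_tmp hJ a
  have hne : ∀ ω (u v : FreeGroup ι) e, e ≠ a →
      (y ω * rep a u v) (of e) = mk (val pl (st e) (ω (st e)) e) := fun ω u v e he => by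
    rw [MulAut.mul_apply, rep_ne he, hy ω e he]
  have hself : ∀ ω (U V : List (ι × Bool)), (∀ x ∈ U, x.1 ≠ a) → (∀ x ∈ V, x.1 ≠ a) →
      (y ω * rep a (mk U) (mk V)) (of a) = mk (ex pl st ω U ++ old ω ++ ex pl st ω V) := by
    intro ω U V hU hV
    rw [MulAut.mul_apply, rep_self, kill_mk hU, kill_mk hV, map_mul, map_mul, hya,
      mk_ex (hy ω) hU, mk_ex (hy ω) hV, mul_mk, mul_mk]
  have hlen : ∀ ω (U V : List (ι × Bool)), U.length ≤ 3000 → V.length ≤ 3000 →
      (ex pl st ω U ++ old ω ++ ex pl st ω V).length ≤ 10 ^ 6 := by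
    intro ω U V hU hV
    have h1 := length_ex (pl := pl) st ω U
    have h2 := length_ex (pl := pl) st ω V
    have h3 := lo ω
    rw [List.length_append, List.length_append]
    omega
  have hil : ∀ κ e, e ≠ a →
      Ind (Sum.inl (κ, a) : Pad ι) fun ω : Smp ι m => val pl (st e) (par ω (st e)) e :=
    fun κ e he => ind_val he fun _ => hst e he
  have hir : ∀ b e, e ≠ a →
      Ind (Sum.inr b : Pad ι) fun ω : Smp ι m => val pl (st e) (par ω (st e)) e :=
    fun b e _ => ind_par b fun ω => val pl (st e) (ω (st e)) e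
  set Z : Bool → Smp ι m → List (ι × Bool) := fun b ω => pw pl c (ω (Sum.inr b)) with hZ
  have zl : ∀ b ω, (Z b ω).length = 8 := fun b ω => length_pw _ _
  have za : ∀ b ω, ∀ x ∈ Z b ω, x.1 ≠ a := fun b ω x hx h => by
    have : x.1 ∈ (Z b ω).map Prod.fst := List.mem_map_of_mem hx
    rw [hZ, map_fst_pw] at this
    exact hca (h ▸ inC_of_mem_ch this)
  have zi : ∀ b p, p ≠ Sum.inr b → Ind p (Z b) := fun b p hp ω f => by
    simp only [hZ, Function.update_of_ne hp.symm]
  have app : ∀ {U V : List (ι × Bool)}, (∀ x ∈ U, x.1 ≠ a) → (∀ x ∈ V, x.1 ≠ a) →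
      ∀ x ∈ U ++ V, x.1 ≠ a := fun hU hV x hx => (List.mem_append.1 hx).elim (hU x) (hV x)
  have nil : ∀ x ∈ ([] : List (ι × Bool)), x.1 ≠ a := by simp
  have F1 : ∀ k, Free (fun ω : Smp ι m => y (par ω) * rep a (mk ((Z false ω).drop k)) (mk [])) R
      (2 * R * (2 * R * (10 ^ 6 : ℕ) / m) ^ 8) := fun k => by
    have h1 : ∀ ω, ∀ x ∈ (Z false ω).drop k, x.1 ≠ a := fun ω x hx =>
      za _ ω x (List.mem_of_mem_drop hx)
    refine free_special hm hJ R st a (c := c0) (fun ω => hne _ _ _)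
      (fun ω => hself _ _ _ (h1 ω) nil)
      (fun ω => hlen _ _ _ (by simp [zl]; omega) (by simp)) ?_ (hil κ0)
    exact (ho.left (ind_ex (hil κ0)
      (fun ω f => by simp only [zi false (Sum.inl (κ0, a)) (by simp) ω f]) h1)).right
      fun _ _ => rfl
  have F2 : ∀ V : Smp ι m → List (ι × Bool), Ind (Sum.inr false) V → (∀ ω, ∀ x ∈ V ω, x.1 ≠ a) →
      (∀ ω, (V ω).length ≤ 3000) →
      Free (fun ω : Smp ι m => y (par ω) * rep a (mk (Z false ω)) (mk (V ω))) R
      (2 * R * (2 * R * (10 ^ 6 : ℕ) / m) ^ 8) := fun V h1 h2 h3 => by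
    refine free_special hm hJ R st a (c := c) (fun ω => hne _ _ _)
      (fun ω => hself _ _ _ (za _ ω) (h2 ω))
      (fun ω => hlen _ _ _ (by simp [zl]) (h3 ω)) ?_ (hir false)
    exact ((own_ex hJ st false hc).right (ind_par false old)).right (ind_ex (hir false) h1 h2)
  have F3 : ∀ U : Smp ι m → List (ι × Bool), Ind (Sum.inr true) U → (∀ ω, ∀ x ∈ U ω, x.1 ≠ a) →
      (∀ ω, (U ω).length ≤ 3000) →
      Free (fun ω : Smp ι m => y (par ω) * rep a (mk (U ω)) (mk (W2 (par ω) ++ Z true ω))) R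
      (2 * R * (2 * R * (10 ^ 6 : ℕ) / m) ^ 8) := fun U h1 h2 h3 => by
    refine free_special hm hJ R st a (c := c) (fun ω => hne _ _ _)
      (fun ω => hself _ _ _ (h2 ω) (app (a2 _) (za _ ω)))
      (fun ω => hlen _ _ _ (h3 ω) (by have := l2 (par ω); simp [zl]; omega)) ?_ (hir true)
    simp only [ex_append, List.append_assoc]
    exact (((own_ex hJ st true hc).left (ind_par true fun ω => ex pl st ω (W2 ω))).left
      (ind_par true old)).left (ind_ex (hir true) h1 h2)
  have F4 : ∀ k, Free (fun ω : Smp ι m => y (par ω) *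
      rep a (mk (W1 (par ω))) (mk (W2 (par ω) ++ (Z true ω).take k))) R
      (2 * R * (2 * R * (10 ^ 6 : ℕ) / m) ^ 8) := fun k => by
    have h1 : ∀ ω, ∀ x ∈ (Z true ω).take k, x.1 ≠ a := fun ω x hx =>
      za _ ω x (List.mem_of_mem_take hx)
    refine free_special hm hJ R st a (c := c1)
      (sw := fun ω => new (par ω) ++ ex pl st (par ω) ((Z true ω).take k)) (fun ω => hne _ _ _)
      (fun ω => ?_) (fun ω => ?_) ?_ (hil κ1)
    · rw [hself _ _ _ (a1 _) (app (a2 _) (h1 ω)), ex_append, ← List.append_assoc, ← mul_mk, ← hnew,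
        mul_mk]
    · have h2 := length_ex (pl := pl) st (par ω) ((Z true ω).take k)
      have h3 := ln (par ω)
      have h4 : ((Z true ω).take k).length ≤ 8 := by simp [zl]
      rw [List.length_append]
      omega
    · exact hn.right (ind_ex (hil κ1)
        (fun ω f => by simp only [zi true (Sum.inl (κ1, a)) (by simp) ω f]) h1)
  refine ⟨fun ω => y ω * rep a (mk (W1 ω)) (mk (W2 ω)), fun ω => hne ω _ _,
    fun ω => by rw [hself _ _ _ (a1 _) (a2 _), hnew], ?_⟩
  have C1 := (conn_left a (fun ω : Smp ι m => y (par ω)) (Z false) (fun _ => [])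
    (fun ω => (zl _ ω).le) F1).symm
  have C2 := conn_right a (fun ω : Smp ι m => y (par ω)) (Z false) (fun _ => [])
    (fun ω => W2 (par ω)) (fun ω => l2 _) fun k => F2 _ (ind_par false fun ω => [] ++ (W2 ω).take k)
      (fun ω x hx => a2 _ x (List.mem_of_mem_take hx))
      fun ω => by have := l2 (par ω); simp; omega
  have C3 := conn_right a (fun ω : Smp ι m => y (par ω)) (Z false) (fun ω => W2 (par ω))
    (Z true) (fun ω => (zl _ ω).le) fun k => F2 _
      (fun ω f => by simp only [par_inr, zi true (Sum.inr false) (by simp) ω f])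
      (fun ω => app (a2 _) fun x hx => za _ ω x (List.mem_of_mem_take hx))
      fun ω => by have := l2 (par ω); simp [zl]; omega
  have C4 := conn_left a (fun ω : Smp ι m => y (par ω)) (Z false)
    (fun ω => W2 (par ω) ++ Z true ω) (fun ω => (zl _ ω).le) fun k => F3 _
      (fun ω f => by simp only [zi false (Sum.inr true) (by simp) ω f])
      (fun ω x hx => za _ ω x (List.mem_of_mem_drop hx)) fun ω => by simp [zl]; omega
  have C5 := (conn_left a (fun ω : Smp ι m => y (par ω)) (fun ω => W1 (par ω))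
    (fun ω => W2 (par ω) ++ Z true ω) (fun ω => l1 _) fun k => F3 _
      (ind_par true fun ω => (W1 ω).drop k)
      (fun ω x hx => a1 _ x (List.mem_of_mem_drop hx))
      fun ω => by have := l1 (par ω); simp; omega).symm
  have C6 := (conn_right a (fun ω : Smp ι m => y (par ω)) (fun ω => W1 (par ω))
    (fun ω => W2 (par ω)) (Z true) (fun ω => (zl _ ω).le) F4).symm
  have := ((((C1.trans C2).trans C3).trans C4).trans C5).trans C6
  simpa only [← one_eq_mk, rep_one, mul_one] using this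

theorem macro1 [Fintype ι] (hm : 0 < m) (hJ : JInj pl) (R : ℕ) (st : ι → Bool) (a : ι)
    (y : (Bool → ι → Fin 8 → Fin m) → AutF ι)
    (old new : (Bool → ι → Fin 8 → Fin m) → List (ι × Bool))
    (hy : ∀ ω e, e ≠ a → y ω (of e) = mk (val pl (st e) (ω (st e)) e))
    (hya : ∀ ω, y ω (of a) = mk (old ω))
    (hst : ∀ e, e ≠ a → InC pl (ca (st e)) e → ¬ InC pl (cb (st e)) a)
    {κ0 κ1 : Bool} {c0 c1 : Fin 6}
    (ho : Own pl (Sum.inl (κ0, a) : Pad ι) c0 fun ω : Smp ι m => old (par ω))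
    (hn : Own pl (Sum.inl (κ1, a) : Pad ι) c1 fun ω : Smp ι m => new (par ω))
    (lo : ∀ ω, (old ω).length ≤ 100) (ln : ∀ ω, (new ω).length ≤ 100)
    (hW : ∀ ω, ∃ u v, Exp (y ω) a 2000 u ∧ Exp (y ω) a 2000 v ∧
      mk (new ω) = u * (mk (old ω))⁻¹ * v) :
    ∃ y' : (Bool → ι → Fin 8 → Fin m) → AutF ι,
      (∀ ω e, e ≠ a → y' ω (of e) = mk (val pl (st e) (ω (st e)) e)) ∧
      (∀ ω, y' ω (of a) = mk (new ω)) ∧
      Conn R (2 * R * (2 * R * (10 ^ 6 : ℕ) / m) ^ 8) 4033
        (fun ω : Smp ι m => y (par ω)) fun ω => y' (par ω) := by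
  have hy1 : ∀ ω e, e ≠ a → (y ω * inv a) (of e) = mk (val pl (st e) (ω (st e)) e) :=
    fun ω e he => by rw [MulAut.mul_apply, inv_ne he, hy ω e he]
  have hya1 : ∀ ω, (y ω * inv a) (of a) = mk (invRev (old ω)) := fun ω => by
    rw [MulAut.mul_apply, inv_self, map_inv, hya, inv_mk]
  have hE : ∀ ω u, Exp (y ω) a 2000 u → Exp (y ω * inv a) a 2000 u := by
    rintro ω u ⟨W, h1, h2, h3⟩
    refine ⟨W, h1, h2, ?_⟩
    rw [MulAut.mul_apply, aut_mk_fix, h3]
    intro x hx
    obtain ⟨z, hz, rfl⟩ := List.mem_map.1 hx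
    exact inv_ne (h2 z hz)
  have lo1 : ∀ ω, (invRev (old ω)).length ≤ 100 := fun ω => by rw [invRev_length]; exact lo ω
  obtain ⟨y', h1, h2, h3⟩ := macro0 hm hJ R st a (fun ω => y ω * inv a) (fun ω => invRev (old ω))
    new hy1 hya1 hst ho.invRev hn lo1 ln fun ω => by
      obtain ⟨u, v, k1, k2, k3⟩ := hW ω
      exact ⟨u, v, hE _ _ k1, hE _ _ k2, by rw [k3, inv_mk]⟩
  have hil : ∀ e, e ≠ a →
      Ind (Sum.inl (κ0, a) : Pad ι) fun ω : Smp ι m => val pl (st e) (par ω (st e)) e :=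
    fun e he => ind_val he fun _ => hst e he
  refine ⟨y', h1, h2, Conn.trans (L := 1) (L' := 4032) (Conn.single ?_ ?_ fun ω =>
    Or.inr ⟨Sum.inr a, rfl⟩) h3⟩
  · exact free_special hm hJ R st a (fun ω => hy _) (fun ω => hya _)
      (fun ω => (lo _).trans (by norm_num)) ho hil
  · exact free_special hm hJ R st a (fun ω => hy1 _) (fun ω => hya1 _)
      (fun ω => (lo1 _).trans (by norm_num)) ho.invRev hil

end Pool.Agent.P.MP_2d26dd_al
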