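import Pool.Agent.P.MP_2d26dd_al.Basic

/-! Words with private letters are part of a basis. -/

namespace Pool.Agent.P.MP_2d26dd_al

variable {ι : Type} [DecidableEq ι]

omit [DecidableEq ι] in
theorem x2t_fix (f : FreeGroup ι →* FreeGroup ι) (l : List (ι × Bool))
    (h : ∀ i ∈ l.map Prod.fst, f (FreeGroup.of i) = FreeGroup.of i) :
    f (FreeGroup.mk l) = FreeGroup.mk l := by
  induction l with
  | nil => exact f.map_one
  | cons x l ih =>
    obtain ⟨i, s⟩ := x
    have e : FreeGroup.mk ((i, s) :: l) = lt i s * FreeGroup.mk l :=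
      (FreeGroup.mul_mk (L₁ := [(i, s)]) (L₂ := l)).symm
    have h0 : f (FreeGroup.of i) = FreeGroup.of i := h i (by simp)
    rw [e, f.map_mul, ih fun k hk => h k (List.mem_cons_of_mem _ hk)]
    cases s
    · rw [lt_false, f.map_inv, h0]
    · rw [lt_true, h0]

theorem x2t_one (l : List (ι × Bool)) (t : ι) (h : (l.map Prod.fst).count t = 1) :
    ∃ φ : AutF ι, φ (FreeGroup.of t) = FreeGroup.mk l ∧
      ∀ i, i ≠ t → φ (FreeGroup.of i) = FreeGroup.of i := by
  have h0 : t ∈ l.map Prod.fst := List.count_pos_iff.1 (by omega)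
  obtain ⟨⟨t', s⟩, hm, rfl⟩ := List.mem_map.1 h0
  obtain ⟨u, v, rfl⟩ := List.append_of_mem hm
  simp only [List.map_append, List.map_cons, List.count_append, List.count_cons_self] at h
  have hu : ∀ i ∈ u.map Prod.fst, i ≠ t' := fun i hi e =>
    absurd (List.count_pos_iff.2 (e ▸ hi)) (by omega)
  have hv : ∀ i ∈ v.map Prod.fst, i ≠ t' := fun i hi e =>
    absurd (List.count_pos_iff.2 (e ▸ hi)) (by omega)
  have e : FreeGroup.mk (u ++ (t', s) :: v) = FreeGroup.mk u * lt t' s * FreeGroup.mk v := by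
    rw [mul_assoc, ← FreeGroup.mul_mk]
    exact congrArg _ (FreeGroup.mul_mk (L₁ := [(t', s)]) (L₂ := v)).symm
  have k1 : rep t' (FreeGroup.mk u) (FreeGroup.mk v) (FreeGroup.of t') =
      FreeGroup.mk u * FreeGroup.of t' * FreeGroup.mk v := by
    rw [rep_self, x2t_fix (kill t') u fun i hi => kill_ne (hu i hi),
      x2t_fix (kill t') v fun i hi => kill_ne (hv i hi)]
  cases s
  · refine ⟨inv t' * rep t' (FreeGroup.mk u) (FreeGroup.mk v), ?_, fun i hi => ?_⟩
    · have a1 : inv t' (FreeGroup.mk u) = FreeGroup.mk u :=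
        x2t_fix (inv t').toMonoidHom u fun i hi => inv_ne (hu i hi)
      have a2 : inv t' (FreeGroup.mk v) = FreeGroup.mk v :=
        x2t_fix (inv t').toMonoidHom v fun i hi => inv_ne (hv i hi)
      rw [MulAut.mul_apply, k1, map_mul, map_mul, a1, a2, inv_self, e, lt_false]
    · rw [MulAut.mul_apply, rep_ne hi, inv_ne hi]
  · exact ⟨rep t' (FreeGroup.mk u) (FreeGroup.mk v), by rw [k1, e, lt_true],
      fun i hi => rep_ne hi _ _⟩

theorem triangular {J : Type} [Fintype J] (lv : J → ℕ) (w : J → List (ι × Bool)) (c : J → ι)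
    (h1 : ∀ j, ((w j).map Prod.fst).count (c j) = 1)
    (h2 : ∀ j j', j ≠ j' → lv j ≤ lv j' → c j ∉ (w j').map Prod.fst) :
    Function.Injective c ∧ ∃ z : AutF ι, (∀ j, z (FreeGroup.of (c j)) = FreeGroup.mk (w j)) ∧
      ∀ i, i ∉ Set.range c → z (FreeGroup.of i) = FreeGroup.of i := by
  classical
  have hm : ∀ j, c j ∈ (w j).map Prod.fst := fun j =>
    List.count_pos_iff.1 (by rw [h1 j]; exact Nat.one_pos)
  have hinj : Function.Injective c := by
    intro j j' e
    by_contra hne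
    rcases le_total (lv j) (lv j') with h | h
    · exact h2 j j' hne h (e ▸ hm j')
    · exact h2 j' j (Ne.symm hne) h (e ▸ hm j)
  refine ⟨hinj, ?_⟩
  have key : ∀ S : Finset J, ∃ z : AutF ι,
      (∀ j ∈ S, z (FreeGroup.of (c j)) = FreeGroup.mk (w j)) ∧
      ∀ i, (∀ j ∈ S, c j ≠ i) → z (FreeGroup.of i) = FreeGroup.of i := by
    intro S
    induction S using Finset.induction_on_max_value lv with
    | empty => exact ⟨1, fun j hj => absurd hj (Finset.notMem_empty j), fun i _ => rfl⟩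
    | insert a S ha hle ih =>
      obtain ⟨z, hz1, hz2⟩ := ih
      obtain ⟨φ, hφ1, hφ2⟩ := x2t_one (w a) (c a) (h1 a)
      refine ⟨z * φ, fun j hj => ?_, fun i hi => ?_⟩
      · rcases Finset.mem_insert.1 hj with rfl | hj
        · rw [MulAut.mul_apply, hφ1]
          exact x2t_fix z.toMonoidHom _ fun i hi => hz2 i fun k hk e =>
            h2 k j (fun e' => ha (e' ▸ hk)) (hle k hk) (e ▸ hi)
        · rw [MulAut.mul_apply, hφ2 _ fun e => ha (hinj e ▸ hj), hz1 j hj]
      · rw [MulAut.mul_apply, hφ2 i fun e => hi a (Finset.mem_insert_self a S) e.symm,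
          hz2 i fun j hj => hi j (Finset.mem_insert_of_mem hj)]
  obtain ⟨z, hz1, hz2⟩ := key Finset.univ
  exact ⟨z, fun j => hz1 j (Finset.mem_univ j), fun i hi => hz2 i fun j _ e => hi ⟨j, e⟩⟩

end Pool.Agent.P.MP_2d26dd_al
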