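import Pool.Agent.P.MP_2d26dd_al.XDefs
import Pool.Agent.P.MP_2d26dd_al.X2t

/-! Two independent samples are complementary with high probability. -/

namespace Pool.Agent.P.MP_2d26dd_al

variable {ι : Type} [DecidableEq ι]

open Classical in
theorem X2p_lens {S F : Type} [Fintype S] [Fintype F] (get : S → F) (put : S → F → S)
    (h1 : ∀ s f, get (put s f) = f) (h2 : ∀ s f, put (put s f) (get s) = s)
    (Q : S → F → Prop) (hQ : ∀ s f, Q (put s f) = Q s) {K : ℕ}
    (hK : ∀ s, (Finset.univ.filter (Q s)).card ≤ K) :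
    (Finset.univ.filter fun s => Q s (get s)).card * Fintype.card F ≤ Fintype.card S * K := by
  rw [← Finset.card_univ, ← Finset.card_product]
  refine (Finset.card_le_card_of_injOn (t := Finset.univ.filter fun p : S × F => Q p.1 p.2)
    (fun p => (put p.1 p.2, get p.1)) (fun p hp => ?_) fun p _ q _ e => ?_).trans ?_
  · have := (Finset.mem_filter.1 (Finset.mem_product.1 hp).1).2
    refine Finset.mem_filter.2 ⟨Finset.mem_univ _, ?_⟩
    change Q (put p.1 p.2) (get p.1)
    rw [hQ]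
    exact this
  · have e1 : put p.1 p.2 = put q.1 q.2 := congrArg Prod.fst e
    have e2 : get p.1 = get q.1 := congrArg Prod.snd e
    exact Prod.ext (by rw [← h2 p.1 p.2, e1, e2, h2]) (by rw [← h1 p.1 p.2, e1, h1])
  · rw [Finset.card_filter, Fintype.sum_prod_type, ← Finset.card_univ, ← smul_eq_mul]
    refine Finset.sum_le_card_nsmul _ _ _ fun s _ => ?_
    rw [← Finset.card_filter]
    exact hK s

open Classical in
theorem X2p_pad {m : ℕ} {p : Fin 8 → Fin m → ι} (hp : ∀ t, Function.Injective (p t))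
    {O : Finset ι} {K : ℕ} (hO : O.card ≤ K) :
    (Finset.univ.filter fun f : Fin 8 → Fin m => ∀ t, p t (f t) ∈ O).card ≤ K ^ 8 := by
  have e : (Finset.univ.filter fun f : Fin 8 → Fin m => ∀ t, p t (f t) ∈ O) =
      Fintype.piFinset fun t => Finset.univ.filter fun a => p t a ∈ O := by
    ext f
    simp only [Finset.mem_filter, Finset.mem_univ, true_and, Fintype.mem_piFinset]
  rw [e, Fintype.card_piFinset]
  refine (Finset.prod_le_pow_card _ _ K fun t _ => le_trans ?_ hO).trans (by simp)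
  exact Finset.card_le_card_of_injOn (p t) (fun a ha => (Finset.mem_filter.1 ha).2)
    (hp t).injOn

section

variable {Pad : Type} [DecidableEq Pad] {m : ℕ} {pl : Fin 6 → Fin 8 → Fin m → ι} {M : ℕ}
  {y : (Pad → Fin 8 → Fin m) → AutF ι} (P : Priv pl M y) (B : Finset ι)

/-- The letters that the private letter of `e` has to avoid. -/
def Priv.av (ω ω' : Pad → Fin 8 → Fin m) (e : ι) : Finset ι :=
  B.biUnion fun e' => P.Occ ω e e' ∪ ((P.w ω' e').map Prod.fst).toFinset

theorem Priv.card_av (ω ω' : Pad → Fin 8 → Fin m) (e : ι) :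
    (P.av B ω ω' e).card ≤ 2 * B.card * M := by
  refine (Finset.card_biUnion_le_card_mul _ _ (M + M) fun e' _ => ?_).trans (le_of_eq (by ring))
  refine (Finset.card_union_le _ _).trans (add_le_add (P.card ω e e') ?_)
  exact (List.toFinset_card_le _).trans (by rw [List.length_map]; exact P.len ω' e')

theorem Priv.av_update (ω ω' : Pad → Fin 8 → Fin m) (e : ι) (f : Fin 8 → Fin m) :
    P.av B (Function.update ω (P.pd e) f) ω' e = P.av B ω ω' e := by
  simp only [Priv.av, P.indep]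

theorem Priv.disj (σ : Bool → Pad → Fin 8 → Fin m)
    (h : ∀ b, ∀ e ∈ B, ∃ t, pl (P.cl e) t (σ b (P.pd e) t) ∉ P.av B (σ b) (σ !b) e) :
    Disj B (y (σ false)) (y (σ true)) := by
  choose! T hT using h
  have hT' : ∀ b, ∀ e ∈ B, ∀ e' ∈ B, pl (P.cl e) (T b e) (σ b (P.pd e) (T b e)) ∉
      P.Occ (σ b) e e' ∧ pl (P.cl e) (T b e) (σ b (P.pd e) (T b e)) ∉
        (P.w (σ !b) e').map Prod.fst := fun b e he e' he' =>
    ⟨fun hh => hT b e he (Finset.mem_biUnion.2 ⟨e', he', Finset.mem_union_left _ hh⟩),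
      fun hh => hT b e he (Finset.mem_biUnion.2
        ⟨e', he', Finset.mem_union_right _ (List.mem_toFinset.2 hh)⟩)⟩
  obtain ⟨hc, z, hz, -⟩ := triangular (J := B × Bool) (fun j => P.lv j.1)
    (fun j => P.w (σ j.2) j.1)
    (fun j => pl (P.cl j.1) (T j.2 j.1) (σ j.2 (P.pd j.1) (T j.2 j.1)))
    (fun j => P.own _ _ _ (hT' j.2 j.1 j.1.2 j.1 j.1.2).1) (by
      rintro ⟨e, b⟩ ⟨e', b'⟩ hne hl hm
      by_cases hb : b' = b
      · subst hb
        exact (hT' b' e e.2 e' e'.2).1 (P.other _ _ _ _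
          (fun hh => hne (Prod.ext (Subtype.ext hh) rfl)) hl hm)
      · obtain rfl : b' = !b := Bool.eq_not_iff.2 hb
        exact (hT' b e e.2 e' e'.2).2 hm)
  refine ⟨z, fun e => pl (P.cl e) (T false e) (σ false (P.pd e) (T false e)),
    fun e => pl (P.cl e) (T true e) (σ true (P.pd e) (T true e)), fun e he e' he' hh => ?_,
    fun e he e' he' hh => ?_, fun e he e' he' hh => ?_, fun e he => ?_, fun e he => ?_⟩
  · exact congrArg (fun j : B × Bool => (j.1 : ι)) (@hc (⟨e, he⟩, false) (⟨e', he'⟩, false) hh)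
  · exact congrArg (fun j : B × Bool => (j.1 : ι)) (@hc (⟨e, he⟩, true) (⟨e', he'⟩, true) hh)
  · exact Bool.false_ne_true (congrArg Prod.snd (@hc (⟨e, he⟩, false) (⟨e', he'⟩, true) hh))
  · exact (hz (⟨e, he⟩, false)).trans (P.word _ _).symm
  · exact (hz (⟨e, he⟩, true)).trans (P.word _ _).symm

end

open Classical in
theorem Priv.free {Pad : Type} [DecidableEq Pad] [Fintype Pad] {m : ℕ} (hm : 0 < m)
    {pl : Fin 6 → Fin 8 → Fin m → ι} (hpl : ∀ c t, Function.Injective (pl c t)) {M : ℕ}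
    {y : (Pad → Fin 8 → Fin m) → AutF ι} (P : Priv pl M y) (B : Finset ι) :
    (((Finset.univ : Finset ((Pad → Fin 8 → Fin m) × (Pad → Fin 8 → Fin m))).filter
      fun s => ¬ Disj B (y s.1) (y s.2)).card : ℝ) ≤
      2 * B.card * (2 * B.card * M / m) ^ 8 * (Fintype.card (Pad → Fin 8 → Fin m) : ℝ) ^ 2 := by
  have hm' : (0 : ℝ) < (m : ℝ) ^ 8 := by positivity
  have key : ∀ {n : ℕ}, n * Fintype.card (Fin 8 → Fin m) ≤
      Fintype.card ((Pad → Fin 8 → Fin m) × (Pad → Fin 8 → Fin m)) * (2 * B.card * M) ^ 8 →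
      (n : ℝ) ≤ (2 * B.card * M / m) ^ 8 * (Fintype.card (Pad → Fin 8 → Fin m) : ℝ) ^ 2 := by
    intro n hn
    rw [Fintype.card_prod, Fintype.card_fun, Fintype.card_fin, Fintype.card_fin] at hn
    rw [div_pow, div_mul_eq_mul_div, le_div_iff₀ hm', mul_comm (_ ^ 8), sq]
    exact_mod_cast hn
  have k1 : ∀ e, _ := fun e => key (X2p_lens
    (S := (Pad → Fin 8 → Fin m) × (Pad → Fin 8 → Fin m)) (fun s => s.1 (P.pd e))
    (fun s f => (Function.update s.1 (P.pd e) f, s.2)) (fun s f => Function.update_self ..)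
    (fun s f => by simp) (fun s f => ∀ t, pl (P.cl e) t (f t) ∈ P.av B s.1 s.2 e)
    (fun s f => by simp only [P.av_update])
    fun s => (Finset.card_le_card fun f hf => by simpa using hf).trans
      (X2p_pad (hpl (P.cl e)) (P.card_av B s.1 s.2 e)))
  have k2 : ∀ e, _ := fun e => key (X2p_lens
    (S := (Pad → Fin 8 → Fin m) × (Pad → Fin 8 → Fin m)) (fun s => s.2 (P.pd e))
    (fun s f => (s.1, Function.update s.2 (P.pd e) f)) (fun s f => Function.update_self ..)
    (fun s f => by simp) (fun s f => ∀ t, pl (P.cl e) t (f t) ∈ P.av B s.2 s.1 e)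
    (fun s f => by simp only [P.av_update])
    fun s => (Finset.card_le_card fun f hf => by simpa using hf).trans
      (X2p_pad (hpl (P.cl e)) (P.card_av B s.2 s.1 e)))
  refine le_trans (Nat.cast_le.2 ((Finset.card_le_card (t := B.biUnion fun e =>
    (Finset.univ.filter fun s : (Pad → Fin 8 → Fin m) × (Pad → Fin 8 → Fin m) =>
      ∀ t, pl (P.cl e) t (s.1 (P.pd e) t) ∈ P.av B s.1 s.2 e) ∪
    Finset.univ.filter fun s => ∀ t, pl (P.cl e) t (s.2 (P.pd e) t) ∈ P.av B s.2 s.1 e)
      fun s hs => ?_).trans Finset.card_biUnion_le)) ?_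
  · by_contra hn
    refine (Finset.mem_filter.1 hs).2 (P.disj B (fun b => bif b then s.2 else s.1) fun b e he => ?_)
    by_contra hh
    push Not at hh
    refine hn (Finset.mem_biUnion.2 ⟨e, he, ?_⟩)
    cases b
    · exact Finset.mem_union_left _ (Finset.mem_filter.2 ⟨Finset.mem_univ _, hh⟩)
    · exact Finset.mem_union_right _ (Finset.mem_filter.2 ⟨Finset.mem_univ _, hh⟩)
  · rw [Nat.cast_sum]
    refine (Finset.sum_le_card_nsmul _ _ (2 * ((2 * B.card * M / m) ^ 8 *
      (Fintype.card (Pad → Fin 8 → Fin m) : ℝ) ^ 2)) fun e _ => ?_).trans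
        (le_of_eq (by rw [nsmul_eq_mul]; ring))
    refine (Nat.cast_le.2 (Finset.card_union_le _ _)).trans ?_
    rw [Nat.cast_add, two_mul]
    refine add_le_add (le_trans (Nat.cast_le.2 (Finset.card_le_card fun s hs => ?_)) (k1 e))
      (le_trans (Nat.cast_le.2 (Finset.card_le_card fun s hs => ?_)) (k2 e))
    · simpa using hs
    · simpa using hs

end Pool.Agent.P.MP_2d26dd_al
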