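import Pool.Agent.P.MP_2d26dd_al.CDefs

/-! Random pads: definitions. -/

namespace Pool.Agent.P.MP_2d26dd_al

variable {ι : Type} [DecidableEq ι]

open Classical in
/-- For every time and every block of size `R`, two independent samples of the path give
complementary free factors outside a set of pairs of density `η`. -/
def FreePath {S : Type} [Fintype S] (path : S → ℕ → AutF ι) (R : ℕ) (η : ℝ) : Prop :=
  ∀ (l : ℕ) (B : Finset ι), B.card = R →
    (((Finset.univ : Finset (S × S)).filter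
      fun s => ¬ Disj B (path s.1 l) (path s.2 l)).card : ℝ) ≤ η * (Fintype.card S : ℝ) ^ 2

/-- Random paths of length `L` between padded bases. -/
structure Scheme (ι : Type) [DecidableEq ι] (Ω Z : Type) [Fintype Ω] [Fintype Z] (L R : ℕ)
    (η : ℝ) where
  g : Bool → Ω → AutF ι
  pathB : Ω × Ω × Z → ℕ → AutF ι
  κ : Mv ι → Bool
  pathA : Mv ι → Ω × Ω × Z → ℕ → AutF ι
  startB : ∀ s, pathB s 0 = g false s.1
  stopB : ∀ s, pathB s L = g true s.2.1
  stepB : ∀ s l, Step (pathB s l) (pathB s (l + 1))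
  freeB : FreePath pathB R η
  startA : ∀ μ s, pathA μ s 0 = g (κ μ) (if κ μ then s.2.1 else s.1)
  stopA : ∀ μ s, pathA μ s L = mv μ * g (κ μ) (if κ μ then s.2.1 else s.1)
  stepA : ∀ μ s l, Step (pathA μ s l) (pathA μ s (l + 1))
  freeA : ∀ μ, FreePath (pathA μ) R η

/-- Every letter of the random basis `y` carries a pad of eight independent letters, one of which is
private with high probability. -/
structure Priv {Pad : Type} [DecidableEq Pad] {m : ℕ} (pl : Fin 6 → Fin 8 → Fin m → ι) (M : ℕ)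
    (y : (Pad → Fin 8 → Fin m) → AutF ι) where
  w : (Pad → Fin 8 → Fin m) → ι → List (ι × Bool)
  lv : ι → ℕ
  pd : ι → Pad
  cl : ι → Fin 6
  Occ : (Pad → Fin 8 → Fin m) → ι → ι → Finset ι
  word : ∀ ω e, y ω (FreeGroup.of e) = FreeGroup.mk (w ω e)
  len : ∀ ω e, (w ω e).length ≤ M
  card : ∀ ω e e', (Occ ω e e').card ≤ M
  indep : ∀ ω e e' f, Occ (Function.update ω (pd e) f) e e' = Occ ω e e'
  other : ∀ ω e e' t, e ≠ e' → lv e ≤ lv e' →
    pl (cl e) t (ω (pd e) t) ∈ (w ω e').map Prod.fst → pl (cl e) t (ω (pd e) t) ∈ Occ ω e e'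
  own : ∀ ω e t, pl (cl e) t (ω (pd e) t) ∉ Occ ω e e →
    ((w ω e).map Prod.fst).count (pl (cl e) t (ω (pd e) t)) = 1

/-- All the blocks of the family `𝓑` act trivially. -/
def Deep {Γ : Subgroup (AutF ι)} {G : Type} [Group G] (ρ : Γ →* G) (𝓑 : Finset (Finset ι))
    (x : AutF ι) : Prop :=
  ∀ B ∈ 𝓑, Null ρ x B

end Pool.Agent.P.MP_2d26dd_al
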