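import Pool.Agent.P.MP_2d26dd_al.L7

/-! Free abelian subgroups of large rank. -/

namespace Pool.Agent.P.MP_2d26dd_al

section Pow

variable {N : ℕ}

theorem z1_inj {c : ℤ} (hc : IsCoprime c 3) (F : Module.End ℤ (Matrix (Fin N) (Fin N) ℤ))
    {u : Matrix (Fin N) (Fin N) ℤ} (h : c • u + (3 : ℤ) • F u = 0) : u = 0 := by
  obtain ⟨a, b, hab⟩ := hc
  have key : ∀ (k : ℕ) (u : Matrix (Fin N) (Fin N) ℤ), c • u + (3 : ℤ) • F u = 0 →
      ∀ i j, (3 : ℤ) ^ k ∣ u i j := by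
    intro k
    induction k with
    | zero => intro u _ i j; simp
    | succ k ih =>
      intro u h i j
      have e : u = (3 : ℤ) • (b • u - a • F u) := by
        have h1 : c • u = -((3 : ℤ) • F u) := eq_neg_of_add_eq_zero_left h
        calc u = (a * c + b * 3) • u := by rw [hab, one_smul]
          _ = a • (c • u) + (3 : ℤ) • b • u := by module
          _ = _ := by rw [h1]; module
      have h2 : c • (b • u - a • F u) + (3 : ℤ) • F (b • u - a • F u) = 0 := by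
        have h3 : (3 : ℤ) • (c • (b • u - a • F u) + (3 : ℤ) • F (b • u - a • F u)) = 0 := by
          rw [smul_add, smul_comm, ← e, ← map_smul, ← map_smul, ← e, map_smul, h]
        exact (smul_eq_zero.1 h3).resolve_left (by norm_num)
      have := ih _ h2 i j
      rw [e, Matrix.smul_apply, smul_eq_mul, pow_succ']
      exact mul_dvd_mul_left _ this
  ext i j
  refine Int.eq_zero_of_dvd_of_natAbs_lt_natAbs (key (u i j).natAbs u h i j) ?_
  rw [Int.natAbs_pow]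
  exact Nat.lt_pow_self (by norm_num)

theorem z1_fix (m : ℕ) : 0 < m → ∀ (E : Module.End ℤ (Matrix (Fin N) (Fin N) ℤ))
    (v : Matrix (Fin N) (Fin N) ℤ), ((1 + (3 : ℤ) • E) ^ m) v = v → (1 + (3 : ℤ) • E) v = v := by
  induction m using Nat.strong_induction_on with
  | _ m ih =>
    intro hm E v h
    set D : Module.End ℤ (Matrix (Fin N) (Fin N) ℤ) := 1 + (3 : ℤ) • E with hD
    have geom : ∀ k : ℕ, (D ^ k) v = v → (∑ i ∈ Finset.range k, D ^ i) (D v - v) = 0 := by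
      intro k hk
      have := congrArg (fun T : Module.End ℤ (Matrix (Fin N) (Fin N) ℤ) => T v) (geom_sum_mul D k)
      simpa [hk] using this
    rw [← sub_eq_zero]
    by_cases h3 : 3 ∣ m
    · obtain ⟨k, rfl⟩ := h3
      have e3 : D ^ 3 = 1 + (3 : ℤ) • (3 * E + 9 * E ^ 2 + 9 * E ^ 3) := by
        rw [hD]
        simp only [zsmul_eq_mul, Int.cast_ofNat]
        noncomm_ring
      have h4 := ih k (by omega) (by omega) _ v (by rw [← e3, ← pow_mul]; exact h)
      rw [← e3] at h4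
      have h5 := geom 3 h4
      have e4 : ∑ i ∈ Finset.range 3, D ^ i = (3 : ℤ) • (1 + (3 : ℤ) • (E + E ^ 2)) := by
        rw [hD]
        simp only [zsmul_eq_mul, Int.cast_ofNat, Finset.sum_range_succ, Finset.range_zero,
          Finset.sum_empty]
        noncomm_ring
      rw [e4, LinearMap.smul_apply] at h5
      have h6 := (smul_eq_zero.1 h5).resolve_left (by norm_num)
      refine z1_inj (c := 1) isCoprime_one_left (E + E ^ 2) ?_
      rw [one_smul]
      exact h6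
    · have hp : ∀ i : ℕ, ∃ F : Module.End ℤ (Matrix (Fin N) (Fin N) ℤ),
          D ^ i = 1 + (3 : ℤ) • F := by
        intro i
        induction i with
        | zero => exact ⟨0, by simp⟩
        | succ i ih =>
          obtain ⟨F, hF⟩ := ih
          refine ⟨F + E + 3 * (F * E), ?_⟩
          rw [pow_succ, hF, hD]
          simp only [zsmul_eq_mul, Int.cast_ofNat]
          noncomm_ring
      choose F hF using hp
      have h5 := geom m h
      simp only [hF, Finset.sum_add_distrib, ← Finset.smul_sum, Finset.sum_const,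
        Finset.card_range] at h5
      refine z1_inj (c := m) ?_ (∑ i ∈ Finset.range m, F i) ?_
      · have : Nat.Coprime m 3 := ((Nat.Prime.coprime_iff_not_dvd Nat.prime_three).2 h3).symm
        exact_mod_cast Nat.isCoprime_iff_coprime.2 this
      · rw [natCast_zsmul]
        exact h5

theorem z1_lev3 {g : GL (Fin N) ℤ} (h : Lev3 g) :
    ∃ A : Matrix (Fin N) (Fin N) ℤ, (g : Matrix (Fin N) (Fin N) ℤ) = 1 + (3 : ℤ) • A := by
  choose a ha using h
  refine ⟨Matrix.of a, ?_⟩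
  ext i j
  rw [Matrix.add_apply, Matrix.smul_apply, Matrix.of_apply, smul_eq_mul, ← ha i j]
  ring

theorem commute_of_pow {a b : GL (Fin N) ℤ} (h : Lev3 a) (h' : Lev3 a⁻¹) {m : ℕ} (hm : 0 < m)
    (hc : Commute (a ^ m) b) : Commute a b := by
  obtain ⟨A, hA⟩ := z1_lev3 h
  obtain ⟨A', hA'⟩ := z1_lev3 h'
  set E : Module.End ℤ (Matrix (Fin N) (Fin N) ℤ) := LinearMap.mulLeft ℤ A + LinearMap.mulRight ℤ A' +
    (3 : ℤ) • (LinearMap.mulLeft ℤ A * LinearMap.mulRight ℤ A') with hE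
  have h1 : ∀ X, (1 + (3 : ℤ) • E) X =
      (a : Matrix (Fin N) (Fin N) ℤ) * X * ((a⁻¹ : GL (Fin N) ℤ) : Matrix (Fin N) (Fin N) ℤ) := by
    intro X
    rw [hA, hA', hE]
    simp only [LinearMap.add_apply, LinearMap.smul_apply, Module.End.one_apply,
      Module.End.mul_apply, LinearMap.mulLeft_apply, LinearMap.mulRight_apply, add_mul, mul_add,
      one_mul, mul_one, smul_mul_assoc, mul_smul_comm, mul_assoc]
    module
  have h2 : ∀ k : ℕ, ((1 + (3 : ℤ) • E) ^ k) (b : Matrix (Fin N) (Fin N) ℤ) =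
      ((a ^ k * b * (a ^ k)⁻¹ : GL (Fin N) ℤ) : Matrix (Fin N) (Fin N) ℤ) := by
    intro k
    induction k with
    | zero => simp
    | succ k ih =>
      rw [pow_succ', Module.End.mul_apply, ih, h1, ← Units.val_mul, ← Units.val_mul]
      congr 1
      group
  have h3 := z1_fix m hm E b (by rw [h2, hc.eq, mul_inv_cancel_right])
  rw [h1, ← Units.val_mul, ← Units.val_mul, Units.val_inj, mul_inv_eq_iff_eq_mul] at h3
  exact h3

theorem exists_noncentral {G : Type} [Group G] (hG : NoHom G) (ρ : G →* GL (Fin N) ℤ)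
    (h3 : ∀ g, Lev3 (ρ g)) (hne : ¬ ∀ g, ρ g = 1) :
    ∃ a, ∀ m : ℤ, (∀ b, Commute (ρ a ^ m) (ρ b)) → m = 0 := by
  by_contra hc
  push Not at hc
  refine hne (trivial_of_comm hG ρ h3 fun a b => ?_)
  obtain ⟨m, h1, h2⟩ := hc a
  have h4 : Commute (ρ a ^ m.natAbs) (ρ b) := by
    rcases Int.natAbs_eq m with e | e
    · rw [← zpow_natCast, ← e]; exact h1 b
    · have := (h1 b).inv_left
      rwa [e, zpow_neg, inv_inv, zpow_natCast] at this
  have h5 := commute_of_pow (h3 a) (by rw [← map_inv]; exact h3 _) (Int.natAbs_pos.2 h2) h4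
  rw [← toQ_mul, ← toQ_mul, h5.eq, sub_self]
  exact Submodule.zero_mem _

end Pow

theorem block_transport' {ι : Type} [DecidableEq ι] (Γ : Subgroup (AutF ι)) [Γ.Normal]
    [Γ.FiniteIndex] (x : AutF ι) (B : Finset ι) :
    ∃ (Γ' : Subgroup (AutF (Fin B.card))) (_ : Γ'.Normal) (_ : Γ'.FiniteIndex) (j : Γ' →* Γ),
      (∀ γ, ∃ φ ∈ H B, (j γ : AutF ι) = x * φ * x⁻¹) ∧
      ∀ φ ∈ H B, ∀ hγ : x * φ * x⁻¹ ∈ Γ, ∃ γ, j γ = ⟨_, hγ⟩ := by
  obtain ⟨Γ', h1, h2, j, hj⟩ := block_transport (MonoidHom.id Γ) x B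
  refine ⟨Γ', h1, h2, j, fun γ => ?_, fun φ hφ hγ => ?_⟩
  · obtain ⟨φ, hφ, hγ, e⟩ := l7_mem.1 (hj.le (⟨γ, rfl⟩ : j γ ∈ j.range))
    exact ⟨φ, hφ, by rw [← e]; rfl⟩
  · exact hj.ge (l7_mem.2 ⟨φ, hφ, hγ, rfl⟩)

theorem null_move {ι : Type} [DecidableEq ι] [Fintype ι] {Γ : Subgroup (AutF ι)} [Γ.Normal]
    [Γ.FiniteIndex] {N : ℕ} (ρ : Γ →* GL (Fin N) ℤ) (h3 : ∀ γ, Lev3 (ρ γ)) {B : Finset ι}
    (hB : B.card + 3 ≤ Fintype.card ι) (hB' : 303 ≤ B.card) {x g : AutF ι}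
    (hg : ∀ b ∈ B, g (FreeGroup.of b) = FreeGroup.of b) (hx : Null ρ (x * g) B) : Null ρ x B := by
  have key : ∀ g : AutF ι,
      ((∀ φ ∈ H B, Commute g φ) ∨ ∃ t, t ∉ B ∧ ∃ d, ∃ w ∈ sub B, g = srep t d w) →
      ∀ x : AutF ι, Null ρ (x * g) B → Null ρ x B := by
    rintro g (h | ⟨t, ht, d, w, hw, rfl⟩) x hx
    · rw [null_iff, eq_bot_iff] at hx ⊢
      exact (l6_blockIm_comm ρ h).trans hx
    · obtain ⟨Γ', _, _, j, j1, j2⟩ := block_transport' Γ x B
      have hU : ∀ γ, Unip (ρ.comp j γ) := by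
        intro γ
        obtain ⟨φ, hφ, e⟩ := j1 γ
        have hγ : x * φ * x⁻¹ ∈ Γ := e ▸ (j γ).2
        have hn : Γ.Normal := inferInstance
        have e1 : x * srep t d w * φ * (x * srep t d w)⁻¹ =
            (x * srep t d w * x⁻¹) * (x * φ * x⁻¹) * (x * srep t d w * x⁻¹)⁻¹ := by group
        have m1 : x * srep t d w * φ * (x * srep t d w)⁻¹ ∈ Γ := by
          rw [e1]; exact hn.conj_mem _ hγ _
        have hφ' : φ⁻¹ ∈ H B := (H B).inv_mem hφ
        obtain ⟨w', hw', e2⟩ : ∃ w' ∈ sub B,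
            srep t d w' = φ⁻¹ * srep t d w * φ * (srep t d w)⁻¹ := by
          refine ⟨if d then φ⁻¹ w * w⁻¹ else w⁻¹ * φ⁻¹ w, ?_, ?_⟩
          · cases d
            · exact (sub B).mul_mem ((sub B).inv_mem hw) (H_map hφ' hw)
            · exact (sub B).mul_mem (H_map hφ' hw) ((sub B).inv_mem hw)
          · rw [← l6_srep_mul, ← l6_srep_inv, ← l6_srep_conj ht d hw hφ', inv_inv]
        have e3 : x * srep t d w'⁻¹ * x⁻¹ =
            (x * srep t d w * φ * (x * srep t d w)⁻¹)⁻¹ * (x * φ * x⁻¹) := by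
          rw [← l6_srep_inv, e2]; group
        have m2 : x * srep t d w'⁻¹ * x⁻¹ ∈ Γ := by
          rw [e3]; exact Γ.mul_mem (Γ.inv_mem m1) hγ
        have e4 : (⟨_, m2⟩ : Γ) = (⟨_, m1⟩ : Γ)⁻¹ * j γ := Subtype.ext (by
          rw [Subgroup.coe_mul, e]; exact e3)
        have := srep_unip ρ h3 hB ht d ((sub B).inv_mem hw') x m2
        rwa [e4, map_mul, map_inv, hx φ hφ m1, inv_one, one_mul] at this
      intro φ hφ hγ
      obtain ⟨γ, e⟩ := j2 φ hφ hγ
      rw [← e]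
      exact trivial_of_unip (noHom (by simpa using hB') Γ') (ρ.comp j) hU γ
  have main : ∀ g ∈ Subgroup.closure (relGens B), ∀ x : AutF ι, Null ρ (x * g) B → Null ρ x B := by
    intro g hg
    induction hg using Subgroup.closure_induction'' with
    | mem g hg => exact key g (l6_gen hg)
    | inv_mem g hg =>
      refine key g⁻¹ ?_
      rcases l6_gen hg with h | ⟨t, ht, d, w, hw, rfl⟩
      · exact Or.inl fun φ hφ => (h φ hφ).inv_left
      · exact Or.inr ⟨t, ht, d, w⁻¹, (sub B).inv_mem hw, l6_srep_inv t d w⟩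
    | one => intro x hx; rwa [mul_one] at hx
    | mul g g' _ _ ih ih' => intro x hx; rw [← mul_assoc] at hx; exact ih x (ih' _ hx)
  exact main g (nielsen_rel B g hg) x hx

theorem rank_cons {G L : Type} [Group G] [Group L] (ρ : G →* L) {k : ℕ} (a : G)
    (f : Multiplicative (Fin k → ℤ) →* G) (hc : ∀ v, Commute a (f v))
    (hf : Function.Injective (ρ.comp f)) (ha : ∀ (m : ℤ) v, ρ (a ^ m * f v) = 1 → m = 0) :
    ∃ f' : Multiplicative (Fin (k + 1) → ℤ) →* G, Function.Injective (ρ.comp f') := by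
  refine ⟨MonoidHom.mk' (fun v => a ^ (v.toAdd 0) * f (Multiplicative.ofAdd (Fin.tail v.toAdd)))
    fun v w => ?_, (injective_iff_map_eq_one _).2 fun v hv => ?_⟩
  · have e : Multiplicative.ofAdd (Fin.tail (v * w).toAdd) =
        Multiplicative.ofAdd (Fin.tail v.toAdd) * Multiplicative.ofAdd (Fin.tail w.toAdd) := rfl
    rw [e, f.map_mul, toAdd_mul, Pi.add_apply, zpow_add]
    exact ((hc _).zpow_left _).mul_mul_mul_comm _ _
  · have h0 := ha _ _ hv
    have h1 : ρ.comp f (Multiplicative.ofAdd (Fin.tail v.toAdd)) = 1 := by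
      have : ρ (a ^ (v.toAdd 0) * f (Multiplicative.ofAdd (Fin.tail v.toAdd))) = 1 := hv
      rwa [h0, zpow_zero, one_mul] at this
    have h2 : Fin.tail v.toAdd = 0 := (injective_iff_map_eq_one _).1 hf _ h1
    have h3 : v.toAdd = 0 := by
      funext i
      refine Fin.cases h0 (fun i => ?_) i
      exact congrFun h2 i
    exact h3

theorem rank_main (k : ℕ) : ∃ n₀ : ℕ, ∀ n ≥ n₀, ∀ (Γ : Subgroup (AutF (Fin n))) [Γ.Normal]
    [Γ.FiniteIndex] (N : ℕ) (ρ : Γ →* GL (Fin N) ℤ), (∀ γ, Lev3 (ρ γ)) → ¬ (∀ γ, ρ γ = 1) →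
      ∃ f : Multiplicative (Fin k → ℤ) →* Γ, Function.Injective (ρ.comp f) := by
  induction k with
  | zero => exact ⟨0, fun _ _ _ _ _ _ _ _ _ => ⟨1, Function.injective_of_subsingleton _⟩⟩
  | succ k ih =>
    obtain ⟨a, ha⟩ := ih
    obtain ⟨b, hb⟩ := two_bad (max a 303)
    refine ⟨b, fun n hn Γ _ _ N ρ h3 hne => ?_⟩
    obtain ⟨R, hR, hRn, h⟩ := hb n hn
    by_contra hd
    refine hne (h Γ N ρ h3 fun x x' B hB hD => ?_)
    by_contra hc
    have hB1 : B.card + 3 ≤ Fintype.card (Fin n) := by rw [Fintype.card_fin]; omega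
    have hB2 : 303 ≤ B.card := by omega
    obtain ⟨g, g', hg, hg', hcomm⟩ := disj_normal_form hD
    have key : ∀ {y g : AutF (Fin n)}, ¬ Null ρ y B → (∀ b ∈ B, g (FreeGroup.of b) = FreeGroup.of b) →
        ∃ (Γ' : Subgroup (AutF (Fin B.card))) (_ : Γ'.Normal) (_ : Γ'.FiniteIndex) (j : Γ' →* Γ),
          (∀ γ, ∃ φ ∈ H B, (j γ : AutF (Fin n)) = y * g * φ * (y * g)⁻¹) ∧
          ¬ ∀ γ, ρ.comp j γ = 1 := by
      intro y g hy hg
      obtain ⟨Γ', h1, h2, j, j1, j2⟩ := block_transport' Γ (y * g) B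
      refine ⟨Γ', h1, h2, j, j1, fun h0 => hy (null_move ρ h3 hB1 hB2 hg fun φ hφ hγ => ?_)⟩
      obtain ⟨γ, e⟩ := j2 φ hφ hγ
      rw [← e]
      exact h0 γ
    obtain ⟨Γ₁, _, _, j₁, p₁, q₁⟩ := key (fun h0 => hc (Or.inl h0)) hg
    obtain ⟨Γ₂, _, _, j₂, p₂, q₂⟩ := key (fun h0 => hc (Or.inr h0)) hg'
    have hcm : ∀ u v, Commute (j₁ u) (j₂ v) := by
      intro u v
      obtain ⟨φ, hφ, e⟩ := p₁ u
      obtain ⟨ψ, hψ, e'⟩ := p₂ v
      have := hcomm φ hφ ψ hψ
      rw [← e, ← e'] at this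
      exact Subtype.ext this.eq
    obtain ⟨u, hu⟩ := exists_noncentral (noHom (by simpa using hB2) Γ₁) (ρ.comp j₁)
      (fun _ => h3 _) q₁
    obtain ⟨f, hf⟩ := ha B.card (by omega) Γ₂ N (ρ.comp j₂) (fun _ => h3 _) q₂
    refine hd (rank_cons ρ (j₁ u) (j₂.comp f) (fun v => hcm _ _) hf fun m v hm => hu m fun c => ?_)
    have e : ρ.comp j₁ u ^ m = (ρ (j₂ (f v)))⁻¹ := by
      rw [map_mul, map_zpow] at hm
      exact eq_inv_of_mul_eq_one_left hm
    rw [e]
    exact ((hcm c (f v)).map ρ).symm.inv_left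

end Pool.Agent.P.MP_2d26dd_al
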