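import Pool.Agent.P.MP_2d26dd_al.M8
import Pool.Agent.P.MP_2d26dd_al.Z1

/-! Infinite image forces large genus and large abelian rank. -/

namespace Pool.Agent.P.MP_2d26dd_al

theorem z2_core {n g p : ℕ} (hn : 303 ≤ n) (Γ : Subgroup (AutF (Fin n))) [Γ.FiniteIndex]
    (φ : Γ →* Out (SurfGroup g p)) (hφ : ∀ γ, Periph (φ γ)) :
    ∃ (Δ : Subgroup (AutF (Fin n))) (_ : Δ.Normal) (_ : Δ.FiniteIndex) (j : Δ →* Γ)
      (ρ : Δ →* GL (Fin (2 * g)) ℤ), (∀ γ, Lev3 (ρ γ)) ∧ (∀ γ, φ (j γ) = 1 → ρ γ = 1) ∧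
      ((∀ γ, ρ γ = 1) → Finite φ.range) := by
  obtain ⟨ρ, hρ⟩ := exists_homology φ hφ
  obtain ⟨L, hL, hLp⟩ := exists_pure φ hφ
  obtain ⟨K, hK, hK3⟩ := M8_lev3 ρ
  have : ((L ⊓ K).map Γ.subtype).FiniteIndex := by
    refine ⟨?_⟩
    rw [Subgroup.index_map_subtype]
    exact mul_ne_zero Subgroup.FiniteIndex.index_ne_zero Subgroup.FiniteIndex.index_ne_zero
  set Δ : Subgroup (AutF (Fin n)) := ((L ⊓ K).map Γ.subtype).normalCore with hΔ
  have hle : Δ ≤ (L ⊓ K).map Γ.subtype := Subgroup.normalCore_le _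
  have hΔΓ : Δ ≤ Γ := hle.trans (Subgroup.map_subtype_le _)
  have hmem : ∀ γ : Δ, Subgroup.inclusion hΔΓ γ ∈ L ⊓ K := by
    intro γ
    obtain ⟨x, hx, e⟩ := hle γ.2
    have : Subgroup.inclusion hΔΓ γ = x := Subtype.ext e.symm
    rw [this]
    exact hx
  refine ⟨Δ, inferInstance, inferInstance, Subgroup.inclusion hΔΓ,
    ρ.comp (Subgroup.inclusion hΔΓ), fun γ => hK3 _ (hmem γ).2,
    fun γ h => (hρ _ 1 h.symm).2 fun _ _ _ _ => rfl, fun htriv => ?_⟩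
  have hno : NoHom Δ := noHom (by simpa using hn) Δ
  have hadd : ∀ γ : Δ, ∀ α : MulAut (SurfGroup g p),
      QuotientGroup.mk α = (φ.comp (Subgroup.inclusion hΔΓ)) γ → AddInv α :=
    addInv_of_pure hno (φ.comp (Subgroup.inclusion hΔΓ))
      (fun γ α hα => hLp _ (hmem γ).1 α hα)
      (fun γ α hα => (hρ _ α hα).1 (htriv γ))
  have hone : ∀ γ : Δ, φ (Subgroup.inclusion hΔΓ γ) = 1 := by
    intro γ
    obtain ⟨α, hα⟩ := QuotientGroup.mk_surjective (φ (Subgroup.inclusion hΔΓ γ))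
    obtain ⟨c, hc⟩ := inner_surf g p α (hadd γ α hα)
      (nearInv_of_addInv hno (φ.comp (Subgroup.inclusion hΔΓ)) hadd γ α hα)
    rw [← hα, QuotientGroup.eq_one_iff]
    exact ⟨c, by ext x; simp [MulAut.conj_apply, hc x]⟩
  have hker : Δ.subgroupOf Γ ≤ φ.ker := by
    intro x hx
    exact hone ⟨x, hx⟩
  have : φ.ker.FiniteIndex := Subgroup.finiteIndex_of_le hker
  exact Finite.of_equiv _ (QuotientGroup.quotientKerEquivRange φ).toEquiv

theorem z2_aut (k : ℕ) : ∃ n₀ : ℕ, ∀ n ≥ n₀, ∀ (g p : ℕ) (Γ : Subgroup (AutF (Fin n))),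
    Γ.FiniteIndex → ∀ φ : Γ →* Out (SurfGroup g p), (∀ γ, Periph (φ γ)) → Infinite φ.range →
      k ≤ g ∧ ∃ f : Multiplicative (Fin k → ℤ) →* φ.range, Function.Injective f := by
  obtain ⟨n₁, h₁⟩ := rank_main k
  choose n₂ h₂ using M8_aut
  refine ⟨max (max n₁ 303) ((Finset.range k).sup n₂), fun n hn g p Γ hΓ φ hφ hinf => ⟨?_, ?_⟩⟩
  · by_contra hk
    have h3 : n₂ g ≤ n :=
      (Finset.le_sup (f := n₂) (Finset.mem_range.2 (not_le.1 hk))).trans (le_of_max_le_right hn)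
    have := h₂ g n h3 p Γ hΓ φ hφ
    exact not_finite φ.range
  · obtain ⟨Δ, _, _, j, ρ, k1, k2, k3⟩ :=
      z2_core (le_of_max_le_right (le_of_max_le_left hn)) Γ φ hφ
    obtain ⟨f, hf⟩ := h₁ n (le_of_max_le_left (le_of_max_le_left hn)) Δ _ ρ k1 fun h => by
      have := k3 h
      exact not_finite φ.range
    refine ⟨φ.rangeRestrict.comp (j.comp f), (injective_iff_map_eq_one _).2 fun v hv => ?_⟩
    exact (injective_iff_map_eq_one _).1 hf v (k2 _ (congrArg Subtype.val hv))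

theorem rank_genus_main (k : ℕ) : ∃ n₀ : ℕ, ∀ n ≥ n₀, ∀ (g p : ℕ)
    (Γ : Subgroup (Out (FreeGroup (Fin n)))), Γ.FiniteIndex →
    ∀ φ : Γ →* Out (SurfGroup g p), (∀ γ, Periph (φ γ)) → Infinite φ.range →
      k ≤ g ∧ ∃ f : Multiplicative (Fin k → ℤ) →* φ.range, Function.Injective f := by
  obtain ⟨n₀, h⟩ := z2_aut k
  refine ⟨n₀, fun n hn g p Γ hΓ φ hφ hinf => ?_⟩
  have hs : Function.Surjective (QuotientGroup.mk'
      (MulAut.conj : FreeGroup (Fin n) →* MulAut (FreeGroup (Fin n))).range) :=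
    QuotientGroup.mk'_surjective _
  have hfi : (Γ.comap (QuotientGroup.mk'
      (MulAut.conj : FreeGroup (Fin n) →* MulAut (FreeGroup (Fin n))).range)).FiniteIndex :=
    ⟨by rw [Subgroup.index_comap_of_surjective _ hs]; exact hΓ.index_ne_zero⟩
  have hr : (φ.comp ((QuotientGroup.mk'
      (MulAut.conj : FreeGroup (Fin n) →* MulAut (FreeGroup (Fin n))).range).subgroupComap
        Γ)).range = φ.range := by
    rw [MonoidHom.range_comp, MonoidHom.range_eq_top.2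
      (MonoidHom.subgroupComap_surjective_of_surjective _ _ hs), ← MonoidHom.range_eq_map]
  have := h n hn g p _ hfi (φ.comp ((QuotientGroup.mk' _).subgroupComap Γ)) (fun γ => hφ _)
    (by rwa [hr])
  rwa [hr] at this

end Pool.Agent.P.MP_2d26dd_al
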